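import Pool.Agent.MG.H2.CVal

/-!
# The covector of form data and functionals
-/

open CategoryTheory CategoryTheory.Limits AlgebraicGeometry TensorProduct

namespace Pool.Agent.MG.H2

section sq

variable (B : Type) [CommRing B]

/-- the identity of `B[ε]` -/
noncomputable def sqId : SqHom (sqEps B) (sqEps B) (RingHom.id B) (fun _ _ => 1) where
  Φ := RingHom.id (Eps B)
  hi b := rfl
  he j := by simp

/-- `ε ↦ a ε` -/
noncomputable def sqScale (a : B) :
    SqHom (sqEps B) (sqEps B) (RingHom.id B) (fun _ _ => a) where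
  Φ := epsScale a
  hi b := by
    ext <;> simp [sqEps]
  he j := by
    ext <;> simp [sqEps]

/-- `ε₁ ↦ a ε`, `ε₂ ↦ b ε` -/
noncomputable def sqPair (a b : B) :
    SqHom (sqEps2 B) (sqEps B) (RingHom.id B) (fun j _ => if j then a else b) where
  Φ := epsPair a b
  hi b := by
    ext <;> simp [sqEps, sqEps2]
  he j := by
    cases j <;> ext <;> simp [sqEps, sqEps2]

/-- `φ[ε]` -/
noncomputable def sqMap {B : Type} [CommRing B] {B' : Type} [CommRing B'] (φ : B →+* B') :
    SqHom (sqEps B) (sqEps B') φ (fun _ _ => 1) where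
  Φ := epsMap φ
  hi b := by
    ext <;> simp [sqEps, epsMap]
  he j := by
    ext <;> simp [sqEps, epsMap]

/-- The identity arrow. -/
noncomputable def idArr {B : Type} [CommRing B] {n : ℕ} (x : Fam n B) :
    Arrow (RingHom.id B) x x where
  f := 𝟙 x.X
  cart := by
    have h : spMap (RingHom.id B) = 𝟙 (Sp B) := Spec.map_id _
    rw [h]
    exact IsPullback.of_horiz_isIso ⟨by simp⟩
  sec i := by
    have h : spMap (RingHom.id B) = 𝟙 (Sp B) := Spec.map_id _
    rw [h, Category.comp_id, Category.id_comp]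

end sq

section

variable {n : ℕ} {B : Type} [CommRing B] {x : Fam n B}

theorem pb_id {U : x.X.Opens} (h : U ≤ (idArr x).f ⁻¹ᵁ U) (v : Γ(x.X, U)) :
    pb (idArr x) h v = v :=
  COV.id_appLE U h v

open Classical in
/-- The identity of form data. -/
noncomputable def FMap.ident (F : FD x) :
    FMap (idArr x) F F (fun k' k => if k = k' then 1 else 0) where
  κ := fun i => i
  lam := fun e => e
  hs _ := rfl
  ht _ := rfl
  hU _ := le_refl _
  hW _ := le_refl _
  form k' i R' _ r δ _ := by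
    rw [Finset.sum_eq_single k']
    · simp [pb_id]
    · intro k _ hk
      rw [if_neg hk]
      simp
    · intro hh
      exact absurd (Finset.mem_univ _) hh

theorem FMu.sum {F : FD x} (M : FMu F) (k : F.K) (e : F.E) {ι : Type} (s : Finset ι)
    (f : ι → Γ(x.X, F.W e)) : M.μ k e (∑ i ∈ s, f i) = ∑ i ∈ s, M.μ k e (f i) := by
  classical
  have h0 : M.μ k e 0 = 0 := by
    have := M.add k e 0 0
    rw [add_zero] at this
    exact (left_eq_add.1 this)
  induction s using Finset.induction_on with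
  | empty => simp [h0]
  | insert a s ha ih => rw [Finset.sum_insert ha, Finset.sum_insert ha, M.add, ih]

/-- Push forward of classes along morphisms of square zero extensions of the base. -/
theorem FMu.push {E J : Type} [CommRing E] [Fintype J] {S : SqE B E J} {E' J' : Type}
    [CommRing E'] [Fintype J'] {S' : SqE B E' J'} {mm : J → J' → B}
    (Φ : SqHom S S' (RingHom.id B) mm) {F : FD x} (M : FMu F) {t : Thk S x} {t' : Thk S' x}
    (f : Arrow Φ.Φ t'.y t.y) (hf : t'.r.f ≫ f.f = t.r.f)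
    {h : J → F.K → ∀ e, Γ(x.X, F.W e)} (H : Nonempty (FCl F t h))
    {h' : J' → F.K → ∀ e, Γ(x.X, F.W e)} (H' : Nonempty (FCl F t' h')) (j' : J') :
    ∑ k, ∑ e, M.μ k e (h' j' k e) = ∑ j, mm j j' * ∑ k, ∑ e, M.μ k e (h j k e) := by
  classical
  have h1 := FMap.val Φ (FMap.ident F) (f := f) (a := idArr x)
    (by
      change t'.r.f ≫ f.f = 𝟙 x.X ≫ t.r.f
      rw [hf, Category.id_comp]) H H' M j'
  rw [h1]
  have h2 : ∀ (k' : F.K) (e' : F.E), M.μ k' e' (∑ k, coef x.π (F.W e') (if k = k' then 1 else 0) *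
        ∑ j, coef x.π (F.W e') (mm j j') * pb (idArr x) ((FMap.ident F).hW e')
          (h j k ((FMap.ident F).lam e'))) = ∑ j, mm j j' * M.μ k' e' (h j k' e') := by
    intro k' e'
    rw [Finset.sum_eq_single k']
    · rw [if_pos rfl, map_one, one_mul, M.sum]
      refine Finset.sum_congr rfl fun j _ => ?_
      have h3 : pb (idArr x) ((FMap.ident F).hW e') (h j k' ((FMap.ident F).lam e')) =
          h j k' e' := pb_id _ _
      rw [h3]
      exact M.smul k' e' _ _
    · intro k _ hk
      rw [if_neg hk]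
      simp
    · intro hh
      exact absurd (Finset.mem_univ _) hh
  have h3 : ∑ k', ∑ e', M.μ k' e' (∑ k, coef x.π (F.W e') (if k = k' then 1 else 0) *
        ∑ j, coef x.π (F.W e') (mm j j') * pb (idArr x) ((FMap.ident F).hW e')
          (h j k ((FMap.ident F).lam e'))) = ∑ k', ∑ e', ∑ j, mm j j' * M.μ k' e' (h j k' e') :=
    Finset.sum_congr rfl fun k' _ => Finset.sum_congr rfl fun e' _ => h2 k' e'
  refine h3.trans ?_
  simp only [Finset.mul_sum]
  have h4 : ∀ k' : F.K, ∑ e', ∑ j, mm j j' * M.μ k' e' (h j k' e') =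
      ∑ j, ∑ e', mm j j' * M.μ k' e' (h j k' e') := fun k' => Finset.sum_comm
  simp only [h4]
  exact Finset.sum_comm

/-- Form data and functionals give a covector. -/
theorem exists_cov (F : FD x) (M : FMu F) (g : ℕ) : ∃ l : Cov g x, IsFC F M l := by
  have hex : ∀ d : Defo g x, ∃ h : Unit → F.K → ∀ e, Γ(x.X, F.W e), Nonempty (FCl F d.thk h) :=
    fun d => exists_FCl F d.thk
  choose hh hd using hex
  refine ⟨{ l := fun d => ∑ k, ∑ e, M.μ k e (hh d () k e)
            iso := ?_
            scale := ?_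
            add := ?_ }, ?_⟩
  · intro d d' f hf
    have h1 := M.push (sqId B) (t := d'.thk) (t' := d.thk) f hf (hd d') (hd d) ()
    rw [h1]
    simp
  · intro a d d' f hf
    have h1 := M.push (sqScale B a) (t := d.thk) (t' := d'.thk) f hf (hd d) (hd d') ()
    rw [h1]
    simp
  · intro z hz r d₁ d₂ d f₁ f₂ f hf₁ hf₂ hf
    let t : Thk (sqEps2 B) x := ⟨z, hz.flat, r⟩
    obtain ⟨h, hk⟩ := exists_FCl F t
    have h1 := M.push (sqPair B 1 0) (t := t) (t' := d₁.thk) f₁ hf₁ hk (hd d₁) ()
    have h2 := M.push (sqPair B 0 1) (t := t) (t' := d₂.thk) f₂ hf₂ hk (hd d₂) ()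
    have h3 := M.push (sqPair B 1 1) (t := t) (t' := d.thk) f hf hk (hd d) ()
    rw [h1, h2, h3]
    simp
  · intro d h hk
    have h1 := M.push (sqId B) (t := d.thk) (t' := d.thk) (idArr d.y)
      (by change d.r.f ≫ 𝟙 _ = _; exact Category.comp_id _) hk (hd d) ()
    change ∑ k, ∑ e, M.μ k e (hh d () k e) = _
    rw [h1]
    simp

/-- The covector is determined by the form data and functionals. -/
theorem cov_unique {F : FD x} {M : FMu F} {g : ℕ} {l l' : Cov g x} (hl : IsFC F M l)
    (hl' : IsFC F M l') : l = l' := by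
  refine COV.Cov_ext l l' fun d => ?_
  obtain ⟨h, hk⟩ := exists_FCl F d.thk
  rw [hl d (h ()) hk, hl' d (h ()) hk]

/-- Comparison of the covectors of two form data. -/
theorem cov_compat {B' : Type} [CommRing B'] {φ : B →+* B'} {x' : Fam n B'} {a : Arrow φ x' x}
    {F' : FD x'} {F : FD x} {c : F'.K → F.K → B'} (m : FMap a F' F c) (M : FMu F) (M' : FMu F')
    (hc : ∀ h : F.K → ∀ e, Γ(x.X, F.W e),
      ∑ k', ∑ e', M'.μ k' e' (∑ k, coef x'.π (F'.W e') (c k' k) *
        pb a (m.hW e') (h k (m.lam e'))) = φ (∑ k, ∑ e, M.μ k e (h k e)))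
    {g : ℕ} {l : Cov g x} {l' : Cov g x'} (hl : IsFC F M l) (hl' : IsFC F' M' l') :
    Compat a l' l := by
  intro d' d f hf
  obtain ⟨h, hk⟩ := exists_FCl F d.thk
  obtain ⟨h', hk'⟩ := exists_FCl F' d'.thk
  rw [hl d (h ()) hk, hl' d' (h' ()) hk']
  have h1 := FMap.val (sqMap φ) m (t := d.thk) (t' := d'.thk) (f := f) hf hk hk' M' ()
  rw [h1, ← hc (h ())]
  simp

end

end Pool.Agent.MG.H2
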