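import Pool.Agent.MG.H2.CKex

/-!
# Derivations of square zero extensions of formally smooth rings
-/

namespace Pool.Agent.MG.H2

section dex

variable {B G R : Type} [CommRing B] [CommRing G] [CommRing R] (c : B →+* G) (q : G →+* R)
  {J : Type} [Fintype J] (ε : J → G)

/-- Derivations with given values on the `ε j` exist if `R` is formally smooth over `B`. -/
theorem dex (hq : Function.Surjective q) (h0 : ∀ j, q (ε j) = 0) (hm : ∀ i j, ε i * ε j = 0)
    (hε : ∀ v, q v = 0 → ∃ w : J → G, v = ∑ j, ε j * w j)
    (hu : ∀ w : J → G, ∑ j, ε j * w j = 0 → ∀ j, q (w j) = 0)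
    (hs : (q.comp c).FormallySmooth) :
    ∃ δ : J → G → R, (∀ j, DerA c q (δ j)) ∧ (∀ j, δ j (ε j) = 1) ∧
      ∀ i j, i ≠ j → δ j (ε i) = 0 := by
  classical
  let _ : Algebra B G := c.toAlgebra
  let _ : Algebra G R := q.toAlgebra
  let _ : Algebra B R := (q.comp c).toAlgebra
  have _ : IsScalarTower B G R := IsScalarTower.of_algebraMap_eq fun _ => rfl
  have _ : Algebra.FormallySmooth B R := hs
  let g : G →ₐ[B] R := ⟨q, fun _ => rfl⟩
  have hg : Function.Surjective g := hq
  have hk : IsNilpotent (RingHom.ker (g : G →+* R)) := by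
    refine ⟨2, ?_⟩
    rw [pow_two, Ideal.zero_eq_bot, eq_bot_iff, Ideal.mul_le]
    intro a ha b hb
    obtain ⟨w, rfl⟩ := hε a ha
    obtain ⟨w', rfl⟩ := hε b hb
    rw [Ideal.mem_bot, Finset.sum_mul_sum]
    refine Finset.sum_eq_zero fun i _ => Finset.sum_eq_zero fun j _ => ?_
    linear_combination (w i * w' j) * hm i j
  let σ : R →ₐ[B] G := Algebra.FormallySmooth.liftOfSurjective (AlgHom.id B R) g hg hk
  have hσ : ∀ a, q (σ a) = a := fun a =>
    Algebra.FormallySmooth.liftOfSurjective_apply (AlgHom.id B R) g hg hk a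
  have hσc : ∀ b, σ (q (c b)) = c b := fun b => σ.commutes b
  have hw : ∀ v, ∃ w : J → G, v = σ (q v) + ∑ j, ε j * w j := by
    intro v
    obtain ⟨w, hw⟩ := hε (v - σ (q v)) (by rw [map_sub, hσ, sub_self])
    exact ⟨w, by rw [← hw]; ring⟩
  choose w hw using hw
  have key : ∀ v (w' : J → G), v = σ (q v) + ∑ j, ε j * w' j → ∀ j, q (w v j) = q (w' j) := by
    intro v w' h j
    have h1 : ∑ j, ε j * (w v j - w' j) = 0 := by
      simp only [mul_sub, Finset.sum_sub_distrib]
      have := hw v
      linear_combination h - this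
    have h2 := hu _ h1 j
    rwa [map_sub, sub_eq_zero] at h2
  refine ⟨fun j v => q (w v j), fun j => ⟨?_, ?_, ?_⟩, ?_, ?_⟩
  · intro a b
    rw [← map_add]
    refine key (a + b) (fun j => w a j + w b j) ?_ j
    simp only [mul_add, Finset.sum_add_distrib, map_add]
    linear_combination hw a + hw b
  · intro a b
    have h1 : q a * q (w b j) + q b * q (w a j) =
        q (σ (q a) * w b j + σ (q b) * w a j + ∑ i, ε i * (w a i * w b j)) := by
      rw [map_add, map_add, map_mul, map_mul, hσ, hσ, map_sum]
      simp [map_mul, h0]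
    rw [h1]
    refine key (a * b) (fun j => σ (q a) * w b j + σ (q b) * w a j + ∑ i, ε i * (w a i * w b j))
      ?_ j
    have e1 : a * b = (σ (q a) + ∑ j, ε j * w a j) * (σ (q b) + ∑ j, ε j * w b j) := by
      rw [← hw a, ← hw b]
    rw [e1, map_mul, map_mul]
    simp only [mul_add, Finset.sum_add_distrib, map_add, map_mul, map_sum, hσ, h0, zero_mul,
      Finset.sum_const_zero, add_zero]
    simp only [add_mul, mul_add, Finset.sum_add_distrib]
    have e2 : ∀ j, ε j * ∑ i, ε i * (w a i * w b j) = 0 := by
      intro j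
      rw [Finset.mul_sum]
      refine Finset.sum_eq_zero fun i _ => ?_
      linear_combination (w a i * w b j) * hm j i
    have e3 : (∑ j, ε j * w a j) * (∑ j, ε j * w b j) = 0 := by
      rw [Finset.sum_mul_sum]
      refine Finset.sum_eq_zero fun i _ => Finset.sum_eq_zero fun j _ => ?_
      linear_combination (w a i * w b j) * hm i j
    simp only [e2, Finset.sum_const_zero, add_zero]
    rw [e3]
    have e4 : ∀ (x : G) (y : J → G), x * ∑ j, ε j * y j = ∑ j, ε j * (x * y j) := by
      intro x y
      rw [Finset.mul_sum]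
      exact Finset.sum_congr rfl fun j _ => by ring
    have e5 : (∑ j, ε j * w a j) * σ (q b) = ∑ j, ε j * (σ (q b) * w a j) := by
      rw [mul_comm, e4]
    rw [e4, e5]
    ring
  · intro b
    have := key (c b) (fun _ => 0) (by simp [hσc]) j
    change q (w (c b) j) = 0
    rw [this, map_zero]
  · intro j
    have := key (ε j) (fun i => if i = j then 1 else 0) (by simp [h0]) j
    change q (w (ε j) j) = 1
    rw [this]
    simp
  · intro i j hij
    have := key (ε i) (fun l => if l = i then 1 else 0) (by simp [h0]) j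
    change q (w (ε i) j) = 0
    rw [this, if_neg (fun h => hij h.symm), map_zero]

end dex

end Pool.Agent.MG.H2
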