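import Pool.Agent.MG.AFF
import Pool.Agent.MG.KSN
import Pool.Agent.MG.COV
import Pool.Agent.MG.H2.CDex

/-!
# Covectors from differential forms and functionals on `H¹(O)`

`F : FD x`: affine opens `U i` and affine opens `W e ⊆ U (s e) ∩ U (t e)`, smooth over the base, and
for every `k` a differential form `∑ p dq` on the opens `U i`. For a thickening `t` of `x`, lift the
`q` to functions on the thickenings of the `U i` and choose derivations `δ j e` of the functions on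
the thickening of `W e` with `δ j e (ε l) = δ_{jl}`; then `h j k e = ∑ p δ(q~)_s - ∑ p δ(q~)_t` is a
class of `t`.
-/

open CategoryTheory CategoryTheory.Limits AlgebraicGeometry TensorProduct

namespace Pool.Agent.MG.H2

/-- Form data on a family. -/
structure FD {n : ℕ} {B : Type} [CommRing B] (x : Fam n B) where
  /-- charts -/
  I : Type
  /-- edges -/
  E : Type
  /-- forms -/
  K : Type
  [fE : Fintype E]
  [fK : Fintype K]
  /-- charts -/
  U : I → x.X.Opens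
  /-- edges -/
  W : E → x.X.Opens
  /-- source -/
  s : E → I
  /-- target -/
  t : E → I
  ws : ∀ e, W e ≤ U (s e)
  wt : ∀ e, W e ≤ U (t e)
  aff : ∀ i, IsAffineOpen (U i)
  affW : ∀ e, IsAffineOpen (W e)
  sm : ∀ e, (coef x.π (W e)).FormallySmooth
  /-- number of terms -/
  m : ℕ
  /-- coefficients -/
  p : K → ∀ i, Fin m → Γ(x.X, U i)
  /-- functions -/
  q : K → ∀ i, Fin m → Γ(x.X, U i)
  eq : ∀ (k : K) (e : E) (R' : Type) [CommRing R'] (r : Γ(x.X, W e) →+* R')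
    (δ : Γ(x.X, W e) → R'), DerA (coef x.π (W e)) r δ →
    ∑ c, r (rs x.X (ws e) (p k (s e) c)) * δ (rs x.X (ws e) (q k (s e) c)) =
      ∑ c, r (rs x.X (wt e) (p k (t e) c)) * δ (rs x.X (wt e) (q k (t e) c))

attribute [instance] FD.fE FD.fK

section

variable {n : ℕ} {B E J : Type} [CommRing B] [CommRing E] [Fintype J] {S : SqE B E J}
  {x : Fam n B}

/-- `h` is a class of the thickening `t`. -/
structure FCl (F : FD x) (t : Thk S x) (h : J → F.K → ∀ e, Γ(x.X, F.W e)) where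
  /-- lifts -/
  L : F.K → ∀ i, Fin F.m → Γ(t.y.X, t.op (F.U i))
  hL : ∀ k i c, t.q (F.U i) (L k i c) = F.q k i c
  /-- derivations -/
  δ : J → ∀ e, Γ(t.y.X, t.op (F.W e)) → Γ(x.X, F.W e)
  der : ∀ j e, DerA ((coef t.y.π (t.op (F.W e))).comp S.i) (t.q (F.W e)) (δ j e)
  e1 : ∀ j e, δ j e (coef t.y.π (t.op (F.W e)) (S.ε j)) = 1
  e0 : ∀ i j e, i ≠ j → δ j e (coef t.y.π (t.op (F.W e)) (S.ε i)) = 0
  val : ∀ j k e, h j k e =
    ∑ c, rs x.X (F.ws e) (F.p k (F.s e) c) *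
        δ j e (rs t.y.X (t.op_mono (F.ws e)) (L k (F.s e) c)) -
      ∑ c, rs x.X (F.wt e) (F.p k (F.t e) c) *
        δ j e (rs t.y.X (t.op_mono (F.wt e)) (L k (F.t e) c))

/-- Functionals which vanish on coboundaries. -/
structure FMu (F : FD x) where
  /-- the functionals -/
  μ : F.K → ∀ e, Γ(x.X, F.W e) → B
  add : ∀ k e a b, μ k e (a + b) = μ k e a + μ k e b
  smul : ∀ k e (b : B) a, μ k e (coef x.π (F.W e) b * a) = b * μ k e a
  ker : ∀ (k : F.K) (a : ∀ i, Γ(x.X, F.U i)),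
    ∑ e, μ k e (rs x.X (F.ws e) (a (F.s e)) - rs x.X (F.wt e) (a (F.t e))) = 0

/-- `l` is the covector given by the functionals `M`. -/
def IsFC {g : ℕ} (F : FD x) (M : FMu F) (l : Cov g x) : Prop :=
  ∀ (d : Defo g x) (h : F.K → ∀ e, Γ(x.X, F.W e)),
    Nonempty (FCl F d.thk (fun _ : Unit => h)) → l.l d = ∑ k, ∑ e, M.μ k e (h k e)

/-- Pull back of functions along an arrow. -/
noncomputable def pb {B' : Type} [CommRing B'] {φ : B →+* B'} {x' : Fam n B'} (a : Arrow φ x' x)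
    {U : x.X.Opens} {U' : x'.X.Opens} (h : U' ≤ a.f ⁻¹ᵁ U) : Γ(x.X, U) →+* Γ(x'.X, U') :=
  (a.f.appLE U U' h).hom

/-- Comparison of form data along an arrow: the forms `k'` on `x'` are linear combinations of the
pull backs of the forms `k` on `x`. -/
structure FMap {B' : Type} [CommRing B'] {φ : B →+* B'} {x' : Fam n B'} (a : Arrow φ x' x)
    (F' : FD x') (F : FD x) (c : F'.K → F.K → B') where
  /-- charts -/
  κ : F'.I → F.I
  /-- edges -/
  lam : F'.E → F.E
  hs : ∀ e, F.s (lam e) = κ (F'.s e)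
  ht : ∀ e, F.t (lam e) = κ (F'.t e)
  hU : ∀ i, F'.U i ≤ a.f ⁻¹ᵁ (F.U (κ i))
  hW : ∀ e, F'.W e ≤ a.f ⁻¹ᵁ (F.W (lam e))
  form : ∀ (k' : F'.K) (i : F'.I) (R' : Type) [CommRing R'] (r : Γ(x'.X, F'.U i) →+* R')
    (δ : Γ(x'.X, F'.U i) → R'), DerA (coef x'.π (F'.U i)) r δ →
    ∑ j, r (F'.p k' i j) * δ (F'.q k' i j) =
      ∑ k, r (coef x'.π (F'.U i) (c k' k)) *
        ∑ j, r (pb a (hU i) (F.p k (κ i) j)) * δ (pb a (hU i) (F.q k (κ i) j))

end

end Pool.Agent.MG.H2
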