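import Pool.Agent.MG.H2.StmtsF

/-!
# CFD: the differential `dx/y` and the dual derivation
-/

open Polynomial

namespace Pool.Agent.MG.H2

namespace CFD46

variable {B : Type} [CommRing B] {f : Fin 7 → B}

theorem pp_val {R : Type} [CommRing R] [Algebra B R] (x : R) :
    aeval x (pp B f) = pol (fun i => algebraMap B R (f i)) x := by
  change (aeval x : B[X] →ₐ[B] R).toRingHom (pp B f) = _
  rw [pp, pol_map]
  simp

theorem pp_eval {R : Type} [CommRing R] (φ : B →+* R) (x : R) :
    (pp B f).eval₂ φ x = pol (fun i => φ (f i)) x := by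
  change eval₂RingHom φ x (pp B f) = _
  rw [pp, pol_map]
  simp

theorem eval₂_nil {R : Type} [CommRing R] (φ : B →+* R) (x y : R) (h : y ^ 2 = 0) (p : B[X]) :
    p.eval₂ φ (x + y) = p.eval₂ φ x + (derivative p).eval₂ φ x * y := by
  rw [eval₂_eq_eval_map, eval₂_eq_eval_map, eval₂_eq_eval_map, eval_add_of_sq_eq_zero _ _ _ h,
    derivative_map]

theorem rel : y1 B f ^ 2 = aeval (x1 B f) (pp B f) := by
  rw [pp_val]
  exact rel1 B f

theorem der_ext {R' : Type} [CommRing R'] {r : A1 B f →+* R'} {d1 d2 : A1 B f → R'}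
    (h1 : DerA (algebraMap B (A1 B f)) r d1) (h2 : DerA (algebraMap B (A1 B f)) r d2)
    (hx : d1 (x1 B f) = d2 (x1 B f)) (hy : d1 (y1 B f) = d2 (y1 B f)) (v : A1 B f) :
    d1 v = d2 v := by
  obtain ⟨p, rfl⟩ := Ideal.Quotient.mk_surjective v
  induction p using MvPolynomial.induction_on with
  | C a => exact (h1.const a).trans (h2.const a).symm
  | add p q hp hq => rw [map_add, h1.add, h2.add, hp, hq]
  | mul_X p i hp =>
    have hi : d1 (Ideal.Quotient.mk (Ideal.span {eq1 B f}) (MvPolynomial.X i)) =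
        d2 (Ideal.Quotient.mk (Ideal.span {eq1 B f}) (MvPolynomial.X i)) := by
      fin_cases i
      · exact hx
      · exact hy
    rw [map_mul, h1.mul, h2.mul, hp, hi]

theorem der_poly {A R' : Type} [CommRing A] [Algebra B A] [CommRing R'] {r : A →+* R'}
    {d : A → R'} (h : DerA (algebraMap B A) r d) (x : A) (p : B[X]) :
    d (aeval x p) = r (aeval x (derivative p)) * d x := by
  induction p using Polynomial.induction_on with
  | C a =>
    rw [aeval_C, h.const, derivative_C, map_zero, map_zero, zero_mul]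
  | add p q hp hq =>
    rw [map_add, h.add, hp, hq, derivative_add, map_add, map_add]
    ring
  | monomial n a hn =>
    have e : (C a * X ^ (n + 1) : B[X]) = (C a * X ^ n) * X := by ring
    have e' : derivative (C a * X ^ n * X : B[X]) =
        derivative (C a * X ^ n) * X + C a * X ^ n := by
      rw [derivative_mul, derivative_X, mul_one]
    have e1 : aeval x ((C a * X ^ n) * X : B[X]) = aeval x (C a * X ^ n : B[X]) * x := by
      rw [map_mul (aeval x) (C a * X ^ n) X, aeval_X]
    have e2 : aeval x (derivative (C a * X ^ n) * X : B[X]) =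
        aeval x (derivative (C a * X ^ n) : B[X]) * x := by
      rw [map_mul (aeval x) (derivative (C a * X ^ n)) X, aeval_X]
    rw [e, e', e1, h.mul, hn, map_add, e2, map_add, map_mul r _ x]
    ring

/-- the homomorphism `v ↦ v + ε D v` -/
noncomputable def Phi (f : Fin 7 → B) : A1 B f →+* TrivSqZeroExt (A1 B f) (A1 B f) :=
  lift1 ((TrivSqZeroExt.inlHom (A1 B f) (A1 B f)).comp (algebraMap B (A1 B f)))
    (TrivSqZeroExt.inl (x1 B f) + TrivSqZeroExt.inr (2 * y1 B f))
    (TrivSqZeroExt.inl (y1 B f) +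
      TrivSqZeroExt.inr (aeval (x1 B f) (derivative (pp B f)))) (by
    rw [← pp_eval]
    have hz : (TrivSqZeroExt.inr (2 * y1 B f) : TrivSqZeroExt (A1 B f) (A1 B f)) ^ 2 = 0 := by
      rw [pow_two, TrivSqZeroExt.inr_mul_inr]
    have e3 := eval₂_nil (R := TrivSqZeroExt (A1 B f) (A1 B f))
      ((TrivSqZeroExt.inlHom (A1 B f) (A1 B f)).comp (algebraMap B (A1 B f)))
      (TrivSqZeroExt.inl (x1 B f)) (TrivSqZeroExt.inr (2 * y1 B f)) hz (pp B f)
    refine Eq.trans ?_ e3.symm
    have e2 : ∀ p : B[X], eval₂ ((TrivSqZeroExt.inlHom (A1 B f) (A1 B f)).comp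
        (algebraMap B (A1 B f))) (TrivSqZeroExt.inl (x1 B f) :
        TrivSqZeroExt (A1 B f) (A1 B f)) p = TrivSqZeroExt.inl (aeval (x1 B f) p) := by
      intro p
      exact (hom_eval₂ p (algebraMap B (A1 B f))
        (TrivSqZeroExt.inlHom (A1 B f) (A1 B f)) (x1 B f)).symm
    rw [e2, e2, ← rel]
    ext
    · simp
    · simp [pow_two]
      ring)

theorem Phi_b (b : B) : Phi f (algebraMap B _ b) = TrivSqZeroExt.inl (algebraMap B _ b) :=
  lift1_b _ _ _ _ _

theorem Phi_x : Phi f (x1 B f) = TrivSqZeroExt.inl (x1 B f) +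
    TrivSqZeroExt.inr (2 * y1 B f) := lift1_x _ _ _ _

theorem Phi_y : Phi f (y1 B f) = TrivSqZeroExt.inl (y1 B f) +
    TrivSqZeroExt.inr (aeval (x1 B f) (derivative (pp B f))) := lift1_y _ _ _ _

theorem Phi_fst (v : A1 B f) : (Phi f v).fst = v := by
  have h : (TrivSqZeroExt.fstHom (A1 B f) (A1 B f) (A1 B f)).toRingHom.comp (Phi f) =
      RingHom.id _ := by
    refine hom1_ext ?_ ?_ ?_
    · intro c
      change (Phi f (algebraMap B _ c)).fst = _
      rw [Phi_b]
      rfl
    · change (Phi f (x1 B f)).fst = _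
      rw [Phi_x]
      simp
    · change (Phi f (y1 B f)).fst = _
      rw [Phi_y]
      simp
  exact congrArg (fun g => g v) h

/-- the derivation -/
noncomputable def Der (f : Fin 7 → B) : Derivation B (A1 B f) (A1 B f) :=
  Derivation.mk' 
    { toFun := fun v => (Phi f v).snd
      map_add' := fun v w => by rw [map_add, TrivSqZeroExt.snd_add]
      map_smul' := fun b v => by
        rw [Algebra.smul_def, map_mul, Phi_b, TrivSqZeroExt.snd_mul, RingHom.id_apply,
          Algebra.smul_def b (Phi f v).snd]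
        simp } (fun v w => by
    change (Phi f (v * w)).snd = v • (Phi f w).snd + w • (Phi f v).snd
    rw [map_mul, TrivSqZeroExt.snd_mul, Phi_fst, Phi_fst, op_smul_eq_smul])

theorem Der_x : Der f (x1 B f) = 2 * y1 B f := by
  change (Phi f (x1 B f)).snd = _
  rw [Phi_x]
  simp

theorem Der_y : Der f (y1 B f) = aeval (x1 B f) (derivative (pp B f)) := by
  change (Phi f (y1 B f)).snd = _
  rw [Phi_y]
  simp

end CFD46

theorem t_CFD : Stmt_CFD := by
  intro B _ f
  refine ⟨CFD46.Der f, CFD46.Der_x, CFD46.Der_y, ?_⟩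
  intro A C hb R' _ r d hd
  have e1 : r (aeval (x1 B f) A) * r (aeval (x1 B f) (pp B f)) +
      r (aeval (x1 B f) C) * r (aeval (x1 B f) (derivative (pp B f))) = 1 := by
    have h := congrArg (fun p => r (aeval (x1 B f) p)) hb
    simpa only [map_add, map_mul, map_one] using h
  have e2 : r (y1 B f) ^ 2 = r (aeval (x1 B f) (pp B f)) := by
    rw [← map_pow, CFD46.rel]
  have e3 : 2 * (r (y1 B f) * d (y1 B f)) =
      r (aeval (x1 B f) (derivative (pp B f))) * d (x1 B f) := by
    rw [← CFD46.der_poly hd, ← CFD46.rel, pow_two, hd.mul]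
    ring
  have g1 : r (y1 B f) * om1 A C r d = d (x1 B f) := by
    unfold om1
    linear_combination (d (x1 B f)) * e1 + (r (aeval (x1 B f) A) * d (x1 B f)) * e2 +
      (r (aeval (x1 B f) C)) * e3
  have g2 : r (aeval (x1 B f) (derivative (pp B f))) * om1 A C r d = 2 * d (y1 B f) := by
    unfold om1
    linear_combination (2 * d (y1 B f)) * e1 + (2 * r (aeval (x1 B f) A) * d (y1 B f)) * e2 -
      (r (aeval (x1 B f) A) * r (y1 B f)) * e3
  refine ⟨g1, g2, ?_⟩
  refine CFD46.der_ext (r := r) (d1 := fun v => 2 * d v)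
    (d2 := fun v => om1 A C r d * r (CFD46.Der f v)) ?_ ?_ ?_ ?_
  · refine ⟨?_, ?_, ?_⟩
    · intro a b
      show 2 * d (a + b) = 2 * d a + 2 * d b
      rw [hd.add]
      ring
    · intro a b
      show 2 * d (a * b) = r a * (2 * d b) + r b * (2 * d a)
      rw [hd.mul]
      ring
    · intro b
      show 2 * d (algebraMap B _ b) = 0
      rw [hd.const, mul_zero]
  · refine ⟨?_, ?_, ?_⟩
    · intro a b
      show om1 A C r d * r (CFD46.Der f (a + b)) = om1 A C r d * r (CFD46.Der f a) +
        om1 A C r d * r (CFD46.Der f b)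
      rw [map_add, map_add]
      ring
    · intro a b
      show om1 A C r d * r (CFD46.Der f (a * b)) = r a * (om1 A C r d * r (CFD46.Der f b)) +
        r b * (om1 A C r d * r (CFD46.Der f a))
      rw [Derivation.leibniz, smul_eq_mul, smul_eq_mul, map_add, map_mul, map_mul]
      ring
    · intro b
      show om1 A C r d * r (CFD46.Der f (algebraMap B _ b)) = 0
      rw [Derivation.map_algebraMap, map_zero, mul_zero]
  · show 2 * d (x1 B f) = om1 A C r d * r (CFD46.Der f (x1 B f))
    rw [CFD46.Der_x, map_mul, map_ofNat, ← g1]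
    ring
  · show 2 * d (y1 B f) = om1 A C r d * r (CFD46.Der f (y1 B f))
    rw [CFD46.Der_y, ← g2]
    ring

end Pool.Agent.MG.H2
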