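import Pool.Agent.MG.H2.StmtsH

/-!
# The rings of the charts of the curves `y² = f(x)` (module H2_HRG)
-/

open CategoryTheory CategoryTheory.Limits AlgebraicGeometry TensorProduct

namespace Pool.Agent.MG.H2

namespace HRG

section

variable {B : Type} [CommRing B] (f : Fin 7 → B)

/-- `p(x) + q(x) y` -/
noncomputable def vl (p q : Polynomial B) : A1 B f :=
  Polynomial.aeval (x1 B f) p + Polynomial.aeval (x1 B f) q * y1 B f

/-- The ring `R[ω]`, `ω² = F`. -/
abbrev QA {R : Type} [CommRing R] (F : R) : Type := QuadraticAlgebra R F 0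

/-- The embedding of `R`. -/
def al {R : Type} [CommRing R] (F : R) : R →+* QA F := algebraMap R (QuadraticAlgebra R F 0)

/-- The element `ω` of a quadratic algebra. -/
def om {R : Type} [CommRing R] (F : R) : QA F := ⟨0, 1⟩

theorem om_sq {R : Type} [CommRing R] (F : R) : om F ^ 2 = al F F := by
  rw [pow_two]
  ext
  · simp [om, al]
  · simp [om, al]

theorem mk_om {R : Type} [CommRing R] (F p q : R) : al F p + al F q * om F = ⟨p, q⟩ := by
  ext
  · simp [om, al]
  · simp [om, al]

/-- The polynomial `f`. -/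
noncomputable def F1 : Polynomial B := pol (fun i => Polynomial.C (f i)) Polynomial.X

/-- The map of `A₁` to the quadratic algebra over `B[x]`. -/
noncomputable def psi1 : A1 B f →+* QA (F1 f) :=
  lift1 ((al (F1 f)).comp Polynomial.C) (al (F1 f) Polynomial.X) (om (F1 f)) (by
      rw [om_sq]
      unfold F1
      rw [pol_map]
      rfl)

theorem psi1_aeval (p : Polynomial B) :
    psi1 f (Polynomial.aeval (x1 B f) p) = al (F1 f) p := by
  have h : (psi1 f).comp (Polynomial.aeval (x1 B f) : Polynomial B →ₐ[B] A1 B f).toRingHom =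
      al (F1 f) := by
    refine Polynomial.ringHom_ext (fun a => ?_) ?_
    · show psi1 f (Polynomial.aeval (x1 B f) (Polynomial.C a)) = _
      rw [Polynomial.aeval_C, psi1, lift1_b]
      rfl
    · show psi1 f (Polynomial.aeval (x1 B f) Polynomial.X) = _
      rw [Polynomial.aeval_X, psi1, lift1_x]
  exact RingHom.congr_fun h p

theorem psi1_vl (p q : Polynomial B) : psi1 f (vl f p q) = ⟨p, q⟩ := by
  have hy : psi1 f (y1 B f) = om (F1 f) := lift1_y _ _ _ _
  rw [vl, map_add, map_mul, psi1_aeval, psi1_aeval, hy, mk_om]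

theorem exists_vl (v : A1 B f) : ∃ p q : Polynomial B, v = vl f p q := by
  obtain ⟨v, rfl⟩ := Ideal.Quotient.mk_surjective v
  induction v using MvPolynomial.induction_on with
  | C c =>
    refine ⟨Polynomial.C c, 0, ?_⟩
    unfold vl
    rw [Polynomial.aeval_C, map_zero, zero_mul, add_zero]
    rfl
  | add v w hv hw =>
    obtain ⟨p, q, h⟩ := hv
    obtain ⟨p', q', h'⟩ := hw
    refine ⟨p + p', q + q', ?_⟩
    rw [map_add, h, h']
    unfold vl
    rw [map_add, map_add]
    ring
  | mul_X v i hv =>
    obtain ⟨p, q, h⟩ := hv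
    rw [map_mul, h]
    fin_cases i
    · refine ⟨p * Polynomial.X, q * Polynomial.X, ?_⟩
      show vl f p q * x1 B f = _
      unfold vl
      rw [map_mul, map_mul, Polynomial.aeval_X]
      ring
    · refine ⟨q * F1 f, p, ?_⟩
      show vl f p q * y1 B f = _
      unfold vl
      have h1 := rel1 B f
      have h2 : Polynomial.aeval (x1 B f) (F1 f) = pol (fun i => algebraMap B _ (f i)) (x1 B f) := by
        unfold F1
        have h3 := pol_map (Polynomial.aeval (x1 B f) : Polynomial B →ₐ[B] A1 B f).toRingHom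
          (fun i => Polynomial.C (f i)) Polynomial.X
        refine h3.trans ?_
        show pol (fun i => Polynomial.aeval (x1 B f) (Polynomial.C (f i)))
          (Polynomial.aeval (x1 B f) Polynomial.X) = _
        simp only [Polynomial.aeval_X, Polynomial.aeval_C]
      rw [map_mul, h2, ← h1]
      ring

theorem vl_inj {p q p' q' : Polynomial B} (h : vl f p q = vl f p' q') : p = p' ∧ q = q' := by
  have h1 := congrArg (psi1 f) h
  rw [psi1_vl, psi1_vl] at h1
  exact ⟨congrArg QuadraticAlgebra.re h1, congrArg QuadraticAlgebra.im h1⟩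

theorem x_reg (v : A1 B f) (h : x1 B f * v = 0) : v = 0 := by
  obtain ⟨p, q, rfl⟩ := exists_vl f v
  have h1 : x1 B f * vl f p q = vl f (Polynomial.X * p) (Polynomial.X * q) := by
    unfold vl
    rw [map_mul, map_mul, Polynomial.aeval_X]
    ring
  have h2 : vl f (Polynomial.X * p) (Polynomial.X * q) = vl f 0 0 := by
    rw [← h1, h]
    unfold vl
    rw [map_zero, zero_mul, add_zero]
  obtain ⟨h3, h4⟩ := vl_inj f h2
  have h5 : p = 0 := by
    ext n
    have := congrArg (fun r => Polynomial.coeff r (n + 1)) h3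
    simpa [Polynomial.coeff_X_mul] using this
  have h6 : q = 0 := by
    ext n
    have := congrArg (fun r => Polynomial.coeff r (n + 1)) h4
    simpa [Polynomial.coeff_X_mul] using this
  rw [h5, h6]
  unfold vl
  rw [map_zero, zero_mul, add_zero]

theorem g1_inj : Function.Injective (g1 B f) := by
  refine IsLocalization.injective (A12 B f) (M := Submonoid.powers (x1 B f)) ?_
  rw [Submonoid.powers_le, mem_nonZeroDivisors_iff_right]
  intro v hv
  exact x_reg f v (by rw [mul_comm]; exact hv)

theorem g2_inj : Function.Injective (g2 B f) := by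
  unfold g2
  have h : Function.Injective (inv12 (rev_h f)) := (invEquiv (rev_h f) (rev_h' f)).injective
  exact h.comp (g1_inj (rev f))

/-! ### The intersection -/

/-- Evaluation of Laurent polynomials at `x`. -/
noncomputable def ev : LaurentPolynomial B →+* A12 B f :=
  LaurentPolynomial.eval₂ (algebraMap B (A12 B f)) (xu B f)

theorem ev_toLaurent (p : Polynomial B) :
    ev f (Polynomial.toLaurent p) = g1 B f (Polynomial.aeval (x1 B f) p) := by
  unfold ev
  rw [LaurentPolynomial.eval₂_toLaurent, Polynomial.aeval_def, Polynomial.hom_eval₂]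
  rfl

/-- The unit `T`. -/
noncomputable def TU : (LaurentPolynomial B)ˣ := (LaurentPolynomial.isUnit_T 1).unit

/-- The Laurent polynomial `f`. -/
noncomputable def F12 : LaurentPolynomial B :=
  pol (fun i => LaurentPolynomial.C (f i)) (LaurentPolynomial.T 1)

/-- The map of `A₁₂` to the quadratic algebra over `B[x, 1/x]`. -/
noncomputable def psi12 : A12 B f →+* QA (F12 f) :=
  lift12 ((al (F12 f)).comp LaurentPolynomial.C)
    (Units.map (al (F12 f)).toMonoidHom TU) (om (F12 f)) (by
      rw [om_sq]
      unfold F12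
      rw [pol_map]
      rfl)

theorem psi12_ev (p : LaurentPolynomial B) : psi12 f (ev f p) = al (F12 f) p := by
  have h : (psi12 f).comp (ev f) = al (F12 f) := by
    refine IsLocalization.ringHom_ext (Submonoid.powers (Polynomial.X : Polynomial B)) ?_
    refine Polynomial.ringHom_ext (fun a => ?_) ?_
    · show psi12 f (ev f (Polynomial.toLaurent (Polynomial.C a))) =
        al (F12 f) (Polynomial.toLaurent (Polynomial.C a))
      rw [ev_toLaurent, Polynomial.aeval_C, g1_b, psi12, lift12_b, Polynomial.toLaurent_C]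
      rfl
    · show psi12 f (ev f (Polynomial.toLaurent (Polynomial.X : Polynomial B))) =
        al (F12 f) (Polynomial.toLaurent (Polynomial.X : Polynomial B))
      rw [ev_toLaurent, Polynomial.aeval_X, ← xu_val, psi12, lift12_x, Polynomial.toLaurent_X]
      rfl
  exact RingHom.congr_fun h p

theorem psi12_pair (p q : LaurentPolynomial B) : psi12 f (ev f p + ev f q * yv B f) = ⟨p, q⟩ := by
  have hy : psi12 f (yv B f) = om (F12 f) := lift12_y _ _ _ _
  rw [map_add, map_mul, psi12_ev, psi12_ev, hy, mk_om]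

theorem exists_pair (v : A12 B f) :
    ∃ p q : LaurentPolynomial B, v = ev f p + ev f q * yv B f := by
  obtain ⟨n, w, hw⟩ := IsLocalization.Away.surj (x1 B f) v
  obtain ⟨p, q, rfl⟩ := exists_vl f w
  refine ⟨LaurentPolynomial.T (-n) * Polynomial.toLaurent p,
    LaurentPolynomial.T (-n) * Polynomial.toLaurent q, ?_⟩
  have h1 : v * (xu B f : A12 B f) ^ n = g1 B f (vl f p q) := hw
  have h2 : ev f (LaurentPolynomial.T (-n)) = ((xu B f)⁻¹ : (A12 B f)ˣ).val ^ n := by
    unfold ev
    rw [LaurentPolynomial.eval₂_T_neg_n]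
  have h3 : ((xu B f)⁻¹ : (A12 B f)ˣ).val ^ n * (xu B f : A12 B f) ^ n = 1 := by
    rw [← mul_pow, Units.inv_mul, one_pow]
  have h4 : v = ((xu B f)⁻¹ : (A12 B f)ˣ).val ^ n * g1 B f (vl f p q) := by
    rw [← h1]
    linear_combination (-v) * h3
  rw [h4, map_mul, map_mul, h2, ev_toLaurent, ev_toLaurent, vl, map_add, map_mul, g1_y]
  ring

end

end HRG

open HRG in
theorem t_HRG : Stmt_HRG := by
  intro B _ f
  refine ⟨?_, g1_inj f, g2_inj f, ?_⟩
  · intro v
    obtain ⟨p, q, rfl⟩ := exists_vl f v
    refine ⟨(p, q), rfl, ?_⟩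
    rintro ⟨p', q'⟩ h
    have h1 : vl f p q = vl f p' q' := h
    obtain ⟨h2, h3⟩ := vl_inj f h1
    rw [h2, h3]
  · intro v
    obtain ⟨p, q, rfl⟩ := exists_pair f v
    refine ⟨(p, q), rfl, ?_⟩
    rintro ⟨p', q'⟩ h
    have h1 : ev f p + ev f q * yv B f = ev f p' + ev f q' * yv B f := h
    have h2 := congrArg (psi12 f) h1
    rw [psi12_pair, psi12_pair] at h2
    have h3 : p = p' := congrArg QuadraticAlgebra.re h2
    have h4 : q = q' := congrArg QuadraticAlgebra.im h2
    rw [h3, h4]

end Pool.Agent.MG.H2
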