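import Pool.Agent.MG.H2.StmtsF
import Pool.Agent.MG.H2.HRG

/-!
# CFF: the rings of the charts are free and formally smooth
-/

open Polynomial

namespace Pool.Agent.MG.H2

namespace CFF62

variable {B : Type} [CommRing B] {f : Fin 7 → B}

theorem pp_val {R : Type} [CommRing R] [Algebra B R] (x : R) :
    aeval x (pp B f) = pol (fun i => algebraMap B R (f i)) x := by
  change (aeval x : B[X] →ₐ[B] R).toRingHom (pp B f) = _
  rw [pp, pol_map]
  simp

/-- `(p, q) ↦ p(x) + q(x) y` -/
noncomputable def lin1 (f : Fin 7 → B) : (B[X] × B[X]) →ₗ[B] A1 B f where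
  toFun pq := HRG.vl f pq.1 pq.2
  map_add' a b := by
    simp only [HRG.vl, Prod.fst_add, Prod.snd_add, map_add]
    ring
  map_smul' c a := by
    simp only [HRG.vl, Prod.smul_fst, Prod.smul_snd, map_smul, RingHom.id_apply, smul_add,
      smul_mul_assoc]

theorem lin1_bij : Function.Bijective (lin1 f) := by
  constructor
  · rintro ⟨p, q⟩ ⟨p', q'⟩ h
    obtain ⟨h1, h2⟩ := HRG.vl_inj f h
    exact Prod.ext h1 h2
  · intro v
    obtain ⟨p, q, h⟩ := HRG.exists_vl f v
    exact ⟨(p, q), h.symm⟩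

theorem free1 (f : Fin 7 → B) : Module.Free B (A1 B f) :=
  Module.Free.of_equiv (LinearEquiv.ofBijective (lin1 f) lin1_bij)

theorem ev_smul (c : B) (p : LaurentPolynomial B) :
    HRG.ev f (c • p) = c • HRG.ev f p := by
  rw [LaurentPolynomial.smul_eq_C_mul, map_mul, Algebra.smul_def]
  congr 1
  exact LaurentPolynomial.eval₂_C _ _ _

/-- `(p, q) ↦ p(x) + q(x) y` for Laurent polynomials -/
noncomputable def lin12 (f : Fin 7 → B) :
    (LaurentPolynomial B × LaurentPolynomial B) →ₗ[B] A12 B f where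
  toFun pq := HRG.ev f pq.1 + HRG.ev f pq.2 * yv B f
  map_add' a b := by
    simp only [Prod.fst_add, Prod.snd_add, map_add]
    ring
  map_smul' c a := by
    simp only [Prod.smul_fst, Prod.smul_snd, ev_smul, RingHom.id_apply, smul_add,
      smul_mul_assoc]

theorem lin12_bij : Function.Bijective (lin12 f) := by
  constructor
  · rintro ⟨p, q⟩ ⟨p', q'⟩ h
    have h1 : HRG.ev f p + HRG.ev f q * yv B f = HRG.ev f p' + HRG.ev f q' * yv B f := h
    have h2 := congrArg (HRG.psi12 f) h1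
    rw [HRG.psi12_pair, HRG.psi12_pair] at h2
    have h3 : p = p' := congrArg QuadraticAlgebra.re h2
    have h4 : q = q' := congrArg QuadraticAlgebra.im h2
    rw [h3, h4]
  · intro v
    obtain ⟨p, q, h⟩ := HRG.exists_pair f v
    exact ⟨(p, q), h.symm⟩

theorem free12 (f : Fin 7 → B) : Module.Free B (A12 B f) :=
  Module.Free.of_equiv (LinearEquiv.ofBijective (lin12 f) lin12_bij)

theorem solve {R : Type} [CommRing R] (h y e F F' A C : R) (h2 : 2 * h = 1)
    (hB : A * F + C * F' = 1) (he : e * e = 0) (hy : y ^ 2 = F + e) :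
    (y - h * A * y * e) ^ 2 = F + F' * (C * e) := by
  linear_combination (1 - 2 * h * A * e) * hy + (h ^ 2 * A ^ 2 * y ^ 2 - 2 * h * A) * he -
    e * hB - A * F * e * h2

theorem smooth1 (A C₁ : B[X]) (h : Bez f A C₁) (h2 : IsUnit (2 : B)) :
    Algebra.FormallySmooth B (A1 B f) := by
  refine Algebra.FormallySmooth.of_comp_surjective ?_
  intro R _ _ I hI g
  obtain ⟨x0, hx0⟩ := Ideal.Quotient.mk_surjective (g (x1 B f))
  obtain ⟨y0, hy0⟩ := Ideal.Quotient.mk_surjective (g (y1 B f))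
  obtain ⟨t, ht⟩ := h2.exists_left_inv
  have ht' : 2 * algebraMap B R t = 1 := by
    rw [← map_one (algebraMap B R), ← ht, map_mul, map_ofNat, mul_comm]
  have hBz : aeval x0 A * aeval x0 (pp B f) + aeval x0 C₁ * aeval x0 (derivative (pp B f)) =
      1 := by
    rw [← map_mul, ← map_mul, ← map_add, h, map_one]
  set e : R := y0 ^ 2 - aeval x0 (pp B f) with he
  have heI : e ∈ I := by
    rw [← Ideal.Quotient.eq_zero_iff_mem, he, map_sub, map_pow, hy0]
    have h3 : Ideal.Quotient.mk I (aeval x0 (pp B f)) = aeval (g (x1 B f)) (pp B f) := by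
      rw [← hx0]
      exact (aeval_algHom_apply (Ideal.Quotient.mkₐ B I) x0 (pp B f)).symm
    rw [h3, aeval_algHom_apply g, pp_val, ← rel1, map_pow, sub_self]
  have hee : e * e = 0 := by
    have h3 : e * e ∈ I ^ 2 := by
      rw [pow_two]
      exact Ideal.mul_mem_mul heI heI
    rw [hI] at h3
    exact h3
  have hre : (y0 - algebraMap B R t * aeval x0 A * y0 * e) ^ 2 =
      pol (fun i => algebraMap B R (f i)) (x0 + aeval x0 C₁ * e) := by
    rw [← pp_val, aeval_add_of_sq_eq_zero _ _ _ (by rw [mul_pow, pow_two e, hee, mul_zero])]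
    exact solve _ _ _ _ _ _ _ ht' hBz hee (by rw [he]; ring)
  let φ : A1 B f →ₐ[B] R :=
    { lift1 (algebraMap B R) (x0 + aeval x0 C₁ * e)
        (y0 - algebraMap B R t * aeval x0 A * y0 * e) hre with
      commutes' := fun c => lift1_b _ _ _ hre c }
  have hφx : φ (x1 B f) = x0 + aeval x0 C₁ * e := lift1_x _ _ _ hre
  have hφy : φ (y1 B f) = y0 - algebraMap B R t * aeval x0 A * y0 * e := lift1_y _ _ _ hre
  have he0 : Ideal.Quotient.mk I e = 0 := Ideal.Quotient.eq_zero_iff_mem.2 heI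
  refine ⟨φ, ?_⟩
  have h4 : ((Ideal.Quotient.mkₐ B I).comp φ).toRingHom = g.toRingHom := by
    refine hom1_ext (fun c => ?_) ?_ ?_
    · change Ideal.Quotient.mkₐ B I (φ (algebraMap B _ c)) = g (algebraMap B _ c)
      rw [AlgHom.commutes, AlgHom.commutes, AlgHom.commutes]
    · change Ideal.Quotient.mk I (φ (x1 B f)) = g (x1 B f)
      rw [hφx, map_add, map_mul, he0, mul_zero, add_zero, hx0]
    · change Ideal.Quotient.mk I (φ (y1 B f)) = g (y1 B f)
      rw [hφy, map_sub, map_mul, he0, mul_zero, sub_zero, hy0]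
  exact AlgHom.ext fun v => RingHom.congr_fun h4 v

theorem smooth12 (A C₁ : B[X]) (h : Bez f A C₁) (h2 : IsUnit (2 : B)) :
    Algebra.FormallySmooth B (A12 B f) := by
  have := smooth1 A C₁ h h2
  infer_instance

end CFF62

theorem t_CFF : Stmt_CFF := fun _ _ f =>
  ⟨CFF62.free1 f, CFF62.free12 f, fun A C₁ h h2 =>
    ⟨CFF62.smooth1 A C₁ h h2, CFF62.smooth12 A C₁ h h2⟩⟩

end Pool.Agent.MG.H2
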