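import Pool.Agent.MG.H2.StmtsF

/-!
# Laurent coefficients of functions on the curves `y² = f(x)`
-/

open Polynomial

namespace Pool.Agent.MG.H2

section

variable {B : Type} [CommRing B] {f : Fin 7 → B}

theorem leq_natDegree_le (p : LY B f) :
    (AdjoinRoot.modByMonicHom (leq_monic B f) p).natDegree ≤ 1 := by
  obtain ⟨q, rfl⟩ := AdjoinRoot.mk_surjective p
  rw [AdjoinRoot.modByMonicHom_mk]
  rcases subsingleton_or_nontrivial B with h | h
  · have : Subsingleton (LaurentPolynomial B) := inferInstance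
    have h2 : q %ₘ leq B f = 0 := Subsingleton.elim _ _
    rw [h2, natDegree_zero]
    norm_num
  · have h1 : leq B f ≠ 1 := by
      intro h1
      have h2 : (leq B f).natDegree = 2 := natDegree_X_pow_sub_C
      rw [h1, natDegree_one] at h2
      exact absurd h2 (by norm_num)
    have h3 := natDegree_modByMonic_lt q (leq_monic B f) h1
    rw [natDegree_X_pow_sub_C] at h3
    omega

theorem toLY_eq (v : A12 B f) :
    toLY B f v = AdjoinRoot.of _ (lco 0 v) + AdjoinRoot.of _ (lco 1 v) * AdjoinRoot.root _ := by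
  have h := AdjoinRoot.mk_leftInverse (leq_monic B f) (toLY B f v)
  have h2 := Polynomial.eq_X_add_C_of_natDegree_le_one (leq_natDegree_le (toLY B f v))
  rw [h2] at h
  rw [← h]
  simp only [map_add, map_mul, AdjoinRoot.mk_C, AdjoinRoot.mk_X]
  rw [add_comm]
  rfl

theorem lco_of {v : A12 B f} {p q : LaurentPolynomial B}
    (h : toLY B f v = AdjoinRoot.of _ p + AdjoinRoot.of _ q * AdjoinRoot.root _) :
    lco 0 v = p ∧ lco 1 v = q := by
  have h1 : toLY B f v = AdjoinRoot.mk _ (C q * X + C p) := by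
    rw [h]
    simp only [map_add, map_mul, AdjoinRoot.mk_C, AdjoinRoot.mk_X]
    rw [add_comm]
  have h2 : AdjoinRoot.modByMonicHom (leq_monic B f) (toLY B f v) = C q * X + C p := by
    rw [h1, AdjoinRoot.modByMonicHom_mk]
    rcases subsingleton_or_nontrivial B with hB | hB
    · exact Subsingleton.elim _ _
    · rw [Polynomial.modByMonic_eq_self_iff (leq_monic B f)]
      refine lt_of_le_of_lt degree_linear_le ?_
      rw [degree_X_pow_sub_C (by norm_num)]
      norm_num
  constructor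
  · change (AdjoinRoot.modByMonicHom (leq_monic B f) (toLY B f v)).coeff 0 = p
    rw [h2]
    simp
  · change (AdjoinRoot.modByMonicHom (leq_monic B f) (toLY B f v)).coeff 1 = q
    rw [h2]
    simp

/-- A Laurent polynomial in `x`. -/
noncomputable def ev (B : Type) [CommRing B] (f : Fin 7 → B) : LaurentPolynomial B →+* A12 B f :=
  LaurentPolynomial.eval₂ (algebraMap B (A12 B f)) (xu B f)

theorem ev_C (c : B) : ev B f (LaurentPolynomial.C c) = algebraMap B _ c :=
  LaurentPolynomial.eval₂_C _ _ _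

theorem ev_T (n : ℤ) : ev B f (LaurentPolynomial.T n) = ((xu B f) ^ n : (A12 B f)ˣ).val :=
  LaurentPolynomial.eval₂_T _ _ _

theorem ev_T1 : ev B f (LaurentPolynomial.T 1) = xx f := by
  rw [ev_T, zpow_one]

theorem ev_Tm1 : ev B f (LaurentPolynomial.T (-1)) = xi f := by
  rw [ev_T, zpow_neg_one]

theorem ev_toLaurent (p : B[X]) : ev B f (toLaurent p) = aeval (xx f) p :=
  LaurentPolynomial.eval₂_toLaurent _ _ _

theorem laurent_hom_ext {R : Type} [CommRing R] {g g' : LaurentPolynomial B →+* R}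
    (hC : ∀ c, g (LaurentPolynomial.C c) = g' (LaurentPolynomial.C c))
    (h1 : g (LaurentPolynomial.T 1) = g' (LaurentPolynomial.T 1)) : g = g' := by
  refine IsLocalization.ringHom_ext (M := Submonoid.powers (X : B[X])) ?_
  refine Polynomial.ringHom_ext (fun c => ?_) ?_
  · have := hC c
    rwa [← Polynomial.toLaurent_C, ← LaurentPolynomial.algebraMap_eq_toLaurent] at this
  · have := h1
    rwa [← Polynomial.toLaurent_X, ← LaurentPolynomial.algebraMap_eq_toLaurent] at this

theorem toLY_ev (p : LaurentPolynomial B) : toLY B f (ev B f p) = AdjoinRoot.of _ p := by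
  have : (toLY B f).comp (ev B f) = AdjoinRoot.of _ := by
    refine laurent_hom_ext (fun c => ?_) ?_
    · rw [RingHom.comp_apply, ev_C, toLY_b]
    · rw [RingHom.comp_apply, ev_T1, toLY_x]
  exact congrArg (fun g => g p) this

theorem ev_lpol : ev B f (lpol B f) = yv B f ^ 2 := by
  rw [rel12, lpol, pol_map]
  congr 1
  · funext i
    exact ev_C _
  · exact ev_T1

/-- The inverse of `toLY`. -/
noncomputable def ofLY (B : Type) [CommRing B] (f : Fin 7 → B) : LY B f →+* A12 B f :=
  AdjoinRoot.lift (ev B f) (yv B f) (by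
    rw [eval₂_sub, eval₂_pow, eval₂_X, eval₂_C, ev_lpol, sub_self])

theorem ofLY_toLY (v : A12 B f) : ofLY B f (toLY B f v) = v := by
  have : (ofLY B f).comp (toLY B f) = RingHom.id _ := by
    refine hom12_ext ?_ ?_ ?_
    · intro c
      rw [RingHom.comp_apply, toLY_b, ofLY, AdjoinRoot.lift_of, ev_C]
      rfl
    · rw [RingHom.comp_apply, toLY_x, ofLY, AdjoinRoot.lift_of, ev_T1]
      rfl
    · rw [RingHom.comp_apply, toLY_y, ofLY, AdjoinRoot.lift_root]
      rfl
  exact congrArg (fun g => g v) this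

/-- `A₁₂ = B[x, 1/x] + B[x, 1/x] y`. -/
theorem eq_ev (v : A12 B f) : v = ev B f (lco 0 v) + ev B f (lco 1 v) * yv B f := by
  have h := congrArg (ofLY B f) (toLY_eq v)
  rwa [ofLY_toLY, map_add, map_mul, ofLY, AdjoinRoot.lift_of, AdjoinRoot.lift_of,
    AdjoinRoot.lift_root] at h

theorem lco_ev (p q : LaurentPolynomial B) :
    lco 0 (ev B f p + ev B f q * yv B f) = p ∧ lco 1 (ev B f p + ev B f q * yv B f) = q :=
  lco_of (by rw [map_add, map_mul, toLY_ev, toLY_ev, toLY_y])

theorem lco_ext {v w : A12 B f} (h0 : lco 0 v = lco 0 w) (h1 : lco 1 v = lco 1 w) : v = w := by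
  rw [eq_ev v, eq_ev w, h0, h1]

/-- Functions with the same coefficients are equal. -/
theorem cf_ext {v w : A12 B f} (h0 : ∀ j, cg j v = cg j w) (h1 : ∀ j, cf j v = cf j w) : v = w :=
  lco_ext (LaurentPolynomial.ext h0) (LaurentPolynomial.ext h1)

theorem lco_ev_mul (i : Fin 2) (p : LaurentPolynomial B) (v : A12 B f) :
    lco (i : ℕ) (ev B f p * v) = p * lco (i : ℕ) v := by
  have h : ev B f p * v = ev B f (p * lco 0 v) + ev B f (p * lco 1 v) * yv B f := by
    conv_lhs => rw [eq_ev v]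
    rw [map_mul, map_mul]
    ring
  fin_cases i
  · rw [h]
    exact (lco_ev _ _).1
  · rw [h]
    exact (lco_ev _ _).2

theorem CT_coeff (m j : ℤ) (a : B) :
    (LaurentPolynomial.C a * LaurentPolynomial.T m).coeff j = if m = j then a else 0 := by
  rw [← LaurentPolynomial.single_eq_C_mul_T]
  exact Finsupp.single_apply

theorem T_mul_coeff (n j : ℤ) (p : LaurentPolynomial B) :
    (LaurentPolynomial.T n * p).coeff j = p.coeff (j - n) := by
  induction p using LaurentPolynomial.induction_on' with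
  | add p q hp hq =>
    rw [mul_add]
    change (LaurentPolynomial.T n * p).coeff j + (LaurentPolynomial.T n * q).coeff j =
      p.coeff (j - n) + q.coeff (j - n)
    rw [hp, hq]
  | C_mul_T m a =>
    have : (LaurentPolynomial.T n * (LaurentPolynomial.C a * LaurentPolynomial.T m) :
        LaurentPolynomial B) = LaurentPolynomial.C a * LaurentPolynomial.T (n + m) := by
      rw [LaurentPolynomial.T_add]
      ring
    rw [this, CT_coeff, CT_coeff]
    have : (n + m = j) ↔ (m = j - n) := by omega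
    simp only [this]

theorem C_mul_coeff (c : B) (j : ℤ) (p : LaurentPolynomial B) :
    (LaurentPolynomial.C c * p).coeff j = c * p.coeff j := by
  rw [← LaurentPolynomial.smul_eq_C_mul]
  rfl

/-! ## Formulas -/

theorem cf_zpow (n j : ℤ) (v : A12 B f) :
    cf j (((xu B f) ^ n : (A12 B f)ˣ).val * v) = cf (j - n) v := by
  change (lco 1 _).coeff j = (lco 1 v).coeff (j - n)
  have := lco_ev_mul 1 (LaurentPolynomial.T n) v
  rw [ev_T] at this
  rw [Fin.val_one] at this
  rw [this, T_mul_coeff]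

theorem cg_zpow (n j : ℤ) (v : A12 B f) :
    cg j (((xu B f) ^ n : (A12 B f)ˣ).val * v) = cg (j - n) v := by
  change (lco 0 _).coeff j = (lco 0 v).coeff (j - n)
  have := lco_ev_mul 0 (LaurentPolynomial.T n) v
  rw [ev_T] at this
  rw [Fin.val_zero] at this
  rw [this, T_mul_coeff]

theorem cf_x (j : ℤ) (v : A12 B f) : cf j (xx f * v) = cf (j - 1) v := by
  have := cf_zpow 1 j v
  rwa [zpow_one] at this

theorem cg_x (j : ℤ) (v : A12 B f) : cg j (xx f * v) = cg (j - 1) v := by
  have := cg_zpow 1 j v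
  rwa [zpow_one] at this

theorem cf_xi (j : ℤ) (v : A12 B f) : cf j (xi f * v) = cf (j + 1) v := by
  have := cf_zpow (-1) j v
  rwa [zpow_neg_one, sub_neg_eq_add] at this

theorem cg_xi (j : ℤ) (v : A12 B f) : cg j (xi f * v) = cg (j + 1) v := by
  have := cg_zpow (-1) j v
  rwa [zpow_neg_one, sub_neg_eq_add] at this

theorem cf_xpow (n : ℕ) (j : ℤ) (v : A12 B f) : cf j (xx f ^ n * v) = cf (j - n) v := by
  have := cf_zpow (n : ℤ) j v
  rwa [zpow_natCast, Units.val_pow_eq_pow_val] at this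

theorem cg_xpow (n : ℕ) (j : ℤ) (v : A12 B f) : cg j (xx f ^ n * v) = cg (j - n) v := by
  have := cg_zpow (n : ℤ) j v
  rwa [zpow_natCast, Units.val_pow_eq_pow_val] at this

theorem cf_xipow (n : ℕ) (j : ℤ) (v : A12 B f) : cf j (xi f ^ n * v) = cf (j + n) v := by
  have := cf_zpow (-(n : ℤ)) j v
  rwa [zpow_neg, zpow_natCast, ← inv_pow, Units.val_pow_eq_pow_val, sub_neg_eq_add] at this

theorem cg_xipow (n : ℕ) (j : ℤ) (v : A12 B f) : cg j (xi f ^ n * v) = cg (j + n) v := by
  have := cg_zpow (-(n : ℤ)) j v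
  rwa [zpow_neg, zpow_natCast, ← inv_pow, Units.val_pow_eq_pow_val, sub_neg_eq_add] at this

theorem cf_b (c : B) (j : ℤ) (v : A12 B f) : cf j (algebraMap B _ c * v) = c * cf j v := by
  rw [← Algebra.smul_def, map_smul, smul_eq_mul]

theorem cg_b (c : B) (j : ℤ) (v : A12 B f) : cg j (algebraMap B _ c * v) = c * cg j v := by
  rw [← Algebra.smul_def, map_smul, smul_eq_mul]

theorem cf_ev (p : LaurentPolynomial B) (j : ℤ) : cf j (ev B f p) = 0 := by
  have := (lco_ev (f := f) p 0).2
  rw [map_zero, zero_mul, add_zero] at this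
  change (lco 1 _).coeff j = 0
  rw [this]
  rfl

theorem cg_ev (p : LaurentPolynomial B) (j : ℤ) : cg j (ev B f p) = p.coeff j := by
  have := (lco_ev (f := f) p 0).1
  rw [map_zero, zero_mul, add_zero] at this
  change (lco 0 _).coeff j = _
  rw [this]

theorem cf_ev_y (p : LaurentPolynomial B) (j : ℤ) : cf j (ev B f p * yv B f) = p.coeff j := by
  have := (lco_ev (f := f) 0 p).2
  rw [map_zero, zero_add] at this
  change (lco 1 _).coeff j = _
  rw [this]

theorem cg_ev_y (p : LaurentPolynomial B) (j : ℤ) : cg j (ev B f p * yv B f) = 0 := by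
  have := (lco_ev (f := f) 0 p).1
  rw [map_zero, zero_add] at this
  change (lco 0 _).coeff j = 0
  rw [this]
  rfl

/-- Induction. -/
theorem A12_ind {P : A12 B f → Prop} (v : A12 B f) (hadd : ∀ v w, P v → P w → P (v + w))
    (hx : ∀ (c : B) (m : ℤ), P (algebraMap B _ c * ((xu B f) ^ m : (A12 B f)ˣ).val))
    (hy : ∀ (c : B) (m : ℤ), P (algebraMap B _ c * ((xu B f) ^ m : (A12 B f)ˣ).val * yv B f)) :
    P v := by
  have h1 : ∀ p, P (ev B f p) := by
    intro p
    induction p using LaurentPolynomial.induction_on' with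
    | add p q hp hq =>
      rw [map_add]
      exact hadd _ _ hp hq
    | C_mul_T m a =>
      rw [map_mul, ev_C, ev_T]
      exact hx a m
  have h2 : ∀ p, P (ev B f p * yv B f) := by
    intro p
    induction p using LaurentPolynomial.induction_on' with
    | add p q hp hq =>
      rw [map_add, add_mul]
      exact hadd _ _ hp hq
    | C_mul_T m a =>
      rw [map_mul, ev_C, ev_T]
      exact hy a m
  rw [eq_ev v]
  exact hadd _ _ (h1 _) (h2 _)

theorem cf_mono (c : B) (m j : ℤ) :
    cf j (algebraMap B (A12 B f) c * ((xu B f) ^ m : (A12 B f)ˣ).val) = 0 := by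
  have := cf_ev (f := f) (LaurentPolynomial.C c * LaurentPolynomial.T m) j
  rwa [map_mul, ev_C, ev_T] at this

theorem cg_mono (c : B) (m j : ℤ) :
    cg j (algebraMap B (A12 B f) c * ((xu B f) ^ m : (A12 B f)ˣ).val) = if m = j then c else 0 := by
  have := cg_ev (f := f) (LaurentPolynomial.C c * LaurentPolynomial.T m) j
  rwa [map_mul, ev_C, ev_T, CT_coeff] at this

theorem cf_mono_y (c : B) (m j : ℤ) :
    cf j (algebraMap B (A12 B f) c * ((xu B f) ^ m : (A12 B f)ˣ).val * yv B f) =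
      if m = j then c else 0 := by
  have := cf_ev_y (f := f) (LaurentPolynomial.C c * LaurentPolynomial.T m) j
  rwa [(ev B f).map_mul, ev_C, ev_T, CT_coeff] at this

theorem cg_mono_y (c : B) (m j : ℤ) :
    cg j (algebraMap B (A12 B f) c * ((xu B f) ^ m : (A12 B f)ˣ).val * yv B f) = 0 := by
  have := cg_ev_y (f := f) (LaurentPolynomial.C c * LaurentPolynomial.T m) j
  rwa [(ev B f).map_mul, ev_C, ev_T] at this

/-- Only finitely many coefficients are not zero. -/
theorem cf_fin (v : A12 B f) : ∃ N : ℤ, 0 ≤ N ∧ ∀ j, N < |j| → cf j v = 0 ∧ cg j v = 0 := by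
  refine A12_ind (P := fun v => ∃ N : ℤ, 0 ≤ N ∧ ∀ j, N < |j| → cf j v = 0 ∧ cg j v = 0) v
    ?_ ?_ ?_
  · rintro v w ⟨N, hN, hv⟩ ⟨M, hM, hw⟩
    refine ⟨max N M, le_max_of_le_left hN, fun j hj => ?_⟩
    have h1 := hv j (lt_of_le_of_lt (le_max_left _ _) hj)
    have h2 := hw j (lt_of_le_of_lt (le_max_right _ _) hj)
    rw [map_add, map_add, h1.1, h1.2, h2.1, h2.2, add_zero]
    exact ⟨rfl, rfl⟩
  · intro c m
    refine ⟨|m|, abs_nonneg _, fun j hj => ⟨cf_mono _ _ _, ?_⟩⟩
    rw [cg_mono, if_neg]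
    rintro rfl
    exact lt_irrefl _ hj
  · intro c m
    refine ⟨|m|, abs_nonneg _, fun j hj => ⟨?_, cg_mono_y _ _ _⟩⟩
    rw [cf_mono_y, if_neg]
    rintro rfl
    exact lt_irrefl _ hj

theorem toLaurent_coeff (p : B[X]) (j : ℤ) :
    (toLaurent p).coeff j = if 0 ≤ j then p.coeff j.toNat else 0 := by
  induction p using Polynomial.induction_on' with
  | add p q hp hq =>
    rw [map_add]
    change (toLaurent p).coeff j + (toLaurent q).coeff j = _
    rw [hp, hq, coeff_add]
    split_ifs <;> simp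
  | monomial n a =>
    rw [← C_mul_X_pow_eq_monomial, Polynomial.toLaurent_C_mul_X_pow, CT_coeff, coeff_C_mul_X_pow]
    by_cases h : 0 ≤ j
    · rw [if_pos h]
      have : ((n : ℤ) = j) ↔ (j.toNat = n) := by omega
      simp only [this]
    · rw [if_neg h, if_neg]
      omega

/-- Coefficients of polynomials in `x`. -/
theorem cf_aeval_y (p : B[X]) (j : ℤ) :
    cf j (aeval (xx f) p * yv B f) = if 0 ≤ j then p.coeff j.toNat else 0 := by
  rw [← ev_toLaurent, cf_ev_y, toLaurent_coeff]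

theorem cg_aeval (p : B[X]) (j : ℤ) :
    cg j (aeval (xx f) p) = if 0 ≤ j then p.coeff j.toNat else 0 := by
  rw [← ev_toLaurent, cg_ev, toLaurent_coeff]

theorem cf_aeval (p : B[X]) (j : ℤ) : cf j (aeval (xx f) p) = 0 := by
  rw [← ev_toLaurent, cf_ev]

theorem cg_aeval_y (p : B[X]) (j : ℤ) : cg j (aeval (xx f) p * yv B f) = 0 := by
  rw [← ev_toLaurent, cg_ev_y]

theorem map_zpow_val {R R' : Type} [CommRing R] [CommRing R'] (g : R →+* R') (u : Rˣ) (u' : R'ˣ)
    (h : g (u : R) = (u' : R')) (m : ℤ) : g ((u ^ m : Rˣ) : R) = ((u' ^ m : R'ˣ) : R') := by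
  have h1 : Units.map (g : R →* R') u = u' := by
    ext1
    exact h
  rw [← h1, ← map_zpow]
  rfl

/-- Base change. -/
theorem cf_bc12 {B' : Type} [CommRing B'] (φ : B →+* B') {f' : Fin 7 → B'}
    (hf : ∀ i, f' i = φ (f i)) (v : A12 B f) (j : ℤ) :
    cf j (bc12 φ hf v) = φ (cf j v) ∧ cg j (bc12 φ hf v) = φ (cg j v) := by
  refine A12_ind (P := fun v => cf j (bc12 φ hf v) = φ (cf j v) ∧
    cg j (bc12 φ hf v) = φ (cg j v)) v ?_ ?_ ?_
  · rintro v w ⟨h1, h2⟩ ⟨h3, h4⟩
    simp only [map_add, h1, h2, h3, h4, and_self]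
  · intro c m
    rw [map_mul, bc12_b, map_zpow_val (bc12 φ hf) _ _ (bc12_x φ hf), cf_mono, cg_mono, cf_mono,
      cg_mono]
    refine ⟨(map_zero φ).symm, ?_⟩
    split_ifs
    · rfl
    · exact (map_zero φ).symm
  · intro c m
    rw [(bc12 φ hf).map_mul, (bc12 φ hf).map_mul, bc12_b,
      map_zpow_val (bc12 φ hf) _ _ (bc12_x φ hf), bc12_y, cf_mono_y,
      cg_mono_y, cf_mono_y, cg_mono_y]
    refine ⟨?_, (map_zero φ).symm⟩
    split_ifs
    · rfl
    · exact (map_zero φ).symm

/-- Inversion. -/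
theorem cf_inv12 {f' : Fin 7 → B} (h : ∀ i, f' i = f (Fin.rev i)) (v : A12 B f) (j : ℤ) :
    cf j (inv12 h v) = cf (-3 - j) v ∧ cg j (inv12 h v) = cg (-j) v := by
  refine A12_ind (P := fun v => cf j (inv12 h v) = cf (-3 - j) v ∧
    cg j (inv12 h v) = cg (-j) v) v ?_ ?_ ?_
  · rintro v w ⟨h1, h2⟩ ⟨h3, h4⟩
    simp only [map_add, h1, h2, h3, h4, and_self]
  · intro c m
    rw [map_mul, inv12_b, map_zpow_val (inv12 h) _ _ (inv12_x h), inv_zpow', cf_mono, cg_mono,
      cf_mono, cg_mono]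
    refine ⟨rfl, ?_⟩
    have : (-m = j) ↔ (m = -j) := by omega
    simp only [this]
  · intro c m
    have e : inv12 h (algebraMap B (A12 B f) c * ((xu B f) ^ m : (A12 B f)ˣ).val * yv B f) =
        algebraMap B _ c * ((xu B f') ^ (-m - 3) : (A12 B f')ˣ).val * yv B f' := by
      rw [map_mul, map_mul, inv12_b, map_zpow_val (inv12 h) _ _ (inv12_x h), inv_zpow', inv12_y,
        sub_eq_add_neg (-m), zpow_add, Units.val_mul, zpow_neg _ (3 : ℤ), inv_pow]
      have : (xu B f') ^ (3 : ℤ) = (xu B f') ^ 3 := by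
        exact zpow_natCast _ 3
      rw [this]
      ring
    rw [e, cf_mono_y, cg_mono_y, cf_mono_y, cg_mono_y]
    refine ⟨?_, rfl⟩
    have : (-m - 3 = j) ↔ (m = -3 - j) := by omega
    simp only [this]

/-- Scaling. -/
theorem cf_sc12 {lam : Bˣ} {nu : B} {f' : Fin 7 → B} (h : IsSc (lam : B) nu f f') (v : A12 B f)
    (j : ℤ) : cf j (sc12 h v) = ((lam ^ j : Bˣ) : B) * nu * cf j v ∧
      cg j (sc12 h v) = ((lam ^ j : Bˣ) : B) * cg j v := by
  refine A12_ind (P := fun v => cf j (sc12 h v) = ((lam ^ j : Bˣ) : B) * nu * cf j v ∧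
    cg j (sc12 h v) = ((lam ^ j : Bˣ) : B) * cg j v) v ?_ ?_ ?_
  · rintro v w ⟨h1, h2⟩ ⟨h3, h4⟩
    simp only [map_add, h1, h2, h3, h4, mul_add, and_self]
  all_goals
    intro c m
    have e : sc12 h ((xu B f) ^ m : (A12 B f)ˣ).val =
        algebraMap B _ ((lam ^ m : Bˣ) : B) * ((xu B f') ^ m : (A12 B f')ˣ).val := by
      rw [map_zpow_val (sc12 h) _ (Units.map (algebraMap B (A12 B f') : B →* A12 B f') lam *
        xu B f') (sc12_x h), mul_zpow, Units.val_mul, ← map_zpow]
      rfl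
  · rw [map_mul, sc12_b, e, ← mul_assoc, ← map_mul, cf_mono, cg_mono, cf_mono, cg_mono]
    refine ⟨(mul_zero _).symm, ?_⟩
    split_ifs with hm
    · rw [hm, mul_comm]
    · exact (mul_zero _).symm
  · have e2 : sc12 h (algebraMap B (A12 B f) c * ((xu B f) ^ m : (A12 B f)ˣ).val * yv B f) =
        algebraMap B _ (c * ((lam ^ m : Bˣ) : B) * nu) * ((xu B f') ^ m : (A12 B f')ˣ).val *
          yv B f' := by
      rw [map_mul, map_mul, sc12_b, e, sc12_y, (algebraMap B (A12 B f')).map_mul,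
        (algebraMap B (A12 B f')).map_mul]
      ring
    rw [e2, cf_mono_y, cg_mono_y, cf_mono_y, cg_mono_y]
    refine ⟨?_, (mul_zero _).symm⟩
    split_ifs with hm
    · rw [hm]
      ring
    · exact (mul_zero _).symm

end

end Pool.Agent.MG.H2
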