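import Pool.Agent.MG.H2.StmtsF
import Pool.Agent.MG.H2.Cf

/-!
# The difference of the values of `dx/y` on the two charts
-/

open Polynomial

namespace Pool.Agent.MG.H2

namespace CFV

/-! ### Pure algebra -/

section alg

variable {R : Type} [CommRing R]

/-- The difference of the two values as a function of `a = D x`, `b = D y`. -/
def W (y u Ax Cx Au Cu a b : R) : R :=
  (Ax * y * a + 2 * Cx * b) + u * (Au * (y * u ^ 3) * (-(u ^ 2) * a) +
    2 * Cu * (u ^ 3 * b - 3 * y * u ^ 4 * a))

theorem W_zero (y u Ax Cx Au Cu a b F F' : R) (hy : y ^ 2 = F) (h1 : Ax * F + Cx * F' = 1)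
    (h2 : Au * (u ^ 6 * F) + Cu * (6 * u ^ 5 * F - u ^ 4 * F') = 1)
    (hab : 2 * y * b = F' * a) : W y u Ax Cx Au Cu a b = 0 := by
  have e1 : y * W y u Ax Cx Au Cu a b = 0 := by
    simp only [W]
    linear_combination (Ax * a - u ^ 6 * Au * a - 6 * Cu * u ^ 5 * a) * hy + (Cx + Cu * u ^ 4) * hab +
      a * h1 - a * h2
  have e2 : F' * W y u Ax Cx Au Cu a b = 0 := by
    simp only [W]
    linear_combination (2 * Ax * b - 2 * Au * u ^ 6 * b - 12 * Cu * u ^ 5 * b) * hy +
      (-(Ax * y) + Au * u ^ 6 * y + 6 * Cu * u ^ 5 * y) * hab + 2 * b * h1 - 2 * b * h2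
  have e3 : W y u Ax Cx Au Cu a b = Ax * y * (y * W y u Ax Cx Au Cu a b) +
      Cx * (F' * W y u Ax Cx Au Cu a b) := by
    linear_combination (-(Ax * W y u Ax Cx Au Cu a b)) * hy - W y u Ax Cx Au Cu a b * h1
  rw [e3, e1, e2]
  ring

/-- The derivative. -/
def dp (f : Fin 7 → R) (x : R) : R :=
  f 1 + 2 * f 2 * x + 3 * f 3 * x ^ 2 + 4 * f 4 * x ^ 3 + 5 * f 5 * x ^ 4 + 6 * f 6 * x ^ 5

theorem dp_rev (f : Fin 7 → R) (x u : R) (h : x * u = 1) :
    dp (rev f) u = 6 * u ^ 5 * pol f x - u ^ 4 * dp f x := by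
  have h2 : x ^ 2 * u ^ 2 = 1 := by rw [← mul_pow, h, one_pow]
  have h3 : x ^ 3 * u ^ 3 = 1 := by rw [← mul_pow, h, one_pow]
  have h4 : x ^ 4 * u ^ 4 = 1 := by rw [← mul_pow, h, one_pow]
  have h5 : x ^ 5 * u ^ 5 = 1 := by rw [← mul_pow, h, one_pow]
  have e1 : rev f 1 = f 5 := rfl
  have e2 : rev f 2 = f 4 := rfl
  have e3 : rev f 3 = f 3 := rfl
  have e4 : rev f 4 = f 2 := rfl
  have e5 : rev f 5 = f 1 := rfl
  have e6 : rev f 6 = f 0 := rfl
  simp only [pol, dp, e1, e2, e3, e4, e5, e6]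
  linear_combination (-6 * f 1 * u ^ 4) * h + (-6 * f 2 * u ^ 3) * h2 + 2 * f 2 * u ^ 3 * h +
    (-6 * f 3 * u ^ 2) * h3 + 3 * f 3 * u ^ 2 * h2 + (-6 * f 4 * u) * h4 + 4 * f 4 * u * h3 +
    (-6 * f 5) * h5 + 5 * f 5 * h4 - 6 * f 6 * x * h5 + 6 * f 6 * x * h4

theorem pol_rev' (f : Fin 7 → R) (x u : R) (h : x * u = 1) : pol (rev f) u = u ^ 6 * pol f x := by
  have := pol_rev (rev f) x u h
  rw [rev_rev] at this
  rw [← this]
  ring

end alg

section

variable {B : Type} [CommRing B]

theorem aeval_pp (p : Fin 7 → B) {R : Type} [CommRing R] [Algebra B R] (x : R) :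
    aeval x (pp B p) = pol (fun i => algebraMap B R (p i)) x := by
  simp [pp, pol]

theorem aeval_dpp (p : Fin 7 → B) {R : Type} [CommRing R] [Algebra B R] (x : R) :
    aeval x (derivative (pp B p)) = dp (fun i => algebraMap B R (p i)) x := by
  have h : ∀ n : ℕ, algebraMap B R (n : B) = (n : R) := fun n => map_natCast _ n
  have h2 := h 2
  have h3 := h 3
  have h4 := h 4
  have h5 := h 5
  push_cast at h2 h3 h4 h5
  simp [pp, pol, dp]
  simp only [h2, h3, h4, h5]
  ring

variable {f : Fin 7 → B}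

theorem xx_xi : xx f * xi f = 1 := Units.mul_inv _

/-- The Bezout identities in `A₁₂`. -/
theorem bez1 {A C₁ : B[X]} (h : Bez f A C₁) :
    aeval (xx f) A * pol (fun i => algebraMap B (A12 B f) (f i)) (xx f) +
      aeval (xx f) C₁ * dp (fun i => algebraMap B (A12 B f) (f i)) (xx f) = 1 := by
  have := congrArg (aeval (xx f)) h
  rwa [map_add, map_mul, map_mul, aeval_pp, aeval_dpp, map_one] at this

theorem bez2 {A' C₁' : B[X]} (h : Bez (rev f) A' C₁') :
    aeval (xi f) A' * (xi f ^ 6 * pol (fun i => algebraMap B (A12 B f) (f i)) (xx f)) +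
      aeval (xi f) C₁' * (6 * xi f ^ 5 * pol (fun i => algebraMap B (A12 B f) (f i)) (xx f) -
        xi f ^ 4 * dp (fun i => algebraMap B (A12 B f) (f i)) (xx f)) = 1 := by
  have h1 := congrArg (aeval (xi f)) h
  rw [map_add, map_mul, map_mul, aeval_pp, aeval_dpp, map_one] at h1
  have e1 : (fun i => algebraMap B (A12 B f) (rev f i)) =
      rev (fun i => algebraMap B (A12 B f) (f i)) := rfl
  rw [e1, pol_rev' _ _ _ xx_xi, dp_rev _ _ _ xx_xi] at h1
  exact h1

end

/-! ### Derivations -/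

section der

variable {B R R' : Type} [CommRing B] [CommRing R] [CommRing R'] {c : B →+* R}
  {r : R →+* R'} {δ : R → R'}

theorem pow (h : DerA c r δ) (v : R) (n : ℕ) : δ (v ^ (n + 1)) = (n + 1) * r v ^ n * δ v := by
  induction n with
  | zero => simp
  | succ n ih =>
    rw [pow_succ, h.mul, ih, map_pow]
    push_cast
    ring

theorem der_pol (h : DerA c r δ) (g : Fin 7 → R) (x : R) :
    δ (pol g x) = dp (fun i => r (g i)) (r x) * δ x + pol (fun i => δ (g i)) (r x) := by
  have h2 := pow h x 1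
  have h3 := pow h x 2
  have h4 := pow h x 3
  have h5 := pow h x 4
  have h6 := pow h x 5
  norm_num at h2 h3 h4 h5 h6
  simp only [pol, h.add, h.mul, h2, h3, h4, h5, h6, dp, map_pow]
  ring

/-- The derivative of `1/x`. -/
theorem der_inv (h : DerA c r δ) {x u : R} (hxu : x * u = 1) : δ u = -(r u ^ 2) * δ x := by
  have h1 : r x * δ u + r u * δ x = 0 := by
    rw [← h.mul, hxu, h.one]
  have h2 : r x * r u = 1 := by rw [← map_mul, hxu, map_one]
  linear_combination r u * h1 - δ u * h2

theorem der_v (h : DerA c r δ) {x u : R} (hxu : x * u = 1) (y : R) :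
    δ (y * u ^ 3) = r u ^ 3 * δ y - 3 * r y * r u ^ 4 * δ x := by
  have h3 := pow h u 2
  norm_num at h3
  rw [h.mul, h3, der_inv h hxu, map_pow]
  ring

end der

section omd

variable {B B' : Type} [CommRing B] [CommRing B'] {f : Fin 7 → B} {f' : Fin 7 → B'}

/-- The difference in terms of `D x` and `D y`. -/
theorem omd_eq (A C₁ A' C₁' : B[X]) {B₀ : Type} [CommRing B₀] {c : B₀ →+* A12 B' f'} (φ : B' →+* B)
    (hf : ∀ i, f i = φ (f' i)) (D : A12 B' f' → A12 B f) (hD : DerA c (bc12 φ hf) D) :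
    omd f f' A C₁ A' C₁' D = W (yv B f) (xi f) (aeval (xx f) A) (aeval (xx f) C₁)
      (aeval (xi f) A') (aeval (xi f) C₁') (D (xx f')) (D (yv B' f')) := by
  have e1 : D (xi f') = -(xi f ^ 2) * D (xx f') := by
    rw [der_inv hD (xx_xi (f := f')), bc12_xi]
  have e2 : D (yv B' f' * xi f' ^ 3) = xi f ^ 3 * D (yv B' f') - 3 * yv B f * xi f ^ 4 *
      D (xx f') := by
    rw [der_v hD (xx_xi (f := f')), bc12_xi, bc12_y]
  rw [omd, W, e1, e2]

end omd

end CFV

open CFV

theorem t_CFI : Stmt_CFI := by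
  intro B _ f A C₁ A' C₁' h1 h2 B' _ φ f' hf D hD
  rw [omd_eq A C₁ A' C₁' φ hf D hD]
  refine W_zero _ _ _ _ _ _ _ _ _ _ (rel12 B f) (bez1 h1) (bez2 h2) ?_
  have h3 := congrArg D (rel12 B' f')
  have h4 := pow hD (yv B' f') 1
  norm_num at h4
  rw [h4, der_pol hD] at h3
  have e1 : (fun i => D (algebraMap B' (A12 B' f') (f' i))) = fun _ => 0 :=
    funext fun i => hD.const _
  have e2 : (fun i => bc12 φ hf (algebraMap B' (A12 B' f') (f' i))) =
      fun i => algebraMap B (A12 B f) (f i) := funext fun i => by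
    rw [bc12_b, ← hf i]
  rw [e1, e2] at h3
  have e3 : pol (fun _ => (0 : A12 B f)) (bc12 φ hf (xu B' f' : A12 B' f')) = 0 := by
    simp [pol]
  rw [e3, add_zero, bc12_x] at h3
  exact h3

namespace CFV

section

variable {B : Type} [CommRing B] {f : Fin 7 → B}

theorem cf_y {k : ℤ} (hk : 0 < k) : cf k (yv B f) = 0 := by
  have := cf_aeval_y (f := f) 1 k
  rw [map_one, one_mul, if_pos hk.le, coeff_one, if_neg (by omega)] at this
  exact this

theorem cf_aeval_xi_y (p : B[X]) {j : ℤ} (hj : 0 < j) : cf j (aeval (xi f) p * yv B f) = 0 := by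
  induction p using Polynomial.induction_on' with
  | add p q hp hq => rw [map_add, add_mul, map_add, hp, hq, add_zero]
  | monomial n a =>
    rw [aeval_monomial, mul_assoc, cf_b, cf_xipow, cf_y (by omega), mul_zero]

end

end CFV

theorem t_CFV : Stmt_CFV := by
  intro B _ f r G hG f' hf' hf A C₁ A' C₁' h1 h2 hu2 D hD hD1 j hj
  obtain ⟨h, hh⟩ := hu2.exists_right_inv
  rw [omd_eq A C₁ A' C₁' (eps0 B) hf D hD]
  set y := yv B f with hy
  set x := xx f with hx
  set u := xi f with hu
  set Ax := aeval x A with hAx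
  set Cx := aeval x C₁ with hCx
  set Au := aeval u A' with hAu
  set Cu := aeval u C₁' with hCu
  set F := pol (fun i => algebraMap B (A12 B f) (f i)) x with hF
  set F' := dp (fun i => algebraMap B (A12 B f) (f i)) x with hF'
  set g := aeval x G with hg
  set a := D (xx f') with ha
  set b := D (yv (Eps B) f') with hb
  have hyF : y ^ 2 = F := rel12 B f
  have hb1 : Ax * F + Cx * F' = 1 := bez1 h1
  have hb2 : Au * (u ^ 6 * F) + Cu * (6 * u ^ 5 * F - u ^ 4 * F') = 1 := bez2 h2
  -- the degree of `G`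
  have hdeg : G.natDegree < 7 := by
    by_contra hcon
    push Not at hcon
    have h3 : (pp B f).natDegree ≤ 6 := by
      rw [pp, pol]
      compute_degree
    rw [hG] at h3
    have hG0 : G ≠ 0 := by
      rintro rfl
      simp at hcon
    have hnt : Nontrivial B := by
      have : Nontrivial B[X] := ⟨⟨G, 0, hG0⟩⟩
      exact Polynomial.nontrivial_iff.1 this
    rw [(monic_X_sub_C r).natDegree_mul' hG0, natDegree_X_sub_C] at h3
    omega
  have hgpol : pol (fun i : Fin 7 => algebraMap B (A12 B f) (G.coeff i)) x = g := by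
    rw [hg, aeval_eq_sum_range' hdeg]
    simp only [pol, Finset.sum_range_succ, Finset.sum_range_zero, Algebra.smul_def]
    simp
  -- the relation between `a` and `b`
  have hab : 2 * y * b = F' * a - g := by
    have h3 := congrArg D (rel12 (Eps B) f')
    have h4 := pow hD (yv (Eps B) f') 1
    norm_num at h4
    rw [h4, der_pol hD] at h3
    have e1 : (fun i => D (algebraMap (Eps B) (A12 (Eps B) f') (f' i))) =
        fun i : Fin 7 => -(algebraMap B (A12 B f) (G.coeff i)) := by
      funext i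
      have e3 : (TrivSqZeroExt.inr (G.coeff i) : Eps B) =
          TrivSqZeroExt.inl (G.coeff i) * TrivSqZeroExt.inr 1 := by
        rw [TrivSqZeroExt.inl_mul_inr, smul_eq_mul, mul_one]
      have e4 : D (algebraMap (Eps B) (A12 (Eps B) f') (TrivSqZeroExt.inl (G.coeff i))) = 0 :=
        hD.const _
      have e5 : D (algebraMap (Eps B) (A12 (Eps B) f') (TrivSqZeroExt.inl (f i))) = 0 :=
        hD.const _
      rw [hf' i, map_sub, hD.sub, e5, e3, map_mul, hD.mul, hD1, e4, mul_zero, add_zero, mul_one,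
        bc12_b, zero_sub]
      rfl
    have e2 : (fun i => bc12 (eps0 B) hf (algebraMap (Eps B) (A12 (Eps B) f') (f' i))) =
        fun i => algebraMap B (A12 B f) (f i) := funext fun i => by
      rw [bc12_b, ← hf i]
    rw [e1, e2, bc12_x] at h3
    have e6 : pol (fun i : Fin 7 => -(algebraMap B (A12 B f) (G.coeff i))) (xu B f : A12 B f) =
        -g := by
      rw [← hgpol]
      simp only [pol]
      ring
    rw [e6] at h3
    rw [sub_eq_add_neg]
    exact h3
  have hFg : F = (x - algebraMap B (A12 B f) r) * g := by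
    have h3 := congrArg (aeval x) hG
    rw [CFV.aeval_pp, map_mul, map_sub, aeval_X, aeval_C] at h3
    exact h3
  have hh' : (2 : A12 B f) * algebraMap B (A12 B f) h = 1 := by
    have := congrArg (algebraMap B (A12 B f)) hh
    rwa [map_mul, map_ofNat, map_one] at this
  set L := g * (Au * Cx * u ^ 6 + Cu * Ax * u ^ 4 + 6 * Cu * Cx * u ^ 5) with hL
  have key : W y u Ax Cx Au Cu a b = -(L * y) := by
    have h3 := W_zero y u Ax Cx Au Cu (a - Cx * g) (b + algebraMap B (A12 B f) h * (Ax * g * y)) F F'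
      hyF hb1 hb2 (by
        linear_combination hab + (Ax * g) * hyF + y * (Ax * g * y) * hh' + g * hb1)
    simp only [W] at h3 ⊢
    rw [hL]
    linear_combination h3 - (Cx + Cu * u ^ 4) * (Ax * g * y) * hh'
  have hLrel : (x - algebraMap B (A12 B f) r) * (L * y) = Cx * y + u ^ 4 * (Cu * y) := by
    rw [hL]
    linear_combination (-(y * (Au * Cx * u ^ 6 + Cu * Ax * u ^ 4 + 6 * Cu * Cx * u ^ 5))) * hFg +
      (Cx * y) * hb2 + (Cu * u ^ 4 * y) * hb1
  rw [key, map_neg]
  congr 1
  -- the recursion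
  have hrec : ∀ i : ℤ, -3 ≤ i → cf (i - 1) (L * y) - r * cf i (L * y) =
      if 0 ≤ i then C₁.coeff i.toNat else 0 := by
    intro i hi
    have h3 := congrArg (cf i) hLrel
    rw [sub_mul, map_sub, map_add, cf_x, cf_b, cf_xipow, cf_aeval_y,
      cf_aeval_xi_y _ (by push_cast; omega), add_zero] at h3
    exact h3
  have hsum : ∀ N : ℕ, cf (-1) (L * y) = ∑ i ∈ Finset.range N, r ^ i * C₁.coeff i +
      r ^ N * cf ((N : ℤ) - 1) (L * y) := by
    intro N
    induction N with
    | zero => simp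
    | succ N ih =>
      have h3 := hrec (N : ℤ) (by omega)
      rw [if_pos (by omega), Int.toNat_natCast] at h3
      rw [Finset.sum_range_succ, ih]
      have h4 : (((N + 1 : ℕ) : ℤ) - 1) = (N : ℤ) := by push_cast; ring
      rw [h4]
      linear_combination r ^ N * h3
  have h0 : cf (-1) (L * y) = C₁.eval r := by
    obtain ⟨M, hM, hfin⟩ := cf_fin (L * y)
    set N := M.toNat + C₁.natDegree + 2 with hN
    have h3 := (hfin ((N : ℤ) - 1) (by
      rw [abs_of_nonneg (by omega)]
      omega)).1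
    rw [hsum N, h3, mul_zero, add_zero, eval_eq_sum_range' (show C₁.natDegree < N by omega)]
    exact Finset.sum_congr rfl fun i _ => mul_comm _ _
  have h1' : cf (-2) (L * y) = r * cf (-1) (L * y) := by
    have h3 := hrec (-1) (by norm_num)
    norm_num at h3
    linear_combination h3
  have h2' : cf (-3) (L * y) = r * cf (-2) (L * y) := by
    have h3 := hrec (-2) (by norm_num)
    norm_num at h3
    linear_combination h3
  have h3' : cf (-4) (L * y) = r * cf (-3) (L * y) := by
    have h3 := hrec (-3) (by norm_num)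
    norm_num at h3
    linear_combination h3
  interval_cases j
  · norm_num
    exact h0
  · norm_num
    rw [h1', h0]
  · norm_num
    rw [h2', h1', h0]
    ring
  · norm_num
    rw [h3', h2', h1', h0]
    ring

end Pool.Agent.MG.H2
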