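import Mathlib

/-!
# Derivations and the conormal sequence
-/

open TensorProduct

namespace Pool.Agent.MG.H2

/-- `δ` is a derivation over `B` along `r : R → R'`. -/
structure DerA {B R R' : Type} [CommRing B] [CommRing R] [CommRing R'] (c : B →+* R)
    (r : R →+* R') (δ : R → R') : Prop where
  add : ∀ a b, δ (a + b) = δ a + δ b
  mul : ∀ a b, δ (a * b) = r a * δ b + r b * δ a
  const : ∀ b, δ (c b) = 0

namespace DerA

variable {B R R' : Type} [CommRing B] [CommRing R] [CommRing R'] {c : B →+* R}
  {r : R →+* R'} {δ : R → R'}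

theorem zero (h : DerA c r δ) : δ 0 = 0 := by
  have := h.add 0 0
  rw [add_zero] at this
  exact (left_eq_add.1 this)

theorem sum (h : DerA c r δ) {ι : Type} (s : Finset ι) (f : ι → R) :
    δ (∑ i ∈ s, f i) = ∑ i ∈ s, δ (f i) := by
  classical
  induction s using Finset.induction_on with
  | empty => simp [h.zero]
  | insert a s ha ih => rw [Finset.sum_insert ha, Finset.sum_insert ha, h.add, ih]

theorem neg (h : DerA c r δ) (a : R) : δ (-a) = -δ a := by
  have := h.add a (-a)
  rw [add_neg_cancel, h.zero] at this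
  linear_combination -this

theorem sub (h : DerA c r δ) (a b : R) : δ (a - b) = δ a - δ b := by
  rw [sub_eq_add_neg, h.add, h.neg, sub_eq_add_neg]

theorem one (h : DerA c r δ) : δ 1 = 0 := by
  have := h.const 1
  rwa [map_one] at this

end DerA

section kex

variable {B G R : Type} [CommRing B] [CommRing G] [CommRing R] (c : B →+* G) (q : G →+* R)
  {J : Type} [Fintype J] (ε : J → G)

/-- The kernel of `Ω[G/B] ⊗ R → Ω[R/B]` is generated by the `d ε j`. -/
theorem kex (hq : Function.Surjective q) (h0 : ∀ j, q (ε j) = 0)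
    (hε : ∀ v, q v = 0 → ∃ w : J → G, v = ∑ j, ε j * w j)
    {α α' : Type} [Fintype α] [Fintype α'] (P : α → R) (L : α → G) (P' : α' → R) (L' : α' → G)
    (H : ∀ (R' : Type) [CommRing R'] (r : R →+* R') (δ : R → R'), DerA (q.comp c) r δ →
      ∑ a, r (P a) * δ (q (L a)) = ∑ a, r (P' a) * δ (q (L' a))) :
    ∃ z : J → R, ∀ (R' : Type) [CommRing R'] (r : R →+* R') (D : G → R'),
      DerA c (r.comp q) D →
      ∑ a, r (P a) * D (L a) = ∑ a, r (P' a) * D (L' a) + ∑ j, r (z j) * D (ε j) := by
  letI : Algebra B G := c.toAlgebra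
  letI : Algebra G R := q.toAlgebra
  letI : Algebra B R := (q.comp c).toAlgebra
  haveI : IsScalarTower B G R := IsScalarTower.of_algebraMap_eq fun _ => rfl
  have hs : Function.Surjective (algebraMap G R) := hq
  let ξ : R ⊗[G] Ω[G⁄B] := ∑ a, P a ⊗ₜ KaehlerDifferential.D B G (L a) -
    ∑ a, P' a ⊗ₜ KaehlerDifferential.D B G (L' a)
  have hξ : KaehlerDifferential.mapBaseChange B G R ξ = 0 := by
    simp only [ξ, map_sub, map_sum, KaehlerDifferential.mapBaseChange_tmul,
      KaehlerDifferential.map_D]
    letI : Module Rᵐᵒᵖ Ω[R⁄B] := Module.compHom _ ((RingHom.id R).fromOpposite mul_comm)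
    haveI : IsCentralScalar R Ω[R⁄B] := ⟨fun _ _ => rfl⟩
    have h1 := H (TrivSqZeroExt R Ω[R⁄B]) (TrivSqZeroExt.inlHom R _)
      (fun a => TrivSqZeroExt.inr (KaehlerDifferential.D B R a))
      { add := fun a b => by simp
        mul := fun a b => by
          ext
          · simp
          · simp [TrivSqZeroExt.snd_mul]
        const := fun b => by
          have : KaehlerDifferential.D B R ((q.comp c) b) = 0 :=
            (KaehlerDifferential.D B R).map_algebraMap b
          simp only [this]
          simp }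
    have h2 := congrArg TrivSqZeroExt.snd h1
    simp only [TrivSqZeroExt.snd_sum] at h2
    have h3 : ∀ (x y : R), TrivSqZeroExt.snd ((TrivSqZeroExt.inlHom R Ω[R⁄B]) x *
        TrivSqZeroExt.inr (KaehlerDifferential.D B R y)) = x • KaehlerDifferential.D B R y := by
      intro x y
      simp [TrivSqZeroExt.snd_mul]
    simp only [h3] at h2
    rw [sub_eq_zero]
    exact h2
  have hex := (KaehlerDifferential.exact_kerCotangentToTensor_mapBaseChange B G R hs ξ).1 hξ
  obtain ⟨η, hη⟩ := hex
  obtain ⟨v, rfl⟩ := Ideal.toCotangent_surjective _ η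
  rw [KaehlerDifferential.kerCotangentToTensor_toCotangent] at hη
  obtain ⟨w, hw⟩ := hε v.1 v.2
  refine ⟨fun j => q (w j), ?_⟩
  intro R' _ r D hD
  letI mG : Module G R' := Module.compHom R' (r.comp q)
  have hsm : ∀ (g : G) (a : R'), g • a = r (q g) * a := fun _ _ => rfl
  letI mR : Module R R' := Module.compHom R' r
  have hsr : ∀ (g : R) (a : R'), g • a = r g * a := fun _ _ => rfl
  letI mB : Module B R' := Module.compHom R' ((r.comp q).comp c)
  have hsB : ∀ (g : B) (a : R'), g • a = r (q (c g)) * a := fun _ _ => rfl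
  haveI : IsScalarTower B G R' := ⟨fun b g a => by
    rw [hsm, hsB, hsm]
    have : b • g = c b * g := Algebra.smul_def b g
    rw [this, map_mul, map_mul, mul_assoc]⟩
  let D' : Derivation B G R' := Derivation.mk'
    { toFun := D
      map_add' := hD.add
      map_smul' := fun b g => by
        have : b • g = c b * g := Algebra.smul_def b g
        rw [this, hD.mul, hD.const, mul_zero, add_zero]
        rfl } (fun a b => hD.mul a b)
  let Λ : Ω[G⁄B] →ₗ[G] R' := D'.liftKaehlerDifferential
  have hΛ : ∀ g, Λ (KaehlerDifferential.D B G g) = D g := fun g =>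
    Derivation.liftKaehlerDifferential_comp_D D' g
  let Ψ : R ⊗[G] Ω[G⁄B] →+ R' := TensorProduct.liftAddHom
    (AddMonoidHom.mk' (fun a => AddMonoidHom.mk' (fun ω => r a * Λ ω) (fun x y => by
      rw [map_add, mul_add])) (fun x y => by
      ext ω
      simp [add_mul])) (fun g a ω => by
      have h1 : g • a = q g * a := Algebra.smul_def g a
      simp only [AddMonoidHom.mk'_apply, map_smul, hsm, h1, map_mul]
      ring)
  have hΨ : ∀ a g, Ψ (a ⊗ₜ KaehlerDifferential.D B G g) = r a * D g := by
    intro a g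
    change r a * Λ _ = _
    rw [hΛ]
  have h1 : Ψ ξ = ∑ a, r (P a) * D (L a) - ∑ a, r (P' a) * D (L' a) := by
    simp only [ξ, map_sub, map_sum, hΨ]
  have h2 : Ψ ξ = ∑ j, r (q (w j)) * D (ε j) := by
    rw [← hη, hΨ, map_one, one_mul, hw, hD.sum]
    refine Finset.sum_congr rfl fun j _ => ?_
    rw [hD.mul, RingHom.comp_apply, RingHom.comp_apply, h0, map_zero, zero_mul, zero_add]
  rw [h1] at h2
  linear_combination h2

end kex

end Pool.Agent.MG.H2
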