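import Pool.Agent.MG.H2.CCov

/-!
# Form data from rings

Form data on a family from affine charts `ι i : Spec (R i) → X` and ring-level forms.
-/

open CategoryTheory CategoryTheory.Limits AlgebraicGeometry TensorProduct

namespace Pool.Agent.MG.H2

section ev

variable {X : Scheme.{0}} {R : Type} [CommRing R] (ι : Sp R ⟶ X) [IsOpenImmersion ι]

theorem ev_le : (⊤ : (Sp R).Opens) ≤ ι ⁻¹ᵁ ι.opensRange := fun a _ => ⟨a, rfl⟩

/-- Functions on an affine chart. -/
noncomputable def evc : Γ(X, ι.opensRange) →+* R :=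
  (Scheme.ΓSpecIso (CommRingCat.of R)).hom.hom.comp (ι.appLE ι.opensRange ⊤ (ev_le ι)).hom

theorem isIso_appLE (U : X.Opens) (hU : U = ι ''ᵁ ⊤) (h : ⊤ ≤ ι ⁻¹ᵁ U) :
    IsIso (ι.appLE U ⊤ h) := by
  subst hU
  have : ι.appLE (ι ''ᵁ ⊤) ⊤ h = (ι.appIso ⊤).hom := (ι.appIso_hom' ⊤).symm
  rw [this]
  infer_instance

theorem ev_bij : Function.Bijective (evc ι) := by
  have h1 : IsIso (ι.appLE ι.opensRange ⊤ (ev_le ι)) :=
    isIso_appLE ι _ ι.image_top_eq_opensRange.symm _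
  have h2 : Function.Bijective (ι.appLE ι.opensRange ⊤ (ev_le ι)).hom :=
    ConcreteCategory.bijective_of_isIso _
  have h3 : Function.Bijective (Scheme.ΓSpecIso (CommRingCat.of R)).hom.hom :=
    ConcreteCategory.bijective_of_isIso _
  exact h3.comp h2

/-- Functions on an affine chart. -/
noncomputable def evE : Γ(X, ι.opensRange) ≃+* R := RingEquiv.ofBijective (evc ι) (ev_bij ι)

theorem ev_symm (a : R) : evc ι ((evE ι).symm a) = a := (evE ι).apply_symm_apply a

theorem symm_ev (a : Γ(X, ι.opensRange)) : (evE ι).symm (evc ι a) = a :=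
  (evE ι).symm_apply_apply a

theorem ev_appLE {X' : Scheme.{0}} {R' : Type} [CommRing R'] (ι' : Sp R' ⟶ X')
    [IsOpenImmersion ι'] (f : X' ⟶ X) (g : R →+* R') (h : ι' ≫ f = spMap g ≫ ι)
    (hU : ι'.opensRange ≤ f ⁻¹ᵁ ι.opensRange) (v : Γ(X, ι.opensRange)) :
    evc ι' ((f.appLE _ _ hU).hom v) = g (evc ι v) := by
  have h1 := Scheme.Hom.appLE_comp_appLE ι' f ι.opensRange ι'.opensRange ⊤ hU (ev_le ι')
  have h2 := Scheme.Hom.appLE_comp_appLE (spMap g) ι ι.opensRange ⊤ ⊤ (ev_le ι) le_top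
  have h3 : f.appLE _ _ hU ≫ ι'.appLE ι'.opensRange ⊤ (ev_le ι') =
      ι.appLE ι.opensRange ⊤ (ev_le ι) ≫ (spMap g).appLE ⊤ ⊤ le_top := by
    rw [h1, h2]
    simp only [h]
  have h4 := ConcreteCategory.congr_hom h3 v
  change (Scheme.ΓSpecIso (CommRingCat.of R')).hom.hom
    ((f.appLE _ _ hU ≫ ι'.appLE ι'.opensRange ⊤ (ev_le ι')) v) =
      g ((Scheme.ΓSpecIso (CommRingCat.of R)).hom.hom
        ((ι.appLE ι.opensRange ⊤ (ev_le ι)).hom v))
  rw [h4, ← gs_spMap]
  change (Scheme.ΓSpecIso (CommRingCat.of R')).hom.hom ((spMap g).appLE ⊤ ⊤ le_top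
    ((ι.appLE ι.opensRange ⊤ (ev_le ι)) v)) = _
  congr 2

theorem range_le {X' : Scheme.{0}} {R' : Type} [CommRing R'] (ι' : Sp R' ⟶ X')
    [IsOpenImmersion ι'] (f : X' ⟶ X) (g : R →+* R') (h : ι' ≫ f = spMap g ≫ ι) :
    ι'.opensRange ≤ f ⁻¹ᵁ ι.opensRange := by
  rintro _ ⟨a, rfl⟩
  refine ⟨spMap g a, ?_⟩
  rw [← Scheme.Hom.comp_apply, ← h, Scheme.Hom.comp_apply]

theorem ev_rs {R' : Type} [CommRing R'] (η : Sp R' ⟶ X) [IsOpenImmersion η] (g : R →+* R')
    (h : η = spMap g ≫ ι) (hU : η.opensRange ≤ ι.opensRange) (v : Γ(X, ι.opensRange)) :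
    evc η (rs X hU v) = g (evc ι v) := by
  have h1 := ev_appLE ι η (𝟙 X) g (by rw [Category.comp_id, h]) hU v
  have h2 : (𝟙 X : X ⟶ X).appLE ι.opensRange η.opensRange hU =
      X.presheaf.map (homOfLE hU).op := by
    simp [Scheme.Hom.appLE]
    exact Category.id_comp _
  rw [h2] at h1
  exact h1

theorem ev_coef {B : Type} [CommRing B] (π : X ⟶ Sp B) (c : B →+* R) (h : ι ≫ π = spMap c)
    (b : B) : evc ι (coef π ι.opensRange b) = c b := by
  change (Scheme.ΓSpecIso (CommRingCat.of R)).hom.hom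
    ((ι.appLE ι.opensRange ⊤ (ev_le ι)).hom (coef π ι.opensRange b)) = _
  rw [coef_comp, h]
  have h1 : coef (spMap c) ⊤ b = coef (𝟙 (Sp R) ≫ spMap c) ⊤ b := by rw [Category.id_comp]
  rw [h1, coef_spMap, coef_id, gl_inv]

end ev

/-- Ring-level form data. -/
structure RF (B : Type) [CommRing B] where
  /-- charts -/
  I : Type
  /-- edges -/
  E : Type
  /-- forms -/
  K : Type
  [fE : Fintype E]
  [fK : Fintype K]
  /-- source -/
  s : E → I
  /-- target -/
  t : E → I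
  /-- rings of the charts -/
  R : I → Type
  /-- rings of the edges -/
  RE : E → Type
  [cR : ∀ i, CommRing (R i)]
  [cE : ∀ e, CommRing (RE e)]
  /-- structure map -/
  c : ∀ i, B →+* R i
  /-- structure map -/
  cc : ∀ e, B →+* RE e
  /-- restriction -/
  js : ∀ e, R (s e) →+* RE e
  /-- restriction -/
  jt : ∀ e, R (t e) →+* RE e
  jsc : ∀ e, (js e).comp (c (s e)) = cc e
  jtc : ∀ e, (jt e).comp (c (t e)) = cc e
  sm : ∀ e, (cc e).FormallySmooth
  /-- number of terms -/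
  m : ℕ
  /-- coefficients -/
  p : K → ∀ i, Fin m → R i
  /-- functions -/
  q : K → ∀ i, Fin m → R i
  eq : ∀ (k : K) (e : E) (R' : Type) [CommRing R'] (r : RE e →+* R') (δ : RE e → R'),
    DerA (cc e) r δ →
    ∑ a, r (js e (p k (s e) a)) * δ (js e (q k (s e) a)) =
      ∑ a, r (jt e (p k (t e) a)) * δ (jt e (q k (t e) a))

attribute [instance] RF.fE RF.fK RF.cR RF.cE

/-- The charts of a family. -/
structure RF.Ch {n : ℕ} {B : Type} [CommRing B] (F : RF B) (x : Fam n B) where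
  /-- charts -/
  ι : ∀ i, Sp (F.R i) ⟶ x.X
  /-- edges -/
  η : ∀ e, Sp (F.RE e) ⟶ x.X
  oi : ∀ i, IsOpenImmersion (ι i)
  oe : ∀ e, IsOpenImmersion (η e)
  π : ∀ i, ι i ≫ x.π = spMap (F.c i)
  hs : ∀ e, η e = spMap (F.js e) ≫ ι (F.s e)
  ht : ∀ e, η e = spMap (F.jt e) ≫ ι (F.t e)

/-- Ring-level functionals. -/
structure RM {B : Type} [CommRing B] (F : RF B) where
  /-- the functionals -/
  μ : F.K → ∀ e, F.RE e → B
  add : ∀ k e a b, μ k e (a + b) = μ k e a + μ k e b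
  smul : ∀ k e (b : B) a, μ k e (F.cc e b * a) = b * μ k e a
  ker : ∀ (k : F.K) (a : ∀ i, F.R i), ∑ e, μ k e (F.js e (a (F.s e)) - F.jt e (a (F.t e))) = 0

section

variable {n : ℕ} {B : Type} [CommRing B] {F : RF B} {x : Fam n B}

instance (C : F.Ch x) (i : F.I) : IsOpenImmersion (C.ι i) := C.oi i
instance (C : F.Ch x) (e : F.E) : IsOpenImmersion (C.η e) := C.oe e

theorem RF.Ch.le_s (C : F.Ch x) (e : F.E) : (C.η e).opensRange ≤ (C.ι (F.s e)).opensRange := by
  have := range_le (C.ι (F.s e)) (C.η e) (𝟙 x.X) (F.js e) (by rw [Category.comp_id, C.hs])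
  exact this

theorem RF.Ch.le_t (C : F.Ch x) (e : F.E) : (C.η e).opensRange ≤ (C.ι (F.t e)).opensRange := by
  have := range_le (C.ι (F.t e)) (C.η e) (𝟙 x.X) (F.jt e) (by rw [Category.comp_id, C.ht])
  exact this

theorem RF.Ch.πe (C : F.Ch x) (e : F.E) : C.η e ≫ x.π = spMap (F.cc e) := by
  rw [C.hs, Category.assoc, C.π, ← F.jsc]
  exact (Spec.map_comp (CommRingCat.ofHom (F.c (F.s e))) (CommRingCat.ofHom (F.js e))).symm

theorem DerA.congr_equiv {B R R₁ R' : Type} [CommRing B] [CommRing R] [CommRing R₁] [CommRing R']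
    {c : B →+* R} {c₁ : B →+* R₁} {r : R →+* R'} {δ : R → R'} (h : DerA c r δ) (g : R₁ →+* R)
    (hc : ∀ b, g (c₁ b) = c b) : DerA c₁ (r.comp g) (fun v => δ (g v)) where
  add a b := by rw [map_add, h.add]
  mul a b := by rw [map_mul, h.mul]; rfl
  const b := by rw [hc, h.const]

/-- The form data of ring-level form data. -/
noncomputable abbrev RF.Ch.fd (C : F.Ch x) : FD x where
  I := F.I
  E := F.E
  K := F.K
  U i := (C.ι i).opensRange
  W e := (C.η e).opensRange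
  s := F.s
  t := F.t
  ws := C.le_s
  wt := C.le_t
  aff i := isAffineOpen_opensRange _
  affW e := isAffineOpen_opensRange _
  sm e := by
    have h1 : coef x.π (C.η e).opensRange =
        ((evE (C.η e)).symm : F.RE e →+* Γ(x.X, (C.η e).opensRange)).comp (F.cc e) := by
      ext b
      change _ = (evE (C.η e)).symm (F.cc e b)
      rw [← ev_coef (C.η e) x.π (F.cc e) (C.πe e) b, symm_ev]
    rw [h1]
    exact RingHom.FormallySmooth.comp (F.sm e)
      (RingHom.FormallySmooth.of_bijective (evE (C.η e)).symm.bijective)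
  m := F.m
  p k i a := (evE (C.ι i)).symm (F.p k i a)
  q k i a := (evE (C.ι i)).symm (F.q k i a)
  eq k e R' _ r δ hδ := by
    have h1 : ∀ v : F.R (F.s e), rs x.X (C.le_s e) ((evE (C.ι (F.s e))).symm v) =
        (evE (C.η e)).symm (F.js e v) := by
      intro v
      rw [RingEquiv.eq_symm_apply]
      change evc (C.η e) _ = _
      rw [ev_rs (C.ι (F.s e)) (C.η e) (F.js e) (C.hs e), ev_symm]
    have h2 : ∀ v : F.R (F.t e), rs x.X (C.le_t e) ((evE (C.ι (F.t e))).symm v) =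
        (evE (C.η e)).symm (F.jt e v) := by
      intro v
      rw [RingEquiv.eq_symm_apply]
      change evc (C.η e) _ = _
      rw [ev_rs (C.ι (F.t e)) (C.η e) (F.jt e) (C.ht e), ev_symm]
    simp only [h1, h2]
    have h3 := F.eq k e R' (r.comp ((evE (C.η e)).symm : F.RE e →+* _))
      (fun v => δ ((evE (C.η e)).symm v)) (hδ.congr_equiv _ (by
        intro b
        change (evE (C.η e)).symm (F.cc e b) = _
        rw [← ev_coef (C.η e) x.π (F.cc e) (C.πe e) b, symm_ev]))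
    exact h3

/-- The functionals. -/
noncomputable def RM.fmu (M : RM F) (C : F.Ch x) : FMu C.fd where
  μ k e v := M.μ k e (evc (C.η e) v)
  add k e a b := by rw [map_add, M.add]
  smul k e b a := by
    rw [map_mul]
    have : evc (C.η e) (coef x.π (C.η e).opensRange b) = F.cc e b :=
      ev_coef (C.η e) x.π (F.cc e) (C.πe e) b
    refine Eq.trans ?_ (M.smul k e b _)
    congr 2
  ker k a := by
    have h1 := M.ker k (fun i => evc (C.ι i) (a i))
    refine Eq.trans (Finset.sum_congr rfl fun e _ => ?_) h1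
    rw [map_sub]
    congr 2
    · exact ev_rs (C.ι (F.s e)) (C.η e) (F.js e) (C.hs e) _ _
    · exact ev_rs (C.ι (F.t e)) (C.η e) (F.jt e) (C.ht e) _ _

/-- The covector of ring-level data. -/
noncomputable def RM.cov (M : RM F) (C : F.Ch x) (g : ℕ) : Cov g x :=
  (exists_cov C.fd (M.fmu C) g).choose

theorem RM.cov_is (M : RM F) (C : F.Ch x) (g : ℕ) : IsFC C.fd (M.fmu C) (M.cov C g) :=
  (exists_cov C.fd (M.fmu C) g).choose_spec

end

/-- Comparison of ring-level form data. -/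
structure RMap {B B' : Type} [CommRing B] [CommRing B'] (φ : B →+* B') (F' : RF B') (F : RF B)
    (c : F'.K → F.K → B') where
  /-- charts -/
  κ : F'.I → F.I
  /-- edges -/
  lam : F'.E → F.E
  hs : ∀ e, F.s (lam e) = κ (F'.s e)
  ht : ∀ e, F.t (lam e) = κ (F'.t e)
  /-- on the charts -/
  g : ∀ i, F.R (κ i) →+* F'.R i
  /-- on the edges -/
  gE : ∀ e, F.RE (lam e) →+* F'.RE e
  form : ∀ (k' : F'.K) (i : F'.I) (R' : Type) [CommRing R'] (r : F'.R i →+* R')
    (δ : F'.R i → R'), DerA (F'.c i) r δ →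
    ∑ j, r (F'.p k' i j) * δ (F'.q k' i j) =
      ∑ k, r (F'.c i (c k' k)) * ∑ j, r (g i (F.p k (κ i) j)) * δ (g i (F.q k (κ i) j))

section

variable {n : ℕ} {B B' : Type} [CommRing B] [CommRing B'] {φ : B →+* B'} {F' : RF B'} {F : RF B}
  {c : F'.K → F.K → B'} {x : Fam n B} {x' : Fam n B'}

/-- Comparison of the form data. -/
noncomputable def RMap.fmap (m : RMap φ F' F c) (a : Arrow φ x' x) (C' : F'.Ch x') (C : F.Ch x)
    (hι : ∀ i, C'.ι i ≫ a.f = spMap (m.g i) ≫ C.ι (m.κ i))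
    (hη : ∀ e, C'.η e ≫ a.f = spMap (m.gE e) ≫ C.η (m.lam e)) : FMap a C'.fd C.fd c where
  κ := m.κ
  lam := m.lam
  hs := m.hs
  ht := m.ht
  hU i := range_le (C.ι (m.κ i)) (C'.ι i) a.f (m.g i) (hι i)
  hW e := range_le (C.η (m.lam e)) (C'.η e) a.f (m.gE e) (hη e)
  form k' i R' _ r δ hδ := by
    have h1 : ∀ v : F.R (m.κ i), pb a (range_le (C.ι (m.κ i)) (C'.ι i) a.f (m.g i) (hι i))
        ((evE (C.ι (m.κ i))).symm v) = (evE (C'.ι i)).symm (m.g i v) := by
      intro v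
      rw [RingEquiv.eq_symm_apply]
      change evc (C'.ι i) _ = _
      have := ev_appLE (C.ι (m.κ i)) (C'.ι i) a.f (m.g i) (hι i)
        (range_le (C.ι (m.κ i)) (C'.ι i) a.f (m.g i) (hι i)) ((evE (C.ι (m.κ i))).symm v)
      rw [ev_symm] at this
      exact this
    have h2 : ∀ b, coef x'.π (C'.ι i).opensRange b = (evE (C'.ι i)).symm (F'.c i b) := by
      intro b
      rw [← ev_coef (C'.ι i) x'.π (F'.c i) (C'.π i) b, symm_ev]
    have h3 := m.form k' i R' (r.comp ((evE (C'.ι i)).symm : F'.R i →+* _))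
      (fun v => δ ((evE (C'.ι i)).symm v)) (hδ.congr_equiv _ (by
        intro b
        exact (h2 b).symm))
    refine h3.trans (Finset.sum_congr rfl fun k _ => ?_)
    refine congrArg₂ _ ?_ (Finset.sum_congr rfl fun j _ => ?_)
    · exact congrArg r (h2 _).symm
    · refine congrArg₂ _ ?_ ?_
      · exact congrArg r (h1 _).symm
      · exact congrArg δ (h1 _).symm

/-- Comparison of covectors, ring level. -/
theorem RMap.compat (m : RMap φ F' F c) (a : Arrow φ x' x) (C' : F'.Ch x') (C : F.Ch x)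
    (hι : ∀ i, C'.ι i ≫ a.f = spMap (m.g i) ≫ C.ι (m.κ i))
    (hη : ∀ e, C'.η e ≫ a.f = spMap (m.gE e) ≫ C.η (m.lam e)) (M' : RM F') (M : RM F)
    (hc : ∀ h : F.K → ∀ e, F.RE e,
      ∑ k', ∑ e', M'.μ k' e' (∑ k, F'.cc e' (c k' k) * m.gE e' (h k (m.lam e'))) =
        φ (∑ k, ∑ e, M.μ k e (h k e))) (g : ℕ) : Compat a (M'.cov C' g) (M.cov C g) := by
  refine cov_compat (m.fmap a C' C hι hη) (M.fmu C) (M'.fmu C') ?_ (M.cov_is C g)
    (M'.cov_is C' g)
  intro h
  have h1 := hc (fun k e => evc (C.η e) (h k e))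
  refine Eq.trans (Finset.sum_congr rfl fun k' _ => Finset.sum_congr rfl fun e' _ => ?_) h1
  change M'.μ k' e' (evc (C'.η e') (∑ k, _)) = _
  refine congrArg _ ?_
  rw [map_sum]
  refine Finset.sum_congr rfl fun k _ => ?_
  rw [map_mul]
  refine congrArg₂ _ ?_ ?_
  · exact ev_coef (C'.η e') x'.π (F'.cc e') (C'.πe e') _
  · exact ev_appLE (C.η (m.lam e')) (C'.η e') a.f (m.gE e') (hη e') _ _

end

end Pool.Agent.MG.H2
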