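import Pool.Agent.MG.H2.CRing

/-!
# Values of covectors on thickenings which are given by rings
-/

open CategoryTheory CategoryTheory.Limits AlgebraicGeometry TensorProduct

namespace Pool.Agent.MG.H2

section

variable {n : ℕ} {B : Type} [CommRing B] {F : RF B} {x : Fam n B}

/-- Rings of a thickening. -/
structure RF.Tc {E J : Type} [CommRing E] [Fintype J] {S : SqE B E J} (C : F.Ch x)
    (t : Thk S x) where
  /-- charts -/
  R : F.I → Type
  /-- edges -/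
  RE : F.E → Type
  [cR : ∀ i, CommRing (R i)]
  [cE : ∀ e, CommRing (RE e)]
  /-- charts -/
  ι : ∀ i, Sp (R i) ⟶ t.y.X
  /-- edges -/
  η : ∀ e, Sp (RE e) ⟶ t.y.X
  oi : ∀ i, IsOpenImmersion (ι i)
  oe : ∀ e, IsOpenImmersion (η e)
  /-- structure maps -/
  c : ∀ e, E →+* RE e
  /-- reduction -/
  q : ∀ i, R i →+* F.R i
  /-- reduction -/
  qE : ∀ e, RE e →+* F.RE e
  /-- restriction -/
  js : ∀ e, R (F.s e) →+* RE e
  /-- restriction -/
  jt : ∀ e, R (F.t e) →+* RE e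
  hι : ∀ i, C.ι i ≫ t.r.f = spMap (q i) ≫ ι i
  hη : ∀ e, C.η e ≫ t.r.f = spMap (qE e) ≫ η e
  hπ : ∀ e, η e ≫ t.y.π = spMap (c e)
  hs : ∀ e, η e = spMap (js e) ≫ ι (F.s e)
  ht : ∀ e, η e = spMap (jt e) ≫ ι (F.t e)

attribute [instance] RF.Tc.cR RF.Tc.cE

section

variable {E J : Type} [CommRing E] [Fintype J] {S : SqE B E J} {C : F.Ch x} {t : Thk S x}
  (T : RF.Tc C t)

instance (i : F.I) : IsOpenImmersion (T.ι i) := T.oi i
instance (e : F.E) : IsOpenImmersion (T.η e) := T.oe e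

theorem op_le {R R' : Type} [CommRing R] [CommRing R'] (ι : Sp R ⟶ x.X) [IsOpenImmersion ι]
    (ι' : Sp R' ⟶ t.y.X) [IsOpenImmersion ι'] (q : R' →+* R) (h : ι ≫ t.r.f = spMap q ≫ ι') :
    t.op ι.opensRange ≤ ι'.opensRange := by
  intro a ha
  obtain ⟨b, rfl⟩ := t.r.f.surjective a
  have hb : b ∈ t.r.f ⁻¹ᵁ (t.op ι.opensRange) := ha
  rw [t.pre] at hb
  obtain ⟨c, rfl⟩ := hb
  refine ⟨spMap q c, ?_⟩
  rw [← Scheme.Hom.comp_apply, ← h, Scheme.Hom.comp_apply]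

/-- Functions on the thickening of a chart. -/
noncomputable def sg {R R' : Type} [CommRing R] [CommRing R'] (t : Thk S x) (ι : Sp R ⟶ x.X)
    [IsOpenImmersion ι] (ι' : Sp R' ⟶ t.y.X) [IsOpenImmersion ι'] (q : R' →+* R)
    (h : ι ≫ t.r.f = spMap q ≫ ι') : R' →+* Γ(t.y.X, t.op ι.opensRange) :=
  (rs t.y.X (op_le ι ι' q h)).comp ((evE ι').symm : R' →+* Γ(t.y.X, ι'.opensRange))

/-- Reduction. -/
theorem sg_q {R R' : Type} [CommRing R] [CommRing R'] (ι : Sp R ⟶ x.X) [IsOpenImmersion ι]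
    (ι' : Sp R' ⟶ t.y.X) [IsOpenImmersion ι'] (q : R' →+* R)
    (h : ι ≫ t.r.f = spMap q ≫ ι') (v : R') :
    evc ι (t.q ι.opensRange (sg t ι ι' q h v)) = q v := by
  have h0 := range_le ι' ι t.r.f q h
  have h1 := ev_appLE ι' ι t.r.f q h h0 ((evE ι').symm v)
  rw [ev_symm] at h1
  rw [← h1]
  congr 1
  change (t.y.X.presheaf.map (homOfLE (op_le ι ι' q h)).op ≫
    t.r.f.appLE (t.op ι.opensRange) ι.opensRange (t.pre ι.opensRange).ge) ((evE ι').symm v) = _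
  rw [Scheme.Hom.map_appLE]

/-- Restriction. -/
theorem sg_rs {R R' P P' : Type} [CommRing R] [CommRing R'] [CommRing P] [CommRing P']
    (ι : Sp R ⟶ x.X) [IsOpenImmersion ι]
    (ι' : Sp R' ⟶ t.y.X) [IsOpenImmersion ι'] (q : R' →+* R)
    (h : ι ≫ t.r.f = spMap q ≫ ι') (η : Sp P ⟶ x.X) [IsOpenImmersion η] (η' : Sp P' ⟶ t.y.X)
    [IsOpenImmersion η'] (q' : P' →+* P) (h' : η ≫ t.r.f = spMap q' ≫ η') (j : R' →+* P')
    (hj : η' = spMap j ≫ ι') (hU : t.op η.opensRange ≤ t.op ι.opensRange) (v : R') :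
    rs t.y.X hU (sg t ι ι' q h v) = sg t η η' q' h' (j v) := by
  have h0 : η'.opensRange ≤ ι'.opensRange :=
    range_le ι' η' (𝟙 _) j (by rw [Category.comp_id, hj])
  have h1 := ev_rs ι' η' j hj h0 ((evE ι').symm v)
  rw [ev_symm] at h1
  have h2 : (evE η').symm (j v) = rs t.y.X h0 ((evE ι').symm v) := by
    rw [← h1, symm_ev]
  change rs t.y.X hU (rs t.y.X (op_le ι ι' q h) ((evE ι').symm v)) =
    rs t.y.X (op_le η η' q' h') ((evE η').symm (j v))
  rw [h2, AFF.rs_rs, AFF.rs_rs]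

theorem sg_c {R R' : Type} [CommRing R] [CommRing R'] (ι : Sp R ⟶ x.X) [IsOpenImmersion ι]
    (ι' : Sp R' ⟶ t.y.X) [IsOpenImmersion ι'] (q : R' →+* R)
    (h : ι ≫ t.r.f = spMap q ≫ ι') (c : E →+* R') (hc : ι' ≫ t.y.π = spMap c) (b : E) :
    sg t ι ι' q h (c b) = coef t.y.π (t.op ι.opensRange) b := by
  have h1 := ev_coef ι' t.y.π c hc b
  have h2 : (evE ι').symm (c b) = coef t.y.π ι'.opensRange b := by
    rw [← h1, symm_ev]
  change rs t.y.X (op_le ι ι' q h) ((evE ι').symm (c b)) = _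
  rw [h2, coef_rs]

/-- Classes with given lifts. -/
theorem exists_lifts (F : FD x) (t : Thk S x) (L : F.K → ∀ i, Fin F.m → Γ(t.y.X, t.op (F.U i)))
    (hL : ∀ k i c, t.q (F.U i) (L k i c) = F.q k i c) :
    ∃ δ : J → ∀ e, Γ(t.y.X, t.op (F.W e)) → Γ(x.X, F.W e),
      (∀ j e, DerA ((coef t.y.π (t.op (F.W e))).comp S.i) (t.q (F.W e)) (δ j e)) ∧
      (∀ j e, δ j e (coef t.y.π (t.op (F.W e)) (S.ε j)) = 1) ∧
      Nonempty (FCl F t (fun j k e =>
        ∑ c, rs x.X (F.ws e) (F.p k (F.s e) c) *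
          δ j e (rs t.y.X (t.op_mono (F.ws e)) (L k (F.s e) c)) -
        ∑ c, rs x.X (F.wt e) (F.p k (F.t e) c) *
          δ j e (rs t.y.X (t.op_mono (F.wt e)) (L k (F.t e) c)))) := by
  obtain ⟨h, ⟨H⟩⟩ := exists_FCl F t
  refine ⟨H.δ, H.der, H.e1, ⟨?_⟩⟩
  exact
    { L := L
      hL := hL
      δ := H.δ
      der := H.der
      e1 := H.e1
      e0 := H.e0
      val := fun _ _ _ => rfl }

end

/-- The value of a covector on a deformation given by rings. -/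
theorem RM.cov_val (M : RM F) (C : F.Ch x) {g : ℕ} (d : Defo g x) (T : RF.Tc C d.thk)
    (L : F.K → ∀ i, Fin F.m → T.R i) (hL : ∀ k i c, T.q i (L k i c) = F.q k i c) :
    ∃ D : ∀ e, T.RE e → F.RE e,
      (∀ e, DerA ((T.c e).comp (sqEps B).i) (T.qE e) (D e)) ∧
      (∀ e, D e (T.c e ((sqEps B).ε ())) = 1) ∧
      (M.cov C g).l d = ∑ k, ∑ e, M.μ k e
        (∑ c, F.js e (F.p k (F.s e) c) * D e (T.js e (L k (F.s e) c)) -
          ∑ c, F.jt e (F.p k (F.t e) c) * D e (T.jt e (L k (F.t e) c))) := by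
  obtain ⟨δ, h1, h2, h3⟩ := exists_lifts C.fd d.thk
    (fun k i c => sg d.thk (C.ι i) (T.ι i) (T.q i) (T.hι i) (L k i c)) (by
      intro k i c
      change d.thk.q (C.ι i).opensRange _ = (evE (C.ι i)).symm (F.q k i c)
      rw [RingEquiv.eq_symm_apply]
      change evc (C.ι i) _ = _
      rw [sg_q, hL])
  refine ⟨fun e v => evc (C.η e) (δ () e (sg d.thk (C.η e) (T.η e) (T.qE e) (T.hη e) v)), ?_, ?_, ?_⟩
  · intro e
    refine ⟨?_, ?_, ?_⟩
    · intro a b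
      change evc (C.η e) (δ () e (sg d.thk (C.η e) (T.η e) (T.qE e) (T.hη e) (a + b))) = _
      rw [map_add, (h1 () e).add, map_add]
    · intro a b
      change evc (C.η e) (δ () e (sg d.thk (C.η e) (T.η e) (T.qE e) (T.hη e) (a * b))) = _
      rw [map_mul, (h1 () e).mul, map_add, map_mul, map_mul]
      rw [← sg_q (t := d.thk) (C.η e) (T.η e) (T.qE e) (T.hη e) a,
        ← sg_q (t := d.thk) (C.η e) (T.η e) (T.qE e) (T.hη e) b]
    · intro b
      change evc (C.η e) (δ () e (sg d.thk (C.η e) (T.η e) (T.qE e) (T.hη e)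
        (T.c e ((sqEps B).i b)))) = 0
      rw [sg_c (C.η e) (T.η e) (T.qE e) (T.hη e) (T.c e) (T.hπ e)]
      exact (congrArg (evc (C.η e)) ((h1 () e).const b)).trans (map_zero _)
  · intro e
    change evc (C.η e) (δ () e (sg d.thk (C.η e) (T.η e) (T.qE e) (T.hη e)
      (T.c e ((sqEps B).ε ())))) = 1
    rw [sg_c (C.η e) (T.η e) (T.qE e) (T.hη e) (T.c e) (T.hπ e)]
    exact (congrArg (evc (C.η e)) (h2 () e)).trans (map_one _)
  · refine (M.cov_is C g d (fun k e =>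
        ∑ c, rs x.X (C.fd.ws e) (C.fd.p k (C.fd.s e) c) *
          δ () e (rs d.thk.y.X (d.thk.op_mono (C.fd.ws e))
            (sg d.thk (C.ι (C.fd.s e)) (T.ι (C.fd.s e)) (T.q (C.fd.s e)) (T.hι (C.fd.s e))
              (L k (C.fd.s e) c))) -
        ∑ c, rs x.X (C.fd.wt e) (C.fd.p k (C.fd.t e) c) *
          δ () e (rs d.thk.y.X (d.thk.op_mono (C.fd.wt e))
            (sg d.thk (C.ι (C.fd.t e)) (T.ι (C.fd.t e)) (T.q (C.fd.t e)) (T.hι (C.fd.t e))
              (L k (C.fd.t e) c)))) h3).trans ?_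
    refine Finset.sum_congr rfl fun k _ => Finset.sum_congr rfl fun e _ => ?_
    change M.μ k e (evc (C.η e) _) = _
    refine congrArg (M.μ k e) ?_
    rw [map_sub, map_sum, map_sum]
    refine congrArg₂ _ (Finset.sum_congr rfl fun c _ => ?_) (Finset.sum_congr rfl fun c _ => ?_)
    · rw [map_mul]
      refine congrArg₂ _ ?_ ?_
      · have := ev_rs (C.ι (F.s e)) (C.η e) (F.js e) (C.hs e) (C.le_s e)
          ((evE (C.ι (F.s e))).symm (F.p k (F.s e) c))
        rw [ev_symm] at this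
        exact this
      · refine congrArg (fun v => evc (C.η e) (δ () e v)) ?_
        exact sg_rs _ _ _ _ _ _ _ _ (T.js e) (T.hs e) _ _
    · rw [map_mul]
      refine congrArg₂ _ ?_ ?_
      · have := ev_rs (C.ι (F.t e)) (C.η e) (F.jt e) (C.ht e) (C.le_t e)
          ((evE (C.ι (F.t e))).symm (F.p k (F.t e) c))
        rw [ev_symm] at this
        exact this
      · refine congrArg (fun v => evc (C.η e) (δ () e v)) ?_
        exact sg_rs _ _ _ _ _ _ _ _ (T.jt e) (T.ht e) _ _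

end

end Pool.Agent.MG.H2
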