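import Pool.Agent.MG.H2.CDefs

/-!
# Classes of thickenings: existence and functoriality
-/

open CategoryTheory CategoryTheory.Limits AlgebraicGeometry TensorProduct

namespace Pool.Agent.MG.H2

theorem rs_rs {X : Scheme.{0}} {U V W : X.Opens} (h : U ≤ V) (h' : V ≤ W) (a : Γ(X, W)) :
    rs X h (rs X h' a) = rs X (h.trans h') a := by
  change (X.presheaf.map (homOfLE h').op ≫ X.presheaf.map (homOfLE h).op) a = _
  rw [← Functor.map_comp, ← op_comp]
  rfl

theorem DerA.compr {B R R' R'' : Type} [CommRing B] [CommRing R] [CommRing R'] [CommRing R'']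
    {c : B →+* R} {r : R →+* R'} {δ : R → R'} (h : DerA c r δ) (g : R'' →+* R) {c' : B →+* R''}
    (hc : g.comp c' = c) : DerA c' (r.comp g) (fun v => δ (g v)) where
  add a b := by rw [map_add, h.add]
  mul a b := by rw [map_mul, h.mul]; rfl
  const b := by
    have : g (c' b) = c b := by rw [← hc]; rfl
    rw [this, h.const]

section

variable {n : ℕ} {B E J : Type} [CommRing B] [CommRing E] [Fintype J] {S : SqE B E J}
  {x : Fam n B}

theorem good_aff (t : Thk S x) {U : x.X.Opens} (h : IsAffineOpen U) : Good t U :=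
  goodAff t U (t_AFF t U h)

/-- Every thickening has a class. -/
theorem exists_FCl (F : FD x) (t : Thk S x) :
    ∃ h : J → F.K → ∀ e, Γ(x.X, F.W e), Nonempty (FCl F t h) := by
  have hL : ∀ (k : F.K) (i : F.I) (c : Fin F.m), ∃ L : Γ(t.y.X, t.op (F.U i)),
      t.q (F.U i) L = F.q k i c := fun k i c => (good_aff t (F.aff i)).sur _
  choose L hL using hL
  have hδ : ∀ e, ∃ δ : J → Γ(t.y.X, t.op (F.W e)) → Γ(x.X, F.W e),
      (∀ j, DerA ((coef t.y.π (t.op (F.W e))).comp S.i) (t.q (F.W e)) (δ j)) ∧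
      (∀ j, δ j (coef t.y.π (t.op (F.W e)) (S.ε j)) = 1) ∧
      ∀ i j, i ≠ j → δ j (coef t.y.π (t.op (F.W e)) (S.ε i)) = 0 := by
    intro e
    have H := good_aff t (F.affW e)
    refine dex ((coef t.y.π (t.op (F.W e))).comp S.i) (t.q (F.W e))
      (fun j => coef t.y.π (t.op (F.W e)) (S.ε j)) H.sur ?_ ?_ H.ker H.un ?_
    · intro j
      rw [t.q_coef, S.pe, map_zero]
    · intro i j
      rw [← map_mul, S.mul, map_zero]
    · have : (t.q (F.W e)).comp ((coef t.y.π (t.op (F.W e))).comp S.i) = coef x.π (F.W e) := by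
        ext b
        change t.q (F.W e) (coef t.y.π (t.op (F.W e)) (S.i b)) = _
        rw [t.q_coef, S.pi]
      rw [this]
      exact F.sm e
  choose δ h1 h2 h3 using hδ
  exact ⟨_, ⟨{ L := L, hL := hL, δ := fun j e => δ e j, der := fun j e => h1 e j,
               e1 := fun j e => h2 e j, e0 := fun i j e h => h3 e i j h,
               val := fun _ _ _ => rfl }⟩⟩

variable {B' E' J' : Type} [CommRing B'] [CommRing E'] [Fintype J'] {S' : SqE B' E' J'}
  {x' : Fam n B'} {φ : B →+* B'} {mm : J → J' → B'}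

theorem pb_coef {a : Arrow φ x' x} {U : x.X.Opens} {U' : x'.X.Opens} (h : U' ≤ a.f ⁻¹ᵁ U)
    (b : B) : pb a h (coef x.π U b) = coef x'.π U' (φ b) :=
  coef_arrow a.cart.w _ _ _ b

theorem pb_rs {a : Arrow φ x' x} {U V : x.X.Opens} {U' V' : x'.X.Opens}
    (hU : U' ≤ a.f ⁻¹ᵁ U) (hV : V' ≤ a.f ⁻¹ᵁ V) (h : U ≤ V) (h' : U' ≤ V')
    (v : Γ(x.X, V)) : pb a hU (rs x.X h v) = rs x'.X h' (pb a hV v) := by
  change (x.X.presheaf.map (homOfLE h).op ≫ a.f.appLE U U' hU) v =
    (a.f.appLE V V' hV ≫ x'.X.presheaf.map (homOfLE h').op) v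
  rw [Scheme.Hom.map_appLE, Scheme.Hom.appLE_map]

/-- The two sides of an edge. -/
noncomputable def FD.pair (F : FD x) (t : Thk S x) {R : Type} [CommRing R] (k : F.K)
    {W : x.X.Opens} (i : F.I) (hW : W ≤ F.U i) (r : Γ(x.X, W) →+* R)
    (δ : Γ(t.y.X, t.op W) → R) (L : Fin F.m → Γ(t.y.X, t.op (F.U i))) : R :=
  ∑ c, r (rs x.X hW (F.p k i c)) * δ (rs t.y.X (t.op_mono hW) (L c))

theorem FD.pair_congr (F : FD x) (t : Thk S x) {R : Type} [CommRing R] (k : F.K)
    {W : x.X.Opens} {i i' : F.I} (hi : i = i') (hW : W ≤ F.U i) (hW' : W ≤ F.U i')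
    (r : Γ(x.X, W) →+* R) (δ : Γ(t.y.X, t.op W) → R)
    (L : ∀ i, Fin F.m → Γ(t.y.X, t.op (F.U i))) :
    F.pair t k i hW r δ (L i) = F.pair t k i' hW' r δ (L i') := by
  subst hi
  rfl

/-- Functoriality on the edge. -/
theorem edge_val (Φ : SqHom S S' φ mm) {a : Arrow φ x' x} {t : Thk S x} {t' : Thk S' x'}
    {f : Arrow Φ.Φ t'.y t.y} (hf : t'.r.f ≫ f.f = a.f ≫ t.r.f) (F : FD x)
    {h : J → F.K → ∀ e, Γ(x.X, F.W e)} (H : FCl F t h) (e : F.E) (W' : x'.X.Opens)
    (hW : W' ≤ a.f ⁻¹ᵁ (F.W e)) (j' : J') (δ' : Γ(t'.y.X, t'.op W') → Γ(x'.X, W'))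
    (hδ : DerA ((coef t'.y.π (t'.op W')).comp S'.i) (t'.q W') δ')
    (h1 : δ' (coef t'.y.π (t'.op W') (S'.ε j')) = 1)
    (h0 : ∀ i, i ≠ j' → δ' (coef t'.y.π (t'.op W') (S'.ε i)) = 0) (k : F.K) :
    F.pair t k (F.s e) (F.ws e) (pb a hW) (fun v => δ' (KSN.uu hf hW v)) (H.L k (F.s e)) =
      F.pair t k (F.t e) (F.wt e) (pb a hW) (fun v => δ' (KSN.uu hf hW v)) (H.L k (F.t e)) +
      ∑ j, coef x'.π W' (mm j j') * pb a hW (h j k e) := by
  classical
  set u := KSN.uu hf hW with hu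
  have hqu : ∀ v, t'.q W' (u v) = pb a hW (t.q (F.W e) v) := fun v => KSN.q_uu hf hW v
  have hD : DerA ((coef t.y.π (t.op (F.W e))).comp S.i) ((pb a hW).comp (t.q (F.W e)))
      (fun v => δ' (u v)) := by
    refine ⟨fun v w => ?_, fun v w => ?_, fun b => ?_⟩
    · rw [map_add, hδ.add]
    · rw [map_mul, hδ.mul, hqu, hqu]
      rfl
    · have : u (coef t.y.π (t.op (F.W e)) (S.i b)) =
          (coef t'.y.π (t'.op W')).comp S'.i (φ b) := by
        rw [hu, KSN.uu_coef, Φ.hi]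
        rfl
      change δ' (u (coef t.y.π (t.op (F.W e)) (S.i b))) = 0
      rw [this, hδ.const]
  have hDε : ∀ j, δ' (u (coef t.y.π (t.op (F.W e)) (S.ε j))) = coef x'.π W' (mm j j') := by
    intro j
    rw [hu, KSN.uu_coef, Φ.he, map_sum, hδ.sum]
    rw [Finset.sum_eq_single j']
    · rw [map_mul, hδ.mul, h1, t'.q_coef, t'.q_coef, S'.pe, S'.pi, map_zero, zero_mul, zero_add,
        mul_one]
    · intro l _ hl
      rw [map_mul, hδ.mul, h0 l hl, t'.q_coef, t'.q_coef, S'.pe, map_zero, zero_mul, zero_add,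
        mul_zero]
    · intro hh
      exact absurd (Finset.mem_univ _) hh
  -- the difference
  let Δ : Γ(t.y.X, t.op (F.W e)) → Γ(x'.X, W') := fun v =>
    δ' (u v) - ∑ j, coef x'.π W' (mm j j') * pb a hW (H.δ j e v)
  have hΔ : DerA ((coef t.y.π (t.op (F.W e))).comp S.i) ((pb a hW).comp (t.q (F.W e))) Δ := by
    refine ⟨fun v w => ?_, fun v w => ?_, fun b => ?_⟩
    · simp only [Δ]
      rw [hD.add]
      have : ∀ j, H.δ j e (v + w) = H.δ j e v + H.δ j e w := fun j => (H.der j e).add v w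
      simp only [this, map_add, mul_add, Finset.sum_add_distrib]
      ring
    · simp only [Δ]
      rw [hD.mul]
      have : ∀ j, H.δ j e (v * w) = t.q (F.W e) v * H.δ j e w + t.q (F.W e) w * H.δ j e v :=
        fun j => (H.der j e).mul v w
      simp only [this, map_add, map_mul, mul_add, Finset.sum_add_distrib, RingHom.comp_apply,
        mul_sub, Finset.mul_sum]
      have e1 : ∑ j, coef x'.π W' (mm j j') * (pb a hW (t.q (F.W e) v) * pb a hW (H.δ j e w)) =
        ∑ j, pb a hW (t.q (F.W e) v) * (coef x'.π W' (mm j j') * pb a hW (H.δ j e w)) :=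
        Finset.sum_congr rfl fun j _ => by ring
      have e2 : ∑ j, coef x'.π W' (mm j j') * (pb a hW (t.q (F.W e) w) * pb a hW (H.δ j e v)) =
        ∑ j, pb a hW (t.q (F.W e) w) * (coef x'.π W' (mm j j') * pb a hW (H.δ j e v)) :=
        Finset.sum_congr rfl fun j _ => by ring
      rw [e1, e2]
      ring
    · simp only [Δ]
      rw [hD.const]
      have : ∀ j, H.δ j e ((coef t.y.π (t.op (F.W e))).comp S.i b) = 0 :=
        fun j => (H.der j e).const b
      simp only [this, map_zero, mul_zero, Finset.sum_const_zero, sub_zero]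
  have hΔε : ∀ j, Δ (coef t.y.π (t.op (F.W e)) (S.ε j)) = 0 := by
    intro j
    simp only [Δ]
    rw [hDε, Finset.sum_eq_single j]
    · rw [H.e1, map_one, mul_one, sub_self]
    · intro l _ hl
      rw [H.e0 j l e (Ne.symm hl), map_zero, mul_zero]
    · intro hh
      exact absurd (Finset.mem_univ _) hh
  have Hg := good_aff t (F.affW e)
  have hΔ0 : ∀ v, t.q (F.W e) v = 0 → Δ v = 0 := by
    intro v hv
    obtain ⟨w, rfl⟩ := Hg.ker v hv
    rw [hΔ.sum]
    refine Finset.sum_eq_zero fun j _ => ?_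
    rw [hΔ.mul, hΔε, RingHom.comp_apply, RingHom.comp_apply, t.q_coef, S.pe, map_zero, map_zero,
      zero_mul, mul_zero, add_zero]
  have hΔc : ∀ v w, t.q (F.W e) v = t.q (F.W e) w → Δ v = Δ w := by
    intro v w hvw
    have := hΔ0 (v - w) (by rw [map_sub, hvw, sub_self])
    rwa [hΔ.sub, sub_eq_zero] at this
  let sec : Γ(x.X, F.W e) → Γ(t.y.X, t.op (F.W e)) := fun v => (Hg.sur v).choose
  have hsec : ∀ v, t.q (F.W e) (sec v) = v := fun v => (Hg.sur v).choose_spec
  have hbar : DerA (coef x.π (F.W e)) (pb a hW) (fun v => Δ (sec v)) := by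
    refine ⟨fun v w => ?_, fun v w => ?_, fun b => ?_⟩
    · rw [← hΔ.add]
      refine hΔc _ _ ?_
      rw [hsec, map_add, hsec, hsec]
    · have := hΔ.mul (sec v) (sec w)
      rw [RingHom.comp_apply, RingHom.comp_apply, hsec, hsec] at this
      rw [← this]
      refine hΔc _ _ ?_
      rw [hsec, map_mul, hsec, hsec]
    · rw [← hΔ.const b]
      refine hΔc _ _ ?_
      rw [hsec]
      change _ = t.q (F.W e) (coef t.y.π (t.op (F.W e)) (S.i b))
      rw [t.q_coef, S.pi]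
  have hF := F.eq k e _ (pb a hW) _ hbar
  have hlift : ∀ (i : F.I) (hi : F.W e ≤ F.U i) (c : Fin F.m),
      Δ (sec (rs x.X hi (F.q k i c))) = Δ (rs t.y.X (t.op_mono hi) (H.L k i c)) := by
    intro i hi c
    refine hΔc _ _ ?_
    rw [hsec, t.q_rs, H.hL]
  simp only [hlift] at hF
  have hexp : ∀ (i : F.I) (hi : F.W e ≤ F.U i),
      ∑ c, pb a hW (rs x.X hi (F.p k i c)) * Δ (rs t.y.X (t.op_mono hi) (H.L k i c)) =
        F.pair t k i hi (pb a hW) (fun v => δ' (u v)) (H.L k i) -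
        ∑ j, coef x'.π W' (mm j j') * pb a hW (∑ c, rs x.X hi (F.p k i c) *
          H.δ j e (rs t.y.X (t.op_mono hi) (H.L k i c))) := by
    intro i hi
    simp only [Δ, mul_sub, Finset.sum_sub_distrib, FD.pair, map_sum, map_mul, Finset.mul_sum]
    rw [Finset.sum_comm]
    congr 1
    refine Finset.sum_congr rfl fun j _ => Finset.sum_congr rfl fun c _ => ?_
    ring
  rw [hexp, hexp] at hF
  have hval : ∀ j, pb a hW (h j k e) = pb a hW (∑ c, rs x.X (F.ws e) (F.p k (F.s e) c) *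
        H.δ j e (rs t.y.X (t.op_mono (F.ws e)) (H.L k (F.s e) c))) -
      pb a hW (∑ c, rs x.X (F.wt e) (F.p k (F.t e) c) *
        H.δ j e (rs t.y.X (t.op_mono (F.wt e)) (H.L k (F.t e) c))) := by
    intro j
    rw [H.val, map_sub]
  simp only [hval, mul_sub, Finset.sum_sub_distrib]
  linear_combination hF

/-- Functoriality of the classes. -/
theorem FMap.val (Φ : SqHom S S' φ mm) {a : Arrow φ x' x} {F' : FD x'} {F : FD x}
    {c : F'.K → F.K → B'} (m : FMap a F' F c) {t : Thk S x} {t' : Thk S' x'}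
    {f : Arrow Φ.Φ t'.y t.y} (hf : t'.r.f ≫ f.f = a.f ≫ t.r.f)
    {h : J → F.K → ∀ e, Γ(x.X, F.W e)} (H : Nonempty (FCl F t h))
    {h' : J' → F'.K → ∀ e, Γ(x'.X, F'.W e)} (H' : Nonempty (FCl F' t' h')) (M' : FMu F')
    (j' : J') :
    ∑ k', ∑ e', M'.μ k' e' (h' j' k' e') =
      ∑ k', ∑ e', M'.μ k' e' (∑ k, coef x'.π (F'.W e') (c k' k) *
        ∑ j, coef x'.π (F'.W e') (mm j j') * pb a (m.hW e') (h j k (m.lam e'))) := by
  classical
  obtain ⟨H⟩ := H
  obtain ⟨H'⟩ := H'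
  -- the charts
  have hz : ∀ (k' : F'.K) (i' : F'.I), ∃ z : J' → Γ(x'.X, F'.U i'),
      ∀ (R' : Type) [CommRing R'] (r : Γ(x'.X, F'.U i') →+* R')
        (D : Γ(t'.y.X, t'.op (F'.U i')) → R'),
        DerA ((coef t'.y.π (t'.op (F'.U i'))).comp S'.i) (r.comp (t'.q (F'.U i'))) D →
        ∑ a, r (F'.p k' i' a) * D (H'.L k' i' a) =
          ∑ b : F.K × Fin F.m, r (coef x'.π (F'.U i') (c k' b.1) *
            pb a (m.hU i') (F.p b.1 (m.κ i') b.2)) *
            D (KSN.uu hf (m.hU i') (H.L b.1 (m.κ i') b.2)) +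
          ∑ j, r (z j) * D (coef t'.y.π (t'.op (F'.U i')) (S'.ε j)) := by
    intro k' i'
    have Hg := good_aff t' (F'.aff i')
    refine kex ((coef t'.y.π (t'.op (F'.U i'))).comp S'.i) (t'.q (F'.U i'))
      (fun j => coef t'.y.π (t'.op (F'.U i')) (S'.ε j)) Hg.sur ?_ Hg.ker
      (F'.p k' i') (H'.L k' i') _ _ ?_
    · intro j
      rw [t'.q_coef, S'.pe, map_zero]
    · intro R' _ r δ hδ
      have hc : (t'.q (F'.U i')).comp ((coef t'.y.π (t'.op (F'.U i'))).comp S'.i) =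
          coef x'.π (F'.U i') := by
        ext b
        change t'.q (F'.U i') (coef t'.y.π (t'.op (F'.U i')) (S'.i b)) = _
        rw [t'.q_coef, S'.pi]
      rw [hc] at hδ
      have h1 := m.form k' i' R' r δ hδ
      simp only [H'.hL]
      rw [h1, Fintype.sum_prod_type]
      refine Finset.sum_congr rfl fun k _ => ?_
      rw [Finset.mul_sum]
      refine Finset.sum_congr rfl fun b _ => ?_
      have h2 : t'.q (F'.U i') (KSN.uu hf (m.hU i') (H.L k (m.κ i') b)) =
          pb a (m.hU i') (F.q k (m.κ i') b) := by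
        rw [KSN.q_uu, H.hL]
        rfl
      rw [h2, map_mul]
      ring
  choose z hz using hz
  -- one side of an edge
  have hside : ∀ (k' : F'.K) (i' : F'.I) (e' : F'.E) (hi : F'.W e' ≤ F'.U i')
      (hi2 : F.W (m.lam e') ≤ F.U (m.κ i')),
      ∑ a, rs x'.X hi (F'.p k' i' a) *
        H'.δ j' e' (rs t'.y.X (t'.op_mono hi) (H'.L k' i' a)) =
      ∑ k, coef x'.π (F'.W e') (c k' k) * F.pair t k (m.κ i') hi2 (pb a (m.hW e'))
        (fun v => H'.δ j' e' (KSN.uu hf (m.hW e') v)) (H.L k (m.κ i')) +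
        rs x'.X hi (z k' i' j') := by
    intro k' i' e' hi hi2
    have hD : DerA ((coef t'.y.π (t'.op (F'.U i'))).comp S'.i)
        ((rs x'.X hi).comp (t'.q (F'.U i')))
        (fun v => H'.δ j' e' (rs t'.y.X (t'.op_mono hi) v)) := by
      have h1 := (H'.der j' e').compr (rs t'.y.X (t'.op_mono hi))
        (c' := (coef t'.y.π (t'.op (F'.U i'))).comp S'.i) (by
          ext b
          change rs t'.y.X (t'.op_mono hi) (coef t'.y.π (t'.op (F'.U i')) (S'.i b)) =
            coef t'.y.π (t'.op (F'.W e')) (S'.i b)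
          rw [coef_rs])
      have h2 : (t'.q (F'.W e')).comp (rs t'.y.X (t'.op_mono hi)) =
          (rs x'.X hi).comp (t'.q (F'.U i')) := by
        ext v
        exact t'.q_rs hi v
      rwa [h2] at h1
    have h1 := hz k' i' _ (rs x'.X hi) _ hD
    rw [h1]
    congr 1
    · rw [Fintype.sum_prod_type]
      refine Finset.sum_congr rfl fun k _ => ?_
      rw [FD.pair, Finset.mul_sum]
      refine Finset.sum_congr rfl fun b _ => ?_
      rw [map_mul, coef_rs, ← pb_rs (m.hW e') (m.hU i') hi2 hi,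
        ← KSN.uu_rs hf (m.hW e') (m.hU i') hi2 hi]
      ring
    · rw [Finset.sum_eq_single j']
      · rw [coef_rs, H'.e1, mul_one]
      · intro l _ hl
        rw [coef_rs, H'.e0 l j' e' hl, mul_zero]
      · intro hh
        exact absurd (Finset.mem_univ _) hh
  have hh : ∀ k' e', h' j' k' e' = (∑ k, coef x'.π (F'.W e') (c k' k) *
        ∑ j, coef x'.π (F'.W e') (mm j j') * pb a (m.hW e') (h j k (m.lam e'))) +
      (rs x'.X (F'.ws e') (z k' (F'.s e') j') - rs x'.X (F'.wt e') (z k' (F'.t e') j')) := by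
    intro k' e'
    have hs2 : F.W (m.lam e') ≤ F.U (m.κ (F'.s e')) := by
      rw [← m.hs]
      exact F.ws _
    have ht2 : F.W (m.lam e') ≤ F.U (m.κ (F'.t e')) := by
      rw [← m.ht]
      exact F.wt _
    rw [H'.val, hside k' _ e' (F'.ws e') hs2, hside k' _ e' (F'.wt e') ht2]
    have hk : ∀ k, F.pair t k (m.κ (F'.s e')) hs2 (pb a (m.hW e'))
        (fun v => H'.δ j' e' (KSN.uu hf (m.hW e') v)) (H.L k (m.κ (F'.s e'))) =
        F.pair t k (m.κ (F'.t e')) ht2 (pb a (m.hW e'))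
        (fun v => H'.δ j' e' (KSN.uu hf (m.hW e') v)) (H.L k (m.κ (F'.t e'))) +
        ∑ j, coef x'.π (F'.W e') (mm j j') * pb a (m.hW e') (h j k (m.lam e')) := by
      intro k
      have h1 := edge_val Φ hf F H (m.lam e') (F'.W e') (m.hW e') j' (H'.δ j' e') (H'.der j' e')
        (H'.e1 j' e') (fun i hi => H'.e0 i j' e' hi) k
      rw [F.pair_congr t k (m.hs e') (F.ws _) hs2 _ _ (H.L k),
        F.pair_congr t k (m.ht e') (F.wt _) ht2 _ _ (H.L k)] at h1
      exact h1
    simp only [hk, mul_add, Finset.sum_add_distrib]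
    ring
  refine Finset.sum_congr rfl fun k' _ => ?_
  simp only [hh, M'.add]
  rw [Finset.sum_add_distrib, M'.ker k' (fun i => z k' i j'), add_zero]

end

end Pool.Agent.MG.H2
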