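import Pool.Agent.MG.H2.Cf

/-!
# Functions on the charts of the curves `y² = f(x)`
-/

open Polynomial

namespace Pool.Agent.MG.H2

section

variable {B : Type} [CommRing B] {f : Fin 7 → B}

theorem aeval_pp (p : Fin 7 → B) {R : Type} [CommRing R] [Algebra B R] (x : R) :
    aeval x (pp B p) = pol (fun i => algebraMap B R (p i)) x := by
  simp [pp, pol]

theorem pp_coeff (p : Fin 7 → B) (j : Fin 7) : (pp B p).coeff j = p j := by
  fin_cases j <;> simp [pp, pol, coeff_X, coeff_C]

/-- `A₁ = B[x] + B[x] y`. -/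
theorem span1 (v : A1 B f) : ∃ p q : B[X], v = aeval (x1 B f) p + aeval (x1 B f) q * y1 B f := by
  obtain ⟨v, rfl⟩ := Ideal.Quotient.mk_surjective v
  induction v using MvPolynomial.induction_on with
  | C c =>
    refine ⟨C c, 0, ?_⟩
    rw [aeval_C, map_zero, zero_mul, add_zero]
    rfl
  | add v w hv hw =>
    obtain ⟨p, q, hv⟩ := hv
    obtain ⟨p', q', hw⟩ := hw
    refine ⟨p + p', q + q', ?_⟩
    rw [map_add, hv, hw, map_add, map_add]
    ring
  | mul_X v i hv =>
    obtain ⟨p, q, hv⟩ := hv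
    rw [map_mul, hv]
    fin_cases i
    · refine ⟨X * p, X * q, ?_⟩
      rw [map_mul, map_mul, aeval_X]
      change _ * x1 B f = _
      ring
    · refine ⟨q * pp B f, p, ?_⟩
      rw [map_mul, aeval_pp]
      change _ * y1 B f = _
      have := rel1 B f
      linear_combination aeval (x1 B f) q * this

theorem g1_aeval (p : B[X]) : g1 B f (aeval (x1 B f) p) = aeval (xx f) p :=
  (aeval_algebraMap_apply (A12 B f) (x1 B f) p).symm

theorem g1_eq (p q : B[X]) : g1 B f (aeval (x1 B f) p + aeval (x1 B f) q * y1 B f) =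
    aeval (xx f) p + aeval (xx f) q * yv B f := by
  rw [map_add, map_mul, g1_aeval, g1_aeval, g1_y]

theorem cf_g1_eq (p q : B[X]) (j : ℤ) :
    cf j (g1 B f (aeval (x1 B f) p + aeval (x1 B f) q * y1 B f)) =
      if 0 ≤ j then q.coeff j.toNat else 0 := by
  rw [g1_eq, map_add, cf_aeval, zero_add, cf_aeval_y]

theorem cg_g1_eq (p q : B[X]) (j : ℤ) :
    cg j (g1 B f (aeval (x1 B f) p + aeval (x1 B f) q * y1 B f)) =
      if 0 ≤ j then p.coeff j.toNat else 0 := by
  rw [g1_eq, map_add, cg_aeval_y, add_zero, cg_aeval]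

theorem cf_g1 {j : ℤ} (hj : j < 0) (v : A1 B f) : cf j (g1 B f v) = 0 := by
  obtain ⟨p, q, rfl⟩ := span1 v
  rw [cf_g1_eq, if_neg (by omega)]

theorem cg_g1 {j : ℤ} (hj : j < 0) (v : A1 B f) : cg j (g1 B f v) = 0 := by
  obtain ⟨p, q, rfl⟩ := span1 v
  rw [cg_g1_eq, if_neg (by omega)]

theorem g1_inj (B : Type) [CommRing B] (f : Fin 7 → B) : Function.Injective (g1 B f) := by
  rw [injective_iff_map_eq_zero]
  intro v hv
  obtain ⟨p, q, rfl⟩ := span1 v
  have hp : p = 0 := by
    ext n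
    have := cg_g1_eq (f := f) p q (n : ℤ)
    rw [hv, map_zero, if_pos (by omega), Int.toNat_natCast] at this
    rw [← this, coeff_zero]
  have hq : q = 0 := by
    ext n
    have := cf_g1_eq (f := f) p q (n : ℤ)
    rw [hv, map_zero, if_pos (by omega), Int.toNat_natCast] at this
    rw [← this, coeff_zero]
  rw [hp, hq, map_zero, zero_mul, add_zero]

theorem g2_eq_inv (v : A2 B f) : g2 B f v = inv12 (rev_h f) (g1 B (rev f) v) := rfl

theorem cf_g2 {j : ℤ} (hj : -2 ≤ j) (v : A2 B f) : cf j (g2 B f v) = 0 := by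
  rw [g2_eq_inv, (cf_inv12 _ _ _).1, cf_g1 (by omega)]

theorem cg_g2 {j : ℤ} (hj : 0 < j) (v : A2 B f) : cg j (g2 B f v) = 0 := by
  rw [g2_eq_inv, (cf_inv12 _ _ _).2, cg_g1 (by omega)]

theorem g2_inj (B : Type) [CommRing B] (f : Fin 7 → B) : Function.Injective (g2 B f) := by
  intro v w h
  apply g1_inj
  have h1 := congrArg (inv12 (rev_h' f)) h
  have h2 : ∀ u : A2 B f, inv12 (rev_h' f) (g2 B f u) = g1 B (rev f) u := fun u =>
    congrArg (fun g => g (g1 B (rev f) u)) (inv12_inv12 (rev_h f) (rev_h' f))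
  rwa [h2, h2] at h1

/-- The functions on both charts are the constants. -/
theorem g12_const {a : A1 B f} {b : A2 B f} (h : g1 B f a = g2 B f b) :
    ∃ c : B, a = algebraMap B _ c ∧ b = algebraMap B _ c := by
  have key : g1 B f a = algebraMap B _ (cg 0 (g1 B f a)) := by
    have e : algebraMap B (A12 B f) (cg 0 (g1 B f a)) = algebraMap B (A12 B f) (cg 0 (g1 B f a)) *
        ((xu B f) ^ (0 : ℤ) : (A12 B f)ˣ).val := by rw [zpow_zero, Units.val_one, mul_one]
    refine cf_ext (fun j => ?_) fun j => ?_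
    · rw [e, cg_mono]
      split_ifs with h0
      · rw [← h0]
      · rcases lt_or_gt_of_ne (Ne.symm h0) with h1 | h1
        · exact cg_g1 h1 a
        · rw [h]
          exact cg_g2 h1 b
    · rw [e, cf_mono]
      rcases lt_or_ge j 0 with h1 | h1
      · exact cf_g1 h1 a
      · rw [h]
        exact cf_g2 (by omega) b
  refine ⟨cg 0 (g1 B f a), g1_inj B f ?_, g2_inj B f ?_⟩
  · rw [g1_b, ← key]
  · rw [g2_b, ← key, h]

theorem xu_zpow_nat (n : ℕ) : ((xu B f) ^ (n : ℤ) : (A12 B f)ˣ).val = g1 B f (x1 B f ^ n) := by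
  rw [zpow_natCast, Units.val_pow_eq_pow_val, xu_val, map_pow]

theorem xu_zpow_neg (n : ℕ) :
    ((xu B f) ^ (-(n : ℤ)) : (A12 B f)ˣ).val = g2 B f (x1 B (rev f) ^ n) := by
  rw [zpow_neg, zpow_natCast, ← inv_pow, Units.val_pow_eq_pow_val, map_pow, g2_u]

theorem g1_bx (c : B) (w : A1 B f) : g1 B f (algebraMap B _ c * w) =
    algebraMap B (A12 B f) c * g1 B f w := by rw [map_mul, g1_b]

theorem g2_bx (c : B) (w : A2 B f) : g2 B f (algebraMap B _ c * w) =
    algebraMap B (A12 B f) c * g2 B f w := by rw [map_mul, g2_b]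

/-- The decomposition of a function on the intersection of the charts. -/
theorem decomp (v : A12 B f) : ∃ (a : A1 B f) (b : A2 B f), v = g1 B f a + g2 B f b +
    algebraMap B _ (cf (-1) v) * (xi f * yv B f) + algebraMap B _ (cf (-2) v) *
      (xi f ^ 2 * yv B f) := by
  refine A12_ind (P := fun v => ∃ (a : A1 B f) (b : A2 B f), v = g1 B f a + g2 B f b +
    algebraMap B _ (cf (-1) v) * (xi f * yv B f) + algebraMap B _ (cf (-2) v) *
      (xi f ^ 2 * yv B f)) v ?_ ?_ ?_
  · rintro v w ⟨a, b, hv⟩ ⟨a', b', hw⟩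
    refine ⟨a + a', b + b', ?_⟩
    simp only [map_add]
    conv_lhs => rw [hv, hw]
    ring
  · intro c m
    rw [cf_mono, cf_mono]
    simp only [map_zero, zero_mul, add_zero]
    rcases le_or_gt 0 m with h | h
    · obtain ⟨n, rfl⟩ := Int.eq_ofNat_of_zero_le h
      refine ⟨algebraMap B _ c * x1 B f ^ n, 0, ?_⟩
      rw [g1_bx, ← xu_zpow_nat, map_zero, add_zero]
    · obtain ⟨n, hn⟩ := Int.eq_ofNat_of_zero_le (show 0 ≤ -m by omega)
      obtain rfl : m = -(n : ℤ) := by omega
      refine ⟨0, algebraMap B _ c * x1 B (rev f) ^ n, ?_⟩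
      rw [g2_bx, ← xu_zpow_neg, map_zero, zero_add]
  · intro c m
    rw [cf_mono_y, cf_mono_y]
    rcases le_or_gt 0 m with h | h
    · obtain ⟨n, rfl⟩ := Int.eq_ofNat_of_zero_le h
      refine ⟨algebraMap B _ c * (x1 B f ^ n * y1 B f), 0, ?_⟩
      rw [if_neg (by omega), if_neg (by omega), g1_bx, map_mul, ← xu_zpow_nat, g1_y]
      simp only [map_zero, zero_mul, add_zero, mul_assoc]
    · rcases lt_or_ge m (-2) with h1 | h1
      · obtain ⟨n, hn⟩ := Int.eq_ofNat_of_zero_le (show 0 ≤ -m - 3 by omega)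
        obtain rfl : m = -(n : ℤ) + -((3 : ℕ) : ℤ) := by omega
        refine ⟨0, algebraMap B _ c * (x1 B (rev f) ^ n * y1 B (rev f)), ?_⟩
        rw [if_neg (by omega), if_neg (by omega), g2_bx, map_mul, ← xu_zpow_neg, g2_v, zpow_add,
          Units.val_mul, zpow_neg _ ((3 : ℕ) : ℤ), zpow_natCast, inv_pow]
        simp only [map_zero, zero_mul, add_zero, zero_add]
        ring
      · have h2 : m = -1 ∨ m = -2 := by omega
        rcases h2 with rfl | rfl
        · refine ⟨0, 0, ?_⟩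
          rw [if_pos rfl, if_neg (by norm_num), zpow_neg_one, mul_assoc]
          simp only [map_zero, zero_mul, add_zero, zero_add]
        · refine ⟨0, 0, ?_⟩
          have : ((xu B f) ^ (-2 : ℤ) : (A12 B f)ˣ) = ((xu B f)⁻¹) ^ 2 := by
            rw [zpow_neg, inv_pow]
            rfl
          rw [if_neg (by norm_num), if_pos rfl, this, Units.val_pow_eq_pow_val, mul_assoc]
          simp only [map_zero, zero_mul, zero_add]

end

end Pool.Agent.MG.H2
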