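import Pool.Agent.MG.H2.Defs
import Pool.Agent.MG.H2.CKex

/-!
# Laurent coefficients of functions on the curves `y² = f(x)`: definitions

`cf j v` is the coefficient of `xʲ y` and `cg j v` is the coefficient of `xʲ` of `v` in
`A₁₂ = B[x, 1/x] ⊕ B[x, 1/x] y`.
-/

open Polynomial

namespace Pool.Agent.MG.H2

section

variable (B : Type) [CommRing B] (f : Fin 7 → B)

/-- `f(x)` as a polynomial. -/
noncomputable def pp (f : Fin 7 → B) : B[X] := pol (fun i => C (f i)) X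

/-- `f(x)` as a Laurent polynomial. -/
noncomputable def lpol : LaurentPolynomial B :=
  pol (fun i => LaurentPolynomial.C (f i)) (LaurentPolynomial.T 1)

/-- The equation `Y² - f(x)`. -/
noncomputable abbrev leq : (LaurentPolynomial B)[X] := X ^ 2 - C (lpol B f)

theorem leq_monic : (leq B f).Monic := monic_X_pow_sub_C _ two_ne_zero

/-- `B[x, 1/x][Y]/(Y² - f(x))`. -/
abbrev LY : Type := AdjoinRoot (leq B f)

/-- `x` as a unit. -/
noncomputable def tu : (LaurentPolynomial B)ˣ where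
  val := LaurentPolynomial.T 1
  inv := LaurentPolynomial.T (-1)
  val_inv := by rw [← LaurentPolynomial.T_add]; exact LaurentPolynomial.T_zero
  inv_val := by rw [← LaurentPolynomial.T_add]; exact LaurentPolynomial.T_zero

/-- The homomorphism from `A₁₂`. -/
noncomputable def toLY : A12 B f →+* LY B f :=
  lift12 ((AdjoinRoot.of (leq B f)).comp LaurentPolynomial.C)
    (Units.map (AdjoinRoot.of (leq B f) : LaurentPolynomial B →* LY B f) (tu B))
    (AdjoinRoot.root (leq B f)) (by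
      have h := AdjoinRoot.eval₂_root (leq B f)
      rw [eval₂_sub, eval₂_pow, eval₂_X, eval₂_C, sub_eq_zero] at h
      rw [h, lpol, pol_map]
      rfl)

@[simp]
theorem toLY_b (c : B) : toLY B f (algebraMap B _ c) = AdjoinRoot.of _ (LaurentPolynomial.C c) :=
  lift12_b _ _ _ _ _

@[simp]
theorem toLY_x : toLY B f (xu B f : A12 B f) = AdjoinRoot.of _ (LaurentPolynomial.T 1) :=
  lift12_x _ _ _ _

@[simp]
theorem toLY_xi : toLY B f ((xu B f)⁻¹ : (A12 B f)ˣ).val =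
    AdjoinRoot.of _ (LaurentPolynomial.T (-1)) :=
  lift12_xi _ _ _ _

@[simp]
theorem toLY_y : toLY B f (yv B f) = AdjoinRoot.root _ := lift12_y _ _ _ _

variable {B f}

/-- The part of `v` without `y` (`i = 0`) and the coefficient of `y` (`i = 1`). -/
noncomputable def lco (i : ℕ) : A12 B f →ₗ[B] LaurentPolynomial B where
  toFun v := (AdjoinRoot.modByMonicHom (leq_monic B f) (toLY B f v)).coeff i
  map_add' v w := by rw [map_add, map_add, coeff_add]
  map_smul' b v := by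
    rw [Algebra.smul_def, map_mul, toLY_b]
    have : AdjoinRoot.of (leq B f) (LaurentPolynomial.C b) * toLY B f v =
        LaurentPolynomial.C b • toLY B f v := by
      rw [Algebra.smul_def]
      rfl
    rw [this, map_smul, coeff_smul, smul_eq_mul, RingHom.id_apply, LaurentPolynomial.smul_eq_C_mul]

/-- The coefficient of `xʲ y`. -/
noncomputable def cf (j : ℤ) : A12 B f →ₗ[B] B where
  toFun v := (lco 1 v).coeff j
  map_add' v w := by rw [map_add]; rfl
  map_smul' b v := by rw [map_smul]; rfl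

/-- The coefficient of `xʲ`. -/
noncomputable def cg (j : ℤ) : A12 B f →ₗ[B] B where
  toFun v := (lco 0 v).coeff j
  map_add' v w := by rw [map_add]; rfl
  map_smul' b v := by rw [map_smul]; rfl

/-! ## Scaling -/

/-- `ν² f'(x) = f(λ x)`. -/
def IsSc (lam nu : B) (f f' : Fin 7 → B) : Prop :=
  ∀ i : Fin 7, nu ^ 2 * f' i = lam ^ (i : ℕ) * f i

theorem pol_sc {R : Type} [CommRing R] {lam nu : R} {f f' : Fin 7 → R}
    (h : ∀ i : Fin 7, nu ^ 2 * f' i = lam ^ (i : ℕ) * f i) (x : R) :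
    nu ^ 2 * pol f' x = pol f (lam * x) := by
  have h0 := h 0
  have h1 := h 1
  have h2 := h 2
  have h3 := h 3
  have h4 := h 4
  have h5 := h 5
  have h6 := h 6
  simp only [Fin.val_zero, Fin.val_one, pow_zero, pow_one, one_mul,
    show ((2 : Fin 7) : ℕ) = 2 from rfl, show ((3 : Fin 7) : ℕ) = 3 from rfl,
    show ((4 : Fin 7) : ℕ) = 4 from rfl, show ((5 : Fin 7) : ℕ) = 5 from rfl,
    show ((6 : Fin 7) : ℕ) = 6 from rfl] at h0 h1 h2 h3 h4 h5 h6
  simp only [pol]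
  linear_combination h0 + x * h1 + x ^ 2 * h2 + x ^ 3 * h3 + x ^ 4 * h4 + x ^ 5 * h5 + x ^ 6 * h6

theorem pol_sc_map {R : Type} [CommRing R] (φ : B →+* R) {lam nu : B} {f f' : Fin 7 → B}
    (h : IsSc lam nu f f') (x : R) :
    φ nu ^ 2 * pol (fun i => φ (f' i)) x = pol (fun i => φ (f i)) (φ lam * x) :=
  pol_sc (fun i => by rw [← map_pow, ← map_mul, h i, map_mul, map_pow]) x

/-- `x ↦ λ x`, `y ↦ ν y`. -/
noncomputable def sc1 {lam nu : B} {f f' : Fin 7 → B} (h : IsSc lam nu f f') :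
    A1 B f →+* A1 B f' :=
  lift1 (algebraMap B _) (algebraMap B _ lam * x1 B f') (algebraMap B _ nu * y1 B f') (by
    rw [mul_pow, rel1, pol_sc_map _ h])

@[simp]
theorem sc1_b {lam nu : B} {f f' : Fin 7 → B} (h : IsSc lam nu f f') (c : B) :
    sc1 h (algebraMap B _ c) = algebraMap B _ c := lift1_b _ _ _ _ _

@[simp]
theorem sc1_x {lam nu : B} {f f' : Fin 7 → B} (h : IsSc lam nu f f') :
    sc1 h (x1 B f) = algebraMap B _ lam * x1 B f' := lift1_x _ _ _ _

@[simp]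
theorem sc1_y {lam nu : B} {f f' : Fin 7 → B} (h : IsSc lam nu f f') :
    sc1 h (y1 B f) = algebraMap B _ nu * y1 B f' := lift1_y _ _ _ _

/-- `x ↦ λ x`, `y ↦ ν y` on the intersection. -/
noncomputable def sc12 {lam : Bˣ} {nu : B} {f f' : Fin 7 → B} (h : IsSc (lam : B) nu f f') :
    A12 B f →+* A12 B f' :=
  lift12 (algebraMap B _) (Units.map (algebraMap B (A12 B f') : B →* A12 B f') lam * xu B f')
    (algebraMap B _ nu * yv B f') (by
    rw [mul_pow, rel12, pol_sc_map _ h]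
    rfl)

@[simp]
theorem sc12_b {lam : Bˣ} {nu : B} {f f' : Fin 7 → B} (h : IsSc (lam : B) nu f f') (c : B) :
    sc12 h (algebraMap B _ c) = algebraMap B _ c := lift12_b _ _ _ _ _

@[simp]
theorem sc12_x {lam : Bˣ} {nu : B} {f f' : Fin 7 → B} (h : IsSc (lam : B) nu f f') :
    sc12 h (xu B f : A12 B f) = algebraMap B _ (lam : B) * (xu B f' : A12 B f') :=
  lift12_x _ _ _ _

@[simp]
theorem sc12_xi {lam : Bˣ} {nu : B} {f f' : Fin 7 → B} (h : IsSc (lam : B) nu f f') :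
    sc12 h ((xu B f)⁻¹ : (A12 B f)ˣ).val =
      algebraMap B _ ((lam⁻¹ : Bˣ) : B) * ((xu B f')⁻¹ : (A12 B f')ˣ).val := by
  rw [sc12, lift12_xi, mul_inv, ← map_inv]
  rfl

@[simp]
theorem sc12_y {lam : Bˣ} {nu : B} {f f' : Fin 7 → B} (h : IsSc (lam : B) nu f f') :
    sc12 h (yv B f) = algebraMap B _ nu * yv B f' := lift12_y _ _ _ _

theorem sc12_g1 {lam : Bˣ} {nu : B} {f f' : Fin 7 → B} (h : IsSc (lam : B) nu f f')
    (v : A1 B f) : sc12 h (g1 B f v) = g1 B f' (sc1 h v) := by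
  have : (sc12 h).comp (g1 B f) = (g1 B f').comp (sc1 h) := by
    refine hom1_ext ?_ ?_ ?_
    · intro c
      rw [RingHom.comp_apply, RingHom.comp_apply, g1_b, sc12_b, sc1_b, g1_b]
    · rw [RingHom.comp_apply, RingHom.comp_apply, sc1_x, ← xu_val, sc12_x, map_mul, g1_b, xu_val]
    · rw [RingHom.comp_apply, RingHom.comp_apply, sc1_y, g1_y, sc12_y, map_mul, g1_b, g1_y]
  exact congrArg (fun g => g v) this

theorem IsSc.rev {lam : Bˣ} {nu : B} {f f' : Fin 7 → B} (h : IsSc (lam : B) nu f f') :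
    IsSc ((lam⁻¹ : Bˣ) : B) (nu * ((lam⁻¹ ^ 3 : Bˣ) : B)) (rev f) (rev f') := by
  intro i
  have h1 := h (Fin.rev i)
  have h2 : (lam : B) ^ (Fin.rev i : ℕ) * ((lam⁻¹ : Bˣ) : B) ^ 6 = ((lam⁻¹ : Bˣ) : B) ^ (i : ℕ) := by
    have e : 6 = (Fin.rev i : ℕ) + (i : ℕ) := by
      rw [Fin.val_rev]
      omega
    conv_lhs => rw [e]
    rw [pow_add, ← mul_assoc, ← mul_pow, Units.mul_inv, one_pow, one_mul]
  change (nu * ((lam⁻¹ ^ 3 : Bˣ) : B)) ^ 2 * f' (Fin.rev i) =
    ((lam⁻¹ : Bˣ) : B) ^ (i : ℕ) * f (Fin.rev i)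
  rw [← h2, Units.val_pow_eq_pow_val]
  linear_combination ((lam⁻¹ : Bˣ) : B) ^ 6 * h1

theorem sc12_g2 {lam : Bˣ} {nu : B} {f f' : Fin 7 → B} (h : IsSc (lam : B) nu f f')
    (v : A2 B f) : sc12 h (g2 B f v) = g2 B f' (sc1 h.rev v) := by
  have : (sc12 h).comp (g2 B f) = (g2 B f').comp (sc1 h.rev) := by
    refine hom1_ext ?_ ?_ ?_
    · intro c
      rw [RingHom.comp_apply, RingHom.comp_apply, g2_b, sc12_b, sc1_b, g2_b]
    · rw [RingHom.comp_apply, RingHom.comp_apply, sc1_x, g2_u, sc12_xi, map_mul, g2_b, g2_u]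
    · rw [RingHom.comp_apply, RingHom.comp_apply, sc1_y, g2_v, map_mul, Units.val_pow_eq_pow_val,
        map_pow, sc12_xi, sc12_y, map_mul, g2_b, g2_v, Units.val_pow_eq_pow_val,
        Units.val_pow_eq_pow_val, map_mul, map_pow]
      ring
  exact congrArg (fun g => g v) this

theorem IsSc.inv {lam nu : Bˣ} {f f' : Fin 7 → B} (h : IsSc (lam : B) (nu : B) f f') :
    IsSc ((lam⁻¹ : Bˣ) : B) ((nu⁻¹ : Bˣ) : B) f' f := by
  intro i
  have h1 := h i
  have h2 : ((lam⁻¹ : Bˣ) : B) ^ (i : ℕ) * (lam : B) ^ (i : ℕ) = 1 := by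
    rw [← mul_pow, Units.inv_mul, one_pow]
  have h3 : ((nu⁻¹ : Bˣ) : B) ^ 2 * (nu : B) ^ 2 = 1 := by rw [← mul_pow, Units.inv_mul, one_pow]
  linear_combination -(((lam⁻¹ : Bˣ) : B) ^ (i : ℕ) * ((nu⁻¹ : Bˣ) : B) ^ 2) * h1 +
    ((lam⁻¹ : Bˣ) : B) ^ (i : ℕ) * f' i * h3 - ((nu⁻¹ : Bˣ) : B) ^ 2 * f i * h2

theorem sc1_sc1 {lam nu : Bˣ} {f f' : Fin 7 → B} (h : IsSc (lam : B) (nu : B) f f')
    (h' : IsSc ((lam⁻¹ : Bˣ) : B) ((nu⁻¹ : Bˣ) : B) f' f) :
    (sc1 h').comp (sc1 h) = RingHom.id _ := by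
  refine hom1_ext ?_ ?_ ?_
  · intro c
    simp
  · rw [RingHom.comp_apply, sc1_x, map_mul, sc1_b, sc1_x, ← mul_assoc, ← map_mul, Units.mul_inv,
      map_one, one_mul, RingHom.id_apply]
  · rw [RingHom.comp_apply, sc1_y, map_mul, sc1_b, sc1_y, ← mul_assoc, ← map_mul, Units.mul_inv,
      map_one, one_mul, RingHom.id_apply]

theorem sc12_sc12 {lam nu : Bˣ} {f f' : Fin 7 → B} (h : IsSc (lam : B) (nu : B) f f')
    (h' : IsSc ((lam⁻¹ : Bˣ) : B) ((nu⁻¹ : Bˣ) : B) f' f) :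
    (sc12 h').comp (sc12 h) = RingHom.id _ := by
  refine hom12_ext ?_ ?_ ?_
  · intro c
    simp
  · rw [RingHom.comp_apply, sc12_x, map_mul, sc12_b, sc12_x, ← mul_assoc, ← map_mul,
      Units.mul_inv, map_one, one_mul, RingHom.id_apply]
  · rw [RingHom.comp_apply, sc12_y, map_mul, sc12_b, sc12_y, ← mul_assoc, ← map_mul,
      Units.mul_inv, map_one, one_mul, RingHom.id_apply]

end

end Pool.Agent.MG.H2
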