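import Pool.Agent.MG.StmtsC
import Pool.Agent.MG.Glue2

/-!
# Curves `y² = f(x)`, `f` of degree at most six, over any ring

Charts: `A₁ = B[x, y]/(y² - f(x))` and `A₂ = B[u, v]/(v² - u⁶ f(1/u))`, which is `A₁` for the
reversed coefficients; on the intersection `u = 1/x`, `v = y/x³`.
-/

open CategoryTheory CategoryTheory.Limits AlgebraicGeometry TensorProduct

namespace Pool.Agent.MG.H2

section pol

variable {R : Type} [CommRing R]

/-- The value at `x` of the polynomial with coefficients `f`. -/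
def pol (f : Fin 7 → R) (x : R) : R :=
  f 0 + f 1 * x + f 2 * x ^ 2 + f 3 * x ^ 3 + f 4 * x ^ 4 + f 5 * x ^ 5 + f 6 * x ^ 6

/-- The reversed coefficients. -/
def rev (f : Fin 7 → R) : Fin 7 → R := fun i => f (Fin.rev i)

theorem rev_rev (f : Fin 7 → R) : rev (rev f) = f := by
  funext i
  simp [rev]

theorem pol_map {R' : Type} [CommRing R'] (φ : R →+* R') (f : Fin 7 → R) (x : R) :
    φ (pol f x) = pol (fun i => φ (f i)) (φ x) := by
  simp [pol]

/-- `u⁶ f(1/u)`. -/
theorem pol_rev (f : Fin 7 → R) (x xi : R) (h : x * xi = 1) :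
    pol (rev f) x * xi ^ 6 = pol f xi := by
  have h2 : x ^ 2 * xi ^ 2 = 1 := by rw [← mul_pow, h, one_pow]
  have h3 : x ^ 3 * xi ^ 3 = 1 := by rw [← mul_pow, h, one_pow]
  have h4 : x ^ 4 * xi ^ 4 = 1 := by rw [← mul_pow, h, one_pow]
  have h5 : x ^ 5 * xi ^ 5 = 1 := by rw [← mul_pow, h, one_pow]
  have h6 : x ^ 6 * xi ^ 6 = 1 := by rw [← mul_pow, h, one_pow]
  have e0 : rev f 0 = f 6 := rfl
  have e1 : rev f 1 = f 5 := rfl
  have e2 : rev f 2 = f 4 := rfl
  have e3 : rev f 3 = f 3 := rfl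
  have e4 : rev f 4 = f 2 := rfl
  have e5 : rev f 5 = f 1 := rfl
  have e6 : rev f 6 = f 0 := rfl
  simp only [pol, e0, e1, e2, e3, e4, e5, e6]
  linear_combination f 5 * xi ^ 5 * h + f 4 * xi ^ 4 * h2 + f 3 * xi ^ 3 * h3 + f 2 * xi ^ 2 * h4 +
    f 1 * xi * h5 + f 0 * h6

end pol

section rings

variable (B : Type) [CommRing B] (f : Fin 7 → B)

/-- The equation of the affine curve. -/
noncomputable abbrev eq1 : MvPolynomial (Fin 2) B :=
  MvPolynomial.X 1 ^ 2 - pol (fun i => MvPolynomial.C (f i)) (MvPolynomial.X 0)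

/-- `B[x, y]/(y² - f(x))`. -/
abbrev A1 : Type := MvPolynomial (Fin 2) B ⧸ Ideal.span {eq1 B f}

/-- `x` -/
noncomputable def x1 : A1 B f := Ideal.Quotient.mk _ (MvPolynomial.X 0)
/-- `y` -/
noncomputable def y1 : A1 B f := Ideal.Quotient.mk _ (MvPolynomial.X 1)

theorem rel1 : y1 B f ^ 2 = pol (fun i => algebraMap B _ (f i)) (x1 B f) := by
  have h : Ideal.Quotient.mk (Ideal.span {eq1 B f}) (eq1 B f) = 0 :=
    Ideal.Quotient.eq_zero_iff_mem.2 (Ideal.subset_span rfl)
  have h2 : y1 B f ^ 2 - pol (fun i => algebraMap B (A1 B f) (f i)) (x1 B f) = 0 := by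
    rw [← h]
    simp only [eq1, map_sub, map_pow, pol_map]
    rfl
  linear_combination h2

variable {B f}

theorem kill1 {R : Type} [CommRing R] (φ : B →+* R) (x y : R)
    (h : y ^ 2 = pol (fun i => φ (f i)) x) (p : MvPolynomial (Fin 2) B)
    (hp : p ∈ Ideal.span {eq1 B f}) : MvPolynomial.eval₂Hom φ ![x, y] p = 0 := by
  have : Ideal.span {eq1 B f} ≤ RingHom.ker (MvPolynomial.eval₂Hom φ ![x, y]) := by
    rw [Ideal.span_le, Set.singleton_subset_iff]
    change MvPolynomial.eval₂Hom φ ![x, y] (eq1 B f) = 0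
    simp only [eq1, map_sub, map_pow, pol_map]
    simp [h]
  exact this hp

/-- Homomorphisms from `A₁`. -/
noncomputable def lift1 {R : Type} [CommRing R] (φ : B →+* R) (x y : R)
    (h : y ^ 2 = pol (fun i => φ (f i)) x) : A1 B f →+* R :=
  Ideal.Quotient.lift _ (MvPolynomial.eval₂Hom φ ![x, y]) (kill1 φ x y h)

section

variable {R : Type} [CommRing R] (φ : B →+* R)

@[simp]
theorem lift1_x (x y : R) (h : y ^ 2 = pol (fun i => φ (f i)) x) :
    lift1 φ x y h (x1 B f) = x :=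
  (Ideal.Quotient.lift_mk _ _ _).trans (by simp)

@[simp]
theorem lift1_y (x y : R) (h : y ^ 2 = pol (fun i => φ (f i)) x) :
    lift1 φ x y h (y1 B f) = y :=
  (Ideal.Quotient.lift_mk _ _ _).trans (by simp)

@[simp]
theorem lift1_b (x y : R) (h : y ^ 2 = pol (fun i => φ (f i)) x) (c : B) :
    lift1 φ x y h (algebraMap B _ c) = φ c :=
  (Ideal.Quotient.lift_mk (Ideal.span {eq1 B f}) (MvPolynomial.eval₂Hom φ ![x, y])
    (kill1 φ x y h) (a := MvPolynomial.C c)).trans (by simp)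

theorem hom1_ext {g g' : A1 B f →+* R} (h : ∀ c, g (algebraMap B _ c) = g' (algebraMap B _ c))
    (hx : g (x1 B f) = g' (x1 B f)) (hy : g (y1 B f) = g' (y1 B f)) : g = g' := by
  refine Ideal.Quotient.ringHom_ext ?_
  refine MvPolynomial.ringHom_ext (fun c => h c) fun i => ?_
  fin_cases i
  · exact hx
  · exact hy

end

variable (B f)

/-- `B[u, v]/(v² - u⁶ f(1/u))`. -/
abbrev A2 : Type := A1 B (rev f)

/-- The ring of the intersection of the charts. -/
abbrev A12 : Type := Localization.Away (x1 B f)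

/-- Restriction from the first chart. -/
noncomputable def g1 : A1 B f →+* A12 B f := algebraMap _ _

/-- `x` as a unit. -/
noncomputable def xu : (A12 B f)ˣ :=
  (IsLocalization.Away.algebraMap_isUnit (S := A12 B f) (x1 B f)).unit

/-- `y` in `A₁₂`. -/
noncomputable def yv : A12 B f := g1 B f (y1 B f)

theorem xu_val : (xu B f : A12 B f) = g1 B f (x1 B f) := rfl

theorem g1_y : g1 B f (y1 B f) = yv B f := rfl

theorem g1_b (c : B) : g1 B f (algebraMap B _ c) = algebraMap B _ c := rfl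

theorem rel12 : yv B f ^ 2 = pol (fun i => algebraMap B _ (f i)) (xu B f : A12 B f) := by
  have h := congrArg (g1 B f) (rel1 B f)
  rw [map_pow, pol_map] at h
  exact h

variable {B f}

/-- Homomorphisms from `A₁₂`. -/
noncomputable def lift12 {R : Type} [CommRing R] (φ : B →+* R) (x : Rˣ) (y : R)
    (h : y ^ 2 = pol (fun i => φ (f i)) (x : R)) : A12 B f →+* R :=
  IsLocalization.Away.lift (x1 B f) (g := lift1 φ (x : R) y h) (by
    rw [lift1_x]
    exact x.isUnit)

section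

variable {R : Type} [CommRing R] (φ : B →+* R)

theorem lift12_g1 (x : Rˣ) (y : R) (h : y ^ 2 = pol (fun i => φ (f i)) (x : R)) (v : A1 B f) :
    lift12 φ x y h (g1 B f v) = lift1 φ (x : R) y h v :=
  IsLocalization.Away.lift_eq _ _ _

@[simp]
theorem lift12_x (x : Rˣ) (y : R) (h : y ^ 2 = pol (fun i => φ (f i)) (x : R)) :
    lift12 φ x y h (xu B f : A12 B f) = x := by
  rw [xu_val, lift12_g1, lift1_x]

@[simp]
theorem lift12_y (x : Rˣ) (y : R) (h : y ^ 2 = pol (fun i => φ (f i)) (x : R)) :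
    lift12 φ x y h (yv B f) = y := by
  rw [yv, lift12_g1, lift1_y]

@[simp]
theorem lift12_b (x : Rˣ) (y : R) (h : y ^ 2 = pol (fun i => φ (f i)) (x : R)) (c : B) :
    lift12 φ x y h (algebraMap B _ c) = φ c := by
  rw [← g1_b, lift12_g1, lift1_b]

theorem hom12_ext {g g' : A12 B f →+* R} (h : ∀ c, g (algebraMap B _ c) = g' (algebraMap B _ c))
    (hx : g (xu B f : A12 B f) = g' (xu B f : A12 B f)) (hy : g (yv B f) = g' (yv B f)) :
    g = g' := by
  refine IsLocalization.ringHom_ext (Submonoid.powers (x1 B f)) ?_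
  exact hom1_ext (fun c => h c) hx hy

theorem lift12_xi (x : Rˣ) (y : R) (h : y ^ 2 = pol (fun i => φ (f i)) (x : R)) :
    lift12 φ x y h ((xu B f)⁻¹ : (A12 B f)ˣ).val = (x⁻¹ : Rˣ).val := by
  have h1 : Units.map (lift12 φ x y h : A12 B f →* R) (xu B f) = x := by
    ext1
    exact lift12_x φ x y h
  have h2 := congrArg (fun u : Rˣ => (u⁻¹ : Rˣ).val) h1
  rw [← h2, ← map_inv]
  rfl

end

theorem relinv {f f' : Fin 7 → B} (h : ∀ i, f' i = f (Fin.rev i)) :
    (yv B f' * ((xu B f')⁻¹ ^ 3 : (A12 B f')ˣ).val) ^ 2 =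
      pol (fun i => algebraMap B (A12 B f') (f i)) ((xu B f')⁻¹ : (A12 B f')ˣ).val := by
  have hr : (fun i => algebraMap B (A12 B f') (f' i)) =
      rev (fun i => algebraMap B (A12 B f') (f i)) := by
    funext i
    rw [h i]
    rfl
  have h1 := rel12 B f'
  rw [hr] at h1
  have h2 := pol_rev (fun i => algebraMap B (A12 B f') (f i)) (xu B f' : A12 B f')
    ((xu B f')⁻¹ : (A12 B f')ˣ).val (Units.mul_inv _)
  rw [mul_pow, h1, ← h2]
  push_cast
  ring

/-- The inversion `x ↦ 1/x`, `y ↦ y/x³`. -/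
noncomputable def inv12 {f f' : Fin 7 → B} (h : ∀ i, f' i = f (Fin.rev i)) :
    A12 B f →+* A12 B f' :=
  lift12 (algebraMap B (A12 B f')) (xu B f')⁻¹ (yv B f' * ((xu B f')⁻¹ ^ 3 : (A12 B f')ˣ).val)
    (relinv h)

section

variable {f f' : Fin 7 → B} (h : ∀ i, f' i = f (Fin.rev i)) (h' : ∀ i, f i = f' (Fin.rev i))

@[simp]
theorem inv12_b (c : B) : inv12 h (algebraMap B _ c) = algebraMap B _ c := lift12_b _ _ _ _ _

@[simp]
theorem inv12_x : inv12 h (xu B f : A12 B f) = ((xu B f')⁻¹ : (A12 B f')ˣ).val :=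
  lift12_x _ _ _ _

@[simp]
theorem inv12_xi : inv12 h ((xu B f)⁻¹ : (A12 B f)ˣ).val = (xu B f' : A12 B f') := by
  rw [inv12, lift12_xi, inv_inv]

@[simp]
theorem inv12_y : inv12 h (yv B f) = yv B f' * ((xu B f')⁻¹ ^ 3 : (A12 B f')ˣ).val :=
  lift12_y _ _ _ _

include h h' in
theorem inv12_inv12 : (inv12 h').comp (inv12 h) = RingHom.id _ := by
  refine hom12_ext ?_ ?_ ?_
  · intro c
    simp
  · simp
  · simp only [RingHom.comp_apply, inv12_y, map_mul, Units.val_pow_eq_pow_val, map_pow, inv12_xi,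
      RingHom.id_apply]
    rw [mul_assoc, ← mul_pow, Units.inv_mul, one_pow, mul_one]

/-- The inversion is an isomorphism. -/
noncomputable def invEquiv : A12 B f ≃+* A12 B f' :=
  RingEquiv.ofRingHom (inv12 h) (inv12 h') (inv12_inv12 h' h) (inv12_inv12 h h')

end

theorem rev_h (f : Fin 7 → B) (i : Fin 7) : f i = rev f (Fin.rev i) := by
  simp [rev]

theorem rev_h' (f : Fin 7 → B) (i : Fin 7) : rev f i = f (Fin.rev i) := rfl

variable (B f)

/-- Restriction from the chart at infinity: `u ↦ 1/x`, `v ↦ y/x³`. -/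
noncomputable def g2 : A2 B f →+* A12 B f := (inv12 (rev_h f)).comp (g1 B (rev f))

theorem g2_u : g2 B f (x1 B (rev f)) = ((xu B f)⁻¹ : (A12 B f)ˣ).val :=
  inv12_x (rev_h f)

theorem g2_v : g2 B f (y1 B (rev f)) = yv B f * ((xu B f)⁻¹ ^ 3 : (A12 B f)ˣ).val :=
  inv12_y (rev_h f)

theorem g2_b (c : B) : g2 B f (algebraMap B _ c) = algebraMap B _ c :=
  inv12_b (rev_h f) c

instance open1 : IsOpenImmersion (spMap (g1 B f)) := by
  unfold g1
  infer_instance

instance open2 : IsOpenImmersion (spMap (g2 B f)) := by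
  have h2 : spMap (g2 B f) = spMap (invEquiv (rev_h f) (rev_h' f) : A12 B (rev f) →+* A12 B f) ≫
      spMap (g1 B (rev f)) :=
    Spec.map_comp (CommRingCat.ofHom (g1 B (rev f)))
      (CommRingCat.ofHom (invEquiv (rev_h f) (rev_h' f) : A12 B (rev f) →+* A12 B f))
  have h3 : IsIso (spMap (invEquiv (rev_h f) (rev_h' f) : A12 B (rev f) →+* A12 B f)) := by
    have : IsIso (CommRingCat.ofHom (invEquiv (rev_h f) (rev_h' f) : A12 B (rev f) →+* A12 B f)) :=
      (RingEquiv.toCommRingCatIso (invEquiv (rev_h f) (rev_h' f))).isIso_hom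
    infer_instance
  rw [h2]
  infer_instance

end rings

/-! ## The scheme -/

section scheme

variable (B : Type) [CommRing B] (f : Fin 7 → B)

/-- The curve `y² = f(x)`. -/
noncomputable def HX : Scheme.{0} := pushout (spMap (g1 B f)) (spMap (g2 B f))

/-- The first chart. -/
noncomputable def HX.in1 : Sp (A1 B f) ⟶ HX B f := pushout.inl _ _

/-- The chart at infinity. -/
noncomputable def HX.in2 : Sp (A2 B f) ⟶ HX B f := pushout.inr _ _

instance : IsOpenImmersion (HX.in1 B f) :=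
  inferInstanceAs (IsOpenImmersion (pushout.inl (spMap (g1 B f)) (spMap (g2 B f))))

instance : IsOpenImmersion (HX.in2 B f) :=
  inferInstanceAs (IsOpenImmersion (pushout.inr (spMap (g1 B f)) (spMap (g2 B f))))

/-- The projection. -/
noncomputable def HX.pr : HX B f ⟶ Sp B :=
  pushout.desc (spMap (algebraMap B _)) (spMap (algebraMap B _)) (by
    rw [← Spec.map_comp, ← Spec.map_comp]
    congr 1
    ext c
    exact (g2_b B f c).symm)

@[reassoc (attr := simp)]
theorem HX.in1_pr : HX.in1 B f ≫ HX.pr B f = spMap (algebraMap B _) :=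
  pushout.inl_desc _ _ _

@[reassoc (attr := simp)]
theorem HX.in2_pr : HX.in2 B f ≫ HX.pr B f = spMap (algebraMap B _) :=
  pushout.inr_desc _ _ _

/-- The curve `y² = f(x)` as a family without sections. -/
noncomputable def Hyp {B : Type} [CommRing B] (f : Fin 7 → B) : Fam 0 B where
  X := HX B f
  π := HX.pr B f
  σ := fun i => i.elim0
  sec i := i.elim0

end scheme

/-! ## Morphisms from ring data -/

section mor

theorem spMap_comp' {A B C : Type} [CommRing A] [CommRing B] [CommRing C] (f : A →+* B)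
    (g : B →+* C) : spMap g ≫ spMap f = spMap (g.comp f) := by
  change _ = Spec.map (CommRingCat.ofHom (g.comp f))
  rw [CommRingCat.ofHom_comp, Spec.map_comp]

variable {B B' : Type} [CommRing B] [CommRing B']

/-- Compatible homomorphisms of the rings of the charts over `φ`. -/
structure RHom (φ : B →+* B') (f : Fin 7 → B) (f' : Fin 7 → B') where
  /-- on the first chart -/
  h1 : A1 B f →+* A1 B' f'
  /-- on the second chart -/
  h2 : A2 B f →+* A2 B' f'
  /-- on the intersection -/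
  h12 : A12 B f →+* A12 B' f'
  b1 : ∀ c, h1 (algebraMap B _ c) = algebraMap B' _ (φ c)
  b2 : ∀ c, h2 (algebraMap B _ c) = algebraMap B' _ (φ c)
  c1 : ∀ v, h12 (g1 B f v) = g1 B' f' (h1 v)
  c2 : ∀ v, h12 (g2 B f v) = g2 B' f' (h2 v)

/-- The morphism of curves of compatible ring homomorphisms. -/
noncomputable def RHom.mor {φ : B →+* B'} {f : Fin 7 → B} {f' : Fin 7 → B'} (h : RHom φ f f') :
    HX B' f' ⟶ HX B f :=
  pushout.desc (spMap h.h1 ≫ HX.in1 B f) (spMap h.h2 ≫ HX.in2 B f) (by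
    have h1 : (g1 B' f').comp h.h1 = h.h12.comp (g1 B f) :=
      RingHom.ext fun v => (h.c1 v).symm
    have h2 : (g2 B' f').comp h.h2 = h.h12.comp (g2 B f) :=
      RingHom.ext fun v => (h.c2 v).symm
    rw [← Category.assoc, ← Category.assoc, spMap_comp', spMap_comp', h1, h2, ← spMap_comp',
      ← spMap_comp', Category.assoc, Category.assoc]
    congr 1
    exact pushout.condition)

@[reassoc]
theorem RHom.in1_mor {φ : B →+* B'} {f : Fin 7 → B} {f' : Fin 7 → B'} (h : RHom φ f f') :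
    HX.in1 B' f' ≫ h.mor = spMap h.h1 ≫ HX.in1 B f :=
  pushout.inl_desc _ _ _

@[reassoc]
theorem RHom.in2_mor {φ : B →+* B'} {f : Fin 7 → B} {f' : Fin 7 → B'} (h : RHom φ f f') :
    HX.in2 B' f' ≫ h.mor = spMap h.h2 ≫ HX.in2 B f :=
  pushout.inr_desc _ _ _

theorem HX.ext' {f : Fin 7 → B} {Y : Scheme.{0}} {g g' : HX B f ⟶ Y}
    (h1 : HX.in1 B f ≫ g = HX.in1 B f ≫ g') (h2 : HX.in2 B f ≫ g = HX.in2 B f ≫ g') :
    g = g' :=
  pushout.hom_ext h1 h2

@[reassoc]
theorem RHom.mor_pr {φ : B →+* B'} {f : Fin 7 → B} {f' : Fin 7 → B'} (h : RHom φ f f') :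
    h.mor ≫ HX.pr B f = HX.pr B' f' ≫ spMap φ := by
  refine HX.ext' ?_ ?_
  · rw [← Category.assoc, RHom.in1_mor, Category.assoc, HX.in1_pr, ← Category.assoc, HX.in1_pr,
      spMap_comp', spMap_comp']
    exact congrArg (fun f => spMap f) (RingHom.ext fun c => h.b1 c)
  · rw [← Category.assoc, RHom.in2_mor, Category.assoc, HX.in2_pr, ← Category.assoc, HX.in2_pr,
      spMap_comp', spMap_comp']
    exact congrArg (fun f => spMap f) (RingHom.ext fun c => h.b2 c)

/-! ### Base change -/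

/-- Base change of the affine chart. -/
noncomputable def bc1 (φ : B →+* B') {f : Fin 7 → B} {f' : Fin 7 → B'}
    (hf : ∀ i, f' i = φ (f i)) : A1 B f →+* A1 B' f' :=
  lift1 ((algebraMap B' (A1 B' f')).comp φ) (x1 B' f') (y1 B' f') (by
    rw [rel1]
    congr 1
    funext i
    rw [hf]
    rfl)

section

variable (φ : B →+* B') {f : Fin 7 → B} {f' : Fin 7 → B'} (hf : ∀ i, f' i = φ (f i))

@[simp]
theorem bc1_x : bc1 φ hf (x1 B f) = x1 B' f' := lift1_x _ _ _ _

@[simp]
theorem bc1_y : bc1 φ hf (y1 B f) = y1 B' f' := lift1_y _ _ _ _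

@[simp]
theorem bc1_b (c : B) : bc1 φ hf (algebraMap B _ c) = algebraMap B' _ (φ c) := lift1_b _ _ _ _ _

include hf in
theorem rev_bc (i : Fin 7) : rev f' i = φ (rev f i) := hf _

/-- Base change of the chart at infinity. -/
noncomputable def bc2 : A2 B f →+* A2 B' f' := bc1 φ (rev_bc φ hf)

@[simp]
theorem bc2_u : bc2 φ hf (x1 B (rev f)) = x1 B' (rev f') := bc1_x _ _

@[simp]
theorem bc2_v : bc2 φ hf (y1 B (rev f)) = y1 B' (rev f') := bc1_y _ _

@[simp]
theorem bc2_b (c : B) : bc2 φ hf (algebraMap B _ c) = algebraMap B' _ (φ c) := bc1_b _ _ _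

/-- Base change of the intersection. -/
noncomputable def bc12 : A12 B f →+* A12 B' f' :=
  lift12 ((algebraMap B' (A12 B' f')).comp φ) (xu B' f') (yv B' f') (by
    rw [rel12]
    congr 1
    funext i
    rw [hf]
    rfl)

@[simp]
theorem bc12_x : bc12 φ hf (xu B f : A12 B f) = (xu B' f' : A12 B' f') := lift12_x _ _ _ _

@[simp]
theorem bc12_xi : bc12 φ hf ((xu B f)⁻¹ : (A12 B f)ˣ).val = ((xu B' f')⁻¹ : (A12 B' f')ˣ).val :=
  lift12_xi _ _ _ _

@[simp]
theorem bc12_y : bc12 φ hf (yv B f) = yv B' f' := lift12_y _ _ _ _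

@[simp]
theorem bc12_b (c : B) : bc12 φ hf (algebraMap B _ c) = algebraMap B' _ (φ c) :=
  lift12_b _ _ _ _ _

theorem bc12_g1 (v : A1 B f) : bc12 φ hf (g1 B f v) = g1 B' f' (bc1 φ hf v) := by
  have : (bc12 φ hf).comp (g1 B f) = (g1 B' f').comp (bc1 φ hf) := by
    refine hom1_ext ?_ ?_ ?_
    · intro c
      rw [RingHom.comp_apply, RingHom.comp_apply, g1_b, bc12_b, bc1_b, g1_b]
    · rw [RingHom.comp_apply, RingHom.comp_apply, bc1_x, ← xu_val, bc12_x, xu_val]
    · rw [RingHom.comp_apply, RingHom.comp_apply, bc1_y, g1_y, bc12_y, g1_y]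
  exact congrArg (fun g => g v) this

theorem bc12_g2 (v : A2 B f) : bc12 φ hf (g2 B f v) = g2 B' f' (bc2 φ hf v) := by
  have : (bc12 φ hf).comp (g2 B f) = (g2 B' f').comp (bc2 φ hf) := by
    refine hom1_ext ?_ ?_ ?_
    · intro c
      rw [RingHom.comp_apply, RingHom.comp_apply, g2_b, bc12_b, bc2_b, g2_b]
    · rw [RingHom.comp_apply, RingHom.comp_apply, bc2_u, g2_u, bc12_xi, g2_u]
    · rw [RingHom.comp_apply, RingHom.comp_apply, bc2_v, g2_v, g2_v, map_mul, bc12_y,
        Units.val_pow_eq_pow_val, map_pow, bc12_xi, Units.val_pow_eq_pow_val]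
  exact congrArg (fun g => g v) this

/-- Base change. -/
noncomputable def RHom.bc : RHom φ f f' where
  h1 := bc1 φ hf
  h2 := bc2 φ hf
  h12 := bc12 φ hf
  b1 := bc1_b φ hf
  b2 := bc2_b φ hf
  c1 := bc12_g1 φ hf
  c2 := bc12_g2 φ hf

/-- The base change morphism. -/
noncomputable def HX.map : HX B' f' ⟶ HX B f := (RHom.bc φ hf).mor

@[reassoc]
theorem HX.in1_map : HX.in1 B' f' ≫ HX.map φ hf = spMap (bc1 φ hf) ≫ HX.in1 B f :=
  RHom.in1_mor _

@[reassoc]
theorem HX.in2_map : HX.in2 B' f' ≫ HX.map φ hf = spMap (bc2 φ hf) ≫ HX.in2 B f :=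
  RHom.in2_mor _

@[reassoc]
theorem HX.map_pr : HX.map φ hf ≫ HX.pr B f = HX.pr B' f' ≫ spMap φ :=
  RHom.mor_pr _

end

end mor

end Pool.Agent.MG.H2
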