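import Pool.Agent.MG.H2.Defs

/-!
# Deformations of the curves `y² = f(x)`: statements
-/

open CategoryTheory CategoryTheory.Limits AlgebraicGeometry TensorProduct

namespace Pool.Agent.MG.H2

/-- HRG: the rings of the charts: `A₁ = B[x] ⊕ B[x] y`, `A₁₂ = B[x, 1/x] ⊕ B[x, 1/x] y`. -/
def Stmt_HRG : Prop :=
  ∀ (B : Type) [CommRing B] (f : Fin 7 → B),
    (∀ v : A1 B f, ∃! pq : Polynomial B × Polynomial B,
      v = Polynomial.aeval (x1 B f) pq.1 + Polynomial.aeval (x1 B f) pq.2 * y1 B f) ∧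
    Function.Injective (g1 B f) ∧ Function.Injective (g2 B f) ∧
    (∀ v : A12 B f, ∃! pq : LaurentPolynomial B × LaurentPolynomial B,
      v = LaurentPolynomial.eval₂ (algebraMap B (A12 B f)) (xu B f) pq.1 +
        LaurentPolynomial.eval₂ (algebraMap B (A12 B f)) (xu B f) pq.2 * yv B f)

/-- Ring data of a flat thickening over `E` of the curve `y² = f(x)` over `B`. -/
structure HData {B E J : Type} [CommRing B] [CommRing E] [Fintype J] (S : SqE B E J)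
    (f : Fin 7 → B) where
  /-- functions on the first chart -/
  G1 : Type
  /-- functions on the chart at infinity -/
  G2 : Type
  /-- functions on the intersection -/
  G12 : Type
  [c1 : CommRing G1]
  [c2 : CommRing G2]
  [c12 : CommRing G12]
  /-- structure map -/
  a1 : E →+* G1
  /-- structure map -/
  a2 : E →+* G2
  /-- structure map -/
  a12 : E →+* G12
  /-- restriction -/
  f1 : G1 →+* G12
  /-- restriction -/
  f2 : G2 →+* G12
  fa1 : ∀ z, f1 (a1 z) = a12 z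
  fa2 : ∀ z, f2 (a2 z) = a12 z
  /-- reduction -/
  q1 : G1 →+* A1 B f
  /-- reduction -/
  q2 : G2 →+* A2 B f
  /-- reduction -/
  q12 : G12 →+* A12 B f
  qa1 : ∀ z, q1 (a1 z) = algebraMap B _ (S.p z)
  qa2 : ∀ z, q2 (a2 z) = algebraMap B _ (S.p z)
  qa12 : ∀ z, q12 (a12 z) = algebraMap B _ (S.p z)
  qf1 : ∀ v, q12 (f1 v) = g1 B f (q1 v)
  qf2 : ∀ v, q12 (f2 v) = g2 B f (q2 v)
  sur1 : Function.Surjective q1
  sur2 : Function.Surjective q2
  sur12 : Function.Surjective q12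
  ker1 : ∀ v, q1 v = 0 → ∃ w : J → G1, v = ∑ j, a1 (S.ε j) * w j
  ker2 : ∀ v, q2 v = 0 → ∃ w : J → G2, v = ∑ j, a2 (S.ε j) * w j
  ker12 : ∀ v, q12 v = 0 → ∃ w : J → G12, v = ∑ j, a12 (S.ε j) * w j
  un1 : ∀ w : J → G1, ∑ j, a1 (S.ε j) * w j = 0 → ∀ j, q1 (w j) = 0
  un2 : ∀ w : J → G2, ∑ j, a2 (S.ε j) * w j = 0 → ∀ j, q2 (w j) = 0
  un12 : ∀ w : J → G12, ∑ j, a12 (S.ε j) * w j = 0 → ∀ j, q12 (w j) = 0

attribute [instance] HData.c1 HData.c2 HData.c12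

/-- HEA: ring data of thickenings of curves `y² = f(x)` are curves `y² = f'(x)`. -/
def Stmt_HEA : Prop :=
  ∀ {B E J : Type} [CommRing B] [CommRing E] [Fintype J] (S : SqE B E J) (f : Fin 7 → B),
    IsUnit (2 : B) → ∀ D : HData S f, ∃ (f' : Fin 7 → E) (hf : ∀ i, f i = S.p (f' i))
      (e1 : A1 E f' ≃+* D.G1) (e2 : A2 E f' ≃+* D.G2) (e12 : A12 E f' ≃+* D.G12),
      (∀ c, e1 (algebraMap E _ c) = D.a1 c) ∧ (∀ c, e2 (algebraMap E _ c) = D.a2 c) ∧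
      (∀ v, D.f1 (e1 v) = e12 (g1 E f' v)) ∧ (∀ v, D.f2 (e2 v) = e12 (g2 E f' v)) ∧
      (∀ v, D.q1 (e1 v) = bc1 S.p hf v) ∧ (∀ v, D.q2 (e2 v) = bc2 S.p hf v)

/-- HE: every thickening of a curve `y² = f(x)` is a curve `y² = f'(x)`. -/
def Stmt_HE : Prop :=
  ∀ {B E J : Type} [CommRing B] [CommRing E] [Fintype J] (S : SqE B E J) (f : Fin 7 → B),
    IsUnit (2 : B) → ∀ t : Thk S (Hyp f), ∃ (f' : Fin 7 → E) (hf : ∀ i, f i = S.p (f' i))
      (a : Arrow (RingHom.id E) t.y (Hyp f')), t.r.f ≫ a.f = HX.map S.p hf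

/-- The infinitesimal change of `f` under `x ↦ x + ε (ξ₀ + ξ₁ x + ξ₂ x²)`,
`y ↦ (1 + ε (c + 3 ξ₂ x)) y`: the coefficients of `(ξ₀ + ξ₁ x + ξ₂ x²) f' - (2 c + 6 ξ₂ x) f`. -/
def dir {R : Type} [CommRing R] (ξ0 ξ1 ξ2 c : R) (f : Fin 7 → R) : Fin 7 → R :=
  ![ξ0 * f 1 - 2 * c * f 0,
    2 * ξ0 * f 2 + (ξ1 - 2 * c) * f 1 - 6 * ξ2 * f 0,
    3 * ξ0 * f 3 + (2 * ξ1 - 2 * c) * f 2 - 5 * ξ2 * f 1,
    4 * ξ0 * f 4 + (3 * ξ1 - 2 * c) * f 3 - 4 * ξ2 * f 2,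
    5 * ξ0 * f 5 + (4 * ξ1 - 2 * c) * f 4 - 3 * ξ2 * f 3,
    6 * ξ0 * f 6 + (5 * ξ1 - 2 * c) * f 5 - 2 * ξ2 * f 4,
    (6 * ξ1 - 2 * c) * f 6 - ξ2 * f 5]

/-- HTR: the infinitesimal coordinate changes are isomorphisms. -/
def Stmt_HTR : Prop :=
  ∀ {E : Type} [CommRing E] (e ξ0 ξ1 ξ2 c : E), e * e = 0 → ∀ f : Fin 7 → E,
    ∃ a : Arrow (RingHom.id E) (Hyp fun i => f i + e * dir ξ0 ξ1 ξ2 c f i) (Hyp f),
      IsIso a.f ∧ ∀ {B : Type} [CommRing B] (p : E →+* B) (_ : p e = 0) {f0 : Fin 7 → B}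
        (h1 : ∀ i, f0 i = p (f i + e * dir ξ0 ξ1 ξ2 c f i)) (h2 : ∀ i, f0 i = p (f i)),
        HX.map p h1 ≫ a.f = HX.map p h2

/-- The coefficients of `∏ (x - r i)`. -/
noncomputable def rts {R : Type} [CommRing R] (r : Fin 6 → R) : Fin 7 → R :=
  fun j => (∏ i, (Polynomial.X - Polynomial.C (r i))).coeff j

/-- The coefficients of `-∏_{j ≠ i} (x - r j)`: the derivative of `∏ (x - r j)` with respect to
`r i`. -/
noncomputable def mvr {R : Type} [CommRing R] (r : Fin 6 → R) (i : Fin 6) : Fin 7 → R :=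
  fun j => -(∏ i' ∈ Finset.univ.erase i, (Polynomial.X - Polynomial.C (r i'))).coeff j

/-- HLI: modulo the infinitesimal coordinate changes, every change of `f = ∏ (x - r i)` moves only
the roots `r 0`, `r 1`, `r 2`. -/
def Stmt_HLI : Prop :=
  ∀ {K : Type} [Field K] [CharZero K] (r : Fin 6 → K), Function.Injective r →
    ∀ h : Fin 7 → K, ∃ (w : Fin 3 → K) (ξ0 ξ1 ξ2 c : K), ∀ j,
      h j = w 0 * mvr r 0 j + w 1 * mvr r 1 j + w 2 * mvr r 2 j + dir ξ0 ξ1 ξ2 c (rts r) j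

/-- The deformation `y² = f(x) + ε h(x)`, if it is stable. -/
noncomputable def dfm {K : Type} [Field K] (f h : Fin 7 → K)
    (hs : IsStable 2 (Hyp fun i => (TrivSqZeroExt.inl (f i) + TrivSqZeroExt.inr (h i) : Eps K)))
    (hc : IsPullback (HX.map (eps0 K) (f := fun i => (TrivSqZeroExt.inl (f i) +
      TrivSqZeroExt.inr (h i) : Eps K)) (f' := f) (fun i => by simp)) (HX.pr K f)
      (HX.pr (Eps K) fun i => (TrivSqZeroExt.inl (f i) + TrivSqZeroExt.inr (h i) : Eps K))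
      (spMap (eps0 K))) : Defo 2 (Hyp f) where
  y := Hyp fun i => (TrivSqZeroExt.inl (f i) + TrivSqZeroExt.inr (h i) : Eps K)
  stable := hs
  r := { f := HX.map (eps0 K) (f := fun i => (TrivSqZeroExt.inl (f i) +
          TrivSqZeroExt.inr (h i) : Eps K)) (f' := f) (fun i => by simp)
         cart := hc
         sec := fun i => i.elim0 }

/-- HBC: the base change square. -/
def Stmt_HBC : Prop :=
  ∀ {B B' : Type} [CommRing B] [CommRing B'] (φ : B →+* B') {f : Fin 7 → B} {f' : Fin 7 → B'}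
    (hf : ∀ i, f' i = φ (f i)),
    IsPullback (HX.map φ hf) (HX.pr B' f') (HX.pr B f) (spMap φ)

/-- HCU: covectors on `y² = ∏ (x - r i)` which agree on the deformations which move `r 0`, `r 1`,
`r 2` are equal. -/
def Stmt_HCU : Prop :=
  ∀ {K : Type} [Field K] [CharZero K] (r : Fin 6 → K), Function.Injective r →
    (∀ (E : Type) [CommRing E] (p : E →+* K) (f : Fin 7 → E), (∀ i, rts r i = p (f i)) →
      (∀ a, p a = 0 → a * a = 0) → Function.Surjective p → IsStable 2 (Hyp f)) →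
    ∀ l l' : Cov 2 (Hyp (rts r)),
    (∀ (i : Fin 3) hs hc, l.l (dfm (rts r) (mvr r (i.castLE (by norm_num))) hs hc) =
      l'.l (dfm (rts r) (mvr r (i.castLE (by norm_num))) hs hc)) → l = l'

end Pool.Agent.MG.H2
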