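import Pool.Agent.MG.H2.StmtsE
import Pool.Agent.MG.H2.StmtsH
import Pool.Agent.MG.COVI
import Pool.Agent.MG.TwoSmC
import Pool.Agent.MG.NOT

/-!
# Smooth curves of genus two are curves `y² = f(x)`: assembly
-/

open CategoryTheory CategoryTheory.Limits AlgebraicGeometry TensorProduct

namespace Pool.Agent.MG.H2

open Pool.Agent.MG.Two

/-- EF: smooth curves of genus two are curves `y² = ∏ (x - r i)`. -/
def Stmt_EF : Prop :=
  ∀ {k : Type} [Field k] [IsAlgClosed k] [CharZero k] (C : Fam 0 k), IsStable 2 C →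
    SmoothOfRelativeDimension 1 C.π →
    ∃ r : Fin 6 → k, Function.Injective r ∧
      ∃ f : Arrow (RingHom.id k) C (Hyp (rts r)), IsIso f.f

/-- EFG: proper smooth connected curves of genus two are curves `y² = ∏ (x - r i)`. -/
def Stmt_EFG : Prop :=
  ∀ {k : Type} [Field k] [IsAlgClosed k] [CharZero k] (C : Fam 0 k), IsProper C.π →
    ConnectedSpace C.X → HasGenus C.π 2 → SmoothOfRelativeDimension 1 C.π →
    ∃ r : Fin 6 → k, Function.Injective r ∧
      ∃ f : Arrow (RingHom.id k) C (Hyp (rts r)), IsIso f.f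

namespace EA

/-- EQD from EPD and EGD. -/
theorem eqd (hEPD : Stmt_EPD) (hEGD : Stmt_EGD) : Stmt_EQD := by
  intro X k _ π _ _ _ _ _ hg
  obtain ⟨V, U, hne, hV, D, hD⟩ := hEGD π hg
  have hfrac : IsFractionRing Γ(X, V) X.functionField :=
    functionField_isFractionRing_of_isAffineOpen X V hV
  obtain ⟨x, y, f, h⟩ := hEPD D X.functionField
  refine ⟨x, y, f, ?_⟩
  have e : (algebraMap Γ(X, V) X.functionField).comp D.c1 = kfun π := by
    refine RingHom.ext fun c => ?_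
    rw [hD]
    exact germ_kmap π V c
  rw [e] at h
  exact h

theorem coeff_pol {k K : Type} [Field k] [Field K] (c : k →+* K) (x : K) (p : Polynomial k)
    (hp : p.natDegree ≤ 6) : p.eval₂ c x = pol (fun i : Fin 7 => c (p.coeff i)) x := by
  rw [Polynomial.eval₂_eq_sum_range' c (n := 7) (by omega)]
  simp only [Finset.sum_range_succ, Finset.sum_range_zero, pol]
  simp

section

variable {X : Scheme.{0}} [IsIntegral X]

theorem germ_inj {U : X.Opens} [Nonempty U] {s t : Γ(X, U)}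
    (h : X.germToFunctionField U s = X.germToFunctionField U t) : s = t :=
  X.germToFunctionField_injective U h

end

open Classical in
/-- The functional on the function field. -/
noncomputable def Lf {X : Scheme.{0}} [IsIntegral X] {k : Type} [Field k] {U : X.Opens}
    [Nonempty U] (L : Γ(X, U) →+ (Fin 2 → k)) (z : X.functionField) : Fin 2 → k :=
  if h : ∃ s : Γ(X, U), X.germToFunctionField U s = z then L h.choose else 0

theorem Lf_germ {X : Scheme.{0}} [IsIntegral X] {k : Type} [Field k] {U : X.Opens}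
    [Nonempty U] (L : Γ(X, U) →+ (Fin 2 → k)) (s : Γ(X, U)) :
    Lf L (X.germToFunctionField U s) = L s := by
  have h : ∃ t : Γ(X, U), X.germToFunctionField U t = X.germToFunctionField U s := ⟨s, rfl⟩
  unfold Lf
  rw [dif_pos h]
  exact congrArg L (germ_inj h.choose_spec)

end EA

open EA

/-- Smooth curves of genus two are curves `y² = ∏ (x - r i)`. -/
theorem t_EFG (hEPD : Stmt_EPD) (hEGD : Stmt_EGD) (hESQ : Stmt_ESQ) (hEMB : Stmt_EMB)
    (hEIC : Stmt_EIC) (hEIN : Stmt_EIN) (hEUN : Stmt_EUN) (hEDM : Stmt_EDM) (hECN : Stmt_ECN)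
    (hEIS : Stmt_EIS) : Stmt_EFG := by
  intro k _ _ _ C hprop hcon hgen hs
  have hint : AlgebraicGeometry.IsIntegral C.X := isIntegral_of_smooth C.π
  obtain ⟨x0, y0, f0, h0⟩ := eqd hEPD hEGD C.π hgen
  obtain ⟨m, a0, b0, y1, hab, h1⟩ := hESQ _ x0 y0 f0 h0
  obtain ⟨x, y, r, hr, h2⟩ := hEMB _ x0 y1 m a0 b0 hab h1
  have hF : ∏ i, (Polynomial.C ((fun _ => 1 : Fin (2 * m) → k) i) * Polynomial.X +
      Polynomial.C ((fun i => - r i : Fin (2 * m) → k) i)) =
      ∏ i, (Polynomial.X - Polynomial.C (r i)) := by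
    refine Finset.prod_congr rfl fun i _ => ?_
    simp [sub_eq_add_neg]
  have hbr : ∀ i j, i ≠ j → (fun _ => 1 : Fin (2 * m) → k) i * (fun i => - r i : Fin (2 * m) → k) j -
      (fun _ => 1 : Fin (2 * m) → k) j * (fun i => - r i : Fin (2 * m) → k) i ≠ 0 := by
    intro i j hij h
    apply hij
    apply hr
    simp only [one_mul] at h
    linear_combination h
  have h2' := h2
  rw [← hF] at h2'
  obtain ⟨sq1, sq2, h3⟩ := hEIN _ x y m _ _ hbr h2'
  have htr : Transc C.π x := h2.tr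
  have htr' : Transc C.π x⁻¹ := h3.tr
  have hx0 : x ≠ 0 := htr.ne_zero C.π
  obtain ⟨aff1, aff2, hcov, hint1, hloc⟩ := hEDM C.π x htr
  obtain ⟨-, -, -, hint2, -⟩ := hEDM C.π x⁻¹ htr'
  have ch1 : ∀ z : C.X.functionField,
      (∃ s : Γ(C.X, dom x), C.X.germToFunctionField (dom x) s = z) ↔
      ∃ p q : Polynomial k, z = p.eval₂ (kfun C.π) x + q.eval₂ (kfun C.π) x * y := fun z =>
    (hint1 z).symm.trans (hEIC _ x y _ h2' sq1 z)
  have ch2 : ∀ z : C.X.functionField,
      (∃ s : Γ(C.X, dom x⁻¹), C.X.germToFunctionField (dom x⁻¹) s = z) ↔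
      ∃ p q : Polynomial k, z = p.eval₂ (kfun C.π) x⁻¹ +
        q.eval₂ (kfun C.π) x⁻¹ * (y * x⁻¹ ^ m) := fun z =>
    (hint2 z).symm.trans (hEIC _ x⁻¹ _ _ h3 sq2 z)
  have hne : Nonempty (dom x ⊓ dom x⁻¹ : C.X.Opens) := nonempty_inf inferInstance inferInstance
  obtain ⟨L, hLs, hLc, hL0⟩ := t_COVI C.π 2 hgen (dom x) (dom x⁻¹) aff1 aff2 hcov
  have hIn : ∀ z : C.X.functionField, (∃ (N : ℕ) (p q : Polynomial k),
      x ^ N * z = p.eval₂ (kfun C.π) x + q.eval₂ (kfun C.π) x * y) →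
      ∃ s : Γ(C.X, dom x ⊓ dom x⁻¹), C.X.germToFunctionField (dom x ⊓ dom x⁻¹) s = z := by
    rintro z ⟨N, p, q, h⟩
    obtain ⟨t, ht⟩ := (ch1 (x ^ N * z)).2 ⟨p, q, h⟩
    refine ⟨rs C.X inf_le_left t * rs C.X inf_le_right (sec x⁻¹) ^ N, ?_⟩
    have e1 : C.X.germToFunctionField (dom x ⊓ dom x⁻¹) (rs C.X inf_le_left t) =
        C.X.germToFunctionField (dom x) t := germToFunctionField_res _ t
    have e2 : C.X.germToFunctionField (dom x ⊓ dom x⁻¹) (rs C.X inf_le_right (sec x⁻¹)) =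
        C.X.germToFunctionField (dom x⁻¹) (sec x⁻¹) := germToFunctionField_res _ (sec x⁻¹)
    rw [map_mul, map_pow, e1, e2, ht, germ_sec]
    have e3 : x ^ N * x⁻¹ ^ N = 1 := by rw [← mul_pow, mul_inv_cancel₀ hx0, one_pow]
    linear_combination z * e3
  have hm : m = 3 := by
    refine hECN (kfun C.π) x y m hx0 ?_ ?_ (Lf L) ?_ ?_ ?_ ?_
    · rintro rfl
      have h4 := h2.eq
      have : IsEmpty (Fin (2 * 0)) := inferInstanceAs (IsEmpty (Fin 0))
      rw [Finset.prod_of_isEmpty, Polynomial.eval₂_one] at h4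
      exact h4
    · intro hm1
      exact hEUN _ x y m _ _ hm1 hbr h2'
    · intro z w hz hw
      obtain ⟨s, rfl⟩ := hIn z hz
      obtain ⟨t, rfl⟩ := hIn w hw
      rw [← map_add, Lf_germ, Lf_germ, Lf_germ, map_add]
    · intro a z hz
      obtain ⟨s, rfl⟩ := hIn z hz
      have e1 : kfun C.π a * C.X.germToFunctionField (dom x ⊓ dom x⁻¹) s =
          C.X.germToFunctionField (dom x ⊓ dom x⁻¹) (coef C.π _ a * s) := by
        rw [map_mul]
        congr 1
        exact (germ_kmap C.π (dom x ⊓ dom x⁻¹) a).symm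
      rw [e1, Lf_germ, Lf_germ, hLc]
    · intro z hz
      obtain ⟨s, rfl⟩ := hIn z hz
      rw [Lf_germ, hL0]
      constructor
      · rintro ⟨a, b, hab⟩
        obtain ⟨p, q, hp⟩ := (ch1 _).1 ⟨a, rfl⟩
        obtain ⟨p', q', hp'⟩ := (ch2 _).1 ⟨b, rfl⟩
        refine ⟨p, q, p', q', ?_⟩
        rw [← hp, ← hp', hab, map_add]
        congr 1
        · exact germToFunctionField_res _ a
        · exact germToFunctionField_res _ b
      · rintro ⟨p, q, p', q', h⟩
        obtain ⟨a, ha⟩ := (ch1 _).2 ⟨p, q, rfl⟩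
        obtain ⟨b, hb⟩ := (ch2 _).2 ⟨p', q', rfl⟩
        refine ⟨a, b, germ_inj ?_⟩
        rw [h, ← ha, ← hb, map_add]
        congr 1
        · exact (germToFunctionField_res _ a).symm
        · exact (germToFunctionField_res _ b).symm
    · intro v
      obtain ⟨s, hs⟩ := hLs v
      obtain ⟨N, t, ht⟩ := hloc s
      obtain ⟨p, q, hp⟩ := (ch1 _).1 ⟨t, rfl⟩
      exact ⟨_, ⟨N, p, q, ht.trans hp⟩, by rw [Lf_germ, hs]⟩
  subst hm
  have hdeg : (∏ i, (Polynomial.X - Polynomial.C (r i))).natDegree ≤ 6 := by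
    rw [Polynomial.natDegree_finsetProd_X_sub_C_eq_card]
    simp
  have heq : y ^ 2 = pol (fun i => kfun C.π (rts (r : Fin 6 → k) i)) x := by
    rw [h2.eq]
    exact coeff_pol _ _ _ hdeg
  exact ⟨r, hr, hEIS C x y (rts r) hx0 aff1 aff2 hcov heq htr (hEUN _ x y 3 _ _ (by norm_num) hbr h2')
    ch1 ch2⟩

/-- Smooth stable curves of genus two are curves `y² = ∏ (x - r i)`. -/
theorem EFG_EF (h : Stmt_EFG) : Stmt_EF := by
  intro k _ _ _ C hC hs
  have hid : spMap (RingHom.id k) = 𝟙 (Sp k) := by simp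
  have hst : StableCurve 2 C := hC.fib k (RingHom.id k) C ⟨{
    f := 𝟙 C.X
    cart := by
      rw [hid]
      exact IsPullback.of_id_fst
    sec := fun i => by rw [hid, Category.comp_id, Category.id_comp] }⟩
  exact h C hC.proper hst.connected hst.genus hs

/-- Smooth curves of genus two are curves `y² = ∏ (x - r i)`. -/
theorem t_EF (hEPD : Stmt_EPD) (hEGD : Stmt_EGD) (hESQ : Stmt_ESQ) (hEMB : Stmt_EMB)
    (hEIC : Stmt_EIC) (hEIN : Stmt_EIN) (hEUN : Stmt_EUN) (hEDM : Stmt_EDM) (hECN : Stmt_ECN)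
    (hEIS : Stmt_EIS) : Stmt_EF :=
  EFG_EF (t_EFG hEPD hEGD hESQ hEMB hEIC hEIN hEUN hEDM hECN hEIS)

end Pool.Agent.MG.H2
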