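import Pool.Agent.MG.H2.StmtsE

/-!
# ECN: the number of the linear forms is six

Modulo the functions of the two charts every function of the intersection is a combination of
`y x⁻¹, …, y x^{-(m-1)}`, and these are independent.
-/

open Polynomial

namespace Pool.Agent.MG.H2

namespace ECNh

variable {k K : Type} [Field k] [Field K]

/-- functions of the intersection of the charts -/
def PS (c : k →+* K) (x y z : K) : Prop :=
  ∃ (N : ℕ) (p q : Polynomial k), x ^ N * z = p.eval₂ c x + q.eval₂ c x * y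

theorem PS.add {c : k →+* K} {x y z w : K} (hz : PS c x y z) (hw : PS c x y w) :
    PS c x y (z + w) := by
  obtain ⟨N, p, q, h⟩ := hz
  obtain ⟨M, p', q', h'⟩ := hw
  refine ⟨N + M, X ^ M * p + X ^ N * p', X ^ M * q + X ^ N * q', ?_⟩
  simp only [eval₂_add, eval₂_mul, eval₂_pow, eval₂_X]
  rw [pow_add]
  linear_combination x ^ M * h + x ^ N * h'

theorem PS.smul {c : k →+* K} {x y z : K} (a : k) (hz : PS c x y z) :
    PS c x y (c a * z) := by
  obtain ⟨N, p, q, h⟩ := hz
  refine ⟨N, C a * p, C a * q, ?_⟩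
  simp only [eval₂_mul, eval₂_C]
  linear_combination c a * h

theorem PS.zero (c : k →+* K) (x y : K) : PS c x y 0 :=
  ⟨0, 0, 0, by simp⟩

theorem PS.sum {c : k →+* K} {x y : K} {ι : Type} (s : Finset ι) (z : ι → K) (a : ι → k)
    (h : ∀ i, PS c x y (z i)) : PS c x y (∑ i ∈ s, c (a i) * z i) := by
  classical
  induction s using Finset.induction_on with
  | empty => simpa using PS.zero c x y
  | insert i s hi ih =>
    rw [Finset.sum_insert hi]
    exact ((h i).smul (a i)).add ih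

/-- `y x^{-(i+1)}` -/
theorem PS.base {c : k →+* K} {x y : K} (hx : x ≠ 0) (i : ℕ) : PS c x y (y * x⁻¹ ^ i) := by
  refine ⟨i, 0, 1, ?_⟩
  simp only [eval₂_zero, eval₂_one, zero_add, one_mul]
  rw [inv_pow]
  field_simp

/-- sums of functions of the charts -/
def QS (c : k →+* K) (x y : K) (m : ℕ) (z : K) : Prop :=
  ∃ p q p' q' : Polynomial k, z = (p.eval₂ c x + q.eval₂ c x * y) +
        (p'.eval₂ c x⁻¹ + q'.eval₂ c x⁻¹ * (y * x⁻¹ ^ m))

theorem QS.add {c : k →+* K} {x y z w : K} {m : ℕ} (hz : QS c x y m z) (hw : QS c x y m w) :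
    QS c x y m (z + w) := by
  obtain ⟨p, q, p', q', h⟩ := hz
  obtain ⟨r, s, r', s', h'⟩ := hw
  refine ⟨p + r, q + s, p' + r', q' + s', ?_⟩
  simp only [eval₂_add]
  linear_combination h + h'

theorem QS.zero (c : k →+* K) (x y : K) (m : ℕ) : QS c x y m 0 :=
  ⟨0, 0, 0, 0, by simp⟩

/-- combination of the base elements plus functions of the charts -/
def TS (c : k →+* K) (x y : K) (m : ℕ) (z : K) : Prop :=
  ∃ (a : Fin (m - 1) → k) (w : K), QS c x y m w ∧
    z = ∑ i, c (a i) * (y * x⁻¹ ^ ((i : ℕ) + 1)) + w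

theorem TS.add {c : k →+* K} {x y z w : K} {m : ℕ} (hz : TS c x y m z) (hw : TS c x y m w) :
    TS c x y m (z + w) := by
  obtain ⟨a, u, hu, h⟩ := hz
  obtain ⟨b, v, hv, h'⟩ := hw
  refine ⟨a + b, u + v, hu.add hv, ?_⟩
  simp only [Pi.add_apply, map_add, add_mul, Finset.sum_add_distrib]
  linear_combination h + h'

theorem TS.of_QS {c : k →+* K} {x y z : K} {m : ℕ} (hz : QS c x y m z) : TS c x y m z :=
  ⟨0, z, hz, by simp⟩

theorem mono1 {c : k →+* K} {x y : K} (hx : x ≠ 0) (m N j : ℕ) (a : k) :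
    TS c x y m (x⁻¹ ^ N * (c a * x ^ j)) := by
  rcases le_total N j with h | h
  · obtain ⟨d, rfl⟩ := Nat.exists_eq_add_of_le h
    refine TS.of_QS ⟨C a * X ^ d, 0, 0, 0, ?_⟩
    simp only [eval₂_mul, eval₂_C, eval₂_pow, eval₂_X, eval₂_zero]
    rw [inv_pow, pow_add]
    field_simp
    ring
  · obtain ⟨d, rfl⟩ := Nat.exists_eq_add_of_le h
    refine TS.of_QS ⟨0, 0, C a * X ^ d, 0, ?_⟩
    simp only [eval₂_mul, eval₂_C, eval₂_pow, eval₂_X, eval₂_zero]
    rw [inv_pow, inv_pow, pow_add]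
    field_simp
    ring

theorem mono2 {c : k →+* K} {x y : K} (hx : x ≠ 0) (m N j : ℕ) (a : k) :
    TS c x y m (x⁻¹ ^ N * (c a * x ^ j * y)) := by
  classical
  rcases le_or_gt N j with h | h
  · obtain ⟨d, rfl⟩ := Nat.exists_eq_add_of_le h
    refine TS.of_QS ⟨0, C a * X ^ d, 0, 0, ?_⟩
    simp only [eval₂_mul, eval₂_C, eval₂_pow, eval₂_X, eval₂_zero]
    rw [inv_pow, pow_add]
    field_simp
    ring
  · obtain ⟨d, rfl⟩ := Nat.exists_eq_add_of_lt h
    rcases le_or_gt m (d + 1) with h' | h'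
    · obtain ⟨e, he⟩ := Nat.exists_eq_add_of_le h'
      refine TS.of_QS ⟨0, 0, 0, C a * X ^ e, ?_⟩
      simp only [eval₂_mul, eval₂_C, eval₂_pow, eval₂_X, eval₂_zero]
      have h1 : j + d + 1 = j + (m + e) := by omega
      rw [h1, inv_pow, inv_pow, inv_pow, pow_add, pow_add]
      field_simp
      ring
    · refine ⟨fun i => if (i : ℕ) = d then a else 0, 0, QS.zero c x y m, ?_⟩
      have hd : d < m - 1 := by omega
      rw [Finset.sum_eq_single (⟨d, hd⟩ : Fin (m - 1))]
      · simp only [if_true, add_zero]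
        rw [inv_pow, inv_pow]
        have h1 : j + d + 1 = j + (d + 1) := by omega
        rw [h1, pow_add]
        field_simp
      · intro b _ hb
        have : (b : ℕ) ≠ d := fun h => hb (Fin.ext h)
        simp [this]
      · intro h
        exact absurd (Finset.mem_univ _) h

theorem poly1 {c : k →+* K} {x y : K} (hx : x ≠ 0) (m N : ℕ) (p : Polynomial k) :
    TS c x y m (x⁻¹ ^ N * p.eval₂ c x) := by
  induction p using Polynomial.induction_on' with
  | add p q hp hq =>
    rw [eval₂_add, mul_add]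
    exact hp.add hq
  | monomial n a =>
    rw [eval₂_monomial]
    exact mono1 hx m N n a

theorem poly2 {c : k →+* K} {x y : K} (hx : x ≠ 0) (m N : ℕ) (p : Polynomial k) :
    TS c x y m (x⁻¹ ^ N * (p.eval₂ c x * y)) := by
  induction p using Polynomial.induction_on' with
  | add p q hp hq =>
    rw [eval₂_add, add_mul, mul_add]
    exact hp.add hq
  | monomial n a =>
    rw [eval₂_monomial]
    exact mono2 hx m N n a

/-- every function of the intersection -/
theorem decomp {c : k →+* K} {x y z : K} (hx : x ≠ 0) (m : ℕ) (hz : PS c x y z) :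
    TS c x y m z := by
  obtain ⟨N, p, q, h⟩ := hz
  have h1 : z = x⁻¹ ^ N * p.eval₂ c x + x⁻¹ ^ N * (q.eval₂ c x * y) := by
    rw [← mul_add, ← h, ← mul_assoc, ← mul_pow, inv_mul_cancel₀ hx, one_pow, one_mul]
  rw [h1]
  exact (poly1 hx m N p).add (poly2 hx m N q)

theorem inv_eval {c : k →+* K} {x : K} (hx : x ≠ 0) (N : ℕ) (f : Polynomial k)
    (hf : f.natDegree ≤ N) : x ^ N * f.eval₂ c x⁻¹ = (reflect N f).eval₂ c x := by
  let _ : Invertible x⁻¹ := invertibleOfNonzero (inv_ne_zero hx)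
  have h := eval₂_reflect_mul_pow c x⁻¹ N f hf
  have h1 : (⅟ (x⁻¹) : K) = x := by
    rw [invOf_eq_inv, inv_inv]
  rw [h1] at h
  rw [← h, mul_comm, mul_assoc, ← mul_pow, inv_mul_cancel₀ hx, one_pow, mul_one]

/-- the base elements are independent modulo the functions of the charts -/
theorem indep {c : k →+* K} {x y : K} (hx : x ≠ 0) (m : ℕ) (hm : 1 ≤ m)
    (hi : ∀ p q : Polynomial k, p.eval₂ c x + q.eval₂ c x * y = 0 → p = 0 ∧ q = 0)
    (a : Fin (m - 1) → k) (h : QS c x y m (∑ i, c (a i) * (y * x⁻¹ ^ ((i : ℕ) + 1)))) :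
    a = 0 := by
  classical
  obtain ⟨p, q, p', q', h⟩ := h
  set M : ℕ := m + p'.natDegree + q'.natDegree with hM
  have e1 := inv_eval (c := c) hx M p' (by omega)
  have e2 := inv_eval (c := c) hx (M - m) q' (by omega)
  have hMm : x ^ M = x ^ (M - m) * x ^ m := by
    rw [← pow_add]
    congr 1
    omega
  have hpow : ∀ i : Fin (m - 1), x ^ M * x⁻¹ ^ ((i : ℕ) + 1) = x ^ (M - 1 - i) := by
    intro i
    have hi2 := i.2
    have h3 : M = (M - 1 - i) + ((i : ℕ) + 1) := by omega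
    conv_lhs => rw [h3]
    rw [pow_add, mul_assoc, ← mul_pow, mul_inv_cancel₀ hx, one_pow, mul_one]
  have hkey := hi (-(X ^ M * p + reflect M p'))
    ((∑ i : Fin (m - 1), C (a i) * X ^ (M - 1 - (i : ℕ))) - X ^ M * q - reflect (M - m) q') (by
    simp only [eval₂_neg, eval₂_add, eval₂_sub, eval₂_mul, eval₂_pow, eval₂_X,
      eval₂_finsetSum, eval₂_C]
    rw [← e1, ← e2]
    have h4 : ∑ i : Fin (m - 1), c (a i) * x ^ (M - 1 - (i : ℕ)) * y =
        x ^ M * ∑ i : Fin (m - 1), c (a i) * (y * x⁻¹ ^ ((i : ℕ) + 1)) := by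
      rw [Finset.mul_sum]
      refine Finset.sum_congr rfl fun i _ => ?_
      rw [← hpow i]
      ring
    have h5 : x ^ M * x⁻¹ ^ m = x ^ (M - m) := by
      rw [hMm, mul_assoc, ← mul_pow, mul_inv_cancel₀ hx, one_pow, mul_one]
    have h6 : (∑ i : Fin (m - 1), c (a i) * x ^ (M - 1 - (i : ℕ))) * y =
        x ^ M * (p.eval₂ c x + q.eval₂ c x * y +
        (p'.eval₂ c x⁻¹ + q'.eval₂ c x⁻¹ * (y * x⁻¹ ^ m))) := by
      rw [← h, ← h4, Finset.sum_mul]
    have h7 : x ^ M * (q'.eval₂ c x⁻¹ * (y * x⁻¹ ^ m)) =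
        x ^ (M - m) * q'.eval₂ c x⁻¹ * y := by
      rw [← h5]
      ring
    linear_combination h6 + h7)
  funext i
  have hi2 := i.2
  have h8 := congrArg (fun f : Polynomial k => f.coeff (M - 1 - (i : ℕ))) hkey.2
  simp only [coeff_sub, coeff_zero, finsetSum_coeff, coeff_C_mul, coeff_X_pow] at h8
  have h9 : (X ^ M * q).coeff (M - 1 - (i : ℕ)) = 0 := by
    rw [coeff_X_pow_mul']
    rw [if_neg]
    omega
  have h10 : (reflect (M - m) q').coeff (M - 1 - (i : ℕ)) = 0 := by
    rw [coeff_reflect]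
    apply coeff_eq_zero_of_natDegree_lt
    rw [revAt_eq_self_of_lt (by omega)]
    omega
  rw [h9, h10, Finset.sum_eq_single i] at h8
  · simpa using h8
  · intro b _ hb
    have hb2 := b.2
    have : ¬ (M - 1 - (i : ℕ) = M - 1 - (b : ℕ)) := by
      intro h
      apply hb
      apply Fin.ext
      omega
    simp [this]
  · intro h
    exact absurd (Finset.mem_univ _) h

end ECNh

open ECNh in
theorem t_ECN : Stmt_ECN := by
  intro k K _ _ _ c x y m hx _ hi L hadd hsm hker hsur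
  have hL0 : L 0 = 0 := by
    have := hsm 0 0 (PS.zero c x y)
    simpa using this
  have hLsum : ∀ a : Fin (m - 1) → k,
      L (∑ i, c (a i) * (y * x⁻¹ ^ ((i : ℕ) + 1))) =
        ∑ i, a i • L (y * x⁻¹ ^ ((i : ℕ) + 1)) := by
    intro a
    have : ∀ s : Finset (Fin (m - 1)), L (∑ i ∈ s, c (a i) * (y * x⁻¹ ^ ((i : ℕ) + 1))) =
        ∑ i ∈ s, a i • L (y * x⁻¹ ^ ((i : ℕ) + 1)) := by
      classical
      intro s
      induction s using Finset.induction_on with
      | empty => simpa using hL0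
      | insert i s hi' ih =>
        rw [Finset.sum_insert hi', Finset.sum_insert hi', hadd _ _ ((PS.base hx _).smul (a i))
          (PS.sum s _ a fun i => PS.base hx _), ih, hsm _ _ (PS.base hx _)]
    exact this Finset.univ
  let Φ : (Fin (m - 1) → k) →ₗ[k] (Fin 2 → k) :=
    Fintype.linearCombination k (fun i : Fin (m - 1) => L (y * x⁻¹ ^ ((i : ℕ) + 1)))
  have hΦ : ∀ a, Φ a = L (∑ i, c (a i) * (y * x⁻¹ ^ ((i : ℕ) + 1))) := by
    intro a
    rw [hLsum a]
    rfl
  have hPsum : ∀ a : Fin (m - 1) → k,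
      PS c x y (∑ i, c (a i) * (y * x⁻¹ ^ ((i : ℕ) + 1))) := fun a =>
    PS.sum Finset.univ _ a fun i => PS.base hx _
  have hΦs : Function.Surjective Φ := by
    intro v
    obtain ⟨z, hz, rfl⟩ := hsur v
    obtain ⟨a, w, hw, h⟩ := decomp hx m hz
    refine ⟨a, ?_⟩
    have hPw : PS c x y w := by
      have h1 : w = z + c (-1) * ∑ i, c (a i) * (y * x⁻¹ ^ ((i : ℕ) + 1)) := by
        rw [h]
        simp
      rw [h1]
      exact PS.add hz ((hPsum a).smul (-1))
    have hLw : L w = 0 := (hker w hPw).2 hw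
    rw [hΦ, h, hadd _ _ (hPsum a) hPw, hLw, add_zero]
  have hdim : 2 ≤ m - 1 := by
    have := LinearMap.finrank_le_finrank_of_surjective (f := Φ) hΦs
    simpa using this
  have hm : 1 ≤ m := by omega
  have hΦi : Function.Injective Φ := by
    rw [← LinearMap.ker_eq_bot, LinearMap.ker_eq_bot']
    intro a ha
    rw [hΦ] at ha
    exact indep hx m hm (hi hm) a ((hker _ (hPsum a)).1 ha)
  have hdim2 : m - 1 ≤ 2 := by
    have := LinearMap.finrank_le_finrank_of_injective (f := Φ) hΦi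
    simpa using this
  omega

end Pool.Agent.MG.H2
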