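import Pool.Agent.MG.H2.StmtsE
import Pool.Agent.MG.W.W0D

/-!
# The rational functions regular on the domain of `x` are the functions integral over `k[x]`
-/

open CategoryTheory CategoryTheory.Limits AlgebraicGeometry TensorProduct TopologicalSpace

namespace Pool.Agent.MG.H2.EDMaux

open Pool.Agent.MG.Two

variable {X : Scheme.{0}} [IsIntegral X] {k : Type} [Field k] (π : X ⟶ Sp k)

lemma germ_comp (x : X.functionField) : Polynomial.eval₂RingHom (kfun π) x =
    (X.germToFunctionField (dom x)).hom.comp (polyMap π x) := by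
  ext1
  · ext a
    simpa using (germ_polyMap π x (Polynomial.C a)).symm
  · simpa using (germ_polyMap π x Polynomial.X).symm

lemma integral_polyMap [IsProper π]
    (hpir : ∀ x : X, IsPrincipalIdealRing (X.presheaf.stalk x)) {x : X.functionField}
    (hx : Transc π x) : (polyMap π x).IsIntegral := by
  have h1 := isFinite_phi π hpir hx
  have h2 : (phi π x).appTop.hom.Finite :=
    IsFinite.finite_app (f := phi π x) ⊤ (isAffineOpen_top _)
  have h3 : CommRingCat.ofHom (polyMap π x) =
      (Scheme.ΓSpecIso (.of (Polynomial k))).inv ≫ (phi π x).appTop ≫ (dom x).topIso.hom := by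
    rw [phi_appTop, Category.assoc, Category.assoc, Iso.inv_hom_id, Category.comp_id,
      Iso.inv_hom_id_assoc]
  have h4 : ((Scheme.ΓSpecIso (.of (Polynomial k))).inv ≫ (phi π x).appTop ≫
      (dom x).topIso.hom).hom.Finite := by
    rw [CommRingCat.hom_comp, CommRingCat.hom_comp]
    refine RingHom.Finite.comp (RingHom.Finite.comp ?_ h2) ?_
    · exact RingHom.Finite.of_surjective _ (ConcreteCategory.bijective_of_isIso _).2
    · exact RingHom.Finite.of_surjective _ (ConcreteCategory.bijective_of_isIso _).2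
  have h5 : (polyMap π x).Finite := by
    rw [← h3] at h4
    exact h4
  exact h5.to_isIntegral

lemma basicOpen_sec (x : X.functionField) (hx : x ≠ 0) :
    dom x ⊓ dom x⁻¹ = X.basicOpen (sec x) := by
  have hne : Nonempty (dom x ⊓ dom x⁻¹ : X.Opens) := nonempty_inf inferInstance inferInstance
  apply le_antisymm
  · intro y hy
    rw [Scheme.mem_basicOpen _ _ _ hy.1]
    have h1 := sec_mul_inv x hx (dom x ⊓ dom x⁻¹) inf_le_left inf_le_right
    have h2 := congrArg (X.presheaf.germ (dom x ⊓ dom x⁻¹) y hy) h1
    rw [map_mul, map_one] at h2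
    have h3 := IsUnit.of_mul_eq_one _ h2
    rw [← X.presheaf.germ_res_apply (homOfLE (inf_le_left : dom x ⊓ dom x⁻¹ ≤ dom x)) y hy]
    exact h3
  · intro y hy
    have hy1 : y ∈ dom x := X.basicOpen_le _ hy
    refine ⟨hy1, ?_⟩
    rw [Scheme.mem_basicOpen _ _ _ hy1] at hy
    obtain ⟨g, hg⟩ := hy
    refine (mem_dom_iff x⁻¹ y).mpr ⟨(↑(g⁻¹) : X.presheaf.stalk y), ?_⟩
    have h1 : algebraMap (X.presheaf.stalk y) X.functionField (g : X.presheaf.stalk y) = x := by
      rw [hg, Scheme.algebraMap_germ_eq_germToFunctionField (X := X) hy1, germ_sec]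
    have h2 : algebraMap (X.presheaf.stalk y) X.functionField (↑(g⁻¹) : X.presheaf.stalk y) *
        x = 1 := by
      rw [← h1, ← map_mul, Units.inv_mul, map_one]
    exact eq_inv_of_mul_eq_one_left h2

end Pool.Agent.MG.H2.EDMaux

namespace Pool.Agent.MG.H2

open Pool.Agent.MG.Two EDMaux Pool.Agent.MG.W.W0

/-- The rational functions regular on the domain of `x` are integral over `k[x]`. -/
theorem t_EDM : Stmt_EDM := by
  intro X k _ π _ _ _ _ _ x hx
  have hpir := pir_stalk π
  have hx0 : x ≠ 0 := hx.ne_zero π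
  have hxi : Transc π x⁻¹ := by
    have h := transc_inv_sub π hx 0
    rwa [map_zero, sub_zero] at h
  have hA := isAffineOpen_dom π hpir hx
  refine ⟨hA, isAffineOpen_dom π hpir hxi, ?_, ?_, ?_⟩
  · rw [eq_top_iff]
    intro y _
    exact mem_dom_or_mem_dom_inv (valuationRing_stalk hpir) x y
  · intro z
    constructor
    · rintro ⟨p, hp, hz⟩
      have hD := isDedekindDomain_sections π hpir hA
      let _ : Algebra Γ(X, dom x) X.functionField :=
        (X.germToFunctionField (dom x)).hom.toAlgebra
      have hfr : IsFractionRing Γ(X, dom x) X.functionField :=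
        functionField_isFractionRing_of_isAffineOpen X (dom x) hA
      have hint : IsIntegral Γ(X, dom x) z := by
        refine ⟨p.map (polyMap π x), hp.map _, ?_⟩
        rw [Polynomial.eval₂_map]
        rw [germ_comp] at hz
        exact hz
      obtain ⟨s, hs⟩ := IsIntegrallyClosed.isIntegral_iff.mp hint
      exact ⟨s, hs⟩
    · rintro ⟨s, rfl⟩
      obtain ⟨p, hp, hz⟩ := integral_polyMap π hpir hx s
      refine ⟨p, hp, ?_⟩
      rw [germ_comp]
      have h1 := congrArg (X.germToFunctionField (dom x)).hom hz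
      rw [Polynomial.hom_eval₂, map_zero] at h1
      exact h1
  · intro hne s
    obtain ⟨N, t, ht⟩ := loc_aux hA (sec x) inf_le_left (basicOpen_sec x hx0) s
    refine ⟨N, t, ?_⟩
    have h1 := congrArg (X.germToFunctionField (dom x ⊓ dom x⁻¹)).hom ht
    rw [map_mul, map_pow] at h1
    have h2 : ∀ r : Γ(X, dom x), (X.germToFunctionField (dom x ⊓ dom x⁻¹)).hom
        (rs X (inf_le_left : dom x ⊓ dom x⁻¹ ≤ dom x) r) = X.germToFunctionField (dom x) r :=
      fun r => germToFunctionField_res _ r
    rw [h2, h2, germ_sec] at h1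
    exact h1

end Pool.Agent.MG.H2
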