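import Pool.Agent.MG.H2.StmtsE
import Pool.Agent.MG.W.W0C
import Pool.Agent.MG.W.W0D
import Pool.Agent.MG.GQ

/-!
# EGD: point data of a curve of genus two
-/

open CategoryTheory CategoryTheory.Limits AlgebraicGeometry TensorProduct TopologicalSpace

namespace Pool.Agent.MG.H2

open Pool.Agent.MG.Two

namespace EGD

open Pool.Agent.MG.W.W0

/-- Three vectors of the plane are linearly dependent. -/
lemma rel3 {k : Type} [Field k] (u v w : Fin 2 → k) :
    ∃ α β γ : k, (α ≠ 0 ∨ β ≠ 0 ∨ γ ≠ 0) ∧ α • u + β • v + γ • w = 0 := by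
  by_cases hd : u 0 * v 1 - u 1 * v 0 = 0
  · by_cases h0 : u 0 = 0 ∧ u 1 = 0
    · refine ⟨1, 0, 0, Or.inl one_ne_zero, ?_⟩
      ext i
      fin_cases i
      · simp [h0.1]
      · simp [h0.2]
    · by_cases h1 : u 0 = 0
      · have h2 : u 1 ≠ 0 := fun h => h0 ⟨h1, h⟩
        have h3 : v 0 = 0 := by
          rw [h1] at hd
          have : u 1 * v 0 = 0 := by linear_combination -hd
          exact (mul_eq_zero.1 this).resolve_left h2
        refine ⟨-v 1, u 1, 0, Or.inr (Or.inl h2), ?_⟩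
        ext i
        fin_cases i
        · simp [h1, h3]
        · simp only [Pi.add_apply, Pi.smul_apply, smul_eq_mul, Pi.zero_apply, Fin.mk_one]
          ring
      · refine ⟨-v 0, u 0, 0, Or.inr (Or.inl h1), ?_⟩
        ext i
        fin_cases i
        · simp only [Pi.add_apply, Pi.smul_apply, smul_eq_mul, Pi.zero_apply, Fin.zero_eta]
          ring
        · simp only [Pi.add_apply, Pi.smul_apply, smul_eq_mul, Pi.zero_apply, Fin.mk_one]
          linear_combination hd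
  · refine ⟨v 0 * w 1 - v 1 * w 0, w 0 * u 1 - w 1 * u 0, u 0 * v 1 - u 1 * v 0,
      Or.inr (Or.inr hd), ?_⟩
    ext i
    fin_cases i
    · simp only [Pi.add_apply, Pi.smul_apply, smul_eq_mul, Pi.zero_apply, Fin.zero_eta]
      ring
    · simp only [Pi.add_apply, Pi.smul_apply, smul_eq_mul, Pi.zero_apply, Fin.mk_one]
      ring

variable {X : Scheme.{0}} {k : Type} [Field k] (π : X ⟶ Sp k) [IsIntegral X]

theorem exists_GD2 [IsAlgClosed k] [IsProper π] [SmoothOfRelativeDimension 1 π]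
    (hg : HasGenus π 2) (σ : Sp k ⟶ X) (hσ : σ ≫ π = 𝟙 _) (q : Sp k) :
    Nonempty (GD (π := π) σ q) := by
  have hpir := pir_stalk π
  obtain ⟨f0, hf0⟩ := exists_transc π
  have hgen : σ q ≠ genericPoint X := section_ne_genericPoint π hf0 σ hσ q
  obtain ⟨U, V', x, y, c, hU, hV', hcov, hpU, hpV', -, -, -, hz, hV'ne⟩ :=
    exists_two_charts π (fun _ : Unit => σ q) (fun _ _ _ => rfl) (fun _ => hgen)
  set z : Γ(X, U) := x - kmap π U (c ()) with hzdef
  have hz' : ∀ r : Γ(X, U), σ q ∉ X.basicOpen r ↔ ∃ s, r = z * s := hz ()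
  have hpU' : σ q ∈ U := hpU ()
  have hpV'' : σ q ∉ V' := hpV' ()
  have hUne : Nonempty U := ⟨⟨σ q, hpU'⟩⟩
  have hW : IsAffineOpen (U ⊓ V') := isAffineOpen_inf π hU hV'
  have hWne : Nonempty (U ⊓ V' : X.Opens) := nonempty_inf hUne hV'ne
  obtain ⟨L, hLs, hLc, hL0⟩ := t_COVI π 2 hg U V' hU hV' hcov
  have hu : IsUnit (rs X (inf_le_left : U ⊓ V' ≤ U) z) :=
    isUnit_sub hpir hU z (σ q) hpU' hgen hz' (U ⊓ V') inf_le_left (fun h => hpV'' h.2)
  obtain ⟨zi, hzi⟩ := hu.exists_right_inv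
  have hZ : X.germToFunctionField (U ⊓ V') zi = (X.germToFunctionField U z)⁻¹ := by
    rw [germ_inv hzi, germ_rs]
  set Z := X.germToFunctionField U z with hZdef
  have hZ0 : Z ≠ 0 := by
    intro h
    rw [h, inv_zero] at hZ
    have h1 := congrArg (X.germToFunctionField (U ⊓ V')) hzi
    rw [map_mul, hZ, mul_zero, map_one] at h1
    exact zero_ne_one h1
  obtain ⟨α, β, γ, hne, hαβ⟩ : ∃ α β γ : k, (α ≠ 0 ∨ β ≠ 0 ∨ γ ≠ 0) ∧
      L (coef π (U ⊓ V') α * zi + coef π (U ⊓ V') β * zi ^ 2 +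
        coef π (U ⊓ V') γ * zi ^ 3) = 0 := by
    obtain ⟨α, β, γ, h1, h2⟩ := rel3 (L zi) (L (zi ^ 2)) (L (zi ^ 3))
    refine ⟨α, β, γ, h1, ?_⟩
    rw [map_add, map_add, hLc, hLc, hLc]
    exact h2
  obtain ⟨a, b, hab⟩ := (hL0 _).1 hαβ
  set f : X.functionField := X.germToFunctionField V' b with hf
  set A := X.germToFunctionField U a with hA
  have hfe : f = kfun π α * Z⁻¹ + kfun π β * (Z⁻¹) ^ 2 + kfun π γ * (Z⁻¹) ^ 3 - A := by
    have h1 := congrArg (X.germToFunctionField (U ⊓ V')) hab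
    rw [map_add, map_add, map_mul, map_mul, map_mul, map_pow, map_pow, hZ, germ_coef, germ_coef,
      germ_coef, map_add, germ_rs, germ_rs] at h1
    rw [hf, h1]
    ring
  have hdom1 : ∀ p, p ≠ σ q → p ∈ dom f := by
    intro p hp
    have hpt : p ∈ U ⊔ V' := by rw [hcov]; trivial
    rcases hpt with hpU1 | hpV1
    · have hpb := mem_basicOpen_of_ne hpir hU z (σ q) hpU' hgen hz' p hpU1 hp
      have hBne : Nonempty (X.basicOpen z) := ⟨⟨p, hpb⟩⟩
      have hub : IsUnit (rs X (X.basicOpen_le z) z) := X.toRingedSpace.isUnit_res_basicOpen z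
      obtain ⟨ζ, hζ⟩ := hub.exists_right_inv
      have hζ' : X.germToFunctionField (X.basicOpen z) ζ = Z⁻¹ := by
        rw [germ_inv hζ, germ_rs]
      refine (mem_dom_iff' f p).mpr ⟨X.basicOpen z, hpb, hBne, coef π _ α * ζ + coef π _ β * ζ ^ 2 +
        coef π _ γ * ζ ^ 3 - rs X (X.basicOpen_le z) a, ?_⟩
      rw [map_sub, map_add, map_add, map_mul, map_mul, map_mul, map_pow, map_pow, hζ', germ_coef,
        germ_coef, germ_coef, germ_rs, hfe]
    · exact (mem_dom_iff' f p).mpr ⟨V', hpV1, hV'ne, b, rfl⟩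
  have hdom2 : σ q ∉ dom f := by
    intro h
    obtain ⟨N, hN, hNne, s, hs⟩ := (mem_dom_iff' f (σ q)).mp h
    have hNU : Nonempty (N ⊓ U : X.Opens) := nonempty_inf hNne hUne
    have hle : ⊤ ≤ σ ⁻¹ᵁ (N ⊓ U) := top_le_of_mem σ _ q ⟨hN, hpU'⟩
    have hleU : ⊤ ≤ σ ⁻¹ᵁ U := top_le_of_mem σ _ q hpU'
    set z' := rs X (inf_le_right : N ⊓ U ≤ U) z with hz'def
    set s' := rs X (inf_le_left : N ⊓ U ≤ N) s with hs'def
    set a' := rs X (inf_le_right : N ⊓ U ≤ U) a with ha'def
    have hez : evs σ _ hle z' = 0 := by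
      rw [evs_rs σ inf_le_right hle hleU, evs_eq_zero_iff _ _ _ _ q]
      exact (hz' z).2 ⟨1, (mul_one _).symm⟩
    have gz : X.germToFunctionField (N ⊓ U) z' = Z := germ_rs _ _
    have gs : X.germToFunctionField (N ⊓ U) s' = f := by rw [hs'def, germ_rs, hs]
    have ga : X.germToFunctionField (N ⊓ U) a' = A := germ_rs _ _
    have e0 : z' ^ 3 * s' = coef π _ α * z' ^ 2 + coef π _ β * z' + coef π _ γ - z' ^ 3 * a' := by
      apply X.germToFunctionField_injective (N ⊓ U)
      rw [map_sub, map_add, map_add, map_mul, map_mul, map_mul, map_mul, map_pow, map_pow, gz, gs,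
        ga, germ_coef, germ_coef, germ_coef, hfe]
      field_simp
    have hγ : γ = 0 := by
      have h1 := congrArg (evs σ _ hle) e0
      rw [map_sub, map_add, map_add, map_mul, map_mul, map_mul, map_mul, map_pow, map_pow, hez,
        evs_coef π σ hσ, evs_coef π σ hσ, evs_coef π σ hσ] at h1
      simpa using h1.symm
    have e1 : z' ^ 2 * s' = coef π _ α * z' + coef π _ β - z' ^ 2 * a' := by
      apply X.germToFunctionField_injective (N ⊓ U)
      rw [map_sub, map_add, map_mul, map_mul, map_mul, map_pow, gz, gs, ga, germ_coef, germ_coef,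
        hfe, hγ, map_zero]
      field_simp
      ring
    have hβ : β = 0 := by
      have h1 := congrArg (evs σ _ hle) e1
      rw [map_sub, map_add, map_mul, map_mul, map_mul, map_pow, hez, evs_coef π σ hσ,
        evs_coef π σ hσ] at h1
      simpa using h1.symm
    have e2 : z' * s' = coef π _ α - z' * a' := by
      apply X.germToFunctionField_injective (N ⊓ U)
      rw [map_sub, map_mul, map_mul, gz, gs, ga, germ_coef, hfe, hβ, hγ, map_zero]
      field_simp
      ring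
    have hα : α = 0 := by
      have h1 := congrArg (evs σ _ hle) e2
      rw [map_sub, map_mul, map_mul, hez, evs_coef π σ hσ] at h1
      simpa using h1.symm
    rcases hne with h | h | h
    · exact h hα
    · exact h hβ
    · exact h hγ
  have htr : Transc π f := by
    apply transc_of
    intro c hc
    apply hdom2
    have : Nonempty (⊤ : X.Opens) := ⟨⟨σ q, trivial⟩⟩
    exact (mem_dom_iff' f (σ q)).mpr ⟨⊤, trivial, this, coef π ⊤ c, by rw [germ_coef, hc]⟩
  exact ⟨{
    V := dom f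
    U := U
    aV := isAffineOpen_dom π hpir htr
    aU := hU
    mV := fun x => ⟨fun h hx => hdom2 (hx ▸ h), hdom1 x⟩
    mU := hpU'
    z := z
    gz := hz' }⟩

end EGD

open EGD Pool.Agent.MG.W.W0 in
theorem t_EGD : Stmt_EGD := by
  intro X k _ π _ _ _ _ _ hg
  have hj : JacobsonSpace X := LocallyOfFiniteType.jacobsonSpace π
  obtain ⟨x, -, hx⟩ := nonempty_inter_closedPoints (Z := (Set.univ : Set X))
    ⟨genericPoint X, trivial⟩ isOpen_univ.isLocallyClosed
  let σ : Sp k ⟶ X := pointOfClosedPoint π x hx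
  have hσ : σ ≫ π = 𝟙 _ := pointOfClosedPoint_comp π x hx
  obtain ⟨q⟩ : Nonempty (Sp k) := ⟨(IsLocalRing.closedPoint k : PrimeSpectrum k)⟩
  obtain ⟨G⟩ := exists_GD2 π hg σ hσ q
  have hpir := pir_stalk π
  obtain ⟨f0, hf0⟩ := exists_transc π
  have hgen : σ q ≠ genericPoint X := section_ne_genericPoint π hf0 σ hσ q
  have hV : Nonempty G.V := ⟨⟨genericPoint X, (G.mV _).2 (Ne.symm hgen)⟩⟩
  have hU : Nonempty G.U := ⟨⟨σ q, G.mU⟩⟩
  have hW : Nonempty (G.V ⊓ G.U : X.Opens) := nonempty_inf hV hU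
  have hpV : σ q ∉ G.V := fun h => (G.mV _).1 h rfl
  have hu : IsUnit (rs X (inf_le_right : G.V ⊓ G.U ≤ G.U) G.z) :=
    isUnit_sub hpir G.aU G.z (σ q) G.mU hgen G.gz (G.V ⊓ G.U) inf_le_right (fun h => hpV h.1)
  obtain ⟨zi, hzi⟩ := hu.exists_right_inv
  obtain ⟨L, hLs, hLc, hL0⟩ := t_COVI π 2 hg G.V G.U G.aV G.aU G.cover
  have hWb : G.V ⊓ G.U = X.basicOpen G.z := by
    apply le_antisymm
    · intro x hx
      exact mem_basicOpen_of_ne hpir G.aU G.z (σ q) G.mU hgen G.gz x hx.2 ((G.mV x).1 hx.1)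
    · intro x hx
      refine ⟨(G.mV x).2 ?_, X.basicOpen_le _ hx⟩
      rintro rfl
      exact (G.gz G.z).2 ⟨1, (mul_one _).symm⟩ hx
  exact ⟨G.V, G.U, hV, G.aV, {
    c1 := coef π G.V
    c2 := coef π G.U
    c12 := coef π (G.V ⊓ G.U)
    j1 := rs X inf_le_left
    j2 := rs X inf_le_right
    jc1 := coef_rs π _
    jc2 := coef_rs π _
    inj1 := map_injective_of_isIntegral X (homOfLE (inf_le_left : G.V ⊓ G.U ≤ G.V))
    inj2 := map_injective_of_isIntegral X (homOfLE (inf_le_right : G.V ⊓ G.U ≤ G.U))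
    z := G.z
    zi := zi
    hz := hzi
    ev := evs σ G.U G.leU
    evc := evs_coef π σ hσ G.U G.leU
    evz := by
      rw [evs_eq_zero_iff _ _ _ _ q]
      exact (G.gz G.z).2 ⟨1, (mul_one _).symm⟩
    evk := fun r hr => by
      rw [evs_eq_zero_iff _ _ _ _ q] at hr
      exact (G.gz r).1 hr
    loc := loc_aux G.aU G.z inf_le_right hWb
    h0 := fun a b hab => const_of_agree π G.cover a b hab
    L := fun r => L r
    Ladd := fun r s => map_add L r s
    Lc := fun c r => hLc c r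
    L0 := fun r => hL0 r
    Ls := hLs }, rfl⟩

end Pool.Agent.MG.H2
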