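import Pool.Agent.MG.H2.StmtsE

/-!
# EIC: the integral closure of `k[x]` in a quadratic extension of `k(x)`
-/

namespace Pool.Agent.MG.H2

namespace EICaux

open Polynomial

section

variable {A F K : Type} [CommRing A] [IsDomain A] [IsIntegrallyClosed A]
  [DecompositionMonoid A] [Field F] [Field K] [Algebra A F] [IsFractionRing A F]
  [Algebra A K] [Algebra F K] [IsScalarTower A F K]

theorem coeff1 {F : Type} [Field F] (a b : F) :
    (X ^ 2 + (C a * X + C b) : F[X]).coeff 1 = a := by
  rw [coeff_add, coeff_add, coeff_X_pow, coeff_C_mul, coeff_X_one, coeff_C]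
  simp

theorem coeff0 {F : Type} [Field F] (a b : F) :
    (X ^ 2 + (C a * X + C b) : F[X]).coeff 0 = b := by
  rw [coeff_add, coeff_add, coeff_X_pow, coeff_C_mul, coeff_X_zero, coeff_C]
  simp

/-- An element of the fraction field which is integral in `K` is in `A`. -/
theorem mem_of_integral (z : F) (hi : IsIntegral A (algebraMap F K z)) :
    ∃ p : A, z = algebraMap A F p := by
  have h1 : IsIntegral A z :=
    (isIntegral_algebraMap_iff (algebraMap F K).injective).1 hi
  obtain ⟨p, hp⟩ := IsIntegrallyClosed.isIntegral_iff.1 h1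
  exact ⟨p, hp.symm⟩

theorem core (i2 : A) (h2 : 2 * i2 = 1) (f : A) (hf : Squarefree f) (y : K)
    (hy : y ^ 2 = algebraMap A K f) (P Q : F) (z : K)
    (hz : z = algebraMap F K P + algebraMap F K Q * y) (hi : IsIntegral A z) :
    ∃ p q : A, z = algebraMap A K p + algebraMap A K q * y := by
  have inF : (∃ w : F, z = algebraMap F K w) →
      ∃ p q : A, z = algebraMap A K p + algebraMap A K q * y := by
    rintro ⟨w, hw⟩
    rw [hw] at hi
    obtain ⟨p, hp⟩ := mem_of_integral w hi
    refine ⟨p, 0, ?_⟩
    rw [hw, hp, ← IsScalarTower.algebraMap_apply, map_zero, zero_mul, add_zero]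
  by_cases hzF : ∃ w : F, z = algebraMap F K w
  · exact inF hzF
  have hf0 : f ≠ 0 := hf.ne_zero
  have fF : algebraMap A F f ≠ 0 := by
    intro h
    exact hf0 ((IsFractionRing.injective A F) (by rw [h, map_zero]))
  -- the minimal polynomial
  set m : F[X] := X ^ 2 + (C (-(2 * P)) * X + C (P ^ 2 - Q ^ 2 * algebraMap A F f)) with hm
  have mdeg : (C (-(2 * P)) * X + C (P ^ 2 - Q ^ 2 * algebraMap A F f)).degree <
      ((2 : ℕ) : WithBot ℕ) := by
    refine lt_of_le_of_lt degree_linear_le ?_
    norm_num
  have mmonic : m.Monic := monic_X_pow_add (n := 2) mdeg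
  have mnat : m.natDegree = 2 := by
    rw [hm]
    exact natDegree_eq_of_degree_eq_some (by
      rw [degree_add_eq_left_of_degree_lt]
      · exact degree_X_pow 2
      · rw [degree_X_pow]
        exact mdeg)
  have mz : aeval z m = 0 := by
    have e1 : algebraMap F K (algebraMap A F f) = y ^ 2 := by
      rw [← IsScalarTower.algebraMap_apply, hy]
    rw [hm]
    simp only [map_add, map_mul, map_pow, aeval_X, aeval_C, map_neg, map_sub, e1, map_ofNat]
    rw [hz]
    ring
  have zF : IsIntegral F z := hi.tower_top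
  have hdvd : minpoly F z ∣ m := minpoly.dvd F z mz
  have hdeg : 2 ≤ (minpoly F z).natDegree := by
    rw [minpoly.two_le_natDegree_iff zF]
    rintro ⟨w, hw⟩
    exact hzF ⟨w, hw.symm⟩
  have heq : m = minpoly F z := by
    refine eq_of_monic_of_dvd_of_natDegree_le (minpoly.monic zF) mmonic hdvd ?_
    rw [mnat]
    exact hdeg
  have hmap : minpoly F z = (minpoly A z).map (algebraMap A F) :=
    minpoly.isIntegrallyClosed_eq_field_fractions' F hi
  have c1 : -(2 * P) = algebraMap A F ((minpoly A z).coeff 1) := by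
    rw [← coeff_map, ← hmap, ← heq, hm, coeff1]
  have c0 : P ^ 2 - Q ^ 2 * algebraMap A F f = algebraMap A F ((minpoly A z).coeff 0) := by
    rw [← coeff_map, ← hmap, ← heq, hm, coeff0]
  have h2' : (2 : F) * algebraMap A F i2 = 1 := by
    have := congrArg (algebraMap A F) h2
    rwa [map_mul, map_ofNat, map_one] at this
  obtain ⟨P0, hP0⟩ : ∃ P0 : A, P = algebraMap A F P0 := by
    refine ⟨-(i2 * (minpoly A z).coeff 1), ?_⟩
    rw [map_neg, map_mul, ← c1]
    linear_combination (-P) * h2'
  obtain ⟨g, hg⟩ : ∃ g : A, Q ^ 2 * algebraMap A F f = algebraMap A F g := by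
    refine ⟨P0 ^ 2 - (minpoly A z).coeff 0, ?_⟩
    rw [map_sub, map_pow, ← hP0, ← c0]
    ring
  obtain ⟨h, hh⟩ : ∃ h : A, Q * algebraMap A F f = algebraMap A F h := by
    have hint : IsIntegral A ((Q * algebraMap A F f) ^ 2) := by
      have e : (Q * algebraMap A F f) ^ 2 = algebraMap A F (g * f) := by
        rw [map_mul, ← hg]
        ring
      rw [e]
      exact isIntegral_algebraMap
    have hint2 : IsIntegral A (Q * algebraMap A F f) := hint.of_pow (by norm_num)
    obtain ⟨p, hp⟩ := IsIntegrallyClosed.isIntegral_iff.1 hint2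
    exact ⟨p, hp.symm⟩
  have hsq : h ^ 2 = g * f := by
    apply IsFractionRing.injective A F
    rw [map_pow, map_mul, ← hh, ← hg]
    ring
  have hdiv : f ∣ h := by
    rw [← hf.dvd_pow_iff_dvd (n := 2) (by norm_num), hsq]
    exact Dvd.intro_left g rfl
  obtain ⟨q, rfl⟩ := hdiv
  have hQ : Q = algebraMap A F q := by
    have : Q * algebraMap A F f = algebraMap A F q * algebraMap A F f := by
      rw [hh, map_mul, mul_comm]
    exact mul_right_cancel₀ fF this
  refine ⟨P0, q, ?_⟩
  rw [hz, hP0, hQ, ← IsScalarTower.algebraMap_apply, ← IsScalarTower.algebraMap_apply]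

end

/-- The implication from left to right. -/
theorem forward {k K : Type} [Field k] [CharZero k] [Field K] (c : k →+* K) (x y : K)
    (f : Polynomial k) (h : Quad c x y f) (hf : Squarefree f) (z : K)
    (hz : (Polynomial.eval₂RingHom c x).IsIntegralElem z) :
    ∃ p q : Polynomial k, z = p.eval₂ c x + q.eval₂ c x * y := by
  letI : Algebra k[X] K := (Polynomial.eval₂RingHom c x).toAlgebra
  have ea : ∀ p : k[X], algebraMap k[X] K p = p.eval₂ c x := fun p => rfl
  haveI : FaithfulSMul k[X] K := (faithfulSMul_iff_algebraMap_injective _ _).2 h.tr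
  letI : Algebra (FractionRing k[X]) K := FractionRing.liftAlgebra k[X] K
  haveI : IsScalarTower k[X] (FractionRing k[X]) K := FractionRing.isScalarTower_liftAlgebra k[X] K
  obtain ⟨p, q, d, hd, hpq⟩ := h.gen z
  rw [← ea, ← ea, ← ea] at hpq
  have hdF : algebraMap k[X] (FractionRing k[X]) d ≠ 0 := by
    intro h0
    exact hd ((IsFractionRing.injective k[X] (FractionRing k[X])) (by rw [h0, map_zero]))
  have hdK : algebraMap k[X] K d ≠ 0 := by
    rw [IsScalarTower.algebraMap_apply k[X] (FractionRing k[X]) K]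
    exact (_root_.map_ne_zero _).2 hdF
  obtain ⟨a, b, hab⟩ := core (A := k[X]) (F := FractionRing k[X]) (K := K) (C (2⁻¹ : k))
    (by
      have h2 : (2 : k) ≠ 0 := two_ne_zero
      rw [← C_ofNat, ← C_mul, mul_inv_cancel₀ h2, C_1])
    f hf y (by rw [ea]; exact h.eq)
    (algebraMap k[X] (FractionRing k[X]) p / algebraMap k[X] (FractionRing k[X]) d)
    (algebraMap k[X] (FractionRing k[X]) q / algebraMap k[X] (FractionRing k[X]) d) z
    (by
      rw [map_div₀, map_div₀, ← IsScalarTower.algebraMap_apply, ← IsScalarTower.algebraMap_apply,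
        ← IsScalarTower.algebraMap_apply]
      field_simp
      linear_combination hpq)
    hz
  exact ⟨a, b, hab⟩

/-- The implication from right to left. -/
theorem backward {k K : Type} [Field k] [Field K] (c : k →+* K) (x y : K)
    (f : Polynomial k) (h : Quad c x y f) (p q : Polynomial k) :
    (Polynomial.eval₂RingHom c x).IsIntegralElem (p.eval₂ c x + q.eval₂ c x * y) := by
  have hy : (Polynomial.eval₂RingHom c x).IsIntegralElem y := by
    refine ⟨X ^ 2 - C f, monic_X_pow_sub_C f (by norm_num), ?_⟩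
    rw [eval₂_sub, eval₂_pow, eval₂_X, eval₂_C, h.eq]
    simp
  have hp : ∀ r : k[X], (Polynomial.eval₂RingHom c x).IsIntegralElem (r.eval₂ c x) := fun r =>
    RingHom.isIntegralElem_map _
  exact (hp p).add _ ((hp q).mul _ hy)

end EICaux

/-- EIC: the integral closure of `k[x]`. -/
theorem t_EIC : Stmt_EIC := by
  intro k K _ _ _ c x y f h hf z
  constructor
  · exact EICaux.forward c x y f h hf z
  · rintro ⟨p, q, rfl⟩
    exact EICaux.backward c x y f h p q

end Pool.Agent.MG.H2
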