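import Pool.Agent.MG.H2.StmtsE

/-!
# EIN, EUN: the chart at infinity and the uniqueness of the representation
-/

open Polynomial

namespace Pool.Agent.MG.H2

namespace EIN70

variable {k K : Type} [Field k] [Field K]

/-- the linear forms are pairwise coprime -/
theorem coprime (a b a' b' : k) (h : a * b' - a' * b ≠ 0) :
    IsCoprime (C a * X + C b) (C a' * X + C b') := by
  refine ⟨C (-a' * (a * b' - a' * b)⁻¹), C (a * (a * b' - a' * b)⁻¹), ?_⟩
  have e : (C (-a' * (a * b' - a' * b)⁻¹) * (C a * X + C b) +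
      C (a * (a * b' - a' * b)⁻¹) * (C a' * X + C b') : k[X]) =
      C ((a * b' - a' * b) * (a * b' - a' * b)⁻¹) := by
    simp only [map_mul, map_neg, map_sub]
    ring
  rw [e, mul_inv_cancel₀ h, map_one]

theorem form_sqf (a b : k) (h : a ≠ 0 ∨ b ≠ 0) : Squarefree (C a * X + C b) := by
  by_cases ha : a = 0
  · have hb : b ≠ 0 := by
      rcases h with h | h
      · exact absurd ha h
      · exact h
    rw [ha, map_zero, zero_mul, zero_add]
    exact (isUnit_C.2 (isUnit_iff_ne_zero.2 hb)).squarefree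
  · have hd : (C a * X + C b).degree = 1 := degree_linear ha
    exact (irreducible_of_degree_eq_one hd).squarefree

theorem nz (m : ℕ) (a b : Fin (2 * m) → k) (h : ∀ i j, i ≠ j → a i * b j - a j * b i ≠ 0)
    (i : Fin (2 * m)) : a i ≠ 0 ∨ b i ≠ 0 := by
  by_contra hc
  push Not at hc
  obtain ⟨ha, hb⟩ := hc
  have hi := i.isLt
  have : ∃ j : Fin (2 * m), i ≠ j := by
    by_cases h0 : i.val = 0
    · exact ⟨⟨1, by omega⟩, fun e => by
        have := congrArg Fin.val e
        simp at this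
        omega⟩
    · exact ⟨⟨0, by omega⟩, fun e => h0 (by
        have := congrArg Fin.val e
        simpa using this)⟩
  obtain ⟨j, hj⟩ := this
  apply h i j hj
  rw [ha, hb]
  ring

theorem prod_sqf (m : ℕ) (a b : Fin (2 * m) → k)
    (h : ∀ i j, i ≠ j → a i * b j - a j * b i ≠ 0) :
    Squarefree (∏ i, (C (a i) * X + C (b i))) := by
  refine Finset.squarefree_prod_of_pairwise_isCoprime ?_ ?_
  · intro i _ j _ hij
    refine (coprime (a i) (b i) (a j) (b j) ?_).isRelPrime
    intro e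
    apply h i j hij
    linear_combination e
  · intro i _
    exact form_sqf (a i) (b i) (nz m a b h i)

/-- the value at the inverse of the reflected polynomial -/
theorem reflect_val (c : k →+* K) (x : K) (hx : x ≠ 0) (N : ℕ) (p : k[X])
    (hp : p.natDegree ≤ N) :
    (reflect N p).eval₂ c x⁻¹ = x⁻¹ ^ N * p.eval₂ c x := by
  let _ : Invertible x := invertibleOfNonzero hx
  have h := eval₂_reflect_mul_pow c x N p hp
  rw [invOf_eq_inv] at h
  rw [← h]
  have : x⁻¹ ^ N * x ^ N = 1 := by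
    rw [← mul_pow, inv_mul_cancel₀ hx, one_pow]
  linear_combination (-(eval₂ c x⁻¹ (reflect N p))) * this

theorem x_ne {c : k →+* K} {x y : K} {f : k[X]} (h : Quad c x y f) : x ≠ 0 := by
  intro hx
  have h1 : eval₂RingHom c x X = eval₂RingHom c x 0 := by
    rw [map_zero, coe_eval₂RingHom, eval₂_X, hx]
  exact X_ne_zero (h.tr h1)

theorem reflect_ne (N : ℕ) (p : k[X]) (hp : p ≠ 0) : reflect N p ≠ 0 := by
  intro h
  apply hp
  have := congrArg (reflect N) h
  rwa [reflect_reflect, reflect_zero] at this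

theorem prod_val (c : k →+* K) (x : K) (m : ℕ) (a b : Fin (2 * m) → k) :
    (∏ i, (C (a i) * X + C (b i))).eval₂ c x = ∏ i, (c (a i) * x + c (b i)) := by
  rw [eval₂_finsetProd]
  refine Finset.prod_congr rfl fun i _ => ?_
  simp [eval₂_add, eval₂_mul, eval₂_C, eval₂_X]

theorem quad_inv {c : k →+* K} {x y : K} {m : ℕ} {a b : Fin (2 * m) → k}
    (h : Quad c x y (∏ i, (C (a i) * X + C (b i)))) :
    Quad c x⁻¹ (y * x⁻¹ ^ m) (∏ i, (C (b i) * X + C (a i))) := by
  have hx := x_ne h
  refine ⟨?_, ?_, ?_⟩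
  · have h1 := h.eq
    rw [prod_val] at h1 ⊢
    have h2 : (y * x⁻¹ ^ m) ^ 2 = y ^ 2 * ∏ _i : Fin (2 * m), x⁻¹ := by
      rw [Finset.prod_const, Finset.card_univ, Fintype.card_fin]
      ring
    rw [h2, h1, ← Finset.prod_mul_distrib]
    refine Finset.prod_congr rfl fun i _ => ?_
    have : x * x⁻¹ = 1 := mul_inv_cancel₀ hx
    linear_combination (c (a i)) * this
  · rw [injective_iff_map_eq_zero]
    intro p hp
    rw [coe_eval₂RingHom] at hp
    by_contra hne
    have h1 := reflect_val c x⁻¹ (inv_ne_zero hx) p.natDegree p le_rfl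
    rw [hp, mul_zero, inv_inv] at h1
    have h2 : eval₂RingHom c x (reflect p.natDegree p) = 0 := h1
    exact reflect_ne _ _ hne ((injective_iff_map_eq_zero _).1 h.tr _ h2)
  · intro z
    obtain ⟨p, q, d, hd, e⟩ := h.gen z
    let N := p.natDegree + q.natDegree + d.natDegree
    refine ⟨reflect (N + m) p, reflect N q, reflect (N + m) d, reflect_ne _ _ hd, ?_⟩
    rw [reflect_val c x hx (N + m) p (by omega), reflect_val c x hx N q (by omega),
      reflect_val c x hx (N + m) d (by omega)]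
    linear_combination (x⁻¹ ^ (N + m)) * e

theorem prod_not_unit (m : ℕ) (hm : 1 ≤ m) (a b : Fin (2 * m) → k)
    (h : ∀ i j, i ≠ j → a i * b j - a j * b i ≠ 0) :
    ¬ IsUnit (∏ i, (C (a i) * X + C (b i))) := by
  intro hu
  have h1 : ∀ i, IsUnit (C (a i) * X + C (b i)) := fun i =>
    isUnit_of_dvd_unit
      (Finset.dvd_prod_of_mem (fun i => C (a i) * X + C (b i)) (Finset.mem_univ i)) hu
  have h2 : ∀ i, a i = 0 := by
    intro i
    by_contra ha
    have hd : (C (a i) * X + C (b i)).degree = 1 := degree_linear ha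
    exact (irreducible_of_degree_eq_one hd).not_isUnit (h1 i)
  apply h ⟨0, by omega⟩ ⟨1, by omega⟩ (by
    intro e
    have := congrArg Fin.val e
    simp at this)
  rw [h2, h2]
  ring

theorem uniq {c : k →+* K} {x y : K} {m : ℕ} {a b : Fin (2 * m) → k} (hm : 1 ≤ m)
    (hab : ∀ i j, i ≠ j → a i * b j - a j * b i ≠ 0)
    (h : Quad c x y (∏ i, (C (a i) * X + C (b i)))) (p q : k[X])
    (e : p.eval₂ c x + q.eval₂ c x * y = 0) : p = 0 ∧ q = 0 := by
  have h1 : p ^ 2 = q ^ 2 * ∏ i, (C (a i) * X + C (b i)) := by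
    apply h.tr
    rw [map_pow, map_mul, map_pow]
    change (p.eval₂ c x) ^ 2 = (q.eval₂ c x) ^ 2 * (eval₂ c x (∏ i, (C (a i) * X + C (b i))))
    rw [← h.eq]
    linear_combination (p.eval₂ c x - q.eval₂ c x * y) * e
  have hq : q = 0 := by
    by_contra hq
    have h2 : q ∣ p := (IsIntegrallyClosed.pow_dvd_pow_iff (n := 2) (by norm_num)).1 ⟨_, h1⟩
    obtain ⟨r, rfl⟩ := h2
    have h3 : r * r = ∏ i, (C (a i) * X + C (b i)) := by
      have : q ^ 2 ≠ 0 := pow_ne_zero _ hq
      apply mul_left_cancel₀ this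
      linear_combination h1
    have h4 : IsUnit r := prod_sqf m a b hab r ⟨1, by rw [mul_one, h3]⟩
    exact prod_not_unit m hm a b hab (h3 ▸ h4.mul h4)
  refine ⟨?_, hq⟩
  rw [hq] at h1
  have h2 : p ^ 2 = 0 := by
    rw [h1]
    ring
  exact pow_eq_zero_iff (by norm_num) |>.1 h2

end EIN70

theorem t_EIN : Stmt_EIN := by
  intro k K _ _ c x y m a b hab h
  refine ⟨EIN70.prod_sqf m a b hab, EIN70.prod_sqf m b a ?_, EIN70.quad_inv h⟩
  intro i j hij e
  apply hab i j hij
  linear_combination -e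

theorem t_EUN : Stmt_EUN := by
  intro k K _ _ _ c x y m a b hm hab h p q e
  exact EIN70.uniq hm hab h p q e

end Pool.Agent.MG.H2
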