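import Pool.Agent.MG.H2.StmtsE
import Pool.Agent.MG.GLUM
import Pool.Agent.MG.NOD
import Pool.Agent.MG.W.W0E

/-!
# Smooth curves of genus two: the curve is glued from its charts
-/

open CategoryTheory CategoryTheory.Limits AlgebraicGeometry TensorProduct TopologicalSpace

namespace Pool.Agent.MG.H2

namespace EIS

/-! ## The rings of the charts -/

section alg

variable {k : Type} [Field k]

/-- The polynomial with coefficients `f`. -/
theorem pol_eval {R : Type} [CommRing R] (φ : k →+* R) (x : R) (f : Fin 7 → k) :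
    (pol (fun i => Polynomial.C (f i)) Polynomial.X : Polynomial k).eval₂ φ x =
      pol (fun i => φ (f i)) x := by
  have h := pol_map (Polynomial.eval₂RingHom φ x) (fun i => Polynomial.C (f i)) Polynomial.X
  simp only [Polynomial.coe_eval₂RingHom, Polynomial.eval₂_C, Polynomial.eval₂_X] at h
  exact h

/-- Every element of the ring of a chart is `p(x) + q(x) y`. -/
theorem form (f : Fin 7 → k) (v : A1 k f) :
    ∃ p q : Polynomial k, v = p.eval₂ (algebraMap k (A1 k f)) (x1 k f) +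
      q.eval₂ (algebraMap k (A1 k f)) (x1 k f) * y1 k f := by
  obtain ⟨P, rfl⟩ := Ideal.Quotient.mk_surjective v
  induction P using MvPolynomial.induction_on with
  | C c =>
    refine ⟨Polynomial.C c, 0, ?_⟩
    rw [Polynomial.eval₂_C, Polynomial.eval₂_zero, zero_mul, add_zero]
    rfl
  | add P Q hP hQ =>
    obtain ⟨p, q, h⟩ := hP
    obtain ⟨p', q', h'⟩ := hQ
    refine ⟨p + p', q + q', ?_⟩
    rw [map_add, h, h', Polynomial.eval₂_add, Polynomial.eval₂_add]
    ring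
  | mul_X P i hP =>
    obtain ⟨p, q, h⟩ := hP
    rw [map_mul, h]
    fin_cases i
    · refine ⟨p * Polynomial.X, q * Polynomial.X, ?_⟩
      rw [Polynomial.eval₂_mul, Polynomial.eval₂_mul, Polynomial.eval₂_X]
      change _ * x1 k f = _
      ring
    · refine ⟨q * pol (fun i => Polynomial.C (f i)) Polynomial.X, p, ?_⟩
      rw [Polynomial.eval₂_mul, pol_eval, ← rel1]
      change _ * y1 k f = _
      ring

/-- A homomorphism from the ring of a chart is bijective if the images of `x`, `y` satisfy no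
other relations. -/
theorem lift_bij {R K : Type} [CommRing R] [Field K] (φ : k →+* R) (g : R →+* K)
    (hg : Function.Injective g) {f : Fin 7 → k} (x y : R)
    (h : y ^ 2 = pol (fun i => φ (f i)) x)
    (hind : ∀ p q : Polynomial k, p.eval₂ (g.comp φ) (g x) + q.eval₂ (g.comp φ) (g x) * g y = 0 →
      p = 0 ∧ q = 0)
    (hsur : ∀ r : R, ∃ p q : Polynomial k,
      g r = p.eval₂ (g.comp φ) (g x) + q.eval₂ (g.comp φ) (g x) * g y) :
    Function.Bijective (lift1 (f := f) φ x y h) := by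
  have key : ∀ p q : Polynomial k, g (lift1 (f := f) φ x y h
      (p.eval₂ (algebraMap k (A1 k f)) (x1 k f) +
        q.eval₂ (algebraMap k (A1 k f)) (x1 k f) * y1 k f)) =
      p.eval₂ (g.comp φ) (g x) + q.eval₂ (g.comp φ) (g x) * g y := by
    intro p q
    have hc : (lift1 (f := f) φ x y h).comp (algebraMap k (A1 k f)) = φ :=
      RingHom.ext fun c => lift1_b φ x y h c
    rw [map_add, map_mul, Polynomial.hom_eval₂, Polynomial.hom_eval₂, lift1_x, lift1_y, hc,
      map_add, map_mul, Polynomial.hom_eval₂, Polynomial.hom_eval₂]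
  constructor
  · rw [injective_iff_map_eq_zero]
    intro v hv
    obtain ⟨p, q, rfl⟩ := form f v
    have h1 := key p q
    rw [hv, map_zero] at h1
    obtain ⟨rfl, rfl⟩ := hind p q h1.symm
    rw [Polynomial.eval₂_zero, zero_mul, add_zero]
  · intro r
    obtain ⟨p, q, hpq⟩ := hsur r
    refine ⟨_, hg ((key p q).trans hpq.symm)⟩

/-- There are no relations between `1/x` and `y/x³`. -/
theorem ind_inv {K : Type} [Field K] (c : k →+* K) (x y : K) (hx : x ≠ 0)
    (hind : ∀ p q : Polynomial k, p.eval₂ c x + q.eval₂ c x * y = 0 → p = 0 ∧ q = 0)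
    (p q : Polynomial k) (h : p.eval₂ c x⁻¹ + q.eval₂ c x⁻¹ * (y * x⁻¹ ^ 3) = 0) :
    p = 0 ∧ q = 0 := by
  have hx' : x⁻¹ ≠ 0 := inv_ne_zero hx
  have key : ∀ (N : ℕ) (r : Polynomial k), r.natDegree ≤ N →
      (Polynomial.reflect N r).eval₂ c x * x⁻¹ ^ N = r.eval₂ c x⁻¹ := by
    intro N r hr
    let _ : Invertible x⁻¹ := invertibleOfNonzero hx'
    have h1 := Polynomial.eval₂_reflect_mul_pow c x⁻¹ N r hr
    rw [invOf_eq_inv, inv_inv] at h1
    exact h1
  obtain ⟨M, hM1, hM2⟩ : ∃ M, p.natDegree ≤ M + 3 ∧ q.natDegree ≤ M :=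
    ⟨p.natDegree + q.natDegree, by omega, by omega⟩
  have h2 : ((Polynomial.reflect (M + 3) p).eval₂ c x +
      (Polynomial.reflect M q).eval₂ c x * y) * x⁻¹ ^ (M + 3) = 0 := by
    rw [← h, ← key (M + 3) p hM1, ← key M q hM2]
    ring
  obtain ⟨h3, h4⟩ := hind _ _ ((mul_eq_zero.1 h2).resolve_right (pow_ne_zero _ hx'))
  exact ⟨Polynomial.reflect_eq_zero_iff.1 h3, Polynomial.reflect_eq_zero_iff.1 h4⟩

end alg

open Pool.Agent.MG.Two Pool.Agent.MG.GLU

/-! ## Two charts -/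

/-- A scheme covered by the two charts of `y² = f(x)`. -/
structure CD {X : Scheme.{0}} {k : Type} [Field k] (π : X ⟶ Sp k) (f : Fin 7 → k) where
  U : X.Opens
  V : X.Opens
  aU : IsAffineOpen U
  aV : IsAffineOpen V
  aW : IsAffineOpen (U ⊓ V)
  cov : U ⊔ V = ⊤
  e1 : A1 k f →+* Γ(X, U)
  b1 : Function.Bijective e1
  e2 : A2 k f →+* Γ(X, V)
  b2 : Function.Bijective e2
  e12 : A12 k f →+* Γ(X, U ⊓ V)
  b12 : Function.Bijective e12
  h1 : ∀ v, e12 (g1 k f v) = rs X inf_le_left (e1 v)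
  h2 : ∀ v, e12 (g2 k f v) = rs X inf_le_right (e2 v)
  c1 : ∀ c, e1 (algebraMap k _ c) = coef π U c
  c2 : ∀ c, e2 (algebraMap k _ c) = coef π V c

section push

variable {X : Scheme.{0}} {k : Type} [Field k] {π : X ⟶ Sp k} {f : Fin 7 → k} (D : CD π f)

/-- Functions on the first chart. -/
noncomputable def E1 : Γ(X, D.U) ≃+* A1 k f := (RingEquiv.ofBijective _ D.b1).symm

/-- Functions on the second chart. -/
noncomputable def E2 : Γ(X, D.V) ≃+* A2 k f := (RingEquiv.ofBijective _ D.b2).symm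

/-- Functions on the intersection. -/
noncomputable def E12 : Γ(X, D.U ⊓ D.V) ≃+* A12 k f := (RingEquiv.ofBijective _ D.b12).symm

lemma E1_e1 (v : A1 k f) : E1 D (D.e1 v) = v := (RingEquiv.ofBijective _ D.b1).symm_apply_apply v

lemma e1_E1 (r : Γ(X, D.U)) : D.e1 (E1 D r) = r := (RingEquiv.ofBijective _ D.b1).apply_symm_apply r

lemma E2_e2 (v : A2 k f) : E2 D (D.e2 v) = v := (RingEquiv.ofBijective _ D.b2).symm_apply_apply v

lemma e2_E2 (r : Γ(X, D.V)) : D.e2 (E2 D r) = r := (RingEquiv.ofBijective _ D.b2).apply_symm_apply r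

lemma E12_e12 (v : A12 k f) : E12 D (D.e12 v) = v :=
  (RingEquiv.ofBijective _ D.b12).symm_apply_apply v

lemma E12_1 (r : Γ(X, D.U)) : E12 D (rs X inf_le_left r) = g1 k f (E1 D r) := by
  conv_lhs => rw [← e1_E1 D r]
  rw [← D.h1, E12_e12]

lemma E12_2 (r : Γ(X, D.V)) : E12 D (rs X inf_le_right r) = g2 k f (E2 D r) := by
  conv_lhs => rw [← e2_E2 D r]
  rw [← D.h2, E12_e12]

/-- The first chart. -/
noncomputable abbrev i1 : Sp (A1 k f) ⟶ X := ww D.aU (E1 D)

/-- The second chart. -/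
noncomputable abbrev i2 : Sp (A2 k f) ⟶ X := ww D.aV (E2 D)

/-- The intersection. -/
noncomputable abbrev i12 : Sp (A12 k f) ⟶ X := ww D.aW (E12 D)

theorem i12_1 : i12 D = spMap (g1 k f) ≫ i1 D := by
  refine ww_eq D.aU (E1 D) _ ((ww_le D.aW (E12 D)).trans fun _ hx => hx.1) _ ?_
  intro v
  have := gm_rs (i12 D) (RingHom.id (A12 k f)) (i12 D) (spMap_id_comp _).symm
    (W := D.U) (W' := D.U ⊓ D.V) inf_le_left
    ((ww_le D.aW (E12 D)).trans fun _ hx => hx.1) (ww_le D.aW (E12 D)) v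
  rw [ww_gm, E12_1] at this
  exact this.symm

theorem i12_2 : i12 D = spMap (g2 k f) ≫ i2 D := by
  refine ww_eq D.aV (E2 D) _ ((ww_le D.aW (E12 D)).trans fun _ hx => hx.2) _ ?_
  intro v
  have := gm_rs (i12 D) (RingHom.id (A12 k f)) (i12 D) (spMap_id_comp _).symm
    (W := D.V) (W' := D.U ⊓ D.V) inf_le_right
    ((ww_le D.aW (E12 D)).trans fun _ hx => hx.2) (ww_le D.aW (E12 D)) v
  rw [ww_gm, E12_2] at this
  exact this.symm

/-- The curve is the push out of its charts. -/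
theorem isPush : IsPushout (spMap (g1 k f)) (spMap (g2 k f)) (i1 D) (i2 D) := by
  refine glue_push (by rw [← i12_1 D, ← i12_2 D]) ?_ ?_
  · intro p
    have hp : p ∈ D.U ⊔ D.V := by
      rw [D.cov]
      trivial
    rcases hp with hp | hp
    · left
      have h : p ∈ (i1 D).opensRange := by
        rw [ww_range]
        exact hp
      exact h
    · right
      have h : p ∈ (i2 D).opensRange := by
        rw [ww_range]
        exact hp
      exact h
  · intro x y h
    have h1 : i1 D x ∈ D.U := ww_le D.aU (E1 D) (show x ∈ ⊤ by trivial)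
    have h2 : i2 D y ∈ D.V := ww_le D.aV (E2 D) (show y ∈ ⊤ by trivial)
    have h3 : i1 D x ∈ (i12 D).opensRange := by
      rw [ww_range]
      exact ⟨h1, h ▸ h2⟩
    obtain ⟨w, hw⟩ := h3
    refine ⟨w, ?_, ?_⟩
    · apply (i1 D).isOpenEmbedding.injective
      rw [← Scheme.Hom.comp_apply, ← i12_1 D, hw]
    · apply (i2 D).isOpenEmbedding.injective
      rw [← Scheme.Hom.comp_apply, ← i12_2 D, hw, h]

theorem i1_π : i1 D ≫ π = spMap (algebraMap k (A1 k f)) := by
  unfold i1 ww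
  rw [Category.assoc, NOD.fromSpec_coef, spMap_comp']
  refine congrArg (fun f => spMap f) (RingHom.ext fun c => ?_)
  change E1 D (coef π D.U c) = _
  rw [← D.c1, E1_e1]

theorem i2_π : i2 D ≫ π = spMap (algebraMap k (A2 k f)) := by
  unfold i2 ww
  rw [Category.assoc, NOD.fromSpec_coef, spMap_comp']
  refine congrArg (fun f => spMap f) (RingHom.ext fun c => ?_)
  change E2 D (coef π D.V c) = _
  rw [← D.c2, E2_e2]

end push

theorem arrow {k : Type} [Field k] (C : Fam 0 k) {f : Fin 7 → k} (D : CD C.π f) :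
    ∃ a : Arrow (RingHom.id k) C (Hyp f), IsIso a.f := by
  have hid : spMap (RingHom.id k) = 𝟙 (Sp k) := by simp
  have hP := isPush D
  let e : C.X ≅ HX k f := hP.isoPushout
  have e1 : i1 D ≫ e.hom = HX.in1 k f := hP.inl_isoPushout_hom
  have e2 : i2 D ≫ e.hom = HX.in2 k f := hP.inr_isoPushout_hom
  have hπ : e.hom ≫ HX.pr k f = C.π := by
    apply hP.hom_ext
    · rw [← Category.assoc, e1, HX.in1_pr, i1_π]
    · rw [← Category.assoc, e2, HX.in2_pr, i2_π]
  have hiso : IsIso e.hom := e.isIso_hom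
  refine ⟨⟨e.hom, ?_, fun i => i.elim0⟩, hiso⟩
  have hiso' : IsIso (spMap (RingHom.id k)) := by
    rw [hid]
    infer_instance
  have hw : e.hom ≫ HX.pr k f = C.π ≫ spMap (RingHom.id k) := by
    rw [hid, Category.comp_id]
    exact hπ
  exact IsPullback.of_horiz_isIso (fst := e.hom) (snd := C.π) (f := HX.pr k f)
    (g := spMap (RingHom.id k)) ⟨hw⟩

end EIS

open EIS Pool.Agent.MG.Two in
/-- The curve is glued from its charts. -/
theorem t_EIS : Stmt_EIS := by
  intro k _ C _ _ x y f hx aU aV hcov heq htr hind hU hV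
  have hx' : x⁻¹ ≠ 0 := inv_ne_zero hx
  have hWne : Nonempty (dom x ⊓ dom x⁻¹ : C.X.Opens) := nonempty_inf inferInstance inferInstance
  have aW : IsAffineOpen (dom x ⊓ dom x⁻¹) := isAffineOpen_inf C.π aU aV
  -- the coordinates
  obtain ⟨xs, hxs⟩ : ∃ s : Γ(C.X, dom x), C.X.germToFunctionField (dom x) s = x :=
    ⟨sec x, germ_sec x⟩
  obtain ⟨ys, hys⟩ : ∃ s : Γ(C.X, dom x), C.X.germToFunctionField (dom x) s = y :=
    (hU y).2 ⟨0, 1, by rw [Polynomial.eval₂_zero, Polynomial.eval₂_one, zero_add, one_mul]⟩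
  obtain ⟨us, hus⟩ : ∃ s : Γ(C.X, dom x⁻¹), C.X.germToFunctionField (dom x⁻¹) s = x⁻¹ :=
    ⟨sec x⁻¹, germ_sec x⁻¹⟩
  obtain ⟨vs, hvs⟩ : ∃ s : Γ(C.X, dom x⁻¹),
      C.X.germToFunctionField (dom x⁻¹) s = y * x⁻¹ ^ 3 :=
    (hV _).2 ⟨0, 1, by rw [Polynomial.eval₂_zero, Polynomial.eval₂_one, zero_add, one_mul]⟩
  have gc1 : (C.X.germToFunctionField (dom x)).hom.comp (coef C.π (dom x)) = kfun C.π :=
    RingHom.ext fun c => W.W0.germ_coef C.π (dom x) c
  have gc2 : (C.X.germToFunctionField (dom x⁻¹)).hom.comp (coef C.π (dom x⁻¹)) = kfun C.π :=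
    RingHom.ext fun c => W.W0.germ_coef C.π (dom x⁻¹) c
  have r1 : ys ^ 2 = pol (fun i => coef C.π (dom x) (f i)) xs := by
    apply C.X.germToFunctionField_injective (dom x)
    have h := pol_map (C.X.germToFunctionField (dom x)).hom
      (fun i => coef C.π (dom x) (f i)) xs
    rw [map_pow, hys, heq]
    refine Eq.trans ?_ h.symm
    change _ = pol (fun i => C.X.germToFunctionField (dom x) (coef C.π (dom x) (f i)))
      (C.X.germToFunctionField (dom x) xs)
    rw [hxs]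
    congr 1
    funext i
    exact (W.W0.germ_coef C.π (dom x) (f i)).symm
  have hrev : (y * x⁻¹ ^ 3) ^ 2 = pol (fun i => kfun C.π (rev f i)) x⁻¹ := by
    have h := pol_rev (rev (fun i => kfun C.π (f i))) x x⁻¹ (mul_inv_cancel₀ hx)
    rw [rev_rev, ← heq] at h
    refine Eq.trans ?_ h
    ring
  have r2 : vs ^ 2 = pol (fun i => coef C.π (dom x⁻¹) (rev f i)) us := by
    apply C.X.germToFunctionField_injective (dom x⁻¹)
    have h := pol_map (C.X.germToFunctionField (dom x⁻¹)).hom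
      (fun i => coef C.π (dom x⁻¹) (rev f i)) us
    rw [map_pow, hvs, hrev]
    refine Eq.trans ?_ h.symm
    change _ = pol (fun i => C.X.germToFunctionField (dom x⁻¹)
      (coef C.π (dom x⁻¹) (rev f i))) (C.X.germToFunctionField (dom x⁻¹) us)
    rw [hus]
    congr 1
    funext i
    exact (W.W0.germ_coef C.π (dom x⁻¹) (rev f i)).symm
  obtain ⟨e1, he1⟩ : ∃ e1 : A1 k f →+* Γ(C.X, dom x), e1 = lift1 (coef C.π (dom x)) xs ys r1 :=
    ⟨_, rfl⟩
  obtain ⟨e2, he2⟩ : ∃ e2 : A2 k f →+* Γ(C.X, dom x⁻¹),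
    e2 = lift1 (coef C.π (dom x⁻¹)) us vs r2 := ⟨_, rfl⟩
  have b1 : Function.Bijective e1 := by
    rw [he1]
    refine lift_bij _ (C.X.germToFunctionField (dom x)).hom
      (C.X.germToFunctionField_injective (dom x)) xs ys r1 ?_ ?_
    · intro p q h
      rw [gc1] at h
      apply hind p q
      rw [← h]
      change _ = p.eval₂ _ (C.X.germToFunctionField (dom x) xs) +
        q.eval₂ _ (C.X.germToFunctionField (dom x) xs) * C.X.germToFunctionField (dom x) ys
      rw [hxs, hys]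
    · intro r
      obtain ⟨p, q, h⟩ := (hU (C.X.germToFunctionField (dom x) r)).1 ⟨r, rfl⟩
      refine ⟨p, q, ?_⟩
      rw [gc1]
      refine h.trans ?_
      change _ = p.eval₂ _ (C.X.germToFunctionField (dom x) xs) +
        q.eval₂ _ (C.X.germToFunctionField (dom x) xs) * C.X.germToFunctionField (dom x) ys
      rw [hxs, hys]
  have b2 : Function.Bijective e2 := by
    rw [he2]
    refine lift_bij _ (C.X.germToFunctionField (dom x⁻¹)).hom
      (C.X.germToFunctionField_injective (dom x⁻¹)) us vs r2 ?_ ?_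
    · intro p q h
      rw [gc2] at h
      apply ind_inv (kfun C.π) x y hx hind p q
      rw [← h]
      change _ = p.eval₂ _ (C.X.germToFunctionField (dom x⁻¹) us) +
        q.eval₂ _ (C.X.germToFunctionField (dom x⁻¹) us) *
          C.X.germToFunctionField (dom x⁻¹) vs
      rw [hus, hvs]
    · intro r
      obtain ⟨p, q, h⟩ := (hV (C.X.germToFunctionField (dom x⁻¹) r)).1 ⟨r, rfl⟩
      refine ⟨p, q, ?_⟩
      rw [gc2]
      refine h.trans ?_
      change _ = p.eval₂ _ (C.X.germToFunctionField (dom x⁻¹) us) +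
        q.eval₂ _ (C.X.germToFunctionField (dom x⁻¹) us) *
          C.X.germToFunctionField (dom x⁻¹) vs
      rw [hus, hvs]
  -- the intersection
  have hWb : dom x ⊓ dom x⁻¹ = C.X.basicOpen xs := by
    apply le_antisymm
    · intro p hp
      apply W.W0.mem_basicOpen_of_inv p hp.1
      · rw [hxs]
        exact hx
      · rw [hxs]
        exact hp.2
    · intro p hp
      refine ⟨C.X.basicOpen_le _ hp, ?_⟩
      change x⁻¹ ∈ W.W0.O p
      rw [← hxs]
      exact W.W0.inv_mem_O p _ hp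
  obtain ⟨ρ, hρ⟩ : ∃ ρ : Γ(C.X, dom x) →+* Γ(C.X, dom x ⊓ dom x⁻¹),
    ρ = rs C.X inf_le_left := ⟨_, rfl⟩
  obtain ⟨ρ', hρ'⟩ : ∃ ρ' : Γ(C.X, dom x⁻¹) →+* Γ(C.X, dom x ⊓ dom x⁻¹),
    ρ' = rs C.X inf_le_right := ⟨_, rfl⟩
  have ρinj : Function.Injective ρ := by
    rw [hρ]
    exact map_injective_of_isIntegral C.X (homOfLE (inf_le_left : dom x ⊓ dom x⁻¹ ≤ dom x))
  have ρg : ∀ v, C.X.germToFunctionField (dom x ⊓ dom x⁻¹) (ρ v) =
      C.X.germToFunctionField (dom x) v := by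
    intro v
    rw [hρ, W.W0.germ_rs]
  have ρ'g : ∀ v, C.X.germToFunctionField (dom x ⊓ dom x⁻¹) (ρ' v) =
      C.X.germToFunctionField (dom x⁻¹) v := by
    intro v
    rw [hρ', W.W0.germ_rs]
  have ρc : ∀ c, ρ (coef C.π (dom x) c) = coef C.π (dom x ⊓ dom x⁻¹) c := by
    intro c
    rw [hρ, coef_rs]
  have ρ'c : ∀ c, ρ' (coef C.π (dom x⁻¹) c) = coef C.π (dom x ⊓ dom x⁻¹) c := by
    intro c
    rw [hρ', coef_rs]
  have ρu : IsUnit (ρ xs) := by
    rw [hρ]
    exact W.W0.unit_aux _ _ hWb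
  obtain ⟨xw, hxw⟩ : ∃ xw : (Γ(C.X, dom x ⊓ dom x⁻¹))ˣ, (xw : Γ(C.X, dom x ⊓ dom x⁻¹)) = ρ xs :=
    ⟨ρu.unit, rfl⟩
  have r12 : (ρ ys) ^ 2 = pol (fun i => coef C.π (dom x ⊓ dom x⁻¹) (f i))
      (xw : Γ(C.X, dom x ⊓ dom x⁻¹)) := by
    rw [hxw, ← map_pow, r1, pol_map]
    congr 1
    funext i
    exact ρc _
  obtain ⟨e12, he12⟩ : ∃ e12 : A12 k f →+* Γ(C.X, dom x ⊓ dom x⁻¹),
    e12 = lift12 (coef C.π (dom x ⊓ dom x⁻¹)) xw (ρ ys) r12 := ⟨_, rfl⟩
  have h1 : ∀ v, e12 (g1 k f v) = ρ (e1 v) := by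
    have h : e12.comp (g1 k f) = ρ.comp e1 := by
      refine hom1_ext ?_ ?_ ?_
      · intro c
        rw [RingHom.comp_apply, RingHom.comp_apply, he12, lift12_g1, lift1_b, he1, lift1_b, ρc]
      · rw [RingHom.comp_apply, RingHom.comp_apply, he12, lift12_g1, lift1_x, he1, lift1_x, hxw]
      · rw [RingHom.comp_apply, RingHom.comp_apply, he12, lift12_g1, lift1_y, he1, lift1_y]
    exact fun v => congrArg (fun g => g v) h
  have gxw : C.X.germToFunctionField (dom x ⊓ dom x⁻¹) (xw : Γ(C.X, dom x ⊓ dom x⁻¹)) = x := by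
    rw [hxw, ρg, hxs]
  have gxi : C.X.germToFunctionField (dom x ⊓ dom x⁻¹) ((xw⁻¹ : (Γ(C.X, dom x ⊓ dom x⁻¹))ˣ) :
      Γ(C.X, dom x ⊓ dom x⁻¹)) = x⁻¹ := by
    have h := W.W0.ring_inv (C.X.germToFunctionField (dom x ⊓ dom x⁻¹)).hom xw
    refine h.trans ?_
    exact congrArg (fun z => z⁻¹) gxw
  have hxi : ((xw⁻¹ : (Γ(C.X, dom x ⊓ dom x⁻¹))ˣ) : Γ(C.X, dom x ⊓ dom x⁻¹)) = ρ' us := by
    apply C.X.germToFunctionField_injective (dom x ⊓ dom x⁻¹)
    rw [gxi, ρ'g, hus]
  have h2 : ∀ v, e12 (g2 k f v) = ρ' (e2 v) := by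
    have h : e12.comp (g2 k f) = ρ'.comp e2 := by
      refine hom1_ext ?_ ?_ ?_
      · intro c
        rw [RingHom.comp_apply, RingHom.comp_apply, g2_b, he12, lift12_b, he2, lift1_b, ρ'c]
      · rw [RingHom.comp_apply, RingHom.comp_apply, g2_u, he12, lift12_xi, he2, lift1_x, hxi]
      · rw [RingHom.comp_apply, RingHom.comp_apply, g2_v, he12, map_mul, lift12_y,
          Units.val_pow_eq_pow_val, map_pow, lift12_xi, he2, lift1_y]
        apply C.X.germToFunctionField_injective (dom x ⊓ dom x⁻¹)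
        rw [map_mul, map_pow, gxi, ρg, ρ'g, hys, hvs]
    exact fun v => congrArg (fun g => g v) h
  have hxu : ∀ n : ℕ, IsUnit (algebraMap (A1 k f) (A12 k f) (x1 k f ^ n)) := by
    intro n
    rw [map_pow]
    exact (IsLocalization.Away.algebraMap_isUnit (x1 k f)).pow n
  have i12 : Function.Injective e12 := by
    rw [injective_iff_map_eq_zero]
    intro v hv
    obtain ⟨⟨w, ⟨_, n, rfl⟩⟩, hw⟩ := IsLocalization.surj (Submonoid.powers (x1 k f)) v
    have hw' : v * algebraMap (A1 k f) (A12 k f) (x1 k f ^ n) = g1 k f w := hw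
    have h3 : ρ (e1 w) = 0 := by
      rw [← h1, ← hw', map_mul, hv, zero_mul]
    have h4 : w = 0 := by
      apply b1.1
      apply ρinj
      rw [h3, map_zero, map_zero]
    rw [h4, map_zero] at hw'
    exact (hxu n).mul_left_eq_zero.1 hw'
  have s12 : Function.Surjective e12 := by
    intro r
    obtain ⟨n, s, hs⟩ := W.W0.loc_aux aU xs (inf_le_left : dom x ⊓ dom x⁻¹ ≤ dom x) hWb r
    obtain ⟨w, hw⟩ := b1.2 s
    obtain ⟨u, hu'⟩ := hxu n
    refine ⟨g1 k f w * (u⁻¹ : (A12 k f)ˣ).val, ?_⟩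
    have h3 : e12 (u : A12 k f) = ρ xs ^ n := by
      rw [hu']
      change e12 (g1 k f (x1 k f ^ n)) = _
      rw [h1, map_pow, map_pow, he1, lift1_x]
    apply (ρu.pow n).mul_left_cancel
    have h4 : ρ xs ^ n * e12 (u⁻¹ : (A12 k f)ˣ).val = 1 := by
      rw [← h3, ← map_mul, Units.mul_inv, map_one]
    rw [← hρ] at hs
    rw [map_mul, h1, hw, hs]
    linear_combination ρ s * h4
  refine arrow C (f := f) {
    U := dom x
    V := dom x⁻¹
    aU := aU
    aV := aV
    aW := aW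
    cov := hcov
    e1 := e1
    b1 := b1
    e2 := e2
    b2 := b2
    e12 := e12
    b12 := ⟨i12, s12⟩
    h1 := fun v => by rw [h1, hρ]
    h2 := fun v => by rw [h2, hρ']
    c1 := fun c => by rw [he1, lift1_b]
    c2 := fun c => by rw [he2, lift1_b] }

end Pool.Agent.MG.H2
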