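import Pool.Agent.MG.H2.EIN

/-!
# EMB: a change of the coordinate moves the roots away from infinity
-/

open Polynomial

namespace Pool.Agent.MG.H2

namespace EMB46

variable {k K : Type} [Field k] [Field K]

theorem comp_val (c : k →+* K) (x : K) (t : k) (p : k[X]) :
    (p.comp (X + C t)).eval₂ c (x - c t) = p.eval₂ c x := by
  rw [eval₂_comp, eval₂_add, eval₂_X, eval₂_C, sub_add_cancel]

theorem comp_ne (t : k) (p : k[X]) (hp : p ≠ 0) : p.comp (X + C t) ≠ 0 := by
  intro h
  apply hp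
  have h1 : (p.comp (X + C t)).comp (X - C t) = p := by
    rw [comp_assoc, add_comp, X_comp, C_comp, sub_add_cancel, comp_X]
  rw [← h1, h, zero_comp]

/-- the change of the coordinate by a constant -/
theorem quad_sub {c : k →+* K} {x y : K} {m : ℕ} {a b : Fin (2 * m) → k} (t : k)
    (h : Quad c x y (∏ i, (C (a i) * X + C (b i)))) :
    Quad c (x - c t) y (∏ i, (C (a i) * X + C (a i * t + b i))) := by
  refine ⟨?_, ?_, ?_⟩
  · have h1 := h.eq
    rw [EIN70.prod_val] at h1 ⊢
    rw [h1]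
    refine Finset.prod_congr rfl fun i _ => ?_
    rw [map_add, map_mul]
    ring
  · rw [injective_iff_map_eq_zero]
    intro p hp
    rw [coe_eval₂RingHom] at hp
    by_contra hne
    have h1 := comp_val c (x - c t) (-t) p
    rw [hp, map_neg, sub_neg_eq_add, sub_add_cancel] at h1
    have h2 : eval₂RingHom c x (p.comp (X + C (-t))) = 0 := h1
    exact comp_ne _ _ hne ((injective_iff_map_eq_zero _).1 h.tr _ h2)
  · intro z
    obtain ⟨p, q, d, hd, e⟩ := h.gen z
    refine ⟨p.comp (X + C t), q.comp (X + C t), d.comp (X + C t), comp_ne _ _ hd, ?_⟩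
    rw [comp_val, comp_val, comp_val]
    exact e

/-- the linear forms become monic -/
theorem quad_scale {c : k →+* K} {x y : K} {m : ℕ} {a b : Fin (2 * m) → k} (s : k)
    (hs : s ^ 2 = ∏ i, a i) (ha : ∀ i, a i ≠ 0)
    (h : Quad c x y (∏ i, (C (a i) * X + C (b i)))) :
    Quad c x (y * (c s)⁻¹) (∏ i, (X - C (-(b i) * (a i)⁻¹))) := by
  have hp : ∏ i, a i ≠ 0 := Finset.prod_ne_zero_iff.2 fun i _ => ha i
  have hs0 : s ≠ 0 := by
    intro e
    apply hp
    rw [← hs, e]
    norm_num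
  have hcs : c s ≠ 0 := by
    intro e
    exact hs0 (c.injective (e.trans (map_zero c).symm))
  refine ⟨?_, h.tr, ?_⟩
  · have h1 := h.eq
    rw [EIN70.prod_val] at h1
    have h2 : (∏ i, (c (a i) * x + c (b i))) =
        (c s) ^ 2 * ∏ i, (x - c (-(b i) * (a i)⁻¹)) := by
      rw [← map_pow, hs, map_prod, ← Finset.prod_mul_distrib]
      refine Finset.prod_congr rfl fun i _ => ?_
      rw [mul_sub, ← map_mul]
      have : a i * (-(b i) * (a i)⁻¹) = - b i := by
        field_simp [ha i]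
      rw [this, map_neg, sub_neg_eq_add]
    rw [mul_pow, h1, h2, eval₂_finsetProd]
    have h3 : (∏ i : Fin (2 * m), eval₂ c x (X - C (-(b i) * (a i)⁻¹))) =
        ∏ i, (x - c (-(b i) * (a i)⁻¹)) := by
      refine Finset.prod_congr rfl fun i _ => ?_
      rw [eval₂_sub, eval₂_X, eval₂_C]
    rw [h3, inv_pow]
    field_simp
  · intro z
    obtain ⟨p, q, d, hd, e⟩ := h.gen z
    refine ⟨p, q * C s, d, hd, ?_⟩
    rw [e, eval₂_mul, eval₂_C]
    have : c s * (c s)⁻¹ = 1 := mul_inv_cancel₀ hcs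
    linear_combination (-(q.eval₂ c x * y)) * this

theorem exists_good [Infinite k] (m : ℕ) (a b : Fin (2 * m) → k)
    (h : ∀ i, a i ≠ 0 ∨ b i ≠ 0) : ∃ t : k, ∀ i, a i * t + b i ≠ 0 := by
  classical
  obtain ⟨t, ht⟩ := Infinite.exists_notMem_finset
    (Finset.univ.image fun i : Fin (2 * m) => -(b i) * (a i)⁻¹)
  refine ⟨t, fun i e => ?_⟩
  by_cases ha : a i = 0
  · rw [ha, zero_mul, zero_add] at e
    rcases h i with h | h
    · exact h ha
    · exact h e
  · apply ht
    rw [Finset.mem_image]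
    refine ⟨i, Finset.mem_univ _, ?_⟩
    have h1 : a i * (a i)⁻¹ = 1 := mul_inv_cancel₀ ha
    linear_combination (-(a i)⁻¹) * e + t * h1

end EMB46

theorem t_EMB : Stmt_EMB := by
  intro k K _ _ _ _ c x y m a b hab h
  have : Infinite k := IsAlgClosed.instInfinite
  obtain ⟨t, ht⟩ := EMB46.exists_good m a b (EIN70.nz m a b hab)
  obtain ⟨s, hs⟩ := IsAlgClosed.exists_pow_nat_eq (∏ i, (a i * t + b i)) (n := 2) (by norm_num)
  have h1 := EIN70.quad_inv (EMB46.quad_sub t h)
  have h2 := EMB46.quad_scale s hs ht h1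
  refine ⟨_, _, _, ?_, h2⟩
  intro i j hij
  by_contra hne
  apply hab i j hne
  have hi := ht i
  have hj := ht j
  have h3 : -(a i) * (a i * t + b i)⁻¹ = -(a j) * (a j * t + b j)⁻¹ := hij
  have h4 : a i * (a j * t + b j) = a j * (a i * t + b i) := by
    have e1 : (a i * t + b i) * (a i * t + b i)⁻¹ = 1 := mul_inv_cancel₀ hi
    have e2 : (a j * t + b j) * (a j * t + b j)⁻¹ = 1 := mul_inv_cancel₀ hj
    linear_combination (-(a i * t + b i) * (a j * t + b j)) * h3 -
      (a i * (a j * t + b j)) * e1 + (a j * (a i * t + b i)) * e2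
  linear_combination h4

end Pool.Agent.MG.H2
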