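import Pool.Agent.MG.H2.EPDB

/-!
# Point data of genus two: the field of fractions is quadratic
-/

open Polynomial

namespace Pool.Agent.MG.H2

namespace EPD

section field

variable {k K : Type} [Field k] [Field K] {c : k →+* K} {x y : K} {f : k[X]}

lemma GG.eval (he : y ^ 2 = f.eval₂ c x) {z : K} (hz : GG c x y z) (p : k[X]) :
    GG c x y (p.eval₂ c z) := by
  induction p using Polynomial.induction_on' with
  | add p q hp hq =>
    rw [eval₂_add]
    exact hp.add hq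
  | monomial n a =>
    rw [eval₂_monomial]
    exact GG.mul he (GG.gc a) (hz.pow he n)

lemma GG.neg {z : K} (hz : GG c x y z) : GG c x y (-z) := by
  obtain ⟨p, q, d, hd, h⟩ := hz
  refine ⟨-p, -q, d, hd, ?_⟩
  simp only [eval₂_neg]
  linear_combination -h

lemma GG.sub {z w : K} (hz : GG c x y z) (hw : GG c x y w) : GG c x y (z - w) := by
  rw [sub_eq_add_neg]
  exact hz.add hw.neg

/-- If `s` is transcendental and belongs to `k[x, y]`, `y² = f(x)`, then `x` is transcendental. -/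
theorem tr_of {s : K} (he : y ^ 2 = f.eval₂ c x) (U : k[X]) (hs : s = y - U.eval₂ c x)
    (h : ∀ p : k[X], p.eval₂ c s = 0 → p = 0) : Function.Injective (eval₂RingHom c x) := by
  let _ : Algebra k K := c.toAlgebra
  rw [injective_iff_map_eq_zero]
  intro p hp
  by_contra hne
  rw [coe_eval₂RingHom] at hp
  have hx : IsIntegral k x := by
    rw [← isAlgebraic_iff_isIntegral]
    exact ⟨p, hne, hp⟩
  have hpol : ∀ q : k[X], IsIntegral k (q.eval₂ c x) := by
    intro q
    induction q using Polynomial.induction_on' with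
    | add p q hp hq =>
      rw [eval₂_add]
      exact hp.add hq
    | monomial n a =>
      rw [eval₂_monomial]
      exact (isIntegral_algebraMap (R := k) (A := K) (x := a)).mul (hx.pow n)
  have hy : IsIntegral k y := IsIntegral.of_pow (n := 2) (by norm_num) (he ▸ hpol f)
  have hs' : IsIntegral k s := hs ▸ hy.sub (hpol U)
  obtain ⟨q, hq1, hq2⟩ := hs'
  exact hq1.ne_zero (h q hq2)

end field

end EPD

namespace PD

variable {k R1 R2 R12 : Type} [Field k] [CommRing R1] [CommRing R2] [CommRing R12]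
  {D : PD k R1 R2 R12}

/-- Case B: there is no function with a double pole. -/
theorem caseB [CharZero k] [IsDomain R1] (hgap : ∀ (r : R1) (c : k), D.Ord 2 r c → c = 0)
    (K : Type) [Field K] [Algebra R1 K] [IsFractionRing R1 K] :
    ∃ (x y : K) (f : k[X]), Quad ((algebraMap R1 K).comp D.c1) x y f := by
  obtain ⟨s, hs⟩ := exists_of_gap (D := D) (g := 2) le_rfl hgap (n := 3) (by norm_num)
  obtain ⟨θ₀, hθ₀⟩ := exists_of_gap (D := D) (g := 2) le_rfl hgap (n := 4) (by norm_num)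
  obtain ⟨ψ₀, hψ₀⟩ := exists_of_gap (D := D) (g := 2) le_rfl hgap (n := 5) (by norm_num)
  obtain ⟨θ, ψ, n2, n1, n0, hθ, hψ, hN⟩ := normal hgap hs hθ₀ hψ₀
  have h8 : D.Ord 8 (θ ^ 2) 1 := by
    have := (hθ.pow 2).cast (m := 8) (by norm_num)
    rwa [one_pow] at this
  have h10 : D.Ord 10 (ψ ^ 2) 1 := by
    have := (hψ.pow 2).cast (m := 10) (by norm_num)
    rwa [one_pow] at this
  obtain ⟨a7, a6, a5, a4, a3, a0, ha⟩ := lin8 hgap hs hθ hψ h8
  obtain ⟨b9, b8, b7, b6, b5, b4, b3, b0, hb⟩ := lin10 hgap hs hθ hψ h10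
  rw [map_one, one_mul] at ha hb
  let P2 : k[X] := X + C a5
  let P1 : k[X] := C a7 * X + C a4
  let P0 : k[X] := C a6 * X ^ 2 + C a3 * X + C a0
  let Q1 : k[X] := X ^ 2 + C b7 * X + C b4
  let Q2 : k[X] := C b8 * X + C b5
  let Q0 : k[X] := C b9 * X ^ 3 + C b6 * X ^ 2 + C b3 * X + C b0
  let N : k[X] := X ^ 3 + C n2 * X ^ 2 + C n1 * X + C n0
  have hind := indepB hs hθ hψ (P2 * Q0 + P1 * N) (P2 * Q1 - N) (P2 * Q2 + P0) (by
    simp only [P2, P1, P0, Q1, Q2, Q0, N, eval₂_add, eval₂_sub, eval₂_mul, eval₂_pow, eval₂_C,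
      eval₂_X]
    have e1 : θ ^ 2 * ψ = θ * (s ^ 3 + D.c1 n2 * s ^ 2 + D.c1 n1 * s + D.c1 n0) := by
      rw [← hN]; ring
    linear_combination e1 - ψ * ha - (s + D.c1 a5) * hb - (D.c1 a7 * s + D.c1 a4) * hN)
  obtain ⟨-, hQ1, hQ2⟩ := hind
  set i := algebraMap R1 K with hi
  set c := i.comp D.c1 with hc
  have hev : ∀ p : k[X], p.eval₂ c (i s) = i (p.eval₂ D.c1 s) := fun p => by
    rw [hc, hom_eval₂]
  have hinj : Function.Injective i := IsFractionRing.injective R1 K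
  have hs0 : ∀ p : k[X], p.eval₂ c (i s) = 0 → p = 0 := by
    intro p hp
    rw [hev, map_eq_zero_iff i hinj] at hp
    exact poly_inj (by norm_num) hs p hp
  have hP2 : i s + c a5 ≠ 0 := by
    have h : P2.eval₂ c (i s) ≠ 0 := fun h => (monic_X_add_C a5).ne_zero (hs0 P2 h)
    simpa [P2] using h
  have hca : ∀ a, i (D.c1 a) = c a := fun a => rfl
  have ha' := congrArg i ha
  have hN' := congrArg i hN
  simp only [map_add, map_mul, map_pow, hca] at ha' hN'
  have q1 := congrArg (eval₂ c (i s)) hQ1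
  have q2 := congrArg (eval₂ c (i s)) hQ2
  simp only [P2, P0, Q1, Q2, N, eval₂_add, eval₂_sub, eval₂_mul, eval₂_pow, eval₂_C,
    eval₂_X, eval₂_zero] at q1 q2
  obtain ⟨x, hx⟩ : ∃ x : K, (i s + c a5) * x = i θ := ⟨i θ / (i s + c a5), mul_div_cancel₀ _ hP2⟩
  have F2 : (i s + c a5) * x ^ 2 = i ψ + (c a7 * i s + c a4) * x - (c b8 * i s + c b5) := by
    apply mul_left_cancel₀ hP2
    linear_combination ((i s + c a5) * x + i θ) * hx + ha' - (c a7 * i s + c a4) * hx + q2
  have F3 : x * i ψ = i s ^ 2 + c b7 * i s + c b4 := by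
    apply mul_left_cancel₀ hP2
    linear_combination i ψ * hx + hN' - q1
  have e2 : c 2⁻¹ * 2 = 1 := by
    have : (2 : K) = c 2 := (map_ofNat c 2).symm
    rw [this, ← map_mul, inv_mul_cancel₀ two_ne_zero, map_one]
  let U : k[X] := C b7 - C b8 * X + C a7 * X ^ 2 - X ^ 3
  let W : k[X] := C b4 - C b5 * X + C a4 * X ^ 2 - C a5 * X ^ 3
  let V : k[X] := C 2⁻¹ * U
  have hV : V.eval₂ c x = c 2⁻¹ * U.eval₂ c x := by simp only [V, eval₂_mul, eval₂_C]
  have F4 : i s ^ 2 + U.eval₂ c x * i s + W.eval₂ c x = 0 := by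
    simp only [U, W, eval₂_add, eval₂_sub, eval₂_mul, eval₂_pow, eval₂_C, eval₂_X]
    linear_combination -(x * F2) - F3
  have hye : (i s + V.eval₂ c x) ^ 2 = (V ^ 2 - W).eval₂ c x := by
    simp only [eval₂_sub, eval₂_pow]
    linear_combination F4 + 2 * i s * hV + i s * U.eval₂ c x * e2
  have tr := EPD.tr_of hye V (s := i s) (by ring) hs0
  have gs : EPD.GG c x (i s + V.eval₂ c x) (i s) := by
    have := (EPD.GG.gy (c := c) (x := x) (y := i s + V.eval₂ c x)).sub (EPD.GG.poly V)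
    rwa [add_sub_cancel_right] at this
  have gP2 : EPD.GG c x (i s + V.eval₂ c x) (i s + c a5) := gs.add (EPD.GG.gc a5)
  have gT : EPD.GG c x (i s + V.eval₂ c x) (i θ) := by
    rw [← hx]
    exact gP2.mul hye EPD.GG.gx
  have gY : EPD.GG c x (i s + V.eval₂ c x) (i ψ) := by
    have : i ψ = (i s + c a5) * x ^ 2 - (c a7 * i s + c a4) * x + (c b8 * i s + c b5) := by
      linear_combination -F2
    rw [this]
    exact ((gP2.mul hye (EPD.GG.gx.pow hye 2)).sub
      ((((EPD.GG.gc a7).mul hye gs).add (EPD.GG.gc a4)).mul hye EPD.GG.gx)).add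
      (((EPD.GG.gc b8).mul hye gs).add (EPD.GG.gc b5))
  refine ⟨x, i s + V.eval₂ c x, V ^ 2 - W, EPD.quad_of (R := R1) hye tr fun r => ?_⟩
  obtain ⟨n, cr, hr⟩ := ord_exists (D := D) r
  obtain ⟨p, q, t, hpqt⟩ := spanB hgap hs hθ hψ n r cr hr
  rw [← hi, hpqt, map_add, map_add, map_mul, map_mul, ← hev, ← hev, ← hev]
  exact ((gs.eval hye p).add ((gs.eval hye q).mul hye gT)).add ((gs.eval hye t).mul hye gY)

end PD

theorem t_EPD : Stmt_EPD := by
  intro k R1 R2 R12 _ _ _ _ _ _ D K _ _ _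
  by_cases h : ∃ r c, D.Ord 2 r c ∧ c ≠ 0
  · obtain ⟨r, c, hr, hc⟩ := h
    have hx : D.Ord 2 (D.c1 c⁻¹ * r) 1 := by
      have := hr.smul c⁻¹
      rwa [inv_mul_cancel₀ hc] at this
    obtain ⟨y, f, h1, h2, h3⟩ := PD.caseA hx
    have hinj : Function.Injective (algebraMap R1 K) := IsFractionRing.injective R1 K
    have hev : ∀ p : k[X], p.eval₂ ((algebraMap R1 K).comp D.c1)
        (algebraMap R1 K (D.c1 c⁻¹ * r)) = algebraMap R1 K (p.eval₂ D.c1 (D.c1 c⁻¹ * r)) :=
      fun p => by rw [hom_eval₂]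
    refine ⟨algebraMap R1 K (D.c1 c⁻¹ * r), algebraMap R1 K y, f,
      EPD.quad_of (R := R1) ?_ ?_ fun r' => ?_⟩
    · rw [← map_pow, h1, hev]
    · rw [injective_iff_map_eq_zero]
      intro p hp
      rw [coe_eval₂RingHom, hev, map_eq_zero_iff _ hinj] at hp
      exact h2 p hp
    · obtain ⟨p, q, hpq⟩ := h3 r'
      rw [hpq, (algebraMap R1 K).map_add, (algebraMap R1 K).map_mul (q.eval₂ D.c1 _), ← hev, ← hev]
      exact ⟨p, q, 1, one_ne_zero, by rw [eval₂_one, one_mul]⟩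
  · push Not at h
    exact PD.caseB h K

end Pool.Agent.MG.H2
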