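import Pool.Agent.MG.H2.StmtsE

/-!
# ESQ: the polynomial `f` can be made squarefree
-/

open Polynomial

namespace Pool.Agent.MG.H2

namespace ESQ

/-- A product of linear factors is a square times a product over a finite set. -/
theorem split_multiset {k : Type} [Field k] [DecidableEq k] (s : Multiset k) :
    ∃ (g : Polynomial k) (T : Finset k), g ≠ 0 ∧
      (s.map fun r => X - C r).prod = g ^ 2 * ∏ r ∈ T, (X - C r) := by
  induction s using Multiset.induction_on with
  | empty => exact ⟨1, ∅, one_ne_zero, by simp⟩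
  | cons a s ih =>
    obtain ⟨g, T, hg, h⟩ := ih
    by_cases ha : a ∈ T
    · refine ⟨g * (X - C a), T.erase a, mul_ne_zero hg (X_sub_C_ne_zero a), ?_⟩
      rw [Multiset.map_cons, Multiset.prod_cons, h, ← Finset.mul_prod_erase T _ ha]
      ring
    · refine ⟨g, insert a T, hg, ?_⟩
      rw [Multiset.map_cons, Multiset.prod_cons, h, Finset.prod_insert ha]
      ring

/-- A nonzero polynomial is a square times a product over a finite set. -/
theorem split_poly {k : Type} [Field k] [IsAlgClosed k] [DecidableEq k] (f : Polynomial k)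
    (hf : f ≠ 0) :
    ∃ (g : Polynomial k) (T : Finset k), g ≠ 0 ∧ f = g ^ 2 * ∏ r ∈ T, (X - C r) := by
  obtain ⟨g, T, hg, h⟩ := split_multiset f.roots
  obtain ⟨δ, hδ⟩ := IsAlgClosed.exists_pow_nat_eq f.leadingCoeff (n := 2) (by norm_num)
  have hδ0 : δ ≠ 0 := by
    rintro rfl
    apply hf
    rw [← leadingCoeff_eq_zero, ← hδ]
    norm_num
  refine ⟨C δ * g, T, mul_ne_zero (C_ne_zero.2 hδ0) hg, ?_⟩
  have h1 := (IsAlgClosed.splits f).eq_prod_roots
  rw [h, ← hδ] at h1
  calc f = C (δ ^ 2) * (g ^ 2 * ∏ r ∈ T, (X - C r)) := h1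
    _ = (C δ * g) ^ 2 * ∏ r ∈ T, (X - C r) := by
      rw [C_pow]
      ring

/-- Transport of the index type. -/
theorem of_fintype {k K : Type} [Field k] [Field K] (c : k →+* K) (x : K) (y' : K)
    {ι : Type} [Fintype ι] (m : ℕ) (hm : Fintype.card ι = 2 * m) (a b : ι → k)
    (hab : ∀ i j, i ≠ j → a i * b j - a j * b i ≠ 0)
    (hq : Quad c x y' (∏ i, (C (a i) * X + C (b i)))) :
    ∃ (m : ℕ) (a b : Fin (2 * m) → k) (y' : K), (∀ i j, i ≠ j → a i * b j - a j * b i ≠ 0) ∧
      Quad c x y' (∏ i, (C (a i) * X + C (b i))) := by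
  have e : Fin (2 * m) ≃ ι := (Fintype.equivFinOfCardEq hm).symm
  refine ⟨m, fun i => a (e i), fun i => b (e i), y', ?_, ?_⟩
  · intro i j hij
    exact hab _ _ fun h => hij (e.injective h)
  · rw [Equiv.prod_comp e fun i => (C (a i) * X + C (b i))]
    exact hq

end ESQ

theorem t_ESQ : Stmt_ESQ := by
  classical
  intro k K _ _ _ _ c x y f hq
  by_cases hf : f = 0
  · subst hf
    have hy : y = 0 := by
      have := hq.eq
      rw [eval₂_zero] at this
      exact pow_eq_zero_iff (two_ne_zero) |>.1 this
    refine ⟨0, fun i => i.elim0, fun i => i.elim0, 1, fun i => i.elim0, ?_⟩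
    refine ⟨?_, hq.tr, ?_⟩
    · simp
    · intro z
      obtain ⟨p, q, d, hd, h⟩ := hq.gen z
      refine ⟨p, 0, d, hd, ?_⟩
      rw [h, hy]
      simp
  · obtain ⟨g, T, hg, hfg⟩ := ESQ.split_poly f hf
    have hgx : g.eval₂ c x ≠ 0 := by
      intro h
      apply hg
      apply hq.tr
      show g.eval₂ c x = (0 : Polynomial k).eval₂ c x
      rw [h, eval₂_zero]
    have hgen : ∀ z : K, ∃ p q d : Polynomial k, d ≠ 0 ∧
        d.eval₂ c x * z = p.eval₂ c x + q.eval₂ c x * (y / g.eval₂ c x) := by
      intro z
      obtain ⟨p, q, d, hd, h⟩ := hq.gen z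
      refine ⟨p, q * g, d, hd, ?_⟩
      rw [h, eval₂_mul, mul_assoc, mul_div_cancel₀ _ hgx]
    have hsq : (y / g.eval₂ c x) ^ 2 = (∏ r ∈ T, (X - C r)).eval₂ c x := by
      rw [div_pow, hq.eq]
      conv_lhs => rw [hfg]
      rw [eval₂_mul, eval₂_pow, mul_div_cancel_left₀ _ (pow_ne_zero 2 hgx)]
    rcases Nat.even_or_odd' T.card with ⟨m, hm | hm⟩
    · refine ESQ.of_fintype c x (y / g.eval₂ c x) (ι := T) m (by simpa using hm)
        (fun _ => 1) (fun r => -(r : k)) ?_ ⟨?_, hq.tr, hgen⟩
      · intro i j hij h
        apply hij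
        ext
        linear_combination h
      · rw [hsq]
        congr 1
        rw [← Finset.prod_coe_sort T]
        refine Finset.prod_congr rfl fun r _ => ?_
        simp [sub_eq_add_neg]
    · refine ESQ.of_fintype c x (y / g.eval₂ c x) (ι := Option T) (m + 1) ?_
        (fun o => o.elim 0 fun _ => 1) (fun o => o.elim 1 fun r => -(r : k)) ?_
        ⟨?_, hq.tr, hgen⟩
      · rw [Fintype.card_option, Fintype.card_coe, hm]
        ring
      · intro i j hij
        cases i with
        | none =>
          cases j with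
          | none => exact absurd rfl hij
          | some j => simp
        | some i =>
          cases j with
          | none => simp
          | some j =>
            intro h
            apply hij
            congr 1
            ext
            simp only [Option.elim] at h
            linear_combination h
      · rw [hsq]
        congr 1
        rw [Fintype.prod_option, ← Finset.prod_coe_sort T]
        simp [sub_eq_add_neg]

end Pool.Agent.MG.H2
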