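import Pool.Agent.MG.H2.EA
import Pool.Agent.MG.H2.EPD
import Pool.Agent.MG.H2.EGD
import Pool.Agent.MG.H2.ESQ
import Pool.Agent.MG.H2.EMB
import Pool.Agent.MG.H2.EIC
import Pool.Agent.MG.H2.EIN
import Pool.Agent.MG.H2.EDM
import Pool.Agent.MG.H2.ECN
import Pool.Agent.MG.H2.EIS

/-!
# Smooth curves of genus two are curves `y² = f(x)`
-/

namespace Pool.Agent.MG.H2

theorem efg : Stmt_EFG :=
  t_EFG t_EPD t_EGD t_ESQ t_EMB t_EIC t_EIN t_EUN t_EDM t_ECN t_EIS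

theorem ef : Stmt_EF := EFG_EF efg

end Pool.Agent.MG.H2
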