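import Pool.Agent.MG.H2.StmtsE

/-!
# Point data of genus two: calculus of pole orders
-/

open Polynomial

namespace Pool.Agent.MG.H2

namespace EPD

section field

variable {k K : Type} [Field k] [Field K]

/-- The elements of `k(x) + k(x) y`. -/
def GG (c : k →+* K) (x y z : K) : Prop :=
  ∃ p q d : k[X], d ≠ 0 ∧ d.eval₂ c x * z = p.eval₂ c x + q.eval₂ c x * y

variable {c : k →+* K} {x y : K} {f : k[X]}

lemma GG.poly (p : k[X]) : GG c x y (p.eval₂ c x) := ⟨p, 0, 1, one_ne_zero, by simp⟩

lemma GG.gx : GG c x y x := by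
  have := GG.poly (c := c) (x := x) (y := y) X
  rwa [eval₂_X] at this

lemma GG.gc (a : k) : GG c x y (c a) := by
  have := GG.poly (c := c) (x := x) (y := y) (C a)
  rwa [eval₂_C] at this

lemma GG.gy : GG c x y y := ⟨0, 1, 1, one_ne_zero, by simp⟩

lemma GG.add {z w : K} (hz : GG c x y z) (hw : GG c x y w) : GG c x y (z + w) := by
  obtain ⟨p, q, d, hd, h⟩ := hz
  obtain ⟨p', q', d', hd', h'⟩ := hw
  refine ⟨d' * p + d * p', d' * q + d * q', d * d', mul_ne_zero hd hd', ?_⟩
  simp only [eval₂_add, eval₂_mul]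
  linear_combination d'.eval₂ c x * h + d.eval₂ c x * h'

lemma GG.mul (he : y ^ 2 = f.eval₂ c x) {z w : K} (hz : GG c x y z) (hw : GG c x y w) :
    GG c x y (z * w) := by
  obtain ⟨p, q, d, hd, h⟩ := hz
  obtain ⟨p', q', d', hd', h'⟩ := hw
  refine ⟨p * p' + q * q' * f, p * q' + q * p', d * d', mul_ne_zero hd hd', ?_⟩
  simp only [eval₂_add, eval₂_mul]
  linear_combination d'.eval₂ c x * w * h + (p.eval₂ c x + q.eval₂ c x * y) * h' +
    q.eval₂ c x * q'.eval₂ c x * he

lemma GG.pow (he : y ^ 2 = f.eval₂ c x) {z : K} (hz : GG c x y z) (n : ℕ) :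
    GG c x y (z ^ n) := by
  induction n with
  | zero =>
    have := GG.gc (c := c) (x := x) (y := y) 1
    rwa [map_one, ← pow_zero z] at this
  | succ n ih =>
    rw [pow_succ]
    exact ih.mul he hz

lemma GG.inv [CharZero k] (he : y ^ 2 = f.eval₂ c x)
    (tr : Function.Injective (Polynomial.eval₂RingHom c x)) {z : K} (hz : GG c x y z) :
    GG c x y z⁻¹ := by
  have hne : ∀ p : k[X], p ≠ 0 → p.eval₂ c x ≠ 0 := by
    intro p hp h
    apply hp
    apply tr
    rw [map_zero, coe_eval₂RingHom, h]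
  by_cases h0 : z = 0
  · rw [h0, inv_zero]
    have := GG.gc (c := c) (x := x) (y := y) 0
    rwa [map_zero] at this
  obtain ⟨p, q, d, hd, h⟩ := hz
  have hs : d.eval₂ c x * z ≠ 0 := mul_ne_zero (hne d hd) h0
  have hzi : z * z⁻¹ = 1 := mul_inv_cancel₀ h0
  by_cases hm : p.eval₂ c x - q.eval₂ c x * y = 0
  · have h2 : d.eval₂ c x * z = 2 * p.eval₂ c x := by linear_combination h - hm
    refine ⟨d, 0, 2 * p, ?_, ?_⟩
    · intro hp
      apply hs
      rw [h2]
      have : (2 * p).eval₂ c x = 0 := by rw [hp, eval₂_zero]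
      rwa [eval₂_mul, eval₂_ofNat] at this
    · rw [eval₂_mul, eval₂_ofNat, eval₂_zero, zero_mul, add_zero]
      linear_combination -z⁻¹ * h2 + d.eval₂ c x * hzi
  · have hN : (p ^ 2 - q ^ 2 * f).eval₂ c x =
        (p.eval₂ c x + q.eval₂ c x * y) * (p.eval₂ c x - q.eval₂ c x * y) := by
      simp only [eval₂_sub, eval₂_mul, eval₂_pow]
      linear_combination q.eval₂ c x ^ 2 * he
    refine ⟨d * p, -(d * q), p ^ 2 - q ^ 2 * f, ?_, ?_⟩
    · intro h3
      rw [h3, eval₂_zero, ← h] at hN
      exact mul_ne_zero hs hm hN.symm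
    · rw [hN]
      simp only [eval₂_neg, eval₂_mul]
      linear_combination -(p.eval₂ c x - q.eval₂ c x * y) * z⁻¹ * h +
        d.eval₂ c x * (p.eval₂ c x - q.eval₂ c x * y) * hzi

/-- The field of fractions of a ring of elements of `k(x) + k(x) y`. -/
theorem quad_of [CharZero k] {R : Type} [CommRing R] [IsDomain R] [Algebra R K]
    [IsFractionRing R K] (he : y ^ 2 = f.eval₂ c x)
    (tr : Function.Injective (Polynomial.eval₂RingHom c x))
    (hR : ∀ r : R, GG c x y (algebraMap R K r)) : Quad c x y f := by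
  refine ⟨he, tr, fun z => ?_⟩
  obtain ⟨r, s, hs, rfl⟩ := IsFractionRing.div_surjective (A := R) z
  have := (hR r).mul he ((hR s).inv he tr)
  rwa [← div_eq_mul_inv] at this

end field

/-- A vector of `k²` which is not a multiple of `v`. -/
lemma exists_not_mul {k : Type} [Field k] (v : Fin 2 → k) : ∃ w : Fin 2 → k, ∀ c : k, w ≠ c • v := by
  by_cases h : v 0 = 0
  · refine ⟨![1, 0], fun c hc => ?_⟩
    have := congrFun hc 0
    simp [h] at this
  · refine ⟨![0, 1], fun c hc => ?_⟩
    have h0 := congrFun hc 0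
    have h1 := congrFun hc 1
    simp only [Matrix.cons_val_zero, Matrix.cons_val_one, Pi.smul_apply, smul_eq_mul] at h0 h1
    have hc0 : c = 0 := by
      rcases mul_eq_zero.1 h0.symm with h2 | h2
      · exact h2
      · exact absurd h2 h
    rw [hc0, zero_mul] at h1
    exact one_ne_zero h1

/-- Two independent vectors generate `k²`. -/
lemma exists_comb {k : Type} [Field k] (v w : Fin 2 → k)
    (h : ∀ a b : k, a • v + b • w = 0 → a = 0 ∧ b = 0) (u : Fin 2 → k) :
    ∃ a b : k, u = a • v + b • w := by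
  have hd : v 0 * w 1 - v 1 * w 0 ≠ 0 := by
    intro hd
    have h1 := h (w 1) (-(v 1)) (by
      funext i
      fin_cases i
      · simp only [Fin.zero_eta, Pi.add_apply, Pi.smul_apply, smul_eq_mul, Pi.zero_apply]
        linear_combination hd
      · simp only [Fin.mk_one, Pi.add_apply, Pi.smul_apply, smul_eq_mul, Pi.zero_apply]
        ring)
    have h2 := h (w 0) (-(v 0)) (by
      funext i
      fin_cases i
      · simp only [Fin.zero_eta, Pi.add_apply, Pi.smul_apply, smul_eq_mul, Pi.zero_apply]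
        ring
      · simp only [Fin.mk_one, Pi.add_apply, Pi.smul_apply, smul_eq_mul, Pi.zero_apply]
        linear_combination -hd)
    have hv : v = 0 := by
      funext i
      fin_cases i
      · simpa using h2.2
      · simpa using h1.2
    have h3 := h 1 0 (by rw [hv, smul_zero, zero_smul, add_zero])
    exact one_ne_zero h3.1
  refine ⟨(u 0 * w 1 - u 1 * w 0) / (v 0 * w 1 - v 1 * w 0),
    (v 0 * u 1 - v 1 * u 0) / (v 0 * w 1 - v 1 * w 0), ?_⟩
  funext i
  fin_cases i
  · simp only [Fin.zero_eta, Pi.add_apply, Pi.smul_apply, smul_eq_mul]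
    rw [div_mul_eq_mul_div, div_mul_eq_mul_div, ← add_div, eq_div_iff hd]
    ring
  · simp only [Fin.mk_one, Pi.add_apply, Pi.smul_apply, smul_eq_mul]
    rw [div_mul_eq_mul_div, div_mul_eq_mul_div, ← add_div, eq_div_iff hd]
    ring

end EPD

end Pool.Agent.MG.H2
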