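import Pool.Agent.MG.H2.EPD0

/-!
# Point data of genus two: pole orders
-/

open Polynomial

namespace Pool.Agent.MG.H2

namespace PD

variable {k R1 R2 R12 : Type} [Field k] [CommRing R1] [CommRing R2] [CommRing R12]
  (D : PD k R1 R2 R12)

/-- `r` has a pole of order at most `n`, with leading coefficient `c`. -/
def Ord (n : ℕ) (r : R1) (c : k) : Prop := ∃ s, D.j2 D.z ^ n * D.j1 r = D.j2 s ∧ D.ev s = c

variable {D}

lemma zn (n : ℕ) : D.j2 D.z ^ n * D.zi ^ n = 1 := by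
  rw [← mul_pow, D.hz, one_pow]

lemma cancel {a b : R12} (h : D.j2 D.z * a = D.j2 D.z * b) : a = b := by
  have h1 : D.zi * D.j2 D.z = 1 := by rw [mul_comm, D.hz]
  calc a = D.zi * D.j2 D.z * a := by rw [h1, one_mul]
    _ = D.zi * D.j2 D.z * b := by rw [mul_assoc, h, mul_assoc]
    _ = b := by rw [h1, one_mul]

lemma Ord.uniq {n : ℕ} {r : R1} {c c' : k} (h : D.Ord n r c) (h' : D.Ord n r c') : c = c' := by
  obtain ⟨s, h1, h2⟩ := h
  obtain ⟨s', h1', h2'⟩ := h'
  rw [← h2, ← h2', D.inj2 (h1.symm.trans h1')]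

lemma Ord.add {n : ℕ} {r r' : R1} {c c' : k} (h : D.Ord n r c) (h' : D.Ord n r' c') :
    D.Ord n (r + r') (c + c') := by
  obtain ⟨s, h1, h2⟩ := h
  obtain ⟨s', h1', h2'⟩ := h'
  exact ⟨s + s', by rw [map_add, map_add, mul_add, h1, h1'], by rw [map_add, h2, h2']⟩

lemma Ord.mul {n m : ℕ} {r r' : R1} {c c' : k} (h : D.Ord n r c) (h' : D.Ord m r' c') :
    D.Ord (n + m) (r * r') (c * c') := by
  obtain ⟨s, h1, h2⟩ := h
  obtain ⟨s', h1', h2'⟩ := h'
  exact ⟨s * s', by rw [map_mul, map_mul, ← h1, ← h1', pow_add]; ring, by rw [map_mul, h2, h2']⟩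

lemma ord_const (c : k) : D.Ord 0 (D.c1 c) c :=
  ⟨D.c2 c, by rw [pow_zero, one_mul, D.jc1, D.jc2], D.evc c⟩

lemma ord_one : D.Ord 0 1 1 := by
  have := ord_const (D := D) 1
  rwa [map_one] at this

lemma Ord.smul {n : ℕ} {r : R1} {c : k} (h : D.Ord n r c) (d : k) :
    D.Ord n (D.c1 d * r) (d * c) := by
  have := (ord_const d).mul h
  rwa [zero_add] at this

lemma Ord.neg {n : ℕ} {r : R1} {c : k} (h : D.Ord n r c) : D.Ord n (-r) (-c) := by
  have := h.smul (-1)
  rwa [map_neg, map_one, neg_one_mul, neg_one_mul] at this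

lemma Ord.sub {n : ℕ} {r r' : R1} {c c' : k} (h : D.Ord n r c) (h' : D.Ord n r' c') :
    D.Ord n (r - r') (c - c') := by
  have := h.add h'.neg
  rwa [← sub_eq_add_neg, ← sub_eq_add_neg] at this

lemma Ord.pow {n : ℕ} {r : R1} {c : k} (h : D.Ord n r c) (m : ℕ) :
    D.Ord (n * m) (r ^ m) (c ^ m) := by
  induction m with
  | zero => simpa using ord_one (D := D)
  | succ m ih =>
    rw [pow_succ, pow_succ, Nat.mul_succ]
    exact ih.mul h

lemma Ord.succ {n : ℕ} {r : R1} {c : k} (h : D.Ord n r c) : D.Ord (n + 1) r 0 := by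
  obtain ⟨s, h1, h2⟩ := h
  exact ⟨D.z * s, by rw [pow_succ, map_mul, ← h1]; ring, by rw [map_mul, D.evz, zero_mul]⟩

lemma Ord.mono {n m : ℕ} {r : R1} {c : k} (h : D.Ord n r c) (hnm : n < m) : D.Ord m r 0 := by
  induction m, hnm using Nat.le_induction with
  | base => exact h.succ
  | succ m _ ih => exact ih.succ

lemma Ord.pred {n : ℕ} {r : R1} (h : D.Ord (n + 1) r 0) : ∃ c, D.Ord n r c := by
  obtain ⟨s, h1, h2⟩ := h
  obtain ⟨s', rfl⟩ := D.evk s h2
  refine ⟨D.ev s', s', ?_, rfl⟩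
  apply cancel (D := D)
  rw [← map_mul, ← h1, pow_succ]
  ring

lemma ord_exists (r : R1) : ∃ n c, D.Ord n r c := by
  obtain ⟨n, s, h⟩ := D.loc (D.j1 r)
  exact ⟨n, D.ev s, s, h, rfl⟩

lemma Ord.eq_const {r : R1} {c : k} (h : D.Ord 0 r c) : r = D.c1 c := by
  obtain ⟨s, h1, h2⟩ := h
  rw [pow_zero, one_mul] at h1
  obtain ⟨d, rfl⟩ := D.h0 r s h1
  rw [D.jc1, ← D.jc2] at h1
  rw [← h2, ← D.inj2 h1, D.evc]

lemma exists_lead {r : R1} (hr : r ≠ 0) : ∃ n c, c ≠ 0 ∧ D.Ord n r c := by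
  obtain ⟨n, c, h⟩ := ord_exists (D := D) r
  induction n generalizing c with
  | zero =>
    refine ⟨0, c, ?_, h⟩
    rintro rfl
    apply hr
    rw [h.eq_const, map_zero]
  | succ n ih =>
    by_cases hc : c = 0
    · subst hc
      obtain ⟨c', h'⟩ := h.pred
      exact ih c' h'
    · exact ⟨n + 1, c, hc, h⟩

lemma Ord.lt {n m : ℕ} {r : R1} {c c' : k} (h : D.Ord n r c) (h' : D.Ord m r c') (hc' : c' ≠ 0) :
    m ≤ n := by
  by_contra hcon
  exact hc' (h'.uniq (h.mono (not_le.1 hcon)))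

lemma Ord.eq {n m : ℕ} {r : R1} {c c' : k} (h : D.Ord n r c) (h' : D.Ord m r c') (hc : c ≠ 0)
    (hc' : c' ≠ 0) : n = m :=
  le_antisymm (h'.lt h hc) (h.lt h' hc')

lemma ord_zero (n : ℕ) : D.Ord n 0 0 := ⟨0, by simp, map_zero _⟩

/-- There are no functions with a simple pole. -/
lemma no_one {r : R1} {c : k} (h : D.Ord 1 r c) : c = 0 := by
  by_contra hc
  have h1 : D.Ord 1 (D.c1 c⁻¹ * r) 1 := by
    have := h.smul c⁻¹
    rwa [inv_mul_cancel₀ hc] at this
  set f := D.c1 c⁻¹ * r with hf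
  have key : ∀ (n : ℕ) (s : R2) (t : R12), D.j2 D.z ^ n * t = D.j2 s →
      ∃ a b, t = D.j1 a + D.j2 b := by
    intro n
    induction n with
    | zero =>
      intro s t ht
      exact ⟨0, s, by rw [pow_zero, one_mul] at ht; rw [map_zero, zero_add, ht]⟩
    | succ n ih =>
      intro s t ht
      obtain ⟨u, hu1, hu2⟩ := h1.pow (n + 1)
      rw [one_mul] at hu1
      rw [one_pow] at hu2
      obtain ⟨s', hs'⟩ := D.evk (s - D.c2 (D.ev s) * u) (by
        rw [map_sub, map_mul, D.evc, hu2, mul_one, sub_self])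
      obtain ⟨a, b, hab⟩ := ih s' (t - D.j1 (D.c1 (D.ev s) * f ^ (n + 1))) (by
        apply cancel (D := D)
        have e1 : D.j2 (D.c2 (D.ev s) * u) =
            D.c12 (D.ev s) * (D.j2 D.z ^ (n + 1) * D.j1 (f ^ (n + 1))) := by
          rw [map_mul, D.jc2, hu1]
        have e2 : D.j1 (D.c1 (D.ev s) * f ^ (n + 1)) = D.c12 (D.ev s) * D.j1 (f ^ (n + 1)) := by
          rw [map_mul, D.jc1]
        rw [← map_mul, ← hs', map_sub, ← ht, e1, e2, pow_succ]
        ring)
      refine ⟨a + D.c1 (D.ev s) * f ^ (n + 1), b, ?_⟩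
      rw [map_add]
      linear_combination hab
  obtain ⟨t, ht⟩ := D.Ls ![1, 0]
  obtain ⟨n, s, hs⟩ := D.loc t
  have h3 := (D.L0 t).2 (key n s t hs)
  rw [ht] at h3
  have h4 := congrFun h3 0
  simp at h4

lemma Ord.cast {n m : ℕ} {r : R1} {c : k} (h : D.Ord n r c) (hn : n = m) : D.Ord m r c := hn ▸ h

lemma Ord.red {n : ℕ} {r m : R1} {c : k} (h : D.Ord (n + 1) r c) (hm : D.Ord (n + 1) m 1) :
    ∃ c', D.Ord n (r - D.c1 c * m) c' := by
  have := h.sub (hm.smul c)
  rw [mul_one, sub_self] at this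
  exact this.pred

lemma ord_sum {n : ℕ} {ι : Type} (s : Finset ι) (f : ι → R1) (h : ∀ i ∈ s, D.Ord n (f i) 0) :
    D.Ord n (∑ i ∈ s, f i) 0 := by
  classical
  induction s using Finset.induction_on with
  | empty => simpa using ord_zero (D := D) n
  | insert a s ha ih =>
    rw [Finset.sum_insert ha]
    have := (h a (Finset.mem_insert_self _ _)).add (ih fun i hi => h i (Finset.mem_insert_of_mem hi))
    rwa [add_zero] at this


/-- Functions with a given principal part. -/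
lemma of_L0 {n : ℕ} (hn : 1 ≤ n) {t : R12} {s : R2} (h : D.j2 D.z ^ n * t = D.j2 s)
    (hL : D.L t = 0) : ∃ a, D.Ord n a (D.ev s) := by
  obtain ⟨m, rfl⟩ : ∃ m, n = m + 1 := ⟨n - 1, by omega⟩
  obtain ⟨a, b, rfl⟩ := (D.L0 t).1 hL
  refine ⟨a, s - D.z ^ (m + 1) * b, ?_, ?_⟩
  · rw [map_sub, ← h, map_mul, map_pow]
    ring
  · rw [map_sub, map_mul, map_pow, D.evz, pow_succ, mul_zero, zero_mul, sub_zero]

lemma L_zero : D.L 0 = 0 := (D.L0 0).2 ⟨0, 0, by simp⟩

lemma L_sub (r s : R12) : D.L (r - s) = D.L r - D.L s := by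
  have h := D.Ladd (r - s) s
  rw [sub_add_cancel] at h
  rw [h, add_sub_cancel_right]

lemma L_zi : D.L D.zi ≠ 0 := by
  intro h
  obtain ⟨a, ha⟩ := of_L0 (D := D) (n := 1) le_rfl (t := D.zi) (s := 1) (by
    rw [pow_one, D.hz, map_one]) h
  rw [map_one] at ha
  exact one_ne_zero (no_one ha)

/-- If `g` is a gap then all greater numbers are pole orders. -/
theorem exists_of_gap {g : ℕ} (hg : 2 ≤ g) (hgap : ∀ r c, D.Ord g r c → c = 0) {n : ℕ}
    (hn : g < n) : ∃ r, D.Ord n r 1 := by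
  have hind : ∀ a b : k, a • D.L D.zi + b • D.L (D.zi ^ g) = 0 → a = 0 ∧ b = 0 := by
    intro a b hab
    have hb : b = 0 := by
      by_contra hb
      have hL : D.L (D.zi ^ g + D.c12 (b⁻¹ * a) * D.zi) = 0 := by
        rw [D.Ladd, D.Lc]
        have : D.L (D.zi ^ g) + (b⁻¹ * a) • D.L D.zi =
            b⁻¹ • (a • D.L D.zi + b • D.L (D.zi ^ g)) := by
          rw [smul_add, smul_smul, smul_smul, inv_mul_cancel₀ hb, one_smul, add_comm]
        rw [this, hab, smul_zero]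
      obtain ⟨m, rfl⟩ : ∃ m, g = m + 1 := ⟨g - 1, by omega⟩
      obtain ⟨r, hr⟩ := of_L0 (D := D) (n := m + 1) (by omega)
        (s := 1 + D.c2 (b⁻¹ * a) * D.z ^ m) (by
          have h1 := zn (D := D) (m + 1)
          have h2 := D.hz
          have h3 : D.j2 (1 + D.c2 (b⁻¹ * a) * D.z ^ m) =
              1 + D.c12 (b⁻¹ * a) * D.j2 D.z ^ m := by
            rw [map_add, map_one, D.j2.map_mul, D.jc2, map_pow]
          rw [h3, mul_add, h1, pow_succ]
          linear_combination D.j2 D.z ^ m * D.c12 (b⁻¹ * a) * h2) hL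
      have h3 := hgap r _ hr
      rw [map_add, map_one, map_mul, map_pow, D.evz, zero_pow (by omega), mul_zero,
        add_zero] at h3
      exact one_ne_zero h3
    subst hb
    rw [zero_smul, add_zero] at hab
    refine ⟨?_, rfl⟩
    exact (smul_eq_zero.1 hab).resolve_right L_zi
  obtain ⟨a, b, hab⟩ := EPD.exists_comb _ _ hind (D.L (D.zi ^ n))
  have hL : D.L (D.zi ^ n - D.c12 a * D.zi - D.c12 b * D.zi ^ g) = 0 := by
    rw [L_sub, L_sub, D.Lc, D.Lc, hab]
    abel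
  obtain ⟨i, rfl⟩ := Nat.exists_eq_add_of_lt hn
  obtain ⟨r, hr⟩ := of_L0 (D := D) (n := g + i + 1) (by omega)
    (s := 1 - D.c2 a * D.z ^ (g + i) - D.c2 b * D.z ^ (i + 1)) (by
      have h1 := zn (D := D) (g + i + 1)
      have h2 := D.hz
      have h3 := zn (D := D) g
      simp only [map_sub, map_one, map_mul, D.jc2, map_pow]
      rw [mul_sub, mul_sub, h1]
      have e1 : D.j2 D.z ^ (g + i + 1) * (D.c12 a * D.zi) =
          D.c12 a * D.j2 D.z ^ (g + i) := by
        rw [pow_succ]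
        linear_combination D.j2 D.z ^ (g + i) * D.c12 a * h2
      have e2 : D.j2 D.z ^ (g + i + 1) * (D.c12 b * D.zi ^ g) =
          D.c12 b * D.j2 D.z ^ (i + 1) := by
        have : g + i + 1 = g + (i + 1) := by ring
        rw [this, pow_add]
        linear_combination D.j2 D.z ^ (i + 1) * D.c12 b * h3
      rw [e1, e2]) hL
  refine ⟨r, ?_⟩
  have h4 : D.ev (1 - D.c2 a * D.z ^ (g + i) - D.c2 b * D.z ^ (i + 1)) = 1 := by
    simp only [map_sub, map_one, map_mul, map_pow, D.evz]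
    rw [zero_pow (by omega), zero_pow (by omega)]
    ring
  rwa [h4] at hr

/-- There is a second gap. -/
theorem not_all {f : ℕ → R1} (hf : ∀ n, D.Ord (n + 2) (f n) 1) : False := by
  have key : ∀ (n : ℕ) (s : R2) (t : R12), D.j2 D.z ^ n * t = D.j2 s →
      ∃ a b c, t = D.j1 a + D.j2 b + D.c12 c * D.zi := by
    intro n
    induction n with
    | zero =>
      intro s t ht
      exact ⟨0, s, 0, by
        rw [pow_zero, one_mul] at ht
        rw [map_zero, map_zero, zero_add, zero_mul, add_zero, ht]⟩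
    | succ n ih =>
      intro s t ht
      rcases n with _ | n
      · obtain ⟨s', hs'⟩ := D.evk (s - D.c2 (D.ev s)) (by
          rw [map_sub, D.evc, sub_self])
        refine ⟨0, s', D.ev s, ?_⟩
        rw [map_zero, zero_add, ← sub_eq_iff_eq_add]
        apply cancel (D := D)
        rw [← map_mul, ← hs', map_sub, ← ht, D.jc2]
        have h2 := D.hz
        linear_combination -D.c12 (D.ev s) * h2
      · obtain ⟨u, hu1, hu2⟩ := hf n
        obtain ⟨s', hs'⟩ := D.evk (s - D.c2 (D.ev s) * u) (by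
          rw [map_sub, map_mul, D.evc, hu2, mul_one, sub_self])
        obtain ⟨a, b, c, hab⟩ := ih s' (t - D.j1 (D.c1 (D.ev s) * f n)) (by
          apply cancel (D := D)
          have e1 : D.j2 (D.c2 (D.ev s) * u) =
              D.c12 (D.ev s) * (D.j2 D.z ^ (n + 2) * D.j1 (f n)) := by
            rw [map_mul, D.jc2, hu1]
          have e2 : D.j1 (D.c1 (D.ev s) * f n) = D.c12 (D.ev s) * D.j1 (f n) := by
            rw [map_mul, D.jc1]
          rw [← map_mul, ← hs', map_sub, ← ht, e1, e2]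
          ring)
        refine ⟨a + D.c1 (D.ev s) * f n, b, c, ?_⟩
        rw [map_add]
        linear_combination hab
  obtain ⟨w, hw⟩ := EPD.exists_not_mul (D.L D.zi)
  obtain ⟨t, ht⟩ := D.Ls w
  obtain ⟨n, s, hs⟩ := D.loc t
  obtain ⟨a, b, c, hab⟩ := key n s t hs
  apply hw c
  rw [← ht, hab, D.Ladd, D.Lc, (D.L0 _).2 ⟨a, b, rfl⟩, zero_add]

end PD

end Pool.Agent.MG.H2
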