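import Pool.Agent.MG.H2.EPD1

/-!
# Point data of genus two: two is a pole order
-/

open Polynomial

namespace Pool.Agent.MG.H2

namespace PD

variable {k R1 R2 R12 : Type} [Field k] [CommRing R1] [CommRing R2] [CommRing R12]
  {D : PD k R1 R2 R12}

lemma ord_poly {m : ℕ} (hm : 1 ≤ m) {x : R1} (hx : D.Ord m x 1) (p : k[X]) :
    D.Ord (m * p.natDegree) (p.eval₂ D.c1 x) p.leadingCoeff := by
  rw [Polynomial.eval₂_eq_sum_range, Finset.sum_range_succ]
  have h1 : ∀ i, D.Ord (m * i) (D.c1 (p.coeff i) * x ^ i) (p.coeff i) := by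
    intro i
    have := (hx.pow i).smul (p.coeff i)
    rwa [one_pow, mul_one] at this
  have := (ord_sum (Finset.range p.natDegree) (fun i => D.c1 (p.coeff i) * x ^ i)
    (fun i hi => (h1 i).mono (by
      rw [Finset.mem_range] at hi
      exact Nat.mul_lt_mul_of_pos_left hi (by omega)))).add (h1 p.natDegree)
  rwa [zero_add] at this

lemma poly_inj {m : ℕ} (hm : 1 ≤ m) {x : R1} (hx : D.Ord m x 1) (p : k[X])
    (h : p.eval₂ D.c1 x = 0) : p = 0 := by
  by_contra hp
  have h1 := ord_poly hm hx p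
  rw [h] at h1
  exact Polynomial.leadingCoeff_ne_zero.2 hp (h1.uniq (ord_zero _))

/-- If 2 is a pole order then 3 is a gap. -/
theorem gap3 {x : R1} (hx : D.Ord 2 x 1) : ∀ r c, D.Ord 3 r c → c = 0 := by
  intro r c h
  by_contra hc
  have hr : D.Ord 3 (D.c1 c⁻¹ * r) 1 := by
    have := h.smul c⁻¹
    rwa [inv_mul_cancel₀ hc] at this
  refine not_all (D := D) (f := fun n => if n % 2 = 0 then x ^ (n / 2 + 1) else
    x ^ ((n - 1) / 2) * (D.c1 c⁻¹ * r)) fun n => ?_
  split_ifs with h2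
  · have := (hx.pow (n / 2 + 1)).cast (m := n + 2) (by omega)
    rwa [one_pow] at this
  · have := ((hx.pow ((n - 1) / 2)).mul hr).cast (m := n + 2) (by omega)
    rwa [one_pow, mul_one] at this

theorem spanA {x y : R1} (hx : D.Ord 2 x 1) (hy : D.Ord 5 y 1) (n : ℕ) :
    ∀ (r : R1) (c : k), D.Ord n r c → ∃ p q : k[X], r = p.eval₂ D.c1 x + q.eval₂ D.c1 x * y := by
  induction n using Nat.strong_induction_on with
  | _ n ih =>
    intro r c h
    by_cases h0 : n = 0
    · subst h0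
      refine ⟨C c, 0, ?_⟩
      rw [h.eq_const]
      simp
    by_cases h1 : n = 1
    · subst h1
      have hc := no_one h
      subst hc
      obtain ⟨c', h'⟩ := h.pred
      exact ih 0 (by omega) r c' h'
    by_cases h3 : n = 3
    · subst h3
      have hc := gap3 hx r c h
      subst hc
      obtain ⟨c', h'⟩ := h.pred
      exact ih 2 (by omega) r c' h'
    obtain ⟨n, rfl⟩ : ∃ m, n = m + 1 := ⟨n - 1, by omega⟩
    rcases Nat.even_or_odd' (n + 1) with ⟨i, hi | hi⟩
    · have hm : D.Ord (n + 1) (x ^ i) 1 := by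
        have := (hx.pow i).cast (show 2 * i = n + 1 by omega)
        rwa [one_pow] at this
      obtain ⟨c', h'⟩ := Ord.red (n := n) h hm
      obtain ⟨p, q, hpq⟩ := ih n (by omega) _ c' h'
      refine ⟨p + C c * X ^ i, q, ?_⟩
      simp only [eval₂_add, eval₂_mul, eval₂_C, eval₂_X_pow]
      linear_combination hpq
    · have hm : D.Ord (n + 1) (x ^ (i - 2) * y) 1 := by
        have := ((hx.pow (i - 2)).mul hy).cast (show 2 * (i - 2) + 5 = n + 1 by omega)
        rwa [one_pow, mul_one] at this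
      obtain ⟨c', h'⟩ := Ord.red (n := n) h hm
      obtain ⟨p, q, hpq⟩ := ih n (by omega) _ c' h'
      refine ⟨p, q + C c * X ^ (i - 2), ?_⟩
      simp only [eval₂_add, eval₂_mul, eval₂_C, eval₂_X_pow]
      linear_combination hpq

/-- Case A: there is a function with a double pole. -/
theorem caseA [CharZero k] {x : R1} (hx : D.Ord 2 x 1) : ∃ (y : R1) (f : k[X]),
    y ^ 2 = f.eval₂ D.c1 x ∧ (∀ p : k[X], p.eval₂ D.c1 x = 0 → p = 0) ∧
      ∀ r : R1, ∃ p q : k[X], r = p.eval₂ D.c1 x + q.eval₂ D.c1 x * y := by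
  obtain ⟨y, hy⟩ := exists_of_gap (D := D) (g := 3) (by norm_num) (gap3 hx)
    (show 3 < 5 by norm_num)
  have hspan : ∀ r : R1, ∃ p q : k[X], r = p.eval₂ D.c1 x + q.eval₂ D.c1 x * y := by
    intro r
    obtain ⟨n, c, hn⟩ := ord_exists (D := D) r
    exact spanA hx hy n r c hn
  obtain ⟨W, U, hUW⟩ := hspan (y ^ 2)
  have e2 : D.c1 2⁻¹ * 2 = 1 := by
    have : (2 : R1) = D.c1 2 := (map_ofNat D.c1 2).symm
    rw [this, ← map_mul, inv_mul_cancel₀ two_ne_zero, map_one]
  refine ⟨y - D.c1 2⁻¹ * U.eval₂ D.c1 x, W + C (2⁻¹ ^ 2) * U ^ 2, ?_,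
    poly_inj (by norm_num) hx, ?_⟩
  · simp only [eval₂_add, eval₂_mul, eval₂_pow, eval₂_C, map_pow]
    linear_combination hUW - U.eval₂ D.c1 x * y * e2
  · intro r
    obtain ⟨p, q, hpq⟩ := hspan r
    refine ⟨p + C 2⁻¹ * U * q, q, ?_⟩
    simp only [eval₂_add, eval₂_mul, eval₂_C]
    linear_combination hpq

end PD

end Pool.Agent.MG.H2
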