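import Pool.Agent.MG.H2.EPDA

/-!
# Point data of genus two: two is a gap
-/

open Polynomial

namespace Pool.Agent.MG.H2

namespace PD

variable {k R1 R2 R12 : Type} [Field k] [CommRing R1] [CommRing R2] [CommRing R12]
  {D : PD k R1 R2 R12}

lemma Ord.add_lt {n m : ℕ} {r r' : R1} {c c' : k} (h : D.Ord n r c) (h' : D.Ord m r' c')
    (hmn : m < n) : D.Ord n (r + r') c := by
  have := h.add (h'.mono hmn)
  rwa [add_zero] at this

lemma Ord.sub_lt {n m : ℕ} {r r' : R1} {c c' : k} (h : D.Ord n r c) (h' : D.Ord m r' c')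
    (hmn : m < n) : D.Ord n (r - r') c := by
  have := h.sub (h'.mono hmn)
  rwa [sub_zero] at this

section B

variable (hgap : ∀ (r : R1) (c : k), D.Ord 2 r c → c = 0) {s θ ψ : R1} (hs : D.Ord 3 s 1)
  (hθ : D.Ord 4 θ 1) (hψ : D.Ord 5 ψ 1)

include hgap

lemma lin2 {r : R1} {c : k} (h : D.Ord 2 r c) : ∃ c0, r = D.c1 c0 := by
  have hc := hgap r c h
  subst hc
  obtain ⟨c', h'⟩ := h.pred
  have hc := no_one h'
  subst hc
  obtain ⟨c0, h0⟩ := h'.pred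
  exact ⟨c0, h0.eq_const⟩

include hs

lemma lin3 {r : R1} {c : k} (h : D.Ord 3 r c) : ∃ c0, r = D.c1 c * s + D.c1 c0 := by
  obtain ⟨c', h'⟩ := Ord.red (n := 2) h hs
  obtain ⟨c0, h0⟩ := lin2 hgap h'
  exact ⟨c0, by linear_combination h0⟩

include hθ

lemma lin4 {r : R1} {c : k} (h : D.Ord 4 r c) :
    ∃ c3 c0, r = D.c1 c * θ + D.c1 c3 * s + D.c1 c0 := by
  obtain ⟨c', h'⟩ := Ord.red (n := 3) h hθ
  obtain ⟨c0, h0⟩ := lin3 hgap hs h'
  exact ⟨_, c0, by linear_combination h0⟩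

include hψ

lemma lin5 {r : R1} {c : k} (h : D.Ord 5 r c) :
    ∃ c4 c3 c0, r = D.c1 c * ψ + D.c1 c4 * θ + D.c1 c3 * s + D.c1 c0 := by
  obtain ⟨c', h'⟩ := Ord.red (n := 4) h hψ
  obtain ⟨c3, c0, h0⟩ := lin4 hgap hs hθ h'
  exact ⟨_, c3, c0, by linear_combination h0⟩

lemma lin6 {r : R1} {c : k} (h : D.Ord 6 r c) :
    ∃ c5 c4 c3 c0, r = D.c1 c * s ^ 2 + D.c1 c5 * ψ + D.c1 c4 * θ + D.c1 c3 * s + D.c1 c0 := by
  have hm : D.Ord (5 + 1) (s ^ 2) 1 := by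
    have := (hs.pow 2).cast (m := 5 + 1) (by norm_num)
    rwa [one_pow] at this
  obtain ⟨c', h'⟩ := Ord.red (n := 5) h hm
  obtain ⟨c4, c3, c0, h0⟩ := lin5 hgap hs hθ hψ h'
  exact ⟨_, c4, c3, c0, by linear_combination h0⟩

lemma lin7 {r : R1} {c : k} (h : D.Ord 7 r c) :
    ∃ c6 c5 c4 c3 c0, r = D.c1 c * (s * θ) + D.c1 c6 * s ^ 2 + D.c1 c5 * ψ + D.c1 c4 * θ +
      D.c1 c3 * s + D.c1 c0 := by
  have hm : D.Ord (6 + 1) (s * θ) 1 := by
    have := (hs.mul hθ).cast (m := 6 + 1) (by norm_num)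
    rwa [one_mul] at this
  obtain ⟨c', h'⟩ := Ord.red (n := 6) h hm
  obtain ⟨c5, c4, c3, c0, h0⟩ := lin6 hgap hs hθ hψ h'
  exact ⟨_, c5, c4, c3, c0, by linear_combination h0⟩

lemma lin8 {r : R1} {c : k} (h : D.Ord 8 r c) :
    ∃ c7 c6 c5 c4 c3 c0, r = D.c1 c * (s * ψ) + D.c1 c7 * (s * θ) + D.c1 c6 * s ^ 2 +
      D.c1 c5 * ψ + D.c1 c4 * θ + D.c1 c3 * s + D.c1 c0 := by
  have hm : D.Ord (7 + 1) (s * ψ) 1 := by
    have := (hs.mul hψ).cast (m := 7 + 1) (by norm_num)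
    rwa [one_mul] at this
  obtain ⟨c', h'⟩ := Ord.red (n := 7) h hm
  obtain ⟨c6, c5, c4, c3, c0, h0⟩ := lin7 hgap hs hθ hψ h'
  exact ⟨_, c6, c5, c4, c3, c0, by linear_combination h0⟩

lemma lin9 {r : R1} {c : k} (h : D.Ord 9 r c) :
    ∃ c8 c7 c6 c5 c4 c3 c0, r = D.c1 c * s ^ 3 + D.c1 c8 * (s * ψ) + D.c1 c7 * (s * θ) +
      D.c1 c6 * s ^ 2 + D.c1 c5 * ψ + D.c1 c4 * θ + D.c1 c3 * s + D.c1 c0 := by
  have hm : D.Ord (8 + 1) (s ^ 3) 1 := by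
    have := (hs.pow 3).cast (m := 8 + 1) (by norm_num)
    rwa [one_pow] at this
  obtain ⟨c', h'⟩ := Ord.red (n := 8) h hm
  obtain ⟨c7, c6, c5, c4, c3, c0, h0⟩ := lin8 hgap hs hθ hψ h'
  exact ⟨_, c7, c6, c5, c4, c3, c0, by linear_combination h0⟩

lemma lin10 {r : R1} {c : k} (h : D.Ord 10 r c) :
    ∃ c9 c8 c7 c6 c5 c4 c3 c0, r = D.c1 c * (s ^ 2 * θ) + D.c1 c9 * s ^ 3 +
      D.c1 c8 * (s * ψ) + D.c1 c7 * (s * θ) + D.c1 c6 * s ^ 2 + D.c1 c5 * ψ + D.c1 c4 * θ +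
      D.c1 c3 * s + D.c1 c0 := by
  have hm : D.Ord (9 + 1) (s ^ 2 * θ) 1 := by
    have := ((hs.pow 2).mul hθ).cast (m := 9 + 1) (by norm_num)
    rwa [one_pow, one_mul] at this
  obtain ⟨c', h'⟩ := Ord.red (n := 9) h hm
  obtain ⟨c8, c7, c6, c5, c4, c3, c0, h0⟩ := lin9 hgap hs hθ hψ h'
  exact ⟨_, c8, c7, c6, c5, c4, c3, c0, by linear_combination h0⟩

theorem spanB (n : ℕ) :
    ∀ (r : R1) (c : k), D.Ord n r c → ∃ p q t : k[X],
      r = p.eval₂ D.c1 s + q.eval₂ D.c1 s * θ + t.eval₂ D.c1 s * ψ := by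
  induction n using Nat.strong_induction_on with
  | _ n ih =>
    intro r c h
    by_cases h0 : n ≤ 2
    · obtain ⟨c', h'⟩ : ∃ c', D.Ord 2 r c' := by
        rcases h0.lt_or_eq with h1 | h1
        · exact ⟨0, h.mono h1⟩
        · exact ⟨c, h1 ▸ h⟩
      obtain ⟨c0, h0⟩ := lin2 hgap h'
      refine ⟨C c0, 0, 0, ?_⟩
      rw [h0]
      simp
    obtain ⟨n, rfl⟩ : ∃ m, n = m + 1 := ⟨n - 1, by omega⟩
    have h3 : (n + 1) % 3 = 0 ∨ (n + 1) % 3 = 1 ∨ (n + 1) % 3 = 2 := by omega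
    rcases h3 with h3 | h3 | h3
    · have hm : D.Ord (n + 1) (s ^ ((n + 1) / 3)) 1 := by
        have := (hs.pow ((n + 1) / 3)).cast (m := n + 1) (by omega)
        rwa [one_pow] at this
      obtain ⟨c', h'⟩ := Ord.red (n := n) h hm
      obtain ⟨p, q, t, hpq⟩ := ih n (by omega) _ c' h'
      refine ⟨p + C c * X ^ ((n + 1) / 3), q, t, ?_⟩
      simp only [eval₂_add, eval₂_mul, eval₂_C, eval₂_X_pow]
      linear_combination hpq
    · have hm : D.Ord (n + 1) (s ^ ((n - 3) / 3) * θ) 1 := by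
        have := ((hs.pow ((n - 3) / 3)).mul hθ).cast (m := n + 1) (by omega)
        rwa [one_pow, one_mul] at this
      obtain ⟨c', h'⟩ := Ord.red (n := n) h hm
      obtain ⟨p, q, t, hpq⟩ := ih n (by omega) _ c' h'
      refine ⟨p, q + C c * X ^ ((n - 3) / 3), t, ?_⟩
      simp only [eval₂_add, eval₂_mul, eval₂_C, eval₂_X_pow]
      linear_combination hpq
    · have hm : D.Ord (n + 1) (s ^ ((n - 4) / 3) * ψ) 1 := by
        have := ((hs.pow ((n - 4) / 3)).mul hψ).cast (m := n + 1) (by omega)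
        rwa [one_pow, one_mul] at this
      obtain ⟨c', h'⟩ := Ord.red (n := n) h hm
      obtain ⟨p, q, t, hpq⟩ := ih n (by omega) _ c' h'
      refine ⟨p, q, t + C c * X ^ ((n - 4) / 3), ?_⟩
      simp only [eval₂_add, eval₂_mul, eval₂_C, eval₂_X_pow]
      linear_combination hpq

/-- Change of `θ` and `ψ` so that `θ ψ` is a polynomial in `s`. -/
theorem normal : ∃ (θ' ψ' : R1) (n2 n1 n0 : k), D.Ord 4 θ' 1 ∧ D.Ord 5 ψ' 1 ∧
    θ' * ψ' = s ^ 3 + D.c1 n2 * s ^ 2 + D.c1 n1 * s + D.c1 n0 := by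
  have h9 : D.Ord 9 (θ * ψ) 1 := by
    have := (hθ.mul hψ).cast (m := 9) (by norm_num)
    rwa [one_mul] at this
  obtain ⟨c8, c7, c6, c5, c4, c3, c0, h⟩ := lin9 hgap hs hθ hψ h9
  rw [map_one] at h
  refine ⟨θ - (D.c1 c8 * s + D.c1 c5), ψ - (D.c1 c7 * s + D.c1 c4), c6 + c8 * c7,
    c3 + c8 * c4 + c5 * c7, c0 + c5 * c4, ?_, ?_, ?_⟩
  · exact hθ.sub_lt ((hs.smul c8).add_lt (ord_const c5) (by norm_num)) (by norm_num)
  · exact hψ.sub_lt ((hs.smul c7).add_lt (ord_const c4) (by norm_num)) (by norm_num)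
  · simp only [map_add, map_mul]
    linear_combination h

end B

lemma lead2 {s θ : R1} (hs : D.Ord 3 s 1) (hθ : D.Ord 4 θ 1) (p q : k[X])
    (h : p ≠ 0 ∨ q ≠ 0) : ∃ n c, c ≠ 0 ∧ n % 3 ≠ 2 ∧
      D.Ord n (p.eval₂ D.c1 s + q.eval₂ D.c1 s * θ) c := by
  have h1 := ord_poly (by norm_num) hs p
  have h2 := (ord_poly (by norm_num) hs q).mul hθ
  rw [mul_one] at h2
  have hlp : p ≠ 0 → p.leadingCoeff ≠ 0 := fun h => Polynomial.leadingCoeff_ne_zero.2 h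
  have hlq : q ≠ 0 → q.leadingCoeff ≠ 0 := fun h => Polynomial.leadingCoeff_ne_zero.2 h
  by_cases hp : p = 0
  · subst hp
    have hq : q ≠ 0 := h.resolve_left (fun h => h rfl)
    refine ⟨3 * q.natDegree + 4, q.leadingCoeff, hlq hq, by omega, ?_⟩
    rw [eval₂_zero, zero_add]
    exact h2
  by_cases hq : q = 0
  · subst hq
    refine ⟨3 * p.natDegree, p.leadingCoeff, hlp hp, by omega, ?_⟩
    rw [eval₂_zero, zero_mul, add_zero]
    exact h1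
  rcases lt_or_ge (3 * p.natDegree) (3 * q.natDegree + 4) with h3 | h3
  · refine ⟨3 * q.natDegree + 4, q.leadingCoeff, hlq hq, by omega, ?_⟩
    rw [add_comm (p.eval₂ D.c1 s)]
    exact h2.add_lt h1 h3
  · exact ⟨3 * p.natDegree, p.leadingCoeff, hlp hp, by omega, h1.add_lt h2 (by omega)⟩

theorem indepB {s θ ψ : R1} (hs : D.Ord 3 s 1) (hθ : D.Ord 4 θ 1) (hψ : D.Ord 5 ψ 1)
    (p q t : k[X]) (h : p.eval₂ D.c1 s + q.eval₂ D.c1 s * θ + t.eval₂ D.c1 s * ψ = 0) :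
    p = 0 ∧ q = 0 ∧ t = 0 := by
  have h3 := (ord_poly (by norm_num) hs t).mul hψ
  rw [mul_one] at h3
  by_contra hcon
  by_cases hpq : p ≠ 0 ∨ q ≠ 0
  · obtain ⟨n, c, hc, hn, h4⟩ := lead2 hs hθ p q hpq
    have e : p.eval₂ D.c1 s + q.eval₂ D.c1 s * θ = -(t.eval₂ D.c1 s * ψ) := by
      linear_combination h
    rw [e] at h4
    by_cases ht : t = 0
    · subst ht
      rw [eval₂_zero, zero_mul, neg_zero] at h4
      exact hc (h4.uniq (ord_zero _))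
    · have := h4.eq h3.neg hc (neg_ne_zero.2 (Polynomial.leadingCoeff_ne_zero.2 ht))
      omega
  · push Not at hpq
    obtain ⟨rfl, rfl⟩ := hpq
    rw [eval₂_zero, zero_mul, zero_add, zero_add] at h
    apply hcon
    refine ⟨rfl, rfl, ?_⟩
    by_contra ht
    rw [h] at h3
    exact Polynomial.leadingCoeff_ne_zero.2 ht (h3.uniq (ord_zero _))

end PD

end Pool.Agent.MG.H2
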