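import Pool.Agent.MG.Two2.AlgDefs

/-!
# Polynomials of degree at most six without double roots on the projective line
-/

open Polynomial

namespace Pool.Agent.MG.Two2

theorem isCoprime_iff_pts {B : Type} [CommRing B] (p q : B[X]) :
    IsCoprime p q ↔ ∀ (K : Type) [Field K] (ψ : B →+* K) (a : K),
      ¬(p.eval₂ ψ a = 0 ∧ q.eval₂ ψ a = 0) := by
  constructor
  · rintro ⟨u, v, h⟩ K _ ψ a ⟨h1, h2⟩
    have := congrArg (eval₂ ψ a) h
    rw [eval₂_add, eval₂_mul, eval₂_mul, h1, h2, mul_zero, mul_zero, add_zero, eval₂_one] at this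
    exact zero_ne_one this
  · intro h
    by_contra hc
    have hne : Ideal.span {p, q} ≠ ⊤ := by
      intro ht
      have h1 : (1 : B[X]) ∈ Ideal.span {p, q} := by rw [ht]; trivial
      obtain ⟨u, v, huv⟩ := Ideal.mem_span_pair.1 h1
      exact hc ⟨u, v, huv⟩
    obtain ⟨m, hm, hle⟩ := Ideal.exists_le_maximal _ hne
    letI : Field (B[X] ⧸ m) := Ideal.Quotient.field m
    have key : ∀ r : B[X], eval₂ ((Ideal.Quotient.mk m).comp C) (Ideal.Quotient.mk m X) r =
        Ideal.Quotient.mk m r := by
      intro r
      rw [← Polynomial.hom_eval₂, eval₂_C_X]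
    refine h (B[X] ⧸ m) ((Ideal.Quotient.mk m).comp C) (Ideal.Quotient.mk m X) ⟨?_, ?_⟩
    · rw [key, Ideal.Quotient.eq_zero_iff_mem]
      exact hle (Ideal.subset_span (by simp))
    · rw [key, Ideal.Quotient.eq_zero_iff_mem]
      exact hle (Ideal.subset_span (by simp))

theorem X_mul_derivative_reflect {B : Type} [CommRing B] (g : B[X]) (hg : g.natDegree ≤ 6) :
    X * derivative (g.reflect 6) = C 6 * g.reflect 6 - (X * derivative g).reflect 6 := by
  ext n
  rw [coeff_sub, coeff_C_mul, coeff_reflect, coeff_reflect]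
  by_cases hn : n ≤ 6
  · rw [revAt_le hn]
    rcases n with _ | n
    · rw [mul_coeff_zero, coeff_X_zero, zero_mul]
      rw [show 6 - 0 = 5 + 1 from rfl, coeff_X_mul, coeff_derivative]
      push_cast
      ring
    · rw [coeff_X_mul, coeff_derivative, coeff_reflect, revAt_le hn]
      obtain ⟨m, hm⟩ : ∃ m, 6 - (n + 1) = m := ⟨_, rfl⟩
      have hn6 : (n : B) + 1 = 6 - m := by
        have : n + 1 + m = 6 := by omega
        have h2 : ((n + 1 + m : ℕ) : B) = 6 := by rw [this]; norm_num
        push_cast at h2
        rw [← h2]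
        ring
      rw [hm, hn6]
      rcases m with _ | m
      · rw [mul_coeff_zero, coeff_X_zero, zero_mul]
        push_cast
        ring
      · rw [coeff_X_mul, coeff_derivative]
        push_cast
        ring
  · have h1 : revAt 6 n = n := revAt_eq_self_of_lt (by omega)
    rw [h1]
    obtain ⟨n, rfl⟩ : ∃ k, n = k + 1 := ⟨n - 1, by omega⟩
    rw [coeff_X_mul, coeff_X_mul, coeff_derivative, coeff_derivative, coeff_reflect, h1,
      coeff_eq_zero_of_natDegree_lt (by omega)]
    ring

theorem good_iff {B : Type} [CommRing B] (f : B[X]) :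
    Good f ↔ f.natDegree ≤ 6 ∧ ∀ (K : Type) [Field K] (ψ : B →+* K),
      5 ≤ (f.map ψ).natDegree ∧ (f.map ψ).Separable := by
  constructor
  · intro h
    refine ⟨h.deg, fun K _ ψ => ⟨?_, ?_⟩⟩
    · by_contra hlt
      have h6 : ψ (f.coeff 6) = 0 := by
        rw [← coeff_map]
        exact coeff_eq_zero_of_natDegree_lt (by omega)
      have h5 : ψ (f.coeff 5) = 0 := by
        rw [← coeff_map]
        exact coeff_eq_zero_of_natDegree_lt (by omega)
      refine (isCoprime_iff_pts _ _).1 h.cop' K ψ 0 ⟨?_, ?_⟩
      · rw [← eval_map, ← coeff_zero_eq_eval_zero, coeff_map, coeff_reflect]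
        exact h6
      · rw [← eval_map, ← coeff_zero_eq_eval_zero, coeff_map, coeff_derivative, coeff_reflect,
          map_mul]
        rw [show revAt 6 (0 + 1) = 5 from rfl, h5, zero_mul]
    · have := h.cop.map (mapRingHom ψ)
      rw [coe_mapRingHom, ← derivative_map] at this
      exact this
  · rintro ⟨hd, h⟩
    refine ⟨hd, ?_, ?_⟩
    · rw [isCoprime_iff_pts]
      rintro K _ ψ a ⟨h1, h2⟩
      obtain ⟨u, v, huv⟩ := (h K ψ).2
      have := congrArg (eval a) huv
      rw [eval_add, eval_mul, eval_mul, derivative_map, eval_map, eval_map, h1, h2, mul_zero,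
        mul_zero, add_zero, eval_one] at this
      exact zero_ne_one this
    · rw [isCoprime_iff_pts]
      rintro K _ ψ a ⟨h1, h2⟩
      have hdg : (f.map ψ).natDegree ≤ 6 := natDegree_map_le.trans hd
      rw [← eval_map, ← reflect_map] at h1
      rw [← eval_map, ← derivative_map, ← reflect_map] at h2
      by_cases ha : a = 0
      · subst ha
        rw [← coeff_zero_eq_eval_zero, coeff_reflect] at h1
        rw [← coeff_zero_eq_eval_zero, coeff_derivative, coeff_reflect] at h2
        rw [show revAt 6 0 = 6 from rfl] at h1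
        rw [show revAt 6 (0 + 1) = 5 from rfl] at h2
        have h3 : (f.map ψ).coeff 5 = 0 := by simpa using h2
        have h5 := (h K ψ).1
        have h6 : (f.map ψ).natDegree = 5 ∨ (f.map ψ).natDegree = 6 := by omega
        have hne : f.map ψ ≠ 0 := (h K ψ).2.ne_zero
        rcases h6 with h6 | h6
        · have := leadingCoeff_ne_zero.2 hne
          rw [leadingCoeff, h6] at this
          exact this h3
        · have := leadingCoeff_ne_zero.2 hne
          rw [leadingCoeff, h6] at this
          exact this h1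
      · have key := congrArg (eval a) (X_mul_derivative_reflect (f.map ψ) hdg)
        rw [eval_mul, eval_X, h2, mul_zero, eval_sub, eval_mul, h1, mul_zero, zero_sub] at key
        have hX : (X * derivative (f.map ψ)).natDegree ≤ 6 := by
          refine (natDegree_mul_le).trans ?_
          have := natDegree_derivative_le (f.map ψ)
          have h8 : (X : K[X]).natDegree ≤ 1 := natDegree_X_le
          omega
        have key' : eval a ((X * derivative (f.map ψ)).reflect 6) = 0 := by
          linear_combination key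
        letI : Invertible (a⁻¹) := invertibleOfNonzero (inv_ne_zero ha)
        have hia : ⅟(a⁻¹) = a := by rw [invOf_eq_inv, inv_inv]
        have e1 := (eval₂_reflect_eq_zero_iff (RingHom.id K) a⁻¹ 6 _ hX).1 (by
          rw [hia]
          exact key')
        have e2 := (eval₂_reflect_eq_zero_iff (RingHom.id K) a⁻¹ 6 _ hdg).1 (by
          rw [hia]
          exact h1)
        rw [← eval, eval_mul, eval_X] at e1
        rw [← eval] at e2
        have e3 : eval a⁻¹ (derivative (f.map ψ)) = 0 :=
          (mul_eq_zero.1 e1).resolve_left (inv_ne_zero ha)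
        obtain ⟨u, v, huv⟩ := (h K ψ).2
        have := congrArg (eval a⁻¹) huv
        rw [eval_add, eval_mul, eval_mul, e2, e3, mul_zero, mul_zero, add_zero, eval_one] at this
        exact zero_ne_one this

theorem Good.map {B B' : Type} [CommRing B] [CommRing B'] {f : B[X]} (h : Good f)
    (φ : B →+* B') : Good (f.map φ) where
  deg := natDegree_map_le.trans h.deg
  cop := by
    have := h.cop.map (mapRingHom φ)
    rw [coe_mapRingHom, ← derivative_map] at this
    exact this
  cop' := by
    have := h.cop'.map (mapRingHom φ)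
    rw [coe_mapRingHom, ← derivative_map, ← reflect_map] at this
    exact this

theorem Good.reflect {B : Type} [CommRing B] {f : B[X]} (h : Good f) : Good (f.reflect 6) where
  deg := natDegree_reflect_le.trans (max_le le_rfl h.deg)
  cop := h.cop'
  cop' := by
    rw [reflect_reflect]
    exact h.cop

theorem Good.cmul {B : Type} [CommRing B] {f : B[X]} (h : Good f) {u : B} (hu : IsUnit u) :
    Good (C u * f) := by
  rw [good_iff] at h ⊢
  refine ⟨(natDegree_C_mul_le _ _).trans h.1, fun K _ ψ => ?_⟩
  have hu' : ψ u ≠ 0 := (hu.map ψ).ne_zero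
  rw [Polynomial.map_mul, map_C, natDegree_C_mul hu']
  refine ⟨(h.2 K ψ).1, ?_⟩
  have h2 := (h.2 K ψ).2
  have h3 : IsUnit (C (ψ u)) := isUnit_C.2 (hu.map ψ)
  rw [Separable, derivative_C_mul]
  exact (isCoprime_mul_unit_left h3 _ _).2 h2

theorem Good.comp {B : Type} [CommRing B] {f : B[X]} (h : Good f) {p : B[X]}
    (h1 : p.natDegree ≤ 1) (h2 : IsUnit (derivative p)) : Good (f.comp p) := by
  rw [good_iff] at h ⊢
  refine ⟨natDegree_comp_le.trans (by nlinarith [h.1, h1]), fun K _ ψ => ?_⟩
  rw [Polynomial.map_comp, natDegree_comp]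
  have h4 : IsUnit (derivative (p.map ψ)) := by
    rw [derivative_map]
    exact h2.map (mapRingHom ψ)
  have h3 : (p.map ψ).natDegree = 1 := by
    have h5 : (p.map ψ).natDegree ≤ 1 := natDegree_map_le.trans h1
    have h6 : (p.map ψ).natDegree ≠ 0 := by
      intro h0
      rw [eq_C_of_natDegree_eq_zero h0, derivative_C] at h4
      exact not_isUnit_zero h4
    omega
  rw [h3, mul_one]
  refine ⟨(h.2 K ψ).1, ?_⟩
  have h5 := (h.2 K ψ).2
  have h6 : IsCoprime ((f.map ψ).comp (p.map ψ)) ((derivative (f.map ψ)).comp (p.map ψ)) := by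
    have := IsCoprime.map h5 (compRingHom (p.map ψ))
    exact this
  rw [Separable, derivative_comp]
  exact (isCoprime_mul_unit_left_right h4 _ _).2 h6

theorem Good.shift {B : Type} [CommRing B] {f : B[X]} (h : Good f) (t : B) :
    Good (f.comp (X + C t)) := by
  refine h.comp (natDegree_add_le_of_degree_le natDegree_X_le (by simp)) ?_
  simp

theorem Good.dil {B : Type} [CommRing B] {f : B[X]} (h : Good f) {a : B} (ha : IsUnit a) :
    Good (f.comp (C a * X)) := by
  refine h.comp ((natDegree_C_mul_le _ _).trans natDegree_X_le) ?_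
  rw [derivative_C_mul, derivative_X, mul_one]
  exact isUnit_C.2 ha

theorem good_of_sep {K : Type} [Field K] {f : K[X]} (h : f.natDegree ≤ 6) (h5 : 5 ≤ f.natDegree)
    (hs : f.Separable) : Good f := by
  rw [good_iff]
  refine ⟨h, fun L _ ψ => ⟨?_, hs.map⟩⟩
  rwa [natDegree_map]

theorem good_prod {K : Type} [Field K] {ι : Type} [Fintype ι] (hi : Fintype.card ι = 5 ∨
    Fintype.card ι = 6) (r : ι → K) (hr : Function.Injective r) : Good (∏ i, (X - C (r i))) := by
  have hd : (∏ i, (X - C (r i))).natDegree = Fintype.card ι := by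
    rw [natDegree_prod_of_monic _ _ fun i _ => monic_X_sub_C _]
    simp
  exact good_of_sep (by omega) (by omega) (separable_prod_X_sub_C_iff.2 hr)

end Pool.Agent.MG.Two2
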