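import Pool.Agent.MG.H2.Defs
import Pool.Agent.MG.H2.GoodLem
import Pool.Agent.MG.H2.StmtsH

/-!
# From families of curves `y² = f(x)` with their covectors to the algebraic data
-/

open CategoryTheory CategoryTheory.Limits AlgebraicGeometry Polynomial

namespace Pool.Agent.MG.H2

open Pool.Agent.MG.Two2

/-! ## Transport of covectors along isomorphisms -/

section

variable {g n : ℕ} {A : Type} [CommRing A]

theorem epsMap_id : epsMap (RingHom.id A) = RingHom.id (Eps A) := by
  refine RingHom.ext fun z => TrivSqZeroExt.ext ?_ ?_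
  · change (TrivSqZeroExt.inl z.fst + TrivSqZeroExt.inr z.snd : TrivSqZeroExt A A).fst = z.fst
    simp
  · change (TrivSqZeroExt.inl z.fst + TrivSqZeroExt.inr z.snd : TrivSqZeroExt A A).snd = z.snd
    simp

/-- The composite of an arrow over the identity and an arrow. -/
noncomputable def precomp {B : Type} [CommRing B] {φ : B →+* A} {x y : Fam n A} {z : Fam n B}
    (f : Arrow (RingHom.id A) y x) (r : Arrow φ x z) : Arrow φ y z where
  f := f.f ≫ r.f
  cart := by
    have h := IsPullback.paste_vert f.cart.flip r.cart.flip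
    have h2 : spMap (RingHom.id A) = 𝟙 (Sp A) := Spec.map_id _
    rw [h2, Category.id_comp] at h
    exact h.flip
  sec i := by
    have h2 : spMap (RingHom.id A) = 𝟙 (Sp A) := Spec.map_id _
    rw [← Category.assoc, f.sec, h2, Category.id_comp, r.sec]

/-- A deformation of `x` as a deformation of `y`. -/
noncomputable def Defo.pre {x y : Fam n A} (f : Arrow (RingHom.id A) y x) (d : Defo g x) :
    Defo g y :=
  ⟨d.y, d.stable, precomp f d.r⟩

/-- The transport of a covector along an isomorphism. -/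
noncomputable def covPre {x y : Fam n A} (f : Arrow (RingHom.id A) y x) (l : Cov g y) :
    Cov g x where
  l d := l.l (Defo.pre f d)
  iso d d' e he := l.iso _ _ e (by
    change (f.f ≫ d.r.f) ≫ e.f = f.f ≫ d'.r.f
    rw [Category.assoc, he])
  scale a d d' e he := l.scale a _ _ e (by
    change (f.f ≫ d'.r.f) ≫ e.f = f.f ≫ d.r.f
    rw [Category.assoc, he])
  add z hz r d₁ d₂ d f₁ f₂ f₃ h₁ h₂ h₃ := l.add z hz (precomp f r) _ _ _ f₁ f₂ f₃
    (by
      change (f.f ≫ d₁.r.f) ≫ f₁.f = f.f ≫ r.f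
      rw [Category.assoc, h₁])
    (by
      change (f.f ≫ d₂.r.f) ≫ f₂.f = f.f ≫ r.f
      rw [Category.assoc, h₂])
    (by
      change (f.f ≫ d.r.f) ≫ f₃.f = f.f ≫ r.f
      rw [Category.assoc, h₃])

theorem covPre_compat {x y : Fam n A} (f : Arrow (RingHom.id A) y x) (l : Cov g y) :
    Compat f l (covPre f l) := by
  intro d' d e he
  have key : ∀ (φ : Eps A →+* Eps A) (_ : φ = RingHom.id (Eps A)) (e : Arrow φ d'.y d.y),
      d'.r.f ≫ e.f = f.f ≫ d.r.f → l.l d' = l.l (Defo.pre f d) := by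
    intro φ hφ e he
    subst hφ
    exact l.iso d' (Defo.pre f d) e he
  exact key _ epsMap_id e he

theorem val_transport [Algebra ℂ A] (F : Reg g n) {x y : Fam n A}
    (f : Arrow (RingHom.id A) y x) (hx : IsStable g x) (hy : IsStable g y) (l : Cov g y) :
    F.F A y hy l = F.F A x hx (covPre f l) :=
  F.nat A A (AlgHom.id ℂ A) x y hx hy f (covPre f l) l (covPre_compat f l)

end

/-! ## The interface -/

/-- The curves `y² = f(x)`, `f` without double roots on the projective line, with the covectors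
`q(x) (dx)²/f(x)`, and a family in which they degenerate to two elliptic curves. -/
structure Mdl where
  /-- the curve `y² = f(x)` -/
  crv : ∀ {B : Type} [CommRing B], B[X] → Fam 0 B
  st : ∀ {B : Type} [CommRing B] [Algebra ℂ B] (f : B[X]), Two2.Good f → IsStable 2 (crv f)
  /-- the covector -/
  cov : ∀ {B : Type} [CommRing B] [Algebra ℂ B] (f : B[X]), Two2.Good f → B[X] → Cov 2 (crv f)
  bc : ∀ {B B' : Type} [CommRing B] [Algebra ℂ B] [CommRing B'] [Algebra ℂ B'] (φ : B →ₐ[ℂ] B')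
    (f q : B[X]) (hf : Two2.Good f) (hf' : Two2.Good (f.map (φ : B →+* B'))), q.natDegree ≤ 2 →
    ∃ a : Arrow (φ : B →+* B') (crv (f.map (φ : B →+* B'))) (crv f),
      Compat a (cov (f.map (φ : B →+* B')) hf' (q.map (φ : B →+* B'))) (cov f hf q)
  sc : ∀ {B : Type} [CommRing B] [Algebra ℂ B] (a b : B) (f q f' q' : B[X]) (hf : Two2.Good f)
    (hf' : Two2.Good f'), IsUnit a → IsUnit b → q.natDegree ≤ 2 → q'.natDegree ≤ 2 →
    C (b ^ 2) * f' = f.comp (C a * X) →
    C (b ^ 2) * q' = C (a ^ 2) * q.comp (C a * X) →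
    ∃ r : Arrow (RingHom.id B) (crv f') (crv f), Compat r (cov f' hf' q') (cov f hf q)
  tr : ∀ {B : Type} [CommRing B] [Algebra ℂ B] (e : B) (f q : B[X]) (hf : Two2.Good f)
    (hf' : Two2.Good (f.comp (X + C e))), e * e = 0 → q.natDegree ≤ 2 →
    ∃ r : Arrow (RingHom.id B) (crv (f.comp (X + C e))) (crv f),
      Compat r (cov _ hf' (q.comp (X + C e))) (cov f hf q)
  inv : ∀ {B : Type} [CommRing B] [Algebra ℂ B] (f q : B[X]) (hf : Two2.Good f)
    (hf' : Two2.Good (f.reflect 6)), q.natDegree ≤ 2 →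
    ∃ r : Arrow (RingHom.id B) (crv (f.reflect 6)) (crv f),
      Compat r (cov _ hf' (q.reflect 2)) (cov f hf q)
  reg : ∀ {B K : Type} [CommRing B] [IsDomain B] [Field K] [Algebra ℂ B] [Algebra ℂ K]
    (φ : B →ₐ[ℂ] K), Function.Injective φ → ∀ (s : B) (ρ r e : Fin 3 → B), s ≠ 0 →
    (∀ i j, i ≠ j → IsUnit (ρ i - ρ j)) → (∀ i j, i ≠ j → IsUnit (r i - r j)) →
    (∀ j, IsUnit (r j)) → (∀ i j, IsUnit (r j - s ^ 2 * ρ i)) →
    ∀ (hf : Two2.Good (((∏ i, (X - C (ρ i))) *
      ∏ j, (C (s ^ 2) * X - C (r j)) : B[X]).map (φ : B →+* K))),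
    ∃ (x : Fam 0 B) (_ : IsStable 2 x) (l : Cov 2 x) (a : Arrow (φ : B →+* K)
      (crv (((∏ i, (X - C (ρ i))) *
      ∏ j, (C (s ^ 2) * X - C (r j)) : B[X]).map (φ : B →+* K))) x),
      Compat a (cov _ hf ((C (e 0) + C (s * e 1) * X +
        C (s ^ 2 * e 2) * X ^ 2 : B[X]).map (φ : B →+* K))) l
  surj : ∀ {K : Type} [Field K] [IsAlgClosed K] [Algebra ℂ K] (r : Fin 6 → K)
    (_ : Function.Injective r) (hf : Two2.Good (∏ i, (X - C (r i))))
    (l : Cov 2 (crv (∏ i, (X - C (r i))))),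
    ∃ q : K[X], q.natDegree ≤ 2 ∧ l = cov (∏ i, (X - C (r i))) hf q
  link : ∀ {K : Type} [Field K] [IsAlgClosed K] [Algebra ℂ K] (r : Fin 6 → K),
    Function.Injective r →
    ∃ a : Arrow (RingHom.id K) (Hyp (rts r)) (crv (∏ i, (X - C (r i)))), IsIso a.f

end Pool.Agent.MG.H2
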