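import Pool.Agent.MG.H2.EndA

/-!
# The values of a regular function on the curves `y² = f(x)`
-/

open CategoryTheory CategoryTheory.Limits AlgebraicGeometry Polynomial

namespace Pool.Agent.MG.H2

open Pool.Agent.MG.Two2

namespace Mdl

open Classical in
/-- The value of `F` at the curve `y² = f(x)` and the covector of `q`. -/
noncomputable def S (M : Mdl) (F : Reg 2 0) (B : Type) [CommRing B] [Algebra ℂ B] (f q : B[X]) :
    B :=
  if h : Two2.Good f then F.F B (M.crv f) (M.st f h) (M.cov f h q) else 0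

variable (M : Mdl) (F : Reg 2 0)

theorem S_good {B : Type} [CommRing B] [Algebra ℂ B] {f : B[X]} (h : Two2.Good f) (q : B[X]) :
    M.S F B f q = F.F B (M.crv f) (M.st f h) (M.cov f h q) :=
  dif_pos h

theorem S_arrow {B : Type} [CommRing B] [Algebra ℂ B] {f f' : B[X]} (hf : Two2.Good f)
    (hf' : Two2.Good f') (q q' : B[X]) (r : Arrow (RingHom.id B) (M.crv f') (M.crv f))
    (h : Compat r (M.cov f' hf' q') (M.cov f hf q)) : M.S F B f' q' = M.S F B f q := by
  rw [M.S_good F hf, M.S_good F hf']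
  exact F.nat B B (AlgHom.id ℂ B) _ _ (M.st f hf) (M.st f' hf') r _ _ h

theorem S_nat (B B' : Type) [CommRing B] [Algebra ℂ B] [CommRing B'] [Algebra ℂ B']
    (φ : B →ₐ[ℂ] B') (f q : B[X]) (hf : Two2.Good f) (hq : q.natDegree ≤ 2) :
    M.S F B' (f.map (φ : B →+* B')) (q.map (φ : B →+* B')) = φ (M.S F B f q) := by
  rw [M.S_good F hf, M.S_good F (hf.map _)]
  obtain ⟨a, ha⟩ := M.bc φ f q hf (hf.map _) hq
  exact F.nat B B' φ _ _ (M.st f hf) (M.st _ (hf.map _)) a _ _ ha

theorem S_scal (B : Type) [CommRing B] [Algebra ℂ B] (u : B) (f q : B[X]) (hu : IsUnit u)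
    (hf : Two2.Good f) (hq : q.natDegree ≤ 2) :
    M.S F B (C (u ^ 2) * f) (C (u ^ 2) * q) = M.S F B f q := by
  obtain ⟨v, hv⟩ := hu.exists_right_inv
  have hvu : IsUnit v := IsUnit.of_mul_eq_one u (by rw [mul_comm]; exact hv)
  have hf' : Two2.Good (C (u ^ 2) * f) := hf.cmul (hu.pow 2)
  have e : ∀ p : B[X], C (v ^ 2) * (C (u ^ 2) * p) = p := by
    intro p
    rw [← mul_assoc, ← C_mul, ← mul_pow, mul_comm v u, hv, one_pow, C_1, one_mul]
  obtain ⟨r, hr⟩ := M.sc 1 v f q (C (u ^ 2) * f) (C (u ^ 2) * q) hf hf' isUnit_one hvu hq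
    ((natDegree_C_mul_le _ _).trans hq) (by rw [e]; simp) (by rw [e]; simp)
  exact M.S_arrow F hf hf' _ _ r hr

theorem S_tr0 {B : Type} [CommRing B] [Algebra ℂ B] (e : B) (f q : B[X]) (hf : Two2.Good f)
    (he : e * e = 0) (hq : q.natDegree ≤ 2) :
    M.S F B (f.comp (X + C e)) (q.comp (X + C e)) = M.S F B f q := by
  obtain ⟨r, hr⟩ := M.tr e f q hf (hf.shift e) he hq
  exact M.S_arrow F hf (hf.shift e) _ _ r hr

end Mdl

/-- A polynomial over a `ℂ`-algebra with derivative zero is constant. -/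
theorem eq_C_of_der {B : Type} [CommRing B] [Algebra ℂ B] {P : B[X]} (h : derivative P = 0) :
    P = C (P.coeff 0) := by
  ext n
  rcases n with _ | n
  · simp
  · rw [coeff_C_succ]
    have h1 := congrArg (fun p => coeff p n) h
    simp only [coeff_derivative, coeff_zero] at h1
    have h2 : IsUnit ((n : B) + 1) := by
      have : IsUnit (algebraMap ℂ B ((n : ℂ) + 1)) :=
        (IsUnit.mk0 _ (by exact_mod_cast Nat.succ_ne_zero n)).map _
      simpa using this
    exact h2.mul_left_eq_zero.1 h1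

/-- A polynomial with `P(T + ε) = P(T)` is constant. -/
theorem eq_C_of_eps {B : Type} [CommRing B] [Algebra ℂ B] {P : B[X]}
    (h : P.eval₂ ((TrivSqZeroExt.inlHom B[X] B[X]).comp C)
      (TrivSqZeroExt.inl X + TrivSqZeroExt.inr 1) =
      P.eval₂ ((TrivSqZeroExt.inlHom B[X] B[X]).comp C) (TrivSqZeroExt.inl X)) :
    P = C (P.coeff 0) := by
  refine eq_C_of_der ?_
  set i : B →+* TrivSqZeroExt B[X] B[X] := (TrivSqZeroExt.inlHom B[X] B[X]).comp C with hi
  have hsq : (TrivSqZeroExt.inr 1 : TrivSqZeroExt B[X] B[X]) ^ 2 = 0 := by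
    rw [sq, TrivSqZeroExt.inr_mul_inr]
  have h1 := Polynomial.eval_add_of_sq_eq_zero (P.map i) (TrivSqZeroExt.inl X) _ hsq
  rw [Polynomial.eval_map, Polynomial.eval_map, h, derivative_map, Polynomial.eval_map] at h1
  have h2 : eval₂ i (TrivSqZeroExt.inl X) (derivative P) =
      TrivSqZeroExt.inl (derivative P) := by
    have := Polynomial.hom_eval₂ (derivative P) (C : B →+* B[X])
      (TrivSqZeroExt.inlHom B[X] B[X]) X
    rw [eval₂_C_X] at this
    exact this.symm
  rw [h2] at h1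
  have h3 := congrArg TrivSqZeroExt.snd h1
  simpa using h3

namespace Mdl

variable (M : Mdl) (F : Reg 2 0)

theorem comp_map {B B' : Type} [CommRing B] [CommRing B'] (φ : B →+* B') (f : B[X]) (t : B) :
    (f.comp (X + C t)).map φ = (f.map φ).comp (X + C (φ t)) := by
  rw [Polynomial.map_comp]
  simp

theorem S_trans (B : Type) [CommRing B] [Algebra ℂ B] (t : B) (f q : B[X]) (hf : Two2.Good f)
    (hq : q.natDegree ≤ 2) : M.S F B (f.comp (X + C t)) (q.comp (X + C t)) = M.S F B f q := by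
  -- over `B[T]`
  set f1 : (B[X])[X] := f.map (C : B →+* B[X]) with hf1
  set q1 : (B[X])[X] := q.map (C : B →+* B[X]) with hq1
  have hg1 : Two2.Good f1 := hf.map _
  have hd1 : q1.natDegree ≤ 2 := natDegree_map_le.trans hq
  set P : B[X] := M.S F B[X] (f1.comp (X + C X)) (q1.comp (X + C X)) with hP
  have hdc : ∀ {R : Type} [CommRing R] (s : R) (p : R[X]), p.natDegree ≤ 2 →
      (p.comp (X + C s)).natDegree ≤ 2 := by
    intro R _ s p hp
    refine natDegree_comp_le.trans ?_
    have : (X + C s : R[X]).natDegree ≤ 1 :=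
      natDegree_add_le_of_degree_le natDegree_X_le (by simp)
    nlinarith
  -- evaluation
  have hev : ∀ s : B, P.eval s = M.S F B (f.comp (X + C s)) (q.comp (X + C s)) := by
    intro s
    let ev : B[X] →ₐ[ℂ] B :=
      { (Polynomial.evalRingHom s) with
        commutes' := fun c => by
          change Polynomial.eval s (algebraMap ℂ B[X] c) = _
          rw [IsScalarTower.algebraMap_apply ℂ B B[X]]
          exact eval_C }
    have h := M.S_nat F B[X] B ev (f1.comp (X + C X)) (q1.comp (X + C X)) (hg1.shift _)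
      (hdc _ _ hd1)
    have e1 : ∀ p : B[X], ((p.map (C : B →+* B[X])).comp (X + C X)).map (ev : B[X] →+* B) =
        p.comp (X + C s) := by
      intro p
      rw [comp_map, Polynomial.map_map]
      have h1 : (ev : B[X] →+* B).comp (C : B →+* B[X]) = RingHom.id B := by
        ext b
        exact eval_C
      have h2 : (ev : B[X] →+* B) X = s := eval_X
      rw [h1, h2, Polynomial.map_id]
    rw [e1, e1] at h
    exact h.symm
  -- `P` is constant
  have hc : P = C (P.coeff 0) := by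
    refine eq_C_of_eps ?_
    have key : ∀ z : TrivSqZeroExt B[X] B[X],
        P.eval₂ ((TrivSqZeroExt.inlHom B[X] B[X]).comp C) z =
        M.S F (TrivSqZeroExt B[X] B[X])
          ((f1.map (TrivSqZeroExt.inlHom B[X] B[X])).comp (X + C z))
          ((q1.map (TrivSqZeroExt.inlHom B[X] B[X])).comp (X + C z)) := by
      intro z
      let ev : B[X] →ₐ[ℂ] TrivSqZeroExt B[X] B[X] :=
        { (Polynomial.eval₂RingHom ((TrivSqZeroExt.inlHom B[X] B[X]).comp C) z) with
          commutes' := fun c => by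
            change Polynomial.eval₂ ((TrivSqZeroExt.inlHom B[X] B[X]).comp C) z
              (algebraMap ℂ B[X] c) = _
            rw [IsScalarTower.algebraMap_apply ℂ B B[X]]
            change Polynomial.eval₂ ((TrivSqZeroExt.inlHom B[X] B[X]).comp C) z
              (C (algebraMap ℂ B c)) = _
            rw [eval₂_C]
            rfl }
      have h := M.S_nat F B[X] _ ev (f1.comp (X + C X)) (q1.comp (X + C X)) (hg1.shift _)
        (hdc _ _ hd1)
      have e1 : ∀ p : B[X], ((p.map (C : B →+* B[X])).comp (X + C X)).map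
          (ev : B[X] →+* TrivSqZeroExt B[X] B[X]) =
          ((p.map (C : B →+* B[X])).map (TrivSqZeroExt.inlHom B[X] B[X])).comp (X + C z) := by
        intro p
        rw [comp_map, Polynomial.map_map, Polynomial.map_map]
        have h1 : (ev : B[X] →+* TrivSqZeroExt B[X] B[X]).comp (C : B →+* B[X]) =
            (TrivSqZeroExt.inlHom B[X] B[X]).comp C := by
          ext b : 1
          exact eval₂_C _ _
        have h2 : (ev : B[X] →+* TrivSqZeroExt B[X] B[X]) X = z := eval₂_X _ _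
        rw [h1, h2]
      rw [hf1, hq1, e1, e1] at h
      rw [hf1, hq1]
      exact h.symm
    rw [key, key]
    have e2 : ∀ p : (TrivSqZeroExt B[X] B[X])[X],
        p.comp (X + C (TrivSqZeroExt.inl X + TrivSqZeroExt.inr 1)) =
        (p.comp (X + C (TrivSqZeroExt.inl X))).comp (X + C (TrivSqZeroExt.inr 1)) := by
      intro p
      have e3 : (X + C (TrivSqZeroExt.inl X + TrivSqZeroExt.inr 1) :
          (TrivSqZeroExt B[X] B[X])[X]) = (X + C (TrivSqZeroExt.inl X)).comp
            (X + C (TrivSqZeroExt.inr 1)) := by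
        simp only [add_comp, X_comp, C_comp, C_add]
        ring
      rw [comp_assoc, ← e3]
    rw [e2, e2]
    refine M.S_tr0 F _ _ _ ((hg1.map _).shift _) ?_ (hdc _ _ (natDegree_map_le.trans hd1))
    rw [TrivSqZeroExt.inr_mul_inr]
  rw [← hev t, hc, eval_C, ← eval_C (x := (0 : B)) (a := P.coeff 0), ← hc, hev 0]
  simp

theorem S_inv (B : Type) [CommRing B] [Algebra ℂ B] (f q : B[X]) (hf : Two2.Good f)
    (hq : q.natDegree ≤ 2) : M.S F B (f.reflect 6) (q.reflect 2) = M.S F B f q := by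
  obtain ⟨r, hr⟩ := M.inv f q hf hf.reflect hq
  exact M.S_arrow F hf hf.reflect _ _ r hr

theorem S_reg (B K : Type) [CommRing B] [IsDomain B] [Field K] [Algebra ℂ B] [Algebra ℂ K]
    (φ : B →ₐ[ℂ] K) (hφ : Function.Injective φ) (s : B) (ρ r e : Fin 3 → B) (hs : s ≠ 0)
    (h1 : ∀ i j, i ≠ j → IsUnit (ρ i - ρ j)) (h2 : ∀ i j, i ≠ j → IsUnit (r i - r j))
    (h3 : ∀ j, IsUnit (r j)) (h4 : ∀ i j, IsUnit (r j - s ^ 2 * ρ i)) :
    ∃ b : B, M.S F K
      (((∏ i, (X - C (s ^ 2 * ρ i))) * ∏ j, (X - C (r j)) : B[X]).map (φ : B →+* K))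
      ((C (s ^ 2 * e 0) + C (s * e 1) * X + C (e 2) * X ^ 2 : B[X]).map (φ : B →+* K)) =
        φ b := by
  have hs' : φ s ≠ 0 := fun h0 => hs (hφ (by rw [h0, map_zero]))
  set σ : K := φ s with hσ
  set f : K[X] := ((∏ i, (X - C (s ^ 2 * ρ i))) * ∏ j, (X - C (r j)) : B[X]).map (φ : B →+* K)
    with hf
  set f' : K[X] := (((∏ i, (X - C (ρ i))) * ∏ j, (C (s ^ 2) * X - C (r j)) : B[X]).map
    (φ : B →+* K)) with hf'
  set q : K[X] := ((C (s ^ 2 * e 0) + C (s * e 1) * X + C (e 2) * X ^ 2 : B[X]).map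
    (φ : B →+* K)) with hq
  set q' : K[X] := ((C (e 0) + C (s * e 1) * X + C (s ^ 2 * e 2) * X ^ 2 : B[X]).map
    (φ : B →+* K)) with hq'
  have ef : f = (∏ i, (X - C (σ ^ 2 * φ (ρ i)))) * ∏ j, (X - C (φ (r j))) := by
    rw [hf, Polynomial.map_mul, Polynomial.map_prod, Polynomial.map_prod]
    simp [hσ]
  have ef' : f' = (∏ i, (X - C (φ (ρ i)))) * ∏ j, (C (σ ^ 2) * X - C (φ (r j))) := by
    rw [hf', Polynomial.map_mul, Polynomial.map_prod, Polynomial.map_prod]
    simp [hσ]
  have eq : q = C (σ ^ 2 * φ (e 0)) + C (σ * φ (e 1)) * X + C (φ (e 2)) * X ^ 2 := by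
    rw [hq]
    simp [hσ]
  have eq' : q' = C (φ (e 0)) + C (σ * φ (e 1)) * X + C (σ ^ 2 * φ (e 2)) * X ^ 2 := by
    rw [hq']
    simp [hσ]
  -- `f` has no double roots
  have hne : ∀ {a b : B}, IsUnit (a - b) → φ a ≠ φ b := by
    intro a b h h'
    exact (h.map φ).ne_zero (by rw [map_sub, h', sub_self])
  have hgf : Two2.Good f := by
    have hinj : Function.Injective (Sum.elim (fun i => σ ^ 2 * φ (ρ i)) fun j => φ (r j)) := by
      have e : ∀ i, σ ^ 2 * φ (ρ i) = φ (s ^ 2 * ρ i) := fun i => by rw [map_mul, map_pow]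
      rintro (i | i) (j | j) hij
      · by_contra hc
        have hc' : i ≠ j := fun h => hc (by rw [h])
        exact hne (h1 i j hc') (mul_left_cancel₀ (pow_ne_zero 2 hs') hij)
      · change σ ^ 2 * φ (ρ i) = φ (r j) at hij
        rw [e] at hij
        exact absurd hij.symm (hne (h4 i j))
      · change φ (r i) = σ ^ 2 * φ (ρ j) at hij
        rw [e] at hij
        exact absurd hij (hne (h4 j i))
      · by_contra hc
        have hc' : i ≠ j := fun h => hc (by rw [h])
        exact hne (h2 i j hc') hij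
    have := good_prod (K := K) (ι := Fin 3 ⊕ Fin 3) (Or.inr (by simp)) _ hinj
    rw [Fintype.prod_sum_type] at this
    rw [ef]
    exact this
  have hus : IsUnit (σ ^ 2) := (IsUnit.mk0 _ hs').pow 2
  have hus3 : IsUnit (σ ^ 3) := (IsUnit.mk0 _ hs').pow 3
  have hcomp : C ((σ ^ 3) ^ 2) * f' = f.comp (C (σ ^ 2) * X) := by
    rw [ef, ef', mul_comp, Polynomial.prod_comp, Polynomial.prod_comp]
    simp only [sub_comp, X_comp, C_comp]
    have e1 : ∀ i, (C (σ ^ 2) * X - C (σ ^ 2 * φ (ρ i)) : K[X]) =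
        C (σ ^ 2) * (X - C (φ (ρ i))) := by
      intro i
      rw [C_mul]
      ring
    have e2 : (σ ^ 3) ^ 2 = (σ ^ 2) ^ 3 := by ring
    simp only [e1, Finset.prod_mul_distrib]
    rw [Finset.prod_const, Finset.card_univ, Fintype.card_fin, ← C_pow, e2, mul_assoc]
  have hgf' : Two2.Good f' := by
    obtain ⟨v, hv⟩ := ((IsUnit.mk0 _ hs').pow 6 : IsUnit (σ ^ 6)).exists_right_inv
    have hvu : IsUnit v := IsUnit.of_mul_eq_one (σ ^ 6) (by rw [mul_comm]; exact hv)
    have h5 := (hgf.dil hus).cmul hvu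
    have h6 : f' = C v * f.comp (C (σ ^ 2) * X) := by
      rw [← hcomp, ← mul_assoc, ← C_mul]
      have : v * (σ ^ 3) ^ 2 = 1 := by
        rw [← hv]
        ring
      rw [this, C_1, one_mul]
    rw [h6]
    exact h5
  have hdq : ∀ a b c : K, (C a + C b * X + C c * X ^ 2 : K[X]).natDegree ≤ 2 := by
    intro a b c
    compute_degree
  obtain ⟨r0, hr0⟩ := M.sc (σ ^ 2) (σ ^ 3) f q f' q' hgf hgf' hus hus3 (by rw [eq]; exact hdq _ _ _)
    (by rw [eq']; exact hdq _ _ _) hcomp (by
      rw [eq, eq']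
      simp only [add_comp, mul_comp, C_comp, X_comp, pow_comp, C_mul, C_pow]
      ring)
  rw [← M.S_arrow F hgf hgf' q q' r0 hr0, M.S_good F hgf']
  obtain ⟨x, hx, l, a, ha⟩ := M.reg φ hφ s ρ r e hs h1 h2 h3 h4 hgf'
  exact ⟨F.F B x hx l, F.nat B K φ x _ hx _ a l _ ha⟩

/-- The algebraic data of a regular function. -/
noncomputable def dat : Dat ℂ where
  S := fun B _ _ f q => M.S F B f q
  nat := fun B B' _ _ _ _ φ f q hf hq => M.S_nat F B B' φ f q hf hq
  scal := fun B _ _ u f q hu hf hq => M.S_scal F B u f q hu hf hq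
  trans := fun B _ _ t f q hf hq => M.S_trans F B t f q hf hq
  inv := fun B _ _ f q hf hq => M.S_inv F B f q hf hq
  reg := fun B K _ _ _ _ _ φ hφ s ρ r e hs h1 h2 h3 h4 =>
    M.S_reg F B K φ hφ s ρ r e hs h1 h2 h3 h4

end Mdl

end Pool.Agent.MG.H2
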