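import Pool.Agent.MG.H2.StmtsH
import Pool.Agent.MG.Fin

/-!
# Generic curves of genus two: statements
-/

open CategoryTheory CategoryTheory.Limits AlgebraicGeometry TensorProduct

namespace Pool.Agent.MG.H2

/-- The derivations of `K` move the roots `r 0`, `r 1`, `r 2` independently and fix the others. -/
def Indep {K : Type} [Field K] [Algebra ℂ K] (r : Fin 6 → K) : Prop :=
  ∀ w : Fin 3 → K, ∃ D : Derivation ℂ K K, D (r 0) = w 0 ∧ D (r 1) = w 1 ∧ D (r 2) = w 2 ∧
    D (r 3) = 0 ∧ D (r 4) = 0 ∧ D (r 5) = 0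

/-- HDR: there are such fields. -/
def Stmt_HDR : Prop :=
  ∃ (K : Type) (_ : Field K) (_ : IsAlgClosed K) (_ : Algebra ℂ K) (r : Fin 6 → K),
    Function.Injective r ∧ Indep r

/-- HGE: the curve `y² = ∏ (x - r i)` is generic. -/
def Stmt_HGE : Prop :=
  ∀ {K : Type} [Field K] [Algebra ℂ K] (r : Fin 6 → K), Function.Injective r → Indep r →
    ∀ d : Defo 2 (Hyp (rts r)), ∃ (D : Derivation ℂ K K)
      (f : Arrow (Std.epsDer D) d.y (Hyp (rts r))), d.r.f ≫ f.f = 𝟙 (Hyp (rts r)).X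

end Pool.Agent.MG.H2
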