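import Pool.Agent.MG.H2.EndB
import Pool.Agent.MG.H2.EA
import Pool.Agent.MG.H2.StmtsG

/-!
# The case `(g, n) = (2, 0)`: every regular function is constant
-/

open CategoryTheory CategoryTheory.Limits AlgebraicGeometry Polynomial

namespace Pool.Agent.MG.H2

open Pool.Agent.MG.Two2

/-- HSM: the curves `y² = ∏ (x - r i)` are smooth. -/
def Stmt_HSM : Prop :=
  ∀ {K : Type} [Field K] [CharZero K] (r : Fin 6 → K), Function.Injective r →
    Smooth (HX.pr K (rts r))

theorem good_rts {K : Type} [Field K] (r : Fin 6 → K) (hr : Function.Injective r) :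
    Two2.Good (∏ i, (X - C (r i))) :=
  good_prod (Or.inr (by simp)) r hr

/-- `F` is constant on the curves `y² = ∏ (x - r i)`. -/
theorem Mdl.const (M : Mdl) (hA : Two2.Alg_Stmt) (F : Reg 2 0) : ∃ c : ℂ,
    ∀ (K : Type) [Field K] [IsAlgClosed K] [Algebra ℂ K] (r : Fin 6 → K)
      (hr : Function.Injective r) (l : Cov 2 (M.crv (∏ i, (X - C (r i))))),
      F.F K _ (M.st _ (good_rts r hr)) l = algebraMap ℂ K c := by
  obtain ⟨c, hc⟩ := hA ℂ (M.dat F)
  refine ⟨c, fun K _ _ _ r hr l => ?_⟩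
  obtain ⟨q, hq, rfl⟩ := M.surj r hr (good_rts r hr) l
  rw [← hc K _ q (good_rts r hr) hq]
  exact (M.S_good F (good_rts r hr) q).symm

/-- Every regular function is constant. -/
theorem Mdl.end20 (M : Mdl) (hA : Two2.Alg_Stmt) (hE : Stmt_EF) (F : Reg 2 0) : ∃ c : ℂ,
    ∀ (K : Type) [Field K] [IsAlgClosed K] [Algebra ℂ K] (C : Fam 0 K) (hC : IsStable 2 C)
      (_ : SmoothOfRelativeDimension 1 C.π) (l : Cov 2 C), F.F K C hC l = algebraMap ℂ K c := by
  obtain ⟨c, hc⟩ := M.const hA F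
  refine ⟨c, fun K _ _ _ C hC hs l => ?_⟩
  have : CharZero K := charZero_of_injective_algebraMap (algebraMap ℂ K).injective
  obtain ⟨r, hr, a, -⟩ := hE C hC hs
  obtain ⟨b, -⟩ := M.link r hr
  rw [val_transport F (precomp a b) (M.st _ (good_rts r hr)) hC l]
  exact hc K r hr _

/-- The generic curve. -/
theorem Mdl.rigid20 (M : Mdl) (hA : Two2.Alg_Stmt) (hDR : Stmt_HDR) (hGE : Stmt_HGE)
    (hSM : Stmt_HSM) : Std.Rigid 2 0 := by
  obtain ⟨K, i1, i2, i3, r, hr, hI⟩ := hDR
  have : CharZero K := charZero_of_injective_algebraMap (algebraMap ℂ K).injective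
  obtain ⟨a, ha⟩ := M.link r hr
  refine ⟨K, i1, i2, i3, M.crv (∏ i, (X - C (r i))), (Std.stable_iff 2 _).2
    (M.st _ (good_rts r hr)), ?_, ?_, ?_⟩
  · have h1 : Smooth (HX.pr K (rts r)) := hSM r hr
    have h2 : a.f ≫ (M.crv (∏ i, (X - C (r i)))).π = HX.pr K (rts r) := by
      have := a.cart.w
      have h3 : spMap (RingHom.id K) = 𝟙 (Sp K) := Spec.map_id _
      rw [h3] at this
      rw [this]
      exact Category.comp_id _
    rw [← h2] at h1
    exact (MorphismProperty.cancel_left_of_respectsIso @Smooth a.f _).1 h1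
  · intro d
    obtain ⟨D, f, hf⟩ := hGE r hr hI (Defo.pre a (Std.Defo.to d))
    refine ⟨D, ?_⟩
    have h3 : spMap (RingHom.id K) = 𝟙 (Sp K) := Spec.map_id _
    refine ⟨{ f := f.f ≫ a.f, cart := ?_, sec := fun i => i.elim0 }, ?_⟩
    · have h := IsPullback.paste_vert f.cart.flip a.cart.flip
      rw [h3, Category.comp_id] at h
      exact h.flip
    · have h4 : (a.f ≫ d.r.f) ≫ f.f = 𝟙 _ := hf
      have h5 : a.f ≫ d.r.f ≫ f.f ≫ a.f = a.f := by
        rw [← Category.assoc, ← Category.assoc, h4, Category.id_comp]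
      rw [← cancel_epi a.f, h5, Category.comp_id]
  · intro F
    obtain ⟨c, hc⟩ := M.const hA (Std.Reg.to F)
    exact ⟨c, fun l => (Std.Reg.to_F F K _ _ l).trans (hc K r hr (Std.Cov.to l))⟩

end Pool.Agent.MG.H2
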