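import Pool.Agent.MG.H2.StmtsG

/-!
# Curves of genus two with marked points: statements
-/

open CategoryTheory CategoryTheory.Limits AlgebraicGeometry TensorProduct

namespace Pool.Agent.MG.H2

/-- The family `x` with other sections. -/
def wpt {n m : ℕ} {A : Type} [CommRing A] (x : Fam n A) (σ : Fin m → (Sp A ⟶ x.X))
    (hσ : ∀ i, σ i ≫ x.π = 𝟙 (Sp A)) : Fam m A where
  X := x.X
  π := x.π
  σ := σ
  sec := hσ

/-- NPT: disjoint sections in the smooth locus. -/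
def Stmt_NPT : Prop :=
  ∀ {m : ℕ} {A : Type} [CommRing A] (g : ℕ) (x : Fam 0 A), IsStable g x →
    ∀ (σ : Fin m → (Sp A ⟶ x.X)) (hσ : ∀ i, σ i ≫ x.π = 𝟙 (Sp A)),
    (∀ i, ∃ U : x.X.Opens, Smooth (U.ι ≫ x.π) ∧ ∀ s, σ i s ∈ U) →
    (∀ (K : Type) [Field K] [IsAlgClosed K] (s : A →+* K) (i j : Fin m), i ≠ j →
      spMap s ≫ σ i ≠ spMap s ≫ σ j) → IsStable g (wpt x σ hσ)

/-- NMV: at the zero covector a regular function does not depend on one marked point. -/
def Stmt_NMV : Prop :=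
  ∀ {n : ℕ} {k : Type} [Field k] [IsAlgClosed k] [Algebra ℂ k] (g : ℕ), 2 ≤ g →
    ∀ (F : Reg g n) (C : Fam 0 k), IsStable g C → SmoothOfRelativeDimension 1 C.π →
    ∀ (σ τ : Fin n → (Sp k ⟶ C.X)) (hσ : ∀ i, σ i ≫ C.π = 𝟙 (Sp k))
      (hτ : ∀ i, τ i ≫ C.π = 𝟙 (Sp k)) (i₀ : Fin n), (∀ i, i ≠ i₀ → σ i = τ i) →
      Function.Injective σ → Function.Injective τ →
      ∀ (h1 : IsStable g (wpt C σ hσ)) (h2 : IsStable g (wpt C τ hτ)),
        F.F k (wpt C σ hσ) h1 0 = F.F k (wpt C τ hτ) h2 0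

/-- NMA: at the zero covector a regular function does not depend on the marked points. -/
def Stmt_NMA : Prop :=
  ∀ {n : ℕ} {k : Type} [Field k] [IsAlgClosed k] [Algebra ℂ k] (g : ℕ), 2 ≤ g →
    ∀ (F : Reg g n) (C : Fam 0 k), IsStable g C → SmoothOfRelativeDimension 1 C.π →
    {s : Sp k ⟶ C.X | s ≫ C.π = 𝟙 (Sp k)}.Infinite →
    ∀ (σ τ : Fin n → (Sp k ⟶ C.X)) (hσ : ∀ i, σ i ≫ C.π = 𝟙 (Sp k))
      (hτ : ∀ i, τ i ≫ C.π = 𝟙 (Sp k)), Function.Injective σ → Function.Injective τ →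
      ∀ (h1 : IsStable g (wpt C σ hσ)) (h2 : IsStable g (wpt C τ hτ)),
        F.F k (wpt C σ hσ) h1 0 = F.F k (wpt C τ hτ) h2 0

section pnt

variable {B : Type} [CommRing B] (f : Fin 7 → B)

theorem pnt_h {a b : B} (h : b ^ 2 = pol f a) :
    b ^ 2 = pol (fun i => RingHom.id B (f i)) a := h

/-- The section `x = a`, `y = b` of the curve `y² = f(x)`. -/
noncomputable def pnt (a b : B) (h : b ^ 2 = pol f a) : Sp B ⟶ HX B f :=
  spMap (lift1 (RingHom.id B) a b (pnt_h f h)) ≫ HX.in1 B f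

theorem pnt_pr (a b : B) (h : b ^ 2 = pol f a) : pnt f a b h ≫ HX.pr B f = 𝟙 (Sp B) := by
  have e : (lift1 (RingHom.id B) a b (pnt_h f h)).comp (algebraMap B _) = RingHom.id B := by
    ext c
    exact lift1_b (f := f) _ _ _ (pnt_h f h) c
  rw [pnt, Category.assoc, HX.in1_pr, ← Spec.map_comp, ← CommRingCat.ofHom_comp, e]
  exact Spec.map_id _

/-- The curve `y² = f(x)` with the marked points `(a i, b i)`. -/
noncomputable def HypS {n : ℕ} (a b : Fin n → B) (h : ∀ i, b i ^ 2 = pol f (a i)) : Fam n B :=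
  wpt (Hyp f) (fun i => pnt f (a i) (b i) (h i)) (fun i => pnt_pr f (a i) (b i) (h i))

end pnt

/-- The derivations of `K` move the roots `r 0`, `r 1`, `r 2` and the `a i` independently and fix
the other roots. -/
def IndepN {K : Type} [Field K] [Algebra ℂ K] {n : ℕ} (r : Fin 6 → K) (a : Fin n → K) : Prop :=
  ∀ (w : Fin 3 → K) (v : Fin n → K), ∃ D : Derivation ℂ K K, D (r 0) = w 0 ∧ D (r 1) = w 1 ∧
    D (r 2) = w 2 ∧ D (r 3) = 0 ∧ D (r 4) = 0 ∧ D (r 5) = 0 ∧ ∀ i, D (a i) = v i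

/-- NDR: there are such fields. -/
def Stmt_NDR : Prop :=
  ∀ n : ℕ, ∃ (K : Type) (_ : Field K) (_ : IsAlgClosed K) (_ : Algebra ℂ K) (r : Fin 6 → K)
    (a : Fin n → K), Function.Injective r ∧ Function.Injective a ∧ (∀ i j, a i ≠ r j) ∧
      IndepN r a

/-- NGE: the curve `y² = ∏ (x - r i)` with the marked points `(a i, b i)` is generic. -/
def Stmt_NGE : Prop :=
  ∀ {n : ℕ} {K : Type} [Field K] [Algebra ℂ K] (r : Fin 6 → K) (a b : Fin n → K)
    (h : ∀ i, b i ^ 2 = pol (rts r) (a i)), Function.Injective r → (∀ i j, a i ≠ r j) →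
    IndepN r a → IsStable 2 (Hyp (rts r)) → ∀ d : Defo 2 (HypS (rts r) a b h),
    ∃ (D : Derivation ℂ K K) (f : Arrow (Std.epsDer D) d.y (HypS (rts r) a b h)),
      d.r.f ≫ f.f = 𝟙 (HypS (rts r) a b h).X

/-- NAL: elements of an algebraic closure which are integral and invariant. -/
def Stmt_NAL : Prop :=
  ∀ (B : Type) [CommRing B] [IsDomain B] [IsIntegrallyClosed B] [CharZero B]
    (x : AlgebraicClosure (FractionRing B)), IsIntegral B x →
    (∀ σ : AlgebraicClosure (FractionRing B) ≃ₐ[FractionRing B] AlgebraicClosure (FractionRing B),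
      σ x = x) → ∃ b : B, algebraMap B (AlgebraicClosure (FractionRing B)) b = x

/-- NLY: homomorphisms to algebraically closed fields extend to integral extensions. -/
def Stmt_NLY : Prop :=
  ∀ (B R : Type) [CommRing B] [CommRing R] [Algebra B R] [FaithfulSMul B R]
    [Algebra.IsIntegral B R] (L : Type) [Field L] [IsAlgClosed L] (φ : B →+* L),
    ∃ ψ : R →+* L, ∀ b, ψ (algebraMap B R b) = φ b

end Pool.Agent.MG.H2
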