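import Pool.Agent.MG.H2.EndN

/-!
# The values at the curves `y² = f(x)` over integrally closed domains
-/

open Polynomial

namespace Pool.Agent.MG.H2

/-- The algebraic closure of the field of fractions. -/
abbrev Kbar (B : Type) [CommRing B] [IsDomain B] : Type := AlgebraicClosure (FractionRing B)

section roots

variable {K : Type} [Field K]

/-- Change of scale. -/
theorem dilf (σ : K) (ρ r : Fin 3 → K) :
    C ((σ ^ 3) ^ 2) * ((∏ i, (X - C (ρ i))) * ∏ j, (C (σ ^ 2) * X - C (r j))) =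
      ((∏ i, (X - C (σ ^ 2 * ρ i))) * ∏ j, (X - C (r j))).comp (C (σ ^ 2) * X) := by
  rw [mul_comp, Polynomial.prod_comp, Polynomial.prod_comp]
  simp only [sub_comp, X_comp, C_comp]
  have e1 : ∀ i, (C (σ ^ 2) * X - C (σ ^ 2 * ρ i) : K[X]) = C (σ ^ 2) * (X - C (ρ i)) := by
    intro i
    rw [C_mul]
    ring
  have e2 : (σ ^ 3) ^ 2 = (σ ^ 2) ^ 3 := by ring
  simp only [e1, Finset.prod_mul_distrib]
  rw [Finset.prod_const, Finset.card_univ, Fintype.card_fin, ← C_pow, e2, mul_assoc]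

theorem good_f {σ : K} {ρ r : Fin 3 → K} (hσ : σ ≠ 0) (h1 : ∀ i j, i ≠ j → ρ i ≠ ρ j)
    (h2 : ∀ i j, i ≠ j → r i ≠ r j) (h4 : ∀ i j, r j ≠ σ ^ 2 * ρ i) :
    Two2.Good ((∏ i, (X - C (σ ^ 2 * ρ i))) * ∏ j, (X - C (r j))) := by
  have hinj : Function.Injective (Sum.elim (fun i => σ ^ 2 * ρ i) r) := by
    rintro (i | i) (j | j) hij
    · by_contra hc
      exact h1 i j (fun h => hc (by rw [h])) (mul_left_cancel₀ (pow_ne_zero 2 hσ) hij)
    · exact absurd hij.symm (h4 i j)
    · exact absurd hij (h4 j i)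
    · by_contra hc
      exact h2 i j (fun h => hc (by rw [h])) hij
  have := Two2.good_prod (K := K) (ι := Fin 3 ⊕ Fin 3) (Or.inr (by simp)) _ hinj
  rw [Fintype.prod_sum_type] at this
  exact this

theorem good_f' {σ : K} {ρ r : Fin 3 → K} (hσ : σ ≠ 0) (h1 : ∀ i j, i ≠ j → ρ i ≠ ρ j)
    (h2 : ∀ i j, i ≠ j → r i ≠ r j) (h4 : ∀ i j, r j ≠ σ ^ 2 * ρ i) :
    Two2.Good ((∏ i, (X - C (ρ i))) * ∏ j, (C (σ ^ 2) * X - C (r j))) := by
  obtain ⟨v, hv⟩ := ((IsUnit.mk0 _ hσ).pow 6 : IsUnit (σ ^ 6)).exists_right_inv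
  have hvu : IsUnit v := IsUnit.of_mul_eq_one (σ ^ 6) (by rw [mul_comm]; exact hv)
  have h5 := ((good_f hσ h1 h2 h4).dil ((IsUnit.mk0 _ hσ).pow 2)).cmul hvu
  rw [← dilf, ← mul_assoc, ← C_mul] at h5
  have : v * (σ ^ 3) ^ 2 = 1 := by
    rw [← hv]
    ring
  rw [this, C_1, one_mul] at h5
  exact h5

end roots

section

variable {B : Type} [CommRing B] [IsDomain B] [Algebra ℂ B]

/-- `B → K`. -/
noncomputable def toK (B : Type) [CommRing B] [IsDomain B] [Algebra ℂ B] : B →ₐ[ℂ] Kbar B :=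
  IsScalarTower.toAlgHom ℂ B (Kbar B)

theorem toK_apply (b : B) : toK B b = algebraMap B (Kbar B) b := rfl

theorem toK_inj : Function.Injective (toK B) := by
  change Function.Injective (algebraMap B (Kbar B))
  rw [IsScalarTower.algebraMap_eq B (FractionRing B) (Kbar B)]
  exact (algebraMap (FractionRing B) (Kbar B)).injective.comp (IsFractionRing.injective B _)

end

namespace MdlN

variable {n : ℕ} (M : MdlN n)

section desc

variable {B : Type} [CommRing B] [IsDomain B] [Algebra ℂ B]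

/-- The integral closure of `B`. -/
abbrev RR (B : Type) [CommRing B] [IsDomain B] : Type := integralClosure B (Kbar B)

/-- Points over the integral closure. -/
theorem exists_pts (f : B[X]) (hf : Two2.Good f) : ∃ (b : Fin n → RR B),
    OnC (f.map (algebraMap B (RR B))) (ab n (RR B)) b ∧
      ∀ i, (b i : Kbar B) = od n (f.map (algebraMap B (Kbar B))) i := by
  have hint : ∀ i, IsIntegral B (od n (f.map (algebraMap B (Kbar B))) i) := by
    intro i
    refine IsIntegral.of_pow (n := 2) (by norm_num) ?_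
    rw [od_sq, ← ab_map (algebraMap B (Kbar B)) i, eval_map_apply]
    exact isIntegral_algebraMap
  refine ⟨fun i => ⟨_, hint i⟩, ⟨hf.map _, ab_unit, fun i => ?_⟩, fun i => rfl⟩
  apply Subtype.ext
  rw [← ab_map (algebraMap B (RR B)) i, eval_map_apply]
  change od n (f.map (algebraMap B (Kbar B))) i ^ 2 = algebraMap B (Kbar B) _
  rw [od_sq, ← ab_map (algebraMap B (Kbar B)) i, eval_map_apply]

/-- `R → K`. -/
noncomputable def rk (B : Type) [CommRing B] [IsDomain B] [Algebra ℂ B] : RR B →ₐ[ℂ] Kbar B :=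
  (integralClosure B (Kbar B)).val.restrictScalars ℂ

theorem rk_apply (v : RR B) : rk B v = (v : Kbar B) := rfl

/-- The value is the image of an element of the integral closure. -/
theorem exists_v (f : B[X]) (hf : Two2.Good f) : ∃ (b : Fin n → RR B) (_ : OnC
    (f.map (algebraMap B (RR B))) (ab n (RR B)) b),
    rk B (M.V (RR B) (f.map (algebraMap B (RR B))) (ab n (RR B)) b) =
      M.sk (f.map (algebraMap B (Kbar B))) := by
  obtain ⟨b, hb, -⟩ := exists_pts (n := n) f hf
  refine ⟨b, hb, ?_⟩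
  rw [← M.bc (rk B) _ _ _ hb]
  have e : (f.map (algebraMap B (RR B))).map (rk B : RR B →+* Kbar B) =
      f.map (algebraMap B (Kbar B)) := by
    rw [Polynomial.map_map]
    rfl
  have h1 := hb.map (rk B : RR B →+* Kbar B)
  rw [e] at h1 ⊢
  exact M.sk_eq h1

theorem sk_inv_gal (f : B[X]) (hf : Two2.Good f) (σ : Kbar B ≃ₐ[FractionRing B] Kbar B) :
    σ (M.sk (f.map (algebraMap B (Kbar B)))) = M.sk (f.map (algebraMap B (Kbar B))) := by
  let σ' : Kbar B →ₐ[ℂ] Kbar B := (σ : Kbar B →ₐ[FractionRing B] Kbar B).restrictScalars ℂ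
  have hf' : Two2.Good (f.map (algebraMap B (Kbar B))) := hf.map _
  have h1 : OnC (f.map (algebraMap B (Kbar B))) (ab n (Kbar B))
    (od n (f.map (algebraMap B (Kbar B)))) := onC hf'
  have e : (f.map (algebraMap B (Kbar B))).map (σ' : Kbar B →+* Kbar B) =
      f.map (algebraMap B (Kbar B)) := by
    rw [Polynomial.map_map]
    congr 1
    ext b
    change σ (algebraMap B (Kbar B) b) = algebraMap B (Kbar B) b
    rw [IsScalarTower.algebraMap_apply B (FractionRing B) (Kbar B)]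
    exact σ.commutes _
  have h2 := M.bc σ' _ _ _ h1
  have h3 := h1.map (σ' : Kbar B →+* Kbar B)
  rw [e] at h2 h3
  rw [show σ (M.sk (f.map (algebraMap B (Kbar B)))) = σ' (M.V (Kbar B)
    (f.map (algebraMap B (Kbar B))) (ab n (Kbar B)) (od n (f.map (algebraMap B (Kbar B))))) from rfl,
    ← h2]
  exact M.sk_eq h3

theorem exists_S [IsIntegrallyClosed B] (hNAL : Stmt_NAL) (f : B[X]) (hf : Two2.Good f) :
    ∃ s : B, toK B s = M.sk (f.map (algebraMap B (Kbar B))) := by
  have : CharZero B := charZero_of_injective_algebraMap (algebraMap ℂ B).injective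
  refine hNAL B _ ?_ (M.sk_inv_gal f hf)
  obtain ⟨b, -, h⟩ := M.exists_v f hf
  rw [← h]
  exact (M.V (RR B) (f.map (algebraMap B (RR B))) (ab n (RR B)) b).2

open Classical in
/-- The value over an integrally closed domain. -/
noncomputable def sn (B : Type) [CommRing B] [IsDomain B] [IsIntegrallyClosed B] [Algebra ℂ B]
    (f : B[X]) : B :=
  if h : ∃ s : B, toK B s = M.sk (f.map (algebraMap B (Kbar B))) then h.choose else 0

variable [IsIntegrallyClosed B] (hNAL : Stmt_NAL) (hNLY : Stmt_NLY)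

include hNAL in
theorem sn_spec {f : B[X]} (hf : Two2.Good f) :
    toK B (M.sn B f) = M.sk (f.map (algebraMap B (Kbar B))) := by
  have h := M.exists_S hNAL f hf
  unfold sn
  rw [dif_pos h]
  exact h.choose_spec

include hNAL hNLY in
theorem sn_ev {f : B[X]} (hf : Two2.Good f) {L : Type} [Field L] [IsAlgClosed L] [Algebra ℂ L]
    (ψ : B →ₐ[ℂ] L) : M.sk (f.map (ψ : B →+* L)) = ψ (M.sn B f) := by
  obtain ⟨b, hb, hv⟩ := M.exists_v f hf
  have hinj : Function.Injective (algebraMap B (RR B)) := by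
    intro x y h
    exact toK_inj (congrArg (fun z : RR B => (z : Kbar B)) h)
  have : FaithfulSMul B (RR B) := (faithfulSMul_iff_algebraMap_injective B (RR B)).2 hinj
  obtain ⟨ψ1, hψ1⟩ := hNLY B (RR B) L (ψ : B →+* L)
  let ψ' : RR B →ₐ[ℂ] L :=
    { ψ1 with
      commutes' := fun c => by
        change ψ1 (algebraMap ℂ (RR B) c) = _
        rw [IsScalarTower.algebraMap_apply ℂ B (RR B), hψ1]
        exact ψ.commutes c }
  have hψ' : ∀ x, ψ' (algebraMap B (RR B) x) = ψ x := hψ1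
  have e0 : M.V (RR B) (f.map (algebraMap B (RR B))) (ab n (RR B)) b =
      algebraMap B (RR B) (M.sn B f) := by
    apply Subtype.ext
    rw [← rk_apply, hv, ← M.sn_spec hNAL hf]
    rfl
  have h2 := M.bc ψ' _ _ _ hb
  have h3 := hb.map (ψ' : RR B →+* L)
  have e : (f.map (algebraMap B (RR B))).map (ψ' : RR B →+* L) = f.map (ψ : B →+* L) := by
    rw [Polynomial.map_map]
    congr 1
    ext x
    exact hψ1 x
  rw [e, e0, hψ'] at h2
  rw [e] at h3
  rw [← h2]
  exact (M.sk_eq h3).symm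

end desc

section dat

variable (hNAL : Stmt_NAL) (hNLY : Stmt_NLY)

include hNAL hNLY

theorem sn_nat (B B' : Type) [CommRing B] [IsDomain B] [IsIntegrallyClosed B] [Algebra ℂ B]
    [CommRing B'] [IsDomain B'] [IsIntegrallyClosed B'] [Algebra ℂ B'] (φ : B →ₐ[ℂ] B')
    (f : B[X]) (hf : Two2.Good f) : M.sn B' (f.map (φ : B →+* B')) = φ (M.sn B f) := by
  apply toK_inj (B := B')
  rw [M.sn_spec hNAL (hf.map _), Polynomial.map_map]
  exact M.sn_ev hNAL hNLY hf ((toK B').comp φ)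

theorem sn_reg (B K : Type) [CommRing B] [IsDomain B] [IsIntegrallyClosed B] [Field K]
    [Algebra ℂ B] [Algebra ℂ K] (φ : B →ₐ[ℂ] K) (hφ : Function.Injective φ) (s : B)
    (ρ r : Fin 3 → B) (hs : s ≠ 0)
    (h1 : ∀ i j, i ≠ j → IsUnit (ρ i - ρ j)) (h2 : ∀ i j, i ≠ j → IsUnit (r i - r j))
    (h3 : ∀ j, IsUnit (r j)) (h4 : ∀ i j, IsUnit (r j - s ^ 2 * ρ i)) :
    ∃ b : B, M.sn K
      (((∏ i, (X - C (s ^ 2 * ρ i))) * ∏ j, (X - C (r j)) : B[X]).map (φ : B →+* K)) =
        φ b := by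
  -- polynomials
  have ef : ∀ {R : Type} [CommRing R] (g : B →+* R),
      ((∏ i, (X - C (s ^ 2 * ρ i))) * ∏ j, (X - C (r j)) : B[X]).map g =
      (∏ i, (X - C (g s ^ 2 * g (ρ i)))) * ∏ j, (X - C (g (r j))) := by
    intro R _ g
    rw [Polynomial.map_mul, Polynomial.map_prod, Polynomial.map_prod]
    simp
  have ef' : ∀ {R R' : Type} [CommRing R] [CommRing R'] (g : R →+* R') (s : R) (ρ r : Fin 3 → R),
      ((∏ i, (X - C (ρ i))) * ∏ j, (C (s ^ 2) * X - C (r j)) : R[X]).map g =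
      (∏ i, (X - C (g (ρ i)))) * ∏ j, (C (g s ^ 2) * X - C (g (r j))) := by
    intro R R' _ _ g s ρ r
    rw [Polynomial.map_mul, Polynomial.map_prod, Polynomial.map_prod]
    simp
  have hne : ∀ {L : Type} [Field L] (g : B →+* L) {a b : B}, IsUnit (a - b) → g a ≠ g b := by
    intro L _ g a b h h'
    exact (h.map g).ne_zero (by rw [map_sub, h', sub_self])
  have h4' : ∀ {L : Type} [Field L] (g : B →+* L) (i j : Fin 3), g (r j) ≠ g s ^ 2 * g (ρ i) := by
    intro L _ g i j h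
    refine hne g (h4 i j) ?_
    rw [h, map_mul, map_pow]
  -- the algebraic closure
  let j : B →+* Kbar B := algebraMap B (Kbar B)
  have hj : Function.Injective j := toK_inj (B := B)
  have hs' : j s ≠ 0 := fun h0 => hs (hj (by rw [h0, map_zero]))
  have hgf := good_f hs' (fun i k hik => hne j (h1 i k hik)) (fun i k hik => hne j (h2 i k hik))
    (h4' j)
  have hgf' := good_f' hs' (fun i k hik => hne j (h1 i k hik))
    (fun i k hik => hne j (h2 i k hik)) (h4' j)
  have hdil := M.sk_dil hgf hgf' (j s ^ 2) (j s ^ 3) ((IsUnit.mk0 _ hs').pow 2)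
    ((IsUnit.mk0 _ hs').pow 3) (dilf _ _ _)
  -- the value
  have hval : ∃ v : RR B, rk B v = M.sk ((∏ i, (X - C (j s ^ 2 * j (ρ i)))) *
      ∏ k, (X - C (j (r k)))) := by
    let c : B →+* RR B := algebraMap B (RR B)
    have hc : ∀ x, rk B (c x) = j x := fun x => rfl
    set g : B[X] := (∏ i, (X - C (ρ i))) * ∏ j, (C (s ^ 2) * X - C (r j)) with hg
    have hint : ∀ i, IsIntegral B (od n (g.map j) i) := by
      intro i
      refine IsIntegral.of_pow (n := 2) (by norm_num) ?_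
      rw [od_sq, ← ab_map j i, eval_map_apply]
      exact isIntegral_algebraMap
    obtain ⟨v, hv⟩ := M.reg (R := RR B) (c s) (fun i => c (ρ i)) (fun i => c (r i)) (ab n (RR B))
      (fun i => ⟨_, hint i⟩) (fun h0 => hs' (by rw [← hc, h0, map_zero]))
      (fun i k hik => by rw [← map_sub]; exact (h1 i k hik).map c)
      (fun i k hik => by rw [← map_sub]; exact (h2 i k hik).map c)
      (fun k => (h3 k).map c)
      (fun i k => by rw [← map_pow, ← map_mul, ← map_sub]; exact (h4 i k).map c) ab_unit (by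
        intro i
        rw [← ef' c s ρ r, ← hg, ← ab_map c i, eval_map_apply]
        apply Subtype.ext
        change od n (g.map j) i ^ 2 = j _
        rw [od_sq, ← ab_map j i, eval_map_apply])
    refine ⟨v, ?_⟩
    have h5 := hv (Kbar B) (rk B) hs'
    rw [ef'] at h5
    rw [← h5, ← hdil]
    refine M.sk_eq ⟨hgf', fun i k hik => ?_, fun i => ?_⟩
    · rw [← map_sub]
      exact (ab_unit i k hik).map (rk B)
    · have e : (∏ i, (X - C (j (ρ i)))) * ∏ k, (C (j s ^ 2) * X - C (j (r k))) = g.map j :=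
        (ef' j s ρ r).symm
      have e2 : (∏ i, (X - C ((rk B : RR B →+* Kbar B) (c (ρ i))))) *
          ∏ k, (C ((rk B : RR B →+* Kbar B) (c s) ^ 2) * X -
            C ((rk B : RR B →+* Kbar B) (c (r k)))) = g.map j := e
      rw [e2]
      change od n (g.map j) i ^ 2 = _
      have e3 : rk B (ab n (RR B) i) = ab n (Kbar B) i := ab_map (rk B : RR B →+* Kbar B) i
      rw [od_sq, e3]
  obtain ⟨v, hv⟩ := hval
  -- the field of fractions
  let q : B →+* FractionRing B := algebraMap B (FractionRing B)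
  have hq : Function.Injective q := IsFractionRing.injective B _
  have hsq : q s ≠ 0 := fun h0 => hs (hq (by rw [h0, map_zero]))
  have hgq := good_f hsq (fun i k hik => hne q (h1 i k hik)) (fun i k hik => hne q (h2 i k hik))
    (h4' q)
  let ψ : FractionRing B →ₐ[ℂ] Kbar B := IsScalarTower.toAlgHom ℂ (FractionRing B) (Kbar B)
  have hev := M.sn_ev hNAL hNLY hgq ψ
  have eq1 : ((∏ i, (X - C (q s ^ 2 * q (ρ i)))) * ∏ k, (X - C (q (r k))) :
      (FractionRing B)[X]).map (ψ : FractionRing B →+* Kbar B) =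
      (∏ i, (X - C (j s ^ 2 * j (ρ i)))) * ∏ k, (X - C (j (r k))) := by
    rw [← ef q, Polynomial.map_map, ← ef j]
    rfl
  rw [eq1, ← hv] at hev
  have hint : IsIntegral B (M.sn (FractionRing B)
      ((∏ i, (X - C (q s ^ 2 * q (ρ i)))) * ∏ k, (X - C (q (r k))))) := by
    refine (isIntegral_algebraMap_iff (B := Kbar B)
      (algebraMap (FractionRing B) (Kbar B)).injective).1 ?_
    have h6 : IsIntegral B (v : Kbar B) := v.2
    rw [← rk_apply, hev] at h6
    exact h6
  obtain ⟨b, hb⟩ := IsIntegrallyClosed.isIntegral_iff.1 hint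
  refine ⟨b, ?_⟩
  let φ' : FractionRing B →ₐ[ℂ] K := IsLocalization.liftAlgHom (M := nonZeroDivisors B) (f := φ)
    (fun y => IsUnit.mk0 _ (fun h0 => nonZeroDivisors.ne_zero y.2 (hφ (by rw [h0, map_zero]))))
  have hφ' : ∀ x, φ' (q x) = φ x := fun x => IsLocalization.lift_eq _ _
  have h7 := M.sn_nat hNAL hNLY (FractionRing B) K φ' _ hgq
  rw [← ef q, Polynomial.map_map] at h7
  have e8 : (φ' : FractionRing B →+* K).comp q = (φ : B →+* K) := RingHom.ext hφ'
  rw [e8] at h7
  rw [h7, ef q, ← hb]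
  exact hφ' b

/-- The data over integrally closed domains. -/
noncomputable def datN : Two2.DatN ℂ where
  S B _ _ _ _ f _ := M.sn B f
  nat B B' _ _ _ _ _ _ _ _ φ f _ hf _ := M.sn_nat hNAL hNLY B B' φ f hf
  scal B _ _ _ _ u f _ hu hf _ := by
    apply toK_inj (B := B)
    rw [M.sn_spec hNAL hf, M.sn_spec hNAL (hf.cmul (hu.pow 2)), Polynomial.map_mul, map_C, map_pow,
      M.sk_scal (hf.map _) _ (hu.map _)]
  trans B _ _ _ _ t f _ hf _ := by
    apply toK_inj (B := B)
    rw [M.sn_spec hNAL hf, M.sn_spec hNAL (hf.shift t), Mdl.comp_map, M.sk_trans (hf.map _)]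
  inv B _ _ _ _ f _ hf _ := by
    apply toK_inj (B := B)
    rw [M.sn_spec hNAL hf, M.sn_spec hNAL hf.reflect, ← reflect_map, M.sk_inv (hf.map _)]
  reg B K _ _ _ _ _ _ φ hφ s ρ r _ hs h1 h2 h3 h4 :=
    M.sn_reg hNAL hNLY B K φ hφ s ρ r hs h1 h2 h3 h4

/-- The values are constant. -/
theorem const (hA : Two2.AlgN_Stmt) : ∃ c : ℂ, ∀ (K : Type) [Field K] [IsAlgClosed K]
    [Algebra ℂ K] (f : K[X]) (a b : Fin n → K), OnC f a b → M.V K f a b = algebraMap ℂ K c := by
  obtain ⟨c, hc⟩ := hA ℂ (M.datN hNAL hNLY)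
  refine ⟨c, fun K _ _ _ f a b h => ?_⟩
  have h1 := M.sn_ev hNAL hNLY h.good (AlgHom.id ℂ K)
  have e5 : ((AlgHom.id ℂ K : K →ₐ[ℂ] K) : K →+* K) = RingHom.id K := rfl
  rw [e5, Polynomial.map_id] at h1
  rw [M.sk_eq h, h1]
  exact hc K f 0 h.good (by simp)

end dat

end MdlN

end Pool.Agent.MG.H2
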