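import Pool.Agent.MG.H2.StmtsN

/-!
# Integral and invariant elements of an algebraic closure (PAPER_N, NAL)
-/

namespace Pool.Agent.MG.H2

theorem t_NAL : Stmt_NAL := by
  intro B _ _ _ _ x hx hσ
  obtain ⟨q, rfl⟩ := (InfiniteGalois.mem_range_algebraMap_iff_fixed
    (k := FractionRing B) (K := AlgebraicClosure (FractionRing B)) x).2 hσ
  have hq : IsIntegral B q := by
    refine (isIntegral_algHom_iff (IsScalarTower.toAlgHom B (FractionRing B)
      (AlgebraicClosure (FractionRing B))) ?_).1 hx
    exact (algebraMap (FractionRing B) (AlgebraicClosure (FractionRing B))).injective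
  obtain ⟨b, rfl⟩ := IsIntegrallyClosed.isIntegral_iff.1 hq
  exact ⟨b, IsScalarTower.algebraMap_apply B (FractionRing B) _ b⟩

end Pool.Agent.MG.H2
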