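import Pool.Agent.MG.H2.StmtsN

/-!
# Homomorphisms to algebraically closed fields extend to integral extensions
-/

open CategoryTheory CategoryTheory.Limits AlgebraicGeometry TensorProduct

namespace Pool.Agent.MG.H2

theorem NLY.main (B R : Type) [CommRing B] [CommRing R] [Algebra B R] [FaithfulSMul B R]
    [Algebra.IsIntegral B R] (L : Type) [Field L] [IsAlgClosed L] (φ : B →+* L) :
    ∃ ψ : R →+* L, ∀ b, ψ (algebraMap B R b) = φ b := by
  have hp : (RingHom.ker φ).IsPrime := RingHom.ker_isPrime φ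
  have h0 : RingHom.ker (algebraMap B R) ≤ RingHom.ker φ := by
    rw [(RingHom.injective_iff_ker_eq_bot _).1 (FaithfulSMul.algebraMap_injective B R)]
    exact bot_le
  obtain ⟨P, -, hP, hPc⟩ := Ideal.exists_ideal_over_prime_of_isIntegral (RingHom.ker φ)
    (⊥ : Ideal R) (by simpa only [RingHom.ker_eq_comap_bot] using h0)
  let _ : Algebra (B ⧸ P.comap (algebraMap B R)) L :=
    (Ideal.Quotient.lift (P.comap (algebraMap B R)) φ (by
      intro a ha
      rw [hPc] at ha
      exact ha)).toAlgebra
  have hinj : Function.Injective (algebraMap (B ⧸ P.comap (algebraMap B R)) L) := by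
    rw [injective_iff_map_eq_zero]
    intro a ha
    obtain ⟨b, rfl⟩ := Ideal.Quotient.mk_surjective a
    have h1 : φ b = 0 := ha
    rw [Ideal.Quotient.eq_zero_iff_mem, hPc]
    exact h1
  have hinj2 : Function.Injective (algebraMap (B ⧸ P.comap (algebraMap B R)) (R ⧸ P)) :=
    FaithfulSMul.algebraMap_injective _ _
  have : IsDomain (B ⧸ P.comap (algebraMap B R)) := inferInstance
  have : IsDomain (R ⧸ P) := inferInstance
  have : Module.IsTorsionFree (B ⧸ P.comap (algebraMap B R)) L :=
    Module.isTorsionFree_iff_algebraMap_injective.2 hinj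
  have : Module.IsTorsionFree (B ⧸ P.comap (algebraMap B R)) (R ⧸ P) :=
    Module.isTorsionFree_iff_algebraMap_injective.2 hinj2
  have : Algebra.IsIntegral (B ⧸ P.comap (algebraMap B R)) (R ⧸ P) := inferInstance
  have : Algebra.IsAlgebraic (B ⧸ P.comap (algebraMap B R)) (R ⧸ P) := inferInstance
  let f : (R ⧸ P) →ₐ[B ⧸ P.comap (algebraMap B R)] L := IsAlgClosed.lift
  refine ⟨(f : (R ⧸ P) →+* L).comp (Ideal.Quotient.mk P), fun b => ?_⟩
  have h1 : f (algebraMap (B ⧸ P.comap (algebraMap B R)) (R ⧸ P)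
      (Ideal.Quotient.mk (P.comap (algebraMap B R)) b)) = _ := f.commutes _
  exact h1

theorem t_NLY : Stmt_NLY := NLY.main

end Pool.Agent.MG.H2
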