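import Pool.Agent.MG.H2.StmtsN

/-!
# Disjoint sections in the smooth locus of a stable curve (NPT)
-/

set_option autoImplicit false

open CategoryTheory CategoryTheory.Limits AlgebraicGeometry TensorProduct

namespace Pool.Agent.MG.H2

namespace NPT

/-- The family without the sections. -/
def forget {m : ℕ} {K : Type} [CommRing K] (z : Fam m K) : Fam 0 K where
  X := z.X
  π := z.π
  σ := fun i => i.elim0
  sec := fun i => i.elim0

/-- The arrow without the sections. -/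
def arrow {m : ℕ} {A K : Type} [CommRing A] [CommRing K] {s : A →+* K} {z : Fam m K}
    {y : Fam m A} (a : Arrow s z y) (x : Fam 0 A) (hX : y.X = x.X) (hπ : HEq y.π x.π) :
    Arrow s (forget z) x := by
  obtain ⟨X, π, τ, hτ⟩ := x
  obtain ⟨Y, ρ, σ, hσ⟩ := y
  dsimp only at hX
  subst hX
  obtain rfl := eq_of_heq hπ
  exact ⟨a.f, a.cart, fun i => i.elim0⟩

theorem smooth_aux {Z X S T : Scheme.{0}} {f : Z ⟶ X} {p : Z ⟶ T} {q : X ⟶ S} {r : T ⟶ S}
    (h : IsPullback f p q r) (U : X.Opens) (hU : Smooth (U.ι ≫ q)) :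
    Smooth ((f ⁻¹ᵁ U).ι ≫ p) := by
  have h1 : IsPullback (f ∣_ U) (f ⁻¹ᵁ U).ι U.ι f := isPullback_morphismRestrict f U
  exact MorphismProperty.of_isPullback (P := @Smooth) (h1.paste_vert h) hU

theorem mem_aux {Z X S T : Scheme.{0}} {f : Z ⟶ X} {p : T ⟶ Z} {q : S ⟶ X} {r : T ⟶ S}
    (h : p ≫ f = r ≫ q) (U : X.Opens) (hU : ∀ s, q s ∈ U) (t : T) : p t ∈ f ⁻¹ᵁ U := by
  show f (p t) ∈ U
  rw [← Scheme.Hom.comp_apply, h, Scheme.Hom.comp_apply]
  exact hU _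

end NPT

theorem t_NPT : Stmt_NPT := by
  intro m A _ g x hx σ hσ hsm hdis
  refine ⟨hx.proper, hx.flat, hx.fp, fun K _ _ s z hz => ?_⟩
  obtain ⟨a⟩ := hz
  have h0 : StableCurve g (NPT.forget z) :=
    hx.fib K s (NPT.forget z) ⟨NPT.arrow a x rfl HEq.rfl⟩
  have hsec : ∀ i, z.σ i ≫ a.f = spMap s ≫ σ i := a.sec
  refine ⟨h0.connected, h0.nodal, h0.genus, ?_, ?_, ?_⟩
  · intro i j hij he
    exact hdis K s i j hij (by rw [← hsec i, ← hsec j, he])
  · intro i t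
    obtain ⟨U, hU, hmem⟩ := hsm i
    refine ⟨a.f ⁻¹ᵁ U, ?_, NPT.smooth_aux a.cart U hU⟩
    exact NPT.mem_aux (hsec i) U hmem t
  · intro v U
    exact h0.rigid ⟨v.D, v.mul, v.const, v.res, fun _ i => i.elim0⟩ U

end Pool.Agent.MG.H2
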