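import Pool.Agent.MG.H2.GeoR
import Pool.Agent.MG.H2.EF
import Pool.Agent.MG.H2.EndC
import Pool.Agent.MG.H2.NPT
import Pool.Agent.MG.H2.NAL
import Pool.Agent.MG.H2.NLY
import Pool.Agent.MG.WL.ARW
import Pool.Agent.MG.PointedS

/-!
# The case `(g, n) = (2, n)`, `n ≥ 1`: every regular function is constant
-/

open CategoryTheory CategoryTheory.Limits AlgebraicGeometry Polynomial

namespace Pool.Agent.MG.H2

open GeoN

/-- What is used about the curves `y² = f(x)` and their degenerations. -/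
structure InpN : Prop where
  hNMA : Stmt_NMA
  hHBC : Stmt_HBC
  hASC : Stmt_ASC
  hATR : Stmt_ATR
  hASW : Stmt_ASW
  hYHT : Stmt_YHT
  hYST : Stmt_YST
  hYSM : Stmt_YSM
  hYOR : Stmt_YOR
  hYAR : Stmt_YAR
  hA : Two2.AlgN_Stmt

/-- The values at the zero covector. -/
noncomputable def InpN.mdl (H : InpN) {n : ℕ} (F : Reg 2 n) : MdlN n :=
  mdlN F t_NPT H.hYHT H.hHBC H.hASC H.hATR H.hASW H.hNMA H.hYST H.hYSM H.hYOR H.hYAR

/-- The value at the zero covector of a marked curve `y² = ∏ (x - r i)` is constant. -/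
theorem InpN.const (H : InpN) {n : ℕ} (F : Reg 2 n) : ∃ c : ℂ,
    ∀ (K : Type) [Field K] [IsAlgClosed K] [Algebra ℂ K] (f : K[X]) (a b : Fin n → K)
      (h : OnC f a b), F.F K (HypS (cf7 f) a b (onh h)) (stab t_NPT H.hYHT h) 0 =
        algebraMap ℂ K c := by
  obtain ⟨c, hc⟩ := (H.mdl F).const t_NAL t_NLY H.hA
  refine ⟨c, fun K _ _ _ f a b h => ?_⟩
  rw [← hc K f a b h]
  exact (VN_eq F t_NPT H.hYHT h).symm

/-- Every regular function is constant at the zero covectors. -/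
theorem InpN.zero (H : InpN) {n : ℕ} (F : Reg 2 n) : ∃ c : ℂ,
    ∀ (K : Type) [Field K] [IsAlgClosed K] [Algebra ℂ K] (C : Fam n K) (hC : IsStable 2 C)
      (_ : Smooth C.π), F.F K C hC 0 = algebraMap ℂ K c := by
  obtain ⟨c, hc⟩ := H.const F
  refine ⟨c, fun K _ _ _ C hC hs => ?_⟩
  have : CharZero K := charZero_of_injective_algebraMap (algebraMap ℂ K).injective
  have hSC := CST.stableCurve hC
  have hs1 : SmoothOfRelativeDimension 1 C.π :=
    SmNod.smoothOfRelativeDimension_one C.π hSC.nodal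
  let C₀ : Fam 0 K := ⟨C.X, C.π, fun i => i.elim0, fun i => i.elim0⟩
  obtain ⟨r, hr, a, ha⟩ := efg C₀ hC.proper hSC.connected hSC.genus hs1
  set f : K[X] := ∏ i, (X - Polynomial.C (r i)) with hf
  have hgood : Two2.Good f := good_rts r hr
  have hst0 : IsStable 2 C₀ := WL.arrow_stable a (H.hYHT (rts r) (hsm hgood))
  have hO : OnC f (MdlN.ab n K) (MdlN.od n f) := MdlN.onC hgood
  have hid : spMap (RingHom.id K) = 𝟙 (Sp K) := Spec.map_id _
  have hπ : inv a.f ≫ C₀.π = HX.pr K (cf7 f) := by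
    rw [IsIso.inv_comp_eq]
    have := a.cart.w
    rw [hid] at this
    exact (this.trans (Category.comp_id _)).symm
  let tr : ∀ x y : K, y ^ 2 = pol (cf7 f) x → (Sp K ⟶ C₀.X) := fun x y h =>
    (show Sp K ⟶ (Hyp (rts r)).X from pnt (cf7 f) x y h) ≫ inv a.f
  have htr : ∀ x y h, tr x y h ≫ C₀.π = 𝟙 (Sp K) := by
    intro x y h
    exact (Category.assoc _ _ _).trans ((congrArg (fun z => (show Sp K ⟶ (Hyp (rts r)).X from
      pnt (cf7 f) x y h) ≫ z) hπ).trans (pnt_pr (cf7 f) x y h))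
  have htf : ∀ x y h, tr x y h ≫ a.f = pnt (cf7 f) x y h := by
    intro x y h
    exact (Category.assoc _ _ _).trans ((congrArg (fun z => (show Sp K ⟶ (Hyp (rts r)).X from
      pnt (cf7 f) x y h) ≫ z) (IsIso.inv_hom_id a.f)).trans (Category.comp_id _))
  have hinj : ∀ {x y x' y' : K} (h : y ^ 2 = pol (cf7 f) x) (h' : y' ^ 2 = pol (cf7 f) x'),
      tr x y h = tr x' y' h' → x = x' := by
    intro x y x' y' h h' e
    have e2 : pnt (cf7 f) x y h = pnt (cf7 f) x' y' h' := by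
      rw [← htf x y h, ← htf x' y' h', e]
    exact pnt_inj (RingHom.id K) h h' (by rw [e2])
  have hinf : {s : Sp K ⟶ C₀.X | s ≫ C₀.π = 𝟙 (Sp K)}.Infinite := by
    let sq : ∀ x : K, ∃ y : K, y ^ 2 = pol (cf7 f) x :=
      fun x => IsAlgClosed.exists_pow_nat_eq _ (by norm_num)
    have hinf : Infinite K := Infinite.of_injective _ (algebraMap ℂ K).injective
    refine Set.infinite_of_injective_forall_mem
      (f := fun x : K => tr x (sq x).choose (sq x).choose_spec) ?_ ?_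
    · intro x x' e
      exact hinj _ _ e
    · intro x
      exact htr _ _ _
  let τ : Fin n → (Sp K ⟶ C₀.X) := fun i => tr (MdlN.ab n K i) (MdlN.od n f i) (onh hO i)
  have hτ : ∀ i, τ i ≫ C₀.π = 𝟙 (Sp K) := fun i => htr _ _ _
  let b : Arrow (RingHom.id K) (wpt C₀ τ hτ)
      (HypS (cf7 f) (MdlN.ab n K) (MdlN.od n f) (onh hO)) := ⟨a.f, a.cart, fun i => by
        rw [hid]
        exact (htf _ _ _).trans (Category.id_comp _).symm⟩
  have h2 : IsStable 2 (wpt C₀ τ hτ) := WL.arrow_stable b (stab t_NPT H.hYHT hO)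
  have iσ : Function.Injective C.σ := by
    intro i j e
    by_contra hc
    exact hSC.distinct i j hc e
  have iτ : Function.Injective τ := by
    intro i j e
    by_contra hc
    exact (hO.dj i j hc).ne_zero (by rw [hinj _ _ e, sub_self])
  have key := H.hNMA 2 le_rfl F C₀ hst0 hs1 hinf C.σ τ C.sec hτ iσ iτ hC h2
  have e1 : F.F K C hC 0 = F.F K (wpt C₀ τ hτ) h2 0 := key
  rw [e1, val0' F (stab t_NPT H.hYHT hO) h2 b]
  exact hc K f _ _ hO

/-- Every regular function is constant. -/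
theorem InpN.all (H : InpN) {n : ℕ} (hn : 1 ≤ n) (F : Reg 2 n) : ∃ c : ℂ,
    ∀ (K : Type) [Field K] [IsAlgClosed K] [Algebra ℂ K] (C : Fam n K) (hC : IsStable 2 C)
      (_ : Smooth C.π) (l : Cov 2 C), F.F K C hC l = algebraMap ℂ K c := by
  obtain ⟨c, hc⟩ := H.zero F
  refine ⟨c, fun K _ _ _ C hC hs l => ?_⟩
  rw [pointed_smooth 2 n le_rfl hn K F C hC hs l]
  exact hc K C hC hs

/-- The generic curve. -/
theorem InpN.rigid (H : InpN) {n : ℕ} (hn : 1 ≤ n) (hNDR : Stmt_NDR) (hNGE : Stmt_NGE) :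
    Std.Rigid 2 n := by
  obtain ⟨K, i1, i2, i3, r, a, hr, ha, hne, hI⟩ := hNDR n
  set f : K[X] := ∏ i, (X - Polynomial.C (r i)) with hf
  have hgood : Two2.Good f := good_rts r hr
  choose b hb using fun i : Fin n =>
    IsAlgClosed.exists_pow_nat_eq (f.eval (a i)) (n := 2) (by norm_num)
  have hO : OnC f a b := by
    refine ⟨hgood, fun i j hij => IsUnit.mk0 _ ?_, hb⟩
    rw [sub_ne_zero]
    exact fun e => hij (ha e)
  have hst : IsStable 2 (HypS (cf7 f) a b (onh hO)) := stab t_NPT H.hYHT hO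
  have hsm : Smooth (HX.pr K (cf7 f)) := by
    have h1 : SmoothOfRelativeDimension 1 (HX.pr K (cf7 f)) := sm_hyp two_unit hgood
    exact SmoothOfRelativeDimension.smooth 1 _
  refine ⟨K, i1, i2, i3, HypS (cf7 f) a b (onh hO), (Std.stable_iff 2 _).2 hst, hsm, ?_, ?_⟩
  · intro d
    exact hNGE r a b (onh hO) hr hne hI (H.hYHT (rts r) (GeoN.hsm hgood)) (Std.Defo.to d)
  · intro F
    obtain ⟨c, hc⟩ := H.all hn (Std.Reg.to F)
    exact ⟨c, fun l => (Std.Reg.to_F F K _ _ l).trans (hc K _ hst hsm (Std.Cov.to l))⟩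

end Pool.Agent.MG.H2
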