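import Pool.Agent.MG.H2.StmtsH
import Pool.Agent.MG.W.WEA

/-!
# HEA: ring data of thickenings of curves `y² = f(x)` are curves `y² = f'(x)`
-/

open CategoryTheory CategoryTheory.Limits AlgebraicGeometry TensorProduct

namespace Pool.Agent.MG.H2.HEAx

open Pool.Agent.MG.W.WEA (ker_p p_surj eps_kill ker_sq unit_lift bij quo_surj quo_ker)

/-! ### Laurent polynomials -/

section laurent

variable {R S : Type} [CommRing R] [CommRing S]

theorem val_zpow_a (x : Sˣ) (m : ℕ) : (x ^ ((m : ℤ) - 1)).val = (x⁻¹ : Sˣ).val * x.val ^ m := by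
  rw [zpow_sub_one, zpow_natCast, Units.val_mul, Units.val_pow_eq_pow_val, mul_comm]

theorem val_zpow_b (x : Sˣ) (m : ℕ) : (x ^ (-2 - (m : ℤ))).val = (x⁻¹ : Sˣ).val ^ (m + 2) := by
  have h : (-2 - (m : ℤ)) = -((m + 2 : ℕ) : ℤ) := by push_cast; ring
  rw [h, zpow_neg, zpow_natCast, ← inv_pow, Units.val_pow_eq_pow_val]

theorem cases_int (n : ℤ) : (∃ m : ℕ, n = m - 1) ∨ (∃ m : ℕ, n = -2 - m) := by
  rcases le_or_gt (-1) n with h | h
  · exact Or.inl ⟨(n + 1).toNat, by omega⟩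
  · exact Or.inr ⟨(-2 - n).toNat, by omega⟩

/-- Decomposition in nonnegative and nonpositive powers. -/
theorem split_laurent (φ : R →+* S) (x : Sˣ) (L : LaurentPolynomial R) :
    ∃ α β : Polynomial R, LaurentPolynomial.eval₂ φ x L =
      α.eval₂ φ (x : S) - β.eval₂ φ ((x⁻¹ : Sˣ) : S) := by
  refine LaurentPolynomial.induction_on' L ?_ ?_
  · rintro p q ⟨α, β, h⟩ ⟨α', β', h'⟩
    refine ⟨α + α', β + β', ?_⟩
    rw [map_add, h, h', Polynomial.eval₂_add, Polynomial.eval₂_add]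
    ring
  · intro n a
    rw [LaurentPolynomial.eval₂_C_mul_T]
    rcases cases_int n with ⟨m, rfl⟩ | ⟨m, rfl⟩
    · rw [val_zpow_a]
      rcases m with _ | m
      · refine ⟨0, -(Polynomial.C a * Polynomial.X), ?_⟩
        simp
      · refine ⟨Polynomial.C a * Polynomial.X ^ m, 0, ?_⟩
        simp only [Polynomial.eval₂_mul, Polynomial.eval₂_C, Polynomial.eval₂_pow,
          Polynomial.eval₂_X, Polynomial.eval₂_zero, sub_zero]
        have h := x.inv_mul
        rw [pow_succ]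
        linear_combination φ a * x.val ^ m * h
    · rw [val_zpow_b]
      refine ⟨0, -(Polynomial.C a * Polynomial.X ^ (m + 2)), ?_⟩
      simp

end laurent

/-! ### The ring of the intersection -/

section inter

variable {B : Type} [CommRing B] (f : Fin 7 → B)

/-- The polynomial with coefficients `f`. -/
noncomputable def Fp : Polynomial B := pol (fun i => Polynomial.C (f i)) Polynomial.X

theorem Fp_eval {R : Type} [CommRing R] (φ : B →+* R) (x : R) :
    (Fp f).eval₂ φ x = pol (fun i => φ (f i)) x := by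
  have h := pol_map (Polynomial.eval₂RingHom φ x) (fun i => Polynomial.C (f i)) Polynomial.X
  simpa [Fp] using h

theorem g1_x : g1 B f (x1 B f) = (xu B f).val := rfl

theorem dec (hR : Stmt_HRG) (v : A12 B f) : ∃ (a : A1 B f) (b : A2 B f),
    v = ((xu B f)⁻¹ : (A12 B f)ˣ).val * g1 B f a + (xu B f).val * g2 B f b := by
  have hP : ∀ L : LaurentPolynomial B, ∃ (a : A1 B f) (b : A2 B f),
      LaurentPolynomial.eval₂ (algebraMap B (A12 B f)) (xu B f) L =
      ((xu B f)⁻¹ : (A12 B f)ˣ).val * g1 B f a + (xu B f).val * g2 B f b := by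
    intro L
    refine LaurentPolynomial.induction_on' L ?_ ?_
    · rintro p q ⟨a, b, h⟩ ⟨a', b', h'⟩
      refine ⟨a + a', b + b', ?_⟩
      rw [map_add, h, h', map_add, map_add]
      ring
    · intro n c
      rw [LaurentPolynomial.eval₂_C_mul_T]
      rcases cases_int n with ⟨m, rfl⟩ | ⟨m, rfl⟩
      · refine ⟨algebraMap B _ c * x1 B f ^ m, 0, ?_⟩
        rw [val_zpow_a, map_mul, map_pow, g1_x, g1_b, map_zero]
        ring
      · refine ⟨0, algebraMap B _ c * x1 B (rev f) ^ (m + 3), ?_⟩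
        rw [val_zpow_b, map_mul, map_pow, g2_u, g2_b, map_zero]
        have h := (xu B f).mul_inv
        rw [pow_succ _ (m + 2)]
        linear_combination -(algebraMap B (A12 B f) c *
          ((xu B f)⁻¹ : (A12 B f)ˣ).val ^ (m + 2)) * h
  have hQ : ∀ L : LaurentPolynomial B, ∃ (a : A1 B f) (b : A2 B f),
      LaurentPolynomial.eval₂ (algebraMap B (A12 B f)) (xu B f) L * yv B f =
      ((xu B f)⁻¹ : (A12 B f)ˣ).val * g1 B f a + (xu B f).val * g2 B f b := by
    intro L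
    refine LaurentPolynomial.induction_on' L ?_ ?_
    · rintro p q ⟨a, b, h⟩ ⟨a', b', h'⟩
      refine ⟨a + a', b + b', ?_⟩
      rw [map_add, add_mul, h, h', map_add, map_add]
      ring
    · intro n c
      rw [LaurentPolynomial.eval₂_C_mul_T]
      rcases cases_int n with ⟨m, rfl⟩ | ⟨m, rfl⟩
      · refine ⟨algebraMap B _ c * x1 B f ^ m * y1 B f, 0, ?_⟩
        rw [val_zpow_a, map_mul, map_mul, map_pow, g1_x, g1_b, g1_y, map_zero]
        ring
      · refine ⟨0, algebraMap B _ c * x1 B (rev f) ^ m * y1 B (rev f), ?_⟩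
        rw [val_zpow_b, map_mul, map_mul, map_pow, g2_u, g2_b, g2_v, map_zero,
          Units.val_pow_eq_pow_val]
        have h := (xu B f).mul_inv
        rw [pow_succ _ 2, pow_add]
        linear_combination -(algebraMap B (A12 B f) c * yv B f *
          ((xu B f)⁻¹ : (A12 B f)ˣ).val ^ m * ((xu B f)⁻¹ : (A12 B f)ˣ).val ^ 2) * h
  obtain ⟨⟨P, Q⟩, h, -⟩ := (hR B f).2.2.2 v
  obtain ⟨a, b, h1⟩ := hP P
  obtain ⟨a', b', h2⟩ := hQ Q
  refine ⟨a + a', b + b', ?_⟩
  rw [h]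
  simp only
  rw [h1, h2, map_add, map_add]
  ring

theorem y_part (hR : Stmt_HRG) (h2 : IsUnit (2 : B)) (w : A12 B f) (G : LaurentPolynomial B)
    (h : 2 * yv B f * ((xu B f)⁻¹ : (A12 B f)ˣ).val ^ 3 * w =
      LaurentPolynomial.eval₂ (algebraMap B (A12 B f)) (xu B f) G) :
    ∃ α β : Polynomial B, w = yv B f * ((xu B f)⁻¹ : (A12 B f)ˣ).val ^ 3 *
      (α.eval₂ (algebraMap B (A12 B f)) (xu B f).val -
        β.eval₂ (algebraMap B (A12 B f)) ((xu B f)⁻¹ : (A12 B f)ˣ).val) := by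
  obtain ⟨⟨L1, L2⟩, hw, -⟩ := (hR B f).2.2.2 w
  simp only at hw
  obtain ⟨ev, hev⟩ : ∃ ev : LaurentPolynomial B →+* A12 B f,
    ev = LaurentPolynomial.eval₂ (algebraMap B (A12 B f)) (xu B f) := ⟨_, rfl⟩
  have hT : ev (LaurentPolynomial.T (-3)) = ((xu B f)⁻¹ : (A12 B f)ˣ).val ^ 3 := by
    rw [hev]
    exact LaurentPolynomial.eval₂_T_neg_n _ _ 3
  have hT3 : ev (LaurentPolynomial.T 3) = (xu B f).val ^ 3 := by
    rw [hev]
    exact LaurentPolynomial.eval₂_T_n _ _ 3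
  have hF : ev (Polynomial.toLaurent (Fp f)) = yv B f ^ 2 := by
    rw [hev, LaurentPolynomial.eval₂_toLaurent, Fp_eval, rel12]
  have hex := (hR B f).2.2.2 (ev G)
  obtain ⟨pq, -, hu⟩ := hex
  have e1 := hu (2 * LaurentPolynomial.T (-3) * L2 * Polynomial.toLaurent (Fp f),
    2 * LaurentPolynomial.T (-3) * L1) (by
      simp only
      rw [← hev, hev, ← h, ← hev]
      simp only [map_mul, map_ofNat, hT, hF]
      rw [hw, ← hev]
      ring)
  have e2 := hu (G, 0) (by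
      simp only
      rw [← hev, map_zero]
      ring)
  have e3 := congrArg Prod.snd (e1.trans e2.symm)
  simp only at e3
  have hu2 : IsUnit (2 * LaurentPolynomial.T (-3) : LaurentPolynomial B) := by
    refine IsUnit.mul ?_ (LaurentPolynomial.isUnit_T _)
    have := h2.map (LaurentPolynomial.C (R := B))
    rwa [map_ofNat] at this
  have hL1 : L1 = 0 := by
    have := hu2.mul_left_cancel (a := (2 * LaurentPolynomial.T (-3) : LaurentPolynomial B))
      (b := L1) (c := 0) (by rw [e3, mul_zero])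
    exact this
  obtain ⟨α, β, hαβ⟩ := split_laurent (algebraMap B (A12 B f)) (xu B f)
    (LaurentPolynomial.T 3 * L2)
  refine ⟨α, β, ?_⟩
  rw [← hαβ, ← hev, map_mul, hT3, hw, hL1, ← hev, map_zero]
  have h3 : ((xu B f)⁻¹ : (A12 B f)ˣ).val ^ 3 * (xu B f).val ^ 3 = 1 := by
    rw [← mul_pow, Units.inv_mul, one_pow]
  linear_combination -(yv B f * ev L2) * h3

theorem eval_inj (hR : Stmt_HRG) {P Q : Polynomial B}
    (h : P.eval₂ (algebraMap B (A12 B f)) (xu B f).val =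
      Q.eval₂ (algebraMap B (A12 B f)) (xu B f).val) : P = Q := by
  obtain ⟨pq, -, hu⟩ := (hR B f).2.2.2 (P.eval₂ (algebraMap B (A12 B f)) (xu B f).val)
  have e1 := hu (Polynomial.toLaurent P, 0) (by
    simp only [LaurentPolynomial.eval₂_toLaurent, map_zero]
    ring)
  have e2 := hu (Polynomial.toLaurent Q, 0) (by
    simp only [LaurentPolynomial.eval₂_toLaurent, map_zero]
    rw [h]
    ring)
  exact Polynomial.toLaurent_injective (congrArg Prod.fst (e1.trans e2.symm))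

theorem coeff_rel (hR : Stmt_HRG) {P Q : Polynomial B}
    (h : P.eval₂ (algebraMap B (A12 B f)) (xu B f).val * ((xu B f)⁻¹ : (A12 B f)ˣ).val ^ 6 =
      Q.eval₂ (algebraMap B (A12 B f)) ((xu B f)⁻¹ : (A12 B f)ˣ).val) :
    (∀ k, 6 < k → P.coeff k = 0 ∧ Q.coeff k = 0) ∧ ∀ k, k ≤ 6 → P.coeff k = Q.coeff (6 - k) := by
  obtain ⟨N, hN⟩ : ∃ N, N = Q.natDegree + 6 := ⟨_, rfl⟩
  let _ : Invertible ((xu B f)⁻¹ : (A12 B f)ˣ).val :=
    ⟨(xu B f).val, (xu B f).mul_inv, (xu B f).inv_mul⟩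
  have h1 := Polynomial.eval₂_reflect_mul_pow (algebraMap B (A12 B f))
    ((xu B f)⁻¹ : (A12 B f)ˣ).val N Q (by omega)
  change Polynomial.eval₂ (algebraMap B (A12 B f)) (xu B f).val (Polynomial.reflect N Q) *
    ((xu B f)⁻¹ : (A12 B f)ˣ).val ^ N = _ at h1
  have h2 : P * Polynomial.X ^ N = Polynomial.reflect N Q * Polynomial.X ^ 6 := by
    apply eval_inj f hR
    simp only [Polynomial.eval₂_mul, Polynomial.eval₂_pow, Polynomial.eval₂_X]
    have h3 : (xu B f).val ^ 6 * ((xu B f)⁻¹ : (A12 B f)ˣ).val ^ 6 = 1 := by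
      rw [← mul_pow, Units.mul_inv, one_pow]
    have h4 : (xu B f).val ^ N * ((xu B f)⁻¹ : (A12 B f)ˣ).val ^ N = 1 := by
      rw [← mul_pow, Units.mul_inv, one_pow]
    linear_combination (xu B f).val ^ 6 * (xu B f).val ^ N * h -
      (xu B f).val ^ 6 * (xu B f).val ^ N * h1 -
      P.eval₂ (algebraMap B (A12 B f)) (xu B f).val * (xu B f).val ^ N * h3 +
      (Polynomial.reflect N Q).eval₂ (algebraMap B (A12 B f)) (xu B f).val *
        (xu B f).val ^ 6 * h4
  have h3 : ∀ d, (P * Polynomial.X ^ N).coeff d =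
      (Polynomial.reflect N Q * Polynomial.X ^ 6).coeff d := fun d => by rw [h2]
  simp only [Polynomial.coeff_mul_X_pow', Polynomial.coeff_reflect] at h3
  refine ⟨fun k hk => ⟨?_, ?_⟩, fun k hk => ?_⟩
  · have h4 := h3 (k + N)
    rw [if_pos (by omega), if_pos (by omega), Nat.add_sub_cancel,
      Polynomial.revAt_eq_self_of_lt (by omega)] at h4
    rw [h4]
    exact Polynomial.coeff_eq_zero_of_natDegree_lt (by omega)
  · rcases lt_or_ge Q.natDegree k with h5 | h5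
    · exact Polynomial.coeff_eq_zero_of_natDegree_lt h5
    · have h4 := h3 (N - k + 6)
      rw [if_neg (by omega), if_pos (by omega), Nat.add_sub_cancel,
        Polynomial.revAt_le (by omega)] at h4
      rw [h4]
      congr 1
      omega
  · have h4 := h3 (k + N)
    rw [if_pos (by omega), if_pos (by omega), Nat.add_sub_cancel,
      Polynomial.revAt_le (by omega)] at h4
    rw [h4]
    congr 1
    omega

end inter

/-! ### Polynomials of degree at most six -/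

section pols

variable {R : Type} [CommRing R]

theorem pol_add (c c' : Fin 7 → R) (x : R) :
    pol (fun k => c k + c' k) x = pol c x + pol c' x := by
  simp only [pol]
  ring

theorem pol_smul (a : R) (c : Fin 7 → R) (x : R) : pol (fun k => a * c k) x = a * pol c x := by
  simp only [pol]
  ring

theorem pol_sum {J : Type} [Fintype J] (c : J → Fin 7 → R) (x : R) :
    pol (fun k => ∑ j, c j k) x = ∑ j, pol (c j) x := by
  simp only [pol, Finset.sum_add_distrib, Finset.sum_mul]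

theorem eval_pol {S : Type} [CommRing S] (φ : R →+* S) (x : S) {P : Polynomial R}
    (h : ∀ k, 6 < k → P.coeff k = 0) :
    P.eval₂ φ x = pol (fun k : Fin 7 => φ (P.coeff k)) x := by
  have h1 : P.natDegree < 7 := by
    by_contra hc
    have h2 := h P.natDegree (by omega)
    rw [Polynomial.coeff_natDegree, Polynomial.leadingCoeff_eq_zero] at h2
    rw [h2, Polynomial.natDegree_zero] at hc
    omega
  rw [Polynomial.eval₂_eq_sum_range' φ h1]
  simp only [Finset.sum_range_succ, Finset.sum_range_zero, pol, zero_add, pow_zero, mul_one,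
    pow_one]
  rfl

theorem inv_laurent {S : Type} [CommRing S] (φ : R →+* S) (x : Sˣ) (P : Polynomial R) :
    ∃ L : LaurentPolynomial R, LaurentPolynomial.eval₂ φ x L =
      P.eval₂ φ ((x⁻¹ : Sˣ) : S) := by
  refine Polynomial.induction_on' P ?_ ?_
  · rintro p q ⟨L, h⟩ ⟨L', h'⟩
    exact ⟨L + L', by rw [map_add, h, h', Polynomial.eval₂_add]⟩
  · intro n a
    refine ⟨LaurentPolynomial.C a * LaurentPolynomial.T (-n), ?_⟩
    rw [LaurentPolynomial.eval₂_C_mul_T_neg_n, Polynomial.eval₂_monomial]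

end pols

/-! ### Base change -/

section bc

variable {B E J : Type} [CommRing B] [CommRing E] [Fintype J] (S : SqE B E J) {f : Fin 7 → B}
  {f' : Fin 7 → E} (hf : ∀ i, f i = S.p (f' i))

theorem bc1_mk (P : MvPolynomial (Fin 2) E) : bc1 S.p hf (Ideal.Quotient.mk _ P) =
    Ideal.Quotient.mk _ (MvPolynomial.map S.p P) := by
  have : (bc1 S.p hf).comp (Ideal.Quotient.mk (Ideal.span {eq1 E f'})) =
      (Ideal.Quotient.mk (Ideal.span {eq1 B f})).comp (MvPolynomial.map S.p) := by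
    refine MvPolynomial.ringHom_ext (fun c => ?_) fun i => ?_
    · rw [RingHom.comp_apply, RingHom.comp_apply, MvPolynomial.map_C]
      exact bc1_b S.p hf c
    · rw [RingHom.comp_apply, RingHom.comp_apply, MvPolynomial.map_X]
      fin_cases i
      · exact bc1_x S.p hf
      · exact bc1_y S.p hf
  exact congrArg (fun g => g P) this

theorem bc1_surj : Function.Surjective (bc1 S.p hf) := quo_surj S _ (bc1_mk S hf)

theorem bc1_ker (u : A1 E f') (hu : bc1 S.p hf u = 0) :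
    ∃ w : J → A1 E f', u = ∑ j, algebraMap E _ (S.ε j) * w j := by
  refine quo_ker S _ ?_ (bc1_mk S hf) u hu
  simp only [eq1, map_sub, map_pow, pol_map, MvPolynomial.map_X, MvPolynomial.map_C, hf]

theorem bc12_surj : Function.Surjective (bc12 S.p hf) := by
  intro v
  obtain ⟨⟨w, s⟩, hw⟩ := IsLocalization.surj (Submonoid.powers (x1 B f)) v
  obtain ⟨n, hn⟩ := s.2
  obtain ⟨w', rfl⟩ := bc1_surj S hf w
  simp only at hw
  have h1 : v * (xu B f).val ^ n = g1 B f (bc1 S.p hf w') := by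
    have h2 : (algebraMap (A1 B f) (A12 B f)) (s : A1 B f) = (xu B f).val ^ n := by
      rw [← hn, map_pow]
      rfl
    rw [← h2, hw]
    rfl
  refine ⟨g1 E f' w' * ((xu E f')⁻¹ : (A12 E f')ˣ).val ^ n, ?_⟩
  have h3 : (xu B f).val ^ n * ((xu B f)⁻¹ : (A12 B f)ˣ).val ^ n = 1 := by
    rw [← mul_pow, Units.mul_inv, one_pow]
  rw [map_mul, map_pow, bc12_g1, bc12_xi, ← h1, mul_assoc, h3, mul_one]

theorem bc12_ker (hg : Function.Injective (g1 B f)) (u : A12 E f')
    (hu : bc12 S.p hf u = 0) :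
    ∃ w : J → A12 E f', u = ∑ j, algebraMap E _ (S.ε j) * w j := by
  obtain ⟨⟨w, s⟩, hw⟩ := IsLocalization.surj (Submonoid.powers (x1 E f')) u
  obtain ⟨n, hn⟩ := s.2
  simp only at hw
  have h1 : u * (xu E f').val ^ n = g1 E f' w := by
    have h2 : (algebraMap (A1 E f') (A12 E f')) (s : A1 E f') = (xu E f').val ^ n := by
      rw [← hn, map_pow]
      rfl
    rw [← h2, hw]
    rfl
  have h3 : bc1 S.p hf w = 0 := by
    apply hg
    rw [map_zero, ← bc12_g1, ← h1, map_mul, hu, zero_mul]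
  obtain ⟨w', rfl⟩ := bc1_ker S hf w h3
  refine ⟨fun j => g1 E f' (w' j) * ((xu E f')⁻¹ : (A12 E f')ˣ).val ^ n, ?_⟩
  have h5 : (xu E f').val ^ n * ((xu E f')⁻¹ : (A12 E f')ˣ).val ^ n = 1 := by
    rw [← mul_pow, Units.mul_inv, one_pow]
  have h4 : u = g1 E f' (∑ j, algebraMap E _ (S.ε j) * w' j) *
      ((xu E f')⁻¹ : (A12 E f')ˣ).val ^ n := by
    rw [← h1, mul_assoc, h5, mul_one]
  rw [h4, map_sum, Finset.sum_mul]
  refine Finset.sum_congr rfl fun j _ => ?_
  rw [map_mul, g1_b, mul_assoc]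

end bc

/-! ### The charts -/

section charts

variable {B E J : Type} [CommRing B] [CommRing E] [Fintype J] (S : SqE B E J)

theorem q_eval {G A : Type} [CommRing G] [CommRing A] [Algebra B A] {q : G →+* A}
    {aG : E →+* G} (qa : ∀ z, q (aG z) = algebraMap B A (S.p z)) (X : G) (P : Polynomial B) :
    q (P.eval₂ (aG.comp S.i) X) = P.eval₂ (algebraMap B A) (q X) := by
  rw [Polynomial.hom_eval₂]
  congr 1
  refine RingHom.ext fun b => ?_
  rw [RingHom.comp_apply, RingHom.comp_apply, qa, S.pi]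

theorem chart (hR : Stmt_HRG) (f : Fin 7 → B) {i2 : E} (hi2 : 2 * i2 = 1) {G : Type} [CommRing G]
    {q : G →+* A1 B f} {aG : E →+* G} (qa : ∀ z, q (aG z) = algebraMap B _ (S.p z))
    (hs : Function.Surjective q)
    (hk : ∀ v, q v = 0 → ∃ w : J → G, v = ∑ j, aG (S.ε j) * w j) {X : G}
    (hX : q X = x1 B f) : ∃ (Y : G) (P : J → Polynomial B), q Y = y1 B f ∧
      Y ^ 2 = pol (fun i => aG (S.i (f i))) X +
        ∑ j, aG (S.ε j) * (P j).eval₂ (aG.comp S.i) X := by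
  obtain ⟨Y0, hY0⟩ := hs (y1 B f)
  have hpol : q (pol (fun i => aG (S.i (f i))) X) = pol (fun i => algebraMap B _ (f i)) (x1 B f) := by
    rw [pol_map, hX]
    congr 1
    funext i
    rw [qa, S.pi]
  obtain ⟨w, hw⟩ := hk (Y0 ^ 2 - pol (fun i => aG (S.i (f i))) X) (by
    rw [map_sub, map_pow, hY0, hpol, rel1, sub_self])
  choose pq hpq _ using fun j => (hR B f).1 (q (w j))
  have hq : ∀ P : Polynomial B, q (P.eval₂ (aG.comp S.i) X) = Polynomial.aeval (x1 B f) P := by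
    intro P
    rw [q_eval S qa, hX, Polynomial.aeval_def]
  obtain ⟨b, hb⟩ : ∃ b : J → G, ∀ j, b j = (pq j).2.eval₂ (aG.comp S.i) X := ⟨_, fun _ => rfl⟩
  obtain ⟨N, hN⟩ : ∃ N, N = ∑ j, aG (S.ε j) * b j := ⟨_, rfl⟩
  have hqN : q N = 0 := by
    rw [hN, map_sum]
    refine Finset.sum_eq_zero fun j _ => ?_
    rw [map_mul, qa, S.pe, map_zero, zero_mul]
  have hNN : N * N = 0 := ker_sq S hk hqN hqN
  have h2 : (2 : G) * aG i2 = 1 := by
    rw [← map_ofNat aG, ← map_mul, hi2, map_one]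
  have hNY : N * Y0 = ∑ j, aG (S.ε j) * (b j * Y0) := by
    rw [hN, Finset.sum_mul]
    exact Finset.sum_congr rfl fun j _ => mul_assoc _ _ _
  refine ⟨Y0 - aG i2 * N, fun j => (pq j).1, ?_, ?_⟩
  · rw [map_sub, map_mul, hqN, mul_zero, sub_zero, hY0]
  · have h3 : ∑ j, aG (S.ε j) * (pq j).1.eval₂ (aG.comp S.i) X =
        ∑ j, aG (S.ε j) * w j - ∑ j, aG (S.ε j) * (b j * Y0) := by
      rw [← Finset.sum_sub_distrib]
      refine Finset.sum_congr rfl fun j _ => ?_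
      have h4 := eps_kill S hk (v := (pq j).1.eval₂ (aG.comp S.i) X - (w j - b j * Y0)) (by
        rw [map_sub, map_sub, map_mul, hb, hq, hq, hpq j, hY0]
        ring) j
      linear_combination h4
    rw [h3, ← hNY]
    linear_combination hw + aG i2 ^ 2 * hNN - N * Y0 * h2

end charts

/-! ### Thickenings -/

section main

variable {B E J : Type} [CommRing B] [CommRing E] [Fintype J] {S : SqE B E J} {f : Fin 7 → B}
  (D : HData S f)

/-- Lifts of the coordinates. -/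
theorem coords (hR : Stmt_HRG) : ∃ (X : D.G1) (U : D.G2), D.q1 X = x1 B f ∧
    D.q2 U = x1 B (rev f) ∧ D.f1 X * D.f2 U = 1 := by
  obtain ⟨X0, hX0⟩ := D.sur1 (x1 B f)
  obtain ⟨U0, hU0⟩ := D.sur2 (x1 B (rev f))
  have hqX : D.q12 (D.f1 X0) = (xu B f).val := by rw [D.qf1, hX0]; rfl
  have hqU : D.q12 (D.f2 U0) = ((xu B f)⁻¹ : (A12 B f)ˣ).val := by rw [D.qf2, hU0, g2_u]
  obtain ⟨d, hd⟩ := D.ker12 (D.f1 X0 * D.f2 U0 - 1) (by
    rw [map_sub, map_mul, hqX, hqU, map_one, Units.mul_inv, sub_self])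
  choose v1 v2 hv using fun j => dec f hR (D.q12 (d j))
  choose u1 hu1 using fun j => D.sur1 (v1 j)
  choose u2 hu2 using fun j => D.sur2 (v2 j)
  obtain ⟨N1, hN1⟩ : ∃ N1, N1 = ∑ j, D.a1 (S.ε j) * u1 j := ⟨_, rfl⟩
  obtain ⟨N2, hN2⟩ : ∃ N2, N2 = ∑ j, D.a2 (S.ε j) * u2 j := ⟨_, rfl⟩
  have hqN1 : D.q1 N1 = 0 := by
    rw [hN1, map_sum]
    refine Finset.sum_eq_zero fun j _ => ?_
    rw [map_mul, D.qa1, S.pe, map_zero, zero_mul]
  have hqN2 : D.q2 N2 = 0 := by
    rw [hN2, map_sum]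
    refine Finset.sum_eq_zero fun j _ => ?_
    rw [map_mul, D.qa2, S.pe, map_zero, zero_mul]
  have h12 : D.f1 N1 * D.f2 N2 = 0 := ker_sq S D.ker12 (by rw [D.qf1, hqN1, map_zero])
    (by rw [D.qf2, hqN2, map_zero])
  refine ⟨X0 - N1, U0 - N2, by rw [map_sub, hX0, hqN1, sub_zero],
    by rw [map_sub, hU0, hqN2, sub_zero], ?_⟩
  have h3 : D.f1 N1 * D.f2 U0 + D.f1 X0 * D.f2 N2 = ∑ j, D.a12 (S.ε j) * d j := by
    rw [hN1, hN2, map_sum, map_sum, Finset.sum_mul, Finset.mul_sum, ← Finset.sum_add_distrib]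
    refine Finset.sum_congr rfl fun j _ => ?_
    rw [map_mul, map_mul, D.fa1, D.fa2]
    have h4 := eps_kill S D.ker12 (v := d j - (D.f1 (u1 j) * D.f2 U0 + D.f1 X0 * D.f2 (u2 j))) (by
      rw [map_sub, map_add, map_mul, map_mul, hqX, hqU, D.qf1, D.qf2, hu1, hu2, hv]
      ring) j
    linear_combination -h4
  rw [map_sub, map_sub]
  linear_combination hd - h3 + h12

/-- The squares of corrected lifts of `y`. -/
theorem corrected {G A : Type} [CommRing G] [CommRing A] {q : G →+* A} {aG : E →+* G}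
    (hqε : ∀ j, q (aG (S.ε j)) = 0)
    (hk : ∀ v, q v = 0 → ∃ w : J → G, v = ∑ j, aG (S.ε j) * w j) {X Y : G} (f : Fin 7 → B)
    {P : J → Polynomial B}
    (h : Y ^ 2 = pol (fun i => aG (S.i (f i))) X +
        ∑ j, aG (S.ε j) * (P j).eval₂ (aG.comp S.i) X) (α : J → Polynomial B) :
    (Y + ∑ j, aG (S.ε j) * ((α j).eval₂ (aG.comp S.i) X * Y)) ^ 2 =
      pol (fun i => aG (S.i (f i))) X +
        ∑ j, aG (S.ε j) * (P j + 2 * α j * Fp f).eval₂ (aG.comp S.i) X := by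
  obtain ⟨N, hN⟩ : ∃ N, N = ∑ j, aG (S.ε j) * ((α j).eval₂ (aG.comp S.i) X * Y) := ⟨_, rfl⟩
  have hqN : q N = 0 := by
    rw [hN, map_sum]
    refine Finset.sum_eq_zero fun j _ => ?_
    rw [map_mul, hqε, zero_mul]
  have hNN : N * N = 0 := ker_sq S hk hqN hqN
  have hF : (Fp f).eval₂ (aG.comp S.i) X = pol (fun i => aG (S.i (f i))) X :=
    Fp_eval f (aG.comp S.i) X
  have hker : q (Y ^ 2 - pol (fun i => aG (S.i (f i))) X) = 0 := by
    rw [h, add_sub_cancel_left, map_sum]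
    refine Finset.sum_eq_zero fun j _ => ?_
    rw [map_mul, hqε, zero_mul]
  have h1 : N * Y = ∑ j, aG (S.ε j) * ((α j).eval₂ (aG.comp S.i) X *
      pol (fun i => aG (S.i (f i))) X) := by
    rw [hN, Finset.sum_mul]
    refine Finset.sum_congr rfl fun j _ => ?_
    have h2 := eps_kill S hk hker j
    linear_combination (α j).eval₂ (aG.comp S.i) X * h2
  have h3 : ∑ j, aG (S.ε j) * (P j + 2 * α j * Fp f).eval₂ (aG.comp S.i) X =
      ∑ j, aG (S.ε j) * (P j).eval₂ (aG.comp S.i) X + 2 * (N * Y) := by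
    rw [h1, Finset.mul_sum, ← Finset.sum_add_distrib]
    refine Finset.sum_congr rfl fun j _ => ?_
    rw [Polynomial.eval₂_add, Polynomial.eval₂_mul, Polynomial.eval₂_mul, hF,
      Polynomial.eval₂_ofNat]
    ring
  rw [← hN, h3]
  linear_combination h + hNN

theorem eval12 {X : D.G12} (P : Polynomial B) :
    D.q12 (P.eval₂ (D.a12.comp S.i) X) = P.eval₂ (algebraMap B (A12 B f)) (D.q12 X) :=
  q_eval S D.qa12 X P

theorem f1_eval {X : D.G1} (P : Polynomial B) :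
    D.f1 (P.eval₂ (D.a1.comp S.i) X) = P.eval₂ (D.a12.comp S.i) (D.f1 X) := by
  rw [Polynomial.hom_eval₂]
  congr 1
  exact RingHom.ext fun b => D.fa1 _

theorem f2_eval {X : D.G2} (P : Polynomial B) :
    D.f2 (P.eval₂ (D.a2.comp S.i) X) = P.eval₂ (D.a12.comp S.i) (D.f2 X) := by
  rw [Polynomial.hom_eval₂]
  congr 1
  exact RingHom.ext fun b => D.fa2 _

/-- The relation of the coefficients. -/
theorem rel_coeff {X : D.G1} {U : D.G2} {Y : D.G1} {V : D.G2} {P Q : J → Polynomial B}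
    (hX : D.q1 X = x1 B f) (hU : D.q2 U = x1 B (rev f)) (hXU : D.f1 X * D.f2 U = 1)
    (hY : Y ^ 2 = pol (fun i => D.a1 (S.i (f i))) X +
        ∑ j, D.a1 (S.ε j) * (P j).eval₂ (D.a1.comp S.i) X)
    (hV : V ^ 2 = pol (fun i => D.a2 (S.i (rev f i))) U +
        ∑ j, D.a2 (S.ε j) * (Q j).eval₂ (D.a2.comp S.i) U)
    {w : J → D.G12} (hw : D.f2 V = D.f1 Y * D.f2 U ^ 3 + ∑ j, D.a12 (S.ε j) * w j) (j : J) :
    2 * D.q12 (D.f1 Y) * ((xu B f)⁻¹ : (A12 B f)ˣ).val ^ 3 * D.q12 (w j) =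
      (Q j).eval₂ (algebraMap B (A12 B f)) ((xu B f)⁻¹ : (A12 B f)ˣ).val -
        (P j).eval₂ (algebraMap B (A12 B f)) (xu B f).val *
          ((xu B f)⁻¹ : (A12 B f)ˣ).val ^ 6 := by
  have hqX : D.q12 (D.f1 X) = (xu B f).val := by rw [D.qf1, hX]; rfl
  have hqU : D.q12 (D.f2 U) = ((xu B f)⁻¹ : (A12 B f)ˣ).val := by rw [D.qf2, hU, g2_u]
  obtain ⟨N, hN⟩ : ∃ N, N = ∑ j, D.a12 (S.ε j) * w j := ⟨_, rfl⟩
  have hqN : D.q12 N = 0 := by
    rw [hN, map_sum]
    refine Finset.sum_eq_zero fun j _ => ?_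
    rw [map_mul, D.qa12, S.pe, map_zero, zero_mul]
  have hNN : N * N = 0 := ker_sq S D.ker12 hqN hqN
  have hY1 : D.f1 Y ^ 2 = pol (fun i => D.a12 (S.i (f i))) (D.f1 X) +
      ∑ j, D.a12 (S.ε j) * (P j).eval₂ (D.a12.comp S.i) (D.f1 X) := by
    rw [← map_pow, hY, map_add, pol_map, map_sum]
    congr 1
    · simp only [D.fa1]
    · exact Finset.sum_congr rfl fun j _ => by rw [map_mul, D.fa1, f1_eval]
  have hV1 : D.f2 V ^ 2 = pol (fun i => D.a12 (S.i (rev f i))) (D.f2 U) +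
      ∑ j, D.a12 (S.ε j) * (Q j).eval₂ (D.a12.comp S.i) (D.f2 U) := by
    rw [← map_pow, hV, map_add, pol_map, map_sum]
    congr 1
    · simp only [D.fa2]
    · exact Finset.sum_congr rfl fun j _ => by rw [map_mul, D.fa2, f2_eval]
  have hrev : pol (fun i => D.a12 (S.i (rev f i))) (D.f2 U) =
      pol (fun i => D.a12 (S.i (f i))) (D.f1 X) * D.f2 U ^ 6 := by
    have h1 := pol_rev (rev fun i => D.a12 (S.i (f i))) (D.f1 X) (D.f2 U) hXU
    rw [rev_rev] at h1
    exact h1.symm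
  have hsum : ∑ j, D.a12 (S.ε j) * ((Q j).eval₂ (D.a12.comp S.i) (D.f2 U) -
      (P j).eval₂ (D.a12.comp S.i) (D.f1 X) * D.f2 U ^ 6 -
      2 * D.f1 Y * D.f2 U ^ 3 * w j) = 0 := by
    have h1 : ∑ j, D.a12 (S.ε j) * ((Q j).eval₂ (D.a12.comp S.i) (D.f2 U) -
      (P j).eval₂ (D.a12.comp S.i) (D.f1 X) * D.f2 U ^ 6 -
      2 * D.f1 Y * D.f2 U ^ 3 * w j) =
        ∑ j, D.a12 (S.ε j) * (Q j).eval₂ (D.a12.comp S.i) (D.f2 U) -
        (∑ j, D.a12 (S.ε j) * (P j).eval₂ (D.a12.comp S.i) (D.f1 X)) * D.f2 U ^ 6 -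
        2 * D.f1 Y * D.f2 U ^ 3 * N := by
      rw [hN, Finset.sum_mul, Finset.mul_sum, ← Finset.sum_sub_distrib,
        ← Finset.sum_sub_distrib]
      exact Finset.sum_congr rfl fun j _ => by ring
    rw [h1]
    rw [← hN] at hw
    rw [hw] at hV1
    linear_combination D.f2 U ^ 6 * hY1 - hV1 - hrev + hNN
  have h1 := D.un12 _ hsum j
  rw [map_sub, map_sub, map_mul, map_mul, map_mul, map_mul, map_pow, map_pow, map_ofNat, eval12,
    eval12, hqX, hqU] at h1
  linear_combination -h1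

/-- Normal forms. -/
theorem normal (hR : Stmt_HRG) (h2 : IsUnit (2 : B)) {i2 : E} (hi2 : 2 * i2 = 1) :
    ∃ (X Y : D.G1) (U V : D.G2) (P Q : J → Polynomial B), D.q1 X = x1 B f ∧ D.q1 Y = y1 B f ∧
      D.q2 U = x1 B (rev f) ∧ D.q2 V = y1 B (rev f) ∧ D.f1 X * D.f2 U = 1 ∧
      D.f2 V = D.f1 Y * D.f2 U ^ 3 ∧
      Y ^ 2 = pol (fun i => D.a1 (S.i (f i))) X +
        ∑ j, D.a1 (S.ε j) * (P j).eval₂ (D.a1.comp S.i) X ∧
      V ^ 2 = pol (fun i => D.a2 (S.i (rev f i))) U +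
        ∑ j, D.a2 (S.ε j) * (Q j).eval₂ (D.a2.comp S.i) U := by
  obtain ⟨X, U, hX, hU, hXU⟩ := coords D hR
  obtain ⟨Y, P, hqY, hY⟩ := chart S hR f hi2 D.qa1 D.sur1 D.ker1 hX
  obtain ⟨V, Q, hqV, hV⟩ := chart S hR (rev f) hi2 D.qa2 D.sur2 D.ker2 hU
  have hqX : D.q12 (D.f1 X) = (xu B f).val := by rw [D.qf1, hX]; rfl
  have hqU : D.q12 (D.f2 U) = ((xu B f)⁻¹ : (A12 B f)ˣ).val := by rw [D.qf2, hU, g2_u]
  have hqY1 : D.q12 (D.f1 Y) = yv B f := by rw [D.qf1, hqY, g1_y]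
  have hqV1 : D.q12 (D.f2 V) = yv B f * ((xu B f)⁻¹ : (A12 B f)ˣ).val ^ 3 := by
    rw [D.qf2, hqV, g2_v, Units.val_pow_eq_pow_val]
  obtain ⟨w, hw⟩ := D.ker12 (D.f2 V - D.f1 Y * D.f2 U ^ 3) (by
    rw [map_sub, map_mul, map_pow, hqV1, hqY1, hqU, sub_self])
  have hw1 : D.f2 V = D.f1 Y * D.f2 U ^ 3 + ∑ j, D.a12 (S.ε j) * w j := by
    linear_combination hw
  have hrel := rel_coeff D hX hU hXU hY hV hw1
  have hex : ∀ j, ∃ α β : Polynomial B, D.q12 (w j) =
      yv B f * ((xu B f)⁻¹ : (A12 B f)ˣ).val ^ 3 *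
      (α.eval₂ (algebraMap B (A12 B f)) (xu B f).val -
        β.eval₂ (algebraMap B (A12 B f)) ((xu B f)⁻¹ : (A12 B f)ˣ).val) := by
    intro j
    obtain ⟨L, hL⟩ := inv_laurent (algebraMap B (A12 B f)) (xu B f) (Q j)
    refine y_part f hR h2 _ (L - Polynomial.toLaurent (P j) * LaurentPolynomial.T (-6)) ?_
    have h3 : LaurentPolynomial.eval₂ (algebraMap B (A12 B f)) (xu B f)
        (LaurentPolynomial.T (-6)) = ((xu B f)⁻¹ : (A12 B f)ˣ).val ^ 6 :=
      LaurentPolynomial.eval₂_T_neg_n _ _ 6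
    rw [map_sub, map_mul, hL, LaurentPolynomial.eval₂_toLaurent, h3, ← hrel j, hqY1]
  choose α β hαβ using hex
  refine ⟨X, Y + ∑ j, D.a1 (S.ε j) * ((α j).eval₂ (D.a1.comp S.i) X * Y), U,
    V + ∑ j, D.a2 (S.ε j) * ((β j).eval₂ (D.a2.comp S.i) U * V),
    fun j => P j + 2 * α j * Fp f, fun j => Q j + 2 * β j * Fp (rev f), hX, ?_, hU, ?_, hXU, ?_,
    corrected (S := S) (q := D.q1) (fun j => by rw [D.qa1, S.pe, map_zero]) D.ker1 f hY α,
    corrected (S := S) (q := D.q2) (fun j => by rw [D.qa2, S.pe, map_zero]) D.ker2 (rev f) hV β⟩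
  · rw [map_add, hqY, map_sum, Finset.sum_eq_zero, add_zero]
    intro j _
    rw [map_mul, D.qa1, S.pe, map_zero, zero_mul]
  · rw [map_add, hqV, map_sum, Finset.sum_eq_zero, add_zero]
    intro j _
    rw [map_mul, D.qa2, S.pe, map_zero, zero_mul]
  · rw [map_add, map_add, map_sum, map_sum]
    have h3 : ∑ j, D.f2 (D.a2 (S.ε j) * ((β j).eval₂ (D.a2.comp S.i) U * V)) =
        (∑ j, D.f1 (D.a1 (S.ε j) * ((α j).eval₂ (D.a1.comp S.i) X * Y))) * D.f2 U ^ 3 -
          ∑ j, D.a12 (S.ε j) * w j := by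
      rw [Finset.sum_mul, ← Finset.sum_sub_distrib]
      refine Finset.sum_congr rfl fun j _ => ?_
      rw [map_mul, map_mul, map_mul, map_mul, D.fa1, D.fa2, f1_eval, f2_eval]
      have h4 := eps_kill S D.ker12 (v := (β j).eval₂ (D.a12.comp S.i) (D.f2 U) * D.f2 V -
        (α j).eval₂ (D.a12.comp S.i) (D.f1 X) * D.f1 Y * D.f2 U ^ 3 + w j) (by
        rw [map_add, map_sub, map_mul, map_mul, map_mul, map_pow, eval12, eval12, hqX, hqU, hqY1,
          hqV1, hαβ]
        ring) j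
      linear_combination h4
    rw [h3]
    linear_combination hw1

end main

end Pool.Agent.MG.H2.HEAx

namespace Pool.Agent.MG.H2

open Pool.Agent.MG.H2.HEAx

open Pool.Agent.MG.W.WEA (ker_p p_surj eps_kill ker_sq unit_lift bij quo_surj quo_ker)

/-- HEA -/
theorem t_HEA (h : Stmt_HRG) : Stmt_HEA := by
  intro B E J _ _ _ S f h2 D
  have hg : Function.Injective (g1 B f) := (h B f).2.1
  obtain ⟨i2, hi2⟩ : ∃ i2 : E, 2 * i2 = 1 := by
    have h3 := h2.map S.i
    rw [map_ofNat] at h3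
    exact h3.exists_right_inv
  obtain ⟨X, Y, U, V, P, Q, hX, hY, hU, hV, hXU, hYV, hY2, hV2⟩ := normal D h h2 hi2
  have hqX : D.q12 (D.f1 X) = (xu B f).val := by rw [D.qf1, hX]; rfl
  have hqU : D.q12 (D.f2 U) = ((xu B f)⁻¹ : (A12 B f)ˣ).val := by rw [D.qf2, hU, g2_u]
  have hco : ∀ j, (∀ k, 6 < k → (P j).coeff k = 0 ∧ (Q j).coeff k = 0) ∧
      ∀ k, k ≤ 6 → (P j).coeff k = (Q j).coeff (6 - k) := by
    intro j
    refine coeff_rel f h ?_
    have h3 := rel_coeff D hX hU hXU hY2 hV2 (w := fun _ => 0) (by simpa using hYV) j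
    rw [map_zero, mul_zero] at h3
    linear_combination h3
  obtain ⟨f', hf'⟩ : ∃ f' : Fin 7 → E, ∀ k, f' k = S.i (f k) +
    ∑ j, S.ε j * S.i ((P j).coeff k) := ⟨_, fun _ => rfl⟩
  have hf : ∀ i, f i = S.p (f' i) := by
    intro i
    rw [hf', map_add, S.pi, map_sum, Finset.sum_eq_zero, add_zero]
    intro j _
    rw [map_mul, S.pe, zero_mul]
  have hrelY : Y ^ 2 = pol (fun i => D.a1 (f' i)) X := by
    rw [hY2]
    simp only [hf', map_add, map_sum, map_mul, pol_add, pol_sum, pol_smul]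
    congr 1
    refine Finset.sum_congr rfl fun j _ => ?_
    rw [eval_pol (D.a1.comp S.i) X fun k hk => ((hco j).1 k hk).1]
    rfl
  have hrelV : V ^ 2 = pol (fun i => D.a2 (rev f' i)) U := by
    have hr : ∀ i, rev f' i = S.i (rev f i) + ∑ j, S.ε j * S.i ((Q j).coeff i) := by
      intro i
      rw [rev, hf']
      congr 1
      refine Finset.sum_congr rfl fun j _ => ?_
      have h3 : (P j).coeff (Fin.rev i : Fin 7).val = (Q j).coeff i.val := by
        rw [(hco j).2 _ (by omega)]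
        congr 1
        rw [Fin.val_rev]
        omega
      rw [h3]
    rw [hV2]
    simp only [hr, map_add, map_sum, map_mul, pol_add, pol_sum, pol_smul]
    congr 1
    refine Finset.sum_congr rfl fun j _ => ?_
    rw [eval_pol (D.a2.comp S.i) U fun k hk => ((hco j).1 k hk).2]
    rfl
  -- the unit
  obtain ⟨Xu, hXu, hUu⟩ : ∃ Xu : D.G12ˣ, Xu.val = D.f1 X ∧ (Xu⁻¹ : D.G12ˣ).val = D.f2 U :=
    ⟨⟨D.f1 X, D.f2 U, hXU, by rw [mul_comm]; exact hXU⟩, rfl, rfl⟩
  have hrel12 : D.f1 Y ^ 2 = pol (fun i => D.a12 (f' i)) Xu.val := by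
    rw [hXu, ← map_pow, hrelY, pol_map]
    simp only [D.fa1]
  obtain ⟨e1, he1⟩ : ∃ e1 : A1 E f' →+* D.G1, e1 = lift1 D.a1 X Y hrelY := ⟨_, rfl⟩
  obtain ⟨e2, he2⟩ : ∃ e2 : A2 E f' →+* D.G2, e2 = lift1 D.a2 U V hrelV := ⟨_, rfl⟩
  obtain ⟨e12, he12⟩ : ∃ e12 : A12 E f' →+* D.G12, e12 = lift12 D.a12 Xu (D.f1 Y) hrel12 :=
    ⟨_, rfl⟩
  have e1b : ∀ c, e1 (algebraMap E _ c) = D.a1 c := fun c => by rw [he1, lift1_b]
  have e1x : e1 (x1 E f') = X := by rw [he1, lift1_x]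
  have e1y : e1 (y1 E f') = Y := by rw [he1, lift1_y]
  have e2b : ∀ c, e2 (algebraMap E _ c) = D.a2 c := fun c => by rw [he2, lift1_b]
  have e2x : e2 (x1 E (rev f')) = U := by rw [he2, lift1_x]
  have e2y : e2 (y1 E (rev f')) = V := by rw [he2, lift1_y]
  have e12b : ∀ c, e12 (algebraMap E _ c) = D.a12 c := fun c => by rw [he12, lift12_b]
  have e12x : e12 (xu E f').val = D.f1 X := by rw [he12, lift12_x, hXu]
  have e12xi : e12 ((xu E f')⁻¹ : (A12 E f')ˣ).val = D.f2 U := by rw [he12, lift12_xi, hUu]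
  have e12y : e12 (yv E f') = D.f1 Y := by rw [he12, lift12_y]
  have e12g1 : ∀ v, D.f1 (e1 v) = e12 (g1 E f' v) := by
    have : D.f1.comp e1 = e12.comp (g1 E f') := by
      refine hom1_ext (fun c => ?_) ?_ ?_
      · rw [RingHom.comp_apply, RingHom.comp_apply, e1b, g1_b, e12b, D.fa1]
      · rw [RingHom.comp_apply, RingHom.comp_apply, e1x, HEAx.g1_x, e12x]
      · rw [RingHom.comp_apply, RingHom.comp_apply, e1y, g1_y, e12y]
    exact fun v => congrArg (fun g => g v) this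
  have e12g2 : ∀ v, D.f2 (e2 v) = e12 (g2 E f' v) := by
    have : D.f2.comp e2 = e12.comp (g2 E f') := by
      refine hom1_ext (fun c => ?_) ?_ ?_
      · rw [RingHom.comp_apply, RingHom.comp_apply, e2b, g2_b, e12b, D.fa2]
      · rw [RingHom.comp_apply, RingHom.comp_apply, e2x, g2_u, e12xi]
      · rw [RingHom.comp_apply, RingHom.comp_apply, e2y, g2_v, map_mul,
          Units.val_pow_eq_pow_val, map_pow, e12xi, e12y, hYV]
    exact fun v => congrArg (fun g => g v) this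
  have hq1 : ∀ v, D.q1 (e1 v) = bc1 S.p hf v := by
    have : D.q1.comp e1 = bc1 S.p hf := by
      refine hom1_ext (fun c => ?_) ?_ ?_
      · rw [RingHom.comp_apply, e1b, D.qa1, bc1_b]
      · rw [RingHom.comp_apply, e1x, hX, bc1_x]
      · rw [RingHom.comp_apply, e1y, hY, bc1_y]
    exact fun v => congrArg (fun g => g v) this
  have hq2 : ∀ v, D.q2 (e2 v) = bc2 S.p hf v := by
    have : D.q2.comp e2 = bc2 S.p hf := by
      refine hom1_ext (fun c => ?_) ?_ ?_
      · rw [RingHom.comp_apply, e2b, D.qa2, bc2_b]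
      · rw [RingHom.comp_apply, e2x, hU, bc2_u]
      · rw [RingHom.comp_apply, e2y, hV, bc2_v]
    exact fun v => congrArg (fun g => g v) this
  have hq12 : ∀ v, D.q12 (e12 v) = bc12 S.p hf v := by
    have : D.q12.comp e12 = bc12 S.p hf := by
      refine hom12_ext (fun c => ?_) ?_ ?_
      · rw [RingHom.comp_apply, e12b, D.qa12, bc12_b]
      · rw [RingHom.comp_apply, e12x, hqX, bc12_x]
      · rw [RingHom.comp_apply, e12y, D.qf1, hY, g1_y, bc12_y]
    exact fun v => congrArg (fun g => g v) this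
  have hb1 := bij S e1 e1b hq1 (HEAx.bc1_surj S hf) (HEAx.bc1_ker S hf) D.ker1 D.un1
  have hb2 := bij S e2 e2b hq2 (HEAx.bc1_surj S (rev_bc S.p hf)) (HEAx.bc1_ker S (rev_bc S.p hf))
    D.ker2 D.un2
  have hb12 := bij S e12 e12b hq12 (HEAx.bc12_surj S hf) (HEAx.bc12_ker S hf hg) D.ker12 D.un12
  exact ⟨f', hf, RingEquiv.ofBijective e1 hb1, RingEquiv.ofBijective e2 hb2,
    RingEquiv.ofBijective e12 hb12, e1b, e2b, e12g1, e12g2, hq1, hq2⟩

end Pool.Agent.MG.H2
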