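import Pool.Agent.MG.H2.StmtsH
import Pool.Agent.MG.KSU

/-!
# HE: every thickening of a curve `y² = f(x)` is a curve `y² = f'(x)`
-/

open CategoryTheory CategoryTheory.Limits AlgebraicGeometry TensorProduct

namespace Pool.Agent.MG.H2.HES

open Pool.Agent.MG.GLU Pool.Agent.MG.KSU

section

variable {B E J : Type} [CommRing B] [CommRing E] [Fintype J] {S : SqE B E J} (P : Fin 7 → B)

/-- the affine chart -/
noncomputable def w1 : Sp (A1 B P) ⟶ (Hyp P).X := HX.in1 B P

/-- the chart at infinity -/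
noncomputable def w2 : Sp (A2 B P) ⟶ (Hyp P).X := HX.in2 B P

/-- the intersection -/
noncomputable def w12 : Sp (A12 B P) ⟶ (Hyp P).X := spMap (g1 B P) ≫ w1 P

instance o1 : IsOpenImmersion (w1 P) := inferInstanceAs (IsOpenImmersion (HX.in1 B P))

instance o2 : IsOpenImmersion (w2 P) := inferInstanceAs (IsOpenImmersion (HX.in2 B P))

instance o12 : IsOpenImmersion (w12 P) := by
  unfold w12
  infer_instance

theorem w12_2 : w12 P = spMap (g2 B P) ≫ w2 P :=
  pushout.condition (f := spMap (g1 B P)) (g := spMap (g2 B P))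

theorem w1_π : w1 P ≫ (Hyp P).π = spMap (algebraMap B _) := HX.in1_pr B P

theorem w2_π : w2 P ≫ (Hyp P).π = spMap (algebraMap B _) := HX.in2_pr B P

theorem w12_π : w12 P ≫ (Hyp P).π = spMap (algebraMap B _) := by
  unfold w12
  rw [Category.assoc, w1_π, spMap_comp']
  exact congrArg (fun f => spMap f) (RingHom.ext fun c => g1_b B P c)

/-- the first open set -/
noncomputable def U1 : (Hyp P).X.Opens := (w1 P).opensRange

/-- the second open set -/
noncomputable def U2 : (Hyp P).X.Opens := (w2 P).opensRange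

theorem U12 : (w12 P).opensRange = U1 P ⊓ U2 P :=
  (glue2_inter (spMap (g1 B P)) (spMap (g2 B P))).symm

theorem cov : U1 P ⊔ U2 P = ⊤ :=
  glue2_range (spMap (g1 B P)) (spMap (g2 B P))

theorem aff1 : IsAffineOpen (U1 P) := isAffineOpen_opensRange _

theorem aff2 : IsAffineOpen (U2 P) := isAffineOpen_opensRange _

theorem aff12 : IsAffineOpen (U1 P ⊓ U2 P) := by
  rw [← U12]
  exact isAffineOpen_opensRange _

/-- functions on the first chart -/
noncomputable def m1 : Γ((Hyp P).X, U1 P) →+* A1 B P := gm (w1 P) (U1 P) (le_range _ rfl)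

/-- functions on the second chart -/
noncomputable def m2 : Γ((Hyp P).X, U2 P) →+* A2 B P := gm (w2 P) (U2 P) (le_range _ rfl)

/-- functions on the intersection -/
noncomputable def m12 : Γ((Hyp P).X, U1 P ⊓ U2 P) →+* A12 B P :=
  gm (w12 P) (U1 P ⊓ U2 P) (le_range _ (U12 P))

theorem b1 : Function.Bijective (m1 P) := gm_bij _ _ _ rfl

theorem b2 : Function.Bijective (m2 P) := gm_bij _ _ _ rfl

theorem b12 : Function.Bijective (m12 P) := gm_bij _ _ _ (U12 P)

theorem mr1 (v : Γ((Hyp P).X, U1 P)) :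
    m12 P (rs (Hyp P).X inf_le_left v) = g1 B P (m1 P v) :=
  gm_rs (w1 P) (g1 B P) (w12 P) rfl inf_le_left _ _ v

theorem mr2 (v : Γ((Hyp P).X, U2 P)) :
    m12 P (rs (Hyp P).X inf_le_right v) = g2 B P (m2 P v) :=
  gm_rs (w2 P) (g2 B P) (w12 P) (w12_2 P) inf_le_right _ _ v

theorem mc1 (c : B) : m1 P (coef (Hyp P).π (U1 P) c) = algebraMap B _ c :=
  gm_coef _ _ _ (w1_π P) _ _ c

theorem mc2 (c : B) : m2 P (coef (Hyp P).π (U2 P) c) = algebraMap B _ c :=
  gm_coef _ _ _ (w2_π P) _ _ c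

theorem mc12 (c : B) : m12 P (coef (Hyp P).π (U1 P ⊓ U2 P) c) = algebraMap B _ c :=
  gm_coef _ _ _ (w12_π P) _ _ c

variable (t : Thk S (Hyp P))

theorem good1 : Good t (U1 P) := goodAff t _ (t_AFF t _ (aff1 P))

theorem good2 : Good t (U2 P) := goodAff t _ (t_AFF t _ (aff2 P))

theorem good12 : Good t (U1 P ⊓ U2 P) := goodAff t _ (t_AFF t _ (aff12 P))

/-- the ring data of the thickening -/
noncomputable def D : HData S P where
  G1 := Γ(t.y.X, t.op (U1 P))
  G2 := Γ(t.y.X, t.op (U2 P))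
  G12 := Γ(t.y.X, t.op (U1 P ⊓ U2 P))
  a1 := coef t.y.π (t.op (U1 P))
  a2 := coef t.y.π (t.op (U2 P))
  a12 := coef t.y.π (t.op (U1 P ⊓ U2 P))
  f1 := rs t.y.X (t.op_mono inf_le_left)
  f2 := rs t.y.X (t.op_mono inf_le_right)
  fa1 z := coef_rs _ _ z
  fa2 z := coef_rs _ _ z
  q1 := (m1 P).comp (t.q (U1 P))
  q2 := (m2 P).comp (t.q (U2 P))
  q12 := (m12 P).comp (t.q (U1 P ⊓ U2 P))
  qa1 z := by
    change m1 P (t.q (U1 P) (coef t.y.π (t.op (U1 P)) z)) = _
    rw [t.q_coef, mc1]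
  qa2 z := by
    change m2 P (t.q (U2 P) (coef t.y.π (t.op (U2 P)) z)) = _
    rw [t.q_coef, mc2]
  qa12 z := by
    change m12 P (t.q _ (coef t.y.π (t.op _) z)) = _
    rw [t.q_coef, mc12]
  qf1 v := by
    change m12 P (t.q _ (rs t.y.X (t.op_mono inf_le_left) v)) = g1 B P (m1 P (t.q _ v))
    rw [t.q_rs inf_le_left, mr1]
  qf2 v := by
    change m12 P (t.q _ (rs t.y.X (t.op_mono inf_le_right) v)) = g2 B P (m2 P (t.q _ v))
    rw [t.q_rs inf_le_right, mr2]
  sur1 := (b1 P).2.comp (good1 P t).sur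
  sur2 := (b2 P).2.comp (good2 P t).sur
  sur12 := (b12 P).2.comp (good12 P t).sur
  ker1 v hv := (good1 P t).ker v ((map_eq_zero_iff _ (b1 P).1).1 hv)
  ker2 v hv := (good2 P t).ker v ((map_eq_zero_iff _ (b2 P).1).1 hv)
  ker12 v hv := (good12 P t).ker v ((map_eq_zero_iff _ (b12 P).1).1 hv)
  un1 w hw j := by
    change m1 P (t.q (U1 P) (w j)) = 0
    rw [(good1 P t).un w hw j, map_zero]
  un2 w hw j := by
    change m2 P (t.q (U2 P) (w j)) = 0
    rw [(good2 P t).un w hw j, map_zero]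
  un12 w hw j := by
    change m12 P (t.q _ (w j)) = 0
    rw [(good12 P t).un w hw j, map_zero]

variable {P t}

theorem red_piece {R R' : Type} [CommRing R] [CommRing R'] {U : (Hyp P).X.Opens}
    (w : Sp R ⟶ (Hyp P).X) (hw : ⊤ ≤ w ⁻¹ᵁ U) (hU' : IsAffineOpen (t.op U))
    (e : R' ≃+* Γ(t.y.X, t.op U)) (u : R' →+* R)
    (h : ∀ v, gm w U hw (t.q U (e v)) = u v) :
    w ≫ t.r.f = spMap u ≫ ww hU' e.symm := by
  have hle : ⊤ ≤ (w ≫ t.r.f) ⁻¹ᵁ (t.op U) := by
    intro a ha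
    have h1 : w a ∈ t.r.f ⁻¹ᵁ (t.op U) := by
      rw [t.pre]
      exact hw ha
    change (w ≫ t.r.f) a ∈ t.op U
    rw [Scheme.Hom.comp_apply]
    exact h1
  refine ww_eq hU' e.symm _ hle _ fun v => ?_
  have h1 := gm_nat t.r.f (w ≫ t.r.f) w (RingHom.id R)
    (spMap_id_comp _).symm (t.op U) U hle hw (t.pre U).ge v
  have h2 : gm (w ≫ t.r.f) (t.op U) hle v = gm w U hw (t.q U v) := h1.symm
  rw [h2]
  have h3 := h (e.symm v)
  rw [e.apply_symm_apply] at h3
  exact h3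

theorem rs_piece {R R' : Type} [CommRing R] [CommRing R'] {U U' : (Hyp P).X.Opens} (hUU : U' ≤ U)
    (hU : IsAffineOpen (t.op U)) (hU' : IsAffineOpen (t.op U'))
    (e : R ≃+* Γ(t.y.X, t.op U)) (e' : R' ≃+* Γ(t.y.X, t.op U')) (g : R →+* R')
    (h : ∀ v, rs t.y.X (t.op_mono hUU) (e v) = e' (g v)) :
    ww hU' e'.symm = spMap g ≫ ww hU e.symm := by
  have hl : ⊤ ≤ ww hU' e'.symm ⁻¹ᵁ (t.op U) :=
    (ww_le hU' e'.symm).trans fun _ hx => t.op_mono hUU hx
  refine ww_eq hU e.symm _ hl _ fun v => ?_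
  have h1 := gm_rs (ww hU' e'.symm) (RingHom.id R') (ww hU' e'.symm) (spMap_id_comp _).symm
    (W := t.op U) (W' := t.op U') (t.op_mono hUU) hl (ww_le hU' e'.symm) v
  rw [ww_gm] at h1
  have h2 : gm (ww hU' e'.symm) (t.op U) hl v = e'.symm (rs t.y.X (t.op_mono hUU) v) := h1.symm
  rw [h2, RingEquiv.symm_apply_eq]
  have h3 := h (e.symm v)
  rw [e.apply_symm_apply] at h3
  exact h3

end

end Pool.Agent.MG.H2.HES

namespace Pool.Agent.MG.H2

open Pool.Agent.MG.GLU Pool.Agent.MG.KSU HES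

theorem t_HE (hHEA : Stmt_HEA) : Stmt_HE := by
  intro B E J _ _ _ S P h2 t
  obtain ⟨P', hf, e1, e2, e12, c1, c2, f1, f2, q1, q2⟩ := hHEA S P h2 (HES.D P t)
  let E1 : A1 E P' ≃+* Γ(t.y.X, t.op (U1 P)) := e1
  let E2 : A2 E P' ≃+* Γ(t.y.X, t.op (U2 P)) := e2
  let E12 : A12 E P' ≃+* Γ(t.y.X, t.op (U1 P ⊓ U2 P)) := e12
  have F1 := t_AFF t _ (aff1 P)
  have F2 := t_AFF t _ (aff2 P)
  have F12 := t_AFF t _ (aff12 P)
  have k1 : ww F12 E12.symm = spMap (g1 E P') ≫ ww F1 E1.symm :=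
    rs_piece inf_le_left F1 F12 E1 E12 (g1 E P') f1
  have k2 : ww F12 E12.symm = spMap (g2 E P') ≫ ww F2 E2.symm :=
    rs_piece inf_le_right F2 F12 E2 E12 (g2 E P') f2
  have r1 : (ww F1 E1.symm).opensRange = t.op (U1 P) := ww_range F1 E1.symm
  have r2 : (ww F2 E2.symm).opensRange = t.op (U2 P) := ww_range F2 E2.symm
  have r12 : (ww F12 E12.symm).opensRange = t.op (U1 P ⊓ U2 P) := ww_range F12 E12.symm
  have comm : spMap (g1 E P') ≫ ww F1 E1.symm = spMap (g2 E P') ≫ ww F2 E2.symm := by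
    rw [← k1, k2]
  -- the thickening is the push out of the charts
  have push : IsPushout (spMap (g1 E P')) (spMap (g2 E P')) (ww F1 E1.symm)
      (ww F2 E2.symm) := by
    refine glue_push comm ?_ ?_
    · intro z
      have hz : z ∈ t.op (U1 P) ⊔ t.op (U2 P) := by
        rw [← t.op_sup, cov, t.op_top]
        trivial
      rcases hz with hz | hz
      · left
        have h1 : z ∈ (ww F1 E1.symm).opensRange := by
          rw [r1]
          exact hz
        exact h1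
      · right
        have h1 : z ∈ (ww F2 E2.symm).opensRange := by
          rw [r2]
          exact hz
        exact h1
    · intro x y hxy
      have h1 : ww F1 E1.symm x ∈ t.op (U1 P) := le_range _ r1 (show x ∈ ⊤ by trivial)
      have h2 : ww F2 E2.symm y ∈ t.op (U2 P) := le_range _ r2 (show y ∈ ⊤ by trivial)
      have h3 : ww F1 E1.symm x ∈ (ww F12 E12.symm).opensRange := by
        rw [r12, t.op_inf]
        exact ⟨h1, hxy ▸ h2⟩
      obtain ⟨w, hw⟩ := h3
      refine ⟨w, ?_, ?_⟩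
      · apply (ww F1 E1.symm).isOpenEmbedding.injective
        rw [← Scheme.Hom.comp_apply, ← k1]
        exact hw
      · apply (ww F2 E2.symm).isOpenEmbedding.injective
        rw [← Scheme.Hom.comp_apply, ← k2, ← hxy]
        exact hw
  let f : t.y.X ⟶ HX E P' := push.isoPushout.hom
  have hf1 : ww F1 E1.symm ≫ f = HX.in1 E P' := push.inl_isoPushout_hom
  have hf2 : ww F2 E2.symm ≫ f = HX.in2 E P' := push.inr_isoPushout_hom
  have hfi : IsIso f := inferInstanceAs (IsIso push.isoPushout.hom)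
  have hπ : f ≫ HX.pr E P' = t.y.π := by
    apply push.hom_ext
    · rw [← Category.assoc, hf1, HX.in1_pr]
      refine (ww_π F1 E1.symm t.y.π _ fun c => ?_).symm
      rw [RingEquiv.symm_apply_eq]
      exact (c1 c).symm
    · rw [← Category.assoc, hf2, HX.in2_pr]
      refine (ww_π F2 E2.symm t.y.π _ fun c => ?_).symm
      rw [RingEquiv.symm_apply_eq]
      exact (c2 c).symm
  have hid : spMap (RingHom.id E) = 𝟙 _ := Spec.map_id _
  refine ⟨P', hf, ⟨f, ?_, fun i => i.elim0⟩, ?_⟩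
  · have : IsIso (spMap (RingHom.id E)) := by
      rw [hid]
      infer_instance
    refine IsPullback.of_horiz_isIso ⟨?_⟩
    rw [hid, Category.comp_id]
    exact hπ
  · refine HX.ext' ?_ ?_
    · change HX.in1 B P ≫ t.r.f ≫ f = HX.in1 B P ≫ HX.map S.p hf
      have h1 : w1 P ≫ t.r.f = spMap (bc1 S.p hf) ≫ ww F1 E1.symm :=
        red_piece (w1 P) (le_range _ rfl) F1 E1 _ q1
      have h2 : HX.in1 B P ≫ t.r.f = spMap (bc1 S.p hf) ≫ ww F1 E1.symm := h1
      rw [HX.in1_map, ← Category.assoc, h2, Category.assoc, hf1]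
    · change HX.in2 B P ≫ t.r.f ≫ f = HX.in2 B P ≫ HX.map S.p hf
      have h1 : w2 P ≫ t.r.f = spMap (bc2 S.p hf) ≫ ww F2 E2.symm :=
        red_piece (w2 P) (le_range _ rfl) F2 E2 _ q2
      have h2 : HX.in2 B P ≫ t.r.f = spMap (bc2 S.p hf) ≫ ww F2 E2.symm := h1
      rw [HX.in2_map, ← Category.assoc, h2, Category.assoc, hf2]

end Pool.Agent.MG.H2
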