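import Pool.Agent.MG.H2.StmtsH

/-!
# HLI: every change of `∏ (x - r i)` moves three roots, up to coordinate changes
-/

namespace Pool.Agent.MG.H2

namespace HLIa

open Polynomial

/-- The derivative of `pol`. -/
def dpol {R : Type} [CommRing R] (f : Fin 7 → R) (x : R) : R :=
  f 1 + 2 * f 2 * x + 3 * f 3 * x ^ 2 + 4 * f 4 * x ^ 3 + 5 * f 5 * x ^ 4 + 6 * f 6 * x ^ 5

theorem pol_dir {R : Type} [CommRing R] (a b d c : R) (f : Fin 7 → R) (x : R) :
    pol (dir a b d c f) x = (a + b * x + d * x ^ 2) * dpol f x - (2 * c + 6 * d * x) * pol f x := by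
  simp only [pol, dpol, dir, Matrix.cons_val]
  ring

theorem pol_coeff {R : Type} [CommRing R] (p : R[X]) (hp : p.natDegree < 7) (x : R) :
    pol (fun j => p.coeff j) x = p.eval x := by
  rw [Polynomial.eval_eq_sum_range' hp]
  simp [pol, Finset.sum_range_succ]

theorem dpol_coeff {R : Type} [CommRing R] (p : R[X]) (hp : p.natDegree < 7) (x : R) :
    dpol (fun j => p.coeff j) x = p.derivative.eval x := by
  have h1 : p.derivative.natDegree < 6 := by
    have := Polynomial.natDegree_derivative_le p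
    omega
  rw [Polynomial.eval_eq_sum_range' h1]
  simp only [dpol, Finset.sum_range_succ, Finset.sum_range_zero, Polynomial.coeff_derivative]
  push_cast
  simp
  ring

theorem quad {K : Type} [Field K] (x1 x2 x3 v1 v2 v3 : K) (h12 : x1 ≠ x2) (h13 : x1 ≠ x3)
    (h23 : x2 ≠ x3) : ∃ a b d : K, a + b * x1 + d * x1 ^ 2 = v1 ∧ a + b * x2 + d * x2 ^ 2 = v2 ∧
      a + b * x3 + d * x3 ^ 2 = v3 := by
  have e1 : x2 - x1 ≠ 0 := sub_ne_zero.2 h12.symm
  have e2 : x3 - x1 ≠ 0 := sub_ne_zero.2 h13.symm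
  have e3 : x3 - x2 ≠ 0 := sub_ne_zero.2 h23.symm
  obtain ⟨b, hb⟩ : ∃ b : K, b * (x2 - x1) = v2 - v1 := ⟨(v2 - v1) / (x2 - x1), by field_simp⟩
  obtain ⟨d, hd⟩ : ∃ d : K, d * ((x3 - x1) * (x3 - x2)) = v3 - v1 - b * (x3 - x1) :=
    ⟨(v3 - v1 - b * (x3 - x1)) / ((x3 - x1) * (x3 - x2)), by field_simp⟩
  refine ⟨v1 - b * x1 + d * x1 * x2, b - d * (x1 + x2), d, by ring, ?_, ?_⟩
  · linear_combination hb
  · linear_combination hd

theorem natDeg {R : Type} [CommRing R] [Nontrivial R] (r : Fin 6 → R) :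
    (∏ i, (X - C (r i))).natDegree = 6 := by
  rw [Polynomial.natDegree_prod_of_monic _ _ fun i _ => Polynomial.monic_X_sub_C _]
  simp

theorem natDeg' {R : Type} [CommRing R] [Nontrivial R] (r : Fin 6 → R) (i : Fin 6) :
    (∏ i' ∈ Finset.univ.erase i, (X - C (r i'))).natDegree = 5 := by
  rw [Polynomial.natDegree_prod_of_monic _ _ fun i _ => Polynomial.monic_X_sub_C _]
  simp

theorem rts_root {K : Type} [Field K] (r : Fin 6 → K) (k : Fin 6) : pol (rts r) (r k) = 0 := by
  have h := pol_coeff (∏ i, (X - C (r i))) (by rw [natDeg]; norm_num) (r k)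
  rw [show rts r = fun j => (∏ i, (X - C (r i))).coeff j from rfl, h, Polynomial.eval_prod]
  exact Finset.prod_eq_zero (Finset.mem_univ k) (by simp)

theorem rts_d {K : Type} [Field K] (r : Fin 6 → K) (k : Fin 6) :
    dpol (rts r) (r k) = ∏ i' ∈ Finset.univ.erase k, (r k - r i') := by
  have h := dpol_coeff (∏ i, (X - C (r i))) (by rw [natDeg]; norm_num) (r k)
  rw [show rts r = fun j => (∏ i, (X - C (r i))).coeff j from rfl, h,
    ← Finset.mul_prod_erase Finset.univ _ (Finset.mem_univ k)]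
  simp [Polynomial.derivative_mul, Polynomial.eval_prod]

theorem mvr_self {K : Type} [Field K] (r : Fin 6 → K) (i : Fin 6) :
    pol (mvr r i) (r i) = -∏ i' ∈ Finset.univ.erase i, (r i - r i') := by
  have h := pol_coeff (-∏ i' ∈ Finset.univ.erase i, (X - C (r i')))
    (by rw [Polynomial.natDegree_neg, natDeg']; norm_num) (r i)
  rw [show mvr r i = fun j => (-∏ i' ∈ Finset.univ.erase i, (X - C (r i'))).coeff j from
    funext fun j => (Polynomial.coeff_neg _ _).symm, h]
  simp [Polynomial.eval_prod]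

theorem mvr_ne {K : Type} [Field K] (r : Fin 6 → K) (i k : Fin 6) (hik : k ≠ i) :
    pol (mvr r i) (r k) = 0 := by
  have h := pol_coeff (-∏ i' ∈ Finset.univ.erase i, (X - C (r i')))
    (by rw [Polynomial.natDegree_neg, natDeg']; norm_num) (r k)
  rw [show mvr r i = fun j => (-∏ i' ∈ Finset.univ.erase i, (X - C (r i'))).coeff j from
    funext fun j => (Polynomial.coeff_neg _ _).symm, h, Polynomial.eval_neg, Polynomial.eval_prod,
    Finset.prod_eq_zero (Finset.mem_erase.2 ⟨hik, Finset.mem_univ k⟩) (by simp), neg_zero]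

theorem zero_of {K : Type} [Field K] (r : Fin 6 → K) (hr : Function.Injective r) (g : Fin 7 → K)
    (h6 : g 6 = 0) (hg : ∀ k, pol g (r k) = 0) : ∀ j, g j = 0 := by
  set p : K[X] := C (g 0) + C (g 1) * X + C (g 2) * X ^ 2 + C (g 3) * X ^ 3 + C (g 4) * X ^ 4 +
    C (g 5) * X ^ 5 with hp
  have hdeg : p.natDegree < Fintype.card (Fin 6) := by
    have : p.natDegree ≤ 5 := by
      rw [hp]
      compute_degree
    simp
    omega
  have h0 : p = 0 := Polynomial.eq_zero_of_natDegree_lt_card_of_eval_eq_zero p hr (fun k => by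
    have := hg k
    simp only [pol, h6] at this
    rw [hp]
    simp
    linear_combination this) hdeg
  have hc : ∀ j : ℕ, p.coeff j = 0 := fun j => by rw [h0, Polynomial.coeff_zero]
  intro j
  fin_cases j
  · have := hc 0
    simpa [hp, coeff_X, coeff_C, coeff_X_pow] using this
  · have := hc 1
    simpa [hp, coeff_X, coeff_C, coeff_X_pow] using this
  · have := hc 2
    simpa [hp, coeff_X, coeff_C, coeff_X_pow] using this
  · have := hc 3
    simpa [hp, coeff_X, coeff_C, coeff_X_pow] using this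
  · have := hc 4
    simpa [hp, coeff_X, coeff_C, coeff_X_pow] using this
  · have := hc 5
    simpa [hp, coeff_X, coeff_C, coeff_X_pow] using this
  · exact h6

theorem pol_comb {K : Type} [Field K] (h m0 m1 m2 e : Fin 7 → K) (w0 w1 w2 x : K) :
    pol (fun j => h j - (w0 * m0 j + w1 * m1 j + w2 * m2 j + e j)) x =
      pol h x - (w0 * pol m0 x + w1 * pol m1 x + w2 * pol m2 x + pol e x) := by
  simp only [pol]
  ring

end HLIa

open HLIa in
theorem t_HLI : Stmt_HLI := by
  intro K _ _ r hr h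
  have hd : ∀ k, (∏ i' ∈ Finset.univ.erase k, (r k - r i')) ≠ 0 := fun k =>
    Finset.prod_ne_zero_iff.2 fun i hi => sub_ne_zero.2 fun e =>
      (Finset.mem_erase.1 hi).1 (hr e).symm
  set d : Fin 6 → K := fun k => ∏ i' ∈ Finset.univ.erase k, (r k - r i') with hd0
  have hd' : ∀ k, d k ≠ 0 := hd
  obtain ⟨a, b, q, h3, h4, h5⟩ := quad (r 3) (r 4) (r 5) (pol h (r 3) / d 3) (pol h (r 4) / d 4)
    (pol h (r 5) / d 5) (fun e => by simpa using hr e) (fun e => by simpa using hr e)
    (fun e => by simpa using hr e)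
  have hf6 : rts r 6 = 1 := by
    have h1 := natDeg r
    have h2 : (∏ i, (Polynomial.X - Polynomial.C (r i))).Monic :=
      Polynomial.monic_prod_of_monic _ _ fun i _ => Polynomial.monic_X_sub_C _
    have h3 := h2.coeff_natDegree
    rw [h1] at h3
    exact h3
  have hm6 : ∀ i, mvr r i 6 = 0 := by
    intro i
    have h1 := natDeg' r i
    rw [mvr, Polynomial.coeff_eq_zero_of_natDegree_lt (by rw [h1]; norm_num), neg_zero]
  set ξ : K → K := fun x => a + b * x + q * x ^ 2 with hξ
  obtain ⟨c, hc⟩ : ∃ c : K, h 6 = (6 * b - 2 * c) * rts r 6 - q * rts r 5 := by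
    refine ⟨(6 * b - q * rts r 5 - h 6) / 2, ?_⟩
    rw [hf6]
    field_simp
    ring
  set w : Fin 3 → K := ![ξ (r 0) - pol h (r 0) / d 0, ξ (r 1) - pol h (r 1) / d 1,
    ξ (r 2) - pol h (r 2) / d 2] with hw
  refine ⟨w, a, b, q, c, ?_⟩
  have key := zero_of r hr (fun j => h j - (w 0 * mvr r 0 j + w 1 * mvr r 1 j + w 2 * mvr r 2 j +
    dir a b q c (rts r) j)) (by
      simp only [hm6]
      rw [hc]
      simp [dir]) (by
      intro k
      rw [pol_comb, pol_dir, rts_root, rts_d]
      have hk : ∀ k, pol h (r k) / d k * d k = pol h (r k) := fun k => div_mul_cancel₀ _ (hd' k)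
      fin_cases k
      · have e := hk 0
        simp only [Fin.zero_eta, Fin.mk_one, Fin.reduceFinMk]
        rw [mvr_self, mvr_ne r 1 0 (by decide), mvr_ne r 2 0 (by decide)]
        have e2 : w 0 = ξ (r 0) - pol h (r 0) / d 0 := rfl
        rw [e2]
        change pol h (r 0) - ((ξ (r 0) - pol h (r 0) / d 0) * -d 0 + w 1 * 0 + w 2 * 0 +
          (ξ (r 0) * d 0 - (2 * c + 6 * q * r 0) * 0)) = 0
        linear_combination -e
      · have e := hk 1
        simp only [Fin.zero_eta, Fin.mk_one, Fin.reduceFinMk]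
        rw [mvr_self, mvr_ne r 0 1 (by decide), mvr_ne r 2 1 (by decide)]
        have e2 : w 1 = ξ (r 1) - pol h (r 1) / d 1 := rfl
        rw [e2]
        change pol h (r 1) - (w 0 * 0 + (ξ (r 1) - pol h (r 1) / d 1) * -d 1 + w 2 * 0 +
          (ξ (r 1) * d 1 - (2 * c + 6 * q * r 1) * 0)) = 0
        linear_combination -e
      · have e := hk 2
        simp only [Fin.zero_eta, Fin.mk_one, Fin.reduceFinMk]
        rw [mvr_self, mvr_ne r 0 2 (by decide), mvr_ne r 1 2 (by decide)]
        have e2 : w 2 = ξ (r 2) - pol h (r 2) / d 2 := rfl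
        rw [e2]
        change pol h (r 2) - (w 0 * 0 + w 1 * 0 + (ξ (r 2) - pol h (r 2) / d 2) * -d 2 +
          (ξ (r 2) * d 2 - (2 * c + 6 * q * r 2) * 0)) = 0
        linear_combination -e
      · have e := hk 3
        simp only [Fin.zero_eta, Fin.mk_one, Fin.reduceFinMk]
        rw [mvr_ne r 0 3 (by decide), mvr_ne r 1 3 (by decide), mvr_ne r 2 3 (by decide), h3]
        change pol h (r 3) - (w 0 * 0 + w 1 * 0 + w 2 * 0 +
          (pol h (r 3) / d 3 * d 3 - (2 * c + 6 * q * r 3) * 0)) = 0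
        linear_combination -e
      · have e := hk 4
        simp only [Fin.zero_eta, Fin.mk_one, Fin.reduceFinMk]
        rw [mvr_ne r 0 4 (by decide), mvr_ne r 1 4 (by decide), mvr_ne r 2 4 (by decide), h4]
        change pol h (r 4) - (w 0 * 0 + w 1 * 0 + w 2 * 0 +
          (pol h (r 4) / d 4 * d 4 - (2 * c + 6 * q * r 4) * 0)) = 0
        linear_combination -e
      · have e := hk 5
        simp only [Fin.zero_eta, Fin.mk_one, Fin.reduceFinMk]
        rw [mvr_ne r 0 5 (by decide), mvr_ne r 1 5 (by decide), mvr_ne r 2 5 (by decide), h5]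
        change pol h (r 5) - (w 0 * 0 + w 1 * 0 + w 2 * 0 +
          (pol h (r 5) / d 5 * d 5 - (2 * c + 6 * q * r 5) * 0)) = 0
        linear_combination -e)
  exact fun j => sub_eq_zero.1 (key j)

end Pool.Agent.MG.H2
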