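import Pool.Agent.MG.H2.StmtsM
import Pool.Agent.MG.H2.HES
import Pool.Agent.MG.H2.HEA
import Pool.Agent.MG.H2.HLI

/-!
# The curves `y² = f(x)` with the covectors `q(x) (dx)²/f(x)`: all the data
-/

open CategoryTheory CategoryTheory.Limits AlgebraicGeometry Polynomial

namespace Pool.Agent.MG.H2

namespace GeoM

section lift

variable {A : Type} [CommRing A]

theorem cf7_pp (f : Fin 7 → A) : cf7 (pp A f) = f := by
  funext i
  simp only [cf7, pp, pol, coeff_add, coeff_C_mul, coeff_X_pow, coeff_C, coeff_X]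
  fin_cases i <;> simp

theorem pp_deg (f : Fin 7 → A) : (pp A f).natDegree ≤ 6 := by
  simp only [pp, pol]
  compute_degree

/-- Nilpotent extensions. -/
theorem good_lift {K : Type} [Field K] (p : A →+* K) (s : K →+* A)
    (hk : ∀ a, IsNilpotent (a - s (p a))) {F : A[X]} (hF : F.natDegree ≤ 6)
    (hg : Two2.Good (F.map p)) : Two2.Good F := by
  rw [Two2.good_iff] at hg ⊢
  refine ⟨hF, fun L _ ψ => ?_⟩
  have e : F.map ψ = (F.map p).map (ψ.comp s) := by
    rw [map_map]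
    congr 1
    refine RingHom.ext fun a => ?_
    have h1 : IsNilpotent (ψ (a - s (p a))) := (hk a).map ψ
    have h2 := h1.eq_zero
    rw [map_sub, sub_eq_zero] at h2
    exact h2
  rw [e]
  exact hg.2 L (ψ.comp s)

theorem stb_aux (hYHT : Stmt_YHT) {K : Type} [Field K] [Algebra ℂ K] (p : A →+* K) (s : K →+* A)
    (hk : ∀ a, IsNilpotent (a - s (p a))) (g : K[X]) (hg : Two2.Good g)
    (f : Fin 7 → A) (hf : ∀ i, cf7 g i = p (f i)) : IsStable 2 (Hyp f) := by
  let _ : Algebra ℂ A := (s.comp (algebraMap ℂ K)).toAlgebra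
  have e : (pp A f).map p = g := by
    have h1 : cf7 ((pp A f).map p) = cf7 g := by
      funext i
      rw [cf7_map, cf7_pp, hf]
    rw [← GeoN.pp_cf7 (B := K) (f := (pp A f).map p) (natDegree_map_le.trans (pp_deg f)), h1,
      GeoN.pp_cf7 hg.deg]
  have h := good_lift p s hk (pp_deg f) (e ▸ hg)
  have h2 := GeoN.hsm h
  rw [cf7_pp] at h2
  exact hYHT f h2

end lift

theorem stb (hYHT : Stmt_YHT) {K : Type} [Field K] [Algebra ℂ K] (r : Fin 6 → K)
    (hr : Function.Injective r) : HCU.Stb (rts r) := by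
  have hg : Two2.Good (∏ i, (X - C (r i)) : K[X]) 
      := Two2.good_prod (Or.inr (by simp)) r hr
  constructor
  · intro f hf
    refine stb_aux hYHT (eps0 K) (TrivSqZeroExt.inlHom K K) (fun a => ⟨2, ?_⟩) _ hg f hf
    rw [sq]
    exact HCU.sq_zero _ (sub_self _)
  · intro f hf
    refine stb_aux hYHT (eps20 K) (TrivSqZeroExt.inlHom K (K × K)) (fun a => ⟨2, ?_⟩) _ hg f hf
    rw [sq]
    exact HCU.sq_zero _ (sub_self _)

theorem m_surj (hHTR : Stmt_HTR) (hYHT : Stmt_YHT) (hVAL : Stmt_VAL) {K : Type} [Field K]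
    [Algebra ℂ K] (r : Fin 6 → K)
    (hr : Function.Injective r) (hf : Two2.Good (∏ i, (X - C (r i)) : K[X]))
    (l : Cov 2 (Hyp (cf7 (∏ i, (X - C (r i)))))) :
    ∃ q : K[X], q.natDegree ≤ 2 ∧ l = GeoA.cv (∏ i, (X - C (r i))) hf q := by
  have : CharZero K := charZero_of_injective_algebraMap (algebraMap ℂ K).injective
  obtain ⟨u, hu, h⟩ := hVAL r hr (GeoA.hok hf)
  refine surj_of (t_HE (t_HEA t_HRG)) hHTR t_HLI t_HBC r hr (stb hYHT r hr)
    (fun q => GeoA.cv _ hf q) u hu (fun q i hs hc hq => ?_) l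
  have e := h (GeoA.cq q) i hs hc
  refine e.trans ?_
  have h1 : q.eval (r i) = q.coeff 0 + q.coeff 1 * r i + q.coeff 2 * r i ^ 2 := by
    rw [eval_eq_sum_range' (n := 3) (by omega)]
    simp [Finset.sum_range_succ]
  have h2 : GeoA.cq q 0 - GeoA.cq q 1 * r i + GeoA.cq q 2 * r i ^ 2 = q.eval (r i) := by
    rw [h1]
    change q.coeff 0 - (-q.coeff 1) * r i + q.coeff 2 * r i ^ 2 = _
    ring
  rw [h2]

end GeoM

/-- The geometric data in genus two. -/
noncomputable def mdl (hHTR : Stmt_HTR) (hYHT : Stmt_YHT) (hVAL : Stmt_VAL) (hREG : Stmt_REG) :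
    Mdl where
  crv := fun f => Hyp (cf7 f)
  st := fun f hf => hYHT (cf7 f) (GeoN.hsm hf)
  cov := fun f hf q => GeoA.cv f hf q
  bc := fun φ f q hf hf' _ => GeoA.m_bc φ f q hf hf'
  sc := fun a b f q f' q' hf hf' ha hb _ _ h1 h2 => GeoA.m_sc a b f q f' q' hf hf' ha hb h1 h2
  tr := fun e f q hf hf' he hq => GeoA.m_tr e f q hf hf' he hq
  inv := fun f q hf hf' _ => GeoA.m_inv f q hf hf'
  reg := fun φ hφ s ρ r e h1 h2 h3 h4 h5 hf => hREG φ hφ s ρ r e h1 h2 h3 h4 h5 hf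
  surj := fun r hr hf l => GeoM.m_surj hHTR hYHT hVAL r hr hf l
  link := fun r _ => GeoA.m_link r

end Pool.Agent.MG.H2
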