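import Pool.Agent.MG.H2.StmtsG
import Pool.Agent.MG.DER
import Mathlib

/-!
# Derivations of an algebraic closure: there are fields with independent derivations
-/

open CategoryTheory CategoryTheory.Limits AlgebraicGeometry TensorProduct

namespace Pool.Agent.MG.H2

namespace HDRx

/-- The polynomial ring in three variables. -/
abbrev P : Type := MvPolynomial (Fin 3) ℂ

/-- Its fraction field. -/
abbrev F : Type := FractionRing P

/-- The algebraic closure. -/
abbrev K : Type := AlgebraicClosure F

/-- The variables in `K`. -/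
noncomputable def x (i : Fin 3) : K := algebraMap P K (MvPolynomial.X i)

/-- The points. -/
noncomputable def r : Fin 6 → K :=
  ![x 0, x 1, x 2, algebraMap ℂ K 0, algebraMap ℂ K 1, algebraMap ℂ K 2]

/-- The points in the polynomial ring. -/
noncomputable def q : Fin 6 → P :=
  ![MvPolynomial.X 0, MvPolynomial.X 1, MvPolynomial.X 2, MvPolynomial.C 0, MvPolynomial.C 1,
    MvPolynomial.C 2]

theorem inj_PK : Function.Injective (algebraMap P K) := by
  rw [IsScalarTower.algebraMap_eq P F K]
  exact (algebraMap F K).injective.comp (IsFractionRing.injective P F)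

theorem r_eq (i : Fin 6) : r i = algebraMap P K (q i) := by
  fin_cases i
  · rfl
  · rfl
  · rfl
  all_goals
    simp only [r, q]
    exact IsScalarTower.algebraMap_apply ℂ P K _

theorem q_inj : Function.Injective q := by
  intro i j h
  have key : ∀ v : Fin 3 → ℂ, MvPolynomial.eval v (q i) = MvPolynomial.eval v (q j) :=
    fun v => by rw [h]
  have h1 := key ![3, 4, 5]
  fin_cases i <;> fin_cases j <;> first | rfl | (exfalso; revert h1; simp [q]; try norm_num)

theorem exists_der (w : Fin 3 → K) : ∃ D : Derivation ℂ K K, ∀ i, D (x i) = w i := by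
  have e1 : Algebra.FormallyEtale P F :=
    Algebra.FormallyEtale.of_isLocalization (nonZeroDivisors P)
  have e2 : Algebra.FormallyEtale F K := Algebra.FormallyEtale.of_isSeparable F K
  have e3 : Algebra.FormallyEtale P K := Algebra.FormallyEtale.comp P F K
  obtain ⟨D, hD⟩ := MG.exists_derivation_of_formallyEtale (R := ℂ) (S := P) (T := K) (M := K)
    (MvPolynomial.mkDerivation ℂ w)
  refine ⟨D, fun i => ?_⟩
  rw [x, hD, MvPolynomial.mkDerivation_X]

end HDRx

theorem t_HDR : Stmt_HDR := by
  refine ⟨HDRx.K, inferInstance, inferInstance, inferInstance, HDRx.r, ?_, ?_⟩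
  · intro i j h
    rw [HDRx.r_eq, HDRx.r_eq] at h
    exact HDRx.q_inj (HDRx.inj_PK h)
  · intro w
    obtain ⟨D, hD⟩ := HDRx.exists_der w
    exact ⟨D, hD 0, hD 1, hD 2, D.map_algebraMap 0, D.map_algebraMap 1, D.map_algebraMap 2⟩

end Pool.Agent.MG.H2
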