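import Pool.Agent.MG.H2.StmtsH

/-!
# HCU: covectors on the curves `y² = ∏ (x - r i)` (helper98)
-/

open CategoryTheory CategoryTheory.Limits AlgebraicGeometry TensorProduct

namespace Pool.Agent.MG.H2

namespace HCU

theorem spMap_id (A : Type) [CommRing A] : spMap (RingHom.id A) = 𝟙 (Sp A) := Spec.map_id _

/-! ### functoriality of the base change -/

section functor

variable {B B' B'' : Type} [CommRing B] [CommRing B'] [CommRing B''] (φ : B →+* B')
  (ψ : B' →+* B'') {f : Fin 7 → B} {f' : Fin 7 → B'} {f'' : Fin 7 → B''}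

theorem bc1_comp (h : ∀ i, f' i = φ (f i)) (h' : ∀ i, f'' i = ψ (f' i)) {χ : B →+* B''}
    (hχ : ψ.comp φ = χ) (h'' : ∀ i, f'' i = χ (f i)) :
    (bc1 ψ h').comp (bc1 φ h) = bc1 χ h'' := by
  subst hχ
  refine hom1_ext ?_ ?_ ?_
  · intro c
    rw [RingHom.comp_apply, bc1_b, bc1_b, bc1_b]
    rfl
  · rw [RingHom.comp_apply, bc1_x, bc1_x, bc1_x]
  · rw [RingHom.comp_apply, bc1_y, bc1_y, bc1_y]

theorem map_comp (h : ∀ i, f' i = φ (f i)) (h' : ∀ i, f'' i = ψ (f' i)) {χ : B →+* B''}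
    (hχ : ψ.comp φ = χ) (h'' : ∀ i, f'' i = χ (f i)) :
    HX.map ψ h' ≫ HX.map φ h = HX.map χ h'' := by
  refine HX.ext' ?_ ?_
  · rw [← Category.assoc, HX.in1_map, Category.assoc, HX.in1_map, ← Category.assoc, spMap_comp',
      HX.in1_map, bc1_comp φ ψ h h' hχ h'']
  · rw [← Category.assoc, HX.in2_map, Category.assoc, HX.in2_map, ← Category.assoc, spMap_comp',
      HX.in2_map]
    exact congrArg (fun g => spMap g ≫ HX.in2 B f)
      (bc1_comp φ ψ (rev_bc φ h) (rev_bc ψ h') hχ (rev_bc χ h''))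

/-- The base change arrow. -/
noncomputable def arr (hBC : Stmt_HBC) (h : ∀ i, f' i = φ (f i)) : Arrow φ (Hyp f') (Hyp f) where
  f := HX.map φ h
  cart := hBC φ h
  sec := fun i => i.elim0

end functor

/-! ### the deformations -/

theorem Cov_ext {n : ℕ} {A : Type} [CommRing A] {g : ℕ} {x : Fam n A} (l l' : Cov g x)
    (h : ∀ d, l.l d = l'.l d) : l = l' := by
  cases l
  cases l'
  have : ‹Defo g x → A› = ‹Defo g x → A› := rfl
  congr
  exact funext h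

section defo

variable {K : Type} [Field K] (f0 : Fin 7 → K)

/-- The stability hypothesis. -/
def Stb : Prop :=
  (∀ f : Fin 7 → Eps K, (∀ i, f0 i = eps0 K (f i)) → IsStable 2 (Hyp f)) ∧
    ∀ f : Fin 7 → Eps2 K, (∀ i, f0 i = eps20 K (f i)) → IsStable 2 (Hyp f)

variable {f0}

theorem sq_zero {M : Type} [AddCommGroup M] [Module K M] [Module Kᵐᵒᵖ M]
    [IsCentralScalar K M] (a : TrivSqZeroExt K M)
    (ha : a.fst = 0) : a * a = 0 := by
  ext
  · rw [TrivSqZeroExt.fst_mul, ha, zero_mul, TrivSqZeroExt.fst_zero]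
  · rw [TrivSqZeroExt.snd_mul, ha]
    simp

variable (hBC : Stmt_HBC) (hst : Stb f0)

include hst in
theorem stb1 (F : Fin 7 → Eps K) (hF : ∀ i, f0 i = eps0 K (F i)) : IsStable 2 (Hyp F) :=
  hst.1 F hF

include hst in
theorem stb2 (F : Fin 7 → Eps2 K) (hF : ∀ i, f0 i = eps20 K (F i)) : IsStable 2 (Hyp F) :=
  hst.2 F hF

/-- The deformation given by a lift of the coefficients. -/
noncomputable def dg (F : Fin 7 → Eps K) (hF : ∀ i, f0 i = eps0 K (F i)) : Defo 2 (Hyp f0) where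
  y := Hyp F
  stable := stb1 hst F hF
  r := arr (eps0 K) hBC hF

theorem dg_congr {F F' : Fin 7 → Eps K} (hF : ∀ i, f0 i = eps0 K (F i))
    (hF' : ∀ i, f0 i = eps0 K (F' i)) (h : F = F') : dg hBC hst F hF = dg hBC hst F' hF' := by
  subst h
  rfl

/-- The lift of the coefficients. -/
def lf (f0 : Fin 7 → K) (h : Fin 7 → K) : Fin 7 → Eps K :=
  fun i => TrivSqZeroExt.inl (f0 i) + TrivSqZeroExt.inr (h i)

theorem lf_p (h : Fin 7 → K) (i : Fin 7) : f0 i = eps0 K (lf f0 h i) := by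
  simp [lf]

theorem lf_fst (h : Fin 7 → K) (i : Fin 7) : (lf f0 h i).fst = f0 i := by
  simp [lf]

theorem lf_snd (h : Fin 7 → K) (i : Fin 7) : (lf f0 h i).snd = h i := by
  simp [lf]

/-- The deformation `y² = f0 + ε h`. -/
noncomputable def dh (h : Fin 7 → K) : Defo 2 (Hyp f0) := dg hBC hst (lf f0 h) (lf_p h)

theorem dh_eq (h : Fin 7 → K) (hs hc) : dfm f0 h hs hc = dh hBC hst h := rfl

variable (l : Cov 2 (Hyp f0))

theorem smul (a : K) (h : Fin 7 → K) :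
    l.l (dh hBC hst (a • h)) = a * l.l (dh hBC hst h) := by
  have e : ∀ i, lf f0 (a • h) i = epsScale a (lf f0 h i) := by
    intro i
    ext
    · simp [lf]
    · simp [lf, mul_comm]
  refine l.scale a (dh hBC hst h) (dh hBC hst (a • h)) (arr (epsScale a) hBC e) ?_
  refine map_comp (epsScale a) (eps0 K) e (lf_p (a • h)) ?_ (lf_p h)
  ext z <;> simp

theorem zero : l.l (dh hBC hst 0) = 0 := by
  have h := smul hBC hst l 0 0
  rw [zero_smul, zero_mul] at h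
  exact h

theorem add (h h' : Fin 7 → K) :
    l.l (dh hBC hst (h + h')) = l.l (dh hBC hst h) + l.l (dh hBC hst h') := by
  let F : Fin 7 → Eps2 K := fun i => TrivSqZeroExt.inl (f0 i) + TrivSqZeroExt.inr (h i, h' i)
  have hF : ∀ i, f0 i = eps20 K (F i) := by
    intro i
    simp [F]
  have e1 : ∀ i, lf f0 h i = epsPair (1 : K) 0 (F i) := by
    intro i
    ext
    · simp [lf, F]
    · simp [lf, F]
  have e2 : ∀ i, lf f0 h' i = epsPair (0 : K) 1 (F i) := by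
    intro i
    ext
    · simp [lf, F]
    · simp [lf, F]
  have e3 : ∀ i, lf f0 (h + h') i = epsPair (1 : K) 1 (F i) := by
    intro i
    ext
    · simp [lf, F]
    · simp [lf, F]
  refine l.add (Hyp F) (stb2 hst F hF) (arr (eps20 K) hBC hF) (dh hBC hst h) (dh hBC hst h')
    (dh hBC hst (h + h')) (arr (epsPair (1 : K) 0) hBC e1) (arr (epsPair (0 : K) 1) hBC e2)
    (arr (epsPair (1 : K) 1) hBC e3) ?_ ?_ ?_
  · refine map_comp (epsPair (1 : K) 0) (eps0 K) e1 (lf_p h) ?_ hF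
    ext z <;> simp
  · refine map_comp (epsPair (0 : K) 1) (eps0 K) e2 (lf_p h') ?_ hF
    ext z <;> simp
  · refine map_comp (epsPair (1 : K) 1) (eps0 K) e3 (lf_p (h + h')) ?_ hF
    ext z <;> simp

theorem dir_zero (hTR : Stmt_HTR) (ξ0 ξ1 ξ2 c : K) :
    l.l (dh hBC hst (dir ξ0 ξ1 ξ2 c f0)) = 0 := by
  let ε : Eps K := TrivSqZeroExt.inr 1
  have hε : ε * ε = 0 := by simp [ε]
  let F : Fin 7 → Eps K := fun i => TrivSqZeroExt.inl (f0 i)
  let G : Fin 7 → Eps K := fun i => F i + ε * dir (TrivSqZeroExt.inl ξ0) (TrivSqZeroExt.inl ξ1)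
    (TrivSqZeroExt.inl ξ2) (TrivSqZeroExt.inl c) F i
  have hd : ∀ i, dir (TrivSqZeroExt.inl ξ0 : Eps K) (TrivSqZeroExt.inl ξ1)
      (TrivSqZeroExt.inl ξ2) (TrivSqZeroExt.inl c) F i =
      TrivSqZeroExt.inl (dir ξ0 ξ1 ξ2 c f0 i) := by
    intro i
    have hm : ∀ x y : K, (TrivSqZeroExt.inl (x * y) : Eps K) =
      TrivSqZeroExt.inl x * TrivSqZeroExt.inl y := fun x y => TrivSqZeroExt.inl_mul K x y
    have h2 : (TrivSqZeroExt.inl 2 : Eps K) = 2 := rfl
    have h3 : (TrivSqZeroExt.inl 3 : Eps K) = 3 := rfl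
    have h4 : (TrivSqZeroExt.inl 4 : Eps K) = 4 := rfl
    have h5 : (TrivSqZeroExt.inl 5 : Eps K) = 5 := rfl
    have h6 : (TrivSqZeroExt.inl 6 : Eps K) = 6 := rfl
    fin_cases i <;>
      simp [dir, F, TrivSqZeroExt.inl_add, TrivSqZeroExt.inl_sub, hm, h2, h3, h4, h5, h6]
  have hG : ∀ i, G i = lf f0 (dir ξ0 ξ1 ξ2 c f0) i := by
    intro i
    show F i + ε * _ = _
    rw [hd i]
    ext
    · simp [lf, F, ε]
    · simp [lf, F, ε]
  have hF0 : ∀ i, F i = lf f0 0 i := by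
    intro i
    ext
    · simp [lf, F]
    · simp [lf, F]
  obtain ⟨a, -, ha⟩ := hTR ε (TrivSqZeroExt.inl ξ0) (TrivSqZeroExt.inl ξ1)
    (TrivSqZeroExt.inl ξ2) (TrivSqZeroExt.inl c) hε F
  have hGp : ∀ i, f0 i = eps0 K (G i) := fun i => by rw [hG i]; exact lf_p _ i
  have hFp : ∀ i, f0 i = eps0 K (F i) := fun i => by rw [hF0 i]; exact lf_p _ i
  have h1 : l.l (dg hBC hst G hGp) = l.l (dg hBC hst F hFp) := by
    refine l.iso _ _ a ?_
    exact ha (eps0 K) (by simp [ε]) hGp hFp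
  have h2 : dg hBC hst G hGp = dh hBC hst (dir ξ0 ξ1 ξ2 c f0) :=
    dg_congr hBC hst hGp _ (funext hG)
  have h3 : dg hBC hst F hFp = dh hBC hst 0 := dg_congr hBC hst hFp _ (funext hF0)
  rw [h2, h3, zero] at h1
  exact h1

/-- Every deformation is of the form `y² = f0 + ε h`. -/
theorem ex (hHE : Stmt_HE) (h2 : IsUnit (2 : K)) (d : Defo 2 (Hyp f0)) :
    ∃ h : Fin 7 → K, ∀ l : Cov 2 (Hyp f0), l.l d = l.l (dh hBC hst h) := by
  obtain ⟨f', hf, a, ha⟩ := hHE (sqEps K) f0 h2 d.thk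
  refine ⟨fun i => (f' i).snd, fun l => ?_⟩
  have h3 : l.l d = l.l (dg hBC hst f' hf) := l.iso d _ a ha
  rw [h3]
  congr 1
  refine dg_congr hBC hst _ _ (funext fun i => ?_)
  ext
  · rw [lf_fst]
    exact (hf i).symm
  · rw [lf_snd]

end defo

end HCU

open HCU in
/-- HCU with less stability. -/
theorem hcu_core (hHE : Stmt_HE) (hHTR : Stmt_HTR) (hHLI : Stmt_HLI) (hHBC : Stmt_HBC)
    {K : Type} [Field K] [CharZero K] (r : Fin 6 → K) (hr : Function.Injective r)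
    (hst' : Stb (rts r)) (l l' : Cov 2 (Hyp (rts r)))
    (hl : ∀ (i : Fin 3) hs hc, l.l (dfm (rts r) (mvr r (i.castLE (by norm_num))) hs hc) =
      l'.l (dfm (rts r) (mvr r (i.castLE (by norm_num))) hs hc)) : l = l' := by
  have h2 : IsUnit (2 : K) := isUnit_iff_ne_zero.2 two_ne_zero
  have hm : ∀ i : Fin 3, l.l (dh hHBC hst' (mvr r (i.castLE (by norm_num)))) =
      l'.l (dh hHBC hst' (mvr r (i.castLE (by norm_num)))) := by
    intro i
    exact hl i (stb1 hst' _ (lf_p _)) (hHBC _ _)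
  refine Cov_ext _ _ fun d => ?_
  obtain ⟨h, hd⟩ := ex hHBC hst' hHE h2 d
  rw [hd l, hd l']
  obtain ⟨w, ξ0, ξ1, ξ2, c, hh⟩ := hHLI r hr h
  have e : h = w 0 • mvr r 0 + w 1 • mvr r 1 + w 2 • mvr r 2 + dir ξ0 ξ1 ξ2 c (rts r) := by
    funext j
    rw [hh j]
    rfl
  have key : ∀ l : Cov 2 (Hyp (rts r)), l.l (dh hHBC hst' h) =
      w 0 * l.l (dh hHBC hst' (mvr r 0)) + w 1 * l.l (dh hHBC hst' (mvr r 1)) +
      w 2 * l.l (dh hHBC hst' (mvr r 2)) := by
    intro l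
    rw [e, add, add, add, smul, smul, smul, dir_zero hHBC hst' l hHTR, add_zero]
  rw [key l, key l']
  have m0 := hm 0
  have m1 := hm 1
  have m2 := hm 2
  have e0 : (Fin.castLE (by norm_num) (0 : Fin 3) : Fin 6) = 0 := rfl
  have e1 : (Fin.castLE (by norm_num) (1 : Fin 3) : Fin 6) = 1 := rfl
  have e2 : (Fin.castLE (by norm_num) (2 : Fin 3) : Fin 6) = 2 := rfl
  rw [e0] at m0
  rw [e1] at m1
  rw [e2] at m2
  rw [m0, m1, m2]

open HCU in
/-- HCU -/
theorem t_HCU (hHE : Stmt_HE) (hHTR : Stmt_HTR) (hHLI : Stmt_HLI) (hHBC : Stmt_HBC) :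
    Stmt_HCU := by
  intro K _ _ r hr hst l l' hl
  refine hcu_core hHE hHTR hHLI hHBC r hr ⟨fun f hf => ?_, fun f hf => ?_⟩ l l' hl
  · exact hst (Eps K) (eps0 K) f hf (fun a ha => sq_zero a ha) fun b => ⟨TrivSqZeroExt.inl b, rfl⟩
  · exact hst (Eps2 K) (eps20 K) f hf (fun a ha => sq_zero a ha) fun b =>
      ⟨TrivSqZeroExt.inl b, rfl⟩

end Pool.Agent.MG.H2
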