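import Pool.Agent.MG.H2.StmtsG
import Pool.Agent.MG.H2.HCU

/-!
# HGE: the curve `y² = ∏ (x - r i)` is generic (helper94)
-/

open CategoryTheory CategoryTheory.Limits AlgebraicGeometry TensorProduct

namespace Pool.Agent.MG.H2

namespace HGE

/-! ### composition of arrows -/

/-- composition of arrows -/
noncomputable def comp {n : ℕ} {A B C : Type} [CommRing A] [CommRing B] [CommRing C]
    {φ : A →+* B} {ψ : B →+* C} {χ : A →+* C} (hχ : ψ.comp φ = χ)
    {z : Fam n C} {y : Fam n B} {x : Fam n A} (g : Arrow ψ z y) (f : Arrow φ y x) :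
    Arrow χ z x where
  f := g.f ≫ f.f
  cart := by
    rw [← hχ, ← spMap_comp']
    exact g.cart.paste_horiz f.cart
  sec i := by
    rw [← Category.assoc, g.sec i, Category.assoc, f.sec i, ← Category.assoc, spMap_comp', hχ]

theorem bc1_id {B : Type} [CommRing B] {f : Fin 7 → B} (χ : B →+* B) (hχ : χ = RingHom.id B)
    (h : ∀ i, f i = χ (f i)) : bc1 χ h = RingHom.id _ := by
  subst hχ
  refine hom1_ext ?_ ?_ ?_
  · intro c
    rw [bc1_b]
    rfl
  · rw [bc1_x]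
    rfl
  · rw [bc1_y]
    rfl

theorem map_id {B : Type} [CommRing B] {f : Fin 7 → B} (χ : B →+* B) (hχ : χ = RingHom.id B)
    (h : ∀ i, f i = χ (f i)) : HX.map χ h = 𝟙 (HX B f) := by
  refine HX.ext' ?_ ?_
  · rw [HX.in1_map, bc1_id χ hχ h, HCU.spMap_id, Category.id_comp, Category.comp_id]
  · rw [HX.in2_map, Category.comp_id]
    have h2 : bc2 χ h = RingHom.id _ := bc1_id χ hχ (rev_bc χ h)
    rw [h2, HCU.spMap_id, Category.id_comp]

/-! ### the derivative of the coefficients -/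

theorem prod_eps {R : Type} [CommRing R] (P0 P1 P2 P3 P4 P5 e d0 d1 d2 : R) (he : e * e = 0) :
    (P0 - e * d0) * (P1 - e * d1) * (P2 - e * d2) * P3 * P4 * P5 =
      P0 * P1 * P2 * P3 * P4 * P5 + e * (d0 * -(P1 * P2 * P3 * P4 * P5) +
        d1 * -(P0 * P2 * P3 * P4 * P5) + d2 * -(P0 * P1 * P3 * P4 * P5)) := by
  linear_combination (P3 * P4 * P5 * (d0 * d1 * P2 + d0 * d2 * P1 + d1 * d2 * P0 -
    e * d0 * d1 * d2)) * he

theorem er {R : Type} [CommRing R] (i : Fin 6) (s : Finset (Fin 6)) (P : Fin 6 → R)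
    (h : Finset.univ.erase i = s) : ∏ i' ∈ Finset.univ.erase i, P i' = ∏ i' ∈ s, P i' := by
  rw [h]

section der

variable {K : Type} [Field K] [Algebra ℂ K] (D : Derivation ℂ K K)

theorem epsDer_rts (r : Fin 6 → K) (w : Fin 3 → K) (h0 : D (r 0) = w 0) (h1 : D (r 1) = w 1)
    (h2 : D (r 2) = w 2) (h3 : D (r 3) = 0) (h4 : D (r 4) = 0) (h5 : D (r 5) = 0) (j : Fin 7) :
    Std.epsDer D (rts r j) = TrivSqZeroExt.inl (rts r j) +
      TrivSqZeroExt.inr (w 0 * mvr r 0 j + w 1 * mvr r 1 j + w 2 * mvr r 2 j) := by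
  let ι : K →+* Eps K := TrivSqZeroExt.inlHom K K
  let ε : Eps K := TrivSqZeroExt.inr 1
  have hε : ε * ε = 0 := by simp [ε]
  let P : Fin 6 → Polynomial K := fun i => Polynomial.X - Polynomial.C (r i)
  have hP : ∀ i, (P i).map (Std.epsDer D) =
      (P i).map ι - Polynomial.C ε * Polynomial.C (ι (D (r i))) := by
    intro i
    have hx : Std.epsDer D (r i) = ι (r i) + ε * ι (D (r i)) := by
      ext <;> simp [Std.epsDer, ι, ε]
    simp only [P, Polynomial.map_sub, Polynomial.map_X, Polynomial.map_C, hx, map_add, map_mul]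
    ring
  have hp6 : ∏ i, P i = P 0 * P 1 * P 2 * P 3 * P 4 * P 5 := by
    rw [Fin.prod_univ_six]
  have e0 : ∏ i' ∈ Finset.univ.erase (0 : Fin 6), P i' = P 1 * P 2 * P 3 * P 4 * P 5 := by
    rw [er 0 {1, 2, 3, 4, 5} P (by decide)]
    simp [mul_assoc]
  have e1 : ∏ i' ∈ Finset.univ.erase (1 : Fin 6), P i' = P 0 * P 2 * P 3 * P 4 * P 5 := by
    rw [er 1 {0, 2, 3, 4, 5} P (by decide)]
    simp [mul_assoc]
  have e2 : ∏ i' ∈ Finset.univ.erase (2 : Fin 6), P i' = P 0 * P 1 * P 3 * P 4 * P 5 := by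
    rw [er 2 {0, 1, 3, 4, 5} P (by decide)]
    simp [mul_assoc]
  have key : (∏ i, P i).map (Std.epsDer D) = (∏ i, P i).map ι + Polynomial.C ε *
      (Polynomial.C (w 0) * -(P 1 * P 2 * P 3 * P 4 * P 5) +
        Polynomial.C (w 1) * -(P 0 * P 2 * P 3 * P 4 * P 5) +
        Polynomial.C (w 2) * -(P 0 * P 1 * P 3 * P 4 * P 5)).map ι := by
    rw [hp6]
    simp only [Polynomial.map_mul, Polynomial.map_add, Polynomial.map_neg, Polynomial.map_C, hP,
      h0, h1, h2, h3, h4, h5, map_zero, mul_zero, sub_zero]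
    have hC : (Polynomial.C ε : Polynomial (Eps K)) * Polynomial.C ε = 0 := by
      rw [← Polynomial.C_mul, hε, Polynomial.C_0]
    exact prod_eps (R := Polynomial (Eps K)) _ _ _ _ _ _ _ _ _ _ hC
  have hc := congrArg (fun q : Polynomial (Eps K) => q.coeff (j : ℕ)) key
  simp only [Polynomial.coeff_map, Polynomial.coeff_add, Polynomial.coeff_C_mul] at hc
  have hr : rts r j = (∏ i, P i).coeff (j : ℕ) := rfl
  have m0 : mvr r 0 j = -(P 1 * P 2 * P 3 * P 4 * P 5).coeff (j : ℕ) := by rw [← e0]; rfl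
  have m1 : mvr r 1 j = -(P 0 * P 2 * P 3 * P 4 * P 5).coeff (j : ℕ) := by rw [← e1]; rfl
  have m2 : mvr r 2 j = -(P 0 * P 1 * P 3 * P 4 * P 5).coeff (j : ℕ) := by rw [← e2]; rfl
  rw [hr, hc, m0, m1, m2]
  simp only [Polynomial.coeff_neg]
  ext <;> simp [ι, ε]

end der

/-- `dir` over `K[ε]`. -/
theorem dir_eps {K : Type} [Field K] (ξ0 ξ1 ξ2 c : K) (f g : Fin 7 → K) (i : Fin 7) :
    (TrivSqZeroExt.inr 1 : Eps K) * dir (TrivSqZeroExt.inl ξ0) (TrivSqZeroExt.inl ξ1)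
      (TrivSqZeroExt.inl ξ2) (TrivSqZeroExt.inl c)
      (fun i => TrivSqZeroExt.inl (f i) + TrivSqZeroExt.inr (g i)) i =
      TrivSqZeroExt.inr (dir ξ0 ξ1 ξ2 c f i) := by
  have hp : (fun i => eps0 K ((TrivSqZeroExt.inl (f i) + TrivSqZeroExt.inr (g i) : Eps K))) =
      f := by
    funext i
    simp
  have hd : eps0 K (dir (TrivSqZeroExt.inl ξ0) (TrivSqZeroExt.inl ξ1)
      (TrivSqZeroExt.inl ξ2) (TrivSqZeroExt.inl c)
      (fun i => TrivSqZeroExt.inl (f i) + TrivSqZeroExt.inr (g i)) i) =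
      dir ξ0 ξ1 ξ2 c f i := by
    have h2 : eps0 K (2 : Eps K) = 2 := map_ofNat _ 2
    have h3 : eps0 K (3 : Eps K) = 3 := map_ofNat _ 3
    have h4 : eps0 K (4 : Eps K) = 4 := map_ofNat _ 4
    have h5 : eps0 K (5 : Eps K) = 5 := map_ofNat _ 5
    have h6 : eps0 K (6 : Eps K) = 6 := map_ofNat _ 6
    have hin : ∀ x : K, eps0 K (TrivSqZeroExt.inl x) = x := fun x => by simp
    have hs : ∀ i, eps0 K ((TrivSqZeroExt.inl (f i) + TrivSqZeroExt.inr (g i) : Eps K)) = f i :=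
      fun i => congrFun hp i
    fin_cases i <;>
      simp only [dir, Fin.mk_zero, Fin.mk_one, Fin.reduceFinMk, Matrix.cons_val, map_add,
        map_sub, map_mul, h2, h3, h4, h5, h6, hin, hs]
  ext
  · simp
  · have : ∀ z : Eps K, ((TrivSqZeroExt.inr 1 : Eps K) * z).snd = eps0 K z := by
      intro z
      simp
    rw [this, hd]
    simp

end HGE

open HGE in
/-- HGE -/
theorem t_HGE (hHE : Stmt_HE) (hHTR : Stmt_HTR) (hHLI : Stmt_HLI) (hHBC : Stmt_HBC) :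
    Stmt_HGE := by
  intro K _ _ r hr hI d
  have hK : CharZero K := charZero_of_injective_algebraMap (algebraMap ℂ K).injective
  have h2 : IsUnit (2 : K) := isUnit_iff_ne_zero.2 two_ne_zero
  obtain ⟨f', hf, a, ha⟩ := hHE (sqEps K) (rts r) h2 d.thk
  obtain ⟨w, ξ0, ξ1, ξ2, c, hh⟩ := hHLI r hr fun i => (f' i).snd
  obtain ⟨D, hD0, hD1, hD2, hD3, hD4, hD5⟩ := hI w
  let ε : Eps K := TrivSqZeroExt.inr 1
  have hε : ε * ε = 0 := by simp [ε]
  let g : Fin 7 → K := fun i => w 0 * mvr r 0 i + w 1 * mvr r 1 i + w 2 * mvr r 2 i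
  let F : Fin 7 → Eps K := fun i => TrivSqZeroExt.inl (rts r i) + TrivSqZeroExt.inr (g i)
  have hFD : ∀ i, F i = Std.epsDer D (rts r i) := fun i =>
    (epsDer_rts D r w hD0 hD1 hD2 hD3 hD4 hD5 i).symm
  have hG : f' = fun i => F i + ε * dir (TrivSqZeroExt.inl ξ0) (TrivSqZeroExt.inl ξ1)
      (TrivSqZeroExt.inl ξ2) (TrivSqZeroExt.inl c) F i := by
    funext i
    have h1 : ε * dir (TrivSqZeroExt.inl ξ0) (TrivSqZeroExt.inl ξ1)
      (TrivSqZeroExt.inl ξ2) (TrivSqZeroExt.inl c) F i =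
      TrivSqZeroExt.inr (dir ξ0 ξ1 ξ2 c (rts r) i) := dir_eps ξ0 ξ1 ξ2 c (rts r) g i
    rw [h1]
    ext
    · have := hf i
      simp only [F, TrivSqZeroExt.fst_add, TrivSqZeroExt.fst_inl, TrivSqZeroExt.fst_inr, add_zero]
      exact this.symm
    · simp only [F, TrivSqZeroExt.snd_add, TrivSqZeroExt.snd_inl, TrivSqZeroExt.snd_inr, zero_add]
      exact hh i
  subst hG
  have hFp : ∀ i, rts r i = eps0 K (F i) := by
    intro i
    simp [F]
  obtain ⟨b, -, hb⟩ := hHTR ε (TrivSqZeroExt.inl ξ0) (TrivSqZeroExt.inl ξ1)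
    (TrivSqZeroExt.inl ξ2) (TrivSqZeroExt.inl c) hε F
  have hb0 : HX.map (eps0 K) hf ≫ b.f = HX.map (eps0 K) hFp := hb (eps0 K) (by simp [ε]) hf hFp
  let e : Arrow (Std.epsDer D) (Hyp F) (Hyp (rts r)) := HCU.arr (Std.epsDer D) hHBC hFD
  refine ⟨D, comp (RingHom.id_comp _) (comp (RingHom.comp_id _) a b) e, ?_⟩
  show d.r.f ≫ (a.f ≫ b.f) ≫ HX.map (Std.epsDer D) hFD = 𝟙 _
  have ha' : d.r.f ≫ a.f = HX.map (eps0 K) hf := ha
  have hc : (eps0 K).comp (Std.epsDer D) = RingHom.id K := by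
    ext x
    simp [Std.epsDer]
  rw [← Category.assoc, ← Category.assoc, ha']
  exact (congrArg (fun q => q ≫ HX.map (Std.epsDer D) hFD) hb0).trans
    ((HCU.map_comp (Std.epsDer D) (eps0 K) hFD hFp hc (fun i => rfl)).trans (map_id _ rfl _))

end Pool.Agent.MG.H2
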