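import Pool.Agent.MG.H2.StmtsN
import Pool.Agent.MG.DER
import Mathlib

/-!
# Derivations of an algebraic closure: fields with independent derivations, marked points
-/

open CategoryTheory CategoryTheory.Limits AlgebraicGeometry TensorProduct

namespace Pool.Agent.MG.H2

namespace NDRx

variable (n : ℕ)

/-- The polynomial ring in `3 + n` variables. -/
abbrev P : Type := MvPolynomial (Fin 3 ⊕ Fin n) ℂ

/-- Its fraction field. -/
abbrev F : Type := FractionRing (P n)

/-- The algebraic closure. -/
abbrev K : Type := AlgebraicClosure (F n)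

/-- The variables in `K`. -/
noncomputable def x (i : Fin 3 ⊕ Fin n) : K n := algebraMap (P n) (K n) (MvPolynomial.X i)

/-- The points. -/
noncomputable def r : Fin 6 → K n :=
  ![x n (Sum.inl 0), x n (Sum.inl 1), x n (Sum.inl 2), algebraMap ℂ (K n) 0,
    algebraMap ℂ (K n) 1, algebraMap ℂ (K n) 2]

/-- The points in the polynomial ring. -/
noncomputable def q : Fin 6 → P n :=
  ![MvPolynomial.X (Sum.inl 0), MvPolynomial.X (Sum.inl 1), MvPolynomial.X (Sum.inl 2),
    MvPolynomial.C 0, MvPolynomial.C 1, MvPolynomial.C 2]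

theorem inj_PK : Function.Injective (algebraMap (P n) (K n)) := by
  rw [IsScalarTower.algebraMap_eq (P n) (F n) (K n)]
  exact (algebraMap (F n) (K n)).injective.comp (IsFractionRing.injective (P n) (F n))

theorem r_eq (i : Fin 6) : r n i = algebraMap (P n) (K n) (q n i) := by
  fin_cases i
  · rfl
  · rfl
  · rfl
  all_goals
    simp only [r, q]
    exact IsScalarTower.algebraMap_apply ℂ (P n) (K n) _

/-- Evaluation at the point `v` of the first variables and the point `5 + i` of the others. -/
noncomputable def ev (v : Fin 3 → ℂ) (t : ℂ) : P n →+* ℂ :=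
  MvPolynomial.eval (Sum.elim v (fun _ => t))

theorem q_inj : Function.Injective (q n) := by
  intro i j h
  have key : ∀ v : Fin 3 → ℂ, ev n v 0 (q n i) = ev n v 0 (q n j) :=
    fun v => by rw [h]
  have h1 := key ![3, 4, 5]
  fin_cases i <;> fin_cases j <;>
    first | rfl | (exfalso; revert h1; simp [q, ev]; try norm_num)

theorem ne_q (i : Fin n) (j : Fin 6) : (MvPolynomial.X (Sum.inr i) : P n) ≠ q n j := by
  intro h
  have h1 : ev n ![3, 4, 5] 7 (MvPolynomial.X (Sum.inr i)) = ev n ![3, 4, 5] 7 (q n j) := by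
    rw [h]
  fin_cases j <;> (revert h1; simp [q, ev]; try norm_num)

theorem exists_der (w : Fin 3 ⊕ Fin n → K n) :
    ∃ D : Derivation ℂ (K n) (K n), ∀ i, D (x n i) = w i := by
  have e1 : Algebra.FormallyEtale (P n) (F n) :=
    Algebra.FormallyEtale.of_isLocalization (nonZeroDivisors (P n))
  have e2 : Algebra.FormallyEtale (F n) (K n) :=
    Algebra.FormallyEtale.of_isSeparable (F n) (K n)
  have e3 : Algebra.FormallyEtale (P n) (K n) := Algebra.FormallyEtale.comp (P n) (F n) (K n)
  obtain ⟨D, hD⟩ := MG.exists_derivation_of_formallyEtale (R := ℂ) (S := P n) (T := K n)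
    (M := K n) (MvPolynomial.mkDerivation ℂ w)
  refine ⟨D, fun i => ?_⟩
  rw [x, hD, MvPolynomial.mkDerivation_X]

end NDRx

theorem t_NDR : Stmt_NDR := by
  intro n
  refine ⟨NDRx.K n, inferInstance, inferInstance, inferInstance, NDRx.r n,
    fun i => NDRx.x n (Sum.inr i), ?_, ?_, ?_, ?_⟩
  · intro i j h
    rw [NDRx.r_eq, NDRx.r_eq] at h
    exact NDRx.q_inj n (NDRx.inj_PK n h)
  · intro i j h
    have h1 := MvPolynomial.X_injective (NDRx.inj_PK n h)
    exact Sum.inr_injective h1
  · intro i j h
    rw [NDRx.r_eq] at h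
    exact NDRx.ne_q n i j (NDRx.inj_PK n h)
  · intro w v
    obtain ⟨D, hD⟩ := NDRx.exists_der n (Sum.elim w v)
    exact ⟨D, hD (Sum.inl 0), hD (Sum.inl 1), hD (Sum.inl 2), D.map_algebraMap 0,
      D.map_algebraMap 1, D.map_algebraMap 2, fun i => hD (Sum.inr i)⟩

end Pool.Agent.MG.H2
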