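import Pool.Agent.MG.H2.StmtsN
import Pool.Agent.MG.H2.HCU
import Pool.Agent.MG.H2.HLI
import Pool.Agent.MG.StdIff

/-!
# NGE: the curve `y² = ∏ (x - r i)` with marked points is generic
-/

open CategoryTheory CategoryTheory.Limits AlgebraicGeometry TensorProduct

namespace Pool.Agent.MG.H2

namespace NGEa

theorem spMap_inj {A B : Type} [CommRing A] [CommRing B] {φ ψ : A →+* B}
    (h : spMap φ = spMap ψ) : φ = ψ :=
  congrArg CommRingCat.Hom.hom (Spec.map_injective h)

theorem spMap_full {A B : Type} [CommRing A] [CommRing B] (l : Sp B ⟶ Sp A) :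
    ∃ h : A →+* B, spMap h = l :=
  ⟨(Spec.preimage l).hom, Spec.map_preimage l⟩

theorem hx_map_id {B : Type} [CommRing B] {f : Fin 7 → B} (h : ∀ i, f i = RingHom.id B (f i)) :
    HX.map (RingHom.id B) h = 𝟙 (HX B f) := by
  refine HX.ext' ?_ ?_
  · have e : bc1 (RingHom.id B) h = RingHom.id _ := by
      refine hom1_ext ?_ ?_ ?_
      · intro c
        rw [bc1_b]
        rfl
      · rw [bc1_x]
        rfl
      · rw [bc1_y]
        rfl
    rw [HX.in1_map, e, HCU.spMap_id, Category.id_comp, Category.comp_id]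
  · have e : bc2 (RingHom.id B) h = RingHom.id _ := by
      refine hom1_ext ?_ ?_ ?_
      · intro c
        rw [bc2_b]
        rfl
      · rw [bc2_u]
        rfl
      · rw [bc2_v]
        rfl
    rw [HX.in2_map, e, HCU.spMap_id, Category.id_comp, Category.comp_id]

/-! ### The coefficients -/

section der

variable {K : Type} [Field K] [Algebra ℂ K] (D : Derivation ℂ K K)

theorem der_coeff (r : Fin 6 → K) (s : Finset (Fin 6)) : ∀ j : ℕ,
    D ((∏ i ∈ s, (Polynomial.X - Polynomial.C (r i))).coeff j) =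
      -∑ i ∈ s, D (r i) *
        (∏ i' ∈ s.erase i, (Polynomial.X - Polynomial.C (r i'))).coeff j := by
  induction s using Finset.induction_on with
  | empty =>
    intro j
    rw [Finset.prod_empty, Finset.sum_empty, neg_zero, Polynomial.coeff_one]
    split_ifs
    · exact D.map_one_eq_zero
    · exact map_zero D
  | insert a s ha ih =>
    intro j
    have h1 : ∀ i ∈ s, (∏ i' ∈ (insert a s).erase i, (Polynomial.X - Polynomial.C (r i'))) =
        (Polynomial.X - Polynomial.C (r a)) *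
          ∏ i' ∈ s.erase i, (Polynomial.X - Polynomial.C (r i')) := by
      intro i hi
      have hne : i ≠ a := fun h => ha (h ▸ hi)
      rw [Finset.erase_insert_of_ne hne.symm, Finset.prod_insert]
      exact fun h => ha (Finset.mem_of_mem_erase h)
    rw [Finset.prod_insert ha, Finset.sum_insert ha, Finset.erase_insert ha,
      Finset.sum_congr rfl (fun i hi => by rw [h1 i hi])]
    rcases j with _ | j
    · simp only [sub_mul, Polynomial.coeff_sub, Polynomial.coeff_X_mul_zero,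
        Polynomial.coeff_C_mul, zero_sub, map_neg, Derivation.leibniz, ih, smul_eq_mul]
      rw [mul_neg, Finset.mul_sum]
      have h2 : ∀ i ∈ s, D (r i) * -(r a * (∏ i' ∈ s.erase i,
          (Polynomial.X - Polynomial.C (r i'))).coeff 0) = -(r a * (D (r i) *
          (∏ i' ∈ s.erase i, (Polynomial.X - Polynomial.C (r i'))).coeff 0)) :=
        fun i _ => by ring
      rw [Finset.sum_congr rfl h2, Finset.sum_neg_distrib]
      ring
    · simp only [sub_mul, Polynomial.coeff_sub, Polynomial.coeff_X_mul,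
        Polynomial.coeff_C_mul, map_sub, Derivation.leibniz, ih, smul_eq_mul]
      rw [mul_neg, Finset.mul_sum]
      have h2 : ∀ i ∈ s, D (r i) * ((∏ i' ∈ s.erase i,
          (Polynomial.X - Polynomial.C (r i'))).coeff j - r a * (∏ i' ∈ s.erase i,
          (Polynomial.X - Polynomial.C (r i'))).coeff (j + 1)) = D (r i) * (∏ i' ∈ s.erase i,
          (Polynomial.X - Polynomial.C (r i'))).coeff j - r a * (D (r i) *
          (∏ i' ∈ s.erase i, (Polynomial.X - Polynomial.C (r i'))).coeff (j + 1)) :=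
        fun i _ => by ring
      rw [Finset.sum_congr rfl h2, Finset.sum_sub_distrib]
      ring

theorem der_rts (r : Fin 6 → K) (h3 : D (r 3) = 0) (h4 : D (r 4) = 0) (h5 : D (r 5) = 0)
    (j : Fin 7) : D (rts r j) = D (r 0) * mvr r 0 j + D (r 1) * mvr r 1 j +
      D (r 2) * mvr r 2 j := by
  have h := der_coeff D r Finset.univ (j : ℕ)
  rw [Fin.sum_univ_six, h3, h4, h5] at h
  rw [show rts r j = (∏ i, (Polynomial.X - Polynomial.C (r i))).coeff j from rfl, h]
  simp only [mvr]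
  ring

end der

/-! ### The sections -/

section sec

variable {K : Type} [Field K] {F : Fin 7 → Eps K}

theorem lift_section (s : Sp (Eps K) ⟶ HX (Eps K) F) (hs : s ≫ HX.pr (Eps K) F = 𝟙 _)
    (lam : A1 (Eps K) F →+* K)
    (h : spMap (eps0 K) ≫ s = spMap lam ≫ HX.in1 (Eps K) F) :
    ∃ θ : A1 (Eps K) F →+* Eps K, s = spMap θ ≫ HX.in1 (Eps K) F ∧
      (∀ c, θ (algebraMap _ _ c) = c) ∧ ∀ v, eps0 K (θ v) = lam v := by
  have hr : Set.range s ⊆ Set.range (HX.in1 (Eps K) F) := by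
    rintro _ ⟨x, rfl⟩
    obtain ⟨y, rfl⟩ : ∃ y, spMap (eps0 K) y = x := (SqE.surj (S := sqEps K)).surj x
    refine ⟨spMap lam y, ?_⟩
    rw [← Scheme.Hom.comp_apply, ← Scheme.Hom.comp_apply, h]
  obtain ⟨θ, hθ⟩ := spMap_full (IsOpenImmersion.lift (HX.in1 (Eps K) F) s hr)
  have hθ1 : s = spMap θ ≫ HX.in1 (Eps K) F := by
    rw [hθ, IsOpenImmersion.lift_fac]
  refine ⟨θ, hθ1, ?_, ?_⟩
  · have e1 : spMap (θ.comp (algebraMap (Eps K) (A1 (Eps K) F))) = spMap (RingHom.id (Eps K)) := by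
      rw [← spMap_comp', HCU.spMap_id, ← hs, hθ1, Category.assoc, HX.in1_pr]
    exact fun c => congrArg (fun f : Eps K →+* Eps K => f c) (spMap_inj e1)
  · have e1 : spMap ((eps0 K).comp θ) = spMap lam := by
      rw [← cancel_mono (HX.in1 (Eps K) F), ← h, hθ1, ← spMap_comp', Category.assoc]
    exact fun v => congrArg (fun f : A1 (Eps K) F →+* K => f v) (spMap_inj e1)

end sec

/-! ### Dual numbers -/

section eps

variable {K : Type} [Field K]

theorem dir_map {R R' : Type} [CommRing R] [CommRing R'] (φ : R →+* R') (ξ0 ξ1 ξ2 c : R)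
    (f : Fin 7 → R) (i : Fin 7) : φ (dir ξ0 ξ1 ξ2 c f i) =
      dir (φ ξ0) (φ ξ1) (φ ξ2) (φ c) (fun i => φ (f i)) i := by
  fin_cases i <;> simp [dir, map_ofNat]

theorem eps_ext {x y : Eps K} (h1 : x.fst = y.fst) (h2 : x.snd = y.snd) : x = y :=
  TrivSqZeroExt.ext h1 h2

theorem sq_eq [CharZero K] {x y : Eps K} (h : x ^ 2 = y ^ 2) (h1 : x.fst = y.fst)
    (h0 : y.fst ≠ 0) : x = y := by
  refine eps_ext h1 ?_
  have h2 := congrArg TrivSqZeroExt.snd h
  rw [pow_two, pow_two, TrivSqZeroExt.snd_mul, TrivSqZeroExt.snd_mul, h1] at h2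
  simp only [smul_eq_mul, MulOpposite.smul_eq_mul_unop, MulOpposite.unop_op] at h2
  have h3 : (2 * y.fst) * (x.snd - y.snd) = 0 := by linear_combination h2
  rcases mul_eq_zero.1 h3 with h4 | h4
  · rcases mul_eq_zero.1 h4 with h5 | h5
    · exact absurd h5 two_ne_zero
    · exact absurd h5 h0
  · exact sub_eq_zero.1 h4

end eps

theorem pol_rts {K : Type} [Field K] (r : Fin 6 → K) (x : K) :
    pol (rts r) x = ∏ i, (x - r i) := by
  have h := HLIa.pol_coeff (∏ i, (Polynomial.X - Polynomial.C (r i)))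
    (by rw [HLIa.natDeg]; norm_num) x
  rw [show rts r = fun j => (∏ i, (Polynomial.X - Polynomial.C (r i))).coeff j from rfl, h,
    Polynomial.eval_prod]
  simp

/-- The change of the coefficients which moves the roots `r 0`, `r 1`, `r 2`. -/
noncomputable def mvw {K : Type} [Field K] (r : Fin 6 → K) (w : Fin 3 → K) : Fin 7 → K :=
  fun j => w 0 * mvr r 0 j + w 1 * mvr r 1 j + w 2 * mvr r 2 j

/-- Every flat thickening of `y² = ∏ (x - r i)` is of the form `y² = ∏ (x - r i) + ε mvw r w`. -/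
theorem exists_e (hHE : Stmt_HE) (hHTR : Stmt_HTR) (hHLI : Stmt_HLI) {K : Type} [Field K]
    [CharZero K] (r : Fin 6 → K) (hr : Function.Injective r) {X : Scheme.{0}}
    (π : X ⟶ Sp (Eps K)) (hπ : Flat π) (rf : HX K (rts r) ⟶ X)
    (hc : IsPullback rf (HX.pr K (rts r)) π (spMap (eps0 K))) :
    ∃ (w : Fin 3 → K) (F : Fin 7 → Eps K) (hF : ∀ i, rts r i = eps0 K (F i))
      (e : X ⟶ HX (Eps K) F), F = HCU.lf (rts r) (mvw r w) ∧
      IsPullback e π (HX.pr (Eps K) F) (𝟙 _) ∧ rf ≫ e = HX.map (eps0 K) hF := by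
  have h2 : IsUnit (2 : K) := isUnit_iff_ne_zero.2 two_ne_zero
  let t : Thk (sqEps K) (Hyp (rts r)) :=
    { y := { X := X, π := π, σ := fun i => i.elim0, sec := fun i => i.elim0 }
      flat := hπ
      r := { f := rf, cart := hc, sec := fun i => i.elim0 } }
  obtain ⟨f', hf, a', ha'⟩ := hHE (sqEps K) (rts r) h2 t
  obtain ⟨w, ξ0, ξ1, ξ2, c, hh⟩ := hHLI r hr (fun i => (f' i).snd)
  let F : Fin 7 → Eps K := HCU.lf (rts r) (mvw r w)
  let ε : Eps K := TrivSqZeroExt.inr 1
  have hε : ε * ε = 0 := by simp [ε]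
  have hG : f' = fun i => F i + ε * dir (TrivSqZeroExt.inl ξ0) (TrivSqZeroExt.inl ξ1)
      (TrivSqZeroExt.inl ξ2) (TrivSqZeroExt.inl c) F i := by
    funext i
    have h3 := dir_map (eps0 K) (TrivSqZeroExt.inl ξ0) (TrivSqZeroExt.inl ξ1)
      (TrivSqZeroExt.inl ξ2) (TrivSqZeroExt.inl c) F i
    have h4 : (fun i => eps0 K (F i)) = rts r := funext fun i => (HCU.lf_p _ i).symm
    rw [h4] at h3
    have h5 : (dir (TrivSqZeroExt.inl ξ0) (TrivSqZeroExt.inl ξ1)
      (TrivSqZeroExt.inl ξ2) (TrivSqZeroExt.inl c) F i).fst = dir ξ0 ξ1 ξ2 c (rts r) i := h3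
    refine eps_ext ?_ ?_
    · have h6 : (f' i).fst = rts r i := (hf i).symm
      rw [h6]
      simp [F, ε, HCU.lf]
    · have h6 : (f' i).snd = mvw r w i + dir ξ0 ξ1 ξ2 c (rts r) i := hh i
      rw [h6]
      simp [F, ε, HCU.lf, h5]
  subst hG
  obtain ⟨a'', -, ha''⟩ := hHTR ε (TrivSqZeroExt.inl ξ0) (TrivSqZeroExt.inl ξ1)
    (TrivSqZeroExt.inl ξ2) (TrivSqZeroExt.inl c) hε F
  have ha2 := ha'' (eps0 K) (by simp [ε]) hf (HCU.lf_p (mvw r w))
  refine ⟨w, F, HCU.lf_p (mvw r w), a'.f ≫ a''.f, rfl, ?_, ?_⟩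
  · have hcart : IsPullback (a'.f ≫ a''.f) π (HX.pr (Eps K) F)
      (spMap (RingHom.id (Eps K)) ≫ spMap (RingHom.id (Eps K))) := a'.cart.paste_horiz a''.cart
    rw [HCU.spMap_id, Category.comp_id] at hcart
    exact hcart
  · exact (Category.assoc _ _ _).symm.trans ((congrArg (fun g => g ≫ a''.f) ha').trans ha2)

end NGEa

open NGEa in
/-- NGE -/
theorem t_NGE (hHE : Stmt_HE) (hHTR : Stmt_HTR) (hHLI : Stmt_HLI) (hHBC : Stmt_HBC) :
    Stmt_NGE := by
  intro n K _ _ r a b h hr har hI _ d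
  have hc : CharZero K := charZero_of_injective_algebraMap (algebraMap ℂ K).injective
  let rf : HX K (rts r) ⟶ d.y.X := d.r.f
  have hsr : ∀ i, pnt (rts r) (a i) (b i) (h i) ≫ rf = spMap (eps0 K) ≫ d.y.σ i := d.r.sec
  obtain ⟨w, F, hF, e, hFdef, hcart, hr1⟩ :=
    exists_e hHE hHTR hHLI r hr d.y.π d.stable.flat rf d.r.cart
  -- the sections
  let lam : Fin n → (A1 (Eps K) F →+* K) := fun i =>
    (lift1 (RingHom.id K) (a i) (b i) (pnt_h (rts r) (h i))).comp (bc1 (eps0 K) hF)
  have hsec : ∀ i, ∃ θ : A1 (Eps K) F →+* Eps K, d.y.σ i ≫ e =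
      spMap θ ≫ HX.in1 (Eps K) F ∧ (∀ c, θ (algebraMap _ _ c) = c) ∧
      ∀ v, eps0 K (θ v) = lam i v := by
    intro i
    refine lift_section _ ?_ (lam i) ?_
    · have h1 := hcart.w
      rw [Category.comp_id] at h1
      rw [Category.assoc, h1]
      exact d.y.sec i
    · rw [← Category.assoc, ← hsr, Category.assoc, hr1, pnt, Category.assoc, HX.in1_map,
        ← Category.assoc, spMap_comp']
  choose θ hθ1 hθ2 hθ3 using hsec
  have hx : ∀ i, (θ i (x1 (Eps K) F)).fst = a i := by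
    intro i
    refine (hθ3 i _).trans ?_
    change lift1 (RingHom.id K) (a i) (b i) (pnt_h (rts r) (h i)) (bc1 (eps0 K) hF (x1 (Eps K) F)) = a i
    rw [bc1_x, lift1_x]
  have hy : ∀ i, (θ i (y1 (Eps K) F)).fst = b i := by
    intro i
    refine (hθ3 i _).trans ?_
    change lift1 (RingHom.id K) (a i) (b i) (pnt_h (rts r) (h i)) (bc1 (eps0 K) hF (y1 (Eps K) F)) = b i
    rw [bc1_y, lift1_y]
  have hrel : ∀ i, θ i (y1 (Eps K) F) ^ 2 = pol F (θ i (x1 (Eps K) F)) := by
    intro i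
    have e := congrArg (θ i) (rel1 (Eps K) F)
    rw [map_pow, pol_map] at e
    rw [e]
    congr 1
    funext j
    exact hθ2 i (F j)
  -- the derivation
  obtain ⟨D, hD0, hD1, hD2, hD3, hD4, hD5, hDa⟩ := hI w (fun i => (θ i (x1 (Eps K) F)).snd)
  have hFD : ∀ i, F i = Std.epsDer D (rts r i) := by
    intro i
    rw [hFdef]
    refine eps_ext ?_ ?_
    · change (HCU.lf (rts r) (mvw r w) i).fst = (TrivSqZeroExt.inl (rts r i) +
        TrivSqZeroExt.inr (D (rts r i)) : Eps K).fst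
      rw [HCU.lf_fst]
      simp
    · change (HCU.lf (rts r) (mvw r w) i).snd = (TrivSqZeroExt.inl (rts r i) +
        TrivSqZeroExt.inr (D (rts r i)) : Eps K).snd
      rw [HCU.lf_snd, der_rts D r hD3 hD4 hD5, hD0, hD1, hD2]
      simp [mvw]
  have hxD : ∀ i, θ i (x1 (Eps K) F) = Std.epsDer D (a i) := by
    intro i
    refine eps_ext ?_ ?_
    · rw [hx]
      simp [Std.epsDer]
    · rw [← hDa i]
      simp [Std.epsDer]
  have hyD : ∀ i, θ i (y1 (Eps K) F) = Std.epsDer D (b i) := by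
    intro i
    refine sq_eq ?_ ?_ ?_
    · rw [hrel, hxD, ← map_pow, h i, pol_map]
      congr 1
      funext j
      exact hFD j
    · rw [hy]
      simp [Std.epsDer]
    · have e1 : (Std.epsDer D (b i)).fst = b i := by simp [Std.epsDer]
      rw [e1]
      intro e2
      have e3 := h i
      rw [e2, pol_rts] at e3
      have e4 : ∏ j, (a i - r j) = 0 := by
        rw [← e3]
        simp
      obtain ⟨j, -, hj⟩ := Finset.prod_eq_zero_iff.1 e4
      exact har i j (sub_eq_zero.1 hj)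
  refine ⟨D, { f := e ≫ HX.map (Std.epsDer D) hFD, cart := ?_, sec := ?_ }, ?_⟩
  · have e := hcart.paste_horiz (hHBC (Std.epsDer D) hFD)
    rw [Category.id_comp] at e
    exact e
  · intro i
    have e1 : (θ i).comp (bc1 (Std.epsDer D) hFD) =
        (Std.epsDer D).comp (lift1 (RingHom.id K) (a i) (b i) (pnt_h (rts r) (h i))) := by
      refine hom1_ext ?_ ?_ ?_
      · intro v
        rw [RingHom.comp_apply, RingHom.comp_apply, bc1_b, hθ2, lift1_b]
        rfl
      · rw [RingHom.comp_apply, RingHom.comp_apply, bc1_x, hxD, lift1_x]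
      · rw [RingHom.comp_apply, RingHom.comp_apply, bc1_y, hyD, lift1_y]
    change d.y.σ i ≫ e ≫ HX.map (Std.epsDer D) hFD =
      spMap (Std.epsDer D) ≫ pnt (rts r) (a i) (b i) (h i)
    rw [← Category.assoc, hθ1, Category.assoc, HX.in1_map, ← Category.assoc, spMap_comp', e1,
      ← spMap_comp', Category.assoc, pnt]
  · change rf ≫ e ≫ HX.map (Std.epsDer D) hFD = 𝟙 (HX K (rts r))
    rw [← Category.assoc, hr1]
    have e1 : (eps0 K).comp (Std.epsDer D) = RingHom.id K := by
      ext v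
      simp [Std.epsDer]
    rw [HCU.map_comp (Std.epsDer D) (eps0 K) hFD hF e1 (fun i => rfl), hx_map_id]

end Pool.Agent.MG.H2
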