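import Pool.Agent.MG.H2.StmtsN
import Pool.Agent.MG.REP

/-!
# A regular function at the zero covector does not depend on the marked points (module NMA)
-/

open CategoryTheory CategoryTheory.Limits AlgebraicGeometry TensorProduct

namespace Pool.Agent.MG.H2

namespace NMA

variable {n : ℕ} {k : Type} [Field k] [IsAlgClosed k]

theorem stab (hNPT : Stmt_NPT) (g : ℕ) (C : Fam 0 k) (hC : IsStable g C)
    (hs : SmoothOfRelativeDimension 1 C.π) (σ : Fin n → (Sp k ⟶ C.X))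
    (hσ : ∀ i, σ i ≫ C.π = 𝟙 (Sp k)) (hi : Function.Injective σ) :
    IsStable g (wpt C σ hσ) := by
  apply hNPT g C hC σ hσ
  · intro i
    refine ⟨⊤, ?_, fun s => trivial⟩
    have : Smooth C.π := SmoothOfRelativeDimension.smooth 1 C.π
    infer_instance
  · intro K _ _ s i j hij h
    exact hij (hi ((cancel_epi (spMap s)).1 h))

/-- The first `m` sections are those of `τ`, the others those of `σ`. -/
def mix (C : Fam 0 k) (σ τ : Fin n → (Sp k ⟶ C.X)) (m : ℕ) (i : Fin n) : Sp k ⟶ C.X :=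
  if i.val < m then τ i else σ i

theorem mix_sec (C : Fam 0 k) (σ τ : Fin n → (Sp k ⟶ C.X)) (hσ : ∀ i, σ i ≫ C.π = 𝟙 (Sp k))
    (hτ : ∀ i, τ i ≫ C.π = 𝟙 (Sp k)) (m : ℕ) (i : Fin n) : mix C σ τ m i ≫ C.π = 𝟙 (Sp k) := by
  unfold mix
  split_ifs
  · exact hτ i
  · exact hσ i

theorem mix_inj (C : Fam 0 k) (σ τ : Fin n → (Sp k ⟶ C.X)) (hσ : Function.Injective σ)
    (hτ : Function.Injective τ) (hd : ∀ i j, σ i ≠ τ j) (m : ℕ) :
    Function.Injective (mix C σ τ m) := by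
  intro i j h
  unfold mix at h
  split_ifs at h with h1 h2 h2
  · exact hτ h
  · exact absurd h.symm (hd j i)
  · exact absurd h (hd i j)
  · exact hσ h

theorem disj [Algebra ℂ k] (hNPT : Stmt_NPT) (hNMV : Stmt_NMV) (g : ℕ) (hg : 2 ≤ g) (F : Reg g n)
    (C : Fam 0 k) (hC : IsStable g C) (hs : SmoothOfRelativeDimension 1 C.π)
    (σ τ : Fin n → (Sp k ⟶ C.X)) (hσ : ∀ i, σ i ≫ C.π = 𝟙 (Sp k))
    (hτ : ∀ i, τ i ≫ C.π = 𝟙 (Sp k)) (iσ : Function.Injective σ) (iτ : Function.Injective τ)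
    (hd : ∀ i j, σ i ≠ τ j) (h1 : IsStable g (wpt C σ hσ)) (h2 : IsStable g (wpt C τ hτ)) :
    F.F k (wpt C σ hσ) h1 0 = F.F k (wpt C τ hτ) h2 0 := by
  have key : ∀ m : ℕ, m ≤ n → ∀ h : IsStable g (wpt C (mix C σ τ m) (mix_sec C σ τ hσ hτ m)),
      F.F k (wpt C σ hσ) h1 0 = F.F k (wpt C (mix C σ τ m) (mix_sec C σ τ hσ hτ m)) h 0 := by
    intro m
    induction m with
    | zero =>
      intro _ h
      have e : ∀ (ρ : Fin n → (Sp k ⟶ C.X)) (hρ : ∀ i, ρ i ≫ C.π = 𝟙 (Sp k))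
          (h' : IsStable g (wpt C ρ hρ)), ρ = σ →
          F.F k (wpt C σ hσ) h1 0 = F.F k (wpt C ρ hρ) h' 0 := by
        intro ρ hρ h' e
        subst e
        rfl
      apply e
      funext i
      simp [mix]
    | succ m ih =>
      intro hm h
      have hst := stab hNPT g C hC hs (mix C σ τ m) (mix_sec C σ τ hσ hτ m)
        (mix_inj C σ τ iσ iτ hd m)
      rw [ih (by omega) hst]
      apply hNMV g hg F C hC hs _ _ _ _ (⟨m, by omega⟩ : Fin n)
      · intro i hi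
        have hne : i.val ≠ m := fun h0 => hi (Fin.ext h0)
        unfold mix
        by_cases h3 : i.val < m
        · rw [if_pos h3, if_pos (by omega)]
        · rw [if_neg h3, if_neg (by omega)]
      · exact mix_inj C σ τ iσ iτ hd m
      · exact mix_inj C σ τ iσ iτ hd (m + 1)
  have hst := stab hNPT g C hC hs (mix C σ τ n) (mix_sec C σ τ hσ hτ n)
    (mix_inj C σ τ iσ iτ hd n)
  rw [key n le_rfl hst]
  have e : ∀ (ρ : Fin n → (Sp k ⟶ C.X)) (hρ : ∀ i, ρ i ≫ C.π = 𝟙 (Sp k))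
      (h' : IsStable g (wpt C ρ hρ)), ρ = τ →
      F.F k (wpt C ρ hρ) h' 0 = F.F k (wpt C τ hτ) h2 0 := by
    intro ρ hρ h' e
    subst e
    rfl
  apply e
  funext i
  simp [mix]

end NMA

/-- NMA -/
theorem t_NMA (hNPT : Stmt_NPT) (hNMV : Stmt_NMV) : Stmt_NMA := by
  intro n k _ _ _ g hg F C hC hs hinf σ τ hσ hτ iσ iτ h1 h2
  have hinf' : ({s : Sp k ⟶ C.X | s ≫ C.π = 𝟙 (Sp k)} \ (Set.range σ ∪ Set.range τ)).Infinite :=
    hinf.sdiff ((Set.finite_range σ).union (Set.finite_range τ))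
  let e := hinf'.natEmbedding
  let ρ : Fin n → (Sp k ⟶ C.X) := fun i => (e i.val).1
  have hρ : ∀ i, ρ i ≫ C.π = 𝟙 (Sp k) := fun i => (e i.val).2.1
  have iρ : Function.Injective ρ := by
    intro i j h
    have h3 : e i.val = e j.val := Subtype.ext h
    exact Fin.ext (e.injective h3)
  have d1 : ∀ i j, σ i ≠ ρ j := by
    intro i j h
    exact (e j.val).2.2 (Or.inl ⟨i, h⟩)
  have d2 : ∀ i j, ρ i ≠ τ j := by
    intro i j h
    exact (e i.val).2.2 (Or.inr ⟨j, h.symm⟩)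
  have h3 := NMA.stab hNPT g C hC hs ρ hρ iρ
  rw [NMA.disj hNPT hNMV g hg F C hC hs σ ρ hσ hρ iσ iρ d1 h1 h3]
  exact NMA.disj hNPT hNMV g hg F C hC hs ρ τ hρ hτ iρ iτ d2 h3 h2

end Pool.Agent.MG.H2
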