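import Pool.Agent.MG.H2.StmtsN
import Pool.Agent.MG.PointedS

/-!
# At the zero covector a regular function does not depend on one marked point
-/

open CategoryTheory CategoryTheory.Limits AlgebraicGeometry TensorProduct

namespace Pool.Agent.MG.H2

namespace NMV

section charts

variable {n m : ℕ} {k : Type} [Field k] {T : TC k} {C : Fam 0 k}
  {ρ : Fin m → (Sp k ⟶ C.X)} {hρ : ∀ i, ρ i ≫ C.π = 𝟙 (Sp k)}
  {σ : Fin n → (Sp k ⟶ C.X)} {hσ : ∀ i, σ i ≫ C.π = 𝟙 (Sp k)}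

/-- The charts do not depend on the sections. -/
noncomputable def rch (ct : Charted T (wpt C ρ hρ)) : Charted T (wpt C σ hσ) where
  U1 := ct.U1
  U2 := ct.U2
  cover := ct.cover
  ac1 := ct.ac1
  ac2 := ct.ac2
  ac12 := ct.ac12
  t1 := ct.t1
  t2 := ct.t2
  t12 := ct.t12
  b1 := ct.b1
  b2 := ct.b2
  b12 := ct.b12
  c1 := ct.c1
  c2 := ct.c2
  c12 := ct.c12
  r1 := ct.r1
  r2 := ct.r2

theorem rch_aff {ct : Charted T (wpt C ρ hρ)} (ha : ct.Aff) :
    (rch ct : Charted T (wpt C σ hσ)).Aff := ⟨ha.aff1, ha.aff2, ha.aff12⟩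

/-- The two-chart structure for some of the points. -/
noncomputable def sub (ch : Cht (wpt C ρ hρ) T) (e : Fin n → Fin m) (he : Function.Injective e)
    (h : ∀ i, ρ (e i) = σ i) : Cht (wpt C σ hσ) T where
  ct := rch ch.ct
  aff := rch_aff ch.aff
  pt i := ch.pt (e i)
  is i := by
    have h1 : ch.ct.Is1 (ρ (e i)) (ch.pt (e i)) := ch.is (e i)
    rw [h i] at h1
    exact h1
  off i p := by
    have h1 : ρ (e i) p ∉ ch.ct.U2 := ch.off (e i) p
    rw [h i] at h1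
    exact h1
  gen i := ch.gen (e i)
  ne i j hij := ch.ne (e i) (e j) (fun h' => hij (he h'))
  dom := ch.dom
  inj1 := ch.inj1
  inj2 := ch.inj2
  h0 := ch.h0
  unit i := ch.unit (e i)

end charts

section

variable {g n : ℕ} {k : Type} [Field k] {T : TC k}

/-- Evaluation at a point. -/
noncomputable def evk {V : Type} (φ : T.R1 →ₐ[k] k) (v : V → k) :
    MvPolynomial V T.R1 →ₐ[k] k :=
  (MvPolynomial.aeval v : MvPolynomial V k →ₐ[k] k).comp (MvPolynomial.mapAlgHom φ)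

theorem evk_C {V : Type} (φ : T.R1 →ₐ[k] k) (v : V → k) (r : T.R1) :
    evk φ v (MvPolynomial.C r) = φ r := by
  simp [evk]

theorem evk_X {V : Type} (φ : T.R1 →ₐ[k] k) (v : V → k) (j : V) :
    evk (T := T) φ v (MvPolynomial.X j) = v j := by
  simp [evk]

theorem evk_p {ι : Type} {i₀ : Fin n} (p : MvPolynomial {i : Fin n // i ≠ i₀} k)
    (φ : T.R1 →ₐ[k] k) (v : Fin n ⊕ ι → k) :
    evk φ v (MvPolynomial.rename (fun i => Sum.inl i.1)
      (MvPolynomial.map (algebraMap k T.R1) p)) =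
      MvPolynomial.aeval (fun i : {i : Fin n // i ≠ i₀} => v (.inl i.1)) p := by
  induction p using MvPolynomial.induction_on with
  | C a =>
    rw [MvPolynomial.map_C, MvPolynomial.rename_C, evk_C]
    simp
  | add p q hp hq => rw [map_add, map_add, map_add, map_add, hp, hq]
  | mul_X p i hp =>
    rw [map_mul, map_mul, map_mul, map_mul, hp, MvPolynomial.map_X, MvPolynomial.rename_X, evk_X,
      MvPolynomial.aeval_X]

variable {C : Fam 0 k} {σ τ : Fin n → (Sp k ⟶ C.X)} {hσ : ∀ i, σ i ≫ C.π = 𝟙 (Sp k)}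
  {hτ : ∀ i, τ i ≫ C.π = 𝟙 (Sp k)} (ch : Cht (wpt C σ hσ) T)

theorem evk_unit {V : Type} {i₀ : Fin n} (φ : T.R1 →ₐ[k] k) (v : V → k)
    (hφ : ∀ i, i ≠ i₀ → φ (zE ch i) ≠ 0) :
    IsUnit (evk φ v (MvPolynomial.C (PP ch (Finset.univ.erase i₀)))) := by
  rw [evk_C]
  unfold PP
  rw [map_prod]
  exact (IsUnit.prod_iff).2 fun i hi => IsUnit.mk0 _ (hφ i (Finset.ne_of_mem_erase hi))

variable [IsAlgClosed k] [Algebra ℂ k] (Q : Cur (T := T) (C := wpt C σ hσ) g) (F : Reg g n)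
  {ι : Type} {D : ι → T.R12} (U : Uni D)

/-- The points with the point `i₀` given by `φ`. -/
def kp (i₀ : Fin n) (φ : T.R1 →ₐ[k] k) (i : Fin n) : Pt T k :=
  if i = i₀ then .one φ else .one (ch.pt i)

omit [Algebra ℂ k] in
theorem kp_map {i₀ : Fin n} (φ : T.R1 →ₐ[k] k) (v : Fin n ⊕ ι → k)
    (hφ : ∀ i, i ≠ i₀ → φ (zE ch i) ≠ 0) (i : Fin n) :
    kp ch i₀ φ i = (mv ch i₀ (.one (ph ch ι (Finset.univ.erase i₀))) i).map
      (SSlift ch ι (Finset.univ.erase i₀) (evk φ v) (evk_unit ch φ v hφ)) := by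
  rw [map_mv]
  unfold mv kp
  by_cases h : i = i₀
  · rw [if_pos h, if_pos h]
    simp only [Pt.map, Pt.one.injEq]
    refine AlgHom.ext fun r => ?_
    symm
    refine (SSlift_ph ch ι _ _ (evk_unit ch φ v hφ) r).trans ?_
    rw [evk_C]
  · rw [if_neg h, if_neg h]
    simp only [Pt.one.injEq]
    refine AlgHom.ext fun r => ?_
    simp

omit [IsAlgClosed k] [Algebra ℂ k] in
theorem kp_is {i₀ : Fin n} (hτσ : ∀ i, i ≠ i₀ → σ i = τ i) (φ : T.R1 →ₐ[k] k)
    (his : ch.ct.Is1 (τ i₀) φ) (i : Fin n) :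
    (rch ch.ct : Charted T (wpt C τ hτ)).Is ((wpt C τ hτ).σ i) (kp ch i₀ φ i) := by
  unfold kp
  by_cases h : i = i₀
  · rw [if_pos h, h]
    exact his
  · rw [if_neg h]
    have h1 : ch.ct.Is1 (σ i) (ch.pt i) := ch.is i
    rw [hτσ i h] at h1
    exact h1

/-- The zero covector data. -/
def zcd {B : Type} [CommRing B] [Algebra k B] (s : Fin n → Pt T B) : CovData s :=
  ⟨0, 0, fun a => by simp, fun a => by simp⟩

/-- The value at the zero covector of the curve with the moving point given by `φ`. -/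
theorem val0 {i₀ : Fin n} (hτσ : ∀ i, i ≠ i₀ → σ i = τ i) (h2 : IsStable g (wpt C τ hτ))
    (φ : T.R1 →ₐ[k] k) (hφ : ∀ i, i ≠ i₀ → φ (zE ch i) ≠ 0) (his : ch.ct.Is1 (τ i₀) φ) :
    F.F k (wpt C τ hτ) h2 0 = SSlift ch ι (Finset.univ.erase i₀)
      (evk φ (0 : Fin n ⊕ ι → k)) (evk_unit ch φ 0 hφ) (f1 ch Q hyp F U i₀) := by
  set ψ := SSlift ch ι (Finset.univ.erase i₀) (evk φ (0 : Fin n ⊕ ι → k))
    (evk_unit ch φ 0 hφ) with hψ
  have hs := kp_map ch φ (0 : Fin n ⊕ ι → k) hφ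
  rw [← hψ] at hs
  set ct' : Charted T (wpt C τ hτ) := rch ch.ct with hct'
  have haff : ct'.Aff := rch_aff ch.aff
  have hs' : ∀ i, ct'.Is ((wpt C τ hτ).σ i) (kp ch i₀ φ i) := kp_is ch hτσ φ his
  have hbc := cobj_bc ch Q hyp (mv ch i₀ (.one (ph ch ι (Finset.univ.erase i₀))))
    (dis_one ch hyp i₀ _ fun i hi => ph_unit ch ι _ i
      (Finset.mem_erase.2 ⟨hi, Finset.mem_univ i⟩))
  obtain ⟨a, ha⟩ := hyp.chk (C := wpt C τ hτ) ct' haff (SS ch ι (Finset.univ.erase i₀)) ψ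
    (fun i => tau ch.aff (mv ch i₀ (.one (ph ch ι (Finset.univ.erase i₀))) i))
    (fun i => (hyp.tau ch.ct ch.aff).1 _ (mv ch i₀ (.one (ph ch ι (Finset.univ.erase i₀))) i))
    (o1 ch Q hyp ι i₀).ct ⟨hbc.h1, hbc.h2, hbc.f1, hbc.f2, hbc.f12⟩ (fun i => by
      have h1 := (hyp.tau ct' haff).2.2.2 ((wpt C τ hτ).σ i) (kp ch i₀ φ i)
        ((wpt C τ hτ).sec i) (hs' i)
      rw [h1, hs i]
      exact (hyp.tau ch.ct ch.aff).2.1 _ _ ψ _)
  have hE : (U.cd (mv ch i₀ (.one (ph ch ι (Finset.univ.erase i₀)))) fun j =>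
      algebraMap (MvPolynomial (Fin n ⊕ ι) T.R1) (SS ch ι (Finset.univ.erase i₀))
        (MvPolynomial.X j)).Map ψ (zcd (kp ch i₀ φ)) := by
    have h2 := U.map ψ hs (fun j => algebraMap (MvPolynomial (Fin n ⊕ ι) T.R1)
      (SS ch ι (Finset.univ.erase i₀)) (MvPolynomial.X j)) (0 : Fin n ⊕ ι → k) (fun j => by
        rw [hψ, SSlift_apply, evk_X])
    have h3 : U.cd (kp ch i₀ φ) (0 : Fin n ⊕ ι → k) = zcd (kp ch i₀ φ) := by
      apply U.un
      · funext i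
        rw [U.cd_ν]
        rfl
      · intro a
        rw [U.cd_μ]
        rfl
    rw [h3] at h2
    exact h2
  have h0 : IsCov ct' (kp ch i₀ φ) hs' (zcd (kp ch i₀ φ)) (0 : Cov g (wpt C τ hτ)) := by
    intro d h δ _
    change (0 : k) = ext (0 : T.R12 →ₗ[k] k) h + ∑ i, (0 : Fin n → k) i * δ i
    simp [ext]
  exact val_nat' F ψ (o1 ch Q hyp ι i₀).hx h2 a ((o1 ch Q hyp ι i₀).cov hyp.cov _) 0
    (hyp.nat a ha _ (o1 ch Q hyp ι i₀).hs _ hs' _ (zcd (kp ch i₀ φ)) hE g _ 0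
      ((o1 ch Q hyp ι i₀).isCov hyp.cov _) h0)

end

theorem epi_field {k K : Type} [Field k] [Field K] (s : k →+* K) : Epi (spMap s) := by
  have h : (CommRingCat.ofHom s).hom.FaithfullyFlat := by
    algebraize [s]
    exact (inferInstance : Module.FaithfullyFlat k K)
  obtain ⟨h1, h2⟩ := (flat_and_surjective_SpecMap_iff (CommRingCat.ofHom s)).2 h
  exact Flat.epi_of_flat_of_surjective _

end NMV

open NMV in
/-- **NMV** -/
theorem t_NMV (hNPT : Stmt_NPT) : Stmt_NMV := by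
  intro n k _ _ _ g hg F C hC hs σ τ hσ hτ i₀ hστ iσ iτ h1 h2
  have : CharZero k := charZero_of_injective_algebraMap (algebraMap ℂ k).injective
  by_cases he : σ i₀ = τ i₀
  · have : σ = τ := by
      funext i
      by_cases h : i = i₀
      · rw [h, he]
      · exact hστ i h
    subst this
    rfl
  -- all the points
  let ρ : Fin (n + 1) → (Sp k ⟶ C.X) := Fin.cons (τ i₀) σ
  have hρ : ∀ i, ρ i ≫ C.π = 𝟙 (Sp k) := by
    intro i
    refine Fin.cases ?_ (fun j => ?_) i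
    · exact hτ i₀
    · exact hσ j
  have iρ : Function.Injective ρ := by
    rw [Fin.cons_injective_iff]
    refine ⟨?_, iσ⟩
    rintro ⟨i, hi⟩
    by_cases h : i = i₀
    · subst h
      exact he hi
    · rw [hστ i h] at hi
      exact h (iτ hi)
  have hsm : Smooth C.π := SmoothOfRelativeDimension.smooth 1 C.π
  have hst : IsStable g (wpt C ρ hρ) := by
    refine hNPT g C hC ρ hρ (fun i => ⟨⊤, inferInstance, fun _ => trivial⟩) ?_
    intro K _ _ s i j hij h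
    have := epi_field s
    exact hij (iρ ((cancel_epi (spMap s)).1 h))
  obtain ⟨T, ⟨chp⟩⟩ := two g (wpt C ρ hρ) hst hs (Nat.succ_pos n)
  let ch : Cht (wpt C σ hσ) T := sub chp Fin.succ (Fin.succ_injective n) (fun i => rfl)
  have Q : Cur (T := T) (C := wpt C σ hσ) g :=
    ⟨h1, hs, fun j hj a b h => stmt_NOT g (wpt C σ hσ) h1 hs hg T ch j hj a b h⟩
  obtain ⟨ι, D, hc, hu⟩ := hyp.uni T ch.inj1 ch.inj2 Q.not1
  have U : Uni D := ⟨fun n B _ _ s => (hu B s).1, fun n B _ _ s => (hu B s).2⟩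
  obtain ⟨p, hp⟩ := f1_poly ch Q hyp F U hc i₀
  have e1 := val0 (τ := σ) (hτ := hσ) ch Q F U (i₀ := i₀) (fun _ _ => rfl) h1 (ch.pt i₀)
    (fun i hi => by
      have h : ch.pt i₀ (zE ch i) = ch.pt i₀ T.x - ch.pt i T.x := by
        simp [zE]
      rw [h]
      exact sub_ne_zero.2 (ch.ne _ _ hi.symm)) (ch.is i₀)
  have e2 := val0 (τ := τ) (hτ := hτ) ch Q F U (i₀ := i₀) hστ h2 (chp.pt 0)
    (fun i hi => by
      have h : chp.pt 0 (zE ch i) = chp.pt 0 T.x - ch.pt i T.x := by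
        simp [zE]
      rw [h]
      exact sub_ne_zero.2 (chp.ne 0 i.succ (Fin.succ_ne_zero i).symm)) (chp.is 0)
  rw [e1, e2, hp, SSlift_apply, SSlift_apply, NMV.evk_p, NMV.evk_p]

end Pool.Agent.MG.H2
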