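import Pool.Agent.MG.H2.EndQ
import Pool.Agent.MG.H2.GeoM
import Pool.Agent.MG.H2.NMA
import Pool.Agent.MG.H2.NMV
import Pool.Agent.MG.H2.NGE
import Pool.Agent.MG.H2.NDR
import Pool.Agent.MG.H2.HGE
import Pool.Agent.MG.H2.HDR
import Pool.Agent.MG.Two2.Alg
import Pool.Agent.MG.Two2.AlgN

/-!
# Genus two: every regular function is constant
-/

open CategoryTheory CategoryTheory.Limits AlgebraicGeometry Polynomial

namespace Pool.Agent.MG.H2

/-- The remaining inputs. -/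
structure Inp : Prop where
  hHTR : Stmt_HTR
  hYHT : Stmt_YHT
  hYST : Stmt_YST
  hYSM : Stmt_YSM
  hYOR : Stmt_YOR
  hYAR : Stmt_YAR
  hVAL : Stmt_VAL
  hREG : Stmt_REG

theorem Inp.inpN (H : Inp) : InpN where
  hNMA := t_NMA t_NPT (t_NMV t_NPT)
  hHBC := t_HBC
  hASC := t_ASC
  hATR := t_ATR
  hASW := t_ASW
  hYHT := H.hYHT
  hYST := H.hYST
  hYSM := H.hYSM
  hYOR := H.hYOR
  hYAR := H.hYAR
  hA := Two2.algN

/-- The data in genus two. -/
noncomputable def Inp.mdl (H : Inp) : Mdl := H2.mdl H.hHTR H.hYHT H.hVAL H.hREG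

/-- Every regular function is constant. -/
theorem Inp.all (H : Inp) (n : ℕ) (F : Reg 2 n) : ∃ c : ℂ,
    ∀ (K : Type) [Field K] [IsAlgClosed K] [Algebra ℂ K] (C : Fam n K) (hC : IsStable 2 C)
      (_ : Smooth C.π) (l : Cov 2 C), F.F K C hC l = algebraMap ℂ K c := by
  rcases Nat.eq_zero_or_pos n with rfl | hn
  · obtain ⟨c, hc⟩ := H.mdl.end20 Two2.alg ef F
    refine ⟨c, fun K _ _ _ C hC hs l => hc K C hC ?_ l⟩
    exact SmNod.smoothOfRelativeDimension_one C.π (CST.stableCurve hC).nodal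
  · exact H.inpN.all hn F

theorem hsm_rts {K : Type} [Field K] [CharZero K] (r : Fin 6 → K) (hr : Function.Injective r) :
    Smooth (HX.pr K (rts r)) := by
  have h2 : IsUnit (2 : K) := isUnit_iff_ne_zero.2 two_ne_zero
  have h1 : SmoothOfRelativeDimension 1 (HX.pr K (rts r)) := sm_hyp h2 (good_rts r hr)
  exact SmoothOfRelativeDimension.smooth 1 _

/-- The generic curve. -/
theorem Inp.rigid (H : Inp) (n : ℕ) : Std.Rigid 2 n := by
  rcases Nat.eq_zero_or_pos n with rfl | hn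
  · exact H.mdl.rigid20 Two2.alg t_HDR
      (t_HGE (t_HE (t_HEA t_HRG)) H.hHTR t_HLI t_HBC) hsm_rts
  · exact H.inpN.rigid hn t_NDR (t_NGE (t_HE (t_HEA t_HRG)) H.hHTR t_HLI t_HBC)

/-- Every regular function is constant, for the definitions of the hand-in. -/
theorem Inp.std (H : Inp) (n : ℕ) (F : Std.Reg 2 n) : ∃ c : ℂ,
    ∀ (K : Type) [Field K] [IsAlgClosed K] [Algebra ℂ K] (C : Fam n K) (hC : Std.IsStable 2 C)
      (_ : Smooth C.π) (l : Std.Cov 2 C), F.F K C hC l = algebraMap ℂ K c := by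
  obtain ⟨c, hc⟩ := H.all n (Std.Reg.to F)
  refine ⟨c, fun K _ _ _ C hC hs l => ?_⟩
  exact (Std.Reg.to_F F K _ _ l).trans (hc K C ((Std.stable_iff 2 C).1 hC) hs (Std.Cov.to l))

end Pool.Agent.MG.H2
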