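import Pool.Agent.MG.H2.StmtsH

/-!
# The infinitesimal coordinate changes of the curves `y² = f(x)`

`x ↦ x + e (a₀ + a₁ x + a₂ x²)`, `y ↦ (1 + e (c + 3 a₂ x)) y`, where `e² = 0`.
-/

open CategoryTheory CategoryTheory.Limits AlgebraicGeometry TensorProduct

namespace Pool.Agent.MG.H2

namespace HTR

section alg

variable {R : Type} [CommRing R]

/-- `f' = f + e dir f`. -/
def IsD (e a0 a1 a2 c : R) (f f' : Fin 7 → R) : Prop :=
  ∀ i, f' i = f i + e * dir a0 a1 a2 c f i

variable {e a0 a1 a2 c : R} {f f' : Fin 7 → R}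

theorem IsD.co (h : IsD e a0 a1 a2 c f f') :
    f' 0 = f 0 + e * (a0 * f 1 - 2 * c * f 0) ∧
    f' 1 = f 1 + e * (2 * a0 * f 2 + (a1 - 2 * c) * f 1 - 6 * a2 * f 0) ∧
    f' 2 = f 2 + e * (3 * a0 * f 3 + (2 * a1 - 2 * c) * f 2 - 5 * a2 * f 1) ∧
    f' 3 = f 3 + e * (4 * a0 * f 4 + (3 * a1 - 2 * c) * f 3 - 4 * a2 * f 2) ∧
    f' 4 = f 4 + e * (5 * a0 * f 5 + (4 * a1 - 2 * c) * f 4 - 3 * a2 * f 3) ∧
    f' 5 = f 5 + e * (6 * a0 * f 6 + (5 * a1 - 2 * c) * f 5 - 2 * a2 * f 4) ∧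
    f' 6 = f 6 + e * ((6 * a1 - 2 * c) * f 6 - a2 * f 5) :=
  ⟨h 0, h 1, h 2, h 3, h 4, h 5, h 6⟩

theorem IsD.mk' (h0 : f' 0 = f 0 + e * (a0 * f 1 - 2 * c * f 0))
    (h1 : f' 1 = f 1 + e * (2 * a0 * f 2 + (a1 - 2 * c) * f 1 - 6 * a2 * f 0))
    (h2 : f' 2 = f 2 + e * (3 * a0 * f 3 + (2 * a1 - 2 * c) * f 2 - 5 * a2 * f 1))
    (h3 : f' 3 = f 3 + e * (4 * a0 * f 4 + (3 * a1 - 2 * c) * f 3 - 4 * a2 * f 2))
    (h4 : f' 4 = f 4 + e * (5 * a0 * f 5 + (4 * a1 - 2 * c) * f 4 - 3 * a2 * f 3))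
    (h5 : f' 5 = f 5 + e * (6 * a0 * f 6 + (5 * a1 - 2 * c) * f 5 - 2 * a2 * f 4))
    (h6 : f' 6 = f 6 + e * ((6 * a1 - 2 * c) * f 6 - a2 * f 5)) :
    IsD e a0 a1 a2 c f f' := by
  intro i
  fin_cases i
  exacts [h0, h1, h2, h3, h4, h5, h6]

theorem IsD.neg (he : e * e = 0) (h : IsD e a0 a1 a2 c f f') :
    IsD (-e) a0 a1 a2 c f' f := by
  obtain ⟨h0, h1, h2, h3, h4, h5, h6⟩ := h.co
  have k : ∀ i, e * f' i = e * f i := by
    intro i
    rw [h i]
    linear_combination (dir a0 a1 a2 c f i) * he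
  have k0 := k 0
  have k1 := k 1
  have k2 := k 2
  have k3 := k 3
  have k4 := k 4
  have k5 := k 5
  have k6 := k 6
  apply IsD.mk'
  · linear_combination -h0 + a0 * k1 - 2 * c * k0
  · linear_combination -h1 + 2 * a0 * k2 + (a1 - 2 * c) * k1 - 6 * a2 * k0
  · linear_combination -h2 + 3 * a0 * k3 + (2 * a1 - 2 * c) * k2 - 5 * a2 * k1
  · linear_combination -h3 + 4 * a0 * k4 + (3 * a1 - 2 * c) * k3 - 4 * a2 * k2
  · linear_combination -h4 + 5 * a0 * k5 + (4 * a1 - 2 * c) * k4 - 3 * a2 * k3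
  · linear_combination -h5 + 6 * a0 * k6 + (5 * a1 - 2 * c) * k5 - 2 * a2 * k4
  · linear_combination -h6 + (6 * a1 - 2 * c) * k6 - a2 * k5

theorem IsD.rev' (h : IsD e a0 a1 a2 c f f') :
    IsD e (-a2) (-a1) (-a0) (c - 3 * a1) (rev f) (rev f') := by
  obtain ⟨h0, h1, h2, h3, h4, h5, h6⟩ := h.co
  apply IsD.mk'
  · change f' 6 = f 6 + e * (-a2 * f 5 - 2 * (c - 3 * a1) * f 6)
    linear_combination h6
  · change f' 5 = f 5 + e * (2 * -a2 * f 4 + (-a1 - 2 * (c - 3 * a1)) * f 5 - 6 * -a0 * f 6)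
    linear_combination h5
  · change f' 4 = f 4 + e * (3 * -a2 * f 3 + (2 * -a1 - 2 * (c - 3 * a1)) * f 4 - 5 * -a0 * f 5)
    linear_combination h4
  · change f' 3 = f 3 + e * (4 * -a2 * f 2 + (3 * -a1 - 2 * (c - 3 * a1)) * f 3 - 4 * -a0 * f 4)
    linear_combination h3
  · change f' 2 = f 2 + e * (5 * -a2 * f 1 + (4 * -a1 - 2 * (c - 3 * a1)) * f 2 - 3 * -a0 * f 3)
    linear_combination h2
  · change f' 1 = f 1 + e * (6 * -a2 * f 0 + (5 * -a1 - 2 * (c - 3 * a1)) * f 1 - 2 * -a0 * f 2)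
    linear_combination h1
  · change f' 0 = f 0 + e * ((6 * -a1 - 2 * (c - 3 * a1)) * f 0 - -a0 * f 1)
    linear_combination h0

theorem IsD.map {R' : Type} [CommRing R'] (φ : R →+* R') (h : IsD e a0 a1 a2 c f f') :
    IsD (φ e) (φ a0) (φ a1) (φ a2) (φ c) (fun i => φ (f i)) (fun i => φ (f' i)) := by
  obtain ⟨h0, h1, h2, h3, h4, h5, h6⟩ := h.co
  apply IsD.mk' <;> simp only [h0, h1, h2, h3, h4, h5, h6, map_add, map_mul, map_sub, map_ofNat]

theorem pol_co (he : e * e = 0) (h : IsD e a0 a1 a2 c f f') (x : R) :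
    (1 + e * (c + 3 * a2 * x)) ^ 2 * pol f' x = pol f (x + e * (a0 + a1 * x + a2 * x ^ 2)) := by
  obtain ⟨h0, h1, h2, h3, h4, h5, h6⟩ := h.co
  set z := a0 + a1 * x + a2 * x ^ 2 with hz
  have q2 : (x + e * z) ^ 2 = x ^ 2 + 2 * e * z * x := by linear_combination z ^ 2 * he
  have q3 : (x + e * z) ^ 3 = x ^ 3 + 3 * e * z * x ^ 2 := by
    rw [pow_succ, q2]
    linear_combination 2 * z ^ 2 * x * he
  have q4 : (x + e * z) ^ 4 = x ^ 4 + 4 * e * z * x ^ 3 := by
    rw [pow_succ, q3]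
    linear_combination 3 * z ^ 2 * x ^ 2 * he
  have q5 : (x + e * z) ^ 5 = x ^ 5 + 5 * e * z * x ^ 4 := by
    rw [pow_succ, q4]
    linear_combination 4 * z ^ 2 * x ^ 3 * he
  have q6 : (x + e * z) ^ 6 = x ^ 6 + 6 * e * z * x ^ 5 := by
    rw [pow_succ, q5]
    linear_combination 5 * z ^ 2 * x ^ 4 * he
  have q : (1 + e * (c + 3 * a2 * x)) ^ 2 = 1 + 2 * e * (c + 3 * a2 * x) := by
    linear_combination (c + 3 * a2 * x) ^ 2 * he
  have k : ∀ i, e * f' i = e * f i := by
    intro i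
    rw [h i]
    linear_combination (dir a0 a1 a2 c f i) * he
  have k' : e * pol f' x = e * pol f x := by
    simp only [pol]
    linear_combination k 0 + x * k 1 + x ^ 2 * k 2 + x ^ 3 * k 3 + x ^ 4 * k 4 + x ^ 5 * k 5 +
      x ^ 6 * k 6
  have k2 : (1 + e * (c + 3 * a2 * x)) ^ 2 * pol f' x =
      pol f' x + 2 * (c + 3 * a2 * x) * (e * pol f x) := by
    rw [q, ← k']
    ring
  rw [k2]
  simp only [pol, h0, h1, h2, h3, h4, h5, h6, q2, q3, q4, q5, q6]
  rw [hz]
  ring

end alg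

section

variable {B : Type} [CommRing B] {e a0 a1 a2 c : B} {f f' : Fin 7 → B}

theorem sq0 {S : Type} [CommRing S] (c : B →+* S) (he : e * e = 0) : c e * c e = 0 := by
  rw [← map_mul, he, map_zero]

/-- The coordinate change on the affine chart. -/
noncomputable def co1 (he : e * e = 0) (h : IsD e a0 a1 a2 c f f') : A1 B f →+* A1 B f' :=
  lift1 (algebraMap B _)
    (x1 B f' + algebraMap B _ e * (algebraMap B _ a0 + algebraMap B _ a1 * x1 B f' +
      algebraMap B _ a2 * x1 B f' ^ 2))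
    ((1 + algebraMap B _ e * (algebraMap B _ c + 3 * algebraMap B _ a2 * x1 B f')) * y1 B f') (by
    rw [mul_pow, rel1]
    exact pol_co (sq0 _ he) (h.map (algebraMap B (A1 B f'))) _)

/-- `x + e (a₀ + a₁ x + a₂ x²)` as a unit. -/
noncomputable def uco {S : Type} [CommRing S] (x : Sˣ) (e a0 a1 a2 : S) (he : e * e = 0) : Sˣ where
  val := x + e * (a0 + a1 * x + a2 * x ^ 2)
  inv := (x⁻¹ : Sˣ) - e * (a0 * (x⁻¹ : Sˣ) ^ 2 + a1 * (x⁻¹ : Sˣ) + a2)
  val_inv := by
    have h : (x : S) * (x⁻¹ : Sˣ) = 1 := Units.mul_inv x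
    linear_combination (1 + e * (a1 + a2 * x) - e * (a0 * (x⁻¹ : Sˣ) + a1)) * h -
      (a0 + a1 * x + a2 * x ^ 2) * (a0 * ((x⁻¹ : Sˣ) : S) ^ 2 + a1 * (x⁻¹ : Sˣ) + a2) * he
  inv_val := by
    have h : (x : S) * (x⁻¹ : Sˣ) = 1 := Units.mul_inv x
    linear_combination (1 + e * (a1 + a2 * x) - e * (a0 * (x⁻¹ : Sˣ) + a1)) * h -
      (a0 + a1 * x + a2 * x ^ 2) * (a0 * ((x⁻¹ : Sˣ) : S) ^ 2 + a1 * (x⁻¹ : Sˣ) + a2) * he

/-- The coordinate change on the intersection. -/
noncomputable def co12 (he : e * e = 0) (h : IsD e a0 a1 a2 c f f') : A12 B f →+* A12 B f' :=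
  lift12 (algebraMap B _)
    (uco (xu B f') (algebraMap B _ e) (algebraMap B _ a0) (algebraMap B _ a1) (algebraMap B _ a2)
      (sq0 _ he))
    ((1 + algebraMap B _ e * (algebraMap B _ c + 3 * algebraMap B _ a2 * (xu B f' : A12 B f'))) *
      yv B f') (by
    rw [mul_pow, rel12]
    exact pol_co (sq0 _ he) (h.map (algebraMap B (A12 B f'))) _)

section

variable (he : e * e = 0) (h : IsD e a0 a1 a2 c f f')

theorem co1_b (b : B) : co1 he h (algebraMap B _ b) = algebraMap B _ b := lift1_b _ _ _ _ _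

theorem co1_x : co1 he h (x1 B f) = x1 B f' + algebraMap B _ e * (algebraMap B _ a0 +
    algebraMap B _ a1 * x1 B f' + algebraMap B _ a2 * x1 B f' ^ 2) := lift1_x _ _ _ _

theorem co1_y : co1 he h (y1 B f) =
    (1 + algebraMap B _ e * (algebraMap B _ c + 3 * algebraMap B _ a2 * x1 B f')) * y1 B f' :=
  lift1_y _ _ _ _

theorem co12_b (b : B) : co12 he h (algebraMap B _ b) = algebraMap B _ b := lift12_b _ _ _ _ _

theorem co12_x : co12 he h (xu B f : A12 B f) = (xu B f' : A12 B f') + algebraMap B _ e *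
    (algebraMap B _ a0 + algebraMap B _ a1 * (xu B f' : A12 B f') +
      algebraMap B _ a2 * (xu B f' : A12 B f') ^ 2) :=
  lift12_x _ _ _ _

theorem co12_xi : co12 he h ((xu B f)⁻¹ : (A12 B f)ˣ).val =
    ((xu B f')⁻¹ : (A12 B f')ˣ).val - algebraMap B _ e *
      (algebraMap B _ a0 * ((xu B f')⁻¹ : (A12 B f')ˣ).val ^ 2 +
        algebraMap B _ a1 * ((xu B f')⁻¹ : (A12 B f')ˣ).val + algebraMap B _ a2) :=
  lift12_xi _ _ _ _

theorem co12_y : co12 he h (yv B f) =
    (1 + algebraMap B _ e * (algebraMap B _ c + 3 * algebraMap B _ a2 * (xu B f' : A12 B f'))) *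
      yv B f' := lift12_y _ _ _ _

theorem co12_g1 (v : A1 B f) : co12 he h (g1 B f v) = g1 B f' (co1 he h v) := by
  have : (co12 he h).comp (g1 B f) = (g1 B f').comp (co1 he h) := by
    refine hom1_ext ?_ ?_ ?_
    · intro b
      rw [RingHom.comp_apply, RingHom.comp_apply, g1_b, co12_b, co1_b, g1_b]
    · rw [RingHom.comp_apply, RingHom.comp_apply, co1_x, ← xu_val, co12_x, map_add, map_mul,
        map_add, map_add, map_mul, map_mul, map_pow, g1_b, g1_b, g1_b, g1_b, xu_val]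
    · rw [RingHom.comp_apply, RingHom.comp_apply, co1_y, g1_y, co12_y, map_mul, map_add, map_mul,
        map_add, map_mul, map_mul, map_one, map_ofNat, g1_b, g1_b, g1_b, xu_val, g1_y]
  exact congrArg (fun g => g v) this

theorem co12_g2 (v : A2 B f) : co12 he h (g2 B f v) = g2 B f' (co1 he h.rev' v) := by
  have : (co12 he h).comp (g2 B f) = (g2 B f').comp (co1 he h.rev') := by
    refine hom1_ext ?_ ?_ ?_
    · intro b
      rw [RingHom.comp_apply, RingHom.comp_apply, g2_b, co12_b, co1_b, g2_b]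
    · rw [RingHom.comp_apply, RingHom.comp_apply, co1_x, g2_u, co12_xi, map_add, map_mul,
        map_add, map_add, map_mul, map_mul, map_pow, g2_b, g2_b, g2_b, g2_b, g2_u, map_neg,
        map_neg, map_neg]
      ring
    · rw [RingHom.comp_apply, RingHom.comp_apply, co1_y, g2_v, map_mul, co12_y, map_mul, map_add,
        map_mul, map_add, map_mul, map_mul, map_one, map_ofNat, g2_b, g2_b, g2_b, g2_u, g2_v,
        map_neg, map_sub, map_mul, map_ofNat, Units.val_pow_eq_pow_val, map_pow, co12_xi,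
        Units.val_pow_eq_pow_val]
      set u : A12 B f' := (xu B f' : A12 B f') with hu
      set w : A12 B f' := ((xu B f')⁻¹ : (A12 B f')ˣ).val with hw
      set E : A12 B f' := algebraMap B (A12 B f') e with hE
      set b0 : A12 B f' := algebraMap B (A12 B f') a0 with hb0
      set b1 : A12 B f' := algebraMap B (A12 B f') a1 with hb1
      set b2 : A12 B f' := algebraMap B (A12 B f') a2 with hb2
      set d : A12 B f' := algebraMap B (A12 B f') c with hd
      have h1 : u * w = 1 := Units.mul_inv _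
      have h2 : E * E = 0 := sq0 _ he
      have h3 : (w - E * (b0 * w ^ 2 + b1 * w + b2)) ^ 3 =
          w ^ 3 - 3 * E * (b0 * w ^ 2 + b1 * w + b2) * w ^ 2 := by
        linear_combination (3 * w * (b0 * w ^ 2 + b1 * w + b2) ^ 2 -
          E * (b0 * w ^ 2 + b1 * w + b2) ^ 3) * h2
      rw [h3]
      linear_combination (3 * E * b2 * w ^ 2 * yv B f') * h1 -
        (3 * (d + 3 * b2 * u) * (b0 * w ^ 2 + b1 * w + b2) * w ^ 2 * yv B f') * h2
  exact congrArg (fun g => g v) this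

/-- The composite of a coordinate change and its inverse. -/
theorem co1_co1 (h' : IsD (-e) a0 a1 a2 c f' f) (he' : -e * -e = 0) (v : A1 B f) :
    co1 he' h' (co1 he h v) = v := by
  have : (co1 he' h').comp (co1 he h) = RingHom.id _ := by
    refine hom1_ext ?_ ?_ ?_
    · intro b
      rw [RingHom.comp_apply, co1_b, co1_b]
      rfl
    · rw [RingHom.comp_apply, co1_x, map_add, map_mul, map_add, map_add, map_mul, map_mul, map_pow,
        co1_b, co1_b, co1_b, co1_b, co1_x, RingHom.id_apply, map_neg]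
      have h2 : algebraMap B (A1 B f) e * algebraMap B (A1 B f) e = 0 := sq0 _ he
      set x : A1 B f := x1 B f with hx
      set E : A1 B f := algebraMap B (A1 B f) e with hE
      set b0 : A1 B f := algebraMap B (A1 B f) a0 with hb0
      set b1 : A1 B f := algebraMap B (A1 B f) a1 with hb1
      set b2 : A1 B f := algebraMap B (A1 B f) a2 with hb2
      linear_combination (-b1 * (b0 + b1 * x + b2 * x ^ 2) -
        2 * b2 * x * (b0 + b1 * x + b2 * x ^ 2) +
        b2 * E * (b0 + b1 * x + b2 * x ^ 2) ^ 2) * h2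
    · rw [RingHom.comp_apply, co1_y, map_mul, map_add, map_mul, map_add, map_mul, map_mul, map_one,
        map_ofNat, co1_b, co1_b, co1_b, co1_x, co1_y, RingHom.id_apply, map_neg]
      have h2 : algebraMap B (A1 B f) e * algebraMap B (A1 B f) e = 0 := sq0 _ he
      set x : A1 B f := x1 B f with hx
      set E : A1 B f := algebraMap B (A1 B f) e with hE
      set b0 : A1 B f := algebraMap B (A1 B f) a0 with hb0
      set b1 : A1 B f := algebraMap B (A1 B f) a1 with hb1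
      set b2 : A1 B f := algebraMap B (A1 B f) a2 with hb2
      set d : A1 B f := algebraMap B (A1 B f) c with hd
      linear_combination ((-3 * b2 * (b0 + b1 * x + b2 * x ^ 2) - (d + 3 * b2 * x) ^ 2 +
        3 * E * b2 * (b0 + b1 * x + b2 * x ^ 2) * (d + 3 * b2 * x)) * y1 B f) * h2
  exact congrArg (fun g => g v) this

/-- The coordinate change. -/
noncomputable def chg : RHom (RingHom.id B) f f' where
  h1 := co1 he h
  h2 := co1 he h.rev'
  h12 := co12 he h
  b1 := co1_b he h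
  b2 := co1_b he h.rev'
  c1 := co12_g1 he h
  c2 := co12_g2 he h

theorem chg_chg (h' : IsD (-e) a0 a1 a2 c f' f) (he' : -e * -e = 0) :
    (chg he' h').mor ≫ (chg he h).mor = 𝟙 (HX B f) := by
  refine HX.ext' ?_ ?_
  · rw [← Category.assoc, RHom.in1_mor, Category.assoc, RHom.in1_mor, ← Category.assoc,
      spMap_comp', Category.comp_id]
    have h3 : (chg he' h').h1.comp (chg he h).h1 = RingHom.id _ :=
      RingHom.ext fun v => co1_co1 he h h' he' v
    rw [h3]
    have h4 : spMap (RingHom.id (A1 B f)) = 𝟙 (Sp (A1 B f)) := Spec.map_id _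
    rw [h4, Category.id_comp]
  · rw [← Category.assoc, RHom.in2_mor, Category.assoc, RHom.in2_mor, ← Category.assoc,
      spMap_comp', Category.comp_id]
    have h3 : (chg he' h').h2.comp (chg he h).h2 = RingHom.id _ :=
      RingHom.ext fun v => co1_co1 he h.rev' h'.rev' he' v
    rw [h3]
    have h4 : spMap (RingHom.id (A2 B f)) = 𝟙 (Sp (A2 B f)) := Spec.map_id _
    rw [h4, Category.id_comp]

theorem chg_iso : IsIso (chg he h).mor := by
  have he' : -e * -e = 0 := by linear_combination he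
  have h' : IsD (-e) a0 a1 a2 c f' f := h.neg he
  have he'' : - -e * - -e = 0 := by linear_combination he
  have h'' : IsD (- -e) a0 a1 a2 c f f' := h'.neg he'
  refine ⟨(chg he' h').mor, ?_, ?_⟩
  · have h1 := chg_chg he' h' h'' he''
    have h2 : (chg he'' h'').mor = (chg he h).mor := by
      have h3 : - -e = e := neg_neg e
      congr 1
      revert he'' h''
      rw [h3]
      intro _ _ _
      rfl
    rw [← h2]
    exact h1
  · exact chg_chg he h h' he'

/-- Modulo `e` the coordinate change is the identity. -/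
theorem bc_co {B' : Type} [CommRing B'] (p : B →+* B') (hp : p e = 0) {f0 : Fin 7 → B'}
    (h1 : ∀ i, f0 i = p (f' i)) (h2 : ∀ i, f0 i = p (f i)) (v : A1 B f) :
    bc1 p h1 (co1 he h v) = bc1 p h2 v := by
  have : (bc1 p h1).comp (co1 he h) = bc1 p h2 := by
    refine hom1_ext ?_ ?_ ?_
    · intro b
      rw [RingHom.comp_apply, co1_b, bc1_b, bc1_b]
    · rw [RingHom.comp_apply, co1_x, map_add, map_mul, bc1_b, hp, map_zero, zero_mul, add_zero,
        bc1_x, bc1_x]
    · rw [RingHom.comp_apply, co1_y, map_mul, map_add, map_mul, bc1_b, hp, map_zero, zero_mul,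
        add_zero, map_one, one_mul, bc1_y, bc1_y]
  exact congrArg (fun g => g v) this

theorem map_chg {B' : Type} [CommRing B'] (p : B →+* B') (hp : p e = 0) {f0 : Fin 7 → B'}
    (h1 : ∀ i, f0 i = p (f' i)) (h2 : ∀ i, f0 i = p (f i)) :
    HX.map p h1 ≫ (chg he h).mor = HX.map p h2 := by
  refine HX.ext' ?_ ?_
  · rw [← Category.assoc, HX.in1_map, Category.assoc, RHom.in1_mor, ← Category.assoc,
      spMap_comp', HX.in1_map]
    have h3 : (bc1 p h1).comp (chg he h).h1 = bc1 p h2 :=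
      RingHom.ext fun v => bc_co he h p hp h1 h2 v
    rw [h3]
  · rw [← Category.assoc, HX.in2_map, Category.assoc, RHom.in2_mor, ← Category.assoc,
      spMap_comp', HX.in2_map]
    have h3 : (bc2 p h1).comp (chg he h).h2 = bc2 p h2 :=
      RingHom.ext fun v => bc_co he h.rev' p hp (rev_bc p h1) (rev_bc p h2) v
    rw [h3]

end

end

end HTR

theorem t_HTR : Stmt_HTR := by
  intro E _ e ξ0 ξ1 ξ2 c he f
  have h : HTR.IsD e ξ0 ξ1 ξ2 c f (fun i => f i + e * dir ξ0 ξ1 ξ2 c f i) := fun i => rfl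
  have hiso : IsIso (HTR.chg he h).mor := HTR.chg_iso he h
  have h4 : spMap (RingHom.id E) = 𝟙 (Sp E) := Spec.map_id _
  have h5 : IsIso (spMap (RingHom.id E)) := by
    rw [h4]
    infer_instance
  have hc : IsPullback (HTR.chg he h).mor (HX.pr E fun i => f i + e * dir ξ0 ξ1 ξ2 c f i)
      (HX.pr E f) (spMap (RingHom.id E)) := IsPullback.of_horiz_isIso ⟨(HTR.chg he h).mor_pr⟩
  refine ⟨{ f := (HTR.chg he h).mor, cart := hc, sec := fun i => i.elim0 }, hiso, ?_⟩
  · intro B _ p hp f0 h1 h2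
    exact HTR.map_chg he h p hp h1 h2

end Pool.Agent.MG.H2
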