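import Pool.Agent.MG.H2.YDefs
import Pool.Agent.MG.Two2.AlgDefs

/-!
# The family `YX B p t` is stable: statements
-/

open CategoryTheory CategoryTheory.Limits AlgebraicGeometry TensorProduct

namespace Pool.Agent.MG.H2

/-! ## The family over any ring -/

/-- YBC: the base change square. -/
def Stmt_YBC : Prop :=
  ∀ {B B' : Type} [CommRing B] [CommRing B'] (φ : B →+* B') {p : Fin 7 → B} {t : B}
    {p' : Fin 7 → B'} {t' : B'} (hp : ∀ i, p' i = φ (p i)) (ht : t' = φ t),
    IsPullback (YX.map φ hp ht) (YX.pr B' p' t') (YX.pr B p t) (spMap φ)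

/-- YNB: a basis of `N`, and `N → N ∩ T × N ∩ Q` is injective. -/
def Stmt_YNB : Prop :=
  ∀ (B : Type) [CommRing B] (p : Fin 7 → B) (t : B),
    (∀ v : NN B p t, ∃ c d e f : Polynomial B,
      v = Polynomial.aeval (xN B p t) c + zN B p t * Polynomial.aeval (zN B p t) d +
        Polynomial.aeval (xN B p t) e * aN B p t + Polynomial.aeval (zN B p t) f * bN B p t) ∧
    (∀ c d e f : Polynomial B,
      nT B p t (Polynomial.aeval (xN B p t) c + zN B p t * Polynomial.aeval (zN B p t) d +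
        Polynomial.aeval (xN B p t) e * aN B p t + Polynomial.aeval (zN B p t) f * bN B p t) = 0 →
      nQ B p t (Polynomial.aeval (xN B p t) c + zN B p t * Polynomial.aeval (zN B p t) d +
        Polynomial.aeval (xN B p t) e * aN B p t + Polynomial.aeval (zN B p t) f * bN B p t) = 0 →
      c = 0 ∧ d = 0 ∧ e = 0 ∧ f = 0)

/-- YFP: the charts are flat and of finite presentation. -/
def Stmt_YFP : Prop :=
  ∀ (B : Type) [CommRing B] (p : Fin 7 → B) (t : B),
    ((algebraMap B (NN B p t)).Flat ∧ (algebraMap B (NN B p t)).FinitePresentation) ∧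
    ∀ f : Fin 7 → B, (algebraMap B (A1 B f)).Flat ∧ (algebraMap B (A1 B f)).FinitePresentation

/-- YVE: existence in the valuative criterion. -/
def Stmt_YVE : Prop :=
  ∀ {B : Type} [CommRing B] (p : Fin 7 → B) (t : B) {R K : Type} [CommRing R] [IsDomain R]
    [ValuationRing R] [Field K] [Algebra R K] [IsFractionRing R K] (i₁ : Sp K ⟶ YX B p t)
    (i₂ : Sp R ⟶ Sp B), i₁ ≫ YX.pr B p t = spMap (algebraMap R K) ≫ i₂ →
    ∃ l : Sp R ⟶ YX B p t, spMap (algebraMap R K) ≫ l = i₁ ∧ l ≫ YX.pr B p t = i₂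

/-- YVU: uniqueness in the valuative criterion. -/
def Stmt_YVU : Prop :=
  ∀ {B : Type} [CommRing B] (p : Fin 7 → B) (t : B) {R K : Type} [CommRing R] [IsDomain R]
    [ValuationRing R] [Field K] [Algebra R K] [IsFractionRing R K] (l l' : Sp R ⟶ YX B p t),
    l ≫ YX.pr B p t = l' ≫ YX.pr B p t →
    spMap (algebraMap R K) ≫ l = spMap (algebraMap R K) ≫ l' → l = l'

/-- YPR: the family is proper, flat and of finite presentation. -/
def Stmt_YPR : Prop :=
  ∀ (B : Type) [CommRing B] (p : Fin 7 → B) (t : B), IsProper (YX.pr B p t) ∧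
    Flat (YX.pr B p t) ∧ LocallyOfFinitePresentation (YX.pr B p t)

/-- YHX: for `t` a unit (with inverse `w`) the curve is `y² = p_T(x)`. -/
def Stmt_YHX : Prop :=
  ∀ {B : Type} [CommRing B] (p : Fin 7 → B) (t w : B), t * w = 1 →
    ∃ (g : QQ B p t →+* A2 B (pT p t)) (m : HX B (pT p t) ⟶ YX B p t), IsIso m ∧
      (∀ c, g (algebraMap B _ c) = algebraMap B _ c) ∧
      g (x1 B (pT (rev p) t)) = algebraMap B _ w ^ 2 * x1 B (rev (pT p t)) ∧
      g (y1 B (pT (rev p) t)) = algebraMap B _ w ^ 3 * y1 B (rev (pT p t)) ∧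
      HX.in1 B (pT p t) ≫ m = YX.inT B p t ∧
      HX.in2 B (pT p t) ≫ m = spMap g ≫ YX.inQ B p t ∧
      m ≫ YX.pr B p t = HX.pr B (pT p t)

/-- YAR: the base change of the family along `φ`, if `φ t` is a unit (with inverse `w`). -/
def Stmt_YAR : Prop :=
  ∀ {B B' : Type} [CommRing B] [CommRing B'] (φ : B →+* B') (p : Fin 7 → B) (t : B) (w : B'),
    φ t * w = 1 → ∀ (f : Fin 7 → B') (hf : ∀ i, f i = φ (pT p t i)),
    ∃ (g : QQ B p t →+* A2 B' f) (a : Arrow φ (Hyp f) (Yam p t)),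
      (∀ c, g (algebraMap B _ c) = algebraMap B' _ (φ c)) ∧
      g (x1 B (pT (rev p) t)) = algebraMap B' _ w ^ 2 * x1 B' (rev f) ∧
      g (y1 B (pT (rev p) t)) = algebraMap B' _ w ^ 3 * y1 B' (rev f) ∧
      HX.in1 B' f ≫ a.f = spMap (bc1 φ hf) ≫ YX.inT B p t ∧
      HX.in2 B' f ≫ a.f = spMap g ≫ YX.inQ B p t

/-! ## The condition -/

/-- YOB: base change of the condition. -/
def Stmt_YOB : Prop :=
  ∀ {B B' : Type} [CommRing B] [CommRing B'] (φ : B →+* B') {p : Fin 7 → B} {t : B}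
    {p' : Fin 7 → B'} {t' : B'} (_ : ∀ i, p' i = φ (p i)) (_ : t' = φ t), YOk B p t → YOk B' p' t'

/-- YOU: the condition for `t` a unit. -/
def Stmt_YOU : Prop :=
  ∀ {B : Type} [CommRing B] (p : Fin 7 → B) (t : B), IsUnit t → IsUnit (2 : B) →
    (IsCoprime (pp B (pT p t)) (Polynomial.derivative (pp B (pT p t))) ∧
      IsCoprime (pp B (rev (pT p t))) (Polynomial.derivative (pp B (rev (pT p t)))) ↔ YOk B p t)

/-- YOG: the polynomial `f` as a sequence of coefficients. -/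
def Stmt_YOG : Prop :=
  ∀ {B : Type} [CommRing B] (f : Polynomial B), IsUnit (2 : B) → Two2.Good f →
    pp B (fun i : Fin 7 => f.coeff i) = f ∧ YOk B (fun i : Fin 7 => f.coeff i) 1

/-- YOR: the polynomial `∏ (X - ρ i) ∏ (s² X - r j)`. -/
def Stmt_YOR : Prop :=
  ∀ {B : Type} [CommRing B] (s : B) (ρ r : Fin 3 → B), IsUnit (2 : B) →
    (∀ i j, i ≠ j → IsUnit (ρ i - ρ j)) → (∀ i j, i ≠ j → IsUnit (r i - r j)) →
    (∀ j, IsUnit (r j)) → (∀ i j, IsUnit (r j - s ^ 2 * ρ i)) →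
    ∃ p : Fin 7 → B, YOk B p s ∧ ∀ i : Fin 7, pT p s i =
      ((∏ i, (Polynomial.X - Polynomial.C (ρ i))) *
        ∏ j, (Polynomial.C (s ^ 2) * Polynomial.X - Polynomial.C (r j))).coeff i

/-! ## Smooth charts and the curves `y² = f(x)` over fields -/

/-- The condition that `y² = f(x)` is smooth. -/
structure HSm (B : Type) [CommRing B] (f : Fin 7 → B) : Prop where
  two : IsUnit (2 : B)
  s1 : IsCoprime (pp B f) (Polynomial.derivative (pp B f))
  s2 : IsCoprime (pp B (rev f)) (Polynomial.derivative (pp B (rev f)))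

/-- YSM: the chart `y² = f(x)` is smooth of relative dimension one. -/
def Stmt_YSM : Prop :=
  ∀ (B : Type) [CommRing B] (f : Fin 7 → B), IsUnit (2 : B) →
    IsCoprime (pp B f) (Polynomial.derivative (pp B f)) →
    SmoothOfRelativeDimension 1 (spMap (algebraMap B (A1 B f)))

/-- YHS: the curve `y² = f(x)` is smooth of relative dimension one, and nodal over algebraically
closed fields. -/
def Stmt_YHS : Prop :=
  (∀ (B : Type) [CommRing B] (f : Fin 7 → B), HSm B f →
    SmoothOfRelativeDimension 1 (HX.pr B f)) ∧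
  ∀ (K : Type) [Field K] [IsAlgClosed K] (f : Fin 7 → K), HSm K f → Nodal (HX.pr K f)

/-- YDM: the ring of the curve `y² = f(x)` is a domain. -/
def Stmt_YDM : Prop :=
  ∀ (K : Type) [Field K] (f : Fin 7 → K),
    IsCoprime (pp K f) (Polynomial.derivative (pp K f)) → (∃ i, i ≠ 0 ∧ f i ≠ 0) →
    IsDomain (A1 K f)

/-- YHC: the curve `y² = f(x)` is connected. -/
def Stmt_YHC : Prop :=
  ∀ (K : Type) [Field K] (f : Fin 7 → K), HSm K f → ConnectedSpace (HX K f)

/-- YHG: the genus. -/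
def Stmt_YHG : Prop := ∀ (K : Type) [Field K] (f : Fin 7 → K), HasGenus (HX.pr K f) 2

/-- YDA: derivations of the ring of the curve `y² = f(x)`. -/
def Stmt_YDA : Prop :=
  ∀ {K : Type} [Field K] (f : Fin 7 → K), (2 : K) ≠ 0 →
    IsCoprime (pp K f) (Polynomial.derivative (pp K f)) → ∀ D : Derivation K (A1 K f) (A1 K f),
    ∃ w : A1 K f, D (x1 K f) = 2 * y1 K f * w ∧
      D (y1 K f) = Polynomial.aeval (x1 K f) (Polynomial.derivative (pp K f)) * w

/-- YHR: the curve `y² = f(x)` has no vector fields. -/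
def Stmt_YHR : Prop :=
  ∀ {K : Type} [Field K] (f : Fin 7 → K), HSm K f → ∀ (v : VField (Hyp f)) (U), v.D U = 0

/-! ## The curves `YX K p 0` -/

/-- YCN: the curve is connected. -/
def Stmt_YCN : Prop :=
  ∀ (K : Type) [Field K] (p : Fin 7 → K), YOk K p 0 → ConnectedSpace (YX K p 0)

/-- YSQ: adjoining the square root of a unit is etale. -/
def Stmt_YSQ : Prop :=
  ∀ (A : Type) [CommRing A] (u : A), IsUnit (2 : A) → IsUnit u →
    Etale (spMap (algebraMap A (AdjoinRoot (Polynomial.X ^ 2 - Polynomial.C u)))) ∧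
    Function.Surjective
      (spMap (algebraMap A (AdjoinRoot (Polynomial.X ^ 2 - Polynomial.C u))))

/-- YNN: the points of the chart `N` with `K ≠ 0` have a neighbourhood as in the definition of nodal
curves. -/
def Stmt_YNN : Prop :=
  ∀ (K : Type) [Field K] (p : Fin 7 → K), (2 : K) ≠ 0 → ∀ x : Sp (NN K p 0),
    KN K p 0 ∉ x.asIdeal → ∃ (U : Scheme.{0}) (f : U ⟶ Sp (NN K p 0)) (h : U ⟶ Sp (NodeRing K)),
    Etale f ∧ Etale h ∧ f ≫ spMap (algebraMap K (NN K p 0)) =
      h ≫ spMap (algebraMap K (NodeRing K)) ∧ x ∈ Set.range f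

/-- YND: the curve is nodal. -/
def Stmt_YND : Prop :=
  ∀ (K : Type) [Field K] [IsAlgClosed K] (p : Fin 7 → K), YOk K p 0 → Nodal (YX.pr K p 0)

/-- YUA: the union of the charts `T` and `Q` is affine. -/
def Stmt_YUA : Prop :=
  ∀ (K : Type) [Field K] (p : Fin 7 → K),
    (YX.inT K p 0).opensRange ⊓ (YX.inQ K p 0).opensRange = ⊥ ∧
    IsAffineOpen ((YX.inT K p 0).opensRange ⊔ (YX.inQ K p 0).opensRange)

/-- YGA: the cohomology of the curve in terms of its rings. -/
def Stmt_YGA : Prop :=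
  ∀ (K : Type) [Field K] (p : Fin 7 → K) (a : TN K p 0) (b : QN K p 0),
    (cf (-1) a = 0 ∧ cf (-1) b = 0) ↔ ∃ (n : NN K p 0) (r : TT K p 0) (s : QQ K p 0),
      a = nT K p 0 n + tT K p 0 r ∧ b = nQ K p 0 n + qQ K p 0 s

/-- YGN: the genus. -/
def Stmt_YGN : Prop :=
  ∀ (K : Type) [Field K] (p : Fin 7 → K), HasGenus (YX.pr K p 0) 2

/-- YRA: derivations of the rings of the charts `T`, `N`: the algebra of rigidity. -/
def Stmt_YRA : Prop :=
  ∀ {K : Type} [Field K] (p : Fin 7 → K), (2 : K) ≠ 0 → p 3 ≠ 0 →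
    IsCoprime (pp K (pT p 0)) (Polynomial.derivative (pp K (pT p 0))) →
    ∀ (DT : Derivation K (TT K p 0) (TT K p 0)) (DN : Derivation K (NN K p 0) (NN K p 0))
      (DTN : Derivation K (TN K p 0) (TN K p 0)),
      (∀ v, DTN (tT K p 0 v) = tT K p 0 (DT v)) → (∀ v, DTN (nT K p 0 v) = nT K p 0 (DN v)) →
      DT = 0

/-- YRI: the curve has no vector fields. -/
def Stmt_YRI : Prop :=
  ∀ {K : Type} [Field K] (p : Fin 7 → K), YOk K p 0 → ∀ (v : VField (Yam p 0)) (U), v.D U = 0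

/-! ## Stability -/

/-- YFI: the fibres. -/
def Stmt_YFI : Prop :=
  ∀ {K : Type} [Field K] [IsAlgClosed K] (p : Fin 7 → K) (t : K), YOk K p t →
    StableCurve 2 (Yam p t)

/-- YST: the family is stable. -/
def Stmt_YST : Prop :=
  ∀ {B : Type} [CommRing B] (p : Fin 7 → B) (t : B), YOk B p t → IsStable 2 (Yam p t)

/-- YHT: the curves `y² = f(x)` are stable. -/
def Stmt_YHT : Prop :=
  ∀ {B : Type} [CommRing B] (f : Fin 7 → B), HSm B f → IsStable 2 (Hyp f)

end Pool.Agent.MG.H2
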