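import Pool.Agent.MG.H2.HArr
import Pool.Agent.MG.H2.StmtsY
import Pool.Agent.MG.H2.CFF

/-!
# Bezout data of smooth curves `y² = f(x)`
-/

open Polynomial

namespace Pool.Agent.MG.H2

section

variable {B : Type} [CommRing B] {f : Fin 7 → B}

theorem deriv_pp (f : Fin 7 → B) : derivative (pp B f) = dpol (fun i => C (f i)) X := by
  simp only [pp, pol, dpol, derivative_add, derivative_mul, derivative_C, derivative_X,
    derivative_pow, zero_mul, zero_add, mul_one, Nat.cast_ofNat, Nat.add_one_sub_one, pow_one]
  simp only [map_ofNat]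
  ring

/-- Bezout data. -/
noncomputable def bzOf (h : IsCoprime (pp B f) (derivative (pp B f))) : Bz f where
  a := h.choose
  b := h.choose_spec.choose
  h := (congrArg (fun d => h.choose * pp B f + h.choose_spec.choose * d)
    (deriv_pp f).symm).trans h.choose_spec.choose_spec

theorem Bz.bez (z : Bz f) : Bez f z.a z.b := by
  have := z.h
  rw [Bez, deriv_pp]
  exact this

/-- The data of a smooth curve. -/
noncomputable def HSm.hok (h : HSm B f) : HOk f where
  z := bzOf h.s1
  z' := bzOf h.s2
  sm := RingHom.formallySmooth_algebraMap.2 ((t_CFF B f).2.2 _ _ (bzOf h.s1).bez h.two).2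
  sm' := RingHom.formallySmooth_algebraMap.2
    ((t_CFF B (rev f)).2.2 _ _ (bzOf h.s2).bez h.two).2

end

end Pool.Agent.MG.H2
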