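import Pool.Agent.MG.H2.HCU

/-!
# Every covector of `y² = ∏ (x - r i)` is given by a polynomial
-/

open CategoryTheory CategoryTheory.Limits AlgebraicGeometry Polynomial

namespace Pool.Agent.MG.H2

/-- Interpolation at three of the roots. -/
theorem exists_interp {K : Type} [Field K] (r : Fin 6 → K) (hr : Function.Injective r)
    (v : Fin 3 → K) : ∃ q : K[X], q.natDegree ≤ 2 ∧
      ∀ i : Fin 3, q.eval (r (i.castLE (by norm_num))) = v i := by
  let w : Fin 3 → K := fun i => r (i.castLE (by norm_num))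
  have hw : Set.InjOn w (Finset.univ : Finset (Fin 3)) := by
    intro i _ j _ h
    exact Fin.castLE_injective _ (hr h)
  refine ⟨Lagrange.interpolate Finset.univ w v, ?_, fun i => ?_⟩
  · have h1 := Lagrange.degree_interpolate_lt v hw
    rw [Finset.card_univ, Fintype.card_fin] at h1
    by_cases h0 : Lagrange.interpolate Finset.univ w v = 0
    · rw [h0, natDegree_zero]
      exact Nat.zero_le 2
    · have := (natDegree_lt_iff_degree_lt h0).2 h1
      omega
  · exact Lagrange.eval_interpolate_at_node v hw (Finset.mem_univ i)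

/-- The derivative of `∏ (x - r j)` at `r i`. -/
def dr {K : Type} [Field K] (r : Fin 6 → K) (i : Fin 6) : K :=
  ∏ j ∈ Finset.univ.erase i, (r i - r j)

theorem dr_ne {K : Type} [Field K] (r : Fin 6 → K) (hr : Function.Injective r) (i : Fin 6) :
    dr r i ≠ 0 := by
  refine Finset.prod_ne_zero_iff.2 fun j hj => ?_
  rw [sub_ne_zero]
  exact fun h => Finset.ne_of_mem_erase hj (hr h).symm

/-- Surjectivity. -/
theorem surj_of (hHE : Stmt_HE) (hHTR : Stmt_HTR) (hHLI : Stmt_HLI) (hHBC : Stmt_HBC)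
    {K : Type} [Field K] [CharZero K] (r : Fin 6 → K) (hr : Function.Injective r)
    (hst' : HCU.Stb (rts r)) (cov : K[X] → Cov 2 (Hyp (rts r)))
    (u : K) (hu : u ≠ 0) (hval : ∀ (q : K[X]) (i : Fin 6) hs hc, q.natDegree ≤ 2 →
      (cov q).l (dfm (rts r) (mvr r i) hs hc) = u * q.eval (r i) / dr r i)
    (l : Cov 2 (Hyp (rts r))) : ∃ q : K[X], q.natDegree ≤ 2 ∧ l = cov q := by
  let hs : ∀ i : Fin 6, IsStable 2 (Hyp fun j =>
      (TrivSqZeroExt.inl (rts r j) + TrivSqZeroExt.inr (mvr r i j) : Eps K)) :=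
    fun i => hst'.1 _ fun j => by simp
  let d : Fin 6 → Defo 2 (Hyp (rts r)) := fun i => dfm (rts r) (mvr r i) (hs i) (hHBC _ _)
  obtain ⟨q, hq, hqv⟩ := exists_interp r hr fun i =>
    u⁻¹ * dr r (i.castLE (by norm_num)) * l.l (d (i.castLE (by norm_num)))
  refine ⟨q, hq, hcu_core hHE hHTR hHLI hHBC r hr hst' l (cov q) fun i hs hc => ?_⟩
  rw [hval q _ hs hc hq, hqv]
  have h1 := dr_ne r hr (i.castLE (by norm_num))
  have e : l.l (dfm (rts r) (mvr r (i.castLE (by norm_num))) hs hc) =
      l.l (d (i.castLE (by norm_num))) := rfl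
  rw [e]
  field_simp

end Pool.Agent.MG.H2
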