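import Pool.Agent.MG.H2.GeoA
import Pool.Agent.MG.H2.Surj

/-!
# The remaining inputs of `Mdl`
-/

open CategoryTheory CategoryTheory.Limits AlgebraicGeometry Polynomial

namespace Pool.Agent.MG.H2

/-- VAL: the values of the covectors at the deformations moving one root. -/
def Stmt_VAL : Prop :=
  ∀ {K : Type} [Field K] [Algebra ℂ K] (r : Fin 6 → K), Function.Injective r →
    ∀ (o : HOk (rts r)), ∃ u : K, u ≠ 0 ∧ ∀ (c : Fin 3 → K) (i : Fin 6) (hs) (hc),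
      (hcov o (GeoA.half K) c 2).l (dfm (rts r) (mvr r i) hs hc) =
        u * (c 0 - c 1 * r i + c 2 * r i ^ 2) / dr r i

/-- REG: the family in which the curves degenerate to two elliptic curves. -/
def Stmt_REG : Prop :=
  ∀ {B K : Type} [CommRing B] [IsDomain B] [Field K] [Algebra ℂ B] [Algebra ℂ K]
    (φ : B →ₐ[ℂ] K), Function.Injective φ → ∀ (s : B) (ρ r e : Fin 3 → B), s ≠ 0 →
    (∀ i j, i ≠ j → IsUnit (ρ i - ρ j)) → (∀ i j, i ≠ j → IsUnit (r i - r j)) →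
    (∀ j, IsUnit (r j)) → (∀ i j, IsUnit (r j - s ^ 2 * ρ i)) →
    ∀ (hf : Two2.Good (((∏ i, (X - C (ρ i))) *
      ∏ j, (C (s ^ 2) * X - C (r j)) : B[X]).map (φ : B →+* K))),
    ∃ (x : Fam 0 B) (_ : IsStable 2 x) (l : Cov 2 x) (a : Arrow (φ : B →+* K)
      (Hyp (cf7 (((∏ i, (X - C (ρ i))) *
      ∏ j, (C (s ^ 2) * X - C (r j)) : B[X]).map (φ : B →+* K)))) x),
      Compat a (GeoA.cv _ hf ((C (e 0) + C (s * e 1) * X +
        C (s ^ 2 * e 2) * X ^ 2 : B[X]).map (φ : B →+* K))) l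

end Pool.Agent.MG.H2
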