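import Pool.Agent.MG.H2.HArr
import Pool.Agent.MG.H2.CThk
import Pool.Agent.MG.H2.CFV
import Pool.Agent.MG.H2.StmtsM
import Pool.Agent.MG.H2.HHok

/-!
# The value of the covector of a quadratic polynomial at the deformations moving a root
-/

open CategoryTheory CategoryTheory.Limits AlgebraicGeometry Polynomial

namespace Pool.Agent.MG.H2

section

variable {B : Type} [CommRing B]

/-- The charts. -/
noncomputable def hch (f : Fin 7 → B) : ∀ i : Ct, Sp (hR f i) ⟶ HX B f
  | .T => HX.in1 B f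
  | .N => spMap (g1 B f) ≫ HX.in1 B f
  | .Q => HX.in2 B f

/-- The edges. -/
noncomputable def hche (f : Fin 7 → B) : ∀ e : Bool, Sp (hRE f e) ⟶ HX B f
  | true => spMap (g1 B f) ≫ HX.in1 B f
  | false => spMap (g1 B (rev f)) ≫ HX.in2 B f

instance hch_open (f : Fin 7 → B) : ∀ i : Ct, IsOpenImmersion (hch f i)
  | .T => inferInstanceAs (IsOpenImmersion (HX.in1 B f))
  | .N => inferInstanceAs (IsOpenImmersion (spMap (g1 B f) ≫ HX.in1 B f))
  | .Q => inferInstanceAs (IsOpenImmersion (HX.in2 B f))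

instance hche_open (f : Fin 7 → B) : ∀ e : Bool, IsOpenImmersion (hche f e)
  | true => inferInstanceAs (IsOpenImmersion (spMap (g1 B f) ≫ HX.in1 B f))
  | false => inferInstanceAs (IsOpenImmersion (spMap (g1 B (rev f)) ≫ HX.in2 B f))

theorem hche_pr (f : Fin 7 → B) (e : Bool) : hche f e ≫ HX.pr B f = spMap (hcE f e) := by
  cases e
  · change (spMap (g1 B (rev f)) ≫ HX.in2 B f) ≫ HX.pr B f = _
    rw [Category.assoc, HX.in2_pr, spMap_comp']
    rfl
  · change (spMap (g1 B f) ≫ HX.in1 B f) ≫ HX.pr B f = _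
    rw [Category.assoc, HX.in1_pr, spMap_comp']
    rfl

theorem hche_s (f : Fin 7 → B) (e : Bool) : hche f e = spMap (hjs f e) ≫ hch f (hs e) := by
  cases e <;> rfl

theorem hche_t (f : Fin 7 → B) (e : Bool) : hche f e = spMap (hjt f e) ≫ hch f .N := by
  cases e
  · exact HX.cond'
  · change _ = spMap (RingHom.id _) ≫ _
    rw [spMap_id, Category.id_comp]
    rfl

variable {B' : Type} [CommRing B'] {φ : B →+* B'} {f : Fin 7 → B} {f' : Fin 7 → B'}

theorem HH.ch (h : HH φ f f') (i : Ct) : hch f' i ≫ h.rhom.mor = spMap (h.g i) ≫ hch f i := by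
  cases i
  · exact h.rhom.in1_mor
  · change (spMap (g1 B' f') ≫ HX.in1 B' f') ≫ h.rhom.mor =
      spMap (h.g .N) ≫ spMap (g1 B f) ≫ HX.in1 B f
    rw [Category.assoc, h.rhom.in1_mor, spMap_comp_assoc', spMap_comp_assoc']
    congr 2
    exact RingHom.ext fun v => (h.e1 v).symm
  · exact h.rhom.in2_mor

theorem HH.che (h : HH φ f f') (e : Bool) :
    hche f' e ≫ h.rhom.mor = spMap (h.ge e) ≫ hche f e := by
  cases e
  · change (spMap (g1 B' (rev f')) ≫ HX.in2 B' f') ≫ h.rhom.mor =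
      spMap h.gE ≫ spMap (g1 B (rev f)) ≫ HX.in2 B f
    rw [Category.assoc, h.rhom.in2_mor, spMap_comp_assoc', spMap_comp_assoc']
    congr 2
    exact RingHom.ext fun v => (h.e2 v).symm
  · change (spMap (g1 B' f') ≫ HX.in1 B' f') ≫ h.rhom.mor =
      spMap (h.g .N) ≫ spMap (g1 B f) ≫ HX.in1 B f
    rw [Category.assoc, h.rhom.in1_mor, spMap_comp_assoc', spMap_comp_assoc']
    congr 2
    exact RingHom.ext fun v => (h.e1 v).symm

theorem hhBC_q (hf : ∀ i, f' i = φ (f i)) (i : Ct) (c : Fin 2) :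
    (hhBC φ hf).g i (hq f i c) = hq f' i c := by
  cases i <;> fin_cases c
  · exact bc1_x φ hf
  · exact bc1_y φ hf
  · exact bc12_x φ hf
  · exact bc12_y φ hf
  · exact bc1_x φ (rev_bc φ hf)
  · exact bc1_y φ (rev_bc φ hf)

end

section

variable {K : Type} [Field K] {f h : Fin 7 → K} (o : HOk f)

/-- The coefficients of the deformation. -/
noncomputable abbrev fe (f h : Fin 7 → K) : Fin 7 → Eps K :=
  fun i => TrivSqZeroExt.inl (f i) + TrivSqZeroExt.inr (h i)

theorem fe_eps (f h : Fin 7 → K) (i : Fin 7) : f i = eps0 K (fe f h i) := by simp [fe]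

variable (hs : IsStable 2 (Hyp (fe f h)))
  (hc : IsPullback (HX.map (eps0 K) (f := fe f h) (f' := f) (fun i => by simp)) (HX.pr K f)
      (HX.pr (Eps K) (fe f h)) (spMap (eps0 K)))

/-- The rings of the deformation. -/
noncomputable def dTc : RF.Tc (hCh o) (dfm f h hs hc).thk where
  R := hR (fe f h)
  RE := hRE (fe f h)
  ι := hch (fe f h)
  η := hche (fe f h)
  oi := hch_open (fe f h)
  oe := hche_open (fe f h)
  c := hcE (fe f h)
  q := (hhBC (eps0 K) (fe_eps f h)).g
  qE := (hhBC (eps0 K) (fe_eps f h)).ge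
  js := hjs (fe f h)
  jt := hjt (fe f h)
  hι := fun i => match i with
    | .T => (hhBC (eps0 K) (fe_eps f h)).ch .T
    | .N => (hhBC (eps0 K) (fe_eps f h)).ch .N
    | .Q => (hhBC (eps0 K) (fe_eps f h)).ch .Q
  hη := fun e => match e with
    | true => (hhBC (eps0 K) (fe_eps f h)).che true
    | false => (hhBC (eps0 K) (fe_eps f h)).che false
  hπ := hche_pr (fe f h)
  hs := hche_s (fe f h)
  ht := hche_t (fe f h)

/-- The value of the covector at the deformation. -/
theorem dfm_val (w : K) (c : Fin 3 → K) : ∃ D : ∀ e, hRE (fe f h) e → hRE f e,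
    (∀ e, DerA ((hcE (fe f h) e).comp (TrivSqZeroExt.inlHom K K))
      ((hhBC (eps0 K) (fe_eps f h)).ge e) (D e)) ∧
    (∀ e, D e (hcE (fe f h) e (TrivSqZeroExt.inr 1)) = 1) ∧
    (hcov o w c 2).l (dfm f h hs hc) = ∑ k : Bool, ∑ e : Bool, mab f (cal w c k) (cbe w c k) e
      (∑ a, hjs f e (hp o k (H2.hs e) a) * D e (hjs (fe f h) e (hq (fe f h) (H2.hs e) a)) -
        ∑ a, hjt f e (hp o k .N a) * D e (hjt (fe f h) e (hq (fe f h) .N a))) :=
  (hRM o w c).cov_val (hCh o) (dfm f h hs hc) (dTc o hs hc) (fun _ => hq (fe f h))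
    (fun _ => hhBC_q (fe_eps f h))

/-- The classes of the two forms on the edge at infinity. -/
noncomputable def hcl (D : A12 (Eps K) (rev (fe f h)) → A12 K (rev f)) (k : Bool) : A12 K (rev f) :=
  ∑ a, g1 K (rev f) (hp o k .Q a) * D (g1 (Eps K) (rev (fe f h)) (hq (fe f h) .Q a)) -
    ∑ a, inv12 (rev_h' f) (hp o k .N a) * D (inv12 (rev_h' (fe f h)) (hq (fe f h) .N a))

theorem hcl_false (D : A12 (Eps K) (rev (fe f h)) → A12 K (rev f)) :
    hcl o D false = - (xi (rev f) * hcl o D true) := by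
  have hxu : xi (rev f) * (xu K (rev f) : A12 K (rev f)) = 1 := Units.inv_mul _
  simp only [hcl, hp, Fin.sum_univ_two, Matrix.cons_val_zero, Matrix.cons_val_one, map_mul,
    map_neg, ← xu_val, inv12_x, map_ofNat]
  have e : ((xu K (rev f))⁻¹ : (A12 K (rev f))ˣ).val = xi (rev f) := rfl
  rw [e]
  linear_combination (-(g1 K (rev f) (o.z'.a.eval₂ (algebraMap K (A1 K (rev f))) (x1 K (rev f))) *
    g1 K (rev f) (y1 K (rev f)) * D (xu (Eps K) (rev (fe f h)) : A12 (Eps K) (rev (fe f h))) +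
    2 * g1 K (rev f) (o.z'.b.eval₂ (algebraMap K (A1 K (rev f))) (x1 K (rev f))) *
      D (g1 (Eps K) (rev (fe f h)) (y1 (Eps K) (rev (fe f h)))))) * hxu

theorem hcl_omd (D : A12 (Eps K) (rev (fe f h)) → A12 K (rev f)) :
    inv12 (rev_h f) (hcl o D true) = - omd f (fe f h) o.z.a o.z.b o.z'.a o.z'.b
      (fun v => inv12 (rev_h f) (D (inv12 (rev_h' (fe f h)) v))) := by
  simp only [hcl, hp, hq, omd, Fin.sum_univ_two, Matrix.cons_val_zero, Matrix.cons_val_one, map_mul,
    map_neg, map_sub, map_add, ← xu_val, inv12_x, map_ofNat]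
  have e1 : ∀ v : A12 K f, inv12 (rev_h f) (inv12 (rev_h' f) v) = v := fun v =>
    congrArg (fun g => g v) (inv12_inv12 (rev_h' f) (rev_h f))
  have e2 : ∀ a : K[X], inv12 (rev_h f) (g1 K (rev f)
      (a.eval₂ (algebraMap K (A1 K (rev f))) (x1 K (rev f)))) = aeval (xi f) a := by
    intro a
    rw [g1_ev2, Polynomial.hom_eval₂, inv12_x, aeval_def]
    congr 1
    exact RingHom.ext fun b => inv12_b (rev_h f) b
  have e3 : inv12 (rev_h f) (g1 K (rev f) (y1 K (rev f))) = yv K f * xi f ^ 3 := by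
    rw [g1_y, inv12_y, Units.val_pow_eq_pow_val]
  have e4 : inv12 (rev_h' (fe f h)) (xi (fe f h)) =
      (xu (Eps K) (rev (fe f h)) : A12 (Eps K) (rev (fe f h))) := inv12_xi _
  have e5 : inv12 (rev_h' (fe f h)) (yv (Eps K) (fe f h)) *
      inv12 (rev_h' (fe f h)) (xi (fe f h) ^ 3) =
      g1 (Eps K) (rev (fe f h)) (y1 (Eps K) (rev (fe f h))) := by
    rw [map_pow, e4, inv12_y, g1_y, Units.val_pow_eq_pow_val, mul_assoc, ← mul_pow,
      Units.inv_mul, one_pow, mul_one]
  rw [e1, e1, e1, e2, e2, e3, e4, e5]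
  have e6 : ∀ a : K[X], a.eval₂ (algebraMap K (A12 K f)) (xu K f : A12 K f) = aeval (xx f) a :=
    fun a => rfl
  have e7 : ((xu K f)⁻¹ : (A12 K f)ˣ).val = xi f := rfl
  rw [e6, e6, e7]
  ring

/-- The coefficients of the classes. -/
theorem hcl_cf (r : K) (G : K[X]) (hG : pp K f = (X - C r) * G) (hh : ∀ i : Fin 7, h i = -G.coeff i)
    (h2 : IsUnit (2 : K)) (D : A12 (Eps K) (rev (fe f h)) → A12 K (rev f))
    (hD : DerA ((algebraMap (Eps K) (A12 (Eps K) (rev (fe f h)))).comp
      (TrivSqZeroExt.inlHom K K)) (bc12 (eps0 K) (rev_bc (eps0 K) (fe_eps f h))) D)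
    (hD1 : D (algebraMap (Eps K) _ (TrivSqZeroExt.inr 1)) = 1) :
    cf (-2) (hcl o D true) = o.z.b.eval r ∧ cf (-1) (hcl o D true) = r * o.z.b.eval r ∧
      cf 0 (hcl o D true) = r ^ 2 * o.z.b.eval r := by
  have hD' : DerA ((algebraMap (Eps K) (A12 (Eps K) (fe f h))).comp (TrivSqZeroExt.inlHom K K))
      (bc12 (eps0 K) (fe_eps f h))
      (fun v => inv12 (rev_h f) (D (inv12 (rev_h' (fe f h)) v))) := by
    refine ⟨?_, ?_, ?_⟩
    · intro a b
      rw [map_add, hD.add, map_add]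
    · intro a b
      have e1 : ∀ v, inv12 (rev_h f) (bc12 (eps0 K) (rev_bc (eps0 K) (fe_eps f h))
          (inv12 (rev_h' (fe f h)) v)) = bc12 (eps0 K) (fe_eps f h) v := by
        intro v
        rw [bc12_inv]
        exact congrArg (fun g => g (bc12 (eps0 K) (fe_eps f h) v))
          (inv12_inv12 (rev_h' f) (rev_h f))
      rw [map_mul, hD.mul, map_add, map_mul, map_mul, e1, e1]
    · intro b
      have e1 : inv12 (rev_h' (fe f h)) (((algebraMap (Eps K) (A12 (Eps K) (fe f h))).comp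
          (TrivSqZeroExt.inlHom K K)) b) = ((algebraMap (Eps K) (A12 (Eps K) (rev (fe f h)))).comp
          (TrivSqZeroExt.inlHom K K)) b := inv12_b (rev_h' (fe f h)) _
      rw [e1, hD.const, map_zero]
  have hD1' : (fun v => inv12 (rev_h f) (D (inv12 (rev_h' (fe f h)) v)))
      (algebraMap (Eps K) (A12 (Eps K) (fe f h)) (TrivSqZeroExt.inr 1)) = 1 := by
    change inv12 (rev_h f) (D (inv12 (rev_h' (fe f h)) _)) = 1
    rw [inv12_b (rev_h' (fe f h)), hD1, map_one]
  have key := t_CFV f r G hG (fe f h) (fun i => by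
    rw [fe, hh, TrivSqZeroExt.inr_neg, sub_eq_add_neg]) (fe_eps f h) o.z.a o.z.b o.z'.a o.z'.b
    o.z.bez o.z'.bez h2 _ hD' hD1'
  have k0 := key 0 (by norm_num)
  have k1 := key 1 (by norm_num)
  have k2 := key 2 (by norm_num)
  have hm := hcl_omd (f := f) (h := h) o D
  have c0 := (cf_inv12 (rev_h f) (hcl o D true) (-1)).1
  have c1 := (cf_inv12 (rev_h f) (hcl o D true) (-2)).1
  have c2 := (cf_inv12 (rev_h f) (hcl o D true) (-3)).1
  rw [hm, map_neg] at c0 c1 c2
  norm_num at k0 k1 k2 c0 c1 c2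
  refine ⟨?_, ?_, ?_⟩
  · rw [← c0, k0, neg_neg]
  · rw [← c1, k1, neg_neg]
  · rw [← c2, k2, neg_neg]

/-- The value at the deformation which moves the root `r`. -/
theorem hcov_dfm (w : K) (hw : 2 * w = 1) (c : Fin 3 → K) (r : K) (G : K[X])
    (hG : pp K f = (X - C r) * G) (hh : ∀ i : Fin 7, h i = -G.coeff i) :
    (hcov o w c 2).l (dfm f h hs hc) = -((c 0 - c 1 * r + c 2 * r ^ 2) * o.z.b.eval r) := by
  obtain ⟨D, hD, hD1, hv⟩ := dfm_val o hs hc w c
  have h2 : IsUnit (2 : K) := IsUnit.of_mul_eq_one w hw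
  have hT : ∀ k : Bool, ∑ a, hjs f true (hp o k (H2.hs true) a) *
      D true (hjs (fe f h) true (hq (fe f h) (H2.hs true) a)) -
        ∑ a, hjt f true (hp o k .N a) * D true (hjt (fe f h) true (hq (fe f h) .N a)) = 0 := by
    intro k
    have e1 : ∀ a, g1 K f (hp o k .T a) = hp o k .N a := by
      intro a
      cases k <;> fin_cases a <;>
        simp [hp, g1_ev2, g1_y, ← xu_val, map_ofNat]
    have e2 : ∀ a, g1 (Eps K) (fe f h) (hq (fe f h) .T a) = hq (fe f h) .N a := by
      intro a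
      fin_cases a <;> rfl
    refine sub_eq_zero.2 (Finset.sum_congr rfl fun a _ => ?_)
    change g1 K f (hp o k .T a) * D true (g1 (Eps K) (fe f h) (hq (fe f h) .T a)) =
      hp o k .N a * D true (hq (fe f h) .N a)
    rw [e1, e2]
  have hQ : ∀ k : Bool, ∑ a, hjs f false (hp o k (H2.hs false) a) *
      D false (hjs (fe f h) false (hq (fe f h) (H2.hs false) a)) -
        ∑ a, hjt f false (hp o k .N a) * D false (hjt (fe f h) false (hq (fe f h) .N a)) =
      hcl o (D false) k := fun k => rfl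
  obtain ⟨q0, q1, q2⟩ := hcl_cf o r G hG hh h2 (D false) (hD false) (hD1 false)
  have z0 : ∀ al be : K, mab f al be true (0 : A12 K f) = 0 := by
    intro al be
    change al * cf (f := f) (-1) 0 - be * cf (f := f) (-2) 0 = 0
    rw [map_zero, map_zero]
    ring
  have z1 : ∀ al be : K, ∀ v : A12 K (rev f), mab f al be false v =
      - al * cf (f := rev f) (-2) v + be * cf (f := rev f) (-1) v := fun _ _ _ => rfl
  have f1 : cf (-2) (hcl o (D false) false) = -(r * o.z.b.eval r) := by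
    rw [hcl_false, map_neg, cf_xi]
    norm_num
    exact q1
  have f2 : cf (-1) (hcl o (D false) false) = -(r ^ 2 * o.z.b.eval r) := by
    rw [hcl_false, map_neg, cf_xi]
    norm_num
    exact q2
  rw [hv]
  have key : ∀ k : Bool, ∑ e : Bool, mab f (cal w c k) (cbe w c k) e
      (∑ a, hjs f e (hp o k (H2.hs e) a) * D e (hjs (fe f h) e (hq (fe f h) (H2.hs e) a)) -
        ∑ a, hjt f e (hp o k .N a) * D e (hjt (fe f h) e (hq (fe f h) .N a))) =
      - cal w c k * cf (f := rev f) (-2) (hcl o (D false) k) +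
        cbe w c k * cf (f := rev f) (-1) (hcl o (D false) k) := by
    intro k
    rw [Fintype.sum_bool, hT k, hQ k, ← z1]
    exact (congrArg (fun t => t + _) (z0 _ _)).trans (zero_add _)
  rw [Fintype.sum_bool, key, key, q0, q1, f1, f2]
  simp only [cal, cbe]
  linear_combination (c 1 * r * o.z.b.eval r) * hw

end

/-- VAL. -/
theorem t_VAL : Stmt_VAL := by
  intro K _ _ r hr o
  refine ⟨-1, neg_ne_zero.2 one_ne_zero, fun c i hs hc => ?_⟩
  set P : K[X] := ∏ j, (X - C (r j)) with hP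
  set G : K[X] := ∏ j ∈ Finset.univ.erase i, (X - C (r j)) with hG
  have hPG : P = (X - C (r i)) * G := (Finset.mul_prod_erase _ _ (Finset.mem_univ i)).symm
  have hdeg : P.natDegree ≤ 6 := by
    rw [hP, natDegree_prod_of_monic _ _ (fun j _ => monic_X_sub_C _)]
    simp
  have hpp : pp K (rts r) = P := GeoN.pp_cf7 hdeg
  have h1 := hcov_dfm (f := rts r) (h := mvr r i) o hs hc (GeoA.half K) GeoA.two_half c (r i) G
    (hpp.trans hPG) (fun j => rfl)
  rw [h1]
  have h2 := congrArg (fun p => p.eval (r i)) o.z.h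
  have h3 : pol (fun j => C (rts r j)) X = P := hpp
  have h4 : dpol (fun j => C (rts r j)) X = derivative P := by
    rw [← hpp, deriv_pp]
  rw [h3, h4, hPG] at h2
  simp only [eval_add, eval_mul, eval_sub, eval_X, eval_C, sub_self, zero_mul, mul_zero, zero_add,
    derivative_mul, derivative_sub, derivative_X, derivative_C, sub_zero, one_mul, add_zero,
    eval_one] at h2
  have h5 : G.eval (r i) = dr r i := by
    rw [hG, eval_prod, dr]
    exact Finset.prod_congr rfl fun j _ => by simp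
  rw [h5] at h2
  have h6 := dr_ne r hr i
  have h7 : o.z.b.eval (r i) = (dr r i)⁻¹ := eq_inv_of_mul_eq_one_left h2
  rw [h7]
  ring

end Pool.Agent.MG.H2
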