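import Pool.Agent.MG.H2.StmtsY
import Pool.Agent.MG.FIS

/-!
# The arrow from `y² = f(x)` to the family `Yam p t`
-/

open CategoryTheory CategoryTheory.Limits AlgebraicGeometry TensorProduct

namespace Pool.Agent.MG.H2

theorem t_YAR (hBC : Stmt_YBC) (hHX : Stmt_YHX) : Stmt_YAR := by
  intro B B' _ _ φ p t w htw f hf
  obtain rfl : f = pT (fun i => φ (p i)) (φ t) := by
    funext i
    rw [hf, pT_map]
  obtain ⟨g, m, hm, g1, g2, g3, m1, m2, m3⟩ := hHX (fun i => φ (p i)) (φ t) w htw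
  have h1 : IsPullback (YX.map φ (fun _ => rfl) rfl) (YX.pr B' (fun i => φ (p i)) (φ t))
    (YX.pr B p t) (spMap φ) := hBC φ (fun _ => rfl) rfl
  have hc : IsPullback (m ≫ YX.map φ (fun _ => rfl) rfl) (HX.pr B' (pT (fun i => φ (p i)) (φ t)))
      (YX.pr B p t) (spMap φ) :=
    IsPullback.of_iso h1 (asIso m).symm (Iso.refl _) (Iso.refl _) (Iso.refl _)
      (by simp) (by simp [← m3]) (by simp) (by simp)
  refine ⟨g.comp (bc1 φ (pT_bc φ (rev_bc φ (fun _ => rfl)) rfl)),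
    ⟨m ≫ YX.map φ (fun _ => rfl) rfl, hc, fun i => i.elim0⟩, ?_, ?_, ?_, ?_, ?_⟩
  · intro c
    rw [RingHom.comp_apply, bc1_b, g1]
  · rw [RingHom.comp_apply, bc1_x]
    exact g2
  · rw [RingHom.comp_apply, bc1_y]
    exact g3
  · change HX.in1 B' _ ≫ m ≫ YX.map φ (fun _ => rfl) rfl = _
    rw [← Category.assoc, m1, YX.inT_map]
  · change HX.in2 B' _ ≫ m ≫ YX.map φ (fun _ => rfl) rfl = _
    rw [← Category.assoc, m2, Category.assoc, YX.inQ_map, ← Category.assoc, spMap_comp']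

end Pool.Agent.MG.H2
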