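import Pool.Agent.MG.H2.StmtsH
import Pool.Agent.MG.Bub.BlBC

/-!
# HBC: the base change square of the curves `y² = f(x)`
-/

open CategoryTheory CategoryTheory.Limits AlgebraicGeometry TensorProduct

namespace Pool.Agent.MG.H2.HBC

open PrimeSpectrum

section

variable (B : Type) [CommRing B] (f : Fin 7 → B)

/-- The range of the intersection in the first chart. -/
theorem range_g1 (x : Sp (A1 B f)) :
    x ∈ Set.range (spMap (g1 B f)) ↔ x1 B f ∉ x.asIdeal := by
  have h : Set.range (PrimeSpectrum.comap (algebraMap (A1 B f) (A12 B f))) =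
      (PrimeSpectrum.basicOpen (x1 B f) : Set _) :=
    PrimeSpectrum.localization_away_comap_range (A12 B f) (x1 B f)
  change x ∈ Set.range (PrimeSpectrum.comap (algebraMap (A1 B f) (A12 B f))) ↔ _
  rw [h]
  rfl

/-- The range of the intersection in the chart at infinity. -/
theorem range_g2 (y : Sp (A2 B f)) :
    y ∈ Set.range (spMap (g2 B f)) ↔ x1 B (rev f) ∉ y.asIdeal := by
  rw [← range_g1 B (rev f) y]
  have h1 : g2 B f = (invEquiv (rev_h f) (rev_h' f) : A12 B (rev f) →+* A12 B f).comp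
      (g1 B (rev f)) := rfl
  have h2 : Set.range (PrimeSpectrum.comap (g2 B f)) =
      Set.range (PrimeSpectrum.comap (g1 B (rev f))) := by
    rw [h1, PrimeSpectrum.comap_comp]
    have h3 : Function.Surjective (PrimeSpectrum.comap
        (invEquiv (rev_h f) (rev_h' f) : A12 B (rev f) →+* A12 B f)) :=
      (PrimeSpectrum.comapEquiv (invEquiv (rev_h f) (rev_h' f))).symm.surjective
    exact h3.range_comp _
  change y ∈ Set.range (PrimeSpectrum.comap (g2 B f)) ↔
    y ∈ Set.range (PrimeSpectrum.comap (g1 B (rev f)))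
  rw [h2]

end

section

variable {B B' : Type} [CommRing B] [CommRing B'] (φ : B →+* B') {f : Fin 7 → B}
  {f' : Fin 7 → B'}

theorem sq1 (hf : ∀ i, f' i = φ (f i)) :
    IsPullback (spMap (bc1 φ hf)) (spMap (algebraMap B' (A1 B' f')))
      (spMap (algebraMap B (A1 B f))) (spMap φ) := by
  apply spec_isPullback
  · exact RingHom.ext fun c => bc1_b φ hf c
  · intro T _ F G h
    have hc : ∀ c, F (algebraMap B _ c) = G (φ c) := fun c => congrArg (fun H => H c) h
    have hr := congrArg F (rel1 B f)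
    rw [map_pow, pol_map] at hr
    simp only [hc] at hr
    refine ⟨lift1 G (F (x1 B f)) (F (y1 B f)) (by rw [hr]; simp only [hf]), ?_, ?_⟩
    · refine hom1_ext ?_ ?_ ?_
      · intro c
        rw [RingHom.comp_apply, bc1_b, lift1_b, hc]
      · rw [RingHom.comp_apply, bc1_x, lift1_x]
      · rw [RingHom.comp_apply, bc1_y, lift1_y]
    · refine RingHom.ext fun c => ?_
      rw [RingHom.comp_apply, lift1_b]
  · intro T _ k k' h1 h2
    refine hom1_ext ?_ ?_ ?_
    · exact fun c => congrArg (fun F => F c) h2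
    · have := congrArg (fun F => F (x1 B f)) h1
      simpa using this
    · have := congrArg (fun F => F (y1 B f)) h1
      simpa using this

theorem sq2 (hf : ∀ i, f' i = φ (f i)) :
    IsPullback (spMap (bc2 φ hf)) (spMap (algebraMap B' (A2 B' f')))
      (spMap (algebraMap B (A2 B f))) (spMap φ) :=
  sq1 φ (rev_bc φ hf)

end

end Pool.Agent.MG.H2.HBC

namespace Pool.Agent.MG.H2

/-- The base change square. -/
theorem t_HBC : Stmt_HBC := by
  intro B B' _ _ φ f f' hf
  refine cart_two (HX.in1_map φ hf) (HX.in2_map φ hf)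
    (glue2_surj (spMap (g1 B f)) (spMap (g2 B f)))
    (glue2_surj (spMap (g1 B' f')) (spMap (g2 B' f'))) ?_ ?_ ?_ ?_ (HX.map_pr φ hf)
  · intro y hy
    obtain ⟨x, hx⟩ := hy
    obtain ⟨w, -, hw⟩ := glue2_eq (spMap (g1 B f)) (spMap (g2 B f)) x _ hx
    have h1 := (HBC.range_g2 B f _).1 ⟨w, hw⟩
    have h2 : x1 B' (rev f') ∉ y.asIdeal := by
      intro h3
      apply h1
      change bc2 φ hf (x1 B (rev f)) ∈ y.asIdeal
      rwa [bc2_u]
    obtain ⟨w', hw'⟩ := (HBC.range_g2 B' f' y).2 h2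
    refine ⟨spMap (g1 B' f') w', ?_⟩
    rw [← hw', ← Scheme.Hom.comp_apply, ← Scheme.Hom.comp_apply]
    exact congrArg (fun (ψ : Sp (A12 B' f') ⟶ HX B' f') => ψ w')
      (pushout.condition (f := spMap (g1 B' f')) (g := spMap (g2 B' f')))
  · intro x hx
    obtain ⟨y, hy⟩ := hx
    obtain ⟨w, hw, -⟩ := glue2_eq (spMap (g1 B f)) (spMap (g2 B f)) _ y hy.symm
    have h1 := (HBC.range_g1 B f _).1 ⟨w, hw⟩
    have h2 : x1 B' f' ∉ x.asIdeal := by
      intro h3
      apply h1
      change bc1 φ hf (x1 B f) ∈ x.asIdeal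
      rwa [bc1_x]
    obtain ⟨w', hw'⟩ := (HBC.range_g1 B' f' x).2 h2
    refine ⟨spMap (g2 B' f') w', ?_⟩
    rw [← hw', ← Scheme.Hom.comp_apply, ← Scheme.Hom.comp_apply]
    exact congrArg (fun (ψ : Sp (A12 B' f') ⟶ HX B' f') => ψ w')
      (pushout.condition (f := spMap (g1 B' f')) (g := spMap (g2 B' f'))).symm
  · rw [HX.in1_pr, HX.in1_pr]
    exact HBC.sq1 φ hf
  · rw [HX.in2_pr, HX.in2_pr]
    exact HBC.sq2 φ hf

end Pool.Agent.MG.H2
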