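import Pool.Agent.MG.H2.StmtsY
import Pool.Agent.MG.H2.HBC

/-!
# YBC: the base change square of the family `YX B p t` (helper98)
-/

open CategoryTheory CategoryTheory.Limits AlgebraicGeometry TensorProduct

namespace Pool.Agent.MG.H2

namespace YBC

variable {B B' : Type} [CommRing B] [CommRing B'] (φ : B →+* B') {p : Fin 7 → B} {t : B}
    {p' : Fin 7 → B'} {t' : B'} (hp : ∀ i, p' i = φ (p i)) (ht : t' = φ t)

/-- The square of the chart `N`. -/
theorem sqN : IsPullback (spMap (bcN φ hp ht)) (spMap (algebraMap B' (NN B' p' t')))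
    (spMap (algebraMap B (NN B p t))) (spMap φ) := by
  apply spec_isPullback
  · exact RingHom.ext fun c => bcN_c φ hp ht c
  · intro T _ F G h
    have hc : ∀ c, F (algebraMap B _ c) = G (φ c) := fun c => congrArg (fun H => H c) h
    have hr := (relN B p t).map F
    have h1 : (fun i => F (algebraMap B (NN B p t) (p i))) = fun i => G (p' i) := by
      funext i
      rw [hc, hp]
    have h2 : F (algebraMap B (NN B p t) t) = G t' := by rw [hc, ht]
    rw [h1, h2] at hr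
    refine ⟨liftN G (F (zN B p t)) (F (xN B p t)) (F (aN B p t)) (F (bN B p t)) hr, ?_, ?_⟩
    · refine homN_ext ?_ ?_ ?_ ?_ ?_
      · intro c
        rw [RingHom.comp_apply, bcN_c, liftN_c, hc]
      · rw [RingHom.comp_apply, bcN_z, liftN_z]
      · rw [RingHom.comp_apply, bcN_x, liftN_x]
      · rw [RingHom.comp_apply, bcN_a, liftN_a]
      · rw [RingHom.comp_apply, bcN_b, liftN_b]
    · refine RingHom.ext fun c => ?_
      rw [RingHom.comp_apply, liftN_c]
  · intro T _ k k' h1 h2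
    refine homN_ext ?_ ?_ ?_ ?_ ?_
    · exact fun c => congrArg (fun F => F c) h2
    · have := congrArg (fun F => F (zN B p t)) h1
      simpa using this
    · have := congrArg (fun F => F (xN B p t)) h1
      simpa using this
    · have := congrArg (fun F => F (aN B p t)) h1
      simpa using this
    · have := congrArg (fun F => F (bN B p t)) h1
      simpa using this

/-- The base change of `N ∪ T`. -/
noncomputable def mNT : YNT B' p' t' ⟶ YNT B p t :=
  YNT.desc (spMap (bcN φ hp ht) ≫ YNT.inN B p t)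
    (spMap (bc1 φ (pT_bc φ hp ht)) ≫ YNT.inT B p t) (by
      have h1 : (nT B' p' t').comp (bcN φ hp ht) = (bc12 φ (pT_bc φ hp ht)).comp (nT B p t) :=
        RingHom.ext fun v => (bcN_nT φ hp ht v).symm
      have h2 : (tT B' p' t').comp (bc1 φ (pT_bc φ hp ht)) =
          (bc12 φ (pT_bc φ hp ht)).comp (tT B p t) :=
        RingHom.ext fun v => (bc12_g1 φ (pT_bc φ hp ht) v).symm
      rw [← Category.assoc, ← Category.assoc, spMap_comp', spMap_comp', h1, h2, ← spMap_comp',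
        ← spMap_comp', Category.assoc, Category.assoc, YNT.condT])

theorem inN_mNT : YNT.inN B' p' t' ≫ mNT φ hp ht = spMap (bcN φ hp ht) ≫ YNT.inN B p t :=
  YNT.inN_desc _ _ _

theorem inT_mNT : YNT.inT B' p' t' ≫ mNT φ hp ht =
    spMap (bc1 φ (pT_bc φ hp ht)) ≫ YNT.inT B p t :=
  YNT.inT_desc _ _ _

theorem inNT_map : YX.inNT B' p' t' ≫ YX.map φ hp ht = mNT φ hp ht ≫ YX.inNT B p t := by
  refine YNT.ext ?_ ?_
  · have h := YX.inN_map φ hp ht
    rw [YX.inN, YX.inN, Category.assoc] at h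
    rw [h, ← Category.assoc (YNT.inN B' p' t') (mNT φ hp ht), inN_mNT, Category.assoc]
  · have h := YX.inT_map φ hp ht
    rw [YX.inT, YX.inT, Category.assoc] at h
    rw [h, ← Category.assoc (YNT.inT B' p' t') (mNT φ hp ht), inT_mNT, Category.assoc]

theorem inN_prNT : YNT.inN B p t ≫ YX.inNT B p t ≫ YX.pr B p t = spMap (algebraMap B _) := by
  have h := YX.inN_pr B p t
  rw [YX.inN, Category.assoc] at h
  exact h

theorem inT_prNT : YNT.inT B p t ≫ YX.inNT B p t ≫ YX.pr B p t = spMap (algebraMap B _) := by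
  have h := YX.inT_pr B p t
  rw [YX.inT, Category.assoc] at h
  exact h

/-! ### points -/

theorem mem_bcN_x {x : Sp (NN B' p' t')} (h : xN B p t ∉ (spMap (bcN φ hp ht) x).asIdeal) :
    xN B' p' t' ∉ x.asIdeal := by
  intro h3
  apply h
  change bcN φ hp ht (xN B p t) ∈ x.asIdeal
  rwa [bcN_x]

theorem mem_bcN_z {x : Sp (NN B' p' t')} (h : zN B p t ∉ (spMap (bcN φ hp ht) x).asIdeal) :
    zN B' p' t' ∉ x.asIdeal := by
  intro h3
  apply h
  change bcN φ hp ht (zN B p t) ∈ x.asIdeal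
  rwa [bcN_z]

theorem mem_bc1 {f : Fin 7 → B} {f' : Fin 7 → B'} (hf : ∀ i, f' i = φ (f i))
    {x : Sp (A1 B' f')} (h : x1 B f ∉ (spMap (bc1 φ hf) x).asIdeal) :
    x1 B' f' ∉ x.asIdeal := by
  intro h3
  apply h
  change bc1 φ hf (x1 B f) ∈ x.asIdeal
  rwa [bc1_x]

theorem condT_pt (w : Sp (TN B p t)) :
    YNT.inN B p t (spMap (nT B p t) w) = YNT.inT B p t (spMap (tT B p t) w) := by
  rw [← Scheme.Hom.comp_apply, ← Scheme.Hom.comp_apply]
  exact congrArg (fun (ψ : Sp (TN B p t) ⟶ YNT B p t) => ψ w) (YNT.condT B p t)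

theorem condQ_pt (w : Sp (QN B p t)) :
    YX.inNT B p t (YNT.inN B p t (spMap (nQ B p t) w)) = YX.inQ B p t (spMap (qQ B p t) w) := by
  rw [← Scheme.Hom.comp_apply, ← Scheme.Hom.comp_apply, ← Scheme.Hom.comp_apply]
  exact congrArg (fun (ψ : Sp (QN B p t) ⟶ YX B p t) => ψ w) (YX.condQ B p t)

theorem mNT_inN (x : Sp (NN B' p' t')) :
    mNT φ hp ht (YNT.inN B' p' t' x) = YNT.inN B p t (spMap (bcN φ hp ht) x) := by
  rw [← Scheme.Hom.comp_apply, ← Scheme.Hom.comp_apply]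
  exact congrArg (fun (ψ : Sp (NN B' p' t') ⟶ YNT B p t) => ψ x) (inN_mNT φ hp ht)

theorem mNT_inT (x : Sp (TT B' p' t')) :
    mNT φ hp ht (YNT.inT B' p' t' x) =
      YNT.inT B p t (spMap (bc1 φ (pT_bc φ hp ht)) x) := by
  rw [← Scheme.Hom.comp_apply, ← Scheme.Hom.comp_apply]
  exact congrArg (fun (ψ : Sp (TT B' p' t') ⟶ YNT B p t) => ψ x) (inT_mNT φ hp ht)

/-- The base change square of `N ∪ T`. -/
theorem sqNT : IsPullback (mNT φ hp ht) (YX.inNT B' p' t' ≫ YX.pr B' p' t')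
    (YX.inNT B p t ≫ YX.pr B p t) (spMap φ) := by
  refine cart_two (inN_mNT φ hp ht) (inT_mNT φ hp ht) YNT.surj YNT.surj ?_ ?_ ?_ ?_ ?_
  · rintro y ⟨x, hx⟩
    obtain ⟨w, -, hw⟩ := YNT.meet x _ hx
    obtain ⟨w', hw'⟩ := (range_g1 B' y).2 (mem_bc1 φ _ ((range_g1 B _).1 ⟨w, hw⟩))
    exact ⟨spMap (nT B' p' t') w', by rw [condT_pt, hw']⟩
  · rintro x ⟨y, hy⟩
    obtain ⟨w, hw, -⟩ := YNT.meet _ y hy.symm
    obtain ⟨w', hw'⟩ := (range_nT B' p' t' x).2 (mem_bcN_x φ hp ht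
      ((range_nT B p t _).1 ⟨w, hw⟩))
    exact ⟨spMap (tT B' p' t') w', by rw [← condT_pt, hw']⟩
  · rw [inN_prNT, inN_prNT]
    exact sqN φ hp ht
  · rw [inT_prNT, inT_prNT]
    exact HBC.sq1 φ (pT_bc φ hp ht)
  · rw [← Category.assoc, ← inNT_map, Category.assoc, YX.map_pr, Category.assoc]

end YBC

open YBC in
/-- YBC: the base change square -/
theorem t_YBC : Stmt_YBC := by
  intro B B' _ _ φ p t p' t' hp ht
  refine cart_two (inNT_map φ hp ht) (YX.inQ_map φ hp ht) YX.surj YX.surj ?_ ?_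
    (sqNT φ hp ht) ?_ (YX.map_pr φ hp ht)
  · rintro y ⟨x, hx⟩
    obtain ⟨w, -, hw⟩ := YX.meet x _ hx
    obtain ⟨w', hw'⟩ := (range_g1 B' y).2 (mem_bc1 φ _ ((range_g1 B _).1 ⟨w, hw⟩))
    exact ⟨YNT.inN B' p' t' (spMap (nQ B' p' t') w'), by rw [condQ_pt, hw']⟩
  · rintro x ⟨y, hy⟩
    obtain ⟨w, hw, -⟩ := YX.meet _ y hy.symm
    rw [Scheme.Hom.comp_apply] at hw
    -- points of `N`
    have key : ∀ n : Sp (NN B' p' t'), YNT.inN B p t (spMap (nQ B p t) w) =
        mNT φ hp ht (YNT.inN B' p' t' n) →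
        YX.inNT B' p' t' (YNT.inN B' p' t' n) ∈ Set.range (YX.inQ B' p' t') := by
      intro n hn
      rw [mNT_inN] at hn
      have h1 := (YNT.inN B p t).isOpenEmbedding.injective hn
      obtain ⟨w', hw'⟩ := (range_nQ B' p' t' n).2 (mem_bcN_z φ hp ht
        ((range_nQ B p t _).1 ⟨w, h1⟩))
      exact ⟨spMap (qQ B' p' t') w', by rw [← condQ_pt, hw']⟩
    rcases YNT.surj x with ⟨n, rfl⟩ | ⟨τ, rfl⟩
    · exact key n hw
    · have h2 := hw
      rw [mNT_inT] at h2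
      obtain ⟨v, -, hv⟩ := YNT.meet _ _ h2
      obtain ⟨v', hv'⟩ := (range_g1 B' τ).2 (mem_bc1 φ _ ((range_g1 B _).1 ⟨v, hv⟩))
      have h3 : YNT.inT B' p' t' τ = YNT.inN B' p' t' (spMap (nT B' p' t') v') := by
        rw [condT_pt, hv']
      rw [h3] at hw ⊢
      exact key _ hw
  · rw [YX.inQ_pr, YX.inQ_pr]
    exact HBC.sq1 φ (pT_bc φ (rev_bc φ hp) ht)

end Pool.Agent.MG.H2
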