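import Pool.Agent.MG.H2.StmtsY

/-!
# The curve `YX K p 0` is connected (module YCN)
-/

open CategoryTheory CategoryTheory.Limits AlgebraicGeometry TensorProduct

namespace Pool.Agent.MG.H2.YCN

section

variable (K : Type) [Field K] (p : Fin 7 → K)

theorem rel0 : NRel (fun i => (RingHom.id K) (p i)) ((RingHom.id K) 0) 0 0 0 0 where
  zx := by simp
  aa := by simp
  bb := by simp
  ab := by simp
  xb := by simp
  za := by simp

/-- The value at the node. -/
noncomputable def ev : NN K p 0 →+* K :=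
  liftN (RingHom.id K) 0 0 0 0 (rel0 K p)

@[simp] theorem ev_z : ev K p (zN K p 0) = 0 := liftN_z _ _ _ _ _ _
@[simp] theorem ev_x : ev K p (xN K p 0) = 0 := liftN_x _ _ _ _ _ _
@[simp] theorem ev_a : ev K p (aN K p 0) = 0 := liftN_a _ _ _ _ _ _
@[simp] theorem ev_b : ev K p (bN K p 0) = 0 := liftN_b _ _ _ _ _ _
@[simp] theorem ev_c (c : K) : ev K p (algebraMap K _ c) = c := liftN_c _ _ _ _ _ _ _

theorem ev_aeval_x (c : Polynomial K) :
    ev K p (Polynomial.aeval (xN K p 0) c) = c.coeff 0 := by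
  rw [Polynomial.aeval_def, Polynomial.hom_eval₂, ev_x]
  have : (ev K p).comp (algebraMap K (NN K p 0)) = RingHom.id K :=
    RingHom.ext fun c => ev_c K p c
  rw [this, Polynomial.eval₂_id, Polynomial.coeff_zero_eq_eval_zero]

theorem ev_surj : Function.Surjective (ev K p) := fun c => ⟨algebraMap K _ c, ev_c K p c⟩

theorem zx0 : zN K p 0 * xN K p 0 = 0 := by
  rw [(relN K p 0).zx, map_zero]
  simp

theorem xb0 : xN K p 0 * bN K p 0 = 0 := by
  rw [(relN K p 0).xb, map_zero, zero_mul]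

theorem za0 : zN K p 0 * aN K p 0 = 0 := by
  rw [(relN K p 0).za, map_zero, zero_mul]

/-- The kernel of the restriction to `T`. -/
theorem kerT (hNB : Stmt_YNB) (v : NN K p 0) (hv : nT K p 0 v = 0) : ev K p v = 0 := by
  obtain ⟨h1, h2⟩ := hNB K p 0
  obtain ⟨c, d, e, f, rfl⟩ := h1 v
  have h3 : xN K p 0 * (Polynomial.aeval (xN K p 0) c + zN K p 0 * Polynomial.aeval (zN K p 0) d +
      Polynomial.aeval (xN K p 0) e * aN K p 0 + Polynomial.aeval (zN K p 0) f * bN K p 0) =
      Polynomial.aeval (xN K p 0) (Polynomial.X * c) +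
        zN K p 0 * Polynomial.aeval (zN K p 0) (0 : Polynomial K) +
      Polynomial.aeval (xN K p 0) (Polynomial.X * e) * aN K p 0 +
        Polynomial.aeval (zN K p 0) (0 : Polynomial K) * bN K p 0 := by
    simp only [map_mul, Polynomial.aeval_X, map_zero, mul_zero, zero_mul, add_zero]
    linear_combination Polynomial.aeval (zN K p 0) d * zx0 K p +
      Polynomial.aeval (zN K p 0) f * xb0 K p
  have h4 := h2 (Polynomial.X * c) 0 (Polynomial.X * e) 0 (by
    rw [← h3, map_mul, hv, mul_zero]) (by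
    rw [← h3, map_mul, nQ_x, map_zero]
    simp)
  have h5 : c = 0 := by
    have := h4.1
    rwa [mul_eq_zero, or_iff_right Polynomial.X_ne_zero] at this
  rw [h5]
  simp

/-- The kernel of the restriction to `Q`. -/
theorem kerQ (hNB : Stmt_YNB) (v : NN K p 0) (hv : nQ K p 0 v = 0) : ev K p v = 0 := by
  obtain ⟨h1, h2⟩ := hNB K p 0
  obtain ⟨c, d, e, f, rfl⟩ := h1 v
  obtain ⟨c', hc⟩ : ∃ c' : Polynomial K, c = Polynomial.C (c.coeff 0) + Polynomial.X * c' := by
    refine ⟨c.divX, ?_⟩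
    rw [mul_comm, add_comm]
    exact (Polynomial.divX_mul_X_add c).symm
  have hcx : Polynomial.aeval (xN K p 0) c = algebraMap K _ (c.coeff 0) +
      xN K p 0 * Polynomial.aeval (xN K p 0) c' := by
    conv_lhs => rw [hc]
    rw [map_add, map_mul, Polynomial.aeval_C, Polynomial.aeval_X]
  have h3 : zN K p 0 * (Polynomial.aeval (xN K p 0) c + zN K p 0 * Polynomial.aeval (zN K p 0) d +
      Polynomial.aeval (xN K p 0) e * aN K p 0 + Polynomial.aeval (zN K p 0) f * bN K p 0) =
      Polynomial.aeval (xN K p 0) (0 : Polynomial K) +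
        zN K p 0 * Polynomial.aeval (zN K p 0) (Polynomial.C (c.coeff 0) + Polynomial.X * d) +
      Polynomial.aeval (xN K p 0) (0 : Polynomial K) * aN K p 0 +
        Polynomial.aeval (zN K p 0) (Polynomial.X * f) * bN K p 0 := by
    rw [hcx]
    simp only [map_mul, map_add, Polynomial.aeval_X, Polynomial.aeval_C, map_zero, zero_mul,
      add_zero, zero_add]
    linear_combination Polynomial.aeval (xN K p 0) c' * zx0 K p +
      Polynomial.aeval (xN K p 0) e * za0 K p
  have h4 := h2 0 (Polynomial.C (c.coeff 0) + Polynomial.X * d) 0 (Polynomial.X * f) (by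
    rw [← h3, map_mul, nT_z, map_zero]
    simp) (by
    rw [← h3, map_mul, hv, mul_zero])
  have h5 : c.coeff 0 = 0 := by
    have := congrArg (fun q => Polynomial.coeff q 0) h4.2.1
    simpa using this
  rw [map_add, map_add, map_add, map_mul, map_mul, map_mul, ev_aeval_x, ev_z, ev_a, ev_b, h5]
  simp

/-- The node. -/
noncomputable def ndp : PrimeSpectrum (NN K p 0) :=
  ⟨RingHom.ker (ev K p), RingHom.ker_isPrime (ev K p)⟩

/-- The node. -/
noncomputable def nd : Sp (NN K p 0) := ndp K p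

theorem cl_gen {A : Type} [CommRing A] (g : NN K p 0 →+* A)
    (hg : ∀ v, g v = 0 → ev K p v = 0) :
    ndp K p ∈ closure (Set.range (PrimeSpectrum.comap g)) := by
  rw [PrimeSpectrum.closure_range_comap, PrimeSpectrum.mem_zeroLocus]
  intro v hv
  exact hg v hv

theorem nd_ideal : (nd K p).asIdeal = RingHom.ker (ev K p) := rfl

theorem nd_T (hNB : Stmt_YNB) : nd K p ∈ closure (Set.range (spMap (nT K p 0))) :=
  cl_gen K p (nT K p 0) fun v hv => kerT K p hNB v hv

theorem nd_Q (hNB : Stmt_YNB) : nd K p ∈ closure (Set.range (spMap (nQ K p 0))) :=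
  cl_gen K p (nQ K p 0) fun v hv => kerQ K p hNB v hv

/-- A point at which `z` and `ξ` vanish is the node. -/
theorem eq_nd (hNB : Stmt_YNB) (y : Sp (NN K p 0)) (hz : zN K p 0 ∈ y.asIdeal)
    (hx : xN K p 0 ∈ y.asIdeal) : y = nd K p := by
  have hp : y.asIdeal.IsPrime := y.isPrime
  have ha : aN K p 0 ∈ y.asIdeal := by
    refine hp.mem_of_pow_mem 2 ?_
    rw [(relN K p 0).aa]
    exact Ideal.mul_mem_right _ _ hx
  have hb : bN K p 0 ∈ y.asIdeal := by
    refine hp.mem_of_pow_mem 2 ?_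
    rw [(relN K p 0).bb]
    exact Ideal.mul_mem_right _ _ hz
  have hle : RingHom.ker (ev K p) ≤ y.asIdeal := by
    intro v hv
    rw [RingHom.mem_ker] at hv
    obtain ⟨c, d, e, f, rfl⟩ := (hNB K p 0).1 v
    rw [map_add, map_add, map_add, map_mul, map_mul, map_mul, ev_aeval_x, ev_z, ev_a, ev_b,
      zero_mul, mul_zero, mul_zero, add_zero, add_zero, add_zero] at hv
    obtain ⟨c', hc⟩ := Polynomial.X_dvd_iff.2 hv
    have hc2 : Polynomial.aeval (xN K p 0) c ∈ y.asIdeal := by
      rw [hc, map_mul, Polynomial.aeval_X]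
      exact Ideal.mul_mem_right _ _ hx
    exact add_mem (add_mem (add_mem hc2 (Ideal.mul_mem_right _ _ hz)) (Ideal.mul_mem_left _ _ ha))
      (Ideal.mul_mem_left _ _ hb)
  have hmax : (RingHom.ker (ev K p)).IsMaximal := RingHom.ker_isMaximal_of_surjective _
    (ev_surj K p)
  have heq : RingHom.ker (ev K p) = y.asIdeal := hmax.eq_of_le hp.ne_top hle
  exact PrimeSpectrum.ext heq.symm

theorem p3_ne (h : YOk K p 0) : p 3 ≠ 0 := by
  obtain ⟨a, b, hab⟩ := h.sN
  have h1 := congrArg (ev K p) hab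
  have h2 : ev K p (KN K p 0) = p 3 := by
    rw [KN, KK_map]
    simp [KK]
  have h3 : ev K p (EN K p 0) = 0 := by
    rw [EN, EE_map]
    simp [EE]
  rw [map_add, map_mul, map_mul, h2, h3, mul_zero, add_zero, map_one] at h1
  intro h4
  rw [h4, mul_zero] at h1
  exact zero_ne_one h1

theorem pre {A : Type} [CommRing A] [IsDomain A] {X : Scheme.{0}} (f : Sp A ⟶ X) :
    _root_.IsPreconnected (Set.range f) := by
  have h1 : _root_.IsPreconnected (Set.univ : Set (Sp A)) := by
    have : IrreducibleSpace (PrimeSpectrum A) := inferInstance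
    have h2 : PreconnectedSpace (PrimeSpectrum A) := inferInstance
    exact h2.isPreconnected_univ
  rw [← Set.image_univ]
  exact h1.image _ f.continuous.continuousOn

theorem mem_cl {A A' C : Type} [CommRing A] [CommRing A'] [CommRing C] {X : Scheme.{0}}
    (i : Sp A ⟶ X) (j : Sp A' ⟶ X) (g : A →+* C) (g' : A' →+* C)
    (hc : spMap g ≫ i = spMap g' ≫ j) (y : Sp A) (hy : y ∈ closure (Set.range (spMap g))) :
    i y ∈ closure (Set.range j) := by
  have h1 : i y ∈ closure (i '' Set.range (spMap g)) :=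
    image_closure_subset_closure_image i.continuous ⟨y, hy, rfl⟩
  refine closure_mono ?_ h1
  rintro _ ⟨_, ⟨w, rfl⟩, rfl⟩
  refine ⟨spMap g' w, ?_⟩
  rw [← Scheme.Hom.comp_apply, ← Scheme.Hom.comp_apply, hc]

theorem conn (hDM : Stmt_YDM) (hNB : Stmt_YNB) (h : YOk K p 0) : ConnectedSpace (YX K p 0) := by
  have h3 := p3_ne K p h
  have hT : IsDomain (TT K p 0) := hDM K (pT p 0) h.sT ⟨3, by decide, by simpa [pT] using h3⟩
  have hQ : IsDomain (QQ K p 0) := hDM K (pT (rev p) 0) h.sQ ⟨3, by decide, by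
    have : rev p 3 = p 3 := rfl
    simpa [pT, this] using h3⟩
  set n : YX K p 0 := YX.inN K p 0 (nd K p) with hn
  have cT : n ∈ closure (Set.range (YX.inT K p 0)) :=
    mem_cl _ _ _ _ (YX.condT K p 0) _ (nd_T K p hNB)
  have cQ : n ∈ closure (Set.range (YX.inQ K p 0)) :=
    mem_cl _ _ _ _ (YX.condQ K p 0) _ (nd_Q K p hNB)
  have pTn : _root_.IsPreconnected (insert n (Set.range (YX.inT K p 0))) :=
    (pre (YX.inT K p 0)).subset_closure (Set.subset_insert _ _)
      (Set.insert_subset cT subset_closure)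
  have pQn : _root_.IsPreconnected (insert n (Set.range (YX.inQ K p 0))) :=
    (pre (YX.inQ K p 0)).subset_closure (Set.subset_insert _ _)
      (Set.insert_subset cQ subset_closure)
  have hU : insert n (Set.range (YX.inT K p 0)) ∪ insert n (Set.range (YX.inQ K p 0)) =
      Set.univ := by
    rw [Set.eq_univ_iff_forall]
    intro x
    rcases YX.surj3 x with hx | ⟨y, rfl⟩ | hx
    · exact Or.inl (Or.inr hx)
    · by_cases hxy : xN K p 0 ∈ y.asIdeal
      · by_cases hzy : zN K p 0 ∈ y.asIdeal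
        · rw [eq_nd K p hNB y hzy hxy]
          exact Or.inl (Or.inl rfl)
        · obtain ⟨w, rfl⟩ := (range_nQ K p 0 y).2 hzy
          refine Or.inr (Or.inr ⟨spMap (qQ K p 0) w, ?_⟩)
          rw [← Scheme.Hom.comp_apply, ← Scheme.Hom.comp_apply, YX.condQ]
      · obtain ⟨w, rfl⟩ := (range_nT K p 0 y).2 hxy
        refine Or.inl (Or.inr ⟨spMap (tT K p 0) w, ?_⟩)
        rw [← Scheme.Hom.comp_apply, ← Scheme.Hom.comp_apply, YX.condT]
    · exact Or.inr (Or.inr hx)
  have hp : _root_.IsPreconnected (Set.univ : Set (YX K p 0)) := by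
    rw [← hU]
    exact _root_.IsPreconnected.union n (Set.mem_insert _ _) (Set.mem_insert _ _) pTn pQn
  have : PreconnectedSpace (YX K p 0) := ⟨hp⟩
  exact ⟨⟨n⟩⟩

end

end Pool.Agent.MG.H2.YCN

namespace Pool.Agent.MG.H2

theorem t_YCN (hDM : Stmt_YDM) (hNB : Stmt_YNB) : Stmt_YCN :=
  fun K _ p h => YCN.conn K p hDM hNB h

end Pool.Agent.MG.H2
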