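import Pool.Agent.MG.H2.StmtsY

/-!
# Derivations of the ring of the curve `y² = f(x)`
-/

namespace Pool.Agent.MG.H2

namespace YDA

open Polynomial

variable {K : Type} [Field K] (f : Fin 7 → K)

theorem rel : y1 K f ^ 2 = aeval (x1 K f) (pp K f) := by
  rw [rel1, pp]
  have h := pol_map (aeval (x1 K f) : K[X] →ₐ[K] A1 K f).toRingHom (fun i => C (f i)) X
  have h1 : (aeval (x1 K f) : K[X] →ₐ[K] A1 K f).toRingHom X = x1 K f := aeval_X _
  have h2 : ∀ c : K, (aeval (x1 K f) : K[X] →ₐ[K] A1 K f).toRingHom (C c) =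
      algebraMap K (A1 K f) c := fun c => aeval_C _ c
  rw [h1] at h
  simp only [h2] at h
  exact h.symm

/-- The identity, in any ring. -/
theorem key {R : Type} [CommRing R] (h y F F' A C Dx Dy : R) (hh : 2 * h = 1)
    (hb : A * F + C * F' = 1) (hy : y ^ 2 = F) (hd : 2 * y * Dy = F' * Dx) :
    Dx = 2 * y * (h * (A * y * Dx + 2 * C * Dy)) ∧
      Dy = F' * (h * (A * y * Dx + 2 * C * Dy)) := by
  refine ⟨?_, ?_⟩
  · linear_combination (-(y * (A * y * Dx + 2 * C * Dy))) * hh - Dx * hb - A * Dx * hy - C * hd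
  · linear_combination (-(Dy)) * hh - 2 * h * Dy * hb - 2 * h * A * Dy * hy + h * A * y * hd

end YDA

open YDA Polynomial in
theorem t_YDA : Stmt_YDA := by
  intro K _ f h2 hc D
  obtain ⟨A, C, hb⟩ := hc
  have hb' : aeval (x1 K f) A * aeval (x1 K f) (pp K f) +
      aeval (x1 K f) C * aeval (x1 K f) (derivative (pp K f)) = 1 := by
    rw [← map_mul, ← map_mul, ← map_add, hb, map_one]
  have hd : 2 * y1 K f * D (y1 K f) = aeval (x1 K f) (derivative (pp K f)) * D (x1 K f) := by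
    have h := congrArg D (rel f)
    rw [Derivation.leibniz_pow, Derivation.map_aeval] at h
    simpa [mul_assoc, two_mul, two_smul, add_mul] using h
  have hh : (2 : A1 K f) * algebraMap K (A1 K f) (2⁻¹) = 1 := by
    have h3 : (2 : A1 K f) = algebraMap K (A1 K f) 2 := (map_ofNat (algebraMap K (A1 K f)) 2).symm
    rw [h3, ← map_mul, mul_inv_cancel₀ h2, map_one]
  obtain ⟨h4, h5⟩ := key _ (y1 K f) _ _ _ _ (D (x1 K f)) (D (y1 K f)) hh hb' (rel f) hd
  exact ⟨_, h4, h5⟩

end Pool.Agent.MG.H2
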