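import Pool.Agent.MG.H2.StmtsY
import Pool.Agent.MG.FIS

/-!
# The fibres of the families `Yam p t`
-/

open CategoryTheory CategoryTheory.Limits AlgebraicGeometry TensorProduct

namespace Pool.Agent.MG.H2

theorem t_YFI (hCN : Stmt_YCN) (hND : Stmt_YND) (hGN : Stmt_YGN) (hRI : Stmt_YRI)
    (hHX : Stmt_YHX) (hOU : Stmt_YOU) (hHC : Stmt_YHC) (hHS : Stmt_YHS) (hHG : Stmt_YHG)
    (hHR : Stmt_YHR) : Stmt_YFI := by
  intro K _ _ p t h
  by_cases ht : t = 0
  · subst ht
    exact
      { connected := hCN K p h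
        nodal := hND K p h
        genus := hGN K p
        distinct := fun i => i.elim0
        smooth := fun i => i.elim0
        rigid := hRI p h }
  · have hu : IsUnit t := isUnit_iff_ne_zero.2 ht
    obtain ⟨s1, s2⟩ := (hOU p t hu h.two).2 h
    have hs : HSm K (pT p t) := ⟨h.two, s1, s2⟩
    have hH : StableCurve 2 (Hyp (pT p t)) :=
      { connected := hHC K _ hs
        nodal := hHS.2 K _ hs
        genus := hHG K _
        distinct := fun i => i.elim0
        smooth := fun i => i.elim0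
        rigid := hHR _ hs }
    obtain ⟨g, m, hm, -, -, -, -, -, m3⟩ := hHX p t t⁻¹ (mul_inv_cancel₀ ht)
    have hid : IsIso (spMap (RingHom.id K)) := by
      rw [FIS.spMap_id]
      infer_instance
    obtain ⟨mi, hmi, hm1⟩ : ∃ mi : YX K p t ⟶ HX K (pT p t), IsIso mi ∧ mi ≫ m = 𝟙 _ :=
      ⟨inv m, inferInstance, IsIso.inv_hom_id m⟩
    have hc : IsPullback mi (YX.pr K p t) (HX.pr K (pT p t)) (spMap (RingHom.id K)) := by
      refine IsPullback.of_horiz_isIso ⟨?_⟩
      rw [FIS.spMap_id, Category.comp_id, ← m3, ← Category.assoc, hm1, Category.id_comp]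
    exact t_FIS.2 2 (Yam p t) (Hyp (pT p t)) ⟨mi, hc, fun i => i.elim0⟩ hmi hH

end Pool.Agent.MG.H2
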