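import Pool.Agent.MG.H2.StmtsY

/-!
# The charts are flat and of finite presentation
-/

open CategoryTheory CategoryTheory.Limits AlgebraicGeometry TensorProduct

namespace Pool.Agent.MG.H2

namespace YFP

/-! ## The chart `y² = f(x)` -/

section flat

variable (B : Type) [CommRing B] (f : Fin 7 → B)

/-- The monic equation over `B[x]`. -/
noncomputable def F1 : Polynomial (Polynomial B) :=
  Polynomial.X ^ 2 - Polynomial.C (pp B f)

theorem F1_monic : (F1 B f).Monic := Polynomial.monic_X_pow_sub_C _ two_ne_zero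

/-- The free algebra. -/
abbrev M1 : Type := AdjoinRoot (F1 B f)

theorem flatM1 : (algebraMap B (M1 B f)).Flat := by
  have h1 : Module.Free (Polynomial B) (M1 B f) := (F1_monic B f).free_adjoinRoot
  have h2 : Module.Flat B (M1 B f) := Module.Flat.trans B (Polynomial B) (M1 B f)
  exact (RingHom.flat_algebraMap_iff).2 h2

theorem pp_map {R : Type} [CommRing R] (g : Polynomial B →+* R) :
    g (pp B f) = pol (fun i => g (Polynomial.C (f i))) (g Polynomial.X) := by
  rw [pp, pol_map]

theorem ev1 {R : Type} [CommRing R] (g : Polynomial B →+* R) (r : R) :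
    Polynomial.eval₂ g r (F1 B f) =
      r ^ 2 - pol (fun i => g (Polynomial.C (f i))) (g Polynomial.X) := by
  rw [F1, Polynomial.eval₂_sub, Polynomial.eval₂_X_pow, Polynomial.eval₂_C, pp_map]

theorem relM1 : AdjoinRoot.root (F1 B f) ^ 2 =
    pol (fun i => algebraMap B (M1 B f) (f i)) (AdjoinRoot.of (F1 B f) Polynomial.X) := by
  have h := AdjoinRoot.eval₂_root (F1 B f)
  rw [ev1] at h
  exact sub_eq_zero.1 h

/-- The comparison with the free algebra. -/
noncomputable def c1 : A1 B f →+* M1 B f :=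
  lift1 (algebraMap B (M1 B f)) (AdjoinRoot.of (F1 B f) Polynomial.X)
    (AdjoinRoot.root (F1 B f)) (relM1 B f)

/-- The inverse comparison. -/
noncomputable def d1 : M1 B f →+* A1 B f :=
  AdjoinRoot.lift (Polynomial.eval₂RingHom (algebraMap B (A1 B f)) (x1 B f)) (y1 B f) (by
    have h := rel1 B f
    rw [ev1]
    simp only [Polynomial.coe_eval₂RingHom, Polynomial.eval₂_X, Polynomial.eval₂_C]
    rw [h, sub_self])

theorem d1_C (c : B) : d1 B f (AdjoinRoot.of (F1 B f) (Polynomial.C c)) = algebraMap B _ c := by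
  rw [d1, AdjoinRoot.lift_of]
  simp only [Polynomial.coe_eval₂RingHom, Polynomial.eval₂_C]

theorem d1_X : d1 B f (AdjoinRoot.of (F1 B f) Polynomial.X) = x1 B f := by
  rw [d1, AdjoinRoot.lift_of]
  simp only [Polynomial.coe_eval₂RingHom, Polynomial.eval₂_X]

theorem d1_root : d1 B f (AdjoinRoot.root (F1 B f)) = y1 B f := by
  rw [d1, AdjoinRoot.lift_root]

theorem d1_c1 : (d1 B f).comp (c1 B f) = RingHom.id _ := by
  refine hom1_ext ?_ ?_ ?_
  · intro c
    simp only [RingHom.comp_apply, c1, lift1_b, RingHom.id_apply]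
    exact d1_C B f c
  · simp only [RingHom.comp_apply, c1, lift1_x, RingHom.id_apply]
    exact d1_X B f
  · simp only [RingHom.comp_apply, c1, lift1_y, RingHom.id_apply]
    exact d1_root B f

theorem c1_d1 : (c1 B f).comp (d1 B f) = RingHom.id _ := by
  refine Ideal.Quotient.ringHom_ext ?_
  refine Polynomial.ringHom_ext' (Polynomial.ringHom_ext ?_ ?_) ?_
  · intro c
    change c1 B f (d1 B f (AdjoinRoot.of (F1 B f) (Polynomial.C c))) = _
    rw [d1_C, c1, lift1_b]
    rfl
  · change c1 B f (d1 B f (AdjoinRoot.of (F1 B f) Polynomial.X)) = _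
    rw [d1_X, c1, lift1_x]
    rfl
  · change c1 B f (d1 B f (AdjoinRoot.root (F1 B f))) = _
    rw [d1_root, c1, lift1_y]
    rfl

theorem flat1 : (algebraMap B (A1 B f)).Flat := by
  have h1 : algebraMap B (A1 B f) = (d1 B f).comp (algebraMap B (M1 B f)) := by
    refine RingHom.ext fun c => ?_
    exact (d1_C B f c).symm
  have h2 : Function.Bijective (d1 B f) :=
    ⟨Function.LeftInverse.injective (g := c1 B f) fun v => RingHom.congr_fun (c1_d1 B f) v,
      Function.RightInverse.surjective (g := c1 B f) fun v => RingHom.congr_fun (d1_c1 B f) v⟩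
  rw [h1]
  exact RingHom.Flat.comp (flatM1 B f) (RingHom.Flat.of_bijective h2)

theorem fp1 : (algebraMap B (A1 B f)).FinitePresentation := by
  rw [RingHom.finitePresentation_algebraMap]
  exact Algebra.FinitePresentation.quotient ⟨{eq1 B f}, by simp⟩

end flat

/-! ## The chart `N` -/

section N

variable (B : Type) [CommRing B] (p : Fin 7 → B) (t : B)

theorem NI_fg : (NI B p t).FG := by
  classical
  refine ⟨{MvPolynomial.X 0 * MvPolynomial.X 1 - MvPolynomial.C t ^ 2,
    MvPolynomial.X 2 ^ 2 - MvPolynomial.X 1 *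
      KK (fun i => MvPolynomial.C (p i)) (MvPolynomial.X 0) (MvPolynomial.X 1),
    MvPolynomial.X 3 ^ 2 - MvPolynomial.X 0 *
      KK (fun i => MvPolynomial.C (p i)) (MvPolynomial.X 0) (MvPolynomial.X 1),
    MvPolynomial.X 2 * MvPolynomial.X 3 - MvPolynomial.C t *
      KK (fun i => MvPolynomial.C (p i)) (MvPolynomial.X 0) (MvPolynomial.X 1),
    MvPolynomial.X 1 * MvPolynomial.X 3 - MvPolynomial.C t * MvPolynomial.X 2,
    MvPolynomial.X 0 * MvPolynomial.X 2 - MvPolynomial.C t * MvPolynomial.X 3}, ?_⟩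
  rw [NI]
  congr 1
  simp only [Finset.coe_insert, Finset.coe_singleton]

theorem fpN : (algebraMap B (NN B p t)).FinitePresentation := by
  rw [RingHom.finitePresentation_algebraMap]
  exact Algebra.FinitePresentation.quotient (NI_fg B p t)

/-- The parametrisation of `N` by four polynomials. -/
noncomputable def par : (Polynomial B × Polynomial B) × (Polynomial B × Polynomial B) →ₗ[B]
    NN B p t where
  toFun v := Polynomial.aeval (xN B p t) v.1.1 + zN B p t * Polynomial.aeval (zN B p t) v.1.2 +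
        Polynomial.aeval (xN B p t) v.2.1 * aN B p t + Polynomial.aeval (zN B p t) v.2.2 * bN B p t
  map_add' v w := by
    simp only [Prod.fst_add, Prod.snd_add, map_add]
    ring
  map_smul' c v := by
    simp only [Prod.smul_fst, Prod.smul_snd, map_smul, RingHom.id_apply]
    simp only [smul_add, mul_smul_comm, smul_mul_assoc]

theorem par_bij (hNB : Stmt_YNB) : Function.Bijective (par B p t) := by
  obtain ⟨h1, h2⟩ := hNB B p t
  constructor
  · rw [← LinearMap.ker_eq_bot, LinearMap.ker_eq_bot']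
    rintro ⟨⟨c, d⟩, ⟨e, f⟩⟩ hv
    have hv' : Polynomial.aeval (xN B p t) c + zN B p t * Polynomial.aeval (zN B p t) d +
        Polynomial.aeval (xN B p t) e * aN B p t +
        Polynomial.aeval (zN B p t) f * bN B p t = 0 := hv
    obtain ⟨rfl, rfl, rfl, rfl⟩ := h2 c d e f (by rw [hv', map_zero]) (by rw [hv', map_zero])
    rfl
  · intro v
    obtain ⟨c, d, e, f, h⟩ := h1 v
    exact ⟨((c, d), (e, f)), h.symm⟩

theorem flatN (hNB : Stmt_YNB) : (algebraMap B (NN B p t)).Flat := by
  have h1 : Module.Free B (NN B p t) :=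
    Module.Free.of_equiv (LinearEquiv.ofBijective (par B p t) (par_bij B p t hNB))
  exact (RingHom.flat_algebraMap_iff).2 inferInstance

end N

end YFP

theorem t_YFP (hNB : Stmt_YNB) : Stmt_YFP := fun B _ p t =>
  ⟨⟨YFP.flatN B p t hNB, YFP.fpN B p t⟩, fun f => ⟨YFP.flat1 B f, YFP.fp1 B f⟩⟩

end Pool.Agent.MG.H2
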