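import Pool.Agent.MG.H2.StmtsY
import Pool.Agent.MG.H2.Cf2

/-!
# The cohomology of the curve `YX K p 0` in terms of its rings (PAPER_Y, YGA)
-/

open Polynomial

namespace Pool.Agent.MG.H2

namespace YGA

theorem hom_aeval {B R S : Type} [CommRing B] [CommRing R] [CommRing S] [Algebra B R] [Algebra B S]
    (g : R →+* S) (h : ∀ c, g (algebraMap B R c) = algebraMap B S c) (x : R) (p : B[X]) :
    g (aeval x p) = aeval (g x) p := by
  rw [aeval_def, aeval_def, hom_eval₂]
  congr 1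
  exact RingHom.ext h

section

variable {B : Type} [CommRing B] {f : Fin 7 → B}

theorem g2_eq (p q : B[X]) : g2 B f (aeval (x1 B (rev f)) p + aeval (x1 B (rev f)) q *
    y1 B (rev f)) = aeval (xi f) p + aeval (xi f) q * (yv B f * xi f ^ 3) := by
  rw [map_add, map_mul, hom_aeval (g2 B f) (g2_b B f), hom_aeval (g2 B f) (g2_b B f), g2_u, g2_v,
    Units.val_pow_eq_pow_val]

theorem xx_xi : xx f * xi f = 1 := Units.mul_inv _

/-- The coefficient of `Y/X` of a function on `N`. -/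
theorem cf_low (c e : B[X]) : cf (-1) (aeval (xi f) c + aeval (xi f) e * (yv B f * xi f ^ 2)) = 0 := by
  have h1 : aeval (xi f) e * (yv B f * xi f ^ 2) =
      xx f * g2 B f (aeval (x1 B (rev f)) (0 : B[X]) + aeval (x1 B (rev f)) e * y1 B (rev f)) := by
    rw [g2_eq, map_zero, zero_add]
    linear_combination -(aeval (xi f) e * yv B f * xi f ^ 2) * xx_xi (f := f)
  have h2 : aeval (xi f) c =
      g2 B f (aeval (x1 B (rev f)) c + aeval (x1 B (rev f)) (0 : B[X]) * y1 B (rev f)) := by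
    rw [g2_eq, map_zero, zero_mul, add_zero]
  rw [h1, map_add, cf_x, cf_g2 (by norm_num), add_zero, h2, cf_g2 (by norm_num)]

/-- The decomposition of a function without the coefficient of `Y/X`. -/
theorem decomp0 (a : A12 B f) (ha : cf (-1) a = 0) : ∃ (P Q : B[X]) (r : A1 B f),
    a = xi f * aeval (xi f) P + aeval (xi f) Q * (yv B f * xi f ^ 2) + g1 B f r := by
  obtain ⟨r, b, h⟩ := decomp a
  obtain ⟨p, q, rfl⟩ := span1 b
  rw [ha, map_zero, zero_mul, add_zero, g2_eq] at h
  refine ⟨divX p, q * X + C (cf (-2) a), r + algebraMap B _ (p.coeff 0), ?_⟩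
  have hp : aeval (xi f) p = xi f * aeval (xi f) (divX p) + algebraMap B _ (p.coeff 0) := by
    conv_lhs => rw [← divX_mul_X_add p]
    rw [map_add, map_mul, aeval_X, aeval_C, mul_comm]
  conv_lhs => rw [h]
  rw [hp, map_add, map_mul, aeval_X, aeval_C, map_add, g1_b]
  ring

end

section

variable {K : Type} [Field K] (p : Fin 7 → K)

theorem nT_aeval (c : K[X]) : nT K p 0 (aeval (xN K p 0) c) = aeval (xi (pT p 0)) c := by
  rw [hom_aeval (nT K p 0) (nT_c K p 0), nT_x]

/-- Functions on `N` have no coefficient of `Y/X`. -/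
theorem cf_nT (hNB : Stmt_YNB) (n : NN K p 0) : cf (-1) (nT K p 0 n) = 0 := by
  obtain ⟨c, d, e, f, rfl⟩ := (hNB K p 0).1 n
  have h : nT K p 0 (aeval (xN K p 0) c + zN K p 0 * aeval (zN K p 0) d +
      aeval (xN K p 0) e * aN K p 0 + aeval (zN K p 0) f * bN K p 0) =
      aeval (xi (pT p 0)) c + aeval (xi (pT p 0)) e * (yv K (pT p 0) * xi (pT p 0) ^ 2) := by
    simp only [map_add, map_mul, nT_aeval, nT_z, nT_a, nT_b, map_zero, zero_mul, mul_zero,
      ne_eq, OfNat.ofNat_ne_zero, not_false_eq_true, zero_pow, add_zero]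
  rw [h]
  exact cf_low c e

/-- The restriction to `N ∩ T` of a function in the ideal of `Q`. -/
theorem nT_el (P Q : K[X]) : nT K p 0 (xN K p 0 * aeval (xN K p 0) P + aeval (xN K p 0) Q *
    aN K p 0) = xi (pT p 0) * aeval (xi (pT p 0)) P +
      aeval (xi (pT p 0)) Q * (yv K (pT p 0) * xi (pT p 0) ^ 2) := by
  rw [map_add, map_mul, map_mul, nT_aeval, nT_aeval, nT_x, nT_a]

theorem nQ_el (P Q : K[X]) : nQ K p 0 (xN K p 0 * aeval (xN K p 0) P + aeval (xN K p 0) Q *
    aN K p 0) = 0 := by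
  simp only [map_add, map_mul, nQ_x, nQ_a, map_zero, zero_mul, mul_zero, ne_eq,
      OfNat.ofNat_ne_zero, not_false_eq_true, zero_pow, add_zero]

theorem sw_sw (v : NN K (rev p) 0) : swN (rev_h p) 0 (swN (rev_h' p) 0 v) = v := by
  have h := RingHom.congr_fun (swN_swN (t := 0) (p := rev p) (p' := p) (rev_h p) (rev_h' p)) v
  rw [RingHom.comp_apply, RingHom.id_apply] at h
  exact h

/-- The same function on the other side. -/
noncomputable def el (P Q : K[X]) : NN K p 0 :=
  swN (rev_h' p) 0 (xN K (rev p) 0 * aeval (xN K (rev p) 0) P + aeval (xN K (rev p) 0) Q *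
    aN K (rev p) 0)

theorem nQ_el' (P Q : K[X]) : nQ K p 0 (el p P Q) = xi (pT (rev p) 0) *
    aeval (xi (pT (rev p) 0)) P +
      aeval (xi (pT (rev p) 0)) Q * (yv K (pT (rev p) 0) * xi (pT (rev p) 0) ^ 2) := by
  rw [← nT_el, nQ, el, RingHom.comp_apply, sw_sw]

theorem nT_el' (P Q : K[X]) : nT K p 0 (el p P Q) = 0 := by
  rw [el]
  simp only [map_add, map_mul, swN_x, swN_a, nT_z, nT_b, map_zero, zero_mul, mul_zero, ne_eq,
      OfNat.ofNat_ne_zero, not_false_eq_true, zero_pow, add_zero]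

end

end YGA

theorem t_YGA (hNB : Stmt_YNB) : Stmt_YGA := by
  intro K _ p a b
  constructor
  · rintro ⟨ha, hb⟩
    obtain ⟨P, Q, r, h⟩ := YGA.decomp0 a ha
    obtain ⟨P', Q', s, h'⟩ := YGA.decomp0 b hb
    refine ⟨(xN K p 0 * aeval (xN K p 0) P + aeval (xN K p 0) Q * aN K p 0) + YGA.el p P' Q',
      r, s, ?_, ?_⟩
    · rw [map_add, YGA.nT_el, YGA.nT_el', add_zero]
      exact h
    · rw [map_add, YGA.nQ_el, YGA.nQ_el', zero_add]
      exact h'
  · rintro ⟨n, r, s, rfl, rfl⟩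
    constructor
    · rw [map_add, YGA.cf_nT p hNB, zero_add]
      exact cf_g1 (by norm_num) r
    · rw [map_add, cf_g1 (by norm_num) s, add_zero, nQ, RingHom.comp_apply]
      exact YGA.cf_nT (rev p) hNB _

end Pool.Agent.MG.H2
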