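import Pool.Agent.MG.H2.StmtsY
import Pool.Agent.MG.H2.Cf
import Pool.Agent.MG.Bub.Open

/-!
# YGN: the genus of the curves `YX K p 0`
-/

set_option linter.unusedSectionVars false

open CategoryTheory CategoryTheory.Limits AlgebraicGeometry TensorProduct

namespace Pool.Agent.MG.H2

namespace YGN

theorem evO_eq {A : Type} [CommRing A] {X : Scheme.{0}} {i i' : Sp A ⟶ X} (e : i = i')
    {U : X.Opens} (h : ⊤ ≤ i ⁻¹ᵁ U) (h' : ⊤ ≤ i' ⁻¹ᵁ U) (a : Γ(X, U)) :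
    evO i U h a = evO i' U h' a := by
  subst e
  rfl

section Three

variable {K N T Q MT MQ : Type} [Field K] [CommRing N] [CommRing T] [CommRing Q] [CommRing MT]
  [CommRing MQ] {X : Scheme.{0}} (π : X ⟶ Sp K) (iN : Sp N ⟶ X) (iT : Sp T ⟶ X) (iQ : Sp Q ⟶ X)
  [IsOpenImmersion iN] [IsOpenImmersion iT] [IsOpenImmersion iQ]
  (nT : N →+* MT) (tT : T →+* MT) (nQ : N →+* MQ) (qQ : Q →+* MQ)

/-- The genus of a curve with three affine charts `N`, `T`, `Q` such that `T` and `Q` are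
disjoint. -/
theorem genus_three (hT : spMap nT ≫ iN = spMap tT ≫ iT) (hQ : spMap nQ ≫ iN = spMap qQ ≫ iQ)
    (oT : IsOpenImmersion (spMap nT ≫ iN)) (oQ : IsOpenImmersion (spMap nQ ≫ iN))
    (mT : ∀ x y, iN x = iT y → iN x ∈ Set.range (spMap nT ≫ iN))
    (mQ : ∀ x y, iN x = iQ y → iN x ∈ Set.range (spMap nQ ≫ iN))
    (hTQ : ∀ x y, iT x ≠ iQ y) (haff : IsAffineOpen (iT.opensRange ⊔ iQ.opensRange))
    (cov : ∀ x : X, x ∈ Set.range iT ∨ x ∈ Set.range iN ∨ x ∈ Set.range iQ)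
    (κT : K →+* MT) (hκT : (spMap nT ≫ iN) ≫ π = spMap κT)
    (κQ : K →+* MQ) (hκQ : (spMap nQ ≫ iN) ≫ π = spMap κQ)
    (LT : MT →+ K) (LQ : MQ →+ K) (lT : ∀ c s, LT (κT c * s) = c * LT s)
    (lQ : ∀ c s, LQ (κQ c * s) = c * LQ s) (sT : ∀ c, ∃ s, LT s = c) (sQ : ∀ c, ∃ s, LQ s = c)
    (ker : ∀ a b, (LT a = 0 ∧ LQ b = 0) ↔ ∃ n r s, a = nT n + tT r ∧ b = nQ n + qQ s) :
    HasGenus π 2 := by
  obtain ⟨U, hU⟩ : ∃ U, U = iN.opensRange := ⟨_, rfl⟩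
  obtain ⟨V, hV⟩ : ∃ V, V = iT.opensRange ⊔ iQ.opensRange := ⟨_, rfl⟩
  have mU : ∀ x, x ∈ U ↔ x ∈ Set.range iN := by
    intro x
    rw [hU]
    exact Iff.rfl
  have mV : ∀ x, x ∈ V ↔ x ∈ Set.range iT ∨ x ∈ Set.range iQ := by
    intro x
    rw [hV]
    exact Iff.rfl
  have aU : IsAffineOpen U := by
    rw [hU]
    exact isAffineOpen_opensRange iN
  have aV : IsAffineOpen V := by
    rw [hV]
    exact haff
  have eT : ∀ p, (spMap nT ≫ iN) p = iT (spMap tT p) := by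
    intro p
    rw [hT, Scheme.Hom.comp_apply]
  have eQ : ∀ p, (spMap nQ ≫ iN) p = iQ (spMap qQ p) := by
    intro p
    rw [hQ, Scheme.Hom.comp_apply]
  have hTU : ⊤ ≤ (spMap nT ≫ iN) ⁻¹ᵁ U := le_of_range _ fun p => (mU _).2
    ⟨spMap nT p, (Scheme.Hom.comp_apply _ _ _).symm⟩
  have hQU : ⊤ ≤ (spMap nQ ≫ iN) ⁻¹ᵁ U := le_of_range _ fun p => (mU _).2
    ⟨spMap nQ p, (Scheme.Hom.comp_apply _ _ _).symm⟩
  have hTV : ⊤ ≤ (spMap nT ≫ iN) ⁻¹ᵁ V := le_of_range _ fun p => (mV _).2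
    (Or.inl ⟨_, (eT p).symm⟩)
  have hQV : ⊤ ≤ (spMap nQ ≫ iN) ⁻¹ᵁ V := le_of_range _ fun p => (mV _).2
    (Or.inr ⟨_, (eQ p).symm⟩)
  have hTUV : ⊤ ≤ (spMap nT ≫ iN) ⁻¹ᵁ (U ⊓ V) := fun p hp => ⟨hTU hp, hTV hp⟩
  have hQUV : ⊤ ≤ (spMap nQ ≫ iN) ⁻¹ᵁ (U ⊓ V) := fun p hp => ⟨hQU hp, hQV hp⟩
  have hNU : ⊤ ≤ iN ⁻¹ᵁ U := le_of_range _ fun p => (mU _).2 ⟨p, rfl⟩
  have hTV' : ⊤ ≤ iT ⁻¹ᵁ V := le_of_range _ fun p => (mV _).2 (Or.inl ⟨p, rfl⟩)
  have hQV' : ⊤ ≤ iQ ⁻¹ᵁ V := le_of_range _ fun p => (mV _).2 (Or.inr ⟨p, rfl⟩)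
  have hUV : ∀ x ∈ U ⊓ V, x ∈ Set.range (spMap nT ≫ iN) ∨ x ∈ Set.range (spMap nQ ≫ iN) := by
    rintro x ⟨hx1, hx2⟩
    obtain ⟨p, rfl⟩ := (mU x).1 hx1
    rcases (mV _).1 hx2 with ⟨q, hq⟩ | ⟨q, hq⟩
    · exact Or.inl (mT p q hq.symm)
    · exact Or.inr (mQ p q hq.symm)
  have dis : ∀ x y, (spMap nT ≫ iN) x ≠ (spMap nQ ≫ iN) y := by
    intro x y h
    rw [eT, eQ] at h
    exact hTQ _ _ h
  -- evaluation of restrictions
  have r1 : ∀ b : Γ(X, U), evO (spMap nT ≫ iN) (U ⊓ V) hTUV (rs X inf_le_left b) =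
      nT (evO iN U hNU b) := by
    intro b
    rw [evO_rs _ inf_le_left hTUV hTU, evO_spMap iN nT hNU hTU]
  have r2 : ∀ b : Γ(X, U), evO (spMap nQ ≫ iN) (U ⊓ V) hQUV (rs X inf_le_left b) =
      nQ (evO iN U hNU b) := by
    intro b
    rw [evO_rs _ inf_le_left hQUV hQU, evO_spMap iN nQ hNU hQU]
  have r3 : ∀ b : Γ(X, V), evO (spMap nT ≫ iN) (U ⊓ V) hTUV (rs X inf_le_right b) =
      tT (evO iT V hTV' b) := by
    intro b
    have h' : ⊤ ≤ (spMap tT ≫ iT) ⁻¹ᵁ V := hT ▸ hTV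
    rw [evO_rs _ inf_le_right hTUV hTV, evO_eq hT hTV h', evO_spMap iT tT hTV' h']
  have r4 : ∀ b : Γ(X, V), evO (spMap nQ ≫ iN) (U ⊓ V) hQUV (rs X inf_le_right b) =
      qQ (evO iQ V hQV' b) := by
    intro b
    have h' : ⊤ ≤ (spMap qQ ≫ iQ) ⁻¹ᵁ V := hQ ▸ hQV
    rw [evO_rs _ inf_le_right hQUV hQV, evO_eq hQ hQV h', evO_spMap iQ qQ hQV' h']
  let L : Γ(X, U ⊓ V) →+ (Fin 2 → K) :=
    { toFun := fun s => ![LT (evO (spMap nT ≫ iN) (U ⊓ V) hTUV s),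
        LQ (evO (spMap nQ ≫ iN) (U ⊓ V) hQUV s)]
      map_zero' := by
        funext i
        fin_cases i
        · change LT _ = 0
          rw [map_zero, map_zero]
        · change LQ _ = 0
          rw [map_zero, map_zero]
      map_add' := by
        intro s t
        funext i
        fin_cases i
        · change LT _ = LT _ + LT _
          rw [map_add, map_add]
        · change LQ _ = LQ _ + LQ _
          rw [map_add, map_add] }
  have L0 : ∀ s, L s 0 = LT (evO (spMap nT ≫ iN) (U ⊓ V) hTUV s) := fun s => rfl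
  have L1 : ∀ s, L s 1 = LQ (evO (spMap nQ ≫ iN) (U ⊓ V) hQUV s) := fun s => rfl
  refine ⟨U, V, aU, aV, ?_, L, ?_, ?_, ?_⟩
  · ext x
    simp only [TopologicalSpace.Opens.coe_sup, Set.mem_union, TopologicalSpace.Opens.coe_top,
      Set.mem_univ, iff_true, SetLike.mem_coe]
    rw [mU, mV]
    rcases cov x with h | h | h
    · exact Or.inr (Or.inl h)
    · exact Or.inl h
    · exact Or.inr (Or.inr h)
  · intro v
    obtain ⟨a, ha⟩ := sT (v 0)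
    obtain ⟨b, hb⟩ := sQ (v 1)
    obtain ⟨s, hs1, hs2⟩ := evO_ex (spMap nT ≫ iN) (spMap nQ ≫ iN) hTUV hQUV hUV dis a b
    refine ⟨s, ?_⟩
    funext i
    fin_cases i
    · change L s 0 = v 0
      rw [L0, hs1, ha]
    · change L s 1 = v 1
      rw [L1, hs2, hb]
  · intro c s
    funext i
    fin_cases i
    · change L (coef π (U ⊓ V) c * s) 0 = c * L s 0
      rw [L0, L0, map_mul, evO_coef _ π κT hκT, lT]
    · change L (coef π (U ⊓ V) c * s) 1 = c * L s 1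
      rw [L1, L1, map_mul, evO_coef _ π κQ hκQ, lQ]
  · intro s
    have hL : L s = 0 ↔ (LT (evO (spMap nT ≫ iN) (U ⊓ V) hTUV s) = 0 ∧
        LQ (evO (spMap nQ ≫ iN) (U ⊓ V) hQUV s) = 0) := by
      constructor
      · intro h
        refine ⟨?_, ?_⟩
        · rw [← L0, h]
          rfl
        · rw [← L1, h]
          rfl
      · rintro ⟨h1, h2⟩
        funext i
        fin_cases i
        · change L s 0 = 0
          rw [L0, h1]
        · change L s 1 = 0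
          rw [L1, h2]
    rw [hL, ker]
    constructor
    · rintro ⟨n, r, q, h1, h2⟩
      obtain ⟨a, ha⟩ := (evO_bij iN hNU (fun x hx => (mU x).1 hx)).2 n
      obtain ⟨b, hb1, hb2⟩ := evO_ex iT iQ hTV' hQV' (fun x hx => (mV x).1 hx) hTQ r q
      refine ⟨a, b, ?_⟩
      rw [← sub_eq_zero]
      refine evO_un (spMap nT ≫ iN) (spMap nQ ≫ iN) hTUV hQUV hUV _ ?_ ?_
      · change evO (spMap nT ≫ iN) (U ⊓ V) hTUV
          (s - (rs X inf_le_left a + rs X inf_le_right b)) = 0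
        rw [map_sub, map_add, r1, r3, ha, hb1, h1, sub_self]
      · change evO (spMap nQ ≫ iN) (U ⊓ V) hQUV
          (s - (rs X inf_le_left a + rs X inf_le_right b)) = 0
        rw [map_sub, map_add, r2, r4, ha, hb2, h2, sub_self]
    · rintro ⟨a, b, h⟩
      refine ⟨evO iN U hNU a, evO iT V hTV' b, evO iQ V hQV' b, ?_, ?_⟩
      · rw [← r1, ← r3, ← map_add]
        exact congrArg _ h
      · rw [← r2, ← r4, ← map_add]
        exact congrArg _ h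

end Three

theorem cf_surj {B : Type} [CommRing B] {f : Fin 7 → B} (c : B) : ∃ v : A12 B f, cf (-1) v = c :=
  ⟨algebraMap B (A12 B f) c * ((xu B f) ^ (-1 : ℤ) : (A12 B f)ˣ).val * yv B f, by
    rw [cf_mono_y, if_pos rfl]⟩

end YGN

/-- YGN: the genus. -/
theorem t_YGN (hUA : Stmt_YUA) (hGA : Stmt_YGA) : Stmt_YGN := by
  intro K _ p
  obtain ⟨hdis, haff⟩ := hUA K p
  refine YGN.genus_three (YX.pr K p 0) (YX.inN K p 0) (YX.inT K p 0) (YX.inQ K p 0) (nT K p 0)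
    (tT K p 0) (nQ K p 0) (qQ K p 0) (YX.condT K p 0) (YX.condQ K p 0) inferInstance inferInstance
    ?_ ?_ ?_ haff (fun x => YX.surj3 x) (algebraMap K (TN K p 0)) ?_ (algebraMap K (QN K p 0)) ?_
    (cf (-1) : TN K p 0 →ₗ[K] K).toAddMonoidHom (cf (-1) : QN K p 0 →ₗ[K] K).toAddMonoidHom
    (fun c s => cf_b c (-1) s) (fun c s => cf_b c (-1) s) (fun c => YGN.cf_surj c)
    (fun c => YGN.cf_surj c) (fun a b => hGA K p a b)
  · intro x y h
    obtain ⟨w, hw, -⟩ := YX.meetNT x y h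
    refine ⟨w, ?_⟩
    rw [Scheme.Hom.comp_apply, hw]
  · intro x y h
    obtain ⟨w, hw, -⟩ := YX.meetNQ x y h
    refine ⟨w, ?_⟩
    rw [Scheme.Hom.comp_apply, hw]
  · intro x y h
    have h1 : YX.inT K p 0 x ∈ (YX.inT K p 0).opensRange ⊓ (YX.inQ K p 0).opensRange :=
      ⟨⟨x, rfl⟩, ⟨y, h.symm⟩⟩
    rw [hdis] at h1
    exact h1
  · rw [Category.assoc, YX.inN_pr, spMap_comp']
    exact congrArg (fun f => spMap f) (RingHom.ext fun c => nT_c K p 0 c)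
  · rw [Category.assoc, YX.inN_pr, spMap_comp']
    exact congrArg (fun f => spMap f) (RingHom.ext fun c => nQ_c K p 0 c)

end Pool.Agent.MG.H2
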