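import Pool.Agent.MG.H2.StmtsY

/-!
# The curve `y² = f(x)` is connected (module YHC)
-/

open CategoryTheory CategoryTheory.Limits AlgebraicGeometry TensorProduct

namespace Pool.Agent.MG.H2.YHC

section

variable (K : Type) [Field K] (f : Fin 7 → K)

theorem exists_ne (h : IsCoprime (pp K (rev f)) (Polynomial.derivative (pp K (rev f)))) :
    ∃ i, i ≠ 0 ∧ f i ≠ 0 := by
  by_contra hc
  have h0 : ∀ i, i ≠ 0 → f i = 0 := by
    intro i hi
    by_contra h1
    exact hc ⟨i, hi, h1⟩
  obtain ⟨a, b, hab⟩ := h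
  have h6 : rev f 0 = 0 := h0 6 (by decide)
  have h5 : rev f 1 = 0 := h0 5 (by decide)
  have e1 : (pp K (rev f)).eval 0 = 0 := by
    simp [pp, pol, h6]
  have e2 : (Polynomial.derivative (pp K (rev f))).eval 0 = 0 := by
    simp [pp, pol, h5]
  have e3 := congrArg (Polynomial.eval 0) hab
  rw [Polynomial.eval_add, Polynomial.eval_mul, Polynomial.eval_mul, e1, e2, mul_zero, mul_zero,
    add_zero, Polynomial.eval_one] at e3
  exact zero_ne_one e3

theorem nontriv12 : Nontrivial (A12 K f) := by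
  have hd : (leq K f).natDegree = 2 := Polynomial.natDegree_X_pow_sub_C
  have h : Nontrivial (LY K f) := by
    refine AdjoinRoot.nontrivial (leq K f) ?_
    intro h0
    have h1 : (leq K f).natDegree = 0 := Polynomial.natDegree_eq_of_degree_eq_some h0
    omega
  exact (toLY K f).domain_nontrivial

theorem pre {A : Type} [CommRing A] [IsDomain A] {X : Scheme.{0}} (f : Sp A ⟶ X) :
    _root_.IsPreconnected (Set.range f) := by
  have h1 : _root_.IsPreconnected (Set.univ : Set (Sp A)) := by
    have : IrreducibleSpace (PrimeSpectrum A) := inferInstance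
    have h2 : PreconnectedSpace (PrimeSpectrum A) := inferInstance
    exact h2.isPreconnected_univ
  rw [← Set.image_univ]
  exact h1.image _ f.continuous.continuousOn

theorem conn (hDM : Stmt_YDM) (h : HSm K f) : ConnectedSpace (HX K f) := by
  have h1 : IsDomain (A1 K f) := hDM K f h.s1 (exists_ne K f h.s2)
  have h2 : IsDomain (A2 K f) := hDM K (rev f) h.s2 (exists_ne K (rev f) (by
    rw [rev_rev]
    exact h.s1))
  have h3 : Nontrivial (A12 K f) := nontriv12 K f
  obtain ⟨w⟩ : Nonempty (Sp (A12 K f)) := inferInstanceAs (Nonempty (PrimeSpectrum (A12 K f)))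
  have hU : Set.range (HX.in1 K f) ∪ Set.range (HX.in2 K f) = Set.univ := by
    rw [Set.eq_univ_iff_forall]
    intro x
    exact glue2_surj (spMap (g1 K f)) (spMap (g2 K f)) x
  have hcond : spMap (g1 K f) ≫ HX.in1 K f = spMap (g2 K f) ≫ HX.in2 K f :=
    pushout.condition
  have hI : (Set.range (HX.in1 K f) ∩ Set.range (HX.in2 K f)).Nonempty := by
    refine ⟨(spMap (g1 K f) ≫ HX.in1 K f) w, ⟨spMap (g1 K f) w, ?_⟩,
      ⟨spMap (g2 K f) w, ?_⟩⟩
    · rw [Scheme.Hom.comp_apply]
    · rw [hcond, Scheme.Hom.comp_apply]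
  have hp : _root_.IsPreconnected (Set.univ : Set (HX K f)) := by
    rw [← hU]
    exact _root_.IsPreconnected.union' hI (pre _) (pre _)
  have : PreconnectedSpace (HX K f) := ⟨hp⟩
  exact ⟨⟨HX.in1 K f (spMap (g1 K f) w)⟩⟩

end

end Pool.Agent.MG.H2.YHC

namespace Pool.Agent.MG.H2

theorem t_YHC (hDM : Stmt_YDM) : Stmt_YHC := fun K _ f h => YHC.conn K f hDM h

end Pool.Agent.MG.H2
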