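import Pool.Agent.MG.H2.StmtsY
import Pool.Agent.MG.H2.Cf2
import Pool.Agent.MG.W.WGN

/-!
# YHG: the curves `y² = f(x)` have genus two
-/

open CategoryTheory CategoryTheory.Limits AlgebraicGeometry TensorProduct

namespace Pool.Agent.MG.H2

namespace YHG

variable {K : Type} [Field K] (f : Fin 7 → K)

theorem cf1 (c c' : K) : cf (-1) (algebraMap K (A12 K f) c * (xi f * yv K f) +
    algebraMap K (A12 K f) c' * (xi f ^ 2 * yv K f)) = c := by
  have h1 := cf_xi (f := f) (-1) (yv K f)
  have h2 := cf_xipow (f := f) 2 (-1) (yv K f)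
  have h3 : ∀ j : ℤ, cf j (yv K f) = if j = 0 then 1 else 0 := by
    intro j
    have h4 := cf_mono_y (f := f) 1 0 j
    rw [map_one, one_mul, zpow_zero, Units.val_one, one_mul] at h4
    rw [h4]
    simp only [eq_comm]
  rw [map_add, cf_b, cf_b, h1, h2, h3, h3]
  simp

theorem cf2 (c c' : K) : cf (-2) (algebraMap K (A12 K f) c * (xi f * yv K f) +
    algebraMap K (A12 K f) c' * (xi f ^ 2 * yv K f)) = c' := by
  have h1 := cf_xi (f := f) (-2) (yv K f)
  have h2 := cf_xipow (f := f) 2 (-2) (yv K f)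
  have h3 : ∀ j : ℤ, cf j (yv K f) = if j = 0 then 1 else 0 := by
    intro j
    have h4 := cf_mono_y (f := f) 1 0 j
    rw [map_one, one_mul, zpow_zero, Units.val_one, one_mul] at h4
    rw [h4]
    simp only [eq_comm]
  rw [map_add, cf_b, cf_b, h1, h2, h3, h3]
  simp

/-- The first cohomology of the curve. -/
theorem exists_L : ∃ L : A12 K f →+ (Fin 2 → K), Function.Surjective L ∧
    (∀ c t, L (algebraMap K (A12 K f) c * t) = c • L t) ∧
    ∀ t, L t = 0 ↔ ∃ p q, t = g1 K f p + g2 K f q := by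
  obtain ⟨L, hL⟩ : ∃ L : A12 K f →+ (Fin 2 → K), ∀ t, L t = ![cf (-1) t, cf (-2) t] := by
    refine ⟨AddMonoidHom.mk' (fun t => ![cf (-1) t, cf (-2) t]) ?_, fun _ => rfl⟩
    intro s t
    funext i
    fin_cases i
    · exact map_add (cf (-1)) s t
    · exact map_add (cf (-2)) s t
  have h0 : ∀ t, L t 0 = cf (-1) t := fun t => by rw [hL]; rfl
  have h1 : ∀ t, L t 1 = cf (-2) t := fun t => by rw [hL]; rfl
  refine ⟨L, ?_, ?_, ?_⟩
  · intro v
    refine ⟨algebraMap K (A12 K f) (v 0) * (xi f * yv K f) +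
      algebraMap K (A12 K f) (v 1) * (xi f ^ 2 * yv K f), ?_⟩
    funext i
    fin_cases i
    · exact (h0 _).trans (cf1 f _ _)
    · exact (h1 _).trans (cf2 f _ _)
  · intro c t
    funext i
    fin_cases i
    · exact (h0 _).trans ((cf_b _ _ _).trans (congrArg (fun a => c * a) (h0 t).symm))
    · exact (h1 _).trans ((cf_b _ _ _).trans (congrArg (fun a => c * a) (h1 t).symm))
  · intro t
    constructor
    · intro h
      have e0 : cf (-1) t = 0 := (h0 t).symm.trans (congrFun h 0)
      have e1 : cf (-2) t = 0 := (h1 t).symm.trans (congrFun h 1)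
      obtain ⟨a, b, hab⟩ := decomp t
      refine ⟨a, b, ?_⟩
      rw [e0, e1, map_zero, zero_mul, zero_mul, add_zero, add_zero] at hab
      exact hab
    · rintro ⟨p, q, rfl⟩
      funext i
      fin_cases i
      · refine (h0 _).trans ?_
        rw [map_add, cf_g1 (by norm_num), cf_g2 (by norm_num), add_zero]
        rfl
      · refine (h1 _).trans ?_
        rw [map_add, cf_g1 (by norm_num), cf_g2 (by norm_num), add_zero]
        rfl

end YHG

/-- YHG: the genus. -/
theorem t_YHG : Stmt_YHG := by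
  intro K _ f
  obtain ⟨L, h1, h2, h3⟩ := YHG.exists_L f
  have hM : spMap (g1 K f) ≫ HX.in1 K f = spMap (g2 K f) ≫ HX.in2 K f := pushout.condition
  refine W.WGN.genus_two (HX.pr K f) (HX.in1 K f) (HX.in2 K f) (g1 K f) (g2 K f) hM
    inferInstance ?_ ?_ (algebraMap K (A12 K f)) ?_ 2 L h1 h2 h3
  · intro x y h
    obtain ⟨w, hw, -⟩ := glue2_eq (spMap (g1 K f)) (spMap (g2 K f)) x y h
    refine ⟨w, ?_⟩
    rw [Scheme.Hom.comp_apply, hw]
  · intro x
    exact glue2_surj (spMap (g1 K f)) (spMap (g2 K f)) x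
  · rw [Category.assoc, HX.in1_pr, spMap_comp']
    exact congrArg (fun f => spMap f) (RingHom.ext fun c => g1_b K f c)

end Pool.Agent.MG.H2
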