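import Pool.Agent.MG.H2.StmtsY
import Pool.Agent.MG.H2.Cf2
import Pool.Agent.MG.W.WRI

/-!
# YHR: the curve `y² = f(x)` has no vector fields
-/

open CategoryTheory CategoryTheory.Limits AlgebraicGeometry TensorProduct

namespace Pool.Agent.MG.H2

namespace YHR

open W.WRI

/-- An additive map with the Leibniz rule which kills the constants is a derivation. -/
noncomputable def mkDer {K A : Type} [Field K] [CommRing A] [Algebra K A] (D : A →+ A)
    (hl : ∀ u v, D (u * v) = u * D v + v * D u) (hc : ∀ c : K, D (algebraMap K A c) = 0) :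
    Derivation K A A :=
  Derivation.mk' { D with
    map_smul' := by
      intro c a
      change D (c • a) = c • D a
      rw [Algebra.smul_def, hl, hc, mul_zero, add_zero, Algebra.smul_def] } (by
    intro a b
    exact hl a b)

theorem mkDer_apply {K A : Type} [Field K] [CommRing A] [Algebra K A] (D : A →+ A)
    (hl : ∀ u v, D (u * v) = u * D v + v * D u) (hc : ∀ c : K, D (algebraMap K A c) = 0) (a : A) :
    mkDer D hl hc a = D a := rfl

section

variable {K : Type} [Field K] {f : Fin 7 → K}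

theorem toLaurent_pp : Polynomial.toLaurent (pp K f) = lpol K f := by
  rw [pp, pol_map, lpol]
  congr 1
  · funext i
    exact Polynomial.toLaurent_C _
  · exact Polynomial.toLaurent_X

theorem lpol_ne (h : IsCoprime (pp K f) (Polynomial.derivative (pp K f))) : lpol K f ≠ 0 := by
  intro h0
  rw [← toLaurent_pp] at h0
  have h1 : pp K f = 0 := Polynomial.toLaurent_injective (by rw [h0, map_zero])
  rw [h1, Polynomial.derivative_zero] at h
  obtain ⟨a, b, hab⟩ := h
  rw [mul_zero, mul_zero, add_zero] at hab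
  exact zero_ne_one hab

/-- `y` is not a zero divisor. -/
theorem y_cancel (h : IsCoprime (pp K f) (Polynomial.derivative (pp K f))) {a : A12 K f}
    (ha : yv K f * a = 0) : a = 0 := by
  have h1 : ev K f (lpol K f) * a = 0 := by
    rw [ev_lpol, pow_two, mul_assoc, ha, mul_zero]
  have h2 : ∀ i : Fin 2, lco (i : ℕ) a = 0 := by
    intro i
    have h3 := lco_ev_mul i (lpol K f) a
    rw [h1, map_zero] at h3
    exact (mul_eq_zero.1 h3.symm).resolve_left (lpol_ne h)
  refine lco_ext ?_ ?_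
  · rw [map_zero]
    exact h2 0
  · rw [map_zero]
    exact h2 1

theorem cg_const (c : K) : cg 0 (algebraMap K (A12 K f) c) = c := by
  have h := cg_mono (f := f) c 0 0
  rw [zpow_zero, Units.val_one, mul_one, if_pos rfl] at h
  exact h

end

/-- Compatible derivations of the three rings vanish. -/
theorem alg {K : Type} [Field K] (f : Fin 7 → K) (hDA : Stmt_YDA) (hf : HSm K f)
    (D1 : A1 K f →+ A1 K f) (D2 : A2 K f →+ A2 K f) (D12 : A12 K f →+ A12 K f)
    (l1 : ∀ u v, D1 (u * v) = u * D1 v + v * D1 u)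
    (c1 : ∀ c : K, D1 (algebraMap K _ c) = 0)
    (l2 : ∀ u v, D2 (u * v) = u * D2 v + v * D2 u)
    (c2 : ∀ c : K, D2 (algebraMap K _ c) = 0)
    (l12 : ∀ u v, D12 (u * v) = u * D12 v + v * D12 u)
    (r1 : ∀ v, D12 (g1 K f v) = g1 K f (D1 v))
    (r2 : ∀ v, D12 (g2 K f v) = g2 K f (D2 v)) : (∀ v, D1 v = 0) ∧ ∀ v, D2 v = 0 := by
  have n2 : (2 : K) ≠ 0 := hf.two.ne_zero
  obtain ⟨w, hw1, hw2⟩ := hDA f n2 hf.s1 (mkDer D1 l1 c1)
  obtain ⟨w', hw3, hw4⟩ := hDA (rev f) n2 hf.s2 (mkDer D2 l2 c2)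
  rw [mkDer_apply] at hw1 hw2 hw3 hw4
  have hone : D12 1 = 0 := by
    have h := l12 1 1
    rw [one_mul, one_mul] at h
    linear_combination -h
  have hX : (xu K f : A12 K f) * ((xu K f)⁻¹ : (A12 K f)ˣ).val = 1 := Units.mul_inv _
  have hprod : g1 K f (x1 K f) * g2 K f (x1 K (rev f)) = 1 := by
    rw [g2_u, ← xu_val, hX]
  have h1 := congrArg D12 hprod
  rw [hone, l12, r1, r2, hw1, hw3, g2_u, ← xu_val] at h1
  have e1 : g1 K f (2 * y1 K f * w) = 2 * yv K f * g1 K f w := by
    rw [map_mul, map_mul, map_ofNat, g1_y]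
  have e2 : g2 K f (2 * y1 K (rev f) * w') =
      2 * (yv K f * ((xu K f)⁻¹ ^ 3 : (A12 K f)ˣ).val) * g2 K f w' := by
    rw [map_mul, map_mul, map_ofNat, g2_v]
  rw [e1, e2, Units.val_pow_eq_pow_val] at h1
  generalize hxi : ((xu K f)⁻¹ : (A12 K f)ˣ).val = xi' at *
  have h2 : yv K f * (algebraMap K (A12 K f) 2 * (xi' * g2 K f w' + g1 K f w)) = 0 := by
    have e3 : algebraMap K (A12 K f) 2 = 2 := map_ofNat _ 2
    rw [e3]
    linear_combination (xu K f : A12 K f) * h1 - (2 * yv K f * g1 K f w +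
      2 * yv K f * xi' * g2 K f w' * ((xu K f : A12 K f) * xi' + 1)) * hX
  have h3 := y_cancel hf.s1 h2
  have h4 : xi' * g2 K f w' + g1 K f w = 0 := by
    have e4 : algebraMap K (A12 K f) (2⁻¹) * algebraMap K (A12 K f) 2 = 1 := by
      rw [← map_mul, inv_mul_cancel₀ n2, map_one]
    linear_combination algebraMap K (A12 K f) (2⁻¹) * h3 - (xi' * g2 K f w' + g1 K f w) * e4
  have h5 : g1 K f (x1 K f * w) = g2 K f (-w') := by
    rw [map_mul, ← xu_val, map_neg]
    linear_combination (xu K f : A12 K f) * h4 - g2 K f w' * hX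
  obtain ⟨c, hc1, hc2⟩ := g12_const h5
  have hc0 : c = 0 := by
    have h6 : cg 0 (g1 K f (x1 K f * w)) = c := by
      rw [hc1, g1_b, cg_const]
    rw [← h6, map_mul, ← xu_val]
    have h7 := cg_x (f := f) 0 (g1 K f w)
    rw [cg_g1 (by norm_num) w] at h7
    exact h7
  rw [hc0, map_zero] at hc1 hc2
  have hw0 : w = 0 := by
    apply g1_inj K f
    have h8 := congrArg (g1 K f) hc1
    rw [map_mul, ← xu_val, map_zero] at h8
    rw [map_zero]
    linear_combination xi' * h8 - g1 K f w * hX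
  have hw0' : w' = 0 := neg_eq_zero.1 hc2
  rw [hw0, mul_zero] at hw1 hw2
  rw [hw0', mul_zero] at hw3 hw4
  exact ⟨der_zero _ D1 l1 c1 hw1 hw2, der_zero _ D2 l2 c2 hw3 hw4⟩

end YHR

open W.WRI in
theorem t_YHR (hDA : Stmt_YDA) : Stmt_YHR := by
  intro K _ f hf v U
  let i1 : Sp (A1 K f) ⟶ (Hyp f).X := HX.in1 K f
  let i2 : Sp (A2 K f) ⟶ (Hyp f).X := HX.in2 K f
  have o1 : IsOpenImmersion i1 := inferInstanceAs (IsOpenImmersion (HX.in1 K f))
  have o2 : IsOpenImmersion i2 := inferInstanceAs (IsOpenImmersion (HX.in2 K f))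
  have hcond : spMap (g1 K f) ≫ i1 = spMap (g2 K f) ≫ i2 := pushout.condition
  have o12 : IsOpenImmersion (spMap (g1 K f) ≫ i1) := inferInstance
  have hπ1 : i1 ≫ (Hyp f).π = spMap (algebraMap K _) := HX.in1_pr K f
  have hπ2 : i2 ≫ (Hyp f).π = spMap (algebraMap K _) := HX.in2_pr K f
  obtain ⟨z1, z2⟩ := YHR.alg f hDA hf (der v i1) (der v i2)
    (der v (spMap (g1 K f) ≫ i1)) (der_mul v i1) (der_const v i1 _ hπ1) (der_mul v i2)
    (der_const v i2 _ hπ2) (der_mul v _) (der_res v i1 (g1 K f) _ rfl)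
    (der_res v i2 (g2 K f) _ hcond)
  exact RIG.all0 v (glue2_range (spMap (g1 K f)) (spMap (g2 K f)))
    (isAffineOpen_opensRange i1) (isAffineOpen_opensRange i2) (der_zero_iff v i1 z1)
    (der_zero_iff v i2 z2) U

end Pool.Agent.MG.H2
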