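import Pool.Agent.MG.H2.StmtsY
import Pool.Agent.MG.Local2
import Pool.Agent.MG.NOD

/-!
# YHS: the curves `y² = f(x)` are smooth of relative dimension one, and nodal
-/

open CategoryTheory CategoryTheory.Limits AlgebraicGeometry TensorProduct
open scoped Polynomial

namespace Pool.Agent.MG.H2

namespace YHS

/-- Curves which are smooth of relative dimension one over a field are nodal. -/
theorem nodal_of_smooth {K : Type} [Field K] {X : Scheme.{0}} (π : X ⟶ Sp K)
    (h : SmoothOfRelativeDimension 1 π) : Nodal π := by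
  intro x
  obtain ⟨U, hU, V, hV, hx, e, hsm⟩ := h.exists_isStandardSmoothOfRelativeDimension x
  have hUtop : U = ⊤ := by
    ext y
    simp only [SetLike.mem_coe, TopologicalSpace.Opens.coe_top, Set.mem_univ, iff_true]
    have h1 : y = π x := Subsingleton.elim _ _
    rw [h1]
    exact e hx
  subst hUtop
  have hkm : coef π V = (π.appLE ⊤ V e).hom.comp (Scheme.ΓSpecIso (.of K)).inv.hom := rfl
  have h1 : (coef π V).IsStandardSmoothOfRelativeDimension 1 := by
    rw [hkm]
    exact (RingHom.isStandardSmoothOfRelativeDimension_respectsIso (n := 1)).2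
      (π.appLE ⊤ V e).hom (Scheme.ΓSpecIso (.of K)).symm.commRingCatIsoToRingEquiv hsm
  obtain ⟨g, hg, hget⟩ := h1.exists_etale_mvPolynomial
  let E : K[X] ≃+* MvPolynomial (Fin 1) K :=
    (MvPolynomial.uniqueAlgEquiv K (Fin 1)).symm.toRingEquiv
  have hE : ∀ c : K, E (Polynomial.C c) = MvPolynomial.C c := fun c =>
    (MvPolynomial.uniqueAlgEquiv K (Fin 1)).symm.commutes c
  refine NOD.nodal_chart π hV (g.comp (E : K[X] →+* MvPolynomial (Fin 1) K)) ?_ ?_ hx
  · exact RingHom.Etale.stableUnderComposition _ _ (RingHom.Etale.of_bijective E.bijective) hget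
  · intro c
    show g (E (Polynomial.C c)) = _
    rw [hE, ← hg]
    rfl

end YHS

open YHS in
theorem t_YHS (hSM : Stmt_YSM) : Stmt_YHS := by
  have h1 : ∀ (B : Type) [CommRing B] (f : Fin 7 → B), HSm B f →
      SmoothOfRelativeDimension 1 (HX.pr B f) := by
    intro B _ f h
    have h0' : IsZariskiLocalAtSource (@SmoothOfRelativeDimension.{0} 1) :=
      HasRingHomProperty.instIsZariskiLocalAtSource
    refine two_source (@SmoothOfRelativeDimension 1) (HX.in1 B f) (HX.in2 B f)
      (glue2_surj _ _) _ ?_ ?_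
    · rw [HX.in1_pr]
      exact hSM B f h.two h.s1
    · rw [HX.in2_pr]
      exact hSM B (rev f) h.two h.s2
  exact ⟨h1, fun K _ _ f h => nodal_of_smooth _ (h1 K f h)⟩

end Pool.Agent.MG.H2
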