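import Pool.Agent.MG.H2.StmtsY

/-!
# The curve `YX B p t` for `t` a unit (PAPER_Y.md, YHX)
-/

open CategoryTheory CategoryTheory.Limits AlgebraicGeometry TensorProduct

namespace Pool.Agent.MG.H2

namespace YHX

section basic

variable {R : Type} [CommRing R]

/-- The relation for `g`. -/
theorem rel_g {p : Fin 7 → R} {t w : R} (htw : t * w = 1) {u v : R}
    (h : v ^ 2 = pol (rev (pT p t)) u) : (w ^ 3 * v) ^ 2 = pol (pT (rev p) t) (w ^ 2 * u) := by
  have e2 : t ^ 2 * w ^ 2 = 1 := by rw [← mul_pow, htw, one_pow]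
  have e4 : t ^ 4 * w ^ 4 = 1 := by rw [← mul_pow, htw, one_pow]
  have e6 : t ^ 6 * w ^ 6 = 1 := by rw [← mul_pow, htw, one_pow]
  have h1 : pol (rev (pT p t)) u = t ^ 6 * p 6 + t ^ 4 * p 5 * u + t ^ 2 * p 4 * u ^ 2 +
    p 3 * u ^ 3 + p 2 * u ^ 4 + p 1 * u ^ 5 + p 0 * u ^ 6 := rfl
  have h2 : pol (pT (rev p) t) (w ^ 2 * u) = p 6 + p 5 * (w ^ 2 * u) + p 4 * (w ^ 2 * u) ^ 2 +
    p 3 * (w ^ 2 * u) ^ 3 + t ^ 2 * p 2 * (w ^ 2 * u) ^ 4 + t ^ 4 * p 1 * (w ^ 2 * u) ^ 5 +
    t ^ 6 * p 0 * (w ^ 2 * u) ^ 6 := rfl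
  rw [mul_pow, h, h1, h2]
  linear_combination (p 6) * e6 + p 5 * w ^ 2 * u * e4 + p 4 * w ^ 4 * u ^ 2 * e2 -
    p 2 * w ^ 6 * u ^ 4 * e2 - p 1 * w ^ 6 * u ^ 5 * e4 - p 0 * w ^ 6 * u ^ 6 * e6

/-- The relation for the inverse of `g`. -/
theorem rel_gi {p : Fin 7 → R} {t : R} {u v : R}
    (h : v ^ 2 = pol (pT (rev p) t) u) : (t ^ 3 * v) ^ 2 = pol (rev (pT p t)) (t ^ 2 * u) := by
  have h1 : pol (rev (pT p t)) (t ^ 2 * u) = t ^ 6 * p 6 + t ^ 4 * p 5 * (t ^ 2 * u) +
    t ^ 2 * p 4 * (t ^ 2 * u) ^ 2 +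
    p 3 * (t ^ 2 * u) ^ 3 + p 2 * (t ^ 2 * u) ^ 4 + p 1 * (t ^ 2 * u) ^ 5 +
      p 0 * (t ^ 2 * u) ^ 6 := rfl
  have h2 : pol (pT (rev p) t) u = p 6 + p 5 * u + p 4 * u ^ 2 +
    p 3 * u ^ 3 + t ^ 2 * p 2 * u ^ 4 + t ^ 4 * p 1 * u ^ 5 + t ^ 6 * p 0 * u ^ 6 := rfl
  rw [mul_pow, h, h1, h2]
  ring

end basic

section rings

variable {B : Type} [CommRing B] (p : Fin 7 → B) (t w : B)

theorem map_rev_pT {R : Type} [CommRing R] (φ : B →+* R) :
    (fun i => φ (rev (pT p t) i)) = rev (pT (fun i => φ (p i)) (φ t)) := by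
  funext i
  exact pT_map φ p t (Fin.rev i)

theorem map_pT_rev {R : Type} [CommRing R] (φ : B →+* R) :
    (fun i => φ (pT (rev p) t i)) = pT (rev (fun i => φ (p i))) (φ t) := by
  funext i
  rw [pT_map]
  rfl

theorem map_pT {R : Type} [CommRing R] (φ : B →+* R) :
    (fun i => φ (pT p t i)) = pT (fun i => φ (p i)) (φ t) := by
  funext i
  exact pT_map φ p t i

theorem relg (htw : t * w = 1) : (algebraMap B (A2 B (pT p t)) w ^ 3 * y1 B (rev (pT p t))) ^ 2 =
    pol (fun i => algebraMap B (A2 B (pT p t)) (pT (rev p) t i))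
      (algebraMap B (A2 B (pT p t)) w ^ 2 * x1 B (rev (pT p t))) := by
  have h := rel1 B (rev (pT p t))
  rw [map_rev_pT] at h
  rw [map_pT_rev]
  exact rel_g (by rw [← map_mul, htw, map_one]) h

/-- `g` -/
noncomputable def gg (htw : t * w = 1) : QQ B p t →+* A2 B (pT p t) :=
  lift1 (algebraMap B (A2 B (pT p t))) (algebraMap B (A2 B (pT p t)) w ^ 2 * x1 B (rev (pT p t)))
    (algebraMap B (A2 B (pT p t)) w ^ 3 * y1 B (rev (pT p t))) (relg p t w htw)

@[simp]
theorem gg_b (htw : t * w = 1) (c : B) : gg p t w htw (algebraMap B _ c) = algebraMap B _ c :=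
  lift1_b _ _ _ _ _

@[simp]
theorem gg_x (htw : t * w = 1) : gg p t w htw (x1 B (pT (rev p) t)) =
    algebraMap B (A2 B (pT p t)) w ^ 2 * x1 B (rev (pT p t)) := lift1_x _ _ _ _

@[simp]
theorem gg_y (htw : t * w = 1) : gg p t w htw (y1 B (pT (rev p) t)) =
    algebraMap B (A2 B (pT p t)) w ^ 3 * y1 B (rev (pT p t)) := lift1_y _ _ _ _

theorem relgi : (algebraMap B (QQ B p t) t ^ 3 * y1 B (pT (rev p) t)) ^ 2 =
    pol (fun i => algebraMap B (QQ B p t) (rev (pT p t) i))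
      (algebraMap B (QQ B p t) t ^ 2 * x1 B (pT (rev p) t)) := by
  have h := rel1 B (pT (rev p) t)
  rw [map_pT_rev] at h
  rw [map_rev_pT]
  exact rel_gi h

/-- The inverse of `g`. -/
noncomputable def gi : A2 B (pT p t) →+* QQ B p t :=
  lift1 (algebraMap B (QQ B p t)) (algebraMap B (QQ B p t) t ^ 2 * x1 B (pT (rev p) t))
    (algebraMap B (QQ B p t) t ^ 3 * y1 B (pT (rev p) t)) (relgi p t)

@[simp]
theorem gi_b (c : B) : gi p t (algebraMap B _ c) = algebraMap B _ c :=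
  lift1_b _ _ _ _ _

@[simp]
theorem gi_x : gi p t (x1 B (rev (pT p t))) =
    algebraMap B (QQ B p t) t ^ 2 * x1 B (pT (rev p) t) := lift1_x _ _ _ _

@[simp]
theorem gi_y : gi p t (y1 B (rev (pT p t))) =
    algebraMap B (QQ B p t) t ^ 3 * y1 B (pT (rev p) t) := lift1_y _ _ _ _

theorem tw {R : Type} [CommRing R] (φ : B →+* R) {t w : B} (htw : t * w = 1) (n : ℕ) :
    φ t ^ n * φ w ^ n = 1 := by
  rw [← mul_pow, ← map_mul, htw, map_one, one_pow]

theorem gg_gi (htw : t * w = 1) : (gg p t w htw).comp (gi p t) = RingHom.id _ := by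
  refine hom1_ext ?_ ?_ ?_
  · intro c
    rw [RingHom.comp_apply, gi_b, gg_b, RingHom.id_apply]
  · rw [RingHom.comp_apply, gi_x, map_mul, map_pow, gg_b, gg_x, RingHom.id_apply, ← mul_assoc,
      tw _ htw, one_mul]
  · rw [RingHom.comp_apply, gi_y, map_mul, map_pow, gg_b, gg_y, RingHom.id_apply, ← mul_assoc,
      tw _ htw, one_mul]

theorem gi_gg (htw : t * w = 1) : (gi p t).comp (gg p t w htw) = RingHom.id _ := by
  have htw' : w * t = 1 := by rw [mul_comm, htw]
  refine hom1_ext ?_ ?_ ?_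
  · intro c
    rw [RingHom.comp_apply, gg_b, gi_b, RingHom.id_apply]
  · rw [RingHom.comp_apply, gg_x, map_mul, map_pow, gi_b, gi_x, RingHom.id_apply, ← mul_assoc,
      tw _ htw', one_mul]
  · rw [RingHom.comp_apply, gg_y, map_mul, map_pow, gi_b, gi_y, RingHom.id_apply, ← mul_assoc,
      tw _ htw', one_mul]

/-- The image of `w` as a unit. -/
noncomputable def wu {R : Type} [CommRing R] (φ : B →+* R) (htw : t * w = 1) : Rˣ where
  val := φ w
  inv := φ t
  val_inv := by rw [← map_mul, mul_comm, htw, map_one]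
  inv_val := by rw [← map_mul, htw, map_one]

theorem relth (htw : t * w = 1) :
    (algebraMap B (TN B p t) w ^ 3 * (yv B (pT p t) *
      ((xu B (pT p t))⁻¹ ^ 3 : (TN B p t)ˣ).val)) ^ 2 =
    pol (fun i => algebraMap B (TN B p t) (pT (rev p) t i))
      ((wu t w (algebraMap B (TN B p t)) htw ^ 2 * (xu B (pT p t))⁻¹ : (TN B p t)ˣ) :
        TN B p t) := by
  have h := congrArg (g2 B (pT p t)) (rel1 B (rev (pT p t)))
  rw [map_pow, g2_v, pol_map, g2_u] at h
  simp only [g2_b] at h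
  rw [map_rev_pT] at h
  rw [map_pT_rev]
  have h2 := rel_g (t := algebraMap B (TN B p t) t) (w := algebraMap B (TN B p t) w)
    (by rw [← map_mul, htw, map_one]) h
  rw [h2, Units.val_mul, Units.val_pow_eq_pow_val]
  rfl

/-- From `N ∩ Q` to `N ∩ T`. -/
noncomputable def th (htw : t * w = 1) : QN B p t →+* TN B p t :=
  lift12 (algebraMap B (TN B p t))
    (wu t w (algebraMap B (TN B p t)) htw ^ 2 * (xu B (pT p t))⁻¹)
    (algebraMap B (TN B p t) w ^ 3 * (yv B (pT p t) * ((xu B (pT p t))⁻¹ ^ 3 : (TN B p t)ˣ).val))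
    (relth p t w htw)

@[simp]
theorem th_b (htw : t * w = 1) (c : B) : th p t w htw (algebraMap B _ c) = algebraMap B _ c :=
  lift12_b _ _ _ _ _

@[simp]
theorem th_x (htw : t * w = 1) : th p t w htw (xu B (pT (rev p) t) : QN B p t) =
    algebraMap B (TN B p t) w ^ 2 * ((xu B (pT p t))⁻¹ : (TN B p t)ˣ).val := by
  rw [th, lift12_x, Units.val_mul, Units.val_pow_eq_pow_val]
  rfl

@[simp]
theorem th_xi (htw : t * w = 1) : th p t w htw ((xu B (pT (rev p) t))⁻¹ : (QN B p t)ˣ).val =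
    algebraMap B (TN B p t) t ^ 2 * (xu B (pT p t) : TN B p t) := by
  rw [th, lift12_xi, mul_inv, inv_inv, Units.val_mul, ← inv_pow, Units.val_pow_eq_pow_val]
  rfl

@[simp]
theorem th_y (htw : t * w = 1) : th p t w htw (yv B (pT (rev p) t)) =
    algebraMap B (TN B p t) w ^ 3 * (yv B (pT p t) *
      ((xu B (pT p t))⁻¹ : (TN B p t)ˣ).val ^ 3) := by
  rw [th, lift12_y, Units.val_pow_eq_pow_val]

theorem th_qQ (htw : t * w = 1) :
    (th p t w htw).comp (qQ B p t) = (g2 B (pT p t)).comp (gg p t w htw) := by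
  refine hom1_ext ?_ ?_ ?_
  · intro c
    rw [RingHom.comp_apply, RingHom.comp_apply, gg_b, g2_b, qQ, g1_b, th_b]
  · rw [RingHom.comp_apply, RingHom.comp_apply, gg_x, map_mul, map_pow, g2_b, g2_u, qQ,
      ← xu_val, th_x]
  · rw [RingHom.comp_apply, RingHom.comp_apply, gg_y, map_mul, map_pow, g2_b, g2_v, qQ,
      g1_y, th_y, Units.val_pow_eq_pow_val]

theorem th_nQ (htw : t * w = 1) : (th p t w htw).comp (nQ B p t) = nT B p t := by
  have e1 := tw (algebraMap B (TN B p t)) htw 1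
  have e2 := tw (algebraMap B (TN B p t)) htw 2
  have e3 := tw (algebraMap B (TN B p t)) htw 3
  have hx : (xu B (pT p t) : TN B p t) * ((xu B (pT p t))⁻¹ : (TN B p t)ˣ).val = 1 :=
    Units.mul_inv _
  refine homN_ext ?_ ?_ ?_ ?_ ?_
  · intro c
    rw [RingHom.comp_apply, nQ_c, th_b, nT_c]
  · rw [RingHom.comp_apply, nQ_z, th_xi, nT_z]
  · rw [RingHom.comp_apply, nQ_x, map_mul, map_pow, th_b, th_x, nT_x, ← mul_assoc, e2, one_mul]
  · rw [RingHom.comp_apply, nQ_a, map_mul, map_mul, th_b, th_y, th_xi, nT_a]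
    linear_combination (yv B (pT p t) * ((xu B (pT p t))⁻¹ : (TN B p t)ˣ).val ^ 2 *
      ((xu B (pT p t) : TN B p t) * ((xu B (pT p t))⁻¹ : (TN B p t)ˣ).val)) * e3 +
      (yv B (pT p t) * ((xu B (pT p t))⁻¹ : (TN B p t)ˣ).val ^ 2) * hx
  · rw [RingHom.comp_apply, nQ_b, map_mul, map_pow, th_y, th_xi, nT_b]
    linear_combination (algebraMap B (TN B p t) t * yv B (pT p t) *
      ((xu B (pT p t))⁻¹ : (TN B p t)ˣ).val ^ 3 * (xu B (pT p t) : TN B p t) ^ 2) * e3 +
      (algebraMap B (TN B p t) t * yv B (pT p t) * ((xu B (pT p t))⁻¹ : (TN B p t)ˣ).val *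
        ((xu B (pT p t) : TN B p t) * ((xu B (pT p t))⁻¹ : (TN B p t)ˣ).val + 1)) * hx

/-- `w² z` is a unit of `N`. -/
noncomputable def zu (htw : t * w = 1) : (NN B p t)ˣ where
  val := algebraMap B (NN B p t) w ^ 2 * zN B p t
  inv := xN B p t
  val_inv := by
    have e2 := tw (algebraMap B (NN B p t)) htw 2
    linear_combination algebraMap B (NN B p t) w ^ 2 * (relN B p t).zx + e2
  inv_val := by
    have e2 := tw (algebraMap B (NN B p t)) htw 2
    linear_combination algebraMap B (NN B p t) w ^ 2 * (relN B p t).zx + e2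

theorem relnti (htw : t * w = 1) :
    (aN B p t * (algebraMap B (NN B p t) w ^ 2 * zN B p t) ^ 2) ^ 2 =
    pol (fun i => algebraMap B (NN B p t) (pT p t i)) (zu p t w htw : NN B p t) := by
  rw [map_pT]
  exact (relN B p t).toT (zu p t w htw).val_inv

/-- The inverse of `nT`. -/
noncomputable def nTi' (htw : t * w = 1) : TN B p t →+* NN B p t :=
  lift12 (algebraMap B (NN B p t)) (zu p t w htw)
    (aN B p t * (algebraMap B (NN B p t) w ^ 2 * zN B p t) ^ 2) (relnti p t w htw)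

theorem nTi'_b (htw : t * w = 1) (c : B) : nTi' p t w htw (algebraMap B _ c) = algebraMap B _ c :=
  lift12_b _ _ _ _ _

theorem nTi'_x (htw : t * w = 1) : nTi' p t w htw (xu B (pT p t) : TN B p t) =
    algebraMap B (NN B p t) w ^ 2 * zN B p t := by
  rw [nTi', lift12_x]
  rfl

theorem nTi'_xi (htw : t * w = 1) : nTi' p t w htw ((xu B (pT p t))⁻¹ : (TN B p t)ˣ).val =
    xN B p t := by
  rw [nTi', lift12_xi]
  rfl

theorem nTi'_y (htw : t * w = 1) : nTi' p t w htw (yv B (pT p t)) =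
    aN B p t * (algebraMap B (NN B p t) w ^ 2 * zN B p t) ^ 2 := by
  rw [nTi', lift12_y]

theorem zuv (htw : t * w = 1) : algebraMap B (NN B p t) w ^ 2 * zN B p t * xN B p t = 1 :=
  (zu p t w htw).val_inv

theorem nTi'_nT (htw : t * w = 1) : (nTi' p t w htw).comp (nT B p t) = RingHom.id _ := by
  have e1 := tw (algebraMap B (NN B p t)) htw 1
  have e2 := tw (algebraMap B (NN B p t)) htw 2
  have hz := zuv p t w htw
  have hxb := (relN B p t).xb
  have hza := (relN B p t).za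
  refine homN_ext ?_ ?_ ?_ ?_ ?_
  · intro c
    rw [RingHom.comp_apply, nT_c, nTi'_b, RingHom.id_apply]
  · rw [RingHom.comp_apply, nT_z, map_mul, map_pow, nTi'_b, nTi'_x, RingHom.id_apply,
      ← mul_assoc, e2, one_mul]
  · rw [RingHom.comp_apply, nT_x, nTi'_xi, RingHom.id_apply]
  · rw [RingHom.comp_apply, nT_a, map_mul, map_pow, nTi'_y, nTi'_xi, RingHom.id_apply]
    linear_combination (aN B p t * (algebraMap B (NN B p t) w ^ 2 * zN B p t * xN B p t + 1)) * hz
  · rw [RingHom.comp_apply, nT_b, map_mul, map_mul, nTi'_b, nTi'_y, nTi'_xi, RingHom.id_apply]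
    linear_combination (algebraMap B (NN B p t) t * aN B p t *
      (algebraMap B (NN B p t) w ^ 2 * zN B p t)) * hz +
      algebraMap B (NN B p t) t * algebraMap B (NN B p t) w ^ 2 * hza + bN B p t * e2

theorem nQ_nTi'_g2 (htw : t * w = 1) :
    (nQ B p t).comp ((nTi' p t w htw).comp (g2 B (pT p t))) = (qQ B p t).comp (gi p t) := by
  have hz := zuv p t w htw
  have e3 := tw (algebraMap B (QN B p t)) htw 3
  have hx : (xu B (pT (rev p) t) : QN B p t) *
    ((xu B (pT (rev p) t))⁻¹ : (QN B p t)ˣ).val = 1 := Units.mul_inv _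
  refine hom1_ext ?_ ?_ ?_
  · intro c
    rw [RingHom.comp_apply, RingHom.comp_apply, RingHom.comp_apply, g2_b, nTi'_b, nQ_c, gi_b, qQ,
      g1_b]
  · rw [RingHom.comp_apply, RingHom.comp_apply, RingHom.comp_apply, g2_u, nTi'_xi, nQ_x, gi_x, qQ,
      map_mul, map_pow, g1_b, ← xu_val]
  · rw [RingHom.comp_apply, RingHom.comp_apply, RingHom.comp_apply, g2_v,
      map_mul (nTi' p t w htw), Units.val_pow_eq_pow_val, map_pow (nTi' p t w htw), nTi'_xi,
      nTi'_y, gi_y, qQ, map_mul (g1 B (pT (rev p) t)), map_pow (g1 B (pT (rev p) t)), g1_b, g1_y]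
    have h1 : aN B p t * (algebraMap B (NN B p t) w ^ 2 * zN B p t) ^ 2 * xN B p t ^ 3 =
        aN B p t * xN B p t := by
      linear_combination (aN B p t * xN B p t *
        (algebraMap B (NN B p t) w ^ 2 * zN B p t * xN B p t + 1)) * hz
    rw [h1, map_mul, nQ_a, nQ_x]
    linear_combination (algebraMap B (QN B p t) t ^ 3 * yv B (pT (rev p) t)) * hx

end rings

end YHX

open YHX in
theorem t_YHX : Stmt_YHX := by
  intro B _ p t w htw
  have hcond : spMap (g1 B (pT p t)) ≫ YX.inT B p t =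
      spMap (g2 B (pT p t)) ≫ spMap (gg p t w htw) ≫ YX.inQ B p t := by
    rw [← Category.assoc (spMap (g2 B (pT p t))), spMap_comp', ← th_qQ, ← spMap_comp',
      Category.assoc, ← YX.condQ, ← Category.assoc, spMap_comp', th_nQ, YX.condT]
  let m : HX B (pT p t) ⟶ YX B p t :=
    pushout.desc (YX.inT B p t) (spMap (gg p t w htw) ≫ YX.inQ B p t) hcond
  have hm1 : HX.in1 B (pT p t) ≫ m = YX.inT B p t := pushout.inl_desc _ _ _
  have hm2 : HX.in2 B (pT p t) ≫ m = spMap (gg p t w htw) ≫ YX.inQ B p t :=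
    pushout.inr_desc _ _ _
  have hpo : spMap (g1 B (pT p t)) ≫ HX.in1 B (pT p t) =
      spMap (g2 B (pT p t)) ≫ HX.in2 B (pT p t) := pushout.condition
  have hnt : (nT B p t).comp ((nTi' p t w htw).comp (tT B p t)) = tT B p t := by
    refine hom1_ext ?_ ?_ ?_
    · intro c
      rw [RingHom.comp_apply, RingHom.comp_apply, tT, g1_b, nTi'_b, nT_c]
    · have e2 := tw (algebraMap B (TN B p t)) htw 2
      rw [RingHom.comp_apply, RingHom.comp_apply, tT, ← xu_val, nTi'_x, map_mul, map_pow, nT_c,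
        nT_z]
      linear_combination (xu B (pT p t) : TN B p t) * e2
    · have e2 := tw (algebraMap B (TN B p t)) htw 2
      have hx : (xu B (pT p t) : TN B p t) * ((xu B (pT p t))⁻¹ : (TN B p t)ˣ).val = 1 :=
        Units.mul_inv _
      rw [RingHom.comp_apply, RingHom.comp_apply, tT, g1_y, nTi'_y, map_mul, map_pow, map_mul,
        map_pow, nT_c, nT_z, nT_a]
      have h1 : algebraMap B (TN B p t) w ^ 2 * (algebraMap B (TN B p t) t ^ 2 *
          (xu B (pT p t) : TN B p t)) = (xu B (pT p t) : TN B p t) := by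
        linear_combination (xu B (pT p t) : TN B p t) * e2
      rw [h1, mul_assoc, ← mul_pow, mul_comm ((xu B (pT p t))⁻¹ : (TN B p t)ˣ).val, hx, one_pow,
        mul_one]
  let n : YX B p t ⟶ HX B (pT p t) :=
    YX.desc (HX.in1 B (pT p t)) (spMap ((nTi' p t w htw).comp (tT B p t)) ≫ HX.in1 B (pT p t))
      (spMap (gi p t) ≫ HX.in2 B (pT p t))
      (by rw [← Category.assoc, spMap_comp', hnt])
      (by
        rw [← spMap_comp', Category.assoc, tT, hpo, ← Category.assoc, ← Category.assoc,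
          ← Category.assoc, spMap_comp', spMap_comp', spMap_comp', RingHom.comp_assoc,
          nQ_nTi'_g2])
  have hn1 : YX.inT B p t ≫ n = HX.in1 B (pT p t) := YX.inT_desc _ _ _ _ _
  have hn2 : YX.inN B p t ≫ n =
      spMap ((nTi' p t w htw).comp (tT B p t)) ≫ HX.in1 B (pT p t) := YX.inN_desc _ _ _ _ _
  have hn3 : YX.inQ B p t ≫ n = spMap (gi p t) ≫ HX.in2 B (pT p t) := YX.inQ_desc _ _ _ _ _
  have hid : ∀ (R : Type) [CommRing R], spMap (RingHom.id R) = 𝟙 _ := fun R _ => Spec.map_id _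
  refine ⟨gg p t w htw, m, ⟨n, ?_, ?_⟩, gg_b p t w htw, gg_x p t w htw, gg_y p t w htw, hm1, hm2,
    ?_⟩
  · refine HX.ext' ?_ ?_
    · rw [← Category.assoc, hm1, hn1, Category.comp_id]
    · rw [← Category.assoc, hm2, Category.assoc, hn3, ← Category.assoc, spMap_comp', gg_gi, hid,
        Category.id_comp, Category.comp_id]
  · refine YX.ext ?_ ?_ ?_
    · rw [← Category.assoc, hn1, hm1, Category.comp_id]
    · rw [← Category.assoc, hn2, Category.assoc, hm1, ← spMap_comp', Category.assoc, ← YX.condT,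
        ← Category.assoc, spMap_comp', nTi'_nT, hid, Category.id_comp, Category.comp_id]
    · rw [← Category.assoc, hn3, Category.assoc, hm2, ← Category.assoc, spMap_comp', gi_gg, hid,
        Category.id_comp, Category.comp_id]
  · refine HX.ext' ?_ ?_
    · rw [← Category.assoc, hm1, YX.inT_pr, HX.in1_pr]
    · rw [← Category.assoc, hm2, Category.assoc, YX.inQ_pr, HX.in2_pr, spMap_comp']
      exact congrArg (fun f => spMap f) (RingHom.ext fun c => gg_b p t w htw c)

end Pool.Agent.MG.H2
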