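import Pool.Agent.MG.H2.StmtsY
import Pool.Agent.MG.H2.Cf2

/-!
# YNB: a basis of the ring `N`
-/

open Polynomial

namespace Pool.Agent.MG.H2

namespace YNB

section span

variable {B : Type} [CommRing B] (p : Fin 7 → B) (t : B)

/-- The elements of the normal form. -/
noncomputable def el (c d e f : B[X]) : NN B p t :=
  aeval (xN B p t) c + zN B p t * aeval (zN B p t) d + aeval (xN B p t) e * aN B p t +
    aeval (zN B p t) f * bN B p t

/-- The span. -/
noncomputable def SS : Submodule B (NN B p t) where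
  carrier := {v | ∃ c d e f : B[X], v = el p t c d e f}
  add_mem' := by
    rintro _ _ ⟨c, d, e, f, rfl⟩ ⟨c', d', e', f', rfl⟩
    refine ⟨c + c', d + d', e + e', f + f', ?_⟩
    unfold el
    rw [map_add, map_add, map_add, map_add]
    ring
  zero_mem' := ⟨0, 0, 0, 0, by
    unfold el
    rw [map_zero, map_zero]
    ring⟩
  smul_mem' := by
    rintro a _ ⟨c, d, e, f, rfl⟩
    refine ⟨a • c, a • d, a • e, a • f, ?_⟩
    unfold el
    rw [map_smul, map_smul, map_smul, map_smul, smul_add, smul_add, smul_add, mul_smul_comm,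
      smul_mul_assoc, smul_mul_assoc]

theorem el_mem (c d e f : B[X]) : el p t c d e f ∈ SS p t := ⟨c, d, e, f, rfl⟩

theorem one_mem : (1 : NN B p t) ∈ SS p t := ⟨1, 0, 0, 0, by
  unfold el
  rw [map_one, map_zero, map_zero]
  ring⟩

theorem split {R : Type} [CommRing R] [Algebra B R] (x : R) (c : B[X]) :
    aeval x c = algebraMap B R (c.coeff 0) + x * aeval x c.divX := by
  conv_lhs => rw [← X_mul_divX_add c]
  rw [map_add, map_mul, aeval_X, aeval_C]
  ring

theorem x_mul {v : NN B p t} (hv : v ∈ SS p t) : xN B p t * v ∈ SS p t := by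
  obtain ⟨c, d, e, f, rfl⟩ := hv
  have h1 := (relN B p t).zx
  have h2 := (relN B p t).xb
  have h3 : xN B p t * el p t c d e f = el p t (X * c + C (t ^ 2 * d.coeff 0)) (C (t ^ 2) * d.divX)
      (X * e + C (t * f.coeff 0)) 0 +
        algebraMap B (NN B p t) (t ^ 2) * (aeval (zN B p t) f.divX * bN B p t) := by
    unfold el
    rw [split (zN B p t) d, split (zN B p t) f]
    simp only [map_add, map_mul, aeval_X, aeval_C, map_zero, zero_mul, add_zero, map_pow]
    linear_combination (algebraMap B (NN B p t) (d.coeff 0) +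
      zN B p t * aeval (zN B p t) d.divX) * h1 + algebraMap B (NN B p t) (f.coeff 0) * h2 +
      aeval (zN B p t) f.divX * bN B p t * h1
  rw [h3]
  refine add_mem (el_mem _ _ _ _ _ _) ?_
  rw [← Algebra.smul_def]
  refine Submodule.smul_mem _ _ ⟨0, 0, 0, f.divX, ?_⟩
  unfold el
  rw [map_zero, map_zero]
  ring

theorem z_mul {v : NN B p t} (hv : v ∈ SS p t) : zN B p t * v ∈ SS p t := by
  obtain ⟨c, d, e, f, rfl⟩ := hv
  have h1 := (relN B p t).zx
  have h2 := (relN B p t).za
  have h3 : zN B p t * el p t c d e f = el p t (C (t ^ 2) * c.divX) (C (c.coeff 0) + X * d)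
      (C (t ^ 2) * e.divX) (X * f + C (t * e.coeff 0)) := by
    unfold el
    rw [split (xN B p t) c, split (xN B p t) e]
    simp only [map_add, map_mul, aeval_X, aeval_C, map_pow]
    linear_combination (aeval (xN B p t) c.divX + aeval (xN B p t) e.divX * aN B p t) * h1 +
      algebraMap B (NN B p t) (e.coeff 0) * h2
  rw [h3]
  exact el_mem _ _ _ _ _ _

/-- The elements which preserve the span. -/
noncomputable def MM : Subalgebra B (NN B p t) where
  carrier := {u | ∀ s ∈ SS p t, u * s ∈ SS p t}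
  mul_mem' := fun {a b} ha hb s hs => by
    rw [mul_assoc]
    exact ha _ (hb s hs)
  add_mem' := fun {a b} ha hb s hs => by
    rw [add_mul]
    exact add_mem (ha s hs) (hb s hs)
  algebraMap_mem' := fun a s hs => by
    rw [← Algebra.smul_def]
    exact Submodule.smul_mem _ _ hs

theorem x_mem : xN B p t ∈ MM p t := fun _ hs => x_mul p t hs

theorem z_mem : zN B p t ∈ MM p t := fun _ hs => z_mul p t hs

theorem ax_mem (c : B[X]) : aeval (xN B p t) c ∈ MM p t :=
  Algebra.adjoin_le (Set.singleton_subset_iff.2 (x_mem p t)) (aeval_mem_adjoin_singleton B _)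

theorem az_mem (c : B[X]) : aeval (zN B p t) c ∈ MM p t :=
  Algebra.adjoin_le (Set.singleton_subset_iff.2 (z_mem p t)) (aeval_mem_adjoin_singleton B _)

theorem K_mem : KK (fun i => algebraMap B (NN B p t) (p i)) (zN B p t) (xN B p t) ∈ MM p t := by
  have hx := x_mem p t
  have hz := z_mem p t
  have hc : ∀ c, algebraMap B (NN B p t) c ∈ MM p t := fun c => (MM p t).algebraMap_mem c
  unfold KK
  exact add_mem (add_mem (add_mem (add_mem (add_mem (add_mem (hc _) (mul_mem (hc _) hx))
    (mul_mem (hc _) (pow_mem hx _))) (mul_mem (hc _) (pow_mem hx _))) (mul_mem (hc _) hz))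
    (mul_mem (hc _) (pow_mem hz _))) (mul_mem (hc _) (pow_mem hz _))

theorem mem_SS {u : NN B p t} (hu : u ∈ MM p t) : u ∈ SS p t := by
  have := hu 1 (one_mem p t)
  rwa [mul_one] at this

theorem a_mem : aN B p t ∈ MM p t := by
  intro s hs
  obtain ⟨c, d, e, f, rfl⟩ := hs
  have h1 := (relN B p t).aa
  have h2 := (relN B p t).ab
  have h3 := (relN B p t).za
  have h4 : aN B p t * el p t c d e f = el p t 0 0 c (C t * d) +
      aeval (xN B p t) e * (xN B p t *
        KK (fun i => algebraMap B (NN B p t) (p i)) (zN B p t) (xN B p t)) +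
      aeval (zN B p t) f * (algebraMap B (NN B p t) t *
        KK (fun i => algebraMap B (NN B p t) (p i)) (zN B p t) (xN B p t)) := by
    unfold el
    simp only [map_zero, mul_zero, zero_add, map_mul, aeval_C]
    linear_combination aeval (zN B p t) d * h3 + aeval (xN B p t) e * h1 +
      aeval (zN B p t) f * h2
  rw [h4]
  exact add_mem (add_mem (el_mem _ _ _ _ _ _) (mem_SS p t (mul_mem (ax_mem p t _)
    (mul_mem (x_mem p t) (K_mem p t))))) (mem_SS p t (mul_mem (az_mem p t _)
    (mul_mem ((MM p t).algebraMap_mem t) (K_mem p t))))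

theorem b_mem : bN B p t ∈ MM p t := by
  intro s hs
  obtain ⟨c, d, e, f, rfl⟩ := hs
  have h1 := (relN B p t).bb
  have h2 := (relN B p t).ab
  have h3 := (relN B p t).xb
  have h4 : bN B p t * el p t c d e f = el p t 0 0 (C t * c.divX)
      (C (c.coeff 0) + X * d) +
      aeval (zN B p t) f * (zN B p t *
        KK (fun i => algebraMap B (NN B p t) (p i)) (zN B p t) (xN B p t)) +
      aeval (xN B p t) e * (algebraMap B (NN B p t) t *
        KK (fun i => algebraMap B (NN B p t) (p i)) (zN B p t) (xN B p t)) := by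
    unfold el
    rw [split (xN B p t) c]
    simp only [map_zero, mul_zero, zero_add, map_mul, map_add, aeval_C, aeval_X]
    linear_combination aeval (xN B p t) c.divX * h3 + aeval (xN B p t) e * h2 +
      aeval (zN B p t) f * h1
  rw [h4]
  exact add_mem (add_mem (el_mem _ _ _ _ _ _) (mem_SS p t (mul_mem (az_mem p t _)
    (mul_mem (z_mem p t) (K_mem p t))))) (mem_SS p t (mul_mem (ax_mem p t _)
    (mul_mem ((MM p t).algebraMap_mem t) (K_mem p t))))

theorem all_mem (v : NN B p t) : v ∈ MM p t := by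
  obtain ⟨q, rfl⟩ := Ideal.Quotient.mk_surjective v
  induction q using MvPolynomial.induction_on with
  | C c => exact (MM p t).algebraMap_mem c
  | add v w hv hw =>
    rw [map_add]
    exact add_mem hv hw
  | mul_X v i hv =>
    rw [map_mul]
    refine mul_mem hv ?_
    fin_cases i
    · exact z_mem p t
    · exact x_mem p t
    · exact a_mem p t
    · exact b_mem p t

end span

section inj

variable {B : Type} [CommRing B] {f : Fin 7 → B}

theorem cc_xi (p : B[X]) (j : ℤ) : cf j (aeval (xi f) p) = 0 ∧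
    cg j (aeval (xi f) p) = (if j ≤ 0 then p.coeff (-j).toNat else 0) ∧
    cf j (aeval (xi f) p * yv B f) = (if j ≤ 0 then p.coeff (-j).toNat else 0) ∧
    cg j (aeval (xi f) p * yv B f) = 0 := by
  induction p using Polynomial.induction_on' with
  | add p q hp hq =>
    obtain ⟨h1, h2, h3, h4⟩ := hp
    obtain ⟨k1, k2, k3, k4⟩ := hq
    rw [map_add, add_mul, map_add, map_add, map_add, map_add, h1, h2, h3, h4, k1, k2, k3, k4,
      coeff_add]
    refine ⟨by ring, ?_, ?_, by ring⟩
    · split_ifs <;> ring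
    · split_ifs <;> ring
  | monomial n a =>
    have e : aeval (xi f) (monomial n a) =
        algebraMap B (A12 B f) a * ((xu B f) ^ (-(n : ℤ)) : (A12 B f)ˣ).val := by
      rw [aeval_monomial, zpow_neg, zpow_natCast, ← inv_pow, Units.val_pow_eq_pow_val]
    rw [e, cf_mono, cg_mono, cf_mono_y, cg_mono_y, coeff_monomial]
    have h1 : (if -(n : ℤ) = j then a else 0) =
        if j ≤ 0 then (if n = (-j).toNat then a else 0) else 0 := by
      by_cases h : -(n : ℤ) = j
      · rw [if_pos h, if_pos (by omega), if_pos (by omega)]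
      · rw [if_neg h]
        split_ifs
        · omega
        · rfl
        · rfl
    exact ⟨rfl, h1, h1, rfl⟩

theorem aeval_tx (s : B) (p : B[X]) : aeval (algebraMap B (A12 B f) s * xx f) p =
    aeval (xx f) (p.comp (C s * X)) := by
  rw [aeval_comp, map_mul, aeval_C, aeval_X]

theorem cf_tx (s : B) (p : B[X]) (j : ℤ) : cf j (aeval (algebraMap B (A12 B f) s * xx f) p) = 0 := by
  rw [aeval_tx, cf_aeval]

theorem cg_tx (s : B) (p : B[X]) (j : ℤ) (hj : j < 0) :
    cg j (aeval (algebraMap B (A12 B f) s * xx f) p) = 0 := by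
  rw [aeval_tx, cg_aeval, if_neg (by omega)]

theorem cf_tx_mul (s : B) (p : B[X]) (j : ℤ) :
    cf j (algebraMap B (A12 B f) s * xx f * aeval (algebraMap B (A12 B f) s * xx f) p) = 0 := by
  rw [mul_assoc, cf_b, cf_x, cf_tx, mul_zero]

theorem cg_tx_mul (s : B) (p : B[X]) (j : ℤ) (hj : j ≤ 0) :
    cg j (algebraMap B (A12 B f) s * xx f * aeval (algebraMap B (A12 B f) s * xx f) p) = 0 := by
  rw [mul_assoc, cg_b, cg_x, cg_tx _ _ _ (by omega), mul_zero]

theorem cf_tx_y (s t : B) (p : B[X]) (j : ℤ) (hj : j ≤ -2) :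
    cf j (aeval (algebraMap B (A12 B f) s * xx f) p * (algebraMap B (A12 B f) t *
      (yv B f * xi f))) = 0 := by
  have e : aeval (algebraMap B (A12 B f) s * xx f) p * (algebraMap B (A12 B f) t *
      (yv B f * xi f)) = algebraMap B (A12 B f) t * (xi f *
        (aeval (xx f) (p.comp (C s * X)) * yv B f)) := by
    rw [aeval_tx]
    ring
  rw [e, cf_b, cf_xi, cf_aeval_y, if_neg (by omega), mul_zero]

theorem cg_tx_y (s t : B) (p : B[X]) (j : ℤ) :
    cg j (aeval (algebraMap B (A12 B f) s * xx f) p * (algebraMap B (A12 B f) t *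
      (yv B f * xi f))) = 0 := by
  have e : aeval (algebraMap B (A12 B f) s * xx f) p * (algebraMap B (A12 B f) t *
      (yv B f * xi f)) = algebraMap B (A12 B f) t * (xi f *
        (aeval (xx f) (p.comp (C s * X)) * yv B f)) := by
    rw [aeval_tx]
    ring
  rw [e, cg_b, cg_xi, cg_aeval_y, mul_zero]

theorem cf_xi_y (p : B[X]) (j : ℤ) : cf j (aeval (xi f) p * (yv B f * xi f ^ 2)) =
    if j + 2 ≤ 0 then p.coeff (-(j + 2)).toNat else 0 := by
  have e : aeval (xi f) p * (yv B f * xi f ^ 2) = xi f ^ 2 * (aeval (xi f) p * yv B f) := by ring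
  rw [e, cf_xipow]
  exact (cc_xi p _).2.2.1

theorem cg_xi_y (p : B[X]) (j : ℤ) : cg j (aeval (xi f) p * (yv B f * xi f ^ 2)) = 0 := by
  have e : aeval (xi f) p * (yv B f * xi f ^ 2) = xi f ^ 2 * (aeval (xi f) p * yv B f) := by ring
  rw [e, cg_xipow]
  exact (cc_xi p _).2.2.2

/-- The computation for the first chart. -/
theorem first {s t : B} {c d e g : B[X]} (h : aeval (xi f) c +
    algebraMap B (A12 B f) s * xx f * aeval (algebraMap B (A12 B f) s * xx f) d +
    aeval (xi f) e * (yv B f * xi f ^ 2) +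
    aeval (algebraMap B (A12 B f) s * xx f) g * (algebraMap B (A12 B f) t *
      (yv B f * xi f)) = 0) : c = 0 ∧ e = 0 := by
  constructor
  · ext n
    have h1 := congrArg (cg (-(n : ℤ))) h
    rw [map_add, map_add, map_add, map_zero, (cc_xi c _).2.1, cg_tx_mul _ _ _ (by omega),
      cg_xi_y, cg_tx_y, if_pos (by omega), add_zero, add_zero, add_zero, neg_neg,
      Int.toNat_natCast] at h1
    rw [h1, coeff_zero]
  · ext n
    have h1 := congrArg (cf (-(n : ℤ) - 2)) h
    rw [map_add, map_add, map_add, map_zero, (cc_xi c _).1, cf_tx_mul,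
      cf_xi_y, cf_tx_y _ _ _ _ (by omega), if_pos (by omega), add_zero, zero_add, zero_add,
      sub_add_cancel, neg_neg, Int.toNat_natCast] at h1
    rw [h1, coeff_zero]

/-- The computation for the second chart. -/
theorem second {s t : B} {c d e g : B[X]} (h : aeval (algebraMap B (A12 B f) s * xx f) c +
    xi f * aeval (xi f) d + aeval (algebraMap B (A12 B f) s * xx f) e *
      (algebraMap B (A12 B f) t * (yv B f * xi f)) +
    aeval (xi f) g * (yv B f * xi f ^ 2) = 0) : d = 0 ∧ g = 0 := by
  constructor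
  · ext n
    have h1 := congrArg (cg (-(n : ℤ) - 1)) h
    rw [map_add, map_add, map_add, map_zero, cg_tx _ _ _ (by omega), cg_xi, (cc_xi d _).2.1,
      cg_tx_y, cg_xi_y, if_pos (by omega), add_zero, add_zero, zero_add, sub_add_cancel, neg_neg,
      Int.toNat_natCast] at h1
    rw [h1, coeff_zero]
  · ext n
    have h1 := congrArg (cf (-(n : ℤ) - 2)) h
    rw [map_add, map_add, map_add, map_zero, cf_tx, cf_xi, (cc_xi d _).1,
      cf_tx_y _ _ _ _ (by omega), cf_xi_y, if_pos (by omega), zero_add, zero_add, zero_add,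
      sub_add_cancel, neg_neg, Int.toNat_natCast] at h1
    rw [h1, coeff_zero]

theorem hom_aeval {R S : Type} [CommRing R] [CommRing S] [Algebra B R] [Algebra B S]
    (φ : R →+* S) (h : ∀ c, φ (algebraMap B R c) = algebraMap B S c) (x : R) (p : B[X]) :
    φ (aeval x p) = aeval (φ x) p := by
  let ψ : R →ₐ[B] S := { φ with commutes' := h }
  exact (aeval_algHom_apply ψ x p).symm

end inj

end YNB

theorem t_YNB : Stmt_YNB := by
  intro B _ p t
  refine ⟨fun v => YNB.mem_SS p t (YNB.all_mem p t v), fun c d e f hT hQ => ?_⟩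
  have h1 : c = 0 ∧ e = 0 := by
    rw [map_add, map_add, map_add, map_mul, map_mul, map_mul,
      YNB.hom_aeval (nT B p t) (nT_c B p t), YNB.hom_aeval (nT B p t) (nT_c B p t),
      YNB.hom_aeval (nT B p t) (nT_c B p t), YNB.hom_aeval (nT B p t) (nT_c B p t),
      nT_z, nT_x, nT_a, nT_b, ← map_pow] at hT
    exact YNB.first hT
  have h2 : d = 0 ∧ f = 0 := by
    rw [map_add, map_add, map_add, map_mul, map_mul, map_mul,
      YNB.hom_aeval (nQ B p t) (nQ_c B p t), YNB.hom_aeval (nQ B p t) (nQ_c B p t),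
      YNB.hom_aeval (nQ B p t) (nQ_c B p t), YNB.hom_aeval (nQ B p t) (nQ_c B p t),
      nQ_z, nQ_x, nQ_a, nQ_b, ← map_pow] at hQ
    exact YNB.second hQ
  exact ⟨h1.1, h2.1, h1.2, h2.2⟩

end Pool.Agent.MG.H2
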