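import Pool.Agent.MG.H2.StmtsY
import Pool.Agent.MG.H2.YHS

/-!
# YND: the curves `YX K p 0` are nodal
-/

open CategoryTheory CategoryTheory.Limits AlgebraicGeometry TensorProduct

namespace Pool.Agent.MG.H2

namespace YND

variable {K : Type} [Field K]

/-- The point `x` has a neighbourhood as in the definition of nodal curves. -/
def At {X : Scheme.{0}} (π : X ⟶ Sp K) (x : X) : Prop :=
  ∃ (U : Scheme.{0}) (f : U ⟶ X) (h : U ⟶ Sp (NodeRing K)),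
    Etale f ∧ Etale h ∧ f ≫ π = h ≫ spMap (algebraMap K (NodeRing K)) ∧ x ∈ Set.range f

/-- Push forward along an open immersion. -/
theorem push {X Y : Scheme.{0}} (j : Y ⟶ X) [IsOpenImmersion j] (π : X ⟶ Sp K) (π' : Y ⟶ Sp K)
    (hj : j ≫ π = π') {z : Y} (hz : At π' z) : At π (j z) := by
  obtain ⟨U, f, h, hf, hh, e, w, hw⟩ := hz
  have := hf
  refine ⟨U, f ≫ j, h, inferInstance, hh, ?_, w, ?_⟩
  · rw [Category.assoc, hj, e]
  · rw [Scheme.Hom.comp_apply, hw]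

theorem EE_mem {R : Type} [CommRing R] (p : Fin 7 → R) (z ξ : R) (I : Ideal R) (hz : z ∈ I)
    (hξ : ξ ∈ I) : EE p z ξ ∈ I := by
  have h : EE p z ξ = (p 2 + 2 * p 1 * ξ + 3 * p 0 * ξ ^ 2) * ξ +
      (- p 4 - 2 * p 5 * z - 3 * p 6 * z ^ 2) * z := by
    unfold EE
    ring
  rw [h]
  exact I.add_mem (I.mul_mem_left _ hξ) (I.mul_mem_left _ hz)

theorem atT {p : Fin 7 → K} (hSM : Stmt_YSM) (hp : YOk K p 0) (z : Sp (TT K p 0)) :
    At (YX.pr K p 0) (YX.inT K p 0 z) := by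
  have h1 := YHS.nodal_of_smooth _ (hSM K (pT p 0) hp.two hp.sT)
  exact push (YX.inT K p 0) (YX.pr K p 0) _ (YX.inT_pr K p 0) (h1 z)

theorem atQ {p : Fin 7 → K} (hSM : Stmt_YSM) (hp : YOk K p 0) (z : Sp (QQ K p 0)) :
    At (YX.pr K p 0) (YX.inQ K p 0 z) := by
  have h1 := YHS.nodal_of_smooth _ (hSM K (pT (rev p) 0) hp.two hp.sQ)
  exact push (YX.inQ K p 0) (YX.pr K p 0) _ (YX.inQ_pr K p 0) (h1 z)

theorem atN {p : Fin 7 → K} (hNN : Stmt_YNN) (hSM : Stmt_YSM) (hp : YOk K p 0)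
    (z : Sp (NN K p 0)) : At (YX.pr K p 0) (YX.inN K p 0 z) := by
  by_cases hK : KN K p 0 ∈ z.asIdeal
  · have hE : EN K p 0 ∉ z.asIdeal := by
      intro hE
      obtain ⟨a, b, hab⟩ := hp.sN
      apply z.isPrime.ne_top
      rw [Ideal.eq_top_iff_one, ← hab]
      exact z.asIdeal.add_mem (z.asIdeal.mul_mem_left _ hK) (z.asIdeal.mul_mem_left _ hE)
    have hzx : ¬ (zN K p 0 ∈ z.asIdeal ∧ xN K p 0 ∈ z.asIdeal) :=
      fun h => hE (EE_mem _ _ _ _ h.1 h.2)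
    by_cases hx : xN K p 0 ∈ z.asIdeal
    · have hz : zN K p 0 ∉ z.asIdeal := fun h => hzx ⟨h, hx⟩
      obtain ⟨w, hw⟩ := (range_nQ K p 0 z).2 hz
      have e : YX.inN K p 0 z = YX.inQ K p 0 (spMap (qQ K p 0) w) := by
        rw [← hw, ← Scheme.Hom.comp_apply, ← Scheme.Hom.comp_apply, YX.condQ]
      rw [e]
      exact atQ hSM hp _
    · obtain ⟨w, hw⟩ := (range_nT K p 0 z).2 hx
      have e : YX.inN K p 0 z = YX.inT K p 0 (spMap (tT K p 0) w) := by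
        rw [← hw, ← Scheme.Hom.comp_apply, ← Scheme.Hom.comp_apply, YX.condT]
      rw [e]
      exact atT hSM hp _
  · exact push (YX.inN K p 0) (YX.pr K p 0) _ (YX.inN_pr K p 0)
      (hNN K p hp.two.ne_zero z hK)

end YND

open YND in
theorem t_YND (hNN : Stmt_YNN) (hSM : Stmt_YSM) : Stmt_YND := by
  intro K _ _ p hp x
  rcases YX.surj3 x with ⟨z, rfl⟩ | ⟨z, rfl⟩ | ⟨z, rfl⟩
  · exact atT hSM hp z
  · exact atN hNN hSM hp z
  · exact atQ hSM hp z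

end Pool.Agent.MG.H2
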