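import Pool.Agent.MG.H2.StmtsY

/-!
# YNN: the node of the curves `YX K p 0`
-/

open CategoryTheory CategoryTheory.Limits AlgebraicGeometry TensorProduct

namespace Pool.Agent.MG.H2

namespace YNN

/-! ### The node ring -/

section node

variable (K : Type) [Field K]

/-- The first coordinate. -/
noncomputable def a0 : NodeRing K := Ideal.Quotient.mk _ (MvPolynomial.X 0)

/-- The second coordinate. -/
noncomputable def b0 : NodeRing K := Ideal.Quotient.mk _ (MvPolynomial.X 1)

theorem ab0 : a0 K * b0 K = 0 := by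
  unfold a0 b0
  rw [← map_mul, Ideal.Quotient.eq_zero_iff_mem]
  exact Ideal.subset_span rfl

variable {K}
variable {R : Type} [CommRing R] (φ : K →+* R) (a b : R) (h : a * b = 0)

/-- Homomorphisms from the node ring. -/
noncomputable def lND : NodeRing K →+* R :=
  Ideal.Quotient.lift _ (MvPolynomial.eval₂Hom φ ![a, b]) (by
    intro q hq
    have h1 : Ideal.span {(MvPolynomial.X 0 * MvPolynomial.X 1 : MvPolynomial (Fin 2) K)} ≤
        RingHom.ker (MvPolynomial.eval₂Hom φ ![a, b]) := by
      rw [Ideal.span_le, Set.singleton_subset_iff]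
      change MvPolynomial.eval₂Hom φ ![a, b] (MvPolynomial.X 0 * MvPolynomial.X 1) = 0
      rw [map_mul]
      simp [h]
    exact h1 hq)

theorem lND_a : lND φ a b h (a0 K) = a := (Ideal.Quotient.lift_mk _ _ _).trans (by simp)

theorem lND_b : lND φ a b h (b0 K) = b := (Ideal.Quotient.lift_mk _ _ _).trans (by simp)

theorem lND_c (c : K) : lND φ a b h (algebraMap K _ c) = φ c :=
  (Ideal.Quotient.lift_mk _ (MvPolynomial.eval₂Hom φ ![a, b]) _
    (a := MvPolynomial.C c)).trans (by simp)

theorem homND_ext {g g' : NodeRing K →+* R}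
    (h : ∀ c, g (algebraMap K _ c) = g' (algebraMap K _ c)) (ha : g (a0 K) = g' (a0 K))
    (hb : g (b0 K) = g' (b0 K)) : g = g' := by
  refine Ideal.Quotient.ringHom_ext ?_
  refine MvPolynomial.ringHom_ext (fun c => h c) fun i => ?_
  fin_cases i
  · exact ha
  · exact hb

end node

/-! ### The square root of `k` over `N[1/k]` -/

section sq

variable (N : Type) [CommRing N] (k : N)

/-- `N[1/k][s]/(s² - k)` -/
abbrev E : Type := AdjoinRoot (Polynomial.X ^ 2 - Polynomial.C
  (algebraMap N (Localization.Away k) k) : Polynomial (Localization.Away k))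

/-- The map from `N`. -/
noncomputable def io : N →+* E N k :=
  (algebraMap (Localization.Away k) (E N k)).comp (algebraMap N (Localization.Away k))

/-- The square root. -/
noncomputable def sr : E N k := AdjoinRoot.root _

theorem sr_sq : sr N k ^ 2 = io N k k := by
  have h := AdjoinRoot.eval₂_root (Polynomial.X ^ 2 - Polynomial.C
    (algebraMap N (Localization.Away k) k) : Polynomial (Localization.Away k))
  rw [Polynomial.eval₂_sub, Polynomial.eval₂_pow, Polynomial.eval₂_X, Polynomial.eval₂_C,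
    sub_eq_zero] at h
  exact h

theorem io_unit : IsUnit (io N k k) := by
  have h := (IsLocalization.Away.algebraMap_isUnit (S := Localization.Away k) k).map
    (algebraMap (Localization.Away k) (E N k))
  exact h

theorem sr_unit : IsUnit (sr N k) := by
  have h := io_unit N k
  rw [← sr_sq] at h
  exact (isUnit_pow_iff two_ne_zero).1 h

/-- The inverse of the square root. -/
noncomputable def sri : E N k := ((sr_unit N k).unit⁻¹ : (E N k)ˣ)

theorem sr_sri : sr N k * sri N k = 1 := (sr_unit N k).mul_val_inv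

variable {N k}
variable {R : Type} [CommRing R] (φ : N →+* R) (s : R) (h : s ^ 2 = φ k) (hs : IsUnit s)

include h hs in
theorem unit_k : IsUnit (φ k) := by
  rw [← h]
  exact hs.pow 2

/-- Homomorphisms from `N[1/k][s]/(s² - k)`. -/
noncomputable def lE : E N k →+* R :=
  AdjoinRoot.lift (IsLocalization.Away.lift k (g := φ) (unit_k φ s h hs)) s (by
    rw [Polynomial.eval₂_sub, Polynomial.eval₂_pow, Polynomial.eval₂_X, Polynomial.eval₂_C,
      IsLocalization.Away.lift_eq, h, sub_self])

theorem lE_io (n : N) : lE φ s h hs (io N k n) = φ n := by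
  have h1 : lE φ s h hs (io N k n) =
      IsLocalization.Away.lift k (g := φ) (unit_k φ s h hs)
        (algebraMap N (Localization.Away k) n) := AdjoinRoot.lift_of _
  rw [h1, IsLocalization.Away.lift_eq]

theorem lE_sr : lE φ s h hs (sr N k) = s := AdjoinRoot.lift_root _

theorem homE_ext {g g' : E N k →+* R} (h : ∀ n, g (io N k n) = g' (io N k n))
    (hs : g (sr N k) = g' (sr N k)) : g = g' := by
  refine AdjoinRoot.ringHom_ext ?_ hs
  refine IsLocalization.ringHom_ext (Submonoid.powers k) ?_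
  exact RingHom.ext fun n => h n

theorem map_sri (g : E N k →+* R) {x : R} (hx : g (sr N k) * x = 1) : g (sri N k) = x := by
  have h1 : g (sr N k) * g (sri N k) = 1 := by rw [← map_mul, sr_sri, map_one]
  calc g (sri N k) = (g (sr N k) * x) * g (sri N k) := by rw [hx, one_mul]
    _ = (g (sr N k) * g (sri N k)) * x := by ring
    _ = x := by rw [h1, one_mul]

theorem etale_io (hSQ : Stmt_YSQ) (h2 : IsUnit (2 : N)) : Etale (spMap (io N k)) := by
  have h3 : IsUnit (2 : Localization.Away k) := by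
    have h := h2.map (algebraMap N (Localization.Away k))
    rwa [map_ofNat] at h
  obtain ⟨h4, -⟩ := hSQ (Localization.Away k) (algebraMap N (Localization.Away k) k) h3
    (IsLocalization.Away.algebraMap_isUnit (S := Localization.Away k) k)
  have h5 : spMap (io N k) = spMap (algebraMap (Localization.Away k) (E N k)) ≫
      spMap (algebraMap N (Localization.Away k)) := (spMap_comp' _ _).symm
  have h6 : Etale (spMap (algebraMap N (Localization.Away k))) := inferInstance
  rw [h5]
  infer_instance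

theorem range_io (hSQ : Stmt_YSQ) (h2 : IsUnit (2 : N)) (x : Sp N) (hx : k ∉ x.asIdeal) :
    x ∈ Set.range (spMap (io N k)) := by
  have h3 : IsUnit (2 : Localization.Away k) := by
    have h := h2.map (algebraMap N (Localization.Away k))
    rwa [map_ofNat] at h
  obtain ⟨-, h4⟩ := hSQ (Localization.Away k) (algebraMap N (Localization.Away k) k) h3
    (IsLocalization.Away.algebraMap_isUnit (S := Localization.Away k) k)
  have h5 : Set.range (PrimeSpectrum.comap (algebraMap N (Localization.Away k))) =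
      (PrimeSpectrum.basicOpen k : Set _) :=
    PrimeSpectrum.localization_away_comap_range (Localization.Away k) k
  have h6 : x ∈ Set.range (PrimeSpectrum.comap (algebraMap N (Localization.Away k))) := by
    rw [h5]
    exact hx
  obtain ⟨y, hy⟩ := h6
  obtain ⟨w, hw⟩ := h4 y
  refine ⟨w, ?_⟩
  have h7 : spMap (io N k) = spMap (algebraMap (Localization.Away k) (E N k)) ≫
      spMap (algebraMap N (Localization.Away k)) := (spMap_comp' _ _).symm
  rw [h7, Scheme.Hom.comp_apply, hw]
  exact hy

end sq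

/-! ### The two neighbourhoods agree -/

section iso

variable (K : Type) [Field K] (p : Fin 7 → K)

/-- The function `K` on the node. -/
noncomputable def k0 : NodeRing K :=
  KK (fun i => algebraMap K (NodeRing K) (p i)) (b0 K ^ 2) (a0 K ^ 2)

theorem ab_zero : aN K p 0 * bN K p 0 = 0 := by
  rw [(relN K p 0).ab, map_zero, zero_mul]

/-- The map from the node. -/
noncomputable def chi : NodeRing K →+* E (NN K p 0) (KN K p 0) :=
  lND ((io (NN K p 0) (KN K p 0)).comp (algebraMap K (NN K p 0)))
    (io (NN K p 0) (KN K p 0) (aN K p 0) * sri (NN K p 0) (KN K p 0))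
    (io (NN K p 0) (KN K p 0) (bN K p 0) * sri (NN K p 0) (KN K p 0)) (by
      have h : io (NN K p 0) (KN K p 0) (aN K p 0) * io (NN K p 0) (KN K p 0) (bN K p 0) = 0 := by
        rw [← map_mul, ab_zero, map_zero]
      linear_combination (sri (NN K p 0) (KN K p 0)) ^ 2 * h)

theorem chi_a : chi K p (a0 K) =
    io (NN K p 0) (KN K p 0) (aN K p 0) * sri (NN K p 0) (KN K p 0) := lND_a _ _ _ _

theorem chi_b : chi K p (b0 K) =
    io (NN K p 0) (KN K p 0) (bN K p 0) * sri (NN K p 0) (KN K p 0) := lND_b _ _ _ _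

theorem chi_c (c : K) : chi K p (algebraMap K _ c) =
    io (NN K p 0) (KN K p 0) (algebraMap K _ c) := lND_c _ _ _ _ _

theorem chi_a2 : chi K p (a0 K ^ 2) = io (NN K p 0) (KN K p 0) (xN K p 0) := by
  have h1 := congrArg (io (NN K p 0) (KN K p 0)) (relN K p 0).aa
  have h2 := sr_sq (NN K p 0) (KN K p 0)
  have h3 := sr_sri (NN K p 0) (KN K p 0)
  rw [map_pow, map_mul] at h1
  change io (NN K p 0) (KN K p 0) (aN K p 0) ^ 2 =
    io (NN K p 0) (KN K p 0) (xN K p 0) * io (NN K p 0) (KN K p 0) (KN K p 0) at h1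
  rw [map_pow, chi_a, mul_pow, h1, ← h2]
  linear_combination io (NN K p 0) (KN K p 0) (xN K p 0) *
    (sr (NN K p 0) (KN K p 0) * sri (NN K p 0) (KN K p 0) + 1) * h3

theorem chi_b2 : chi K p (b0 K ^ 2) = io (NN K p 0) (KN K p 0) (zN K p 0) := by
  have h1 := congrArg (io (NN K p 0) (KN K p 0)) (relN K p 0).bb
  have h2 := sr_sq (NN K p 0) (KN K p 0)
  have h3 := sr_sri (NN K p 0) (KN K p 0)
  rw [map_pow, map_mul] at h1
  change io (NN K p 0) (KN K p 0) (bN K p 0) ^ 2 =
    io (NN K p 0) (KN K p 0) (zN K p 0) * io (NN K p 0) (KN K p 0) (KN K p 0) at h1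
  rw [map_pow, chi_b, mul_pow, h1, ← h2]
  linear_combination io (NN K p 0) (KN K p 0) (zN K p 0) *
    (sr (NN K p 0) (KN K p 0) * sri (NN K p 0) (KN K p 0) + 1) * h3

theorem chi_k : chi K p (k0 K p) = io (NN K p 0) (KN K p 0) (KN K p 0) := by
  have h1 : chi K p (k0 K p) = KK (fun i => chi K p (algebraMap K (NodeRing K) (p i)))
      (chi K p (b0 K ^ 2)) (chi K p (a0 K ^ 2)) := KK_map _ _ _ _
  have h2 : io (NN K p 0) (KN K p 0) (KN K p 0) =
      KK (fun i => io (NN K p 0) (KN K p 0) (algebraMap K (NN K p 0) (p i)))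
      (io (NN K p 0) (KN K p 0) (zN K p 0)) (io (NN K p 0) (KN K p 0) (xN K p 0)) :=
    KK_map _ _ _ _
  rw [h1, h2, chi_a2, chi_b2]
  congr 1
  funext i
  exact chi_c K p _

/-- The map of neighbourhoods. -/
noncomputable def e1 : E (NodeRing K) (k0 K p) →+* E (NN K p 0) (KN K p 0) :=
  lE (chi K p) (sr (NN K p 0) (KN K p 0)) (by rw [chi_k, sr_sq]) (sr_unit _ _)

theorem relPsi : NRel (fun i => ((io (NodeRing K) (k0 K p)).comp (algebraMap K (NodeRing K)))
      (p i)) (((io (NodeRing K) (k0 K p)).comp (algebraMap K (NodeRing K))) 0)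
    (io (NodeRing K) (k0 K p) (b0 K ^ 2)) (io (NodeRing K) (k0 K p) (a0 K ^ 2))
    (sr (NodeRing K) (k0 K p) * io (NodeRing K) (k0 K p) (a0 K))
    (sr (NodeRing K) (k0 K p) * io (NodeRing K) (k0 K p) (b0 K)) := by
  have h0 : io (NodeRing K) (k0 K p) (a0 K) * io (NodeRing K) (k0 K p) (b0 K) = 0 := by
    rw [← map_mul, ab0, map_zero]
  have hK : sr (NodeRing K) (k0 K p) ^ 2 =
      KK (fun i => ((io (NodeRing K) (k0 K p)).comp (algebraMap K (NodeRing K))) (p i))
        (io (NodeRing K) (k0 K p) (b0 K ^ 2)) (io (NodeRing K) (k0 K p) (a0 K ^ 2)) := by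
    rw [sr_sq]
    exact KK_map _ _ _ _
  rw [map_zero]
  refine ⟨?_, ?_, ?_, ?_, ?_, ?_⟩
  · rw [map_pow, map_pow]
    linear_combination io (NodeRing K) (k0 K p) (a0 K) * io (NodeRing K) (k0 K p) (b0 K) * h0
  · rw [← hK, map_pow]
    ring
  · rw [← hK, map_pow]
    ring
  · rw [zero_mul]
    linear_combination sr (NodeRing K) (k0 K p) ^ 2 * h0
  · rw [zero_mul, map_pow]
    linear_combination sr (NodeRing K) (k0 K p) * io (NodeRing K) (k0 K p) (a0 K) * h0
  · rw [zero_mul, map_pow]
    linear_combination sr (NodeRing K) (k0 K p) * io (NodeRing K) (k0 K p) (b0 K) * h0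

/-- The map from `N`. -/
noncomputable def psi : NN K p 0 →+* E (NodeRing K) (k0 K p) := liftN _ _ _ _ _ (relPsi K p)

theorem psi_z : psi K p (zN K p 0) = io (NodeRing K) (k0 K p) (b0 K ^ 2) := liftN_z _ _ _ _ _ _

theorem psi_x : psi K p (xN K p 0) = io (NodeRing K) (k0 K p) (a0 K ^ 2) := liftN_x _ _ _ _ _ _

theorem psi_a : psi K p (aN K p 0) =
    sr (NodeRing K) (k0 K p) * io (NodeRing K) (k0 K p) (a0 K) := liftN_a _ _ _ _ _ _

theorem psi_b : psi K p (bN K p 0) =
    sr (NodeRing K) (k0 K p) * io (NodeRing K) (k0 K p) (b0 K) := liftN_b _ _ _ _ _ _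

theorem psi_c (c : K) : psi K p (algebraMap K _ c) =
    io (NodeRing K) (k0 K p) (algebraMap K _ c) := liftN_c _ _ _ _ _ _ _

theorem psi_k : psi K p (KN K p 0) = io (NodeRing K) (k0 K p) (k0 K p) := by
  have h1 : psi K p (KN K p 0) = KK (fun i => psi K p (algebraMap K (NN K p 0) (p i)))
      (psi K p (zN K p 0)) (psi K p (xN K p 0)) := KK_map _ _ _ _
  have h2 : io (NodeRing K) (k0 K p) (k0 K p) =
      KK (fun i => io (NodeRing K) (k0 K p) (algebraMap K (NodeRing K) (p i)))
      (io (NodeRing K) (k0 K p) (b0 K ^ 2)) (io (NodeRing K) (k0 K p) (a0 K ^ 2)) :=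
    KK_map _ _ _ _
  rw [h1, h2, psi_x, psi_z]
  congr 1
  funext i
  exact psi_c K p _

/-- The map of neighbourhoods in the other direction. -/
noncomputable def e2 : E (NN K p 0) (KN K p 0) →+* E (NodeRing K) (k0 K p) :=
  lE (psi K p) (sr (NodeRing K) (k0 K p)) (by rw [psi_k, sr_sq]) (sr_unit _ _)

theorem e1_io (n : NodeRing K) : e1 K p (io _ _ n) = chi K p n := lE_io _ _ _ _ _

theorem e1_sr : e1 K p (sr _ _) = sr _ _ := lE_sr _ _ _ _

theorem e2_io (n : NN K p 0) : e2 K p (io _ _ n) = psi K p n := lE_io _ _ _ _ _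

theorem e2_sr : e2 K p (sr _ _) = sr _ _ := lE_sr _ _ _ _

theorem e2_sri : e2 K p (sri _ _) = sri _ _ := map_sri _ (by rw [e2_sr, sr_sri])

theorem e12 : (e1 K p).comp (e2 K p) = RingHom.id _ := by
  refine homE_ext (fun n => ?_) ?_
  · have h : ((e1 K p).comp (psi K p)) = io (NN K p 0) (KN K p 0) := by
      have h2 := sr_sri (NN K p 0) (KN K p 0)
      refine homN_ext ?_ ?_ ?_ ?_ ?_
      · intro c
        rw [RingHom.comp_apply, psi_c, e1_io, chi_c]
      · rw [RingHom.comp_apply, psi_z, e1_io, chi_b2]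
      · rw [RingHom.comp_apply, psi_x, e1_io, chi_a2]
      · rw [RingHom.comp_apply, psi_a, map_mul, e1_sr, e1_io, chi_a]
        linear_combination io (NN K p 0) (KN K p 0) (aN K p 0) * h2
      · rw [RingHom.comp_apply, psi_b, map_mul, e1_sr, e1_io, chi_b]
        linear_combination io (NN K p 0) (KN K p 0) (bN K p 0) * h2
    rw [RingHom.comp_apply, e2_io, RingHom.id_apply]
    exact congrArg (fun g => g n) h
  · rw [RingHom.comp_apply, e2_sr, e1_sr, RingHom.id_apply]

theorem e21 : (e2 K p).comp (e1 K p) = RingHom.id _ := by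
  refine homE_ext (fun n => ?_) ?_
  · have h : ((e2 K p).comp (chi K p)) = io (NodeRing K) (k0 K p) := by
      have h2 := sr_sri (NodeRing K) (k0 K p)
      refine homND_ext ?_ ?_ ?_
      · intro c
        rw [RingHom.comp_apply, chi_c, e2_io, psi_c]
      · rw [RingHom.comp_apply, chi_a, map_mul, e2_io, psi_a, e2_sri]
        linear_combination io (NodeRing K) (k0 K p) (a0 K) * h2
      · rw [RingHom.comp_apply, chi_b, map_mul, e2_io, psi_b, e2_sri]
        linear_combination io (NodeRing K) (k0 K p) (b0 K) * h2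
    rw [RingHom.comp_apply, e1_io, RingHom.id_apply]
    exact congrArg (fun g => g n) h
  · rw [RingHom.comp_apply, e1_sr, e2_sr, RingHom.id_apply]

/-- The isomorphism of neighbourhoods. -/
noncomputable def ee : E (NodeRing K) (k0 K p) ≃+* E (NN K p 0) (KN K p 0) :=
  RingEquiv.ofRingHom (e1 K p) (e2 K p) (e12 K p) (e21 K p)

theorem etale_chi (hSQ : Stmt_YSQ) (h2 : IsUnit (2 : NodeRing K)) :
    Etale (spMap (chi K p)) := by
  have h1 : spMap (chi K p) = spMap (ee K p : E (NodeRing K) (k0 K p) →+* _) ≫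
      spMap (io (NodeRing K) (k0 K p)) := by
    rw [spMap_comp']
    refine congrArg (fun f => spMap f) (RingHom.ext fun n => ?_)
    exact (e1_io K p n).symm
  have h3 : IsIso (spMap (ee K p : E (NodeRing K) (k0 K p) →+* E (NN K p 0) (KN K p 0))) := by
    have : IsIso (CommRingCat.ofHom
        (ee K p : E (NodeRing K) (k0 K p) →+* E (NN K p 0) (KN K p 0))) :=
      (RingEquiv.toCommRingCatIso (ee K p)).isIso_hom
    infer_instance
  have h4 := etale_io (N := NodeRing K) (k := k0 K p) hSQ h2
  rw [h1]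
  infer_instance

end iso

end YNN

theorem t_YNN (hSQ : Stmt_YSQ) : Stmt_YNN := by
  intro K _ p h2 x hx
  have h3 : IsUnit (2 : K) := h2.isUnit
  have h4 : IsUnit (2 : NN K p 0) := by
    have h := h3.map (algebraMap K (NN K p 0))
    rwa [map_ofNat] at h
  have h5 : IsUnit (2 : NodeRing K) := by
    have h := h3.map (algebraMap K (NodeRing K))
    rwa [map_ofNat] at h
  refine ⟨Sp (YNN.E (NN K p 0) (KN K p 0)), spMap (YNN.io (NN K p 0) (KN K p 0)),
    spMap (YNN.chi K p), YNN.etale_io hSQ h4, YNN.etale_chi K p hSQ h5, ?_,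
    YNN.range_io hSQ h4 x hx⟩
  rw [spMap_comp', spMap_comp']
  refine congrArg (fun f => spMap f) (RingHom.ext fun c => ?_)
  exact (YNN.chi_c K p c).symm

end Pool.Agent.MG.H2
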