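import Pool.Agent.MG.H2.StmtsY

/-!
# YOB: base change of the condition
-/

open CategoryTheory CategoryTheory.Limits AlgebraicGeometry TensorProduct

namespace Pool.Agent.MG.H2

namespace YOB

variable {B B' : Type} [CommRing B] [CommRing B'] (φ : B →+* B') {f : Fin 7 → B}
  {f' : Fin 7 → B'}

theorem pp_bc (h : ∀ i, f' i = φ (f i)) : (pp B f).map φ = pp B' f' := by
  change Polynomial.mapRingHom φ (pp B f) = _
  rw [pp, pp, pol_map]
  have h1 : (fun i => Polynomial.mapRingHom φ (Polynomial.C (f i))) =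
      fun i => Polynomial.C (f' i) := by
    funext i
    rw [Polynomial.coe_mapRingHom, Polynomial.map_C, h]
  rw [h1, Polynomial.coe_mapRingHom, Polynomial.map_X]

theorem cop (h : ∀ i, f' i = φ (f i))
    (hf : IsCoprime (pp B f) (Polynomial.derivative (pp B f))) :
    IsCoprime (pp B' f') (Polynomial.derivative (pp B' f')) := by
  have h1 := hf.map (Polynomial.mapRingHom φ)
  rw [Polynomial.coe_mapRingHom, pp_bc φ h, ← Polynomial.derivative_map, pp_bc φ h] at h1
  exact h1

end YOB

theorem t_YOB : Stmt_YOB := by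
  intro B B' _ _ φ p t p' t' hp ht h
  refine ⟨?_, YOB.cop φ (pT_bc φ hp ht) h.sT, YOB.cop φ (pT_bc φ (rev_bc φ hp) ht) h.sQ, ?_⟩
  · have h2 := h.two.map φ
    rwa [map_ofNat] at h2
  · have h1 := h.sN.map (bcN φ hp ht)
    have hc : (fun i => bcN φ hp ht (algebraMap B (NN B p t) (p i))) =
        fun i => algebraMap B' (NN B' p' t') (p' i) := by
      funext i
      rw [bcN_c, hp]
    rw [KN, EN, KK_map, EE_map, hc, bcN_z, bcN_x] at h1
    exact h1

end Pool.Agent.MG.H2
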