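import Pool.Agent.MG.H2.StmtsY
import Pool.Agent.MG.H2.GoodLem
import Pool.Agent.MG.H2.Cf2

/-!
# YOR: the condition of stability for `∏ (X - ρ i) ∏ (s² X - r j)`
-/

open Polynomial

namespace Pool.Agent.MG.H2

namespace YOR

/-! ### Coprimality and points of fields -/

theorem isCoprime_of_pts {A : Type} [CommRing A] (a b : A)
    (h : ∀ (L : Type) [Field L] (χ : A →+* L), ¬ (χ a = 0 ∧ χ b = 0)) : IsCoprime a b := by
  by_contra hc
  have hne : Ideal.span {a, b} ≠ ⊤ := by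
    intro ht
    have h1 : (1 : A) ∈ Ideal.span {a, b} := by rw [ht]; trivial
    obtain ⟨u, v, huv⟩ := Ideal.mem_span_pair.1 h1
    exact hc ⟨u, v, huv⟩
  obtain ⟨m, hm, hle⟩ := Ideal.exists_le_maximal _ hne
  let _ : Field (A ⧸ m) := Ideal.Quotient.field m
  refine h (A ⧸ m) (Ideal.Quotient.mk m) ⟨?_, ?_⟩
  · rw [Ideal.Quotient.eq_zero_iff_mem]
    exact hle (Ideal.subset_span (by simp))
  · rw [Ideal.Quotient.eq_zero_iff_mem]
    exact hle (Ideal.subset_span (by simp))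

/-- A product of linear factors has no double zero at `a`, if at most one of them vanishes at `a`,
and this one is not constant. -/
theorem no_double {K ι : Type} [Field K] [Fintype ι] [DecidableEq ι] (u v : ι → K) (a : K)
    (h : ∀ k, u k * a = v k → u k ≠ 0 ∧ ∀ l, l ≠ k → u l * a ≠ v l) :
    ¬ (eval a (∏ k, (C (u k) * X - C (v k))) = 0 ∧
      eval a (derivative (∏ k, (C (u k) * X - C (v k)))) = 0) := by
  rintro ⟨h1, h2⟩
  rw [eval_prod] at h1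
  obtain ⟨k, -, hk⟩ := Finset.prod_eq_zero_iff.1 h1
  have hk' : u k * a = v k := by
    rw [eval_sub, eval_mul, eval_C, eval_X, eval_C, sub_eq_zero] at hk
    exact hk
  obtain ⟨h3, h4⟩ := h k hk'
  rw [← Finset.mul_prod_erase Finset.univ _ (Finset.mem_univ k), derivative_mul, eval_add,
    eval_mul, eval_mul, hk, zero_mul, add_zero, derivative_sub, derivative_C, sub_zero,
    derivative_mul, derivative_C, zero_mul, zero_add, derivative_X, mul_one, eval_C,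
    eval_prod] at h2
  rcases mul_eq_zero.1 h2 with h5 | h5
  · exact h3 h5
  · obtain ⟨l, hl, hl'⟩ := Finset.prod_eq_zero_iff.1 h5
    rw [eval_sub, eval_mul, eval_C, eval_X, eval_C, sub_eq_zero] at hl'
    exact h4 l (Finset.ne_of_mem_erase hl) hl'

/-! ### The coefficients -/

section

variable {R R' : Type} [CommRing R] [CommRing R']

/-- The coefficients. -/
def pf (s : R) (ρ r : Fin 3 → R) : Fin 7 → R :=
  let P1 := -(ρ 0 + ρ 1 + ρ 2)
  let P2 := ρ 0 * ρ 1 + ρ 0 * ρ 2 + ρ 1 * ρ 2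
  let P3 := -(ρ 0 * ρ 1 * ρ 2)
  let R2 := -(r 0 + r 1 + r 2)
  let R1 := r 0 * r 1 + r 0 * r 2 + r 1 * r 2
  let R0 := -(r 0 * r 1 * r 2)
  ![P3 * R0, P2 * R0 + s ^ 2 * P3 * R1, P1 * R0 + s ^ 2 * P2 * R1 + s ^ 4 * P3 * R2,
    R0 + s ^ 2 * P1 * R1 + s ^ 4 * P2 * R2 + s ^ 6 * P3, R1 + s ^ 2 * P1 * R2 + s ^ 4 * P2,
    R2 + s ^ 2 * P1, 1]

theorem pf_map (φ : R →+* R') (s : R) (ρ r : Fin 3 → R) (i : Fin 7) :
    φ (pf s ρ r i) = pf (φ s) (fun i => φ (ρ i)) (fun i => φ (r i)) i := by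
  fin_cases i <;> simp [pf]

theorem KK_pf (s : R) (ρ r : Fin 3 → R) {z ξ : R} (h : z * ξ = s ^ 2) :
    KK (pf s ρ r) z ξ = ((1 - ρ 0 * ξ) * (1 - ρ 1 * ξ) * (1 - ρ 2 * ξ)) *
      ((z - r 0) * (z - r 1) * (z - r 2)) := by
  have h2 : (z * ξ) ^ 2 = s ^ 4 := by rw [h]; ring
  have h3 : (z * ξ) ^ 3 = s ^ 6 := by rw [h]; ring
  simp only [KK, pf, Matrix.cons_val]
  linear_combination
    (-((-(ρ 0 + ρ 1 + ρ 2)) * (r 0 * r 1 + r 0 * r 2 + r 1 * r 2) +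
      (-(ρ 0 + ρ 1 + ρ 2)) * (-(r 0 + r 1 + r 2)) * z + (-(ρ 0 + ρ 1 + ρ 2)) * z ^ 2 +
      (ρ 0 * ρ 1 + ρ 0 * ρ 2 + ρ 1 * ρ 2) * (r 0 * r 1 + r 0 * r 2 + r 1 * r 2) * ξ +
      (-(ρ 0 * ρ 1 * ρ 2)) * (r 0 * r 1 + r 0 * r 2 + r 1 * r 2) * ξ ^ 2)) * h +
    (-((ρ 0 * ρ 1 + ρ 0 * ρ 2 + ρ 1 * ρ 2) * (-(r 0 + r 1 + r 2)) +
      (ρ 0 * ρ 1 + ρ 0 * ρ 2 + ρ 1 * ρ 2) * z +
      (-(ρ 0 * ρ 1 * ρ 2)) * (-(r 0 + r 1 + r 2)) * ξ)) * h2 + (ρ 0 * ρ 1 * ρ 2) * h3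

theorem EE_pf (s : R) (ρ r : Fin 3 → R) {z ξ : R} (h : z * ξ = s ^ 2) :
    EE (pf s ρ r) z ξ =
      -((ρ 0 * ξ * ((1 - ρ 1 * ξ) * (1 - ρ 2 * ξ)) + ρ 1 * ξ * ((1 - ρ 0 * ξ) * (1 - ρ 2 * ξ)) +
        ρ 2 * ξ * ((1 - ρ 0 * ξ) * (1 - ρ 1 * ξ))) * ((z - r 0) * (z - r 1) * (z - r 2))) -
      ((1 - ρ 0 * ξ) * (1 - ρ 1 * ξ) * (1 - ρ 2 * ξ)) *
        (z * ((z - r 1) * (z - r 2) + (z - r 0) * (z - r 2) + (z - r 0) * (z - r 1))) := by
  have h2 : (z * ξ) ^ 2 = s ^ 4 := by rw [h]; ring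
  simp only [EE, pf, Matrix.cons_val]
  linear_combination
    (-(-((-(ρ 0 + ρ 1 + ρ 2)) * (-(r 0 + r 1 + r 2)) * z) - 2 * (-(ρ 0 + ρ 1 + ρ 2)) * z ^ 2 +
      (ρ 0 * ρ 1 + ρ 0 * ρ 2 + ρ 1 * ρ 2) * (r 0 * r 1 + r 0 * r 2 + r 1 * r 2) * ξ +
      2 * (-(ρ 0 * ρ 1 * ρ 2)) * (r 0 * r 1 + r 0 * r 2 + r 1 * r 2) * ξ ^ 2)) * h +
    (-(-((ρ 0 * ρ 1 + ρ 0 * ρ 2 + ρ 1 * ρ 2) * z) +
      (-(ρ 0 * ρ 1 * ρ 2)) * (-(r 0 + r 1 + r 2)) * ξ)) * h2

/-- The polynomial of the chart `T`. -/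
theorem pp_T (s : R) (ρ r : Fin 3 → R) : pp R (pT (pf s ρ r) s) =
    (∏ i, (X - C (ρ i))) * ∏ j, (C (s ^ 2) * X - C (r j)) := by
  simp only [Fin.prod_univ_three, pp, pol, pT, pf, Matrix.cons_val, map_add, map_mul, map_neg,
    map_pow, map_one]
  ring

/-- The polynomial of the chart `Q`. -/
theorem pp_Q (s : R) (ρ r : Fin 3 → R) : pp R (pT (rev (pf s ρ r)) s) =
    (∏ i, (C (-(s ^ 2 * ρ i)) * X - C (-1))) * ∏ j, (C (-(r j)) * X - C (-1)) := by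
  have e0 : rev (pf s ρ r) 0 = pf s ρ r 6 := rfl
  have e1 : rev (pf s ρ r) 1 = pf s ρ r 5 := rfl
  have e2 : rev (pf s ρ r) 2 = pf s ρ r 4 := rfl
  have e3 : rev (pf s ρ r) 3 = pf s ρ r 3 := rfl
  have e4 : rev (pf s ρ r) 4 = pf s ρ r 2 := rfl
  have e5 : rev (pf s ρ r) 5 = pf s ρ r 1 := rfl
  have e6 : rev (pf s ρ r) 6 = pf s ρ r 0 := rfl
  simp only [Fin.prod_univ_three, pp, pol, pT, Matrix.cons_val]
  simp only [e0, e1, e2, e3, e4, e5, e6]
  simp only [pf, Matrix.cons_val, map_add, map_mul, map_neg, map_pow, map_one]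
  ring

end

/-- The conditions for `ρ`, `r` in a field. -/
structure Cond {K : Type} [Field K] (s : K) (ρ r : Fin 3 → K) : Prop where
  hρ : ∀ i j, i ≠ j → ρ i - ρ j ≠ 0
  hr : ∀ i j, i ≠ j → r i - r j ≠ 0
  h0 : ∀ j, r j ≠ 0
  hc : ∀ i j, r j - s ^ 2 * ρ i ≠ 0

variable {K : Type} [Field K] {s : K} {ρ r : Fin 3 → K}

theorem Cond.no_T (D : Cond s ρ r) (a : K) :
    ¬ (eval a (∏ k : Fin 3 ⊕ Fin 3, (C (Sum.elim (fun _ => 1) (fun _ => s ^ 2) k) * X -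
        C (Sum.elim ρ r k))) = 0 ∧
      eval a (derivative (∏ k : Fin 3 ⊕ Fin 3, (C (Sum.elim (fun _ => 1) (fun _ => s ^ 2) k) * X -
        C (Sum.elim ρ r k)))) = 0) := by
  refine no_double _ _ a ?_
  rintro (i | j) h
  · rw [Sum.elim_inl, Sum.elim_inl, one_mul] at h
    refine ⟨one_ne_zero, ?_⟩
    rintro (i' | j') hne h'
    · rw [Sum.elim_inl, Sum.elim_inl, one_mul] at h'
      refine D.hρ i' i (fun e => hne (by rw [e])) ?_
      rw [← h, ← h', sub_self]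
    · rw [Sum.elim_inr, Sum.elim_inr] at h'
      refine D.hc i j' ?_
      rw [← h, ← h', sub_self]
  · rw [Sum.elim_inr, Sum.elim_inr] at h
    refine ⟨fun h1 => D.h0 j ?_, ?_⟩
    · rw [Sum.elim_inr] at h1
      rw [← h, h1, zero_mul]
    rintro (i' | j') hne h'
    · rw [Sum.elim_inl, Sum.elim_inl, one_mul] at h'
      refine D.hc i' j ?_
      rw [← h, ← h', sub_self]
    · rw [Sum.elim_inr, Sum.elim_inr] at h'
      refine D.hr j' j (fun e => hne (by rw [e])) ?_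
      rw [← h, ← h', sub_self]

theorem Cond.no_Q (D : Cond s ρ r) (a : K) :
    ¬ (eval a (∏ k : Fin 3 ⊕ Fin 3,
        (C (Sum.elim (fun i => -(s ^ 2 * ρ i)) (fun j => -(r j)) k) * X - C (-1))) = 0 ∧
      eval a (derivative (∏ k : Fin 3 ⊕ Fin 3,
        (C (Sum.elim (fun i => -(s ^ 2 * ρ i)) (fun j => -(r j)) k) * X - C (-1)))) = 0) := by
  refine no_double _ (fun _ => -1) a ?_
  have ha : ∀ k : Fin 3 ⊕ Fin 3, Sum.elim (fun i => -(s ^ 2 * ρ i)) (fun j => -(r j)) k * a = -1 →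
      a ≠ 0 := by
    intro k h h0
    rw [h0, mul_zero] at h
    exact one_ne_zero (neg_eq_zero.1 h.symm)
  intro k hk
  have h0 := ha k hk
  refine ⟨fun h1 => ?_, fun l hne hl => ?_⟩
  · rw [h1, zero_mul] at hk
    exact one_ne_zero (neg_eq_zero.1 hk.symm)
  have h1 : Sum.elim (fun i => -(s ^ 2 * ρ i)) (fun j => -(r j)) k =
      Sum.elim (fun i => -(s ^ 2 * ρ i)) (fun j => -(r j)) l :=
    mul_right_cancel₀ h0 (hk.trans hl.symm)
  rcases k with i | j <;> rcases l with i' | j'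
  · rw [Sum.elim_inl, Sum.elim_inl, neg_inj] at h1
    have hs : s ^ 2 ≠ 0 := by
      intro h2
      rw [Sum.elim_inl, h2, zero_mul, neg_zero, zero_mul] at hk
      exact one_ne_zero (neg_eq_zero.1 hk.symm)
    exact D.hρ i i' (fun e => hne (by rw [e])) (sub_eq_zero.2 (mul_left_cancel₀ hs h1))
  · rw [Sum.elim_inl, Sum.elim_inr, neg_inj] at h1
    exact D.hc i j' (sub_eq_zero.2 h1.symm)
  · rw [Sum.elim_inl, Sum.elim_inr, neg_inj] at h1
    exact D.hc i' j (sub_eq_zero.2 h1)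
  · rw [Sum.elim_inr, Sum.elim_inr, neg_inj] at h1
    exact D.hr j j' (fun e => hne (by rw [e])) (sub_eq_zero.2 h1)

theorem Cond.no_N (D : Cond s ρ r) {z ξ : K} (h : z * ξ = s ^ 2) :
    ¬ (KK (pf s ρ r) z ξ = 0 ∧ EE (pf s ρ r) z ξ = 0) := by
  have haa : ∀ i i', i ≠ i' → 1 - ρ i * ξ = 0 → 1 - ρ i' * ξ ≠ 0 := by
    intro i i' hne h1 h2
    have h3 : (ρ i - ρ i') * ξ = 0 := by linear_combination h2 - h1
    rcases mul_eq_zero.1 h3 with h4 | h4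
    · exact D.hρ i i' hne h4
    · rw [h4, mul_zero, sub_zero] at h1
      exact one_ne_zero h1
  have hab : ∀ i j, z - r j = 0 → 1 - ρ i * ξ ≠ 0 := by
    intro i j h1 h2
    refine D.hc i j ?_
    linear_combination z * h2 - h1 + ρ i * h
  have hbb : ∀ j j', j ≠ j' → z - r j = 0 → z - r j' ≠ 0 := by
    intro j j' hne h1 h2
    refine D.hr j j' hne ?_
    linear_combination h2 - h1
  have hba : ∀ i j, 1 - ρ i * ξ = 0 → z - r j ≠ 0 := fun i j h1 h2 => hab i j h2 h1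
  have hz : ∀ j, z - r j = 0 → z ≠ 0 := by
    intro j h1 h2
    rw [h2, zero_sub, neg_eq_zero] at h1
    exact D.h0 j h1
  have hx : ∀ i, 1 - ρ i * ξ = 0 → ρ i * ξ ≠ 0 := by
    intro i h1 h2
    rw [h2, sub_zero] at h1
    exact one_ne_zero h1
  rw [KK_pf s ρ r h, EE_pf s ρ r h]
  generalize ha0 : 1 - ρ 0 * ξ = a0
  generalize ha1 : 1 - ρ 1 * ξ = a1
  generalize ha2 : 1 - ρ 2 * ξ = a2
  generalize hb0 : z - r 0 = b0
  generalize hb1 : z - r 1 = b1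
  generalize hb2 : z - r 2 = b2
  rintro ⟨h1, h2⟩
  rw [mul_eq_zero, mul_eq_zero, mul_eq_zero, mul_eq_zero, mul_eq_zero] at h1
  rcases h1 with ((h3 | h3) | h3) | ((h3 | h3) | h3)
  · have e : ρ 0 * ξ * ((a1 * a2) * (b0 * b1 * b2)) = 0 := by
      rw [h3] at h2
      linear_combination -h2
    rw [h3] at ha0
    refine mul_ne_zero (hx 0 ha0) (mul_ne_zero (mul_ne_zero ?_ ?_)
      (mul_ne_zero (mul_ne_zero ?_ ?_) ?_)) e
    · rw [← ha1]; exact haa 0 1 (by decide) ha0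
    · rw [← ha2]; exact haa 0 2 (by decide) ha0
    · rw [← hb0]; exact hba 0 0 ha0
    · rw [← hb1]; exact hba 0 1 ha0
    · rw [← hb2]; exact hba 0 2 ha0
  · have e : ρ 1 * ξ * ((a0 * a2) * (b0 * b1 * b2)) = 0 := by
      rw [h3] at h2
      linear_combination -h2
    rw [h3] at ha1
    refine mul_ne_zero (hx 1 ha1) (mul_ne_zero (mul_ne_zero ?_ ?_)
      (mul_ne_zero (mul_ne_zero ?_ ?_) ?_)) e
    · rw [← ha0]; exact haa 1 0 (by decide) ha1
    · rw [← ha2]; exact haa 1 2 (by decide) ha1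
    · rw [← hb0]; exact hba 1 0 ha1
    · rw [← hb1]; exact hba 1 1 ha1
    · rw [← hb2]; exact hba 1 2 ha1
  · have e : ρ 2 * ξ * ((a0 * a1) * (b0 * b1 * b2)) = 0 := by
      rw [h3] at h2
      linear_combination -h2
    rw [h3] at ha2
    refine mul_ne_zero (hx 2 ha2) (mul_ne_zero (mul_ne_zero ?_ ?_)
      (mul_ne_zero (mul_ne_zero ?_ ?_) ?_)) e
    · rw [← ha0]; exact haa 2 0 (by decide) ha2
    · rw [← ha1]; exact haa 2 1 (by decide) ha2
    · rw [← hb0]; exact hba 2 0 ha2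
    · rw [← hb1]; exact hba 2 1 ha2
    · rw [← hb2]; exact hba 2 2 ha2
  · have e : z * ((b1 * b2) * (a0 * a1 * a2)) = 0 := by
      rw [h3] at h2
      linear_combination -h2
    rw [h3] at hb0
    refine mul_ne_zero (hz 0 hb0) (mul_ne_zero (mul_ne_zero ?_ ?_)
      (mul_ne_zero (mul_ne_zero ?_ ?_) ?_)) e
    · rw [← hb1]; exact hbb 0 1 (by decide) hb0
    · rw [← hb2]; exact hbb 0 2 (by decide) hb0
    · rw [← ha0]; exact hab 0 0 hb0
    · rw [← ha1]; exact hab 1 0 hb0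
    · rw [← ha2]; exact hab 2 0 hb0
  · have e : z * ((b0 * b2) * (a0 * a1 * a2)) = 0 := by
      rw [h3] at h2
      linear_combination -h2
    rw [h3] at hb1
    refine mul_ne_zero (hz 1 hb1) (mul_ne_zero (mul_ne_zero ?_ ?_)
      (mul_ne_zero (mul_ne_zero ?_ ?_) ?_)) e
    · rw [← hb0]; exact hbb 1 0 (by decide) hb1
    · rw [← hb2]; exact hbb 1 2 (by decide) hb1
    · rw [← ha0]; exact hab 0 1 hb1
    · rw [← ha1]; exact hab 1 1 hb1
    · rw [← ha2]; exact hab 2 1 hb1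
  · have e : z * ((b0 * b1) * (a0 * a1 * a2)) = 0 := by
      rw [h3] at h2
      linear_combination -h2
    rw [h3] at hb2
    refine mul_ne_zero (hz 2 hb2) (mul_ne_zero (mul_ne_zero ?_ ?_)
      (mul_ne_zero (mul_ne_zero ?_ ?_) ?_)) e
    · rw [← hb0]; exact hbb 2 0 (by decide) hb2
    · rw [← hb1]; exact hbb 2 1 (by decide) hb2
    · rw [← ha0]; exact hab 0 2 hb2
    · rw [← ha1]; exact hab 1 2 hb2
    · rw [← ha2]; exact hab 2 2 hb2

end YOR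

open YOR in
/-- YOR -/
theorem t_YOR : Stmt_YOR := by
  intro B _ s ρ r h2 hρ hr h0 hc
  have cond : ∀ (L : Type) [Field L] (ψ : B →+* L),
      Cond (ψ s) (fun i => ψ (ρ i)) (fun j => ψ (r j)) := by
    intro L _ ψ
    refine ⟨fun i j hij => ?_, fun i j hij => ?_, fun j => ?_, fun i j => ?_⟩
    · rw [← map_sub]
      exact ((hρ i j hij).map ψ).ne_zero
    · rw [← map_sub]
      exact ((hr i j hij).map ψ).ne_zero
    · exact ((h0 j).map ψ).ne_zero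
    · rw [← map_pow, ← map_mul, ← map_sub]
      exact ((hc i j).map ψ).ne_zero
  refine ⟨pf s ρ r, ⟨h2, ?_, ?_, ?_⟩, fun i => ?_⟩
  · rw [Two2.isCoprime_iff_pts]
    intro L _ ψ a
    have h := (cond L ψ).no_T a
    have e : (pp B (pT (pf s ρ r) s)).map ψ =
        ∏ k : Fin 3 ⊕ Fin 3, (C (Sum.elim (fun _ => 1) (fun _ => ψ s ^ 2) k) * X -
          C (Sum.elim (fun i => ψ (ρ i)) (fun j => ψ (r j)) k)) := by
      rw [pp_T, Fintype.prod_sum_type, Polynomial.map_mul, Polynomial.map_prod,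
        Polynomial.map_prod]
      simp
    rw [← eval_map, ← eval_map, ← derivative_map, e]
    exact h
  · rw [Two2.isCoprime_iff_pts]
    intro L _ ψ a
    have h := (cond L ψ).no_Q a
    have e : (pp B (pT (rev (pf s ρ r)) s)).map ψ =
        ∏ k : Fin 3 ⊕ Fin 3,
          (C (Sum.elim (fun i => -(ψ s ^ 2 * ψ (ρ i))) (fun j => -(ψ (r j))) k) * X -
            C (-1)) := by
      rw [pp_Q, Fintype.prod_sum_type, Polynomial.map_mul, Polynomial.map_prod,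
        Polynomial.map_prod]
      simp
    rw [← eval_map, ← eval_map, ← derivative_map, e]
    exact h
  · refine isCoprime_of_pts _ _ fun L _ χ => ?_
    have hrel := (relN B (pf s ρ r) s).map χ
    have hp : (fun i => χ (algebraMap B (NN B (pf s ρ r) s) (pf s ρ r i))) =
        pf (χ (algebraMap B _ s)) (fun i => χ (algebraMap B _ (ρ i)))
          (fun j => χ (algebraMap B _ (r j))) := by
      funext i
      exact pf_map (χ.comp (algebraMap B (NN B (pf s ρ r) s))) s ρ r i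
    have h := (cond L (χ.comp (algebraMap B (NN B (pf s ρ r) s)))).no_N
      (z := χ (zN B (pf s ρ r) s)) (ξ := χ (xN B (pf s ρ r) s)) hrel.zx
    rw [KN, EN, KK_map, EE_map, hp]
    exact h
  · rw [← pp_T, pp_coeff]

end Pool.Agent.MG.H2
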