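import Pool.Agent.MG.H2.StmtsY
import Pool.Agent.MG.H2.GoodLem

/-!
# YOU: the condition of stability for `t` a unit
-/

open Polynomial

namespace Pool.Agent.MG.H2

namespace YOU

/-- Coprimality is checked at the points with values in fields. -/
theorem isCoprime_iff {R : Type} [CommRing R] (a b : R) :
    IsCoprime a b ↔ ∀ (K : Type) [Field K] (ψ : R →+* K), ¬(ψ a = 0 ∧ ψ b = 0) := by
  constructor
  · rintro ⟨u, v, h⟩ K _ ψ ⟨h1, h2⟩
    have := congrArg ψ h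
    rw [map_add, map_mul, map_mul, h1, h2, mul_zero, mul_zero, add_zero, map_one] at this
    exact zero_ne_one this
  · intro h
    by_contra hc
    have hne : Ideal.span {a, b} ≠ ⊤ := by
      intro ht
      have h1 : (1 : R) ∈ Ideal.span {a, b} := by rw [ht]; trivial
      obtain ⟨u, v, huv⟩ := Ideal.mem_span_pair.1 h1
      exact hc ⟨u, v, huv⟩
    obtain ⟨m, hm, hle⟩ := Ideal.exists_le_maximal _ hne
    letI : Field (R ⧸ m) := Ideal.Quotient.field m
    refine h (R ⧸ m) (Ideal.Quotient.mk m) ⟨?_, ?_⟩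
    · rw [Ideal.Quotient.eq_zero_iff_mem]
      exact hle (Ideal.subset_span (by simp))
    · rw [Ideal.Quotient.eq_zero_iff_mem]
      exact hle (Ideal.subset_span (by simp))

/-- The value of the derivative. -/
def dpol {R : Type} [CommRing R] (f : Fin 7 → R) (x : R) : R :=
  f 1 + 2 * f 2 * x + 3 * f 3 * x ^ 2 + 4 * f 4 * x ^ 3 + 5 * f 5 * x ^ 4 + 6 * f 6 * x ^ 5

section

variable {B K : Type} [CommRing B] [Field K]

theorem eval_pp (f : Fin 7 → B) (ψ : B →+* K) (a : K) :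
    (pp B f).eval₂ ψ a = pol (fun i => ψ (f i)) a := by
  simp only [pp, pol, eval₂_add, eval₂_mul, eval₂_pow, eval₂_C, eval₂_X]

theorem deriv_pp (f : Fin 7 → B) : derivative (pp B f) = C (f 1) + C (2 * f 2) * X +
    C (3 * f 3) * X ^ 2 + C (4 * f 4) * X ^ 3 + C (5 * f 5) * X ^ 4 + C (6 * f 6) * X ^ 5 := by
  have h2 : (C 2 : B[X]) = 2 := rfl
  have h3 : (C 3 : B[X]) = 3 := rfl
  have h4 : (C 4 : B[X]) = 4 := rfl
  have h5 : (C 5 : B[X]) = 5 := rfl
  have h6 : (C 6 : B[X]) = 6 := rfl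
  simp only [pp, pol, derivative_add, derivative_mul, derivative_C, derivative_X_pow,
    derivative_X, zero_mul, zero_add, mul_one, C_mul, Nat.cast_ofNat, h2, h3, h4, h5, h6]
  ring

theorem eval_deriv_pp (f : Fin 7 → B) (ψ : B →+* K) (a : K) :
    (derivative (pp B f)).eval₂ ψ a = dpol (fun i => ψ (f i)) a := by
  have h2 : ψ 2 = 2 := map_ofNat ψ 2
  have h3 : ψ 3 = 3 := map_ofNat ψ 3
  have h4 : ψ 4 = 4 := map_ofNat ψ 4
  have h5 : ψ 5 = 5 := map_ofNat ψ 5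
  have h6 : ψ 6 = 6 := map_ofNat ψ 6
  rw [deriv_pp]
  simp only [dpol, eval₂_add, eval₂_mul, eval₂_pow, eval₂_C, eval₂_X, map_mul, h2, h3, h4, h5,
    h6]

theorem coprime_iff (f : Fin 7 → B) : IsCoprime (pp B f) (derivative (pp B f)) ↔
    ∀ (K : Type) [Field K] (ψ : B →+* K) (a : K),
      ¬(pol (fun i => ψ (f i)) a = 0 ∧ dpol (fun i => ψ (f i)) a = 0) := by
  rw [Two2.isCoprime_iff_pts]
  constructor
  · intro h K _ ψ a
    have := h K ψ a
    rwa [eval_pp, eval_deriv_pp] at this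
  · intro h K _ ψ a
    rw [eval_pp, eval_deriv_pp]
    exact h K ψ a

theorem map_pT (ψ : B →+* K) (p : Fin 7 → B) (t : B) :
    (fun i => ψ (pT p t i)) = pT (fun i => ψ (p i)) (ψ t) := by
  funext i
  exact pT_map ψ p t i

theorem pol_sub (p : Fin 7 → K) (t u : K) :
    pol (rev (pT p t)) (t ^ 2 * u) = t ^ 6 * pol (pT (rev p) t) u := by
  simp only [pol]
  simp [rev, pT]
  ring

theorem dpol_sub (p : Fin 7 → K) (t u : K) :
    t ^ 2 * dpol (rev (pT p t)) (t ^ 2 * u) = t ^ 6 * dpol (pT (rev p) t) u := by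
  simp only [dpol]
  simp [rev, pT]
  ring

end

theorem rev_iff {B : Type} [CommRing B] (p : Fin 7 → B) (t : B) (ht : IsUnit t) :
    IsCoprime (pp B (rev (pT p t))) (derivative (pp B (rev (pT p t)))) ↔
      IsCoprime (pp B (pT (rev p) t)) (derivative (pp B (pT (rev p) t))) := by
  rw [coprime_iff, coprime_iff]
  have h1 : ∀ (K : Type) [Field K] (ψ : B →+* K),
      (fun i => ψ (rev (pT p t) i)) = rev (pT (fun i => ψ (p i)) (ψ t)) := by
    intro K _ ψ
    rw [← map_pT]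
    rfl
  have h2 : ∀ (K : Type) [Field K] (ψ : B →+* K),
      (fun i => ψ (pT (rev p) t i)) = pT (rev fun i => ψ (p i)) (ψ t) := by
    intro K _ ψ
    rw [map_pT]
    rfl
  constructor
  · rintro h K _ ψ a ⟨h3, h4⟩
    have hT : ψ t ≠ 0 := (ht.map ψ).ne_zero
    refine h K ψ (ψ t ^ 2 * a) ⟨?_, ?_⟩
    · rw [h1, pol_sub, ← h2, h3, mul_zero]
    · have := dpol_sub (fun i => ψ (p i)) (ψ t) a
      rw [← h1, ← h2, h4, mul_zero] at this
      exact (mul_eq_zero.1 this).resolve_left (pow_ne_zero 2 hT)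
  · rintro h K _ ψ a ⟨h3, h4⟩
    have hT : ψ t ≠ 0 := (ht.map ψ).ne_zero
    have ha : ψ t ^ 2 * (a / ψ t ^ 2) = a := mul_div_cancel₀ _ (pow_ne_zero 2 hT)
    refine h K ψ (a / ψ t ^ 2) ⟨?_, ?_⟩
    · have := pol_sub (fun i => ψ (p i)) (ψ t) (a / ψ t ^ 2)
      rw [← h1, ← h2, ha, h3] at this
      exact (mul_eq_zero.1 this.symm).resolve_left (pow_ne_zero 6 hT)
    · have := dpol_sub (fun i => ψ (p i)) (ψ t) (a / ψ t ^ 2)
      rw [← h1, ← h2, ha, h4, mul_zero] at this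
      exact (mul_eq_zero.1 this.symm).resolve_left (pow_ne_zero 6 hT)

/-- The conditions in the chart `T` and in the chart `N`. -/
theorem KE {K : Type} [Field K] (p : Fin 7 → K) (t x xi : K) (hx : x * xi = 1) :
    pol (pT p t) x = x ^ 3 * KK p (t ^ 2 * x) xi ∧
      3 * pol (pT p t) x - x * dpol (pT p t) x = x ^ 3 * EE p (t ^ 2 * x) xi := by
  have h2 : x ^ 2 * xi ^ 2 = 1 := by rw [← mul_pow, hx, one_pow]
  have h3 : x ^ 3 * xi ^ 3 = 1 := by rw [← mul_pow, hx, one_pow]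
  constructor
  · rw [pol_pT]
    simp only [KK]
    linear_combination -(p 2 * x ^ 2) * hx - p 1 * x * h2 - p 0 * h3
  · have e1 : dpol (pT p t) x = p 1 + 2 * p 2 * x + 3 * p 3 * x ^ 2 +
        4 * (t ^ 2 * p 4) * x ^ 3 + 5 * (t ^ 4 * p 5) * x ^ 4 + 6 * (t ^ 6 * p 6) * x ^ 5 := rfl
    rw [pol_pT, e1]
    simp only [EE]
    linear_combination -(p 2 * x ^ 2) * hx - 2 * p 1 * x * h2 - 3 * p 0 * h3

theorem sN {B : Type} [CommRing B] (p : Fin 7 → B) (t : B) (ht : IsUnit t)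
    (h : IsCoprime (pp B (pT p t)) (derivative (pp B (pT p t)))) :
    IsCoprime (KN B p t) (EN B p t) := by
  rw [coprime_iff] at h
  rw [isCoprime_iff]
  rintro K _ ψ ⟨h1, h2⟩
  have hT : ψ (algebraMap B _ t) ≠ 0 := ((ht.map (algebraMap B (NN B p t))).map ψ).ne_zero
  have hr := (relN B p t).map ψ
  have hξ : ψ (xN B p t) ≠ 0 := by
    intro h0
    have := hr.zx
    rw [h0, mul_zero] at this
    exact pow_ne_zero 2 hT this.symm
  rw [KN, KK_map] at h1
  rw [EN, EE_map] at h2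
  have hx : (ψ (xN B p t))⁻¹ * ψ (xN B p t) = 1 := inv_mul_cancel₀ hξ
  have hz : ψ (zN B p t) = ψ (algebraMap B _ t) ^ 2 * (ψ (xN B p t))⁻¹ := by
    rw [← hr.zx, mul_assoc, mul_inv_cancel₀ hξ, mul_one]
  rw [hz] at h1 h2
  obtain ⟨e1, e2⟩ := KE (fun i => ψ (algebraMap B (NN B p t) (p i))) (ψ (algebraMap B _ t))
    (ψ (xN B p t))⁻¹ (ψ (xN B p t)) hx
  have hm : (fun i => (ψ.comp (algebraMap B (NN B p t))) (pT p t i)) =
      pT (fun i => ψ (algebraMap B (NN B p t) (p i))) (ψ (algebraMap B _ t)) :=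
    map_pT (ψ.comp (algebraMap B (NN B p t))) p t
  refine h K (ψ.comp (algebraMap B (NN B p t))) (ψ (xN B p t))⁻¹ ⟨?_, ?_⟩
  · rw [hm, e1, h1, mul_zero]
  · rw [hm]
    rw [e1, h1, h2, mul_zero, mul_zero, zero_sub, neg_eq_zero] at e2
    exact (mul_eq_zero.1 e2).resolve_left (inv_ne_zero hξ)

end YOU

theorem t_YOU : Stmt_YOU := by
  intro B _ p t ht h2
  constructor
  · rintro ⟨h, h'⟩
    exact ⟨h2, h, (YOU.rev_iff p t ht).1 h', YOU.sN p t ht h⟩
  · intro h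
    exact ⟨h.sT, (YOU.rev_iff p t ht).2 h.sQ⟩

end Pool.Agent.MG.H2
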