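import Pool.Agent.MG.H2.StmtsY

/-!
# The family `YX B p t` is proper, flat and of finite presentation
-/

open CategoryTheory CategoryTheory.Limits AlgebraicGeometry TensorProduct IsLocalRing

namespace Pool.Agent.MG.H2

namespace YPR

variable (B : Type) [CommRing B] (p : Fin 7 → B) (t : B)

/-- The cover by the three charts. -/
noncomputable def U : Fin 3 → (YX B p t).Opens :=
  ![(YX.inT B p t).opensRange, (YX.inN B p t).opensRange, (YX.inQ B p t).opensRange]

theorem U_top : ⨆ i, U B p t i = ⊤ := by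
  refine top_unique fun x _ => ?_
  rw [TopologicalSpace.Opens.mem_iSup]
  rcases YX.surj3 x with h | h | h
  · exact ⟨0, h⟩
  · exact ⟨1, h⟩
  · exact ⟨2, h⟩

theorem loc_one (P : MorphismProperty Scheme.{0}) [IsZariskiLocalAtSource P] {Z : Scheme.{0}}
    (i : Z ⟶ YX B p t) [IsOpenImmersion i] (h : P (i ≫ YX.pr B p t)) :
    P (i.opensRange.ι ≫ YX.pr B p t) := by
  rw [← IsOpenImmersion.isoOfRangeEq_inv_fac i (Scheme.Opens.ι _)
    (congr_arg TopologicalSpace.Opens.carrier i.opensRange.opensRange_ι.symm),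
    Category.assoc, P.cancel_left_of_respectsIso]
  exact h

theorem loc3 (P : MorphismProperty Scheme.{0}) [IsZariskiLocalAtSource P]
    (hT : P (spMap (algebraMap B (TT B p t)))) (hN : P (spMap (algebraMap B (NN B p t))))
    (hQ : P (spMap (algebraMap B (QQ B p t)))) : P (YX.pr B p t) := by
  refine IsZariskiLocalAtSource.of_iSup_eq_top (U B p t) (U_top B p t) ?_
  intro i
  fin_cases i
  · refine loc_one B p t P (YX.inT B p t) ?_
    rw [YX.inT_pr]
    exact hT
  · refine loc_one B p t P (YX.inN B p t) ?_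
    rw [YX.inN_pr]
    exact hN
  · refine loc_one B p t P (YX.inQ B p t) ?_
    rw [YX.inQ_pr]
    exact hQ

theorem cptT : IsCompact (Set.range (YX.inT B p t)) := isCompact_range (YX.inT B p t).continuous

theorem cptN : IsCompact (Set.range (YX.inN B p t)) := isCompact_range (YX.inN B p t).continuous

theorem cptQ : IsCompact (Set.range (YX.inQ B p t)) := isCompact_range (YX.inQ B p t).continuous

theorem cpt : CompactSpace (YX B p t) := by
  constructor
  have h : (Set.univ : Set (YX B p t)) = Set.range (YX.inT B p t) ∪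
      (Set.range (YX.inN B p t) ∪ Set.range (YX.inQ B p t)) := by
    ext x
    simp only [Set.mem_univ, Set.mem_union, true_iff]
    exact YX.surj3 x
  rw [h]
  exact (cptT B p t).union ((cptN B p t).union (cptQ B p t))

theorem cptNT : IsCompact (Set.range (YX.inN B p t) ∩ Set.range (YX.inT B p t)) := by
  have h : Set.range (YX.inN B p t) ∩ Set.range (YX.inT B p t) =
      Set.range (spMap (nT B p t) ≫ YX.inN B p t) := by
    ext x
    constructor
    · rintro ⟨⟨a, rfl⟩, ⟨b, hb⟩⟩
      obtain ⟨w, h1, _⟩ := YX.meetNT a b hb.symm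
      exact ⟨w, by rw [Scheme.Hom.comp_apply, h1]⟩
    · rintro ⟨w, rfl⟩
      refine ⟨⟨spMap (nT B p t) w, by rw [Scheme.Hom.comp_apply]⟩, ⟨spMap (tT B p t) w, ?_⟩⟩
      rw [YX.condT, Scheme.Hom.comp_apply]
  rw [h]
  exact isCompact_range (spMap (nT B p t) ≫ YX.inN B p t).continuous

theorem cptNQ : IsCompact (Set.range (YX.inN B p t) ∩ Set.range (YX.inQ B p t)) := by
  have h : Set.range (YX.inN B p t) ∩ Set.range (YX.inQ B p t) =
      Set.range (spMap (nQ B p t) ≫ YX.inN B p t) := by
    ext x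
    constructor
    · rintro ⟨⟨a, rfl⟩, ⟨b, hb⟩⟩
      obtain ⟨w, h1, _⟩ := YX.meetNQ a b hb.symm
      exact ⟨w, by rw [Scheme.Hom.comp_apply, h1]⟩
    · rintro ⟨w, rfl⟩
      refine ⟨⟨spMap (nQ B p t) w, by rw [Scheme.Hom.comp_apply]⟩, ⟨spMap (qQ B p t) w, ?_⟩⟩
      rw [YX.condQ, Scheme.Hom.comp_apply]
  rw [h]
  exact isCompact_range (spMap (nQ B p t) ≫ YX.inN B p t).continuous

theorem cptTQ : IsCompact (Set.range (YX.inT B p t) ∩ Set.range (YX.inQ B p t)) := by
  have h : Set.range (YX.inT B p t) ∩ Set.range (YX.inQ B p t) =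
      YX.inN B p t '' {a : Sp (NN B p t) | xN B p t * zN B p t ∉ a.asIdeal} := by
    ext x
    constructor
    · rintro ⟨⟨a, rfl⟩, ⟨b, hb⟩⟩
      obtain ⟨w, w', h1, _, h3⟩ := YX.meetTQ a b hb.symm
      refine ⟨spMap (nT B p t) w, ?_, ?_⟩
      · have h4 := (range_nT B p t (spMap (nT B p t) w)).1 ⟨w, rfl⟩
        have h5 := (range_nQ B p t (spMap (nT B p t) w)).1 ⟨w', h3.symm⟩
        change xN B p t * zN B p t ∉ (spMap (nT B p t) w).asIdeal
        intro h6
        rcases (spMap (nT B p t) w).isPrime.mem_or_mem h6 with h7 | h7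
        · exact h4 h7
        · exact h5 h7
      · rw [← Scheme.Hom.comp_apply, YX.condT, Scheme.Hom.comp_apply, h1]
    · rintro ⟨a, ha, rfl⟩
      have ha' : xN B p t * zN B p t ∉ a.asIdeal := ha
      have h4 : xN B p t ∉ a.asIdeal := fun h => ha' (Ideal.mul_mem_right _ _ h)
      have h5 : zN B p t ∉ a.asIdeal := fun h => ha' (Ideal.mul_mem_left _ _ h)
      obtain ⟨w, rfl⟩ := (range_nT B p t a).2 h4
      obtain ⟨w', hw'⟩ := (range_nQ B p t _).2 h5
      refine ⟨⟨spMap (tT B p t) w, ?_⟩, ⟨spMap (qQ B p t) w', ?_⟩⟩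
      · rw [← Scheme.Hom.comp_apply, ← YX.condT, Scheme.Hom.comp_apply]
      · rw [← hw', ← Scheme.Hom.comp_apply, ← YX.condQ, Scheme.Hom.comp_apply]
  have hc : IsCompact {a : Sp (NN B p t) | xN B p t * zN B p t ∉ a.asIdeal} :=
    PrimeSpectrum.isCompact_basicOpen (xN B p t * zN B p t)
  rw [h]
  exact hc.image (YX.inN B p t).continuous

theorem qsep : QuasiSeparatedSpace (YX B p t) := by
  refine Scheme.quasiSeparatedSpace_of_isOpenCover (U B p t) (U_top B p t) ?_ ?_
  · intro i
    fin_cases i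
    · exact isAffineOpen_opensRange (YX.inT B p t)
    · exact isAffineOpen_opensRange (YX.inN B p t)
    · exact isAffineOpen_opensRange (YX.inQ B p t)
  · intro i j
    fin_cases i <;> fin_cases j
    · change IsCompact (Set.range (YX.inT B p t) ∩ Set.range (YX.inT B p t))
      rw [Set.inter_self]
      exact cptT B p t
    · change IsCompact (Set.range (YX.inT B p t) ∩ Set.range (YX.inN B p t))
      rw [Set.inter_comm]
      exact cptNT B p t
    · exact cptTQ B p t
    · exact cptNT B p t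
    · change IsCompact (Set.range (YX.inN B p t) ∩ Set.range (YX.inN B p t))
      rw [Set.inter_self]
      exact cptN B p t
    · exact cptNQ B p t
    · change IsCompact (Set.range (YX.inQ B p t) ∩ Set.range (YX.inT B p t))
      rw [Set.inter_comm]
      exact cptTQ B p t
    · change IsCompact (Set.range (YX.inQ B p t) ∩ Set.range (YX.inN B p t))
      rw [Set.inter_comm]
      exact cptNQ B p t
    · change IsCompact (Set.range (YX.inQ B p t) ∩ Set.range (YX.inQ B p t))
      rw [Set.inter_self]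
      exact cptQ B p t

theorem valu (hVE : Stmt_YVE) (hVU : Stmt_YVU) : ValuativeCriterion (YX.pr B p t) := by
  rw [ValuativeCriterion.iff]
  constructor
  · intro S
    obtain ⟨l, e1, e2⟩ := hVE p t (R := S.R) (K := S.K) S.i₁ S.i₂ S.commSq.w
    exact ⟨⟨l, e1, e2⟩⟩
  · intro S
    constructor
    intro l l'
    exact CommSq.LiftStruct.ext (hVU p t (R := S.R) (K := S.K) l.l l'.l
      (l.fac_right.trans l'.fac_right.symm) (l.fac_left.trans l'.fac_left.symm))

end YPR

/-- **YPR**: the family is proper, flat and of finite presentation. -/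
theorem t_YPR (hVE : Stmt_YVE) (hVU : Stmt_YVU) (hFP : Stmt_YFP) : Stmt_YPR := by
  intro B _ p t
  obtain ⟨⟨n1, n2⟩, hA⟩ := hFP B p t
  have h1 : Flat (YX.pr B p t) := by
    refine YPR.loc3 B p t @Flat ?_ ?_ ?_
    · rw [Flat.SpecMap_iff]
      exact (hA (pT p t)).1
    · rw [Flat.SpecMap_iff]
      exact n1
    · rw [Flat.SpecMap_iff]
      exact (hA (pT (rev p) t)).1
  have h2 : LocallyOfFinitePresentation (YX.pr B p t) := by
    refine YPR.loc3 B p t @LocallyOfFinitePresentation ?_ ?_ ?_
    · rw [LocallyOfFinitePresentation.SpecMap_iff]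
      exact (hA (pT p t)).2
    · rw [LocallyOfFinitePresentation.SpecMap_iff]
      exact n2
    · rw [LocallyOfFinitePresentation.SpecMap_iff]
      exact (hA (pT (rev p) t)).2
  have h3 : QuasiCompact (YX.pr B p t) := HasAffineProperty.iff_of_isAffine.mpr (YPR.cpt B p t)
  have h4 : QuasiSeparated (YX.pr B p t) :=
    HasAffineProperty.iff_of_isAffine.mpr (YPR.qsep B p t)
  exact ⟨IsProper.of_valuativeCriterion _ (YPR.valu B p t hVE hVU), h1, h2⟩

end Pool.Agent.MG.H2
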