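import Pool.Agent.MG.H2.StmtsY
import Pool.Agent.MG.H2.Cf2

/-!
# YRA: the algebra of rigidity of the curves `YX K p 0`
-/

open Polynomial

namespace Pool.Agent.MG.H2

namespace YRA

section

variable {B : Type} [CommRing B] {f : Fin 7 → B}

theorem cg_one (j : ℤ) : cg j (1 : A12 B f) = if 0 = j then 1 else 0 := by
  have h := cg_mono (f := f) (1 : B) 0 j
  rwa [map_one, one_mul, zpow_zero, Units.val_one] at h

theorem cf_one (j : ℤ) : cf j (1 : A12 B f) = 0 := by
  have h := cf_mono (f := f) (1 : B) 0 j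
  rwa [map_one, one_mul, zpow_zero, Units.val_one] at h

theorem cf_y (j : ℤ) : cf j (yv B f) = if 0 = j then 1 else 0 := by
  have h := cf_mono_y (f := f) (1 : B) 0 j
  rwa [map_one, one_mul, zpow_zero, Units.val_one, one_mul] at h

theorem cg_y (j : ℤ) : cg j (yv B f) = 0 := by
  have h := cg_mono_y (f := f) (1 : B) 0 j
  rwa [map_one, one_mul, zpow_zero, Units.val_one, one_mul] at h

/-- Coefficients of polynomials in `1/x`, multiplied by `v`. -/
theorem co_xi (v : A12 B f) (k : ℤ) (l : A12 B f →ₗ[B] B) (l' : ℤ → A12 B f →ₗ[B] B)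
    (hl : l' k = l) (hx : ∀ (n : ℕ) (j : ℤ) (w : A12 B f), l' j (xi f ^ n * w) = l' (j + n) w)
    (hb : ∀ (c : B) (j : ℤ) (w : A12 B f), l' j (algebraMap B _ c * w) = c * l' j w)
    (hv : ∀ n : ℕ, 0 < n → l' (k + n) v = 0) (p : B[X]) :
    l (aeval (xi f) p * v) = p.coeff 0 * l v := by
  subst hl
  induction p using Polynomial.induction_on' with
  | add p q hp hq =>
    rw [map_add, add_mul, map_add, hp, hq, coeff_add, add_mul]
  | monomial n a =>
    rw [aeval_monomial, mul_assoc, hb, hx]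
    rcases Nat.eq_zero_or_pos n with h | h
    · subst h
      rw [coeff_monomial, if_pos rfl, Nat.cast_zero, add_zero]
    · rw [hv n h, coeff_monomial, if_neg (by omega), mul_zero, zero_mul]

theorem cg_xi_poly (v : A12 B f) (k : ℤ) (hv : ∀ n : ℕ, 0 < n → cg (k + n) v = 0) (p : B[X]) :
    cg k (aeval (xi f) p * v) = p.coeff 0 * cg k v :=
  co_xi v k (cg k) cg rfl (fun n j w => cg_xipow n j w) (fun c j w => cg_b c j w) hv p

theorem cf_xi_poly (v : A12 B f) (k : ℤ) (hv : ∀ n : ℕ, 0 < n → cf (k + n) v = 0) (p : B[X]) :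
    cf k (aeval (xi f) p * v) = p.coeff 0 * cf k v :=
  co_xi v k (cf k) cf rfl (fun n j w => cf_xipow n j w) (fun c j w => cf_b c j w) hv p

end

section

variable {K : Type} [Field K] (p : Fin 7 → K)

theorem nT_aeval_x (c : K[X]) : nT K p 0 (aeval (xN K p 0) c) = aeval (xi (pT p 0)) c := by
  have h := Polynomial.hom_eval₂ c (algebraMap K (NN K p 0)) (nT K p 0) (xN K p 0)
  have h2 : (nT K p 0).comp (algebraMap K (NN K p 0)) = algebraMap K (TN K p 0) :=
    RingHom.ext fun c => nT_c K p 0 c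
  rw [h2, nT_x] at h
  exact h

theorem nQ_aeval_z (c : K[X]) : nQ K p 0 (aeval (zN K p 0) c) = aeval (xi (pT (rev p) 0)) c := by
  have h := Polynomial.hom_eval₂ c (algebraMap K (NN K p 0)) (nQ K p 0) (zN K p 0)
  have h2 : (nQ K p 0).comp (algebraMap K (NN K p 0)) = algebraMap K (QN K p 0) :=
    RingHom.ext fun c => nQ_c K p 0 c
  rw [h2, nQ_z] at h
  exact h

theorem nT_z0 : nT K p 0 (zN K p 0) = 0 := by
  rw [nT_z, map_zero, zero_pow two_ne_zero, zero_mul]

theorem nQ_x0 : nQ K p 0 (xN K p 0) = 0 := by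
  rw [nQ_x, map_zero, zero_pow two_ne_zero, zero_mul]

theorem nT_b0 : nT K p 0 (bN K p 0) = 0 := by
  rw [nT_b, map_zero, zero_mul]

theorem nQ_a0 : nQ K p 0 (aN K p 0) = 0 := by
  rw [nQ_a, map_zero, zero_mul]

theorem nQ_aeval_x (c : K[X]) :
    nQ K p 0 (aeval (xN K p 0) c) = algebraMap K (QN K p 0) (c.coeff 0) := by
  have h := Polynomial.hom_eval₂ c (algebraMap K (NN K p 0)) (nQ K p 0) (xN K p 0)
  have h2 : (nQ K p 0).comp (algebraMap K (NN K p 0)) = algebraMap K (QN K p 0) :=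
    RingHom.ext fun c => nQ_c K p 0 c
  rw [h2, nQ_x0, Polynomial.eval₂_at_zero] at h
  exact h

/-- Elements of `N` which vanish on `N ∩ Q`. -/
theorem lemA (hNB : Stmt_YNB) (n : NN K p 0) (hn : nQ K p 0 n = 0) :
    (∀ j : ℤ, 0 ≤ j → cg j (nT K p 0 n) = 0) ∧ ∀ j : ℤ, -1 ≤ j → cf j (nT K p 0 n) = 0 := by
  obtain ⟨c, d, e, g, rfl⟩ := (hNB K p 0).1 n
  have hc0 : c.coeff 0 = 0 := by
    rw [map_add, map_add, map_add, map_mul, map_mul, map_mul, nQ_aeval_x, nQ_a0, mul_zero,
      add_zero, nQ_aeval_z, nQ_aeval_z, nQ_z, nQ_b] at hn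
    have h := congrArg (cg 0) hn
    rw [map_add, map_add, map_zero] at h
    have h1 : cg 0 (algebraMap K (QN K p 0) (c.coeff 0)) = c.coeff 0 := by
      have := cg_mono (f := pT (rev p) 0) (c.coeff 0) 0 0
      rwa [zpow_zero, Units.val_one, mul_one, if_pos rfl] at this
    have h2 : cg 0 (xi (pT (rev p) 0) * aeval (xi (pT (rev p) 0)) d) = 0 := by
      rw [cg_xi, ← mul_one (aeval (xi (pT (rev p) 0)) d), cg_xi_poly, cg_one, if_neg (by norm_num),
        mul_zero]
      intro n hn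
      rw [cg_one, if_neg (by omega)]
    have h3 : cg 0 (aeval (xi (pT (rev p) 0)) g *
        (yv K (pT (rev p) 0) * xi (pT (rev p) 0) ^ 2)) = 0 := by
      rw [cg_xi_poly, mul_comm (yv K _), cg_xipow, cg_y, mul_zero]
      intro n hn
      rw [mul_comm (yv K _), cg_xipow, cg_y]
    rw [h1, h2, h3, add_zero, add_zero] at h
    exact h
  have hT : nT K p 0 (aeval (xN K p 0) c + zN K p 0 * aeval (zN K p 0) d +
      aeval (xN K p 0) e * aN K p 0 + aeval (zN K p 0) g * bN K p 0) =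
      aeval (xi (pT p 0)) c * 1 + aeval (xi (pT p 0)) e *
        (yv K (pT p 0) * xi (pT p 0) ^ 2) := by
    rw [map_add, map_add, map_add, map_mul, map_mul, map_mul, nT_aeval_x, nT_aeval_x, nT_z0,
      zero_mul, add_zero, nT_b0, mul_zero, add_zero, nT_a, mul_one]
  rw [hT]
  refine ⟨fun j hj => ?_, fun j hj => ?_⟩
  · rw [map_add, cg_xi_poly, cg_xi_poly, mul_comm (yv K _), cg_xipow, cg_y, mul_zero, add_zero,
      cg_one]
    · split_ifs with h
      · rw [hc0, zero_mul]
      · rw [mul_zero]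
    · intro n hn
      rw [mul_comm (yv K _), cg_xipow, cg_y]
    · intro n hn
      rw [cg_one, if_neg (by omega)]
  · rw [map_add, cf_xi_poly, cf_xi_poly, mul_comm (yv K _), cf_xipow, cf_y, cf_one, mul_zero,
      zero_add, if_neg (by push_cast; omega), mul_zero]
    · intro n hn
      rw [mul_comm (yv K _), cf_xipow, cf_y, if_neg (by push_cast; omega)]
    · intro n hn
      rw [cf_one]

/-- The derivative of an element annihilated by `z` vanishes on `N ∩ Q`. -/
theorem lemB (DN : Derivation K (NN K p 0) (NN K p 0)) (n : NN K p 0) (hn : zN K p 0 * n = 0)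
    (hn' : nQ K p 0 n = 0) : nQ K p 0 (DN n) = 0 := by
  have h := congrArg DN hn
  rw [Derivation.leibniz, map_zero, smul_eq_mul, smul_eq_mul] at h
  have h2 := congrArg (nQ K p 0) h
  rw [map_add, map_mul, map_mul, hn', zero_mul, add_zero, map_zero, nQ_z] at h2
  exact (Units.mul_right_eq_zero _).1 h2

end

end YRA

open YRA in
/-- YRA: derivations of the rings of the charts `T`, `N`. -/
theorem t_YRA (hDA : Stmt_YDA) (hNB : Stmt_YNB) : Stmt_YRA := by
  intro K _ p h2 h3 hc DT DN DTN hT hN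
  obtain ⟨w, hwx, hwy⟩ := hDA (pT p 0) h2 hc DT
  obtain ⟨a, b, hab⟩ := span1 w
  have hzx : zN K p 0 * xN K p 0 = 0 := by
    rw [(relN K p 0).zx, map_zero, zero_pow two_ne_zero]
  have hza : zN K p 0 * aN K p 0 = 0 := by
    rw [(relN K p 0).za, map_zero, zero_mul]
  obtain ⟨A1, A2⟩ := lemA p hNB _ (lemB p DN _ hzx (nQ_x0 p))
  obtain ⟨A3, -⟩ := lemA p hNB _ (lemB p DN _ hza (nQ_a0 p))
  -- the derivatives in the intersection
  have eX : DTN (xx (pT p 0)) = 2 * yv K (pT p 0) * g1 K (pT p 0) w := by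
    have h := hT (x1 K (pT p 0))
    change DTN (g1 K (pT p 0) (x1 K (pT p 0))) = g1 K (pT p 0) (DT (x1 K (pT p 0))) at h
    rw [hwx, map_mul, map_mul, map_ofNat, g1_y] at h
    exact h
  have eY : DTN (yv K (pT p 0)) =
      aeval (xx (pT p 0)) (derivative (pp K (pT p 0))) * g1 K (pT p 0) w := by
    have h := hT (y1 K (pT p 0))
    change DTN (g1 K (pT p 0) (y1 K (pT p 0))) = g1 K (pT p 0) (DT (y1 K (pT p 0))) at h
    rw [hwy, map_mul, g1_aeval, g1_y] at h
    exact h
  have hxi : xx (pT p 0) * xi (pT p 0) = 1 := Units.mul_inv _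
  have eXi : DTN (xi (pT p 0)) =
      -(xi (pT p 0) ^ 2 * (2 * yv K (pT p 0) * g1 K (pT p 0) w)) := by
    have h := congrArg DTN hxi
    rw [Derivation.leibniz, Derivation.map_one_eq_zero, smul_eq_mul, smul_eq_mul, eX] at h
    linear_combination xi (pT p 0) * h - DTN (xi (pT p 0)) * hxi
  have eW : g1 K (pT p 0) w = aeval (xx (pT p 0)) a + aeval (xx (pT p 0)) b * yv K (pT p 0) := by
    rw [hab, g1_eq]
  have hY2 : yv K (pT p 0) ^ 2 = aeval (xx (pT p 0)) (pp K (pT p 0)) := by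
    rw [rel12, aeval_pp]
  have eN1 : nT K p 0 (DN (xN K p 0)) = algebraMap K _ (-2) * (xi (pT p 0) ^ 2 *
      (aeval (xx (pT p 0)) a * yv K (pT p 0) + aeval (xx (pT p 0)) (b * pp K (pT p 0)))) := by
    rw [← hN, nT_x, eXi, eW, map_mul, ← hY2, map_neg, map_ofNat]
    ring
  have hP3 : (pp K (pT p 0)).coeff 3 = p 3 := pp_coeff (pT p 0) 3
  have hP2 : (derivative (pp K (pT p 0))).coeff 2 = p 3 * 3 := by
    rw [coeff_derivative, hP3]
    norm_num
  have ha : a = C (a.coeff 0) := by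
    ext n
    rcases Nat.eq_zero_or_pos n with h | h
    · rw [h, coeff_C_zero]
    · rw [coeff_C_of_ne_zero (by omega)]
      have h1 := A2 ((n : ℤ) - 2) (by omega)
      rw [eN1, cf_b, cf_xipow, map_add, cf_aeval, add_zero, cf_aeval_y, if_pos (by omega)] at h1
      have h4 : ((n : ℤ) - 2 + ((2 : ℕ) : ℤ)).toNat = n := by omega
      rw [h4] at h1
      rcases mul_eq_zero.1 h1 with h5 | h5
      · exact absurd (neg_eq_zero.1 h5) h2
      · exact h5
  have hb : b = 0 := by
    by_contra hb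
    have h1 := A1 ((b.natDegree : ℤ) + 1) (by omega)
    rw [eN1, cg_b, cg_xipow, map_add, cg_aeval_y, zero_add, cg_aeval, if_pos (by omega)] at h1
    have h4 : ((b.natDegree : ℤ) + 1 + ((2 : ℕ) : ℤ)).toNat = b.natDegree + 3 := by omega
    rw [h4] at h1
    have hdeg : (pp K (pT p 0)).natDegree ≤ 3 := by
      rw [natDegree_le_iff_coeff_eq_zero]
      intro m hm
      rcases lt_or_ge m 7 with h7 | h7
      · have h8 := pp_coeff (pT p 0) ⟨m, h7⟩
        change (pp K (pT p 0)).coeff m = _ at h8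
        rw [h8]
        interval_cases m <;> simp [pT]
      · refine coeff_eq_zero_of_natDegree_lt (lt_of_le_of_lt ?_ h7)
        rw [pp, pol]
        compute_degree
    have h5 : (b * pp K (pT p 0)).coeff (b.natDegree + 3) =
        b.coeff b.natDegree * (pp K (pT p 0)).coeff 3 :=
      coeff_mul_add_eq_of_natDegree_le le_rfl hdeg
    rw [h5, hP3] at h1
    rcases mul_eq_zero.1 h1 with h6 | h6
    · exact absurd (neg_eq_zero.1 h6) h2
    · rcases mul_eq_zero.1 h6 with h7 | h7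
      · exact hb (leadingCoeff_eq_zero.1 h7)
      · exact h3 h7
  generalize ha0 : a.coeff 0 = a0 at ha
  have eW2 : g1 K (pT p 0) w = algebraMap K _ a0 := by
    rw [eW, hb, ha, map_zero, zero_mul, add_zero, aeval_C]
  have eN2 : nT K p 0 (DN (aN K p 0)) = algebraMap K _ a0 * (xi (pT p 0) ^ 2 *
      aeval (xx (pT p 0)) (derivative (pp K (pT p 0)))) - algebraMap K _ (4 * a0) *
        (xi (pT p 0) ^ 3 * aeval (xx (pT p 0)) (pp K (pT p 0))) := by
    rw [← hN, nT_a, Derivation.leibniz, Derivation.leibniz_pow, smul_eq_mul, smul_eq_mul, eY, eXi,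
      eW2, ← hY2, map_mul, map_ofNat]
    simp only [nsmul_eq_mul, Nat.cast_ofNat, smul_eq_mul]
    ring
  have h0 := A3 0 le_rfl
  rw [eN2, map_sub, cg_b, cg_b, cg_xipow, cg_xipow, cg_aeval, cg_aeval, if_pos (by norm_num),
    if_pos (by norm_num)] at h0
  have h4 : ((0 : ℤ) + ((2 : ℕ) : ℤ)).toNat = 2 := rfl
  have h5 : ((0 : ℤ) + ((3 : ℕ) : ℤ)).toNat = 3 := rfl
  rw [h4, h5, hP2, hP3] at h0
  have ha1 : a0 = 0 := by
    have h6 : a0 * p 3 = 0 := by linear_combination -h0
    rcases mul_eq_zero.1 h6 with h | h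
    · exact h
    · exact absurd h h3
  have hw : w = 0 := by
    rw [hab, hb, ha, ha1, map_zero, map_zero, zero_mul, add_zero]
  rw [hw, mul_zero] at hwx hwy
  ext v
  obtain ⟨c, d, rfl⟩ := span1 v
  rw [map_add, Derivation.leibniz, Derivation.map_aeval, Derivation.map_aeval, hwx, hwy]
  simp

end Pool.Agent.MG.H2
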