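import Pool.Agent.MG.H2.StmtsY
import Pool.Agent.MG.W.WRI

/-!
# YRI: the curve `YX K p 0` has no vector fields
-/

open CategoryTheory CategoryTheory.Limits AlgebraicGeometry TensorProduct

namespace Pool.Agent.MG.H2

namespace YRI

/-- Linear derivations from additive ones which kill the constants. -/
noncomputable def mkD {K A : Type} [Field K] [CommRing A] [Algebra K A] (D : A →+ A)
    (hD : ∀ u v, D (u * v) = u * D v + v * D u) (hc : ∀ c : K, D (algebraMap K A c) = 0) :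
    Derivation K A A :=
  Derivation.mk' { toFun := D
                   map_add' := map_add D
                   map_smul' := fun c u => by
                     rw [Algebra.smul_def, hD, hc, mul_zero, add_zero, RingHom.id_apply,
                       Algebra.smul_def] } fun a b => hD a b

theorem mkD_apply {K A : Type} [Field K] [CommRing A] [Algebra K A] (D : A →+ A)
    (hD : ∀ u v, D (u * v) = u * D v + v * D u) (hc : ∀ c : K, D (algebraMap K A c) = 0) (v : A) :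
    mkD D hD hc v = D v := rfl

/-- The coefficient `p₃` is not zero. -/
theorem p3 {K : Type} [Field K] (p : Fin 7 → K) (h : YOk K p 0) : p 3 ≠ 0 := by
  intro h3
  have hrel : NRel (fun i => RingHom.id K (p i)) (RingHom.id K 0) (0 : K) 0 0 0 := by
    constructor <;> simp
  have hK : liftN (RingHom.id K) 0 0 0 0 hrel (KN K p 0) = p 3 := by
    rw [KN, KK_map]
    simp [KK]
  have hE : liftN (RingHom.id K) 0 0 0 0 hrel (EN K p 0) = 0 := by
    rw [EN, EE_map]
    simp [EE]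
  have h1 := h.sN.map (liftN (RingHom.id K) 0 0 0 0 hrel)
  rw [hK, hE, h3, isCoprime_zero_left] at h1
  exact not_isUnit_zero h1

/-- A derivation of the localisation vanishes if it vanishes on the chart. -/
theorem der12 {K : Type} [Field K] (f : Fin 7 → K) (D : A12 K f →+ A12 K f)
    (hD : ∀ u v, D (u * v) = u * D v + v * D u) (h0 : ∀ v, D (g1 K f v) = 0) (w : A12 K f) :
    D w = 0 := by
  obtain ⟨⟨a, ⟨_, m, rfl⟩⟩, hs⟩ := IsLocalization.surj (Submonoid.powers (x1 K f)) w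
  have e : ∀ b, D (algebraMap (A1 K f) (A12 K f) b) = 0 := h0
  have h1 := congrArg D hs
  rw [hD, e, e, mul_zero, zero_add] at h1
  have hu : IsUnit (algebraMap (A1 K f) (A12 K f) (x1 K f ^ m)) :=
    IsLocalization.map_units (M := Submonoid.powers (x1 K f)) _ ⟨x1 K f ^ m, m, rfl⟩
  exact (hu.mul_right_eq_zero).1 h1

/-- Compatible derivations of the rings of the charts vanish. -/
theorem alg {K : Type} [Field K] (p : Fin 7 → K) (hp : YOk K p 0) (hRA : Stmt_YRA)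
    (hNB : Stmt_YNB) (DT : TT K p 0 →+ TT K p 0) (DN : NN K p 0 →+ NN K p 0)
    (DQ : QQ K p 0 →+ QQ K p 0) (DTN : TN K p 0 →+ TN K p 0) (DQN : QN K p 0 →+ QN K p 0)
    (lT : ∀ u v, DT (u * v) = u * DT v + v * DT u)
    (lN : ∀ u v, DN (u * v) = u * DN v + v * DN u)
    (lQ : ∀ u v, DQ (u * v) = u * DQ v + v * DQ u)
    (lTN : ∀ u v, DTN (u * v) = u * DTN v + v * DTN u)
    (lQN : ∀ u v, DQN (u * v) = u * DQN v + v * DQN u)
    (cT : ∀ c : K, DT (algebraMap K _ c) = 0)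
    (cN : ∀ c : K, DN (algebraMap K _ c) = 0)
    (cQ : ∀ c : K, DQ (algebraMap K _ c) = 0)
    (rT : ∀ v, DTN (tT K p 0 v) = tT K p 0 (DT v))
    (rNT : ∀ v, DTN (nT K p 0 v) = nT K p 0 (DN v))
    (rQ : ∀ v, DQN (qQ K p 0 v) = qQ K p 0 (DQ v))
    (rNQ : ∀ v, DQN (nQ K p 0 v) = nQ K p 0 (DN v)) :
    (∀ v, DT v = 0) ∧ (∀ v, DN v = 0) ∧ ∀ v, DQ v = 0 := by
  have h2 : (2 : K) ≠ 0 := hp.two.ne_zero
  have h3 : p 3 ≠ 0 := p3 p hp
  have cTN : ∀ c : K, DTN (algebraMap K (TN K p 0) c) = 0 := by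
    intro c
    have h := rT (algebraMap K _ c)
    rw [cT, map_zero] at h
    exact h
  have cQN : ∀ c : K, DQN (algebraMap K (QN K p 0) c) = 0 := by
    intro c
    have h := rQ (algebraMap K _ c)
    rw [cQ, map_zero] at h
    exact h
  have zT : ∀ v, DT v = 0 := by
    have h := hRA p h2 h3 hp.sT (mkD DT lT cT) (mkD DN lN cN) (mkD DTN lTN cTN) rT rNT
    intro v
    rw [← mkD_apply DT lT cT, h]
    rfl
  let DN' : NN K (rev p) 0 →+ NN K (rev p) 0 :=
    (swN (rev_h p) 0 : NN K p 0 →+* NN K (rev p) 0).toAddMonoidHom.comp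
      (DN.comp (swN (rev_h' p) 0 : NN K (rev p) 0 →+* NN K p 0).toAddMonoidHom)
  have dN' : ∀ v, DN' v = swN (rev_h p) 0 (DN (swN (rev_h' p) 0 v)) := fun _ => rfl
  have sw1 : ∀ v, swN (rev_h p) 0 (swN (rev_h' p) 0 v) = v := fun v =>
    congrArg (fun g => g v) (swN_swN (rev_h p) (rev_h' p))
  have lN' : ∀ u v, DN' (u * v) = u * DN' v + v * DN' u := by
    intro u v
    rw [dN', dN', dN', map_mul, lN, map_add, map_mul, map_mul, sw1, sw1]
  have cN' : ∀ c : K, DN' (algebraMap K _ c) = 0 := by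
    intro c
    rw [dN', swN_c, cN, map_zero]
  have rNQ' : ∀ v, DQN (nT K (rev p) 0 v) = nT K (rev p) 0 (DN' v) := by
    intro v
    have h := rNQ (swN (rev_h' p) 0 v)
    have e : ∀ w, nQ K p 0 w = nT K (rev p) 0 (swN (rev_h p) 0 w) := fun _ => rfl
    rw [e, e, sw1] at h
    rw [dN']
    exact h
  have zQ : ∀ v, DQ v = 0 := by
    have h := hRA (rev p) h2 h3 hp.sQ (mkD DQ lQ cQ) (mkD DN' lN' cN') (mkD DQN lQN cQN) rQ rNQ'
    intro v
    rw [← mkD_apply DQ lQ cQ, h]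
    rfl
  have zTN : ∀ v, DTN v = 0 := der12 _ DTN lTN fun v => by
    have h := rT v
    rw [zT, map_zero] at h
    exact h
  have zQN : ∀ v, DQN v = 0 := der12 _ DQN lQN fun v => by
    have h := rQ v
    rw [zQ, map_zero] at h
    exact h
  refine ⟨zT, fun v => ?_, zQ⟩
  obtain ⟨n1, n2⟩ := hNB K p 0
  have e1 : nT K p 0 (DN v) = 0 := by rw [← rNT, zTN]
  have e2 : nQ K p 0 (DN v) = 0 := by rw [← rNQ, zQN]
  obtain ⟨c, d, e, f, hv⟩ := n1 (DN v)
  rw [hv] at e1 e2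
  obtain ⟨rfl, rfl, rfl, rfl⟩ := n2 c d e f e1 e2
  rw [hv]
  simp only [map_zero, mul_zero, zero_mul, add_zero]

/-- A vector field which vanishes on affine opens which cover vanishes. -/
theorem all0 {n : ℕ} {K : Type} [Field K] {x : Fam n K} (v : VField x)
    (hc : ∀ p : x.X, ∃ W : x.X.Opens, IsAffineOpen W ∧ v.D W = 0 ∧ p ∈ W) (U : x.X.Opens) :
    v.D U = 0 := by
  have hloc : ∀ p : U, ∃ (V : x.X.Opens) (_ : V ≤ U), p.1 ∈ V ∧ v.D V = 0 := by
    intro p
    obtain ⟨W, a, h0, hp⟩ := hc p.1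
    obtain ⟨f, hf, hpf⟩ := a.exists_basicOpen_le p hp
    exact ⟨_, hf, hpf, RIG.basic0 v a h0 f⟩
  choose V hV hpV hDV using hloc
  ext s
  refine x.X.sheaf.eq_of_locally_eq' V U (fun p => homOfLE (hV p)) ?_ _ _ ?_
  · intro p hp
    rw [TopologicalSpace.Opens.mem_iSup]
    exact ⟨⟨p, hp⟩, hpV ⟨p, hp⟩⟩
  · intro p
    change rs x.X (hV p) (v.D U s) = rs x.X (hV p) 0
    rw [← RIG.dres, hDV, map_zero]
    rfl

end YRI

open YRI W.WRI in
theorem t_YRI (hRA : Stmt_YRA) (hNB : Stmt_YNB) : Stmt_YRI := by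
  intro K _ p hp v U
  let iT : Sp (TT K p 0) ⟶ (Yam p 0).X := YX.inT K p 0
  let iN : Sp (NN K p 0) ⟶ (Yam p 0).X := YX.inN K p 0
  let iQ : Sp (QQ K p 0) ⟶ (Yam p 0).X := YX.inQ K p 0
  have oT : IsOpenImmersion iT := inferInstanceAs (IsOpenImmersion (YX.inT K p 0))
  have oN : IsOpenImmersion iN := inferInstanceAs (IsOpenImmersion (YX.inN K p 0))
  have oQ : IsOpenImmersion iQ := inferInstanceAs (IsOpenImmersion (YX.inQ K p 0))
  have hcT : spMap (tT K p 0) ≫ iT = spMap (nT K p 0) ≫ iN := (YX.condT K p 0).symm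
  have hcQ : spMap (qQ K p 0) ≫ iQ = spMap (nQ K p 0) ≫ iN := (YX.condQ K p 0).symm
  have oTN : IsOpenImmersion (spMap (tT K p 0) ≫ iT) := inferInstance
  have oQN : IsOpenImmersion (spMap (qQ K p 0) ≫ iQ) := inferInstance
  have hπT : iT ≫ (Yam p 0).π = spMap (algebraMap K _) := YX.inT_pr K p 0
  have hπN : iN ≫ (Yam p 0).π = spMap (algebraMap K _) := YX.inN_pr K p 0
  have hπQ : iQ ≫ (Yam p 0).π = spMap (algebraMap K _) := YX.inQ_pr K p 0
  obtain ⟨zT, zN, zQ⟩ := alg p hp hRA hNB (der v iT) (der v iN) (der v iQ)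
    (der v (spMap (tT K p 0) ≫ iT)) (der v (spMap (qQ K p 0) ≫ iQ))
    (der_mul v iT) (der_mul v iN) (der_mul v iQ) (der_mul v _) (der_mul v _)
    (der_const v iT _ hπT) (der_const v iN _ hπN) (der_const v iQ _ hπQ)
    (der_res v iT (tT K p 0) _ rfl) (der_res v iN (nT K p 0) _ hcT)
    (der_res v iQ (qQ K p 0) _ rfl) (der_res v iN (nQ K p 0) _ hcQ)
  refine all0 v (fun q => ?_) U
  rcases YX.surj3 q with ⟨r, hr⟩ | ⟨r, hr⟩ | ⟨r, hr⟩
  · exact ⟨iT.opensRange, isAffineOpen_opensRange iT, der_zero_iff v iT zT, ⟨r, hr⟩⟩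
  · exact ⟨iN.opensRange, isAffineOpen_opensRange iN, der_zero_iff v iN zN, ⟨r, hr⟩⟩
  · exact ⟨iQ.opensRange, isAffineOpen_opensRange iQ, der_zero_iff v iQ zQ, ⟨r, hr⟩⟩

end Pool.Agent.MG.H2
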