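import Pool.Agent.MG.H2.YReg
import Pool.Agent.MG.H2.StmtsM
import Pool.Agent.MG.H2.YAR

/-!
# REG: the family in which the curves degenerate to two elliptic curves
-/

open CategoryTheory CategoryTheory.Limits AlgebraicGeometry Polynomial

namespace Pool.Agent.MG.H2

/-- Bezout data and smoothness of the charts. -/
noncomputable def YOk.ybz {B : Type} [CommRing B] {p : Fin 7 → B} {t : B} (h : YOk B p t) :
    YBz p t where
  zT := GeoA.bz h.sT
  zQ := GeoA.bz h.sQ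
  U := h.sN.choose
  V := h.sN.choose_spec.choose
  h := h.sN.choose_spec.choose_spec
  sT := GeoA.fsm h.two h.sT
  sQ := GeoA.fsm h.two h.sQ

theorem qc {B : Type} [CommRing B] (a b c : B) :
    (C a + C b * X + C c * X ^ 2 : B[X]).coeff 0 = a ∧
    (C a + C b * X + C c * X ^ 2 : B[X]).coeff 1 = b ∧
    (C a + C b * X + C c * X ^ 2 : B[X]).coeff 2 = c := by
  simp only [coeff_add, coeff_C_mul, coeff_X_pow, coeff_X, coeff_C]
  norm_num

theorem t_REG (hYST : Stmt_YST) (hYOR : Stmt_YOR) (hYAR : Stmt_YAR) : Stmt_REG := by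
  intro B K _ _ _ _ _ φ hφ s ρ r e hs hρ hr hr0 hrρ hf
  have h2 : IsUnit (2 : B) := by
    have := (IsUnit.mk0 (2 : ℂ) two_ne_zero).map (algebraMap ℂ B)
    rwa [map_ofNat] at this
  obtain ⟨p, hok, hp⟩ := hYOR s ρ r h2 hρ hr hr0 hrρ
  have hs' : (φ : B →+* K) s ≠ 0 := by
    intro h
    apply hs
    apply hφ
    rw [map_zero]
    exact h
  have htw : (φ : B →+* K) s * ((φ : B →+* K) s)⁻¹ = 1 := mul_inv_cancel₀ hs'
  have hfi : ∀ i : Fin 7, cf7 (((∏ i, (X - C (ρ i))) *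
      ∏ j, (C (s ^ 2) * X - C (r j)) : B[X]).map (φ : B →+* K)) i =
      (φ : B →+* K) (pT p s i) := by
    intro i
    rw [hp, cf7, coeff_map]
  obtain ⟨g, a, g1, g2, g3, a1, a2⟩ := hYAR (φ : B →+* K) p s _ htw _ hfi
  refine ⟨Yam p s, hYST p s hok, ycov hok.ybz (GeoA.half B) ![e 0, -e 1, e 2] 2, a, ?_⟩
  refine y_compat (φ : B →+* K) htw hfi hok.ybz (GeoA.hok hf) g g1 g2 g3 a a1 a2
    (GeoA.half B) ![e 0, -e 1, e 2] (GeoA.half K) _ ?_ ?_ ?_ ?_ 2
  · exact (φ.commutes _).symm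
  · change (((C (e 0) + C (s * e 1) * X + C (s ^ 2 * e 2) * X ^ 2 : B[X]).map
      (φ : B →+* K)).coeff 0) = (φ : B →+* K) (e 0)
    rw [coeff_map, (qc _ _ _).1]
  · change -(((C (e 0) + C (s * e 1) * X + C (s ^ 2 * e 2) * X ^ 2 : B[X]).map
      (φ : B →+* K)).coeff 1) = (φ : B →+* K) (s * -e 1)
    rw [coeff_map, ← map_neg, (qc _ _ _).2.1, mul_neg]
  · change (((C (e 0) + C (s * e 1) * X + C (s ^ 2 * e 2) * X ^ 2 : B[X]).map
      (φ : B →+* K)).coeff 2) = (φ : B →+* K) (s ^ 2 * e 2)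
    rw [coeff_map, (qc _ _ _).2.2]

end Pool.Agent.MG.H2
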