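import Pool.Agent.MG.H2.StmtsY
import Pool.Agent.MG.W.WSM

/-!
# YSM: the charts of the curves `y² = f(x)` are smooth
-/

open CategoryTheory CategoryTheory.Limits AlgebraicGeometry TensorProduct

namespace Pool.Agent.MG.H2

namespace YSM

variable (B : Type) [CommRing B] (f : Fin 7 → B)

/-- The value of the derivative. -/
def dpol {R : Type} [CommRing R] (f : Fin 7 → R) (x : R) : R :=
  f 1 + 2 * f 2 * x + 3 * f 3 * x ^ 2 + 4 * f 4 * x ^ 3 + 5 * f 5 * x ^ 4 + 6 * f 6 * x ^ 5

theorem dpol_map {R R' : Type} [CommRing R] [CommRing R'] (φ : R →+* R') (f : Fin 7 → R) (x : R) :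
    φ (dpol f x) = dpol (fun i => φ (f i)) (φ x) := by
  have h : ∀ n : ℕ, φ (n : R) = (n : R') := fun n => map_natCast _ n
  have h2 := h 2
  have h3 := h 3
  have h4 := h 4
  have h5 := h 5
  have h6 := h 6
  push_cast at h2 h3 h4 h5 h6
  simp only [dpol, map_add, map_mul, map_pow, h2, h3, h4, h5, h6]

theorem aeval_pp {R : Type} [CommRing R] [Algebra B R] (x : R) :
    Polynomial.aeval x (pp B f) = pol (fun i => algebraMap B R (f i)) x := by
  simp [pp, pol]

theorem aeval_dpp {R : Type} [CommRing R] [Algebra B R] (x : R) :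
    Polynomial.aeval x (Polynomial.derivative (pp B f)) =
      dpol (fun i => algebraMap B R (f i)) x := by
  have h : ∀ n : ℕ, algebraMap B R (n : B) = (n : R) := fun n => map_natCast _ n
  have h2 := h 2
  have h3 := h 3
  have h4 := h 4
  have h5 := h 5
  push_cast at h2 h3 h4 h5
  simp [pp, pol, dpol]
  simp only [h2, h3, h4, h5]
  ring

theorem d0 : Ideal.Quotient.mk (Ideal.span {eq1 B f}) (MvPolynomial.pderiv 0 (eq1 B f)) =
    -dpol (fun i => algebraMap B (A1 B f) (f i)) (x1 B f) := by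
  have h : MvPolynomial.pderiv 0 (eq1 B f) =
      -dpol (fun i => MvPolynomial.C (f i)) (MvPolynomial.X 0) := by
    simp [eq1, pol, dpol, MvPolynomial.pderiv_X]
    ring
  rw [h, map_neg, dpol_map]
  rfl

theorem d1 : Ideal.Quotient.mk (Ideal.span {eq1 B f}) (MvPolynomial.pderiv 1 (eq1 B f)) =
    2 * y1 B f := by
  have h : MvPolynomial.pderiv 1 (eq1 B f) = 2 * MvPolynomial.X 1 := by
    simp [eq1, pol, MvPolynomial.pderiv_X]
  rw [h, map_mul]
  rfl

theorem span1 (h2 : IsUnit (2 : B)) (hc : IsCoprime (pp B f) (Polynomial.derivative (pp B f))) :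
    Ideal.span {Ideal.Quotient.mk (Ideal.span {eq1 B f}) (MvPolynomial.pderiv 0 (eq1 B f)),
      Ideal.Quotient.mk (Ideal.span {eq1 B f}) (MvPolynomial.pderiv 1 (eq1 B f))} = ⊤ := by
  rw [Ideal.eq_top_iff_one, Ideal.mem_span_pair, d0, d1]
  obtain ⟨a, c, hac⟩ := hc
  obtain ⟨w, hw⟩ := h2.exists_left_inv
  have h := congrArg (Polynomial.aeval (x1 B f)) hac
  rw [map_add, map_mul, map_mul, map_one, aeval_pp, aeval_dpp, ← rel1] at h
  have hw' : algebraMap B (A1 B f) w * 2 = 1 := by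
    have : algebraMap B (A1 B f) (w * 2) = 1 := by rw [hw, map_one]
    rw [map_mul, map_ofNat] at this
    exact this
  refine ⟨-Polynomial.aeval (x1 B f) c, Polynomial.aeval (x1 B f) a * y1 B f *
    algebraMap B (A1 B f) w, ?_⟩
  linear_combination h + Polynomial.aeval (x1 B f) a * y1 B f ^ 2 * hw'

end YSM

theorem t_YSM : Stmt_YSM := fun B _ f h2 hc => W.WSM.loc _ (YSM.span1 B f h2 hc)

end Pool.Agent.MG.H2
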