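import Pool.Agent.MG.H2.StmtsY
import Pool.Agent.MG.NOD

/-!
# YSQ: adjoining the square root of a unit is etale
-/

open CategoryTheory CategoryTheory.Limits AlgebraicGeometry TensorProduct

namespace Pool.Agent.MG.H2

namespace YSQ

open Polynomial

variable {A : Type} [CommRing A]

theorem monic (u : A) : (X ^ 2 - C u : A[X]).Monic := monic_X_pow_sub_C u two_ne_zero

/-- The standard etale pair `X² - u`, `1`. -/
noncomputable def pair (u v i2 : A) (hv : u * v = 1) (hi : 2 * i2 = 1) : StandardEtalePair A where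
  f := X ^ 2 - C u
  monic_f := monic u
  g := 1
  cond := ⟨C (v * i2) * X, -C v, 0, by
    have h1 : C (v * i2) * (2 : A[X]) = C v := by
      have h2 : (2 : A[X]) = C 2 := (C_ofNat 2).symm
      rw [h2, ← C_mul, mul_assoc, mul_comm i2, hi, mul_one]
    have h3 : C u * C v = (1 : A[X]) := by rw [← C_mul, hv, C_1]
    simp only [derivative_sub, derivative_X_pow, derivative_C, Nat.cast_ofNat, C_ofNat]
    linear_combination X ^ 2 * h1 + h3⟩

theorem etale (u : A) (h2 : IsUnit (2 : A)) (hu : IsUnit u) :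
    Algebra.Etale A (AdjoinRoot (X ^ 2 - C u)) := by
  obtain ⟨v, hv⟩ := hu.exists_right_inv
  obtain ⟨i2, hi⟩ := h2.exists_right_inv
  set P := pair u v i2 hv hi with hP
  have h1 : IsUnit (AdjoinRoot.mk P.f P.g) := by
    rw [show P.g = 1 from rfl, map_one]
    exact isUnit_one
  exact Algebra.Etale.of_equiv (P.equivAwayAdjoinRoot.trans
    ((IsLocalization.atUnit (AdjoinRoot P.f) (Localization.Away (AdjoinRoot.mk P.f P.g))
      (AdjoinRoot.mk P.f P.g) h1).restrictScalars A).symm)

theorem nontriv [Nontrivial A] (u : A) : Nontrivial (AdjoinRoot (X ^ 2 - C u)) := by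
  have h0 : 0 < (AdjoinRoot.powerBasis' (monic u)).dim := by
    rw [AdjoinRoot.powerBasis'_dim, natDegree_X_pow_sub_C]
    norm_num
  exact ⟨⟨(AdjoinRoot.powerBasis' (monic u)).basis ⟨0, h0⟩, 0,
    (AdjoinRoot.powerBasis' (monic u)).basis.ne_zero _⟩⟩

end YSQ

theorem t_YSQ : Stmt_YSQ := by
  intro A _ u h2 hu
  have h1 := YSQ.etale u h2 hu
  refine ⟨NOD.etale_spMap (RingHom.etale_algebraMap.2 h1), ?_⟩
  change Function.Surjective (PrimeSpectrum.comap (algebraMap A
    (AdjoinRoot (Polynomial.X ^ 2 - Polynomial.C u))))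
  rcases subsingleton_or_nontrivial A with hA | hA
  · intro p
    exact absurd (Subsingleton.elim (1 : A) 0 ▸ p.asIdeal.zero_mem)
      ((Ideal.ne_top_iff_one _).1 p.isPrime.ne_top)
  · have h3 := YSQ.nontriv u
    have h4 := (YSQ.monic u).free_adjoinRoot
    exact PrimeSpectrum.comap_surjective_of_faithfullyFlat

end Pool.Agent.MG.H2
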