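import Pool.Agent.MG.H2.StmtsY
import Pool.Agent.MG.FIS

/-!
# The families `Yam p t` are stable
-/

open CategoryTheory CategoryTheory.Limits AlgebraicGeometry TensorProduct

namespace Pool.Agent.MG.H2

namespace YST

variable {B K : Type} [CommRing B] [Field K]

/-- A fibre of the family is isomorphic to the curve with the images of the coefficients. -/
theorem fibre (hBC : Stmt_YBC) (p : Fin 7 → B) (t : B) (s : B →+* K) (z : Fam 0 K)
    (a : Arrow s z (Yam p t)) :
    ∃ f : Arrow (RingHom.id K) z (Yam (fun i => s (p i)) (s t)), IsIso f.f := by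
  have h1 : IsPullback (YX.map s (fun _ => rfl) rfl) (YX.pr K (fun i => s (p i)) (s t))
    (YX.pr B p t) (spMap s) := hBC s (fun _ => rfl) rfl
  let e : z.X ≅ YX K (fun i => s (p i)) (s t) := a.cart.isoIsPullback _ _ h1
  have e2 : e.hom ≫ YX.pr K (fun i => s (p i)) (s t) = z.π :=
    a.cart.isoIsPullback_hom_snd _ _ h1
  refine ⟨⟨e.hom, ?_, fun i => i.elim0⟩, ?_⟩
  · have : IsIso (spMap (RingHom.id K)) := by
      rw [FIS.spMap_id]
      infer_instance
    refine IsPullback.of_horiz_isIso ⟨?_⟩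
    change e.hom ≫ YX.pr K (fun i => s (p i)) (s t) = z.π ≫ spMap (RingHom.id K)
    rw [e2, FIS.spMap_id, Category.comp_id]
  · change IsIso e.hom
    infer_instance

end YST

theorem t_YST (hPR : Stmt_YPR) (hBC : Stmt_YBC) (hOB : Stmt_YOB) (hFI : Stmt_YFI) :
    Stmt_YST := by
  intro B _ p t h
  obtain ⟨p1, p2, p3⟩ := hPR B p t
  refine ⟨p1, p2, p3, ?_⟩
  rintro K _ _ s z ⟨a⟩
  obtain ⟨f, hf⟩ := YST.fibre hBC p t s z a
  exact t_FIS.2 2 z _ f hf (hFI _ _ (hOB s (fun _ => rfl) rfl h))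

end Pool.Agent.MG.H2
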