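import Pool.Agent.MG.H2.StmtsY

/-!
# The union of the charts `T` and `Q` is affine at `t = 0`
-/

open CategoryTheory CategoryTheory.Limits AlgebraicGeometry TensorProduct

namespace Pool.Agent.MG.H2

namespace YUA

/-- The charts `T` and `Q` are disjoint. -/
theorem empty (K : Type) [Field K] (p : Fin 7 → K) (x : Sp (TT K p 0)) (y : Sp (QQ K p 0)) :
    YX.inT K p 0 x ≠ YX.inQ K p 0 y := by
  intro h
  obtain ⟨w, w', -, -, h3⟩ := YX.meetTQ x y h
  have h1 : xN K p 0 ∉ (spMap (nT K p 0) w).asIdeal := (range_nT K p 0 _).mp ⟨w, rfl⟩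
  have h2 : zN K p 0 ∉ (spMap (nT K p 0) w).asIdeal := by
    rw [h3]
    exact (range_nQ K p 0 _).mp ⟨w', rfl⟩
  have h4 : zN K p 0 * xN K p 0 = 0 := by
    have := (relN K p 0).zx
    rw [this, map_zero, zero_pow two_ne_zero]
  have h5 : zN K p 0 * xN K p 0 ∈ (spMap (nT K p 0) w).asIdeal := by
    rw [h4]
    exact Ideal.zero_mem _
  rcases ((spMap (nT K p 0) w).isPrime).mem_or_mem h5 with h6 | h6
  · exact h2 h6
  · exact h1 h6

end YUA

/-- The union of the charts `T` and `Q` is affine. -/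
theorem t_YUA : Stmt_YUA := by
  intro K _ p
  have h : (YX.inT K p 0).opensRange ⊓ (YX.inQ K p 0).opensRange = ⊥ := by
    ext z
    constructor
    · rintro ⟨⟨x, hx⟩, ⟨y, hy⟩⟩
      exact absurd (hx.trans hy.symm) (YUA.empty K p x y)
    · intro hz
      exact absurd hz (Set.notMem_empty z)
  exact ⟨h, (isAffineOpen_opensRange _).sup_of_disjoint (isAffineOpen_opensRange _)
    (disjoint_iff.mpr h)⟩

end Pool.Agent.MG.H2
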