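import Pool.Agent.MG.H2.StmtsY

/-!
# Existence in the valuative criterion for the family `YX B p t`
-/

open CategoryTheory CategoryTheory.Limits AlgebraicGeometry TensorProduct IsLocalRing

namespace Pool.Agent.MG.H2

namespace YVE

theorem mem_of_closed {X : Scheme.{0}} {R : Type} [CommRing R] [IsLocalRing R]
    (l : Sp R ⟶ X) (V : X.Opens) (h : l (closedPoint R) ∈ V) (y : Sp R) : l y ∈ V :=
  ((specializes_closedPoint (R := R) y).map l.continuous).mem_open V.isOpen h

/-- A local point in a chart. -/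
theorem fac1 {X : Scheme.{0}} {A R : Type} [CommRing A] [CommRing R] [IsLocalRing R]
    (i : Sp A ⟶ X) [IsOpenImmersion i] (l : Sp R ⟶ X)
    (h : l (closedPoint R) ∈ Set.range i) : ∃ g : A →+* R, l = spMap g ≫ i := by
  have hr : Set.range l ⊆ Set.range i := by
    rintro _ ⟨y, rfl⟩
    exact mem_of_closed l i.opensRange h y
  obtain ⟨φ, hφ⟩ := Spec.map_surjective (IsOpenImmersion.lift i l hr)
  refine ⟨φ.hom, ?_⟩
  have h2 : spMap φ.hom = IsOpenImmersion.lift i l hr := hφ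
  rw [h2, IsOpenImmersion.lift_fac]

theorem spMap_inj {A C : Type} [CommRing A] [CommRing C] {φ ψ : A →+* C}
    (h : spMap φ = spMap ψ) : φ = ψ := by
  have h2 := Spec.map_injective h
  exact congrArg CommRingCat.Hom.hom h2

section val

variable {R K : Type} [CommRing R] [IsDomain R] [ValuationRing R] [Field K] [Algebra R K]
  [IsFractionRing R K]

theorem sq_int {y : K} {r : R} (h : y ^ 2 = algebraMap R K r) : ∃ s : R, y = algebraMap R K s := by
  rcases ValuationRing.isInteger_or_isInteger R y with ⟨s, hs⟩ | ⟨s, hs⟩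
  · exact ⟨s, hs.symm⟩
  · by_cases hy : y = 0
    · exact ⟨0, by rw [hy, map_zero]⟩
    · refine ⟨r * s, ?_⟩
      rw [map_mul, ← h, hs]
      field_simp

/-- An element which is not integral has an integral inverse. -/
theorem inv_int {y : K} (h : ¬ ∃ s : R, y = algebraMap R K s) :
    y ≠ 0 ∧ ∃ s : R, y⁻¹ = algebraMap R K s := by
  refine ⟨fun h0 => h ⟨0, by rw [h0, map_zero]⟩, ?_⟩
  rcases ValuationRing.isInteger_or_isInteger R y with ⟨s, hs⟩ | ⟨s, hs⟩
  · exact absurd ⟨s, hs.symm⟩ h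
  · exact ⟨s, hs.symm⟩

variable {B : Type} [CommRing B] {p : Fin 7 → B} {t : B}

/-- Points of the charts `y² = f(x)` with integral `x`. -/
theorem liftF {f : Fin 7 → B} (inF : Sp (A1 B f) ⟶ YX B p t)
    (hpr : inF ≫ YX.pr B p t = spMap (algebraMap B _)) (β : B →+* R) (h : A1 B f →+* K)
    (hβ : ∀ c, h (algebraMap B _ c) = algebraMap R K (β c))
    (hx : ∃ s : R, h (x1 B f) = algebraMap R K s) :
    ∃ l : Sp R ⟶ YX B p t, spMap (algebraMap R K) ≫ l = spMap h ≫ inF ∧
      l ≫ YX.pr B p t = spMap β := by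
  obtain ⟨s, hs⟩ := hx
  have hr := congrArg h (rel1 B f)
  rw [map_pow, pol_map, hs] at hr
  have hr2 : h (y1 B f) ^ 2 = algebraMap R K (pol (fun i => β (f i)) s) := by
    rw [hr, pol_map]
    congr 1
    funext i
    exact hβ (f i)
  obtain ⟨r, hy⟩ := sq_int hr2
  have hrel : r ^ 2 = pol (fun i => β (f i)) s := by
    apply IsFractionRing.injective R K
    rw [← hr2, hy, map_pow]
  refine ⟨spMap (lift1 β s r hrel) ≫ inF, ?_, ?_⟩
  · rw [← Category.assoc, spMap_comp']
    congr 2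
    refine hom1_ext (fun c => ?_) ?_ ?_
    · rw [RingHom.comp_apply, lift1_b, hβ]
    · rw [RingHom.comp_apply, lift1_x, hs]
    · rw [RingHom.comp_apply, lift1_y, hy]
  · rw [Category.assoc, hpr, spMap_comp']
    exact congrArg (fun g => spMap g)
      (RingHom.ext fun c => lift1_b (f := f) β s r hrel c)

theorem rel_inj {S S' : Type} [CommRing S] [CommRing S'] (φ : S →+* S')
    (hφ : Function.Injective φ) {p : Fin 7 → S} {t z ξ α β : S}
    (h : NRel (fun i => φ (p i)) (φ t) (φ z) (φ ξ) (φ α) (φ β)) : NRel p t z ξ α β where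
  zx := hφ (by rw [map_mul, map_pow, h.zx])
  aa := hφ (by rw [map_mul, map_pow, KK_map, h.aa])
  bb := hφ (by rw [map_mul, map_pow, KK_map, h.bb])
  ab := hφ (by rw [map_mul, map_mul, KK_map, h.ab])
  xb := hφ (by rw [map_mul, map_mul, h.xb])
  za := hφ (by rw [map_mul, map_mul, h.za])

/-- Integral points of the chart `N`. -/
theorem liftN' (β : B →+* R) (h : NN B p t →+* K)
    (hβ : ∀ c, h (algebraMap B _ c) = algebraMap R K (β c))
    (hz : ∃ s : R, h (zN B p t) = algebraMap R K s)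
    (hx : ∃ s : R, h (xN B p t) = algebraMap R K s) :
    ∃ l : Sp R ⟶ YX B p t, spMap (algebraMap R K) ≫ l = spMap h ≫ YX.inN B p t ∧
      l ≫ YX.pr B p t = spMap β := by
  obtain ⟨z, hz⟩ := hz
  obtain ⟨x, hx⟩ := hx
  have hrel := (relN B p t).map h
  have hp : (fun i => h (algebraMap B _ (p i))) = fun i => algebraMap R K (β (p i)) := by
    funext i
    exact hβ _
  rw [hβ, hz, hx, hp] at hrel
  have ha := hrel.aa
  have hb := hrel.bb
  rw [← KK_map, ← map_mul] at ha hb
  obtain ⟨a, ha'⟩ := sq_int ha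
  obtain ⟨b, hb'⟩ := sq_int hb
  rw [ha', hb'] at hrel
  have hrel2 := rel_inj (algebraMap R K) (IsFractionRing.injective R K)
    (p := fun i => β (p i)) hrel
  refine ⟨spMap (liftN β z x a b hrel2) ≫ YX.inN B p t, ?_, ?_⟩
  · rw [← Category.assoc, spMap_comp']
    congr 2
    refine homN_ext (fun c => ?_) ?_ ?_ ?_ ?_
    · rw [RingHom.comp_apply, liftN_c, hβ]
    · rw [RingHom.comp_apply, liftN_z, hz]
    · rw [RingHom.comp_apply, liftN_x, hx]
    · rw [RingHom.comp_apply, liftN_a, ha']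
    · rw [RingHom.comp_apply, liftN_b, hb']
  · rw [Category.assoc, YX.inN_pr, spMap_comp']
    exact congrArg (fun g => spMap g)
      (RingHom.ext fun c => liftN_c (p := p) (t := t) β z x a b hrel2 c)

end val

section charts

variable {K : Type} [Field K] {B : Type} [CommRing B] {p : Fin 7 → B} {t : B}
  {f : Fin 7 → B} (inF : Sp (A1 B f) ⟶ YX B p t) (nF : NN B p t →+* A12 B f) (e : NN B p t)
  (cond : spMap nF ≫ YX.inN B p t = spMap (g1 B f) ≫ inF)
  (nFc : ∀ c, nF (algebraMap B _ c) = algebraMap B _ c)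

include cond nFc in
/-- A point of a chart with nonzero `x` is a point of `N`. -/
theorem toN (h : A1 B f →+* K) (hx : h (x1 B f) ≠ 0) :
    ∃ h' : NN B p t →+* K, spMap h ≫ inF = spMap h' ≫ YX.inN B p t ∧
      ∀ c, h' (algebraMap B _ c) = h (algebraMap B _ c) := by
  have hg : ∀ v, (IsLocalization.Away.lift (S := A12 B f) (x1 B f) (IsUnit.mk0 _ hx))
      (g1 B f v) = h v :=
    fun v => IsLocalization.Away.lift_eq (S := A12 B f) (x1 B f) (IsUnit.mk0 _ hx) v
  refine ⟨(IsLocalization.Away.lift (S := A12 B f) (x1 B f) (IsUnit.mk0 _ hx)).comp nF, ?_, ?_⟩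
  · rw [← spMap_comp', Category.assoc, cond, ← Category.assoc, spMap_comp']
    congr 2
    exact (RingHom.ext hg).symm
  · intro c
    rw [RingHom.comp_apply, nFc]
    exact hg (algebraMap B _ c)

include cond nFc in
/-- A point of `N` with nonzero `e` is a point of the chart. -/
theorem fromN (nFe : nF e = ((xu B f)⁻¹ : (A12 B f)ˣ).val)
    (loc : @IsLocalization.Away _ _ e (A12 B f) _ nF.toAlgebra) (h : NN B p t →+* K)
    (he : h e ≠ 0) : ∃ h' : A1 B f →+* K, spMap h ≫ YX.inN B p t = spMap h' ≫ inF ∧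
      h' (x1 B f) = (h e)⁻¹ ∧ ∀ c, h' (algebraMap B _ c) = h (algebraMap B _ c) := by
  letI := nF.toAlgebra
  have hg : ∀ v, (IsLocalization.Away.lift (S := A12 B f) e (IsUnit.mk0 _ he)) (nF v) = h v :=
    fun v => IsLocalization.Away.lift_eq (S := A12 B f) e (IsUnit.mk0 _ he) v
  refine ⟨(IsLocalization.Away.lift (S := A12 B f) e (IsUnit.mk0 _ he)).comp (g1 B f), ?_, ?_, ?_⟩
  · rw [← spMap_comp', Category.assoc, ← cond, ← Category.assoc, spMap_comp']
    congr 2
    exact (RingHom.ext hg).symm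
  · rw [RingHom.comp_apply, ← xu_val]
    have h1 := hg e
    rw [nFe] at h1
    have h2 : (IsLocalization.Away.lift (S := A12 B f) e (IsUnit.mk0 _ he)) (xu B f : A12 B f) *
        (IsLocalization.Away.lift (S := A12 B f) e (IsUnit.mk0 _ he))
          ((xu B f)⁻¹ : (A12 B f)ˣ).val = 1 := by
      rw [← map_mul, Units.mul_inv, map_one]
    exact eq_inv_of_mul_eq_one_left ((congrArg _ h1.symm).trans h2)
  · intro c
    rw [RingHom.comp_apply, g1_b, ← nFc, hg]

end charts

section main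

variable {R K : Type} [CommRing R] [IsDomain R] [ValuationRing R] [Field K] [Algebra R K]
  [IsFractionRing R K] {B : Type} [CommRing B] {p : Fin 7 → B} {t : B}

/-- Points of `N`. -/
theorem exN (β : B →+* R) (h : NN B p t →+* K)
    (hβ : ∀ c, h (algebraMap B _ c) = algebraMap R K (β c)) :
    ∃ l : Sp R ⟶ YX B p t, spMap (algebraMap R K) ≫ l = spMap h ≫ YX.inN B p t ∧
      l ≫ YX.pr B p t = spMap β := by
  by_cases hx : ∃ s : R, h (xN B p t) = algebraMap R K s
  · by_cases hz : ∃ s : R, h (zN B p t) = algebraMap R K s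
    · exact liftN' β h hβ hz hx
    · obtain ⟨h0, s, hs⟩ := inv_int hz
      obtain ⟨h', e1, e2, e3⟩ := fromN (YX.inQ B p t) (nQ B p t) (zN B p t) (YX.condQ B p t)
        (nQ_c B p t) (nQ_z B p t) (nQ_loc B p t) h h0
      obtain ⟨l, hl1, hl2⟩ := liftF (YX.inQ B p t) (YX.inQ_pr B p t) β h'
        (fun c => (e3 c).trans (hβ c)) ⟨s, e2.trans hs⟩
      exact ⟨l, hl1.trans e1.symm, hl2⟩
  · obtain ⟨h0, s, hs⟩ := inv_int hx
    obtain ⟨h', e1, e2, e3⟩ := fromN (YX.inT B p t) (nT B p t) (xN B p t) (YX.condT B p t)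
      (nT_c B p t) (nT_x B p t) (nT_loc B p t) h h0
    obtain ⟨l, hl1, hl2⟩ := liftF (YX.inT B p t) (YX.inT_pr B p t) β h'
      (fun c => (e3 c).trans (hβ c)) ⟨s, e2.trans hs⟩
    exact ⟨l, hl1.trans e1.symm, hl2⟩

/-- Points of `T` and `Q`. -/
theorem exF {f : Fin 7 → B} (inF : Sp (A1 B f) ⟶ YX B p t) (nF : NN B p t →+* A12 B f)
    (hpr : inF ≫ YX.pr B p t = spMap (algebraMap B _))
    (cond : spMap nF ≫ YX.inN B p t = spMap (g1 B f) ≫ inF)
    (nFc : ∀ c, nF (algebraMap B _ c) = algebraMap B _ c) (β : B →+* R) (h : A1 B f →+* K)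
    (hβ : ∀ c, h (algebraMap B _ c) = algebraMap R K (β c)) :
    ∃ l : Sp R ⟶ YX B p t, spMap (algebraMap R K) ≫ l = spMap h ≫ inF ∧
      l ≫ YX.pr B p t = spMap β := by
  by_cases hx : ∃ s : R, h (x1 B f) = algebraMap R K s
  · exact liftF inF hpr β h hβ hx
  · obtain ⟨h0, -⟩ := inv_int hx
    obtain ⟨h', e1, e2⟩ := toN inF nF cond nFc h h0
    obtain ⟨l, hl1, hl2⟩ := exN β h' (fun c => (e2 c).trans (hβ c))
    exact ⟨l, hl1.trans e1.symm, hl2⟩

end main

/-- The compatibility of the homomorphisms with the base. -/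
theorem compat {R K B A : Type} [CommRing R] [CommRing K] [Algebra R K] [CommRing B] [CommRing A]
    [Algebra B A] {X : Scheme.{0}} (i : Sp A ⟶ X) (π : X ⟶ Sp B)
    (hi : i ≫ π = spMap (algebraMap B A)) (β : B →+* R) (h : A →+* K)
    (hw : (spMap h ≫ i) ≫ π = spMap (algebraMap R K) ≫ spMap β) (c : B) :
    h (algebraMap B A c) = algebraMap R K (β c) := by
  rw [Category.assoc, hi, spMap_comp', spMap_comp'] at hw
  exact RingHom.congr_fun (spMap_inj hw) c

end YVE

open YVE in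
/-- **YVE** -/
theorem t_YVE : Stmt_YVE := by
  intro B _ p t R K _ _ _ _ _ _ i₁ i₂ hw
  obtain ⟨β', hβ'⟩ := Spec.map_surjective i₂
  obtain ⟨β, rfl⟩ : ∃ β : B →+* R, i₂ = spMap β := ⟨β'.hom, hβ'.symm⟩
  rcases YX.surj3 (i₁ (closedPoint K)) with hp | hp | hp
  · obtain ⟨h, rfl⟩ := fac1 (YX.inT B p t) i₁ hp
    exact exF (YX.inT B p t) (nT B p t) (YX.inT_pr B p t) (YX.condT B p t) (nT_c B p t) β h
      (compat _ _ (YX.inT_pr B p t) β h hw)
  · obtain ⟨h, rfl⟩ := fac1 (YX.inN B p t) i₁ hp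
    exact exN β h (compat _ _ (YX.inN_pr B p t) β h hw)
  · obtain ⟨h, rfl⟩ := fac1 (YX.inQ B p t) i₁ hp
    exact exF (YX.inQ B p t) (nQ B p t) (YX.inQ_pr B p t) (YX.condQ B p t) (nQ_c B p t) β h
      (compat _ _ (YX.inQ_pr B p t) β h hw)

end Pool.Agent.MG.H2
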