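import Pool.Agent.MG.H2.StmtsY

/-!
# YVU: uniqueness in the valuative criterion for the family `YX B p t`
-/

open CategoryTheory CategoryTheory.Limits AlgebraicGeometry TensorProduct IsLocalRing

namespace Pool.Agent.MG.H2

namespace YVU

/-! ## Points with values in local rings -/

theorem mem_of_closed {X : Scheme.{0}} {R : Type} [CommRing R] [IsLocalRing R]
    (l : Sp R ⟶ X) (V : X.Opens) (h : l (closedPoint R) ∈ V) (y : Sp R) : l y ∈ V :=
  ((specializes_closedPoint (R := R) y).map l.continuous).mem_open V.isOpen h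

theorem fac1 {X : Scheme.{0}} {R A : Type} [CommRing R] [IsLocalRing R] [CommRing A]
    (i : Sp A ⟶ X) [IsOpenImmersion i] (l : Sp R ⟶ X)
    (h : l (closedPoint R) ∈ Set.range i) : ∃ h : A →+* R, l = spMap h ≫ i := by
  have hr : Set.range l ⊆ Set.range i := by
    rintro _ ⟨y, rfl⟩
    exact mem_of_closed l i.opensRange h y
  obtain ⟨φ, hφ⟩ := Spec.map_surjective (IsOpenImmersion.lift i l hr)
  refine ⟨φ.hom, ?_⟩
  have h2 : spMap φ.hom = IsOpenImmersion.lift i l hr := hφ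
  rw [h2, IsOpenImmersion.lift_fac]

theorem fac {B : Type} [CommRing B] {p : Fin 7 → B} {t : B} {R : Type} [CommRing R]
    [IsLocalRing R] (l : Sp R ⟶ YX B p t) :
    (∃ h : TT B p t →+* R, l = spMap h ≫ YX.inT B p t) ∨
    (∃ h : NN B p t →+* R, l = spMap h ≫ YX.inN B p t) ∨
    (∃ h : QQ B p t →+* R, l = spMap h ≫ YX.inQ B p t) := by
  rcases YX.surj3 (l (closedPoint R)) with h | h | h
  · exact Or.inl (fac1 _ l h)
  · exact Or.inr (Or.inl (fac1 _ l h))
  · exact Or.inr (Or.inr (fac1 _ l h))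

theorem spMap_inj {A C : Type} [CommRing A] [CommRing C] {φ ψ : A →+* C}
    (h : spMap φ = spMap ψ) : φ = ψ := by
  have h2 := Spec.map_injective h
  exact congrArg CommRingCat.Hom.hom h2

theorem mapOf {A C : Type} [CommRing A] [CommRing C] (m : Sp C ⟶ Sp A) :
    ∃ f : A →+* C, spMap f = m := by
  obtain ⟨φ, hφ⟩ := Spec.map_surjective m
  exact ⟨φ.hom, hφ⟩

section gen

variable {R K : Type} [CommRing R] [CommRing K] {ι : R →+* K}
  (hinj : Function.Injective ι)

include hinj in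
theorem cancel_inj {A : Type} [CommRing A] {h h' : A →+* R}
    (H : spMap ι ≫ spMap h = spMap ι ≫ spMap h') : h = h' := by
  rw [spMap_comp', spMap_comp'] at H
  have h2 := spMap_inj H
  ext v
  exact hinj (RingHom.congr_fun h2 v)

include hinj in
theorem same {A : Type} [CommRing A] {X : Scheme.{0}} (i : Sp A ⟶ X) [Mono i] {h h' : A →+* R}
    (H : spMap ι ≫ spMap h ≫ i = spMap ι ≫ spMap h' ≫ i) : h = h' := by
  refine cancel_inj hinj ?_
  rw [← cancel_mono i, Category.assoc, Category.assoc, H]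

include hinj in
/-- Two points in two charts `N`, `T` with the intersection `W`. -/
theorem mixed {N T W : Type} [CommRing N] [CommRing T] [CommRing W] {X : Scheme.{0}}
    (n : N →+* W) (g : T →+* W) (i : Sp N ⟶ X) (j : Sp T ⟶ X) [Mono i]
    (cond : spMap n ≫ i = spMap g ≫ j)
    (hp : ∀ (a : N →+* K) (b : T →+* K), spMap a ≫ i = spMap b ≫ j →
      ∃ m : W →+* K, m.comp n = a ∧ m.comp g = b) (x : N) (x' : T) (hx : n x * g x' = 1)
    (hl : ∀ (b : T →+* R), IsUnit (b x') → ∃ b' : W →+* R, b'.comp g = b)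
    (h : N →+* R) (h' : T →+* R)
    (H : spMap ι ≫ spMap h ≫ i = spMap ι ≫ spMap h' ≫ j) : spMap h ≫ i = spMap h' ≫ j := by
  have H' : spMap (ι.comp h) ≫ i = spMap (ι.comp h') ≫ j := by
    rw [← spMap_comp', ← spMap_comp', Category.assoc, Category.assoc, H]
  obtain ⟨m, hm1, hm2⟩ := hp _ _ H'
  have h1 : ι (h x) * ι (h' x') = 1 := by
    have e1 : m (n x) = ι (h x) := RingHom.congr_fun hm1 x
    have e2 : m (g x') = ι (h' x') := RingHom.congr_fun hm2 x'
    rw [← e1, ← e2, ← map_mul, hx, map_one]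
  have h2 : h x * h' x' = 1 := hinj (by rw [map_mul, h1, map_one])
  obtain ⟨b', hb'⟩ := hl h' (IsUnit.of_mul_eq_one_right _ h2)
  have h3 : spMap h' ≫ j = spMap (b'.comp n) ≫ i := by
    rw [← hb', ← spMap_comp', ← spMap_comp', Category.assoc, Category.assoc, cond]
  rw [h3] at H ⊢
  rw [same hinj i H]

end gen

/-! ## The charts -/

section charts

variable {B : Type} [CommRing B] {p : Fin 7 → B} {t : B}

theorem ext12 {f : Fin 7 → B} {R : Type} [CommRing R] (h : A1 B f →+* R)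
    (hz : IsUnit (h (x1 B f))) : ∃ h12 : A12 B f →+* R, h12.comp (g1 B f) = h := by
  refine ⟨IsLocalization.Away.lift (x1 B f) hz, ?_⟩
  exact RingHom.ext fun v => IsLocalization.Away.lift_eq (x1 B f) hz v

theorem pullNT {K : Type} [CommRing K] (a : NN B p t →+* K) (b : TT B p t →+* K)
    (h : spMap a ≫ YX.inN B p t = spMap b ≫ YX.inT B p t) :
    ∃ m : TN B p t →+* K, m.comp (nT B p t) = a ∧ m.comp (tT B p t) = b := by
  have h1 : spMap a ≫ YNT.inN B p t = spMap b ≫ YNT.inT B p t := by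
    rw [← cancel_mono (YX.inNT B p t), Category.assoc, Category.assoc]
    exact h
  have hp := glue2_isPullback (spMap (nT B p t)) (spMap (tT B p t))
  obtain ⟨m, hm⟩ := mapOf (hp.lift (spMap a) (spMap b) h1)
  refine ⟨m, spMap_inj ?_, spMap_inj ?_⟩
  · rw [← spMap_comp', hm]
    exact hp.lift_fst _ _ h1
  · rw [← spMap_comp', hm]
    exact hp.lift_snd _ _ h1

theorem pullQ {K : Type} [CommRing K] (a : Sp K ⟶ YNT B p t) (b : QQ B p t →+* K)
    (h : a ≫ YX.inNT B p t = spMap b ≫ YX.inQ B p t) :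
    ∃ m : QN B p t →+* K, spMap (m.comp (nQ B p t)) ≫ YNT.inN B p t = a ∧
      m.comp (qQ B p t) = b := by
  have hp := glue2_isPullback (spMap (nQ B p t) ≫ YNT.inN B p t) (spMap (qQ B p t))
  obtain ⟨m, hm⟩ := mapOf (hp.lift a (spMap b) h)
  refine ⟨m, ?_, spMap_inj ?_⟩
  · rw [← spMap_comp', hm, Category.assoc]
    exact hp.lift_fst _ _ h
  · rw [← spMap_comp', hm]
    exact hp.lift_snd _ _ h

theorem pullNQ {K : Type} [CommRing K] (a : NN B p t →+* K) (b : QQ B p t →+* K)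
    (h : spMap a ≫ YX.inN B p t = spMap b ≫ YX.inQ B p t) :
    ∃ m : QN B p t →+* K, m.comp (nQ B p t) = a ∧ m.comp (qQ B p t) = b := by
  obtain ⟨m, h1, h2⟩ := pullQ (spMap a ≫ YNT.inN B p t) b (by
    rw [Category.assoc]
    exact h)
  refine ⟨m, spMap_inj ?_, h2⟩
  rw [← cancel_mono (YNT.inN B p t), h1]

theorem xNT : nT B p t (xN B p t) * tT B p t (x1 B (pT p t)) = 1 := by
  rw [nT_x, tT, ← xu_val, Units.inv_mul]

theorem zNQ : nQ B p t (zN B p t) * qQ B p t (x1 B (pT (rev p) t)) = 1 := by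
  rw [nQ_z, qQ, ← xu_val, Units.inv_mul]

variable {R K : Type} [CommRing R] [CommRing K] {ι : R →+* K} (hinj : Function.Injective ι)

include hinj in
theorem mNT (h : NN B p t →+* R) (h' : TT B p t →+* R)
    (H : spMap ι ≫ spMap h ≫ YX.inN B p t = spMap ι ≫ spMap h' ≫ YX.inT B p t) :
    spMap h ≫ YX.inN B p t = spMap h' ≫ YX.inT B p t :=
  mixed hinj (nT B p t) (tT B p t) (YX.inN B p t) (YX.inT B p t) (YX.condT B p t)
    (fun a b h => pullNT a b h) _ _ xNT (fun b hb => ext12 b hb) h h' H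

include hinj in
theorem mNQ (h : NN B p t →+* R) (h' : QQ B p t →+* R)
    (H : spMap ι ≫ spMap h ≫ YX.inN B p t = spMap ι ≫ spMap h' ≫ YX.inQ B p t) :
    spMap h ≫ YX.inN B p t = spMap h' ≫ YX.inQ B p t :=
  mixed hinj (nQ B p t) (qQ B p t) (YX.inN B p t) (YX.inQ B p t) (YX.condQ B p t)
    (fun a b h => pullNQ a b h) _ _ zNQ (fun b hb => ext12 b hb) h h' H

include hinj in
theorem mTQ (h : TT B p t →+* R) (h' : QQ B p t →+* R)
    (H : spMap ι ≫ spMap h ≫ YX.inT B p t = spMap ι ≫ spMap h' ≫ YX.inQ B p t) :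
    spMap h ≫ YX.inT B p t = spMap h' ≫ YX.inQ B p t := by
  have H' : (spMap (ι.comp h) ≫ YNT.inT B p t) ≫ YX.inNT B p t =
      spMap (ι.comp h') ≫ YX.inQ B p t := by
    rw [← spMap_comp', ← spMap_comp', Category.assoc, Category.assoc, Category.assoc, ← H]
    rfl
  obtain ⟨m', h1, h2⟩ := pullQ _ _ H'
  have h3 : spMap (m'.comp (nQ B p t)) ≫ YX.inN B p t = spMap (ι.comp h) ≫ YX.inT B p t := by
    have e := congrArg (fun f => f ≫ YX.inNT B p t) h1
    simp only [Category.assoc] at e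
    exact e
  obtain ⟨m, h4, h5⟩ := pullNT _ _ h3
  have e1 : m (nT B p t (zN B p t)) = m' (nQ B p t (zN B p t)) := RingHom.congr_fun h4 _
  have e2 : m (tT B p t (x1 B (pT p t))) = ι (h (x1 B (pT p t))) := RingHom.congr_fun h5 _
  have e3 : m' (qQ B p t (x1 B (pT (rev p) t))) = ι (h' (x1 B (pT (rev p) t))) :=
    RingHom.congr_fun h2 _
  have e4 : m (algebraMap B _ t) = ι (h (algebraMap B _ t)) := by
    have e := RingHom.congr_fun h5 (algebraMap B _ t)
    exact e
  have e5 : m' (nQ B p t (zN B p t)) * m' (qQ B p t (x1 B (pT (rev p) t))) = 1 := by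
    rw [← map_mul, zNQ, map_one]
  have e6 : m (nT B p t (zN B p t)) = ι (h (algebraMap B _ t)) ^ 2 * ι (h (x1 B (pT p t))) := by
    rw [nT_z, map_mul, map_pow, e4, xu_val]
    exact congrArg (fun w => ι (h (algebraMap B _ t)) ^ 2 * w) e2
  rw [← e1, e3, e6] at e5
  have h6 : h (x1 B (pT p t)) * (h (algebraMap B _ t) ^ 2 * h' (x1 B (pT (rev p) t))) = 1 := by
    refine hinj ?_
    rw [map_mul, map_mul, map_pow, map_one]
    linear_combination e5
  obtain ⟨h12, hh⟩ := ext12 h (IsUnit.of_mul_eq_one _ h6)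
  have h7 : spMap h ≫ YX.inT B p t = spMap (h12.comp (nT B p t)) ≫ YX.inN B p t := by
    rw [← hh, ← spMap_comp', ← spMap_comp', Category.assoc, Category.assoc, YX.condT]
  rw [h7] at H ⊢
  exact mNQ hinj _ _ H

end charts

end YVU

/-- **YVU**: uniqueness in the valuative criterion. -/
theorem t_YVU : Stmt_YVU := by
  intro B _ p t R K _ _ _ _ _ _ l l' _ H
  have hinj : Function.Injective (algebraMap R K) := IsFractionRing.injective R K
  rcases YVU.fac l with ⟨h, rfl⟩ | ⟨h, rfl⟩ | ⟨h, rfl⟩ <;>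
    rcases YVU.fac l' with ⟨h', rfl⟩ | ⟨h', rfl⟩ | ⟨h', rfl⟩
  · rw [YVU.same hinj _ H]
  · exact (YVU.mNT hinj h' h H.symm).symm
  · exact YVU.mTQ hinj h h' H
  · exact YVU.mNT hinj h h' H
  · rw [YVU.same hinj _ H]
  · exact YVU.mNQ hinj h h' H
  · exact (YVU.mTQ hinj h' h H.symm).symm
  · exact (YVU.mNQ hinj h' h H.symm).symm
  · rw [YVU.same hinj _ H]

end Pool.Agent.MG.H2
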