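import Pool.Agent.MG.H2.FinH
import Pool.Agent.MG.H2.HVal
import Pool.Agent.MG.H2.HTR
import Pool.Agent.MG.H2.YAR
import Pool.Agent.MG.H2.YBC
import Pool.Agent.MG.H2.YCN
import Pool.Agent.MG.H2.YRegT
import Pool.Agent.MG.H2.YDA
import Pool.Agent.MG.H2.YFI
import Pool.Agent.MG.H2.YFP
import Pool.Agent.MG.H2.YGA
import Pool.Agent.MG.H2.YGN
import Pool.Agent.MG.H2.YHC
import Pool.Agent.MG.H2.YHG
import Pool.Agent.MG.H2.YHR
import Pool.Agent.MG.H2.YHS
import Pool.Agent.MG.H2.YHT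
import Pool.Agent.MG.H2.YHX
import Pool.Agent.MG.H2.YNB
import Pool.Agent.MG.H2.YND
import Pool.Agent.MG.H2.YNN
import Pool.Agent.MG.H2.YOB
import Pool.Agent.MG.H2.YOR
import Pool.Agent.MG.H2.YOU
import Pool.Agent.MG.H2.YPR
import Pool.Agent.MG.H2.YRA
import Pool.Agent.MG.H2.YRI
import Pool.Agent.MG.H2.YSM
import Pool.Agent.MG.H2.YSQ
import Pool.Agent.MG.H2.YST
import Pool.Agent.MG.H2.YUA
import Pool.Agent.MG.H2.YVE
import Pool.Agent.MG.H2.YVU
import Pool.Agent.MG.H2.YDM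

/-!
# Genus two: every regular function is constant
-/

open CategoryTheory CategoryTheory.Limits AlgebraicGeometry Polynomial

namespace Pool.Agent.MG.H2

theorem yfi : Stmt_YFI :=
  t_YFI (t_YCN t_YDM t_YNB) (t_YND (t_YNN t_YSQ) t_YSM) (t_YGN t_YUA (t_YGA t_YNB))
    (t_YRI (t_YRA t_YDA t_YNB) t_YNB) t_YHX t_YOU (t_YHC t_YDM) (t_YHS t_YSM) t_YHG (t_YHR t_YDA)

theorem yst : Stmt_YST :=
  t_YST (t_YPR t_YVE t_YVU (t_YFP t_YNB)) t_YBC t_YOB yfi

theorem yar : Stmt_YAR := t_YAR t_YBC t_YHX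

theorem inp : Inp where
  hHTR := t_HTR
  hYHT := t_YHT yst yar t_YOU
  hYST := yst
  hYSM := t_YSM
  hYOR := t_YOR
  hYAR := yar
  hVAL := t_VAL
  hREG := t_REG yst t_YOR yar

/-- There is a generic smooth curve of genus two at which every regular function is constant. -/
theorem rigid (n : ℕ) : Std.Rigid 2 n := inp.rigid n

/-- Every regular function is constant. -/
theorem all_std (n : ℕ) (F : Std.Reg 2 n) : ∃ c : ℂ,
    ∀ (K : Type) [Field K] [IsAlgClosed K] [Algebra ℂ K] (C : Fam n K) (hC : Std.IsStable 2 C)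
      (_ : Smooth C.π) (l : Std.Cov 2 C), F.F K C hC l = algebraMap ℂ K c := inp.std n F

end Pool.Agent.MG.H2
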