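import Pool.Agent.MG.H2.HMu
import Pool.Agent.MG.H2.HBC

/-!
# The arrows between the curves `y² = f(x)` and the compatibility of the covectors
-/

open CategoryTheory CategoryTheory.Limits AlgebraicGeometry TensorProduct

namespace Pool.Agent.MG.H2

section

variable {B B' : Type} [CommRing B] [CommRing B'] {φ : B →+* B'} {f : Fin 7 → B}
  {f' : Fin 7 → B'}

theorem inv12_g2 {B : Type} [CommRing B] (f : Fin 7 → B) (v : A2 B f) :
    inv12 (rev_h' f) (g2 B f v) = g1 B (rev f) v :=
  congrArg (fun g => g (g1 B (rev f) v)) (inv12_inv12 (rev_h f) (rev_h' f))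

theorem inv12_inj {f f' : Fin 7 → B} (h : ∀ i, f' i = f (Fin.rev i)) :
    Function.Injective (inv12 h) := by
  have h' : ∀ i, f i = f' (Fin.rev i) := fun i => by simp [h]
  exact (invEquiv h h').injective

theorem HH.c2 (h : HH φ f f') (v : A2 B f) : h.g .N (g2 B f v) = g2 B' f' (h.g .Q v) := by
  apply inv12_inj (rev_h' f')
  rw [← h.e3, inv12_g2, h.e2, inv12_g2]

/-- The ring homomorphisms. -/
noncomputable def HH.rhom (h : HH φ f f') : RHom φ f f' where
  h1 := h.g .T
  h2 := h.g .Q
  h12 := h.g .N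
  b1 := h.gc .T
  b2 := h.gc .Q
  c1 := h.e1
  c2 := h.c2

theorem spMap_comp_assoc' {A B C : Type} [CommRing A] [CommRing B] [CommRing C] (f : A →+* B)
    (g : B →+* C) {Z : Scheme.{0}} (h : Sp A ⟶ Z) :
    spMap g ≫ spMap f ≫ h = spMap (g.comp f) ≫ h := by
  rw [← Category.assoc, spMap_comp']

theorem HH.ι (h : HH φ f f') (o : HOk f) (o' : HOk f') (i : Ct) :
    (hCh o').ι i ≫ h.rhom.mor = spMap (h.g i) ≫ (hCh o).ι i := by
  cases i
  · exact h.rhom.in1_mor
  · change (spMap (g1 B' f') ≫ HX.in1 B' f') ≫ h.rhom.mor =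
      spMap (h.g .N) ≫ spMap (g1 B f) ≫ HX.in1 B f
    rw [Category.assoc, h.rhom.in1_mor, spMap_comp_assoc', spMap_comp_assoc']
    congr 2
    exact RingHom.ext fun v => (h.e1 v).symm
  · exact h.rhom.in2_mor

theorem HH.η (h : HH φ f f') (o : HOk f) (o' : HOk f') (e : Bool) :
    (hCh o').η e ≫ h.rhom.mor = spMap (h.ge e) ≫ (hCh o).η e := by
  cases e
  · change (spMap (g1 B' (rev f')) ≫ HX.in2 B' f') ≫ h.rhom.mor =
      spMap h.gE ≫ spMap (g1 B (rev f)) ≫ HX.in2 B f
    rw [Category.assoc, h.rhom.in2_mor, spMap_comp_assoc', spMap_comp_assoc']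
    congr 2
    exact RingHom.ext fun v => (h.e2 v).symm
  · change (spMap (g1 B' f') ≫ HX.in1 B' f') ≫ h.rhom.mor =
      spMap (h.g .N) ≫ spMap (g1 B f) ≫ HX.in1 B f
    rw [Category.assoc, h.rhom.in1_mor, spMap_comp_assoc', spMap_comp_assoc']
    congr 2
    exact RingHom.ext fun v => (h.e1 v).symm

/-- Compatibility of the covectors. -/
theorem HH.compat (h : HH φ f f') {o : HOk f} {o' : HOk f'} {cc : Bool → Bool → B'}
    (hom : h.Om o o' cc)
    (a : Arrow φ (Hyp f') (Hyp f)) (ha : a.f = h.rhom.mor) (w : B) (c : Fin 3 → B) (w' : B')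
    (c' : Fin 3 → B')
    (hcc : ∀ (k : Bool) (v : ∀ e, hRE f e),
      (mab f' (cc true k * cal w' c' true + cc false k * cal w' c' false)
          (cc true k * cbe w' c' true + cc false k * cbe w' c' false) true (h.ge true (v true)) +
        mab f' (cc true k * cal w' c' true + cc false k * cal w' c' false)
          (cc true k * cbe w' c' true + cc false k * cbe w' c' false) false
          (h.ge false (v false))) =
      φ (mab f (cal w c k) (cbe w c k) true (v true) +
        mab f (cal w c k) (cbe w c k) false (v false))) (g : ℕ) :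
    Compat a (hcov o' w' c' g) (hcov o w c g) := by
  refine (h.rmap o o' cc hom).compat a (hCh o') (hCh o) ?_ ?_ (hRM o' w' c') (hRM o w c) ?_ g
  · intro i
    rw [ha]
    exact h.ι o o' i
  · intro e
    rw [ha]
    exact h.η o o' e
  · intro v
    exact sum_crit φ w c w' c' (fun e => e) h.ge hcc v

end

/-! ### Isomorphisms -/

section iso

variable {B : Type} [CommRing B] {f f' : Fin 7 → B}

theorem RHom.mor_mor {f f' : Fin 7 → B} (h : RHom (RingHom.id B) f f')
    (h' : RHom (RingHom.id B) f' f) (h1 : ∀ v, h'.h1 (h.h1 v) = v) (h2 : ∀ v, h'.h2 (h.h2 v) = v) :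
    h'.mor ≫ h.mor = 𝟙 _ := by
  refine HX.ext' ?_ ?_
  · have e : (h'.h1).comp h.h1 = RingHom.id _ := RingHom.ext h1
    rw [← Category.assoc, h'.in1_mor, Category.assoc, h.in1_mor, spMap_comp_assoc', e, spMap_id,
      Category.id_comp, Category.comp_id]
  · have e : (h'.h2).comp h.h2 = RingHom.id _ := RingHom.ext h2
    rw [← Category.assoc, h'.in2_mor, Category.assoc, h.in2_mor, spMap_comp_assoc', e, spMap_id,
      Category.id_comp, Category.comp_id]

/-- The arrow of an isomorphism. -/
noncomputable def isoArr {x y : Fam 0 B} (g : x.X ⟶ y.X) (_ : IsIso g)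
    (h : g ≫ y.π = x.π) : Arrow (RingHom.id B) x y where
  f := g
  cart := by
    rw [spMap_id]
    exact IsPullback.of_horiz_isIso ⟨by rw [h, Category.comp_id]⟩
  sec i := i.elim0

theorem isIso_mor (h : RHom (RingHom.id B) f f')
    (h' : RHom (RingHom.id B) f' f) (h1 : ∀ v, h'.h1 (h.h1 v) = v) (h2 : ∀ v, h'.h2 (h.h2 v) = v)
    (h3 : ∀ v, h.h1 (h'.h1 v) = v) (h4 : ∀ v, h.h2 (h'.h2 v) = v) : IsIso h.mor :=
  ⟨h'.mor, h'.mor_mor h h3 h4, h.mor_mor h' h1 h2⟩

end iso

/-! ### Base change -/

section bc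

variable {B B' : Type} [CommRing B] [CommRing B'] (φ : B →+* B') {f : Fin 7 → B}
  {f' : Fin 7 → B'} (hf : ∀ i, f' i = φ (f i))

/-- Base change. -/
noncomputable def arrBC : Arrow φ (Hyp f') (Hyp f) where
  f := HX.map φ hf
  cart := t_HBC φ hf
  sec i := i.elim0

theorem arrBC_in1 : HX.in1 B' f' ≫ (arrBC φ hf).f = spMap (bc1 φ hf) ≫ HX.in1 B f :=
  HX.in1_map φ hf

theorem arrBC_compat (o : HOk f) (o' : HOk f') (w : B) (c : Fin 3 → B) (w' : B')
    (c' : Fin 3 → B') (hw : w' = φ w) (hc : ∀ j, c' j = φ (c j)) (g : ℕ) :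
    Compat (arrBC φ hf) (hcov o' w' c' g) (hcov o w c g) := by
  refine (hhBC φ hf).compat (omBC φ hf o o') (arrBC φ hf) rfl w c w' c' ?_ g
  intro k v
  have key : ∀ al be : B, mab f' (φ al) (φ be) true ((hhBC φ hf).ge true (v true)) +
      mab f' (φ al) (φ be) false ((hhBC φ hf).ge false (v false)) =
      φ (mab f al be true (v true) + mab f al be false (v false)) := by
    intro al be
    change (φ al * cf (f := f') (-1) (bc12 φ hf (v true)) -
        φ be * cf (f := f') (-2) (bc12 φ hf (v true))) +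
      (- φ al * cf (f := rev f') (-2) (bc12 φ (rev_bc φ hf) (v false)) +
        φ be * cf (f := rev f') (-1) (bc12 φ (rev_bc φ hf) (v false))) =
      φ ((al * cf (f := f) (-1) (v true) - be * cf (f := f) (-2) (v true)) +
        (- al * cf (f := rev f) (-2) (v false) + be * cf (f := rev f) (-1) (v false)))
    rw [(cf_bc12 φ hf _ _).1, (cf_bc12 φ hf _ _).1, (cf_bc12 φ (rev_bc φ hf) _ _).1,
      (cf_bc12 φ (rev_bc φ hf) _ _).1]
    simp only [map_add, map_sub, map_mul, map_neg]
  rw [← key]
  cases k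
  · have e1 : cbc B' true false * cal w' c' true + cbc B' false false * cal w' c' false =
        φ (cal w c false) := by
      simp [cal, hw, hc]
    have e2 : cbc B' true false * cbe w' c' true + cbc B' false false * cbe w' c' false =
        φ (cbe w c false) := by
      simp [cbe, hc]
    rw [e1, e2]
  · have e1 : cbc B' true true * cal w' c' true + cbc B' false true * cal w' c' false =
        φ (cal w c true) := by
      simp [cal, hc]
    have e2 : cbc B' true true * cbe w' c' true + cbc B' false true * cbe w' c' false =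
        φ (cbe w c true) := by
      simp [cbe, hw, hc]
    rw [e1, e2]

end bc

/-! ### Scaling -/

section sc

variable {B : Type} [CommRing B] {lam nu : Bˣ} {f f' : Fin 7 → B}
  (h : IsSc (lam : B) (nu : B) f f')

theorem sc1_inv1 (v : A1 B f) : sc1 h.inv (sc1 h v) = v :=
  congrArg (fun g => g v) (sc1_sc1 h h.inv)

theorem sc1_inv2 (v : A1 B f') : sc1 h (sc1 h.inv v) = v := by
  have : (sc1 h).comp (sc1 h.inv) = RingHom.id _ := by
    refine hom1_ext ?_ ?_ ?_
    · intro c
      simp
    · rw [RingHom.comp_apply, sc1_x, map_mul, sc1_b, sc1_x, ← mul_assoc, ← map_mul, Units.inv_mul,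
        map_one, one_mul, RingHom.id_apply]
    · rw [RingHom.comp_apply, sc1_y, map_mul, sc1_b, sc1_y, ← mul_assoc, ← map_mul, Units.inv_mul,
        map_one, one_mul, RingHom.id_apply]
  exact congrArg (fun g => g v) this

theorem units_aux (lam nu : Bˣ) : (nu : B) * ((lam⁻¹ ^ 3 : Bˣ) : B) *
    (((nu⁻¹ : Bˣ) : B) * (((lam⁻¹)⁻¹ ^ 3 : Bˣ) : B)) = 1 := by
  rw [← Units.val_mul, ← Units.val_mul, ← Units.val_mul, inv_inv]
  have : nu * lam⁻¹ ^ 3 * (nu⁻¹ * lam ^ 3) = 1 := by
    rw [mul_mul_mul_comm, mul_inv_cancel, one_mul, ← mul_pow, inv_mul_cancel, one_pow]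
  rw [this, Units.val_one]

theorem sc1_rev1 (v : A2 B f) : sc1 h.inv.rev (sc1 h.rev v) = v := by
  have : (sc1 h.inv.rev).comp (sc1 h.rev) = RingHom.id _ := by
    refine hom1_ext ?_ ?_ ?_
    · intro c
      simp
    · rw [RingHom.comp_apply, sc1_x, map_mul, sc1_b, sc1_x, ← mul_assoc, ← map_mul, Units.mul_inv,
        map_one, one_mul, RingHom.id_apply]
    · rw [RingHom.comp_apply, sc1_y, map_mul, sc1_b, sc1_y, ← mul_assoc, ← map_mul, units_aux,
        map_one, one_mul, RingHom.id_apply]
  exact congrArg (fun g => g v) this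

theorem sc1_rev2 (v : A2 B f') : sc1 h.rev (sc1 h.inv.rev v) = v := by
  have : (sc1 h.rev).comp (sc1 h.inv.rev) = RingHom.id _ := by
    refine hom1_ext ?_ ?_ ?_
    · intro c
      simp
    · rw [RingHom.comp_apply, sc1_x, map_mul, sc1_b, sc1_x, ← mul_assoc, ← map_mul, Units.inv_mul,
        map_one, one_mul, RingHom.id_apply]
    · rw [RingHom.comp_apply, sc1_y, map_mul, sc1_b, sc1_y, ← mul_assoc, ← map_mul,
        mul_comm (((nu⁻¹ : Bˣ) : B) * _), units_aux, map_one, one_mul, RingHom.id_apply]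
  exact congrArg (fun g => g v) this

theorem isIso_sc : IsIso (hhSC h).rhom.mor :=
  isIso_mor (hhSC h).rhom (hhSC h.inv).rhom (sc1_inv1 h) (sc1_rev1 h) (sc1_inv2 h) (sc1_rev2 h)

/-- Scaling. -/
noncomputable def arrSC : Arrow (RingHom.id B) (Hyp f') (Hyp f) :=
  isoArr (x := Hyp f') (y := Hyp f) (hhSC h).rhom.mor (isIso_sc h) (by
    have := (hhSC h).rhom.mor_pr
    rw [spMap_id, Category.comp_id] at this
    exact this)

theorem arrSC_in1 : HX.in1 B f' ≫ (arrSC h).f = spMap (sc1 h) ≫ HX.in1 B f :=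
  (hhSC h).rhom.in1_mor

theorem arrSC_compat (o : HOk f) (o' : HOk f') (w : B) (c c' : Fin 3 → B)
    (hc : ∀ j : Fin 3, (nu : B) ^ 2 * c' j = (lam : B) ^ (2 + (j : ℕ)) * c j) (g : ℕ) :
    Compat (arrSC h) (hcov o' w c' g) (hcov o w c g) := by
  refine (hhSC h).compat (omSC h o o') (arrSC h) rfl w c w c' ?_ g
  intro k v
  set li : B := ((lam⁻¹ : Bˣ) : B) with hli
  have l1 : (lam : B) * li = 1 := Units.mul_inv _
  have c0 : (nu : B) ^ 2 * li ^ 2 * c' 0 = c 0 := by
    have := hc 0
    simp only [Fin.val_zero, add_zero] at this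
    linear_combination li ^ 2 * this + (c 0 * (lam * li + 1)) * l1
  have c1 : (nu : B) ^ 2 * li ^ 3 * c' 1 = c 1 := by
    have := hc 1
    simp only [Fin.val_one] at this
    have l3 : (lam : B) ^ 3 * li ^ 3 = 1 := by rw [← mul_pow, l1, one_pow]
    linear_combination li ^ 3 * this + (c 1) * l3
  have c2 : (nu : B) ^ 2 * li ^ 4 * c' 2 = c 2 := by
    have := hc 2
    simp only [Fin.val_two] at this
    have l4 : (lam : B) ^ 4 * li ^ 4 = 1 := by rw [← mul_pow, l1, one_pow]
    linear_combination li ^ 4 * this + (c 2) * l4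
  have p1 : ((lam ^ (-1 : ℤ) : Bˣ) : B) * (nu : B) = nu * li := by
    rw [zpow_neg_one]
    ring
  have p2 : ((lam ^ (-2 : ℤ) : Bˣ) : B) * (nu : B) = nu * li ^ 2 := by
    have : lam ^ (-2 : ℤ) = lam⁻¹ ^ 2 := by
      rw [← zpow_natCast, inv_zpow', Nat.cast_ofNat]
    rw [this, Units.val_pow_eq_pow_val]
    ring
  have p3 : (((lam⁻¹ : Bˣ) ^ (-2 : ℤ) : Bˣ) : B) * ((nu : B) * ((lam⁻¹ ^ 3 : Bˣ) : B)) =
      nu * li := by
    have : (lam⁻¹ : Bˣ) ^ (-2 : ℤ) = lam ^ 2 := by
      rw [← zpow_natCast, inv_zpow', Nat.cast_ofNat, neg_neg]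
    rw [this, Units.val_pow_eq_pow_val, Units.val_pow_eq_pow_val]
    linear_combination (nu * li * (lam * li + 1)) * l1
  have p4 : (((lam⁻¹ : Bˣ) ^ (-1 : ℤ) : Bˣ) : B) * ((nu : B) * ((lam⁻¹ ^ 3 : Bˣ) : B)) =
      nu * li ^ 2 := by
    have : (lam⁻¹ : Bˣ) ^ (-1 : ℤ) = lam := by
      rw [zpow_neg_one, inv_inv]
    rw [this, Units.val_pow_eq_pow_val]
    linear_combination (nu * li ^ 2) * l1
  have key : ∀ al be : B, mab f' al be true ((hhSC h).ge true (v true)) +
      mab f' al be false ((hhSC h).ge false (v false)) =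
      mab f (nu * li * al) (nu * li ^ 2 * be) true (v true) +
        mab f (nu * li * al) (nu * li ^ 2 * be) false (v false) := by
    intro al be
    change (al * cf (f := f') (-1) (sc12 h (v true)) -
        be * cf (f := f') (-2) (sc12 h (v true))) +
      (- al * cf (f := rev f') (-2) (sc12 h.rev (v false)) +
        be * cf (f := rev f') (-1) (sc12 h.rev (v false))) =
      ((nu * li * al) * cf (f := f) (-1) (v true) - (nu * li ^ 2 * be) * cf (f := f) (-2) (v true)) +
        (- (nu * li * al) * cf (f := rev f) (-2) (v false) +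
          (nu * li ^ 2 * be) * cf (f := rev f) (-1) (v false))
    rw [(cf_sc12 h _ _).1, (cf_sc12 h _ _).1, (cf_sc12 h.rev _ _).1, (cf_sc12 h.rev _ _).1, p1, p2,
      p3, p4]
    ring
  rw [key, RingHom.id_apply]
  cases k
  · have e1 : nu * li * (csc lam nu true false * cal w c' true +
        csc lam nu false false * cal w c' false) = cal w c false := by
      simp only [csc, cal, if_true, Bool.false_eq_true, if_false, Units.val_mul,
        Units.val_pow_eq_pow_val]
      linear_combination w * c1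
    have e2 : nu * li ^ 2 * (csc lam nu true false * cbe w c' true +
        csc lam nu false false * cbe w c' false) = cbe w c false := by
      simp only [csc, cbe, if_true, Bool.false_eq_true, if_false, Units.val_mul,
        Units.val_pow_eq_pow_val]
      linear_combination c2
    rw [e1, e2]
  · have e1 : nu * li * (csc lam nu true true * cal w c' true +
        csc lam nu false true * cal w c' false) = cal w c true := by
      simp only [csc, cal, if_true, if_false, Bool.true_eq_false, Units.val_mul,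
        Units.val_pow_eq_pow_val]
      linear_combination c0
    have e2 : nu * li ^ 2 * (csc lam nu true true * cbe w c' true +
        csc lam nu false true * cbe w c' false) = cbe w c true := by
      simp only [csc, cbe, if_true, if_false, Bool.true_eq_false, Units.val_mul,
        Units.val_pow_eq_pow_val]
      linear_combination w * c1
    rw [e1, e2]

end sc

/-! ### Infinitesimal translation -/

section tr

variable {B : Type} [CommRing B] {e : B} {f f' : Fin 7 → B} (he : e * e = 0) (h : IsTr e f f')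

theorem neg_sq (he : e * e = 0) : (-e) * (-e) = 0 := by rw [neg_mul_neg, he]

theorem tr1_inv {e' : B} (he : e * e = 0) (he' : e' * e' = 0) (hs : e' + e = 0) {f f' : Fin 7 → B}
    (h : IsTr e f f') (h' : IsTr e' f' f) (v : A1 B f) : tr1 he' h' (tr1 he h v) = v := by
  have : (tr1 he' h').comp (tr1 he h) = RingHom.id _ := by
    refine hom1_ext ?_ ?_ ?_
    · intro c
      simp
    · rw [RingHom.comp_apply, tr1_x, map_add, tr1_b, tr1_x, add_assoc, ← map_add, hs, map_zero,
        add_zero, RingHom.id_apply]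
    · rw [RingHom.comp_apply, tr1_y, tr1_y, RingHom.id_apply]
  exact congrArg (fun g => g v) this

theorem trq_inv {e' : B} (he : e * e = 0) (he' : e' * e' = 0) (hs : e' + e = 0) {f f' : Fin 7 → B}
    (h : IsTr e f f') (h' : IsTr e' f' f) (v : A2 B f) : trq he' h' (trq he h v) = v := by
  have hs1 : e' = -e := by linear_combination hs
  subst hs1
  have hc : algebraMap B (A2 B f) e * algebraMap B (A2 B f) e = 0 := alg_sq _ he
  have : (trq he' h').comp (trq he h) = RingHom.id _ := by
    refine hom1_ext ?_ ?_ ?_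
    · intro c
      simp
    · rw [RingHom.comp_apply, trq_x, map_sub, map_mul, map_pow, trq_b, trq_x, RingHom.id_apply,
        map_neg]
      linear_combination (-2 * x1 B (rev f) ^ 3 - algebraMap B _ e * x1 B (rev f) ^ 4) * hc
    · rw [RingHom.comp_apply, trq_y, map_mul, map_sub, map_mul, map_mul, map_one, map_ofNat, trq_b,
        trq_x, trq_y, RingHom.id_apply, map_neg]
      linear_combination (-12 * x1 B (rev f) ^ 2 * y1 B (rev f) -
        9 * algebraMap B _ e * x1 B (rev f) ^ 3 * y1 B (rev f)) * hc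
  exact congrArg (fun g => g v) this

theorem isIso_tr : IsIso (hhTR he h).rhom.mor :=
  isIso_mor (hhTR he h).rhom (hhTR (neg_sq he) (h.neg he)).rhom
    (tr1_inv he (neg_sq he) (neg_add_cancel e) h (h.neg he))
    (trq_inv he (neg_sq he) (neg_add_cancel e) h (h.neg he))
    (tr1_inv (neg_sq he) he (add_neg_cancel e) (h.neg he) h)
    (trq_inv (neg_sq he) he (add_neg_cancel e) (h.neg he) h)

/-- Infinitesimal translation. -/
noncomputable def arrTR : Arrow (RingHom.id B) (Hyp f') (Hyp f) :=
  isoArr (x := Hyp f') (y := Hyp f) (hhTR he h).rhom.mor (isIso_tr he h) (by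
    have := (hhTR he h).rhom.mor_pr
    rw [spMap_id, Category.comp_id] at this
    exact this)

theorem arrTR_in1 : HX.in1 B f' ≫ (arrTR he h).f = spMap (tr1 he h) ≫ HX.in1 B f :=
  (hhTR he h).rhom.in1_mor

theorem utr_zpow {S : Type} [CommRing S] (x : Sˣ) (e : S) (he : e * e = 0) (m : ℤ) :
    ((utr x e he ^ m : Sˣ) : S) = (x ^ m : Sˣ) + (m : S) * e * ((x ^ (m - 1) : Sˣ) : S) := by
  have hi : ((utr x e he)⁻¹ : Sˣ).val = ((x⁻¹ : Sˣ) : S) - e * ((x⁻¹ : Sˣ) : S) ^ 2 := rfl
  have hv : (utr x e he : S) = x + e := rfl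
  have hx : (x : S) * (x⁻¹ : Sˣ) = 1 := Units.mul_inv x
  induction m using Int.induction_on with
  | zero => simp
  | succ m ih =>
    rw [zpow_add_one, Units.val_mul, ih, hv, zpow_add_one, Units.val_mul, add_sub_cancel_right]
    have h1 : ((x ^ ((m : ℤ) - 1) : Sˣ) : S) * x = ((x ^ (m : ℤ) : Sˣ) : S) := by
      rw [← Units.val_mul, ← zpow_add_one, sub_add_cancel]
    push_cast
    linear_combination ((m : S) * e) * h1 + ((m : S) * ((x ^ ((m : ℤ) - 1) : Sˣ) : S)) * he
  | pred m ih =>
    rw [zpow_sub_one, Units.val_mul, ih, hi, zpow_sub_one, Units.val_mul]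
    have h1 : ((x ^ (-(m : ℤ) - 1) : Sˣ) : S) = ((x ^ (-(m : ℤ)) : Sˣ) : S) * (x⁻¹ : Sˣ) := by
      rw [← Units.val_mul, ← zpow_sub_one]
    have h2 : ((x ^ (-(m : ℤ) - 1 - 1) : Sˣ) : S) =
        ((x ^ (-(m : ℤ)) : Sˣ) : S) * (x⁻¹ : Sˣ) * (x⁻¹ : Sˣ) := by
      rw [zpow_sub_one, Units.val_mul, h1]
    rw [h2]
    push_cast
    linear_combination ((m : S) * ((x ^ (-(m : ℤ)) : Sˣ) : S) * ((x⁻¹ : Sˣ) : S) ^ 3) * he

theorem utq_zpow {S : Type} [CommRing S] (x : Sˣ) (e : S) (he : e * e = 0) (m : ℤ) :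
    ((utq x e he ^ m : Sˣ) : S) = (x ^ m : Sˣ) - (m : S) * e * ((x ^ (m + 1) : Sˣ) : S) := by
  have hi : ((utq x e he)⁻¹ : Sˣ).val = ((x⁻¹ : Sˣ) : S) + e := rfl
  have hv : (utq x e he : S) = x - e * (x : S) ^ 2 := rfl
  have hx : (x : S) * (x⁻¹ : Sˣ) = 1 := Units.mul_inv x
  induction m using Int.induction_on with
  | zero => simp
  | succ m ih =>
    rw [zpow_add_one, Units.val_mul, ih, hv, zpow_add_one (x) ((m : ℤ) + 1), Units.val_mul,
      zpow_add_one, Units.val_mul]
    push_cast
    linear_combination ((m : S) * ((x ^ (m : ℤ) : Sˣ) : S) * (x : S) ^ 3) * he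
  | pred m ih =>
    rw [zpow_sub_one, Units.val_mul, ih, hi, sub_add_cancel, zpow_sub_one, Units.val_mul]
    have h1 : ((x ^ (-(m : ℤ) + 1) : Sˣ) : S) = ((x ^ (-(m : ℤ)) : Sˣ) : S) * x := by
      rw [← Units.val_mul, ← zpow_add_one]
    rw [h1]
    push_cast
    linear_combination ((m : S) * ((x ^ (-(m : ℤ)) : Sˣ) : S) * e) * hx +
      ((m : S) * ((x ^ (-(m : ℤ)) : Sˣ) : S) * x) * he

theorem cf_tr12 (v : A12 B f) (j : ℤ) : cf j (tr12 he h v) =
    cf j v + (j + 1) * e * cf (j + 1) v := by
  have hc : algebraMap B (A12 B f') e * algebraMap B (A12 B f') e = 0 := alg_sq _ he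
  have hp : ∀ m : ℤ, tr12 he h ((xu B f) ^ m : (A12 B f)ˣ).val =
      ((xu B f') ^ m : (A12 B f')ˣ).val + algebraMap B _ ((m : B) * e) *
        ((xu B f') ^ (m - 1) : (A12 B f')ˣ).val := by
    intro m
    rw [map_zpow_val (tr12 he h) (xu B f) (utr (xu B f') (algebraMap B _ e) hc) (tr12_x he h) m,
      utr_zpow, map_mul, map_intCast]
  refine A12_ind (P := fun v => cf j (tr12 he h v) = cf j v + (j + 1) * e * cf (j + 1) v) v
    ?_ ?_ ?_
  · intro v w h1 h2
    simp only [map_add, h1, h2]
    ring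
  · intro c m
    have e1 : tr12 he h (algebraMap B (A12 B f) c * ((xu B f) ^ m : (A12 B f)ˣ).val) =
        algebraMap B (A12 B f') c * ((xu B f') ^ m : (A12 B f')ˣ).val +
        algebraMap B (A12 B f') (c * ((m : B) * e)) * ((xu B f') ^ (m - 1) : (A12 B f')ˣ).val := by
      rw [map_mul, tr12_b, hp, map_mul (algebraMap B (A12 B f')) c]
      ring
    rw [e1, map_add, cf_mono, cf_mono, cf_mono, cf_mono]
    ring
  · intro c m
    have e1 : tr12 he h (algebraMap B (A12 B f) c * ((xu B f) ^ m : (A12 B f)ˣ).val * yv B f) =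
        algebraMap B (A12 B f') c * ((xu B f') ^ m : (A12 B f')ˣ).val * yv B f' +
        algebraMap B (A12 B f') (c * ((m : B) * e)) * ((xu B f') ^ (m - 1) : (A12 B f')ˣ).val *
          yv B f' := by
      rw [map_mul, map_mul, tr12_b, hp, tr12_y, map_mul (algebraMap B (A12 B f')) c]
      ring
    rw [e1, map_add, cf_mono_y, cf_mono_y, cf_mono_y, cf_mono_y]
    by_cases hm : m = j + 1
    · rw [if_pos (show m - 1 = j by omega), if_pos hm, hm]
      push_cast
      ring
    · rw [if_neg (show ¬ (m - 1 = j) by omega), if_neg hm]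
      ring

theorem cf_trE (v : A12 B (rev f)) (j : ℤ) : cf j (trE he h v) =
    cf j v - (j + 2) * e * cf (j - 1) v := by
  have hc : algebraMap B (A12 B (rev f')) e * algebraMap B (A12 B (rev f')) e = 0 := alg_sq _ he
  have hp : ∀ m : ℤ, trE he h ((xu B (rev f)) ^ m : (A12 B (rev f))ˣ).val =
      ((xu B (rev f')) ^ m : (A12 B (rev f'))ˣ).val - algebraMap B _ ((m : B) * e) *
        ((xu B (rev f')) ^ (m + 1) : (A12 B (rev f'))ˣ).val := by
    intro m
    rw [map_zpow_val (trE he h) (xu B (rev f)) (utq (xu B (rev f')) (algebraMap B _ e) hc)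
      (trE_x he h) m, utq_zpow, map_mul, map_intCast]
  refine A12_ind (P := fun v => cf j (trE he h v) = cf j v - (j + 2) * e * cf (j - 1) v) v
    ?_ ?_ ?_
  · intro v w h1 h2
    simp only [map_add, h1, h2]
    ring
  · intro c m
    have e1 : trE he h (algebraMap B (A12 B (rev f)) c *
          ((xu B (rev f)) ^ m : (A12 B (rev f))ˣ).val) =
        algebraMap B (A12 B (rev f')) c * ((xu B (rev f')) ^ m : (A12 B (rev f'))ˣ).val -
        algebraMap B (A12 B (rev f')) (c * ((m : B) * e)) *
          ((xu B (rev f')) ^ (m + 1) : (A12 B (rev f'))ˣ).val := by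
      rw [map_mul, trE_b, hp, map_mul (algebraMap B (A12 B (rev f'))) c]
      ring
    rw [e1, map_sub, cf_mono, cf_mono, cf_mono, cf_mono]
    ring
  · intro c m
    have hq : ((xu B (rev f')) ^ (m + 1) : (A12 B (rev f'))ˣ).val =
        ((xu B (rev f')) ^ m : (A12 B (rev f'))ˣ).val * (xu B (rev f') : A12 B (rev f')) := by
      rw [zpow_add_one, Units.val_mul]
    have e1 : trE he h (algebraMap B (A12 B (rev f)) c *
          ((xu B (rev f)) ^ m : (A12 B (rev f))ˣ).val * yv B (rev f)) =
        algebraMap B (A12 B (rev f')) c * ((xu B (rev f')) ^ m : (A12 B (rev f'))ˣ).val *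
          yv B (rev f') -
        algebraMap B (A12 B (rev f')) (c * (((m : B) + 3) * e)) *
          ((xu B (rev f')) ^ (m + 1) : (A12 B (rev f'))ˣ).val * yv B (rev f') := by
      rw [map_mul, map_mul, trE_b, hp, trE_y, map_mul (algebraMap B (A12 B (rev f'))) c,
        map_mul (algebraMap B (A12 B (rev f'))) _ e, map_mul (algebraMap B (A12 B (rev f'))) _ e,
        map_add, map_ofNat, hq]
      linear_combination (3 * algebraMap B (A12 B (rev f')) c *
        algebraMap B (A12 B (rev f')) (m : B) *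
        ((xu B (rev f')) ^ m : (A12 B (rev f'))ˣ).val *
        (xu B (rev f') : A12 B (rev f')) ^ 2 * yv B (rev f')) * hc
    rw [e1, map_sub, cf_mono_y, cf_mono_y, cf_mono_y, cf_mono_y]
    by_cases hm : m + 1 = j
    · rw [if_pos hm, if_pos (show m = j - 1 by omega), ← hm]
      push_cast
      ring
    · rw [if_neg hm, if_neg (show ¬ (m = j - 1) by omega)]
      ring

theorem arrTR_compat (o : HOk f) (o' : HOk f') (w : B) (hw : 2 * w = 1) (c c' : Fin 3 → B)
    (hc0 : c 0 = c' 0 + e * c' 1) (hc1 : c 1 = c' 1 + 2 * e * c' 2) (hc2 : c 2 = c' 2) (g : ℕ) :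
    Compat (arrTR he h) (hcov o' w c' g) (hcov o w c g) := by
  refine (hhTR he h).compat (omTR he h o o') (arrTR he h) rfl w c w c' ?_ g
  intro k v
  have key : ∀ al be : B, mab f' al be true ((hhTR he h).ge true (v true)) +
      mab f' al be false ((hhTR he h).ge false (v false)) =
      mab f (al + e * be) be true (v true) + mab f (al + e * be) be false (v false) := by
    intro al be
    change (al * cf (f := f') (-1) (tr12 he h (v true)) -
        be * cf (f := f') (-2) (tr12 he h (v true))) +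
      (- al * cf (f := rev f') (-2) (trE he h (v false)) +
        be * cf (f := rev f') (-1) (trE he h (v false))) =
      ((al + e * be) * cf (f := f) (-1) (v true) - be * cf (f := f) (-2) (v true)) +
        (- (al + e * be) * cf (f := rev f) (-2) (v false) +
          be * cf (f := rev f) (-1) (v false))
    rw [cf_tr12, cf_tr12, cf_trE, cf_trE]
    norm_num
    ring
  rw [key, RingHom.id_apply]
  cases k
  · have e1 : ctr e true false * cal w c' true + ctr e false false * cal w c' false +
        e * (ctr e true false * cbe w c' true + ctr e false false * cbe w c' false) =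
        cal w c false := by
      simp only [ctr, cal, cbe, if_true, Bool.false_eq_true, if_false]
      linear_combination (-w) * hc1 - (e * c' 2) * hw
    have e2 : ctr e true false * cbe w c' true + ctr e false false * cbe w c' false =
        cbe w c false := by
      simp only [ctr, cbe, if_true, Bool.false_eq_true, if_false]
      linear_combination -hc2
    rw [e1, e2]
  · have e1 : ctr e true true * cal w c' true + ctr e false true * cal w c' false +
        e * (ctr e true true * cbe w c' true + ctr e false true * cbe w c' false) =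
        cal w c true := by
      simp only [ctr, cal, cbe, if_true, if_false, Bool.true_eq_false]
      linear_combination -hc0 + (e * c' 1) * hw + c' 2 * he
    have e2 : ctr e true true * cbe w c' true + ctr e false true * cbe w c' false =
        cbe w c true := by
      simp only [ctr, cbe, if_true, if_false, Bool.true_eq_false]
      linear_combination (-w) * hc1 - (e * c' 2) * hw
    rw [e1, e2]

end tr

/-! ### Swap -/

section sw

variable {B : Type} [CommRing B] {f f' : Fin 7 → B} (h : ∀ i, f' i = f (Fin.rev i))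

/-- The swap on the first chart. -/
noncomputable def sw1 : A1 B (rev f) →+* A1 B f' :=
  bc1 (RingHom.id B) (f := rev f) (f' := f') h

/-- The swap on the second chart. -/
noncomputable def sw2 : A1 B f →+* A1 B (rev f') := bc1 (RingHom.id B) (revh h)

/-- The swap on the first edge. -/
noncomputable def swE : A12 B (rev f) →+* A12 B f' :=
  bc12 (RingHom.id B) (f := rev f) (f' := f') h

/-- The swap on the second edge. -/
noncomputable def swF : A12 B f →+* A12 B (rev f') := bc12 (RingHom.id B) (revh h)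

theorem sw_e1 : (g1 B f').comp (sw1 h) = (swE h).comp (g1 B (rev f)) :=
  RingHom.ext fun v => (bc12_g1 (RingHom.id B) (f := rev f) (f' := f') h v).symm

theorem sw_e1' : (g1 B (rev f')).comp (sw2 h) = (swF h).comp (g1 B f) :=
  RingHom.ext fun v => (bc12_g1 (RingHom.id B) (revh h) v).symm

theorem sw_e2 : (g2 B f').comp (sw2 h) = (inv12 h).comp (g1 B f) := by
  refine hom1_ext ?_ ?_ ?_
  · intro c
    change g2 B f' (bc1 (RingHom.id B) (revh h) (algebraMap B _ c)) =
      inv12 h (g1 B f (algebraMap B _ c))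
    rw [bc1_b, g2_b, g1_b, inv12_b, RingHom.id_apply]
  · change g2 B f' (bc1 (RingHom.id B) (revh h) (x1 B f)) = inv12 h (g1 B f (x1 B f))
    rw [bc1_x, g2_u, ← xu_val, inv12_x]
  · change g2 B f' (bc1 (RingHom.id B) (revh h) (y1 B f)) = inv12 h (g1 B f (y1 B f))
    rw [bc1_y, g2_v, g1_y, inv12_y]

theorem sw_e3 : (swE h).comp (inv12 (rev_h' f)) = inv12 h := by
  refine hom12_ext ?_ ?_ ?_
  · intro c
    change bc12 (RingHom.id B) (f := rev f) (f' := f') h (inv12 (rev_h' f) _) = _
    simp
  · change bc12 (RingHom.id B) (f := rev f) (f' := f') h (inv12 (rev_h' f) _) = _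
    rw [inv12_x, bc12_xi, inv12_x]
  · change bc12 (RingHom.id B) (f := rev f) (f' := f') h (inv12 (rev_h' f) _) = _
    rw [inv12_y, map_mul, bc12_y, Units.val_pow_eq_pow_val, map_pow, bc12_xi, inv12_y,
      Units.val_pow_eq_pow_val]

theorem sw_e3' {Z : Scheme.{0}} (g : Sp (A12 B f) ⟶ Z) :
    spMap (swE h) ≫ spMap (inv12 (rev_h' f)) ≫ g = spMap (inv12 h) ≫ g := by
  rw [spMap_comp_assoc', sw_e3]

/-- The swap as a morphism. -/
noncomputable def swMor : HX B f' ⟶ HX B f :=
  pushout.desc (spMap (sw1 h) ≫ HX.in2 B f) (spMap (sw2 h) ≫ HX.in1 B f) (by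
    rw [spMap_comp_assoc', spMap_comp_assoc', sw_e1, sw_e2, ← spMap_comp_assoc', HX.cond', sw_e3',
      spMap_comp_assoc'])

@[reassoc]
theorem in1_sw : HX.in1 B f' ≫ swMor h = spMap (sw1 h) ≫ HX.in2 B f := pushout.inl_desc _ _ _

@[reassoc]
theorem in2_sw : HX.in2 B f' ≫ swMor h = spMap (sw2 h) ≫ HX.in1 B f := pushout.inr_desc _ _ _

theorem bc1_id_inv {p q : Fin 7 → B} (h1 : ∀ i, q i = RingHom.id B (p i))
    (h2 : ∀ i, p i = RingHom.id B (q i)) :
    (bc1 (RingHom.id B) h2).comp (bc1 (RingHom.id B) h1) = RingHom.id _ := by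
  refine hom1_ext ?_ ?_ ?_
  · intro c
    simp
  · simp
  · simp

theorem sw_sw (h' : ∀ i, f i = f' (Fin.rev i)) : swMor h' ≫ swMor h = 𝟙 _ := by
  refine HX.ext' ?_ ?_
  · have e : (sw1 h').comp (sw2 h) = RingHom.id _ := bc1_id_inv (revh h) h'
    rw [← Category.assoc, in1_sw, Category.assoc, in2_sw, spMap_comp_assoc', e, spMap_id,
      Category.id_comp, Category.comp_id]
  · have e : (sw2 h').comp (sw1 h) = RingHom.id _ :=
      bc1_id_inv (p := rev f) (q := f') h (revh h')
    rw [← Category.assoc, in2_sw, Category.assoc, in1_sw, spMap_comp_assoc', e, spMap_id,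
      Category.id_comp, Category.comp_id]

omit [CommRing B] in
include h in
theorem sw_hsymm (i : Fin 7) : f i = f' (Fin.rev i) := by rw [h, Fin.rev_rev]

theorem isIso_sw : IsIso (swMor h) :=
  ⟨swMor (sw_hsymm h), sw_sw (sw_hsymm h) h, sw_sw h (sw_hsymm h)⟩

/-- The swap. -/
noncomputable def arrSW : Arrow (RingHom.id B) (Hyp f') (Hyp f) :=
  isoArr (x := Hyp f') (y := Hyp f) (swMor h) (isIso_sw h) (by
    change swMor h ≫ HX.pr B f = HX.pr B f'
    have e1 : (sw1 h).comp (algebraMap B (A1 B (rev f))) = algebraMap B (A1 B f') :=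
      RingHom.ext fun c => bc1_b (RingHom.id B) (f := rev f) (f' := f') h c
    have e2 : (sw2 h).comp (algebraMap B (A1 B f)) = algebraMap B (A1 B (rev f')) :=
      RingHom.ext fun c => bc1_b (RingHom.id B) (revh h) c
    refine HX.ext' ?_ ?_
    · rw [← Category.assoc, in1_sw, Category.assoc, HX.in2_pr, HX.in1_pr, spMap_comp', e1]
    · rw [← Category.assoc, in2_sw, Category.assoc, HX.in1_pr, HX.in2_pr, spMap_comp', e2])

theorem arrSW_in1 : HX.in1 B f' ≫ (arrSW h).f = spMap (sw1 h) ≫ HX.in2 B f := in1_sw h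

theorem arrSW_in2 : HX.in2 B f' ≫ (arrSW h).f = spMap (sw2 h) ≫ HX.in1 B f := in2_sw h

theorem arrSW_compat (o : HOk f) (o' : HOk f') (w : B) (c c' : Fin 3 → B)
    (hc : ∀ j, c' j = c (Fin.rev j)) (g : ℕ) :
    Compat (arrSW h) (hcov o' w c' g) (hcov o w c g) := by
  refine (rmSW h o o').compat (arrSW h) (hCh o') (hCh o) ?_ ?_ (hRM o' w c') (hRM o w c) ?_ g
  · intro i
    cases i
    · exact in1_sw h
    · change (spMap (g1 B f') ≫ HX.in1 B f') ≫ swMor h =
        spMap (inv12 h) ≫ spMap (g1 B f) ≫ HX.in1 B f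
      rw [Category.assoc, in1_sw, spMap_comp_assoc', sw_e1, ← spMap_comp_assoc', HX.cond', sw_e3']
    · exact in2_sw h
  · intro e
    cases e
    · change (spMap (g1 B (rev f')) ≫ HX.in2 B f') ≫ swMor h =
        spMap (swF h) ≫ spMap (g1 B f) ≫ HX.in1 B f
      rw [Category.assoc, in2_sw, spMap_comp_assoc', sw_e1', ← spMap_comp_assoc']
    · change (spMap (g1 B f') ≫ HX.in1 B f') ≫ swMor h =
        spMap (swE h) ≫ spMap (g1 B (rev f)) ≫ HX.in2 B f
      rw [Category.assoc, in1_sw, spMap_comp_assoc', sw_e1, ← spMap_comp_assoc']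
  · intro v
    refine sum_crit (RingHom.id B) w c w c' (cc := fun k' k : Bool => if k = !k' then 1 else 0)
      (fun e => !e) (swgE h) ?_ v
    intro k u
    have key : ∀ al be : B, mab f' al be true (swgE h true (u (!true))) +
        mab f' al be false (swgE h false (u (!false))) =
        mab f be al true (u true) + mab f be al false (u false) := by
      intro al be
      change (al * cf (f := f') (-1) (bc12 (RingHom.id B) (f := rev f) (f' := f') h (u false)) -
          be * cf (f := f') (-2) (bc12 (RingHom.id B) (f := rev f) (f' := f') h (u false))) +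
        (- al * cf (f := rev f') (-2) (bc12 (RingHom.id B) (revh h) (u true)) +
          be * cf (f := rev f') (-1) (bc12 (RingHom.id B) (revh h) (u true))) =
        (be * cf (f := f) (-1) (u true) - al * cf (f := f) (-2) (u true)) +
          (- be * cf (f := rev f) (-2) (u false) + al * cf (f := rev f) (-1) (u false))
      rw [(cf_bc12 (RingHom.id B) (f := rev f) (f' := f') h _ _).1,
        (cf_bc12 (RingHom.id B) (f := rev f) (f' := f') h _ _).1,
        (cf_bc12 (RingHom.id B) (revh h) _ _).1, (cf_bc12 (RingHom.id B) (revh h) _ _).1]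
      simp only [RingHom.id_apply]
      ring
    rw [key, RingHom.id_apply]
    have c0 : c' 0 = c 2 := hc 0
    have c1 : c' 1 = c 1 := hc 1
    have c2 : c' 2 = c 0 := hc 2
    cases k
    · simp [cal, cbe, c0, c1]
    · simp [cal, cbe, c1, c2]

end sw

end Pool.Agent.MG.H2
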