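import Pool.Agent.MG.H2.GeoN
import Pool.Agent.MG.H2.HArr
import Pool.Agent.MG.H2.CFF
import Pool.Agent.MG.H2.EndA

/-!
# The curves `y² = f(x)` with the covectors `q(x) (dx)²/f(x)`: arrows
-/

open CategoryTheory CategoryTheory.Limits AlgebraicGeometry Polynomial

namespace Pool.Agent.MG.H2

/-! ## The arrows of marked curves -/

theorem t_ASC : Stmt_ASC := by
  intro B _ α β f f' hα hβ h
  obtain ⟨lam, rfl⟩ := hα
  obtain ⟨nu, rfl⟩ := hβ
  have h' : IsSc (lam : B) (nu : B) f f' := h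
  exact ⟨arrSC h', sc1 h', sc1_b h', sc1_x h', sc1_y h', arrSC_in1 h'⟩

theorem t_ATR : Stmt_ATR := by
  intro B _ e f f' he h
  exact ⟨arrTR he h, tr1 he h, fun c => by simp, by simp, by simp, arrTR_in1 he h⟩

theorem t_ASW : Stmt_ASW := by
  intro B _ f
  refine ⟨arrSW (f := f) (f' := rev f) fun i => rfl, ?_⟩
  rw [arrSW_in1]
  have e : sw1 (f := f) (f' := rev f) (fun i => rfl) = RingHom.id (A1 B (rev f)) := by
    refine hom1_ext (fun c => ?_) ?_ ?_
    · exact bc1_b _ _ _
    · exact bc1_x _ _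
    · exact bc1_y _ _
  rw [e, spMap_id, Category.id_comp]

/-! ## The fields of `Mdl` -/

namespace GeoA

section hok

variable {B : Type} [CommRing B]

theorem dpol_pp (f : Fin 7 → B) : dpol (fun i => C (f i)) (X : B[X]) = derivative (pp B f) := by
  simp only [dpol, pp, pol, derivative_add, derivative_mul, derivative_C, derivative_X_pow,
    derivative_X, zero_mul, zero_add, mul_one]
  simp only [Nat.cast_ofNat, map_ofNat, Nat.add_one_sub_one, pow_one]
  ring

/-- The Bezout identity. -/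
noncomputable def bz {f : Fin 7 → B} (h : IsCoprime (pp B f) (derivative (pp B f))) : Bz f where
  a := h.choose
  b := h.choose_spec.choose
  h := by
    have := h.choose_spec.choose_spec
    rw [dpol_pp]
    exact this

theorem fsm (h2 : IsUnit (2 : B)) {f : Fin 7 → B}
    (h : IsCoprime (pp B f) (derivative (pp B f))) :
    (algebraMap B (A12 B f)).FormallySmooth := by
  obtain ⟨a, b, hab⟩ := h
  exact RingHom.formallySmooth_algebraMap.2 ((t_CFF B f).2.2 a b hab h2).2

/-- Smoothness. -/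
noncomputable def hok' {f : Fin 7 → B} (h : HSm B f) : HOk f where
  z := bz h.s1
  z' := bz h.s2
  sm := fsm h.two h.s1
  sm' := fsm h.two h.s2

end hok

section fields

variable {B : Type} [CommRing B] [Algebra ℂ B]

/-- Smoothness. -/
noncomputable def hok {f : B[X]} (hf : Two2.Good f) : HOk (cf7 f) := hok' (GeoN.hsm hf)

variable (B) in
/-- `1/2` -/
noncomputable def half : B := algebraMap ℂ B (1 / 2)

theorem two_half : 2 * half B = 1 := by
  rw [half, ← map_ofNat (algebraMap ℂ B), ← map_mul]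
  norm_num

/-- The coefficients of the covector of `q`. -/
def cq (q : B[X]) : Fin 3 → B := ![q.coeff 0, -q.coeff 1, q.coeff 2]

/-- The covector of `q`. -/
noncomputable def cv (f : B[X]) (hf : Two2.Good f) (q : B[X]) : Cov 2 (Hyp (cf7 f)) :=
  hcov (hok hf) (half B) (cq q) 2

theorem m_bc {B' : Type} [CommRing B'] [Algebra ℂ B'] (φ : B →ₐ[ℂ] B')
    (f q : B[X]) (hf : Two2.Good f) (hf' : Two2.Good (f.map (φ : B →+* B'))) :
    ∃ a : Arrow (φ : B →+* B') (Hyp (cf7 (f.map (φ : B →+* B')))) (Hyp (cf7 f)),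
      Compat a (cv (f.map (φ : B →+* B')) hf' (q.map (φ : B →+* B'))) (cv f hf q) := by
  refine ⟨arrBC (φ : B →+* B') (cf7_map _ f), ?_⟩
  refine arrBC_compat (φ : B →+* B') (cf7_map _ f) _ _ _ _ _ _ ?_ ?_ 2
  · exact (φ.commutes _).symm
  · intro j
    fin_cases j
    · exact coeff_map _ _
    · change -(q.map (φ : B →+* B')).coeff 1 = (φ : B →+* B') (-q.coeff 1)
      rw [coeff_map, map_neg]
    · exact coeff_map _ _

theorem m_sc (a b : B) (f q f' q' : B[X]) (hf : Two2.Good f)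
    (hf' : Two2.Good f') (ha : IsUnit a) (hb : IsUnit b)
    (hff : C (b ^ 2) * f' = f.comp (C a * X))
    (hqq : C (b ^ 2) * q' = C (a ^ 2) * q.comp (C a * X)) :
    ∃ r : Arrow (RingHom.id B) (Hyp (cf7 f')) (Hyp (cf7 f)),
      Compat r (cv f' hf' q') (cv f hf q) := by
  obtain ⟨lam, rfl⟩ := ha
  obtain ⟨nu, rfl⟩ := hb
  have h' : IsSc (lam : B) (nu : B) (cf7 f) (cf7 f') := by
    intro i
    have := congrArg (fun p => coeff p (i : ℕ)) hff
    simp only [coeff_C_mul, comp_C_mul_X_coeff] at this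
    rw [cf7, cf7, this, mul_comm]
  have hq : ∀ j : ℕ, (nu : B) ^ 2 * q'.coeff j = (lam : B) ^ (2 + j) * q.coeff j := by
    intro j
    have := congrArg (fun p => coeff p j) hqq
    simp only [coeff_C_mul, comp_C_mul_X_coeff] at this
    rw [this]
    ring
  refine ⟨arrSC h', arrSC_compat h' _ _ _ _ _ ?_ 2⟩
  intro j
  fin_cases j
  · exact hq 0
  · change (nu : B) ^ 2 * (-q'.coeff 1) = (lam : B) ^ (2 + 1) * (-q.coeff 1)
    rw [mul_neg, mul_neg, hq 1]
  · exact hq 2

theorem comp_coeffs {q : B[X]} (hq : q.natDegree ≤ 2) {e : B} (he : e * e = 0) :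
    (q.comp (X + C e)).coeff 0 = q.coeff 0 + e * q.coeff 1 ∧
    (q.comp (X + C e)).coeff 1 = q.coeff 1 + 2 * e * q.coeff 2 ∧
    (q.comp (X + C e)).coeff 2 = q.coeff 2 := by
  have h2 : e ^ 2 = 0 := by rw [sq, he]
  have h := Polynomial.eval_add_of_sq_eq_zero (q.map C) X (C e) (by rw [← C_pow, h2, C_0])
  rw [Polynomial.eval_map, Polynomial.eval_map, derivative_map, Polynomial.eval_map, eval₂_C_X,
    eval₂_C_X] at h
  have h' : q.comp (X + C e) = q + derivative q * C e := h
  have h3 : q.coeff 3 = 0 := coeff_eq_zero_of_natDegree_lt (by omega)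
  refine ⟨?_, ?_, ?_⟩
  · rw [h', coeff_add, coeff_mul_C, coeff_derivative]
    push_cast
    ring
  · rw [h', coeff_add, coeff_mul_C, coeff_derivative]
    push_cast
    ring
  · rw [h', coeff_add, coeff_mul_C, coeff_derivative, h3]
    ring

theorem m_tr (e : B) (f q : B[X]) (hf : Two2.Good f)
    (hf' : Two2.Good (f.comp (X + C e))) (he : e * e = 0) (hq : q.natDegree ≤ 2) :
    ∃ r : Arrow (RingHom.id B) (Hyp (cf7 (f.comp (X + C e)))) (Hyp (cf7 f)),
      Compat r (cv _ hf' (q.comp (X + C e))) (cv f hf q) := by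
  obtain ⟨h0, h1, h2⟩ := comp_coeffs hq he
  have h := GeoN.isTr_comp e he hf.deg
  refine ⟨arrTR he h, arrTR_compat he h _ _ _ two_half _ _ ?_ ?_ ?_ 2⟩
  · change q.coeff 0 = (q.comp (X + C e)).coeff 0 + e * (-(q.comp (X + C e)).coeff 1)
    rw [h0, h1]
    linear_combination (2 * q.coeff 2) * he
  · change -q.coeff 1 = -(q.comp (X + C e)).coeff 1 + 2 * e * (q.comp (X + C e)).coeff 2
    rw [h1, h2]
    ring
  · exact h2.symm

theorem m_inv (f q : B[X]) (hf : Two2.Good f) (hf' : Two2.Good (f.reflect 6)) :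
    ∃ r : Arrow (RingHom.id B) (Hyp (cf7 (f.reflect 6))) (Hyp (cf7 f)),
      Compat r (cv _ hf' (q.reflect 2)) (cv f hf q) := by
  have h : ∀ i, cf7 (f.reflect 6) i = cf7 f (Fin.rev i) := fun i => congrFun cf7_reflect i
  refine ⟨arrSW h, arrSW_compat h _ _ _ _ _ ?_ 2⟩
  have e0 : (q.reflect 2).coeff 0 = q.coeff 2 := by
    rw [coeff_reflect, revAt_le (by norm_num)]
  have e1 : (q.reflect 2).coeff 1 = q.coeff 1 := by
    rw [coeff_reflect, revAt_le (by norm_num)]
  have e2 : (q.reflect 2).coeff 2 = q.coeff 0 := by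
    rw [coeff_reflect, revAt_le (by norm_num)]
  intro j
  fin_cases j
  · exact e0
  · exact congrArg Neg.neg e1
  · exact e2

theorem m_link {K : Type} [Field K] (r : Fin 6 → K) :
    ∃ a : Arrow (RingHom.id K) (Hyp (rts r)) (Hyp (cf7 (∏ i, (X - C (r i))))), IsIso a.f :=
  ⟨isoArr (x := Hyp (rts r)) (y := Hyp (cf7 (∏ i, (X - C (r i))))) (𝟙 (Hyp (rts r)).X)
    (IsIso.id _) (Category.id_comp _), IsIso.id (Hyp (rts r)).X⟩

end fields

end GeoA

end Pool.Agent.MG.H2
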