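import Pool.Agent.MG.W.WSM
import Pool.Agent.MG.H2.GoodLem
import Pool.Agent.MG.H2.StmtsH

/-!
# HSM: smoothness of the curves `y² = f(x)`
-/

open CategoryTheory CategoryTheory.Limits AlgebraicGeometry TensorProduct

namespace Pool.Agent.MG.H2

/-- The coefficients of a polynomial of degree at most six. -/
def cf7 {B : Type} [CommRing B] (f : Polynomial B) : Fin 7 → B := fun i => f.coeff i

section cf

variable {B : Type} [CommRing B]

theorem cf7_map {B' : Type} [CommRing B'] (φ : B →+* B') (f : Polynomial B) (i : Fin 7) :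
    cf7 (f.map φ) i = φ (cf7 f i) := by
  simp [cf7]

theorem sum7 {f : Polynomial B} (hf : f.natDegree ≤ 6) : f =
    Polynomial.C (f.coeff 0) + Polynomial.C (f.coeff 1) * Polynomial.X +
    Polynomial.C (f.coeff 2) * Polynomial.X ^ 2 + Polynomial.C (f.coeff 3) * Polynomial.X ^ 3 +
    Polynomial.C (f.coeff 4) * Polynomial.X ^ 4 + Polynomial.C (f.coeff 5) * Polynomial.X ^ 5 +
    Polynomial.C (f.coeff 6) * Polynomial.X ^ 6 := by
  conv_lhs => rw [Polynomial.as_sum_range_C_mul_X_pow' (n := 7) (p := f) (by omega)]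
  simp only [Finset.sum_range_succ, Finset.sum_range_zero]
  simp

theorem pol_cf7 {R : Type} [CommRing R] (φ : B →+* R) {f : Polynomial B} (hf : f.natDegree ≤ 6)
    (x : R) : pol (fun i => φ (cf7 f i)) x = f.eval₂ φ x := by
  conv_rhs => rw [sum7 hf]
  simp [pol, cf7]

theorem dpol_cf7 {R : Type} [CommRing R] (φ : B →+* R) {f : Polynomial B} (hf : f.natDegree ≤ 6)
    (x : R) : (Polynomial.derivative f).eval₂ φ x = φ (cf7 f 1) + 2 * φ (cf7 f 2) * x +
      3 * φ (cf7 f 3) * x ^ 2 + 4 * φ (cf7 f 4) * x ^ 3 + 5 * φ (cf7 f 5) * x ^ 4 +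
      6 * φ (cf7 f 6) * x ^ 5 := by
  have e2 : φ 2 = 2 := map_ofNat φ 2
  have e3 : φ 3 = 3 := map_ofNat φ 3
  have e4 : φ 4 = 4 := map_ofNat φ 4
  have e5 : φ 5 = 5 := map_ofNat φ 5
  conv_lhs => rw [sum7 hf]
  simp [cf7, e2, e3, e4, e5]
  ring

theorem cf7_reflect {f : Polynomial B} : cf7 (f.reflect 6) = rev (cf7 f) := by
  funext i
  simp only [cf7, rev, Polynomial.coeff_reflect]
  congr 1
  rw [Polynomial.revAt_le (by omega)]
  simp [Fin.rev]

end cf

namespace HSM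

variable {B : Type} [CommRing B] {f : Polynomial B}

theorem d0 (hf : f.natDegree ≤ 6) :
    Ideal.Quotient.mk (Ideal.span {eq1 B (cf7 f)}) (MvPolynomial.pderiv 0 (eq1 B (cf7 f))) =
    -((Polynomial.derivative f).eval₂ (algebraMap B (A1 B (cf7 f))) (x1 B (cf7 f))) := by
  have h : MvPolynomial.pderiv 0 (eq1 B (cf7 f)) =
      -(MvPolynomial.C (cf7 f 1) + 2 * MvPolynomial.C (cf7 f 2) * MvPolynomial.X 0 +
        3 * MvPolynomial.C (cf7 f 3) * MvPolynomial.X 0 ^ 2 +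
        4 * MvPolynomial.C (cf7 f 4) * MvPolynomial.X 0 ^ 3 +
        5 * MvPolynomial.C (cf7 f 5) * MvPolynomial.X 0 ^ 4 +
        6 * MvPolynomial.C (cf7 f 6) * MvPolynomial.X 0 ^ 5) := by
    simp [eq1, pol, MvPolynomial.pderiv_X]
    ring
  rw [h, dpol_cf7 _ hf]
  simp only [map_neg, map_add, map_mul, map_pow, map_ofNat]
  rfl

theorem d1 : Ideal.Quotient.mk (Ideal.span {eq1 B (cf7 f)})
    (MvPolynomial.pderiv 1 (eq1 B (cf7 f))) = 2 * y1 B (cf7 f) := by
  have h : MvPolynomial.pderiv 1 (eq1 B (cf7 f)) = 2 * MvPolynomial.X 1 := by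
    simp [eq1, pol, MvPolynomial.pderiv_X]
  rw [h, map_mul]
  rfl

theorem span_top (h2 : IsUnit (2 : B)) (hf : f.natDegree ≤ 6)
    (hc : IsCoprime f (Polynomial.derivative f)) :
    Ideal.span {Ideal.Quotient.mk (Ideal.span {eq1 B (cf7 f)})
        (MvPolynomial.pderiv 0 (eq1 B (cf7 f))),
      Ideal.Quotient.mk (Ideal.span {eq1 B (cf7 f)})
        (MvPolynomial.pderiv 1 (eq1 B (cf7 f)))} = ⊤ := by
  rw [Ideal.eq_top_iff_one, Ideal.mem_span_pair, d0 hf, d1]
  obtain ⟨u, v, huv⟩ := hc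
  obtain ⟨w, hw⟩ := h2.exists_right_inv
  have h := rel1 B (cf7 f)
  rw [pol_cf7 (algebraMap B (A1 B (cf7 f))) hf] at h
  have h3 := congrArg (Polynomial.eval₂ (algebraMap B (A1 B (cf7 f))) (x1 B (cf7 f))) huv
  rw [Polynomial.eval₂_add, Polynomial.eval₂_mul, Polynomial.eval₂_mul, Polynomial.eval₂_one,
    ← h] at h3
  have h4 : (2 : A1 B (cf7 f)) * algebraMap B (A1 B (cf7 f)) w = 1 := by
    have := congrArg (algebraMap B (A1 B (cf7 f))) hw
    rw [map_mul, map_one, map_ofNat] at this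
    exact this
  refine ⟨-(v.eval₂ (algebraMap B (A1 B (cf7 f))) (x1 B (cf7 f))),
    algebraMap B (A1 B (cf7 f)) w * u.eval₂ (algebraMap B (A1 B (cf7 f))) (x1 B (cf7 f)) *
      y1 B (cf7 f), ?_⟩
  linear_combination h3 + (u.eval₂ (algebraMap B (A1 B (cf7 f))) (x1 B (cf7 f)) *
      y1 B (cf7 f) ^ 2) * h4

theorem sm1 (h2 : IsUnit (2 : B)) (hf : f.natDegree ≤ 6)
    (hc : IsCoprime f (Polynomial.derivative f)) :
    SmoothOfRelativeDimension 1 (spMap (algebraMap B (A1 B (cf7 f)))) :=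
  W.WSM.loc _ (span_top h2 hf hc)

end HSM

/-- The curves `y² = f(x)` are smooth. -/
theorem sm_hyp {B : Type} [CommRing B] (h2 : IsUnit (2 : B)) {f : Polynomial B}
    (hf : Two2.Good f) : SmoothOfRelativeDimension 1 (HX.pr B (cf7 f)) := by
  refine two_source (@SmoothOfRelativeDimension 1) (HX.in1 B (cf7 f)) (HX.in2 B (cf7 f))
    (glue2_surj _ _) _ ?_ ?_
  · rw [HX.in1_pr]
    exact HSM.sm1 h2 hf.deg hf.cop
  · rw [HX.in2_pr]
    have h := HSM.sm1 h2 hf.reflect.deg hf.cop'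
    rw [cf7_reflect] at h
    exact h

end Pool.Agent.MG.H2
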