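import Pool.Agent.MG.H2.HForm

/-!
# Infinitesimal translations of the curves `y² = f(x)`
-/

open CategoryTheory CategoryTheory.Limits AlgebraicGeometry TensorProduct

namespace Pool.Agent.MG.H2

section alg

variable {R : Type} [CommRing R]

/-- The coefficients of the derivative. -/
def dtr (f : Fin 7 → R) : Fin 7 → R :=
  ![f 1, 2 * f 2, 3 * f 3, 4 * f 4, 5 * f 5, 6 * f 6, 0]

/-- `f'(x) = f(x + e)`, `e² = 0`. -/
def IsTr (e : R) (f f' : Fin 7 → R) : Prop := ∀ i, f' i = f i + e * dtr f i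

theorem pol_tr {e : R} (he : e * e = 0) {f f' : Fin 7 → R} (h : IsTr e f f') (x : R) :
    pol f' x = pol f (x + e) := by
  have h0 : f' 0 = f 0 + e * f 1 := h 0
  have h1 : f' 1 = f 1 + e * (2 * f 2) := h 1
  have h2 : f' 2 = f 2 + e * (3 * f 3) := h 2
  have h3 : f' 3 = f 3 + e * (4 * f 4) := h 3
  have h4 : f' 4 = f 4 + e * (5 * f 5) := h 4
  have h5 : f' 5 = f 5 + e * (6 * f 6) := h 5
  have h6 : f' 6 = f 6 + e * 0 := h 6
  simp only [pol, h0, h1, h2, h3, h4, h5, h6]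
  linear_combination (-(f 2 + f 3 * (3 * x + e) + f 4 * (6 * x ^ 2 + 4 * x * e + e ^ 2) +
    f 5 * (10 * x ^ 3 + 10 * x ^ 2 * e + 5 * x * e ^ 2 + e ^ 3) +
    f 6 * (15 * x ^ 4 + 20 * x ^ 3 * e + 15 * x ^ 2 * e ^ 2 + 6 * x * e ^ 3 + e ^ 4))) * he

theorem dpol_tr {e : R} (he : e * e = 0) {f f' : Fin 7 → R} (h : IsTr e f f') (x : R) :
    dpol f' x = dpol f (x + e) := by
  have h1 : f' 1 = f 1 + e * (2 * f 2) := h 1
  have h2 : f' 2 = f 2 + e * (3 * f 3) := h 2
  have h3 : f' 3 = f 3 + e * (4 * f 4) := h 3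
  have h4 : f' 4 = f 4 + e * (5 * f 5) := h 4
  have h5 : f' 5 = f 5 + e * (6 * f 6) := h 5
  have h6 : f' 6 = f 6 + e * 0 := h 6
  simp only [dpol, h1, h2, h3, h4, h5, h6]
  linear_combination (-(3 * f 3 + 4 * f 4 * (3 * x + e) +
    5 * f 5 * (6 * x ^ 2 + 4 * x * e + e ^ 2) +
    6 * f 6 * (10 * x ^ 3 + 10 * x ^ 2 * e + 5 * x * e ^ 2 + e ^ 3))) * he

theorem pol_trq {e : R} (he : e * e = 0) {f f' : Fin 7 → R} (h : IsTr e f f') (u : R) :
    (1 - 6 * e * u) * pol (rev f') u = pol (rev f) (u - e * u ^ 2) := by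
  have h0 : f' 0 = f 0 + e * f 1 := h 0
  have h1 : f' 1 = f 1 + e * (2 * f 2) := h 1
  have h2 : f' 2 = f 2 + e * (3 * f 3) := h 2
  have h3 : f' 3 = f 3 + e * (4 * f 4) := h 3
  have h4 : f' 4 = f 4 + e * (5 * f 5) := h 4
  have h5 : f' 5 = f 5 + e * (6 * f 6) := h 5
  have h6 : f' 6 = f 6 + e * 0 := h 6
  have e0 : rev f 0 = f 6 := rfl
  have e1 : rev f 1 = f 5 := rfl
  have e2 : rev f 2 = f 4 := rfl
  have e3 : rev f 3 = f 3 := rfl
  have e4 : rev f 4 = f 2 := rfl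
  have e5 : rev f 5 = f 1 := rfl
  have e6 : rev f 6 = f 0 := rfl
  have g0 : rev f' 0 = f' 6 := rfl
  have g1 : rev f' 1 = f' 5 := rfl
  have g2 : rev f' 2 = f' 4 := rfl
  have g3 : rev f' 3 = f' 3 := rfl
  have g4 : rev f' 4 = f' 2 := rfl
  have g5 : rev f' 5 = f' 1 := rfl
  have g6 : rev f' 6 = f' 0 := rfl
  have q2 : (u - e * u ^ 2) ^ 2 = u ^ 2 - 2 * e * u ^ 3 := by linear_combination u ^ 4 * he
  have q3 : (u - e * u ^ 2) ^ 3 = u ^ 3 - 3 * e * u ^ 4 := by
    rw [pow_succ, q2]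
    linear_combination 2 * u ^ 5 * he
  have q4 : (u - e * u ^ 2) ^ 4 = u ^ 4 - 4 * e * u ^ 5 := by
    rw [pow_succ, q3]
    linear_combination 3 * u ^ 6 * he
  have q5 : (u - e * u ^ 2) ^ 5 = u ^ 5 - 5 * e * u ^ 6 := by
    rw [pow_succ, q4]
    linear_combination 4 * u ^ 7 * he
  have q6 : (u - e * u ^ 2) ^ 6 = u ^ 6 - 6 * e * u ^ 7 := by
    rw [pow_succ, q5]
    linear_combination 5 * u ^ 8 * he
  simp only [pol, e0, e1, e2, e3, e4, e5, e6, g0, g1, g2, g3, g4, g5, g6, h0, h1, h2, h3, h4, h5,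
    h6, q2, q3, q4, q5, q6]
  linear_combination (-6 * u * (6 * f 6 * u + 5 * f 5 * u ^ 2 + 4 * f 4 * u ^ 3 +
    3 * f 3 * u ^ 4 + 2 * f 2 * u ^ 5 + f 1 * u ^ 6)) * he

theorem dpol_trq {e : R} (he : e * e = 0) {f f' : Fin 7 → R} (h : IsTr e f f') (u : R) :
    (1 - 6 * e * u) * dpol (rev f') u - 6 * e * pol (rev f') u =
      (1 - 2 * e * u) * dpol (rev f) (u - e * u ^ 2) := by
  have h0 : f' 0 = f 0 + e * f 1 := h 0
  have h1 : f' 1 = f 1 + e * (2 * f 2) := h 1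
  have h2 : f' 2 = f 2 + e * (3 * f 3) := h 2
  have h3 : f' 3 = f 3 + e * (4 * f 4) := h 3
  have h4 : f' 4 = f 4 + e * (5 * f 5) := h 4
  have h5 : f' 5 = f 5 + e * (6 * f 6) := h 5
  have h6 : f' 6 = f 6 + e * 0 := h 6
  have e1 : rev f 1 = f 5 := rfl
  have e2 : rev f 2 = f 4 := rfl
  have e3 : rev f 3 = f 3 := rfl
  have e4 : rev f 4 = f 2 := rfl
  have e5 : rev f 5 = f 1 := rfl
  have e6 : rev f 6 = f 0 := rfl
  have g0 : rev f' 0 = f' 6 := rfl
  have g1 : rev f' 1 = f' 5 := rfl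
  have g2 : rev f' 2 = f' 4 := rfl
  have g3 : rev f' 3 = f' 3 := rfl
  have g4 : rev f' 4 = f' 2 := rfl
  have g5 : rev f' 5 = f' 1 := rfl
  have g6 : rev f' 6 = f' 0 := rfl
  have q2 : (u - e * u ^ 2) ^ 2 = u ^ 2 - 2 * e * u ^ 3 := by linear_combination u ^ 4 * he
  have q3 : (u - e * u ^ 2) ^ 3 = u ^ 3 - 3 * e * u ^ 4 := by
    rw [pow_succ, q2]
    linear_combination 2 * u ^ 5 * he
  have q4 : (u - e * u ^ 2) ^ 4 = u ^ 4 - 4 * e * u ^ 5 := by
    rw [pow_succ, q3]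
    linear_combination 3 * u ^ 6 * he
  have q5 : (u - e * u ^ 2) ^ 5 = u ^ 5 - 5 * e * u ^ 6 := by
    rw [pow_succ, q4]
    linear_combination 4 * u ^ 7 * he
  simp only [pol, dpol, e1, e2, e3, e4, e5, e6, g0, g1, g2, g3, g4, g5, g6, h0, h1, h2, h3,
    h4, h5, h6, q2, q3, q4, q5]
  linear_combination (-6 * u * (6 * f 6 + 10 * f 5 * u + 12 * f 4 * u ^ 2 + 12 * f 3 * u ^ 3 +
    10 * f 2 * u ^ 4 + 6 * f 1 * u ^ 5) - 6 * (6 * f 6 * u + 5 * f 5 * u ^ 2 + 4 * f 4 * u ^ 3 +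
    3 * f 3 * u ^ 4 + 2 * f 2 * u ^ 5 + f 1 * u ^ 6) - 2 * u * (2 * f 4 * u ^ 2 +
    6 * f 3 * u ^ 3 + 12 * f 2 * u ^ 4 + 20 * f 1 * u ^ 5 + 30 * f 0 * u ^ 6)) * he

theorem IsTr.neg {e : R} (he : e * e = 0) {f f' : Fin 7 → R} (h : IsTr e f f') :
    IsTr (-e) f' f := by
  have h0 : f' 0 = f 0 + e * f 1 := h 0
  have h1 : f' 1 = f 1 + e * (2 * f 2) := h 1
  have h2 : f' 2 = f 2 + e * (3 * f 3) := h 2
  have h3 : f' 3 = f 3 + e * (4 * f 4) := h 3
  have h4 : f' 4 = f 4 + e * (5 * f 5) := h 4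
  have h5 : f' 5 = f 5 + e * (6 * f 6) := h 5
  have h6 : f' 6 = f 6 + e * 0 := h 6
  intro i
  fin_cases i
  · change f 0 = f' 0 + -e * f' 1
    linear_combination -h0 + e * h1 + 2 * f 2 * he
  · change f 1 = f' 1 + -e * (2 * f' 2)
    linear_combination -h1 + 2 * e * h2 + 6 * f 3 * he
  · change f 2 = f' 2 + -e * (3 * f' 3)
    linear_combination -h2 + 3 * e * h3 + 12 * f 4 * he
  · change f 3 = f' 3 + -e * (4 * f' 4)
    linear_combination -h3 + 4 * e * h4 + 20 * f 5 * he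
  · change f 4 = f' 4 + -e * (5 * f' 5)
    linear_combination -h4 + 5 * e * h5 + 30 * f 6 * he
  · change f 5 = f' 5 + -e * (6 * f' 6)
    linear_combination -h5 + 6 * e * h6
  · change f 6 = f' 6 + -e * 0
    linear_combination -h6

theorem IsTr.map {R' : Type} [CommRing R'] (φ : R →+* R') {e : R} {f f' : Fin 7 → R}
    (h : IsTr e f f') : IsTr (φ e) (fun i => φ (f i)) (fun i => φ (f' i)) := by
  intro i
  change φ (f' i) = φ (f i) + φ e * dtr (fun i => φ (f i)) i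
  have h1 : φ (dtr f i) = dtr (fun i => φ (f i)) i := by
    fin_cases i <;> simp [dtr, map_ofNat]
  rw [h i, map_add, map_mul, h1]

end alg

section

variable {B : Type} [CommRing B] {e : B} {f f' : Fin 7 → B}

theorem alg_sq {S : Type} [CommRing S] (c : B →+* S) (he : e * e = 0) : c e * c e = 0 := by
  rw [← map_mul, he, map_zero]

/-- `x ↦ x + e`, `y ↦ y`. -/
noncomputable def tr1 (he : e * e = 0) (h : IsTr e f f') : A1 B f →+* A1 B f' :=
  lift1 (algebraMap B _) (x1 B f' + algebraMap B _ e) (y1 B f') (by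
    rw [rel1]
    exact pol_tr (alg_sq _ he) (h.map (algebraMap B (A1 B f'))) _)

/-- `u ↦ u - e u²`, `v ↦ (1 - 3 e u) v`. -/
noncomputable def trq (he : e * e = 0) (h : IsTr e f f') : A2 B f →+* A2 B f' :=
  lift1 (algebraMap B _) (x1 B (rev f') - algebraMap B _ e * x1 B (rev f') ^ 2)
    ((1 - 3 * algebraMap B _ e * x1 B (rev f')) * y1 B (rev f')) (by
    have h1 := pol_trq (alg_sq _ he) (h.map (algebraMap B (A2 B f'))) (x1 B (rev f'))
    have h2 := rel1 B (rev f')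
    have h3 : ∀ g : Fin 7 → B, rev (fun i => algebraMap B (A2 B f') (g i)) =
        fun i => algebraMap B (A2 B f') (rev g i) := fun g => rfl
    rw [h3, h3] at h1
    rw [← h1, ← h2]
    linear_combination (9 * x1 B (rev f') ^ 2 * y1 B (rev f') ^ 2) *
      (alg_sq (algebraMap B (A2 B f')) he))

section

variable (he : e * e = 0) (h : IsTr e f f')

@[simp]
theorem tr1_b (c : B) : tr1 he h (algebraMap B _ c) = algebraMap B _ c := lift1_b _ _ _ _ _

@[simp]
theorem tr1_x : tr1 he h (x1 B f) = x1 B f' + algebraMap B _ e := lift1_x _ _ _ _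

@[simp]
theorem tr1_y : tr1 he h (y1 B f) = y1 B f' := lift1_y _ _ _ _

@[simp]
theorem trq_b (c : B) : trq he h (algebraMap B _ c) = algebraMap B _ c := lift1_b _ _ _ _ _

@[simp]
theorem trq_x : trq he h (x1 B (rev f)) =
    x1 B (rev f') - algebraMap B _ e * x1 B (rev f') ^ 2 := lift1_x _ _ _ _

@[simp]
theorem trq_y : trq he h (y1 B (rev f)) =
    (1 - 3 * algebraMap B _ e * x1 B (rev f')) * y1 B (rev f') := lift1_y _ _ _ _

end

/-- `x + e` as a unit. -/
noncomputable def utr {S : Type} [CommRing S] (x : Sˣ) (e : S) (he : e * e = 0) : Sˣ where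
  val := x + e
  inv := x⁻¹ - e * (x⁻¹ : Sˣ) ^ 2
  val_inv := by
    have h : (x : S) * (x⁻¹ : Sˣ) = 1 := Units.mul_inv x
    linear_combination (1 - e * (x⁻¹ : Sˣ)) * h - ((x⁻¹ : Sˣ) : S) ^ 2 * he
  inv_val := by
    have h : (x : S) * (x⁻¹ : Sˣ) = 1 := Units.mul_inv x
    linear_combination (1 - e * (x⁻¹ : Sˣ)) * h - ((x⁻¹ : Sˣ) : S) ^ 2 * he

/-- `u - e u²` as a unit. -/
noncomputable def utq {S : Type} [CommRing S] (u : Sˣ) (e : S) (he : e * e = 0) : Sˣ where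
  val := u - e * u ^ 2
  inv := (u⁻¹ : Sˣ) + e
  val_inv := by
    have h : (u : S) * (u⁻¹ : Sˣ) = 1 := Units.mul_inv u
    linear_combination (1 - e * u) * h - (u : S) ^ 2 * he
  inv_val := by
    have h : (u : S) * (u⁻¹ : Sˣ) = 1 := Units.mul_inv u
    linear_combination (1 - e * u) * h - (u : S) ^ 2 * he

/-- `x ↦ x + e`, `y ↦ y` on the intersection. -/
noncomputable def tr12 (he : e * e = 0) (h : IsTr e f f') : A12 B f →+* A12 B f' :=
  lift12 (algebraMap B _) (utr (xu B f') (algebraMap B _ e) (alg_sq _ he)) (yv B f') (by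
    rw [rel12]
    exact pol_tr (alg_sq _ he) (h.map (algebraMap B (A12 B f'))) _)

/-- `u ↦ u - e u²`, `v ↦ (1 - 3 e u) v` on the intersection. -/
noncomputable def trE (he : e * e = 0) (h : IsTr e f f') : A12 B (rev f) →+* A12 B (rev f') :=
  lift12 (algebraMap B _) (utq (xu B (rev f')) (algebraMap B _ e) (alg_sq _ he))
    ((1 - 3 * algebraMap B _ e * (xu B (rev f') : A12 B (rev f'))) * yv B (rev f')) (by
    have h1 := pol_trq (alg_sq _ he) (h.map (algebraMap B (A12 B (rev f'))))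
      (xu B (rev f') : A12 B (rev f'))
    have h2 := rel12 B (rev f')
    have h3 : ∀ g : Fin 7 → B, rev (fun i => algebraMap B (A12 B (rev f')) (g i)) =
        fun i => algebraMap B (A12 B (rev f')) (rev g i) := fun g => rfl
    rw [h3, h3] at h1
    refine Eq.trans ?_ h1
    rw [← h2]
    linear_combination (9 * (xu B (rev f') : A12 B (rev f')) ^ 2 * yv B (rev f') ^ 2) *
      (alg_sq (algebraMap B (A12 B (rev f'))) he))

section

variable (he : e * e = 0) (h : IsTr e f f')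

@[simp]
theorem tr12_b (c : B) : tr12 he h (algebraMap B _ c) = algebraMap B _ c := lift12_b _ _ _ _ _

@[simp]
theorem tr12_x : tr12 he h (xu B f : A12 B f) = (xu B f' : A12 B f') + algebraMap B _ e :=
  lift12_x _ _ _ _

@[simp]
theorem tr12_xi : tr12 he h ((xu B f)⁻¹ : (A12 B f)ˣ).val =
    ((xu B f')⁻¹ : (A12 B f')ˣ).val - algebraMap B _ e * ((xu B f')⁻¹ : (A12 B f')ˣ).val ^ 2 :=
  lift12_xi _ _ _ _

@[simp]
theorem tr12_y : tr12 he h (yv B f) = yv B f' := lift12_y _ _ _ _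

@[simp]
theorem trE_b (c : B) : trE he h (algebraMap B _ c) = algebraMap B _ c := lift12_b _ _ _ _ _

@[simp]
theorem trE_x : trE he h (xu B (rev f) : A12 B (rev f)) = (xu B (rev f') : A12 B (rev f')) -
    algebraMap B _ e * (xu B (rev f') : A12 B (rev f')) ^ 2 :=
  lift12_x _ _ _ _

@[simp]
theorem trE_xi : trE he h ((xu B (rev f))⁻¹ : (A12 B (rev f))ˣ).val =
    ((xu B (rev f'))⁻¹ : (A12 B (rev f'))ˣ).val + algebraMap B _ e :=
  lift12_xi _ _ _ _

@[simp]
theorem trE_y : trE he h (yv B (rev f)) =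
    (1 - 3 * algebraMap B _ e * (xu B (rev f') : A12 B (rev f'))) * yv B (rev f') :=
  lift12_y _ _ _ _

theorem tr12_g1 (v : A1 B f) : tr12 he h (g1 B f v) = g1 B f' (tr1 he h v) := by
  have : (tr12 he h).comp (g1 B f) = (g1 B f').comp (tr1 he h) := by
    refine hom1_ext ?_ ?_ ?_
    · intro c
      rw [RingHom.comp_apply, RingHom.comp_apply, g1_b, tr12_b, tr1_b, g1_b]
    · rw [RingHom.comp_apply, RingHom.comp_apply, tr1_x, ← xu_val, tr12_x, map_add, g1_b, xu_val]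
    · rw [RingHom.comp_apply, RingHom.comp_apply, tr1_y, g1_y, tr12_y, g1_y]
  exact congrArg (fun g => g v) this

theorem trE_g1 (v : A2 B f) : trE he h (g1 B (rev f) v) = g1 B (rev f') (trq he h v) := by
  have : (trE he h).comp (g1 B (rev f)) = (g1 B (rev f')).comp (trq he h) := by
    refine hom1_ext ?_ ?_ ?_
    · intro c
      rw [RingHom.comp_apply, RingHom.comp_apply, g1_b, trE_b, trq_b, g1_b]
    · rw [RingHom.comp_apply, RingHom.comp_apply, trq_x, ← xu_val, trE_x, map_sub, map_mul,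
        map_pow, g1_b, xu_val]
    · rw [RingHom.comp_apply, RingHom.comp_apply, trq_y, g1_y, trE_y, map_mul, map_sub, map_mul,
        map_mul, map_one, map_ofNat, g1_b, xu_val, g1_y]
  exact congrArg (fun g => g v) this

theorem trE_inv (v : A12 B f) : trE he h (inv12 (rev_h' f) v) =
    inv12 (rev_h' f') (tr12 he h v) := by
  have : (trE he h).comp (inv12 (rev_h' f)) = (inv12 (rev_h' f')).comp (tr12 he h) := by
    refine hom12_ext ?_ ?_ ?_
    · intro c
      simp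
    · simp only [RingHom.comp_apply, inv12_x, trE_xi, tr12_x, map_add, inv12_b]
    · simp only [RingHom.comp_apply, inv12_y, tr12_y, map_mul, trE_y, Units.val_pow_eq_pow_val,
        map_pow, trE_xi]
      set u : A12 B (rev f') := (xu B (rev f') : A12 B (rev f')) with hu
      set w : A12 B (rev f') := ((xu B (rev f'))⁻¹ : (A12 B (rev f'))ˣ).val with hw
      set c : A12 B (rev f') := algebraMap B (A12 B (rev f')) e with hc
      have h1 : u * w = 1 := Units.mul_inv _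
      have h2 : c * c = 0 := alg_sq _ he
      have h3 : (w + c) ^ 3 = w ^ 3 + 3 * c * w ^ 2 := by
        linear_combination (3 * w + c) * h2
      rw [h3]
      linear_combination (-3 * c * w ^ 2 * yv B (rev f')) * h1 -
        (9 * u * w ^ 2 * yv B (rev f')) * h2
  exact congrArg (fun g => g v) this

end

end

end Pool.Agent.MG.H2
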