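import Pool.Agent.MG.H2.EndN
import Pool.Agent.MG.H2.HSM
import Pool.Agent.MG.H2.StmtsY
import Pool.Agent.MG.H2.HTran
import Pool.Agent.MG.H2.HBC

/-!
# The values at marked curves of genus two: geometry
-/

open CategoryTheory CategoryTheory.Limits AlgebraicGeometry Polynomial

namespace Pool.Agent.MG.H2

/-! ## Arrows between the curves `y² = f(x)` -/

/-- ASC: change of scale `x = α x'`, `y = β y'`. -/
def Stmt_ASC : Prop :=
  ∀ {B : Type} [CommRing B] (α β : B) (f f' : Fin 7 → B), IsUnit α → IsUnit β →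
    (∀ i : Fin 7, β ^ 2 * f' i = α ^ (i : ℕ) * f i) →
    ∃ (a : Arrow (RingHom.id B) (Hyp f') (Hyp f)) (g : A1 B f →+* A1 B f'),
      (∀ c, g (algebraMap B _ c) = algebraMap B _ c) ∧
      g (x1 B f) = algebraMap B _ α * x1 B f' ∧ g (y1 B f) = algebraMap B _ β * y1 B f' ∧
      HX.in1 B f' ≫ a.f = spMap g ≫ HX.in1 B f

/-- ATR: infinitesimal translation `x = x' + e`. -/
def Stmt_ATR : Prop :=
  ∀ {B : Type} [CommRing B] (e : B) (f f' : Fin 7 → B), e * e = 0 → IsTr e f f' →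
    ∃ (a : Arrow (RingHom.id B) (Hyp f') (Hyp f)) (g : A1 B f →+* A1 B f'),
      (∀ c, g (algebraMap B _ c) = algebraMap B _ c) ∧
      g (x1 B f) = x1 B f' + algebraMap B _ e ∧ g (y1 B f) = y1 B f' ∧
      HX.in1 B f' ≫ a.f = spMap g ≫ HX.in1 B f

/-- ASW: the inversion. -/
def Stmt_ASW : Prop :=
  ∀ {B : Type} [CommRing B] (f : Fin 7 → B),
    ∃ a : Arrow (RingHom.id B) (Hyp (rev f)) (Hyp f), HX.in1 B (rev f) ≫ a.f = HX.in2 B f

namespace GeoN

section pts

variable {B B' : Type} [CommRing B] [CommRing B']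

theorem two_unit [Algebra ℂ B] : IsUnit (2 : B) := by
  have h : IsUnit (algebraMap ℂ B 2) := (IsUnit.mk0 _ two_ne_zero).map _
  rwa [map_ofNat] at h

theorem pp_cf7 {f : B[X]} (hf : f.natDegree ≤ 6) : pp B (cf7 f) = f := by
  have h := pol_cf7 (C : B →+* B[X]) hf X
  rw [eval₂_C_X] at h
  exact h

theorem hsm [Algebra ℂ B] {f : B[X]} (hf : Two2.Good f) : HSm B (cf7 f) where
  two := two_unit
  s1 := by
    rw [pp_cf7 hf.deg]
    exact hf.cop
  s2 := by
    rw [← cf7_reflect, pp_cf7 hf.reflect.deg]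
    exact hf.cop'

theorem onh {n : ℕ} {f : B[X]} {a b : Fin n → B} (h : OnC f a b) (i : Fin n) :
    b i ^ 2 = pol (cf7 f) (a i) :=
  (h.on i).trans (pol_cf7 (RingHom.id B) h.good.deg (a i)).symm

/-- Points and arrows. -/
theorem pnt_arrow (φ : B →+* B') {f : Fin 7 → B} {f' : Fin 7 → B'}
    (a : Arrow φ (Hyp f') (Hyp f)) (g : A1 B f →+* A1 B' f')
    (hb : ∀ c, g (algebraMap B _ c) = algebraMap B' _ (φ c))
    (hin : HX.in1 B' f' ≫ a.f = spMap g ≫ HX.in1 B f) {x y : B} (h : y ^ 2 = pol f x) {x' y' : B'}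
    (h' : y' ^ 2 = pol f' x')
    (hx : lift1 (RingHom.id B') x' y' (pnt_h f' h') (g (x1 B f)) = φ x)
    (hy : lift1 (RingHom.id B') x' y' (pnt_h f' h') (g (y1 B f)) = φ y) :
    pnt f' x' y' h' ≫ a.f = spMap φ ≫ pnt f x y h := by
  have e : (lift1 (RingHom.id B') x' y' (pnt_h f' h')).comp g =
      φ.comp (lift1 (RingHom.id B) x y (pnt_h f h)) := by
    refine hom1_ext (fun c => ?_) ?_ ?_
    · rw [RingHom.comp_apply, hb, lift1_b, RingHom.comp_apply, lift1_b]
      rfl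
    · rw [RingHom.comp_apply, hx, RingHom.comp_apply, lift1_x]
    · rw [RingHom.comp_apply, hy, RingHom.comp_apply, lift1_y]
  have e1 : spMap (lift1 (RingHom.id B') x' y' (pnt_h f' h')) ≫ spMap g =
      spMap φ ≫ spMap (lift1 (RingHom.id B) x y (pnt_h f h)) := by
    rw [spMap_comp', spMap_comp', e]
  exact (Category.assoc _ _ _).trans ((congrArg (fun z => spMap (lift1 (RingHom.id B') x' y'
    (pnt_h f' h')) ≫ z) hin).trans ((Category.assoc _ _ _).symm.trans
      ((congrArg (fun z => z ≫ HX.in1 B f) e1).trans (Category.assoc _ _ _))))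

theorem pnt_inj {K : Type} [Field K] (s : B →+* K) {f : Fin 7 → B} {x y x' y' : B}
    (h : y ^ 2 = pol f x) (h' : y' ^ 2 = pol f x')
    (e : spMap s ≫ pnt f x y h = spMap s ≫ pnt f x' y' h') : s x = s x' := by
  rw [pnt, pnt, ← Category.assoc, ← Category.assoc, cancel_mono, ← Spec.map_comp, ← Spec.map_comp,
    ← CommRingCat.ofHom_comp, ← CommRingCat.ofHom_comp] at e
  have e2 := congrArg (fun g => g.hom (x1 B f)) (Spec.map_injective e)
  change s (lift1 (RingHom.id B) x y (pnt_h f h) (x1 B f)) =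
    s (lift1 (RingHom.id B) x' y' (pnt_h f h') (x1 B f)) at e2
  rwa [lift1_x, lift1_x] at e2

end pts

section val

variable {n : ℕ} (F : Reg 2 n)

/-- Functoriality of the values at the zero covector. -/
theorem val0 {B B' : Type} [CommRing B] [Algebra ℂ B] [CommRing B'] [Algebra ℂ B']
    (φ : B →ₐ[ℂ] B') {x : Fam n B} {y : Fam n B'} (hx : IsStable 2 x) (hy : IsStable 2 y)
    (a : Arrow (φ : B →+* B') y x) : F.F B' y hy 0 = φ (F.F B x hx 0) := by
  refine F.nat B B' φ x y hx hy a 0 0 fun d' d f hf => ?_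
  exact (map_zero (φ : B →+* B')).symm

theorem val0' {B : Type} [CommRing B] [Algebra ℂ B]
    {x y : Fam n B} (hx : IsStable 2 x) (hy : IsStable 2 y)
    (a : Arrow (RingHom.id B) y x) : F.F B y hy 0 = F.F B x hx 0 :=
  val0 F (AlgHom.id ℂ B) hx hy a

variable (hNPT : Stmt_NPT) (hYHT : Stmt_YHT)

include hNPT hYHT

theorem stab {B : Type} [CommRing B] [Algebra ℂ B] {f : B[X]} {a b : Fin n → B}
    (h : OnC f a b) : IsStable 2 (HypS (cf7 f) a b (onh h)) := by
  refine hNPT 2 (Hyp (cf7 f)) (hYHT (cf7 f) (hsm h.good)) _ _ (fun i => ⟨⊤, ?_, fun s => trivial⟩) ?_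
  · have h1 : SmoothOfRelativeDimension 1 (HX.pr B (cf7 f)) := sm_hyp two_unit h.good
    have h2 : Smooth (HX.pr B (cf7 f)) := SmoothOfRelativeDimension.smooth 1 _
    exact inferInstanceAs (Smooth ((⊤ : (HX B (cf7 f)).Opens).ι ≫ HX.pr B (cf7 f)))
  · intro K _ _ s i j hij e
    have h1 := pnt_inj s (onh h i) (onh h j) e
    exact ((h.dj i j hij).map s).ne_zero (by rw [map_sub, h1, sub_self])

open Classical in
/-- The value at a marked curve. -/
noncomputable def VN (B : Type) [CommRing B] [Algebra ℂ B] (f : B[X]) (a b : Fin n → B) : B :=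
  if h : OnC f a b then F.F B (HypS (cf7 f) a b (onh h)) (stab hNPT hYHT h) 0 else 0

theorem VN_eq {B : Type} [CommRing B] [Algebra ℂ B] {f : B[X]} {a b : Fin n → B}
    (h : OnC f a b) : VN F hNPT hYHT B f a b =
      F.F B (HypS (cf7 f) a b (onh h)) (stab hNPT hYHT h) 0 :=
  dif_pos h

end val

/-- An arrow of marked curves. -/
noncomputable def arrS {B B' : Type} [CommRing B] [CommRing B'] {n : ℕ} {φ : B →+* B'}
    {f : Fin 7 → B} {f' : Fin 7 → B'} (a : Arrow φ (Hyp f') (Hyp f)) {x y : Fin n → B}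
    {x' y' : Fin n → B'} (h : ∀ i, y i ^ 2 = pol f (x i)) (h' : ∀ i, y' i ^ 2 = pol f' (x' i))
    (hs : ∀ i, pnt f' (x' i) (y' i) (h' i) ≫ a.f = spMap φ ≫ pnt f (x i) (y i) (h i)) :
    Arrow φ (HypS f' x' y' h') (HypS f x y h) :=
  ⟨a.f, a.cart, hs⟩

section fields

variable {n : ℕ} (F : Reg 2 n) (hNPT : Stmt_NPT) (hYHT : Stmt_YHT)

theorem VN_bc (hHBC : Stmt_HBC) {B B' : Type} [CommRing B] [Algebra ℂ B] [CommRing B']
    [Algebra ℂ B'] (φ : B →ₐ[ℂ] B') (f : B[X]) (a b : Fin n → B) (h : OnC f a b) :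
    VN F hNPT hYHT B' (f.map (φ : B →+* B')) (fun i => φ (a i)) (fun i => φ (b i)) =
      φ (VN F hNPT hYHT B f a b) := by
  have h' : OnC (f.map (φ : B →+* B')) (fun i => φ (a i)) (fun i => φ (b i)) :=
    h.map (φ : B →+* B')
  rw [VN_eq F hNPT hYHT h, VN_eq F hNPT hYHT h']
  let hf : ∀ i, cf7 (f.map (φ : B →+* B')) i = (φ : B →+* B') (cf7 f i) := cf7_map _ f
  let e : Arrow (φ : B →+* B') (Hyp (cf7 (f.map (φ : B →+* B')))) (Hyp (cf7 f)) :=
    ⟨HX.map (φ : B →+* B') hf, hHBC (φ : B →+* B') hf, fun i => i.elim0⟩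
  refine val0 F φ _ _ (arrS e (onh h) (onh h') fun i => ?_)
  refine pnt_arrow (φ : B →+* B') e (bc1 (φ : B →+* B') hf) (bc1_b _ hf)
    (HX.in1_map (φ : B →+* B') hf) _ _ ?_ ?_
  · rw [bc1_x, lift1_x]
    rfl
  · rw [bc1_y, lift1_y]
    rfl

theorem VN_sc (hASC : Stmt_ASC) {B : Type} [CommRing B] [Algebra ℂ B] (α β : B) (f f' : B[X])
    (a b a' b' : Fin n → B) (hα : IsUnit α) (hβ : IsUnit β) (h : OnC f a b) (h' : OnC f' a' b')
    (hff : C (β ^ 2) * f' = f.comp (C α * X)) (ha : ∀ i, a i = α * a' i)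
    (hb : ∀ i, b i = β * b' i) :
    VN F hNPT hYHT B f' a' b' = VN F hNPT hYHT B f a b := by
  rw [VN_eq F hNPT hYHT h, VN_eq F hNPT hYHT h']
  obtain ⟨e, g, g0, g1, g2, hin⟩ := hASC α β (cf7 f) (cf7 f') hα hβ fun i => by
    have := congrArg (fun p => coeff p (i : ℕ)) hff
    simp only [coeff_C_mul, comp_C_mul_X_coeff] at this
    rw [cf7, cf7, this, mul_comm]
  refine val0' F _ _ (arrS e (onh h) (onh h') fun i => ?_)
  refine pnt_arrow (RingHom.id B) e g g0 hin _ _ ?_ ?_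
  · rw [g1, map_mul, lift1_b, lift1_x, ha]
    rfl
  · rw [g2, map_mul, lift1_b, lift1_y, hb]
    rfl

theorem isTr_comp {B : Type} [CommRing B] (e : B) (he : e * e = 0) {f : B[X]}
    (hf : f.natDegree ≤ 6) : IsTr e (cf7 f) (cf7 (f.comp (X + C e))) := by
  have h2 : e ^ 2 = 0 := by rw [sq, he]
  have h := Polynomial.eval_add_of_sq_eq_zero (f.map C) X (C e) (by rw [← C_pow, h2, C_0])
  rw [Polynomial.eval_map, Polynomial.eval_map, derivative_map, Polynomial.eval_map, eval₂_C_X,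
    eval₂_C_X] at h
  have h' : f.comp (X + C e) = f + derivative f * C e := h
  have h7 : f.coeff 7 = 0 := coeff_eq_zero_of_natDegree_lt (by omega)
  intro i
  rw [cf7, h', coeff_add, coeff_mul_C, coeff_derivative]
  fin_cases i <;> simp [cf7, dtr, h7] <;> ring

theorem VN_tr (hATR : Stmt_ATR) {B : Type} [CommRing B] [Algebra ℂ B] (e : B) (f : B[X])
    (a b : Fin n → B) (he : e * e = 0) (h : OnC f a b) :
    VN F hNPT hYHT B (f.comp (X + C e)) (fun i => a i - e) b = VN F hNPT hYHT B f a b := by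
  have h' : OnC (f.comp (X + C e)) (fun i => a i - e) b := by
    refine ⟨h.good.shift e, fun i j hij => ?_, fun i => ?_⟩
    · rw [sub_sub_sub_cancel_right]
      exact h.dj i j hij
    · rw [h.on, eval_comp]
      simp
  rw [VN_eq F hNPT hYHT h, VN_eq F hNPT hYHT h']
  obtain ⟨ar, g, g0, g1, g2, hin⟩ := hATR e (cf7 f) (cf7 (f.comp (X + C e))) he
    (isTr_comp e he h.good.deg)
  refine val0' F _ _ (arrS ar (onh h) (onh h') fun i => ?_)
  refine pnt_arrow (RingHom.id B) ar g g0 hin _ _ ?_ ?_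
  · rw [g1, map_add, lift1_b, lift1_x]
    exact sub_add_cancel _ _
  · rw [g2, lift1_y]
    rfl

theorem pnt_inf {B : Type} [CommRing B] (f : Fin 7 → B) {a b a' b' : B}
    (h : b ^ 2 = pol f a) (h' : b' ^ 2 = pol (rev f) a') (ha : a * a' = 1)
    (hb : b' = b * a' ^ 3) :
    spMap (lift1 (RingHom.id B) a' b' (pnt_h (rev f) h')) ≫ HX.in2 B f = pnt f a b h := by
  let u : Bˣ := ⟨a, a', ha, by rw [mul_comm, ha]⟩
  let L : A12 B f →+* B := lift12 (RingHom.id B) u b (pnt_h f h)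
  have e1 : L.comp (g1 B f) = lift1 (RingHom.id B) a b (pnt_h f h) := by
    refine RingHom.ext fun v => ?_
    exact lift12_g1 (RingHom.id B) u b (pnt_h f h) v
  have hxi : L ((xu B f)⁻¹ : (A12 B f)ˣ).val = a' := lift12_xi (RingHom.id B) u b (pnt_h f h)
  have e2 : L.comp (g2 B f) = lift1 (RingHom.id B) a' b' (pnt_h (rev f) h') := by
    refine hom1_ext (fun c => ?_) ?_ ?_
    · rw [RingHom.comp_apply, lift1_b]
      exact (congrArg L (g2_b B f c)).trans (lift12_b _ _ _ _ _)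
    · rw [RingHom.comp_apply, lift1_x, g2_u, hxi]
    · rw [RingHom.comp_apply, lift1_y, g2_v, map_mul, Units.val_pow_eq_pow_val, map_pow, hxi, hb]
      congr 1
      exact lift12_y (RingHom.id B) u b (pnt_h f h)
  have hc : spMap (g1 B f) ≫ HX.in1 B f = spMap (g2 B f) ≫ HX.in2 B f := pushout.condition
  rw [← e2, ← spMap_comp', Category.assoc, ← hc, ← Category.assoc, spMap_comp', e1]
  rfl

theorem inv_aux (hASW : Stmt_ASW) {B : Type} [CommRing B] (f f' : Fin 7 → B) (hf : f' = rev f)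
    (a b a' b' : Fin n → B) (h : ∀ i, b i ^ 2 = pol f (a i)) (h' : ∀ i, b' i ^ 2 = pol f' (a' i))
    (haa : ∀ i, a i * a' i = 1) (hbb : ∀ i, b' i = b i * a' i ^ 3) :
    Nonempty (Arrow (RingHom.id B) (HypS f' a' b' h') (HypS f a b h)) := by
  subst hf
  obtain ⟨e, he⟩ := hASW f
  refine ⟨arrS e h h' fun i => ?_⟩
  have h1 : pnt (rev f) (a' i) (b' i) (h' i) ≫ e.f = pnt f (a i) (b i) (h i) :=
    (Category.assoc _ _ _).trans ((congrArg (fun z => spMap (lift1 (RingHom.id B) (a' i) (b' i)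
      (pnt_h (rev f) (h' i))) ≫ z) he).trans (pnt_inf f (h i) (h' i) (haa i) (hbb i)))
  rw [h1]
  have h3 : spMap (RingHom.id B) = 𝟙 (Sp B) := Spec.map_id _
  rw [h3]
  exact (Category.id_comp _).symm

theorem VN_inv (hASW : Stmt_ASW) {B : Type} [CommRing B] [Algebra ℂ B] (f : B[X])
    (a b a' b' : Fin n → B) (h : OnC f a b) (h' : OnC (f.reflect 6) a' b')
    (haa : ∀ i, a i * a' i = 1) (hbb : ∀ i, b' i = b i * a' i ^ 3) :
    VN F hNPT hYHT B (f.reflect 6) a' b' = VN F hNPT hYHT B f a b := by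
  rw [VN_eq F hNPT hYHT h, VN_eq F hNPT hYHT h']
  obtain ⟨e⟩ := inv_aux hASW (cf7 f) (cf7 (f.reflect 6)) cf7_reflect a b a' b' (onh h) (onh h')
    haa hbb
  exact val0' F _ _ e

theorem VN_mv (hNMA : Stmt_NMA) {K : Type} [Field K] [IsAlgClosed K] [Algebra ℂ K] (f : K[X])
    (a b a' b' : Fin n → K) (h : OnC f a b) (h' : OnC f a' b') :
    VN F hNPT hYHT K f a b = VN F hNPT hYHT K f a' b' := by
  rw [VN_eq F hNPT hYHT h, VN_eq F hNPT hYHT h']
  have hpi : ∀ {x y x' y' : K} (e1 : y ^ 2 = pol (cf7 f) x) (e2 : y' ^ 2 = pol (cf7 f) x'),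
      pnt (cf7 f) x y e1 = pnt (cf7 f) x' y' e2 → x = x' := by
    intro x y x' y' e1 e2 e
    exact pnt_inj (RingHom.id K) e1 e2 (by rw [e])
  have hst := hYHT (cf7 f) (hsm h.good)
  refine hNMA 2 le_rfl F (Hyp (cf7 f)) hst (sm_hyp two_unit h.good) ?_ _ _ _ _ ?_ ?_ _ _
  · let sq : ∀ x : K, ∃ y : K, y ^ 2 = pol (cf7 f) x :=
      fun x => IsAlgClosed.exists_pow_nat_eq _ (by norm_num)
    have hinf : Infinite K := Infinite.of_injective _ (algebraMap ℂ K).injective
    refine Set.infinite_of_injective_forall_mem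
      (f := fun x : K => pnt (cf7 f) x (sq x).choose (sq x).choose_spec) ?_ ?_
    · intro x x' e
      exact hpi _ _ e
    · intro x
      exact pnt_pr (cf7 f) x _ _
  · intro i j e
    by_contra hc
    exact (h.dj i j hc).ne_zero (by rw [hpi _ _ e, sub_self])
  · intro i j e
    by_contra hc
    exact (h'.dj i j hc).ne_zero (by rw [hpi _ _ e, sub_self])

end fields

end GeoN

end Pool.Agent.MG.H2
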