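import Pool.Agent.MG.H2.GeoN
import Pool.Agent.MG.H2.EndO

/-!
# The values at marked curves of genus two: the degeneration
-/

open CategoryTheory CategoryTheory.Limits AlgebraicGeometry Polynomial

namespace Pool.Agent.MG.H2

namespace GeoN

section

variable {R : Type} [CommRing R]

theorem deg_g (s : R) (ρ r : Fin 3 → R) :
    ((∏ i, (X - C (ρ i))) * ∏ j, (C (s ^ 2) * X - C (r j)) : R[X]).natDegree ≤ 6 := by
  refine natDegree_mul_le.trans ?_
  have h1 : (∏ i, (X - C (ρ i)) : R[X]).natDegree ≤ 3 := by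
    refine (natDegree_prod_le _ _).trans ?_
    refine (Finset.sum_le_card_nsmul _ _ 1 fun i _ => ?_).trans (by simp)
    exact natDegree_X_sub_C_le _
  have h2 : (∏ j, (C (s ^ 2) * X - C (r j)) : R[X]).natDegree ≤ 3 := by
    refine (natDegree_prod_le _ _).trans ?_
    refine (Finset.sum_le_card_nsmul _ _ 1 fun i _ => ?_).trans (by simp)
    refine (natDegree_sub_le _ _).trans (max_le ((natDegree_C_mul_le _ _).trans natDegree_X_le) ?_)
    rw [natDegree_C]
    exact Nat.zero_le 1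
  omega

/-- The section in the chart `T`. -/
noncomputable def pntT (p : Fin 7 → R) (t : R) (a b : R) (h : b ^ 2 = pol (pT p t) a) :
    Sp R ⟶ YX R p t :=
  spMap (lift1 (RingHom.id R) a b (pnt_h (pT p t) h)) ≫ YX.inT R p t

theorem pntT_pr (p : Fin 7 → R) (t : R) (a b : R) (h : b ^ 2 = pol (pT p t) a) :
    pntT p t a b h ≫ YX.pr R p t = 𝟙 (Sp R) := by
  have e : (lift1 (RingHom.id R) a b (pnt_h (pT p t) h)).comp (algebraMap R _) =
      RingHom.id R := by
    ext c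
    exact lift1_b (f := pT p t) _ _ _ (pnt_h (pT p t) h) c
  rw [pntT, Category.assoc, YX.inT_pr, ← Spec.map_comp, ← CommRingCat.ofHom_comp, e]
  exact Spec.map_id _

theorem pntT_inj {K : Type} [Field K] (s : R →+* K) {p : Fin 7 → R} {t : R} {x y x' y' : R}
    (h : y ^ 2 = pol (pT p t) x) (h' : y' ^ 2 = pol (pT p t) x')
    (e : spMap s ≫ pntT p t x y h = spMap s ≫ pntT p t x' y' h') : s x = s x' := by
  rw [pntT, pntT, ← Category.assoc, ← Category.assoc, cancel_mono, ← Spec.map_comp,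
    ← Spec.map_comp, ← CommRingCat.ofHom_comp, ← CommRingCat.ofHom_comp] at e
  have e2 := congrArg (fun g => g.hom (x1 R (pT p t))) (Spec.map_injective e)
  change s (lift1 (RingHom.id R) x y (pnt_h (pT p t) h) (x1 R (pT p t))) =
    s (lift1 (RingHom.id R) x' y' (pnt_h (pT p t) h') (x1 R (pT p t))) at e2
  rwa [lift1_x, lift1_x] at e2

theorem opens_smooth {U X Y : Scheme.{0}} (i : U ⟶ X) [IsOpenImmersion i] (π : X ⟶ Y)
    (h : Smooth (i ≫ π)) : Smooth (i.opensRange.ι ≫ π) := by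
  rw [← IsOpenImmersion.isoOfRangeEq_inv_fac i (Scheme.Opens.ι _)
    (congr_arg TopologicalSpace.Opens.carrier i.opensRange.opensRange_ι.symm), Category.assoc,
    MorphismProperty.cancel_left_of_respectsIso @Smooth]
  exact h

/-- The family with sections in the chart `T` is stable. -/
theorem stabT (hNPT : Stmt_NPT) (hYST : Stmt_YST) (hYSM : Stmt_YSM) {n : ℕ} {p : Fin 7 → R}
    {t : R} (ok : YOk R p t) (a b : Fin n → R) (h : ∀ i, b i ^ 2 = pol (pT p t) (a i))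
    (hd : ∀ i j, i ≠ j → IsUnit (a i - a j)) :
    IsStable 2 (wpt (Yam p t) (fun i => pntT p t (a i) (b i) (h i))
      (fun i => pntT_pr p t (a i) (b i) (h i))) := by
  refine hNPT 2 (Yam p t) (hYST p t ok) _ _ (fun i => ⟨(YX.inT R p t).opensRange, ?_,
    fun s => ⟨spMap (lift1 (RingHom.id R) (a i) (b i) (pnt_h (pT p t) (h i))) s, rfl⟩⟩) ?_
  · refine opens_smooth (YX.inT R p t) (YX.pr R p t) ?_
    rw [YX.inT_pr]
    have h1 := hYSM R (pT p t) ok.two ok.sT
    exact SmoothOfRelativeDimension.smooth 1 _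
  · intro K _ _ s i j hij e
    have h1 := pntT_inj s (h i) (h j) e
    exact ((hd i j hij).map s).ne_zero (by rw [map_sub, h1, sub_self])

end

/-- Points and arrows. -/
theorem pntT_arrow {R B : Type} [CommRing R] [CommRing B] (φ : R →+* B) {p : Fin 7 → R} {t : R}
    {f : Fin 7 → B} (hf : ∀ i, f i = φ (pT p t i)) (a : Arrow φ (Hyp f) (Yam p t))
    (hin : HX.in1 B f ≫ a.f = spMap (bc1 φ hf) ≫ YX.inT R p t) {x y : R}
    (h : y ^ 2 = pol (pT p t) x) (h' : φ y ^ 2 = pol f (φ x)) :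
    pnt f (φ x) (φ y) h' ≫ a.f = spMap φ ≫ pntT p t x y h := by
  have e : (lift1 (RingHom.id B) (φ x) (φ y) (pnt_h f h')).comp (bc1 φ hf) =
      φ.comp (lift1 (RingHom.id R) x y (pnt_h (pT p t) h)) := by
    refine hom1_ext (fun c => ?_) ?_ ?_
    · rw [RingHom.comp_apply, bc1_b, lift1_b, RingHom.comp_apply, lift1_b]
      rfl
    · rw [RingHom.comp_apply, bc1_x, lift1_x, RingHom.comp_apply, lift1_x]
    · rw [RingHom.comp_apply, bc1_y, lift1_y, RingHom.comp_apply, lift1_y]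
  have e1 : spMap (lift1 (RingHom.id B) (φ x) (φ y) (pnt_h f h')) ≫ spMap (bc1 φ hf) =
      spMap φ ≫ spMap (lift1 (RingHom.id R) x y (pnt_h (pT p t) h)) := by
    rw [spMap_comp', spMap_comp', e]
  exact (Category.assoc _ _ _).trans ((congrArg (fun z => spMap (lift1 (RingHom.id B) (φ x) (φ y)
    (pnt_h f h')) ≫ z) hin).trans ((Category.assoc _ _ _).symm.trans
      ((congrArg (fun z => z ≫ YX.inT R p t) e1).trans (Category.assoc _ _ _))))

variable {n : ℕ} (F : Reg 2 n) (hNPT : Stmt_NPT) (hYHT : Stmt_YHT)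

theorem VN_reg (hYST : Stmt_YST) (hYSM : Stmt_YSM) (hYOR : Stmt_YOR) (hYAR : Stmt_YAR)
    {R : Type} [CommRing R] [IsDomain R] [Algebra ℂ R] (s : R) (ρ r : Fin 3 → R)
    (a b : Fin n → R) (_ : s ≠ 0)
    (h1 : ∀ i j, i ≠ j → IsUnit (ρ i - ρ j)) (h2 : ∀ i j, i ≠ j → IsUnit (r i - r j))
    (h3 : ∀ j, IsUnit (r j)) (h4 : ∀ i j, IsUnit (r j - s ^ 2 * ρ i))
    (hd : ∀ i j, i ≠ j → IsUnit (a i - a j))
    (hon : ∀ i, b i ^ 2 =
      ((∏ i, (X - C (ρ i))) * ∏ j, (C (s ^ 2) * X - C (r j)) : R[X]).eval (a i)) :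
    ∃ v : R, ∀ (K : Type) [Field K] [Algebra ℂ K] (ψ : R →ₐ[ℂ] K), ψ s ≠ 0 →
      VN F hNPT hYHT K
        (((∏ i, (X - C (ρ i))) * ∏ j, (C (s ^ 2) * X - C (r j)) : R[X]).map (ψ : R →+* K))
        (fun i => ψ (a i)) (fun i => ψ (b i)) = ψ v := by
  set g : R[X] := (∏ i, (X - C (ρ i))) * ∏ j, (C (s ^ 2) * X - C (r j)) with hg
  have hdg : g.natDegree ≤ 6 := deg_g s ρ r
  obtain ⟨p, ok, hp⟩ := hYOR s ρ r two_unit h1 h2 h3 h4
  have hp' : pT p s = cf7 g := funext hp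
  have hT : ∀ i, b i ^ 2 = pol (pT p s) (a i) := by
    intro i
    rw [hon, hp']
    exact (pol_cf7 (RingHom.id R) hdg (a i)).symm
  have hst := stabT hNPT hYST hYSM ok a b hT hd
  refine ⟨F.F R _ hst 0, fun K _ _ ψ hψ => ?_⟩
  have hne : ∀ {x y : R}, IsUnit (x - y) → ψ x ≠ ψ y := by
    intro x y h h'
    exact (h.map ψ).ne_zero (by rw [map_sub, h', sub_self])
  have hgood : Two2.Good (g.map (ψ : R →+* K)) := by
    have e : g.map (ψ : R →+* K) = (∏ i, (X - C (ψ (ρ i)))) *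
        ∏ j, (C (ψ s ^ 2) * X - C (ψ (r j))) := by
      rw [hg, Polynomial.map_mul, Polynomial.map_prod, Polynomial.map_prod]
      simp
    rw [e]
    refine good_f' hψ (fun i j hij => hne (h1 i j hij)) (fun i j hij => hne (h2 i j hij))
      fun i j h => hne (h4 i j) ?_
    rw [h, map_mul, map_pow]
  have hO : OnC (g.map (ψ : R →+* K)) (fun i => ψ (a i)) (fun i => ψ (b i)) := by
    refine ⟨hgood, fun i j hij => ?_, fun i => ?_⟩
    · rw [← map_sub]
      exact (hd i j hij).map ψ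
    · have h6 := congrArg (ψ : R →+* K) (hon i)
      rw [map_pow, ← eval_map_apply] at h6
      exact h6
  have hf : ∀ i, cf7 (g.map (ψ : R →+* K)) i = (ψ : R →+* K) (pT p s i) := by
    intro i
    rw [cf7_map, hp']
  obtain ⟨-, ar, -, -, -, hin, -⟩ := hYAR (ψ : R →+* K) p s (ψ s)⁻¹ (mul_inv_cancel₀ hψ)
    (cf7 (g.map (ψ : R →+* K))) hf
  rw [VN_eq F hNPT hYHT hO]
  refine val0 F ψ hst (stab hNPT hYHT hO) ⟨ar.f, ar.cart, fun i => ?_⟩
  exact pntT_arrow (ψ : R →+* K) hf ar hin (hT i) (onh hO i)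

/-- The values at marked curves. -/
noncomputable def mdlN (hHBC : Stmt_HBC) (hASC : Stmt_ASC) (hATR : Stmt_ATR) (hASW : Stmt_ASW)
    (hNMA : Stmt_NMA) (hYST : Stmt_YST) (hYSM : Stmt_YSM) (hYOR : Stmt_YOR)
    (hYAR : Stmt_YAR) : MdlN n where
  V := VN F hNPT hYHT
  bc := VN_bc F hNPT hYHT hHBC
  sc α β f f' a b a' b' hα hβ h h' := VN_sc F hNPT hYHT hASC α β f f' a b a' b' hα hβ h h'
  tr := VN_tr F hNPT hYHT hATR
  inv f a b a' b' h h' := VN_inv F hNPT hYHT hASW f a b a' b' h h'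
  mv := VN_mv F hNPT hYHT hNMA
  reg s ρ r a b hs h1 h2 h3 h4 hd hon :=
    VN_reg F hNPT hYHT hYST hYSM hYOR hYAR s ρ r a b hs h1 h2 h3 h4 hd hon

end GeoN

end Pool.Agent.MG.H2
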