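import Pool.Agent.MG.H2.HCov

/-!
# The charts of `y² = f(x)`
-/

open CategoryTheory CategoryTheory.Limits AlgebraicGeometry TensorProduct

namespace Pool.Agent.MG.H2

theorem spMap_id {R : Type} [CommRing R] : spMap (RingHom.id R) = 𝟙 (Sp R) := Spec.map_id _

section

variable {B : Type} [CommRing B] {f : Fin 7 → B}

theorem HX.cond : spMap (g1 B f) ≫ HX.in1 B f = spMap (g2 B f) ≫ HX.in2 B f :=
  pushout.condition

theorem HX.cond' : spMap (g1 B (rev f)) ≫ HX.in2 B f =
    spMap (inv12 (rev_h' f)) ≫ spMap (g1 B f) ≫ HX.in1 B f := by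
  rw [HX.cond, g2, ← spMap_comp', ← Category.assoc, ← Category.assoc, spMap_comp',
    inv12_inv12 (rev_h f) (rev_h' f), spMap_id, Category.id_comp]

instance isIso_inv12 {f f' : Fin 7 → B} (h : ∀ i, f' i = f (Fin.rev i)) :
    IsIso (spMap (inv12 h)) := by
  have h' : ∀ i, f i = f' (Fin.rev i) := fun i => by simp [h]
  have : IsIso (CommRingCat.ofHom (invEquiv h h' : A12 B f →+* A12 B f')) :=
    (RingEquiv.toCommRingCatIso (invEquiv h h')).isIso_hom
  exact inferInstanceAs (IsIso (Spec.map (CommRingCat.ofHom
    (invEquiv h h' : A12 B f →+* A12 B f'))))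

/-- The charts of `y² = f(x)`. -/
noncomputable def hCh (o : HOk f) : (hRF o).Ch (Hyp f) where
  ι := fun i => match i with
    | .T => HX.in1 B f
    | .N => spMap (g1 B f) ≫ HX.in1 B f
    | .Q => HX.in2 B f
  η := fun e => match e with
    | true => spMap (g1 B f) ≫ HX.in1 B f
    | false => spMap (g1 B (rev f)) ≫ HX.in2 B f
  oi := fun i => match i with
    | .T => inferInstanceAs (IsOpenImmersion (HX.in1 B f))
    | .N => inferInstanceAs (IsOpenImmersion (spMap (g1 B f) ≫ HX.in1 B f))
    | .Q => inferInstanceAs (IsOpenImmersion (HX.in2 B f))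
  oe := fun e => match e with
    | true => inferInstanceAs (IsOpenImmersion (spMap (g1 B f) ≫ HX.in1 B f))
    | false => inferInstanceAs (IsOpenImmersion (spMap (g1 B (rev f)) ≫ HX.in2 B f))
  π := fun i => match i with
    | .T => HX.in1_pr B f
    | .N => by
      change (spMap (g1 B f) ≫ HX.in1 B f) ≫ HX.pr B f = _
      rw [Category.assoc, HX.in1_pr, spMap_comp']
      rfl
    | .Q => HX.in2_pr B f
  hs := fun e => match e with
    | true => rfl
    | false => rfl
  ht := fun e => match e with
    | true => by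
      change _ = spMap (RingHom.id _) ≫ _
      rw [spMap_id, Category.id_comp]
      rfl
    | false => HX.cond'

end

end Pool.Agent.MG.H2
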