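import Pool.Agent.MG.H2.HForm

/-!
# Form data on the curves `y² = f(x)`
-/

open CategoryTheory CategoryTheory.Limits AlgebraicGeometry TensorProduct

namespace Pool.Agent.MG.H2

/-- Bezout identity for `f` and its derivative. -/
structure Bz {B : Type} [CommRing B] (f : Fin 7 → B) where
  /-- coefficient of `f` -/
  a : Polynomial B
  /-- coefficient of `f'` -/
  b : Polynomial B
  h : a * pol (fun i => Polynomial.C (f i)) Polynomial.X +
    b * dpol (fun i => Polynomial.C (f i)) Polynomial.X = 1

section

variable {B : Type} [CommRing B] {f : Fin 7 → B}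

theorem Bz.ev (z : Bz f) {R : Type} [CommRing R] (c : B →+* R) (x : R) :
    z.a.eval₂ c x * pol (fun i => c (f i)) x + z.b.eval₂ c x * dpol (fun i => c (f i)) x = 1 := by
  have h := congrArg (Polynomial.eval₂RingHom c x) z.h
  rw [map_add, map_mul, map_mul, map_one, pol_map, dpol_map] at h
  simpa using h

end

/-- The charts: `T` = the first chart, `Q` = the chart at infinity, `N` between them. -/
inductive Ct
  | T
  | N
  | Q

/-- `y² = f(x)` is smooth. -/
structure HOk {B : Type} [CommRing B] (f : Fin 7 → B) where
  /-- Bezout identity -/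
  z : Bz f
  /-- Bezout identity at infinity -/
  z' : Bz (rev f)
  sm : (algebraMap B (A12 B f)).FormallySmooth
  sm' : (algebraMap B (A12 B (rev f))).FormallySmooth

section

variable {B : Type} [CommRing B] (f : Fin 7 → B)

/-- The rings. -/
abbrev hR : Ct → Type
  | .T => A1 B f
  | .N => A12 B f
  | .Q => A1 B (rev f)

/-- The rings of the edges. -/
abbrev hRE : Bool → Type
  | true => A12 B f
  | false => A12 B (rev f)

noncomputable instance hRc : ∀ i, CommRing (hR f i)
  | .T => inferInstanceAs (CommRing (A1 B f))
  | .N => inferInstanceAs (CommRing (A12 B f))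
  | .Q => inferInstanceAs (CommRing (A1 B (rev f)))

noncomputable instance hREc : ∀ e, CommRing (hRE f e)
  | true => inferInstanceAs (CommRing (A12 B f))
  | false => inferInstanceAs (CommRing (A12 B (rev f)))

/-- source -/
abbrev hs : Bool → Ct
  | true => .T
  | false => .Q

/-- structure maps -/
noncomputable abbrev hc : ∀ i, B →+* hR f i
  | .T => algebraMap B (A1 B f)
  | .N => algebraMap B (A12 B f)
  | .Q => algebraMap B (A1 B (rev f))

/-- structure maps -/
noncomputable abbrev hcE : ∀ e, B →+* hRE f e
  | true => algebraMap B (A12 B f)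
  | false => algebraMap B (A12 B (rev f))

/-- restriction -/
noncomputable abbrev hjs : ∀ e, hR f (hs e) →+* hRE f e
  | true => g1 B f
  | false => g1 B (rev f)

/-- restriction -/
noncomputable abbrev hjt : ∀ e, hR f Ct.N →+* hRE f e
  | true => RingHom.id _
  | false => inv12 (rev_h' f)

variable {f}

/-- The coefficients of the forms `θ₁ = dx/y` (`true`) and `θ₂ = - x dx/y` (`false`). -/
noncomputable abbrev hp (o : HOk f) : Bool → ∀ i, Fin 2 → hR f i
  | true, .T => ![o.z.a.eval₂ (algebraMap B _) (x1 B f) * y1 B f,
      2 * o.z.b.eval₂ (algebraMap B _) (x1 B f)]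
  | false, .T => ![- x1 B f * (o.z.a.eval₂ (algebraMap B _) (x1 B f) * y1 B f),
      - x1 B f * (2 * o.z.b.eval₂ (algebraMap B _) (x1 B f))]
  | true, .N => ![o.z.a.eval₂ (algebraMap B _) (xu B f : A12 B f) * yv B f,
      2 * o.z.b.eval₂ (algebraMap B _) (xu B f : A12 B f)]
  | false, .N => ![- (xu B f : A12 B f) * (o.z.a.eval₂ (algebraMap B _) (xu B f : A12 B f) *
        yv B f), - (xu B f : A12 B f) * (2 * o.z.b.eval₂ (algebraMap B _) (xu B f : A12 B f))]
  | true, .Q => ![- x1 B (rev f) * (o.z'.a.eval₂ (algebraMap B _) (x1 B (rev f)) * y1 B (rev f)),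
      - x1 B (rev f) * (2 * o.z'.b.eval₂ (algebraMap B _) (x1 B (rev f)))]
  | false, .Q => ![o.z'.a.eval₂ (algebraMap B _) (x1 B (rev f)) * y1 B (rev f),
      2 * o.z'.b.eval₂ (algebraMap B _) (x1 B (rev f))]

variable (f) in
/-- The coordinates. -/
noncomputable abbrev hq : ∀ i, Fin 2 → hR f i
  | .T => ![x1 B f, y1 B f]
  | .N => ![(xu B f : A12 B f), yv B f]
  | .Q => ![x1 B (rev f), y1 B (rev f)]

theorem g1_ev2 (p : Polynomial B) : g1 B f (p.eval₂ (algebraMap B _) (x1 B f)) =
    p.eval₂ (algebraMap B _) (xu B f : A12 B f) := by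
  rw [Polynomial.hom_eval₂]
  rfl

theorem inv_ev2 (p : Polynomial B) :
    inv12 (rev_h' f) (p.eval₂ (algebraMap B _) (xu B f : A12 B f)) =
    p.eval₂ (algebraMap B _) ((xu B (rev f))⁻¹ : (A12 B (rev f))ˣ).val := by
  rw [Polynomial.hom_eval₂, inv12_x]
  congr 1
  exact RingHom.ext fun b => inv12_b (rev_h' f) b

/-- Ring-level form data on `y² = f(x)`. -/
noncomputable def hRF (o : HOk f) : RF B where
  I := Ct
  E := Bool
  K := Bool
  s := hs
  t := fun _ => .N
  R := hR f
  RE := hRE f
  c := hc f
  cc := hcE f
  js := hjs f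
  jt := hjt f
  jsc := fun e => match e with
    | true => rfl
    | false => rfl
  jtc := fun e => match e with
    | true => rfl
    | false => RingHom.ext fun b => inv12_b (rev_h' f) b
  sm := fun e => match e with
    | true => o.sm
    | false => o.sm'
  m := 2
  p := hp o
  q := fun _ => hq f
  eq := by
    intro k e R' _ r δ hδ
    cases e with
    | true =>
      cases k with
      | true =>
        simp only [hjs, hjt, hs, hp, hq, Fin.sum_univ_two, Matrix.cons_val_zero,
          Matrix.cons_val_one, map_mul, map_ofNat, g1_ev2, g1_y, ← xu_val, RingHom.id_apply]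
      | false =>
        simp only [hjs, hjt, hs, hp, hq, Fin.sum_univ_two, Matrix.cons_val_zero,
          Matrix.cons_val_one, map_mul, map_neg, map_ofNat, g1_ev2, g1_y, ← xu_val,
          RingHom.id_apply]
    | false =>
      have hδ' : DerA (algebraMap B (A12 B (rev f))) r δ := hδ
      set u : A12 B (rev f) := (xu B (rev f) : A12 B (rev f)) with hu
      set x : A12 B (rev f) := ((xu B (rev f))⁻¹ : (A12 B (rev f))ˣ).val with hx
      set v : A12 B (rev f) := yv B (rev f) with hv
      have hxu : x * u = 1 := Units.inv_mul _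
      have hrel : v ^ 2 = pol (fun i => algebraMap B _ (rev f i)) u := rel12 B (rev f)
      have hy : inv12 (rev_h' f) (yv B f) = v * x ^ 3 := by
        rw [inv12_y, Units.val_pow_eq_pow_val]
      have hrel' : (v * x ^ 3) ^ 2 = pol (fun i => algebraMap B _ (f i)) x := by
        have h1 := congrArg (inv12 (rev_h' f)) (rel12 B f)
        rw [map_pow, hy, pol_map, inv12_x] at h1
        simp only [inv12_b] at h1
        exact h1
      have dxu : r x * δ u + r u * δ x = 0 := by
        rw [← hδ'.mul, hxu, hδ'.one]
      have rxu : r x * r u = 1 := by rw [← map_mul, hxu, map_one]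
      have hdx : δ x = - (r x) ^ 2 * δ u := by linear_combination (r x) * dxu - (δ x) * rxu
      have hdy : δ (v * x ^ 3) = r x ^ 3 * δ v + 3 * r x ^ 2 * r v * δ x := by
        have h3 := hδ'.pow x 2
        norm_num at h3
        rw [hδ'.mul, h3, map_pow]
        ring
      have hdv : 2 * r v * δ v = dpol (rev fun i => r (algebraMap B _ (f i))) (r u) * δ u := by
        rw [← hδ'.sq, hrel, hδ'.pol]
        rfl
      have h1 := form_rev (f := fun i => r (algebraMap B (A12 B (rev f)) (f i))) rxu
        (y := r (v * x ^ 3)) (by rw [map_mul, map_pow]) (v := r v) (by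
          rw [← map_pow, hrel, pol_map]
          rfl) hdv hdx hdy
        (A := r (o.z.a.eval₂ (algebraMap B _) x)) (C := r (o.z.b.eval₂ (algebraMap B _) x))
        (by
          have := congrArg r (o.z.ev (algebraMap B (A12 B (rev f))) x)
          rw [map_add, map_mul, map_mul, map_one, pol_map, dpol_map] at this
          exact this)
        (A' := r (o.z'.a.eval₂ (algebraMap B _) u)) (C' := r (o.z'.b.eval₂ (algebraMap B _) u))
        (by
          have := congrArg r (o.z'.ev (algebraMap B (A12 B (rev f))) u)
          rw [map_add, map_mul, map_mul, map_one, pol_map, dpol_map] at this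
          exact this)
        (by rw [← map_pow, hrel', pol_map])
      cases k with
      | true =>
        simp only [hjs, hjt, hs, hp, hq, Fin.sum_univ_two, Matrix.cons_val_zero,
          Matrix.cons_val_one, map_mul, map_neg, map_ofNat, g1_ev2, g1_y, ← xu_val, inv_ev2,
          inv12_x, hy]
        simp only [map_mul] at h1
        linear_combination -h1
      | false =>
        simp only [hjs, hjt, hs, hp, hq, Fin.sum_univ_two, Matrix.cons_val_zero,
          Matrix.cons_val_one, map_mul, map_neg, map_ofNat, g1_ev2, g1_y, ← xu_val, inv_ev2,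
          inv12_x, hy]
        simp only [map_mul] at h1
        linear_combination (r x) * h1 - (r (o.z'.a.eval₂ (algebraMap B _) u) * r v * δ u +
          2 * r (o.z'.b.eval₂ (algebraMap B _) u) * δ v) * rxu

end

end Pool.Agent.MG.H2
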