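import Pool.Agent.MG.H2.Defs
import Pool.Agent.MG.H2.CRing

/-!
# The forms `dx/y` and `- x dx/y` on the curves `y² = f(x)`
-/

open CategoryTheory CategoryTheory.Limits AlgebraicGeometry TensorProduct

namespace Pool.Agent.MG.H2

section alg

variable {R : Type} [CommRing R]

/-- The derivative. -/
def dpol (f : Fin 7 → R) (x : R) : R :=
  f 1 + 2 * f 2 * x + 3 * f 3 * x ^ 2 + 4 * f 4 * x ^ 3 + 5 * f 5 * x ^ 4 + 6 * f 6 * x ^ 5

theorem dpol_map {R' : Type} [CommRing R'] (φ : R →+* R') (f : Fin 7 → R) (x : R) :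
    φ (dpol f x) = dpol (fun i => φ (f i)) (φ x) := by
  simp [dpol, map_ofNat]

/-- `y ω = dx`, `f' ω = 2 dy` for `ω = A y dx + 2 C dy`. -/
theorem form_mul {f : Fin 7 → R} {x y dx dy A C : R} (h : y ^ 2 = pol f x)
    (hd : 2 * y * dy = dpol f x * dx) (hb : A * pol f x + C * dpol f x = 1) :
    y * (A * y * dx + 2 * C * dy) = dx ∧ dpol f x * (A * y * dx + 2 * C * dy) = 2 * dy := by
  constructor
  · linear_combination (A * dx) * h + C * hd + dx * hb
  · linear_combination (-(A * y)) * hd + (2 * A * dy) * h + (2 * dy) * hb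

/-- Uniqueness of the form. -/
theorem form_eq {f : Fin 7 → R} {x y dx dy A C ω : R} (h : y ^ 2 = pol f x)
    (hb : A * pol f x + C * dpol f x = 1) (h1 : y * ω = dx) (h2 : dpol f x * ω = 2 * dy) :
    ω = A * y * dx + 2 * C * dy := by
  rw [← h1]
  linear_combination (-ω) * hb - (A * ω) * h + C * h2

/-- The derivative at `x = 1/u`. -/
theorem dpol_rev (f : Fin 7 → R) (x u : R) (h : x * u = 1) :
    dpol f x = 6 * x ^ 5 * pol (rev f) u - x ^ 4 * dpol (rev f) u := by
  have h2 : x ^ 2 * u ^ 2 = 1 := by rw [← mul_pow, h, one_pow]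
  have h3 : x ^ 3 * u ^ 3 = 1 := by rw [← mul_pow, h, one_pow]
  have h4 : x ^ 4 * u ^ 4 = 1 := by rw [← mul_pow, h, one_pow]
  have h5 : x ^ 5 * u ^ 5 = 1 := by rw [← mul_pow, h, one_pow]
  have e0 : rev f 0 = f 6 := rfl
  have e1 : rev f 1 = f 5 := rfl
  have e2 : rev f 2 = f 4 := rfl
  have e3 : rev f 3 = f 3 := rfl
  have e4 : rev f 4 = f 2 := rfl
  have e5 : rev f 5 = f 1 := rfl
  have e6 : rev f 6 = f 0 := rfl
  simp only [pol, dpol, e0, e1, e2, e3, e4, e5, e6]
  have p1 : x ^ 5 * u = x ^ 4 := by linear_combination x ^ 4 * h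
  have p2 : x ^ 5 * u ^ 2 = x ^ 3 := by linear_combination x ^ 3 * h2
  have p3 : x ^ 5 * u ^ 3 = x ^ 2 := by linear_combination x ^ 2 * h3
  have p4 : x ^ 5 * u ^ 4 = x := by linear_combination x * h4
  have p6 : x ^ 5 * u ^ 6 = u := by linear_combination u * h5
  have r1 : x ^ 4 * u = x ^ 3 := by linear_combination x ^ 3 * h
  have r2 : x ^ 4 * u ^ 2 = x ^ 2 := by linear_combination x ^ 2 * h2
  have r3 : x ^ 4 * u ^ 3 = x := by linear_combination x * h3
  have r5 : x ^ 4 * u ^ 5 = u := by linear_combination u * h4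
  linear_combination (-6 * f 5) * p1 - (6 * f 4) * p2 - (6 * f 3) * p3 - (6 * f 2) * p4 -
    (6 * f 1) * h5 - (6 * f 0) * p6 + (2 * f 4) * r1 + (3 * f 3) * r2 + (4 * f 2) * r3 +
    (5 * f 1) * h4 + (6 * f 0) * r5

/-- `dx/y = - u du/v`. -/
theorem form_rev {f : Fin 7 → R} {x y u v du dv dx dy A C A' C' : R} (hxu : x * u = 1)
    (hy : y = v * x ^ 3) (hv : v ^ 2 = pol (rev f) u) (hdv : 2 * v * dv = dpol (rev f) u * du)
    (hdx : dx = - x ^ 2 * du) (hdy : dy = x ^ 3 * dv + 3 * x ^ 2 * v * dx)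
    (hb : A * pol f x + C * dpol f x = 1) (hb' : A' * pol (rev f) u + C' * dpol (rev f) u = 1)
    (h : y ^ 2 = pol f x) :
    A * y * dx + 2 * C * dy = - u * (A' * v * du + 2 * C' * dv) := by
  obtain ⟨k1, k2⟩ := form_mul hv hdv hb'
  refine (form_eq h hb ?_ ?_).symm
  · rw [hy, hdx]
    have : v * x ^ 3 * (-u * (A' * v * du + 2 * C' * dv)) =
        - (x * u) * x ^ 2 * (v * (A' * v * du + 2 * C' * dv)) := by ring
    rw [this, k1, hxu]
    ring
  · rw [dpol_rev f x u hxu, hdy, hdx, ← hv]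
    have : (6 * x ^ 5 * v ^ 2 - x ^ 4 * dpol (rev f) u) * (-u * (A' * v * du + 2 * C' * dv)) =
        - 6 * (x * u) * x ^ 4 * v * (v * (A' * v * du + 2 * C' * dv)) +
        (x * u) * x ^ 3 * (dpol (rev f) u * (A' * v * du + 2 * C' * dv)) := by ring
    rw [this, k1, k2, hxu]
    ring

end alg

namespace DerA

variable {B R R' : Type} [CommRing B] [CommRing R] [CommRing R'] {c : B →+* R}
  {r : R →+* R'} {δ : R → R'}

theorem cmul (h : DerA c r δ) (b : B) (v : R) : δ (c b * v) = r (c b) * δ v := by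
  rw [h.mul, h.const, mul_zero, add_zero]

theorem pow (h : DerA c r δ) (v : R) (n : ℕ) : δ (v ^ (n + 1)) = (n + 1) * r v ^ n * δ v := by
  induction n with
  | zero => simp
  | succ n ih =>
    rw [pow_succ, h.mul, ih, map_pow]
    push_cast
    ring

theorem sq (h : DerA c r δ) (v : R) : δ (v ^ 2) = 2 * r v * δ v := by
  have := h.pow v 1
  norm_num at this
  exact this

theorem pol (h : DerA c r δ) (f : Fin 7 → B) (x : R) :
    δ (pol (fun i => c (f i)) x) = dpol (fun i => r (c (f i))) (r x) * δ x := by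
  have h2 := h.pow x 1
  have h3 := h.pow x 2
  have h4 := h.pow x 3
  have h5 := h.pow x 4
  have h6 := h.pow x 5
  norm_num at h2 h3 h4 h5 h6
  simp only [H2.pol, h.add, h.cmul, h.const, h2, h3, h4, h5, h6, dpol]
  ring

end DerA

end Pool.Agent.MG.H2
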