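import Pool.Agent.MG.H2.HCh
import Pool.Agent.MG.H2.CfDefs

/-!
# Comparison of the forms under coordinate changes
-/

open CategoryTheory CategoryTheory.Limits AlgebraicGeometry TensorProduct

namespace Pool.Agent.MG.H2

section om

variable {B : Type} [CommRing B] {f : Fin 7 → B}

/-- The value of the form `dx/y`. -/
noncomputable def om (z : Bz f) {R R' : Type} [CommRing R] [CommRing R'] (c : B →+* R) (x y : R)
    (r : R →+* R') (δ : R → R') : R' :=
  r (z.a.eval₂ c x * y) * δ x + r (2 * z.b.eval₂ c x) * δ y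

variable {R R' : Type} [CommRing R] [CommRing R'] {c : B →+* R} {x y : R} {r : R →+* R'}
  {δ : R → R'}

theorem om_bz (z : Bz f) : r (z.a.eval₂ c x) * pol (fun i => r (c (f i))) (r x) +
    r (z.b.eval₂ c x) * dpol (fun i => r (c (f i))) (r x) = 1 := by
  have := congrArg r (z.ev c x)
  rw [map_add, map_mul, map_mul, map_one, pol_map, dpol_map] at this
  exact this

theorem om_rel (rel : y ^ 2 = pol (fun i => c (f i)) x) :
    r y ^ 2 = pol (fun i => r (c (f i))) (r x) := by
  rw [← map_pow, rel, pol_map]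

theorem om_der (rel : y ^ 2 = pol (fun i => c (f i)) x) (h : DerA c r δ) :
    2 * r y * δ y = dpol (fun i => r (c (f i))) (r x) * δ x := by
  rw [← h.sq, rel, h.pol]

theorem om_spec (rel : y ^ 2 = pol (fun i => c (f i)) x) (z : Bz f) (h : DerA c r δ) :
    r y * om z c x y r δ = δ x ∧
      dpol (fun i => r (c (f i))) (r x) * om z c x y r δ = 2 * δ y := by
  have h1 := form_mul (om_rel (r := r) rel) (om_der rel h) (om_bz (r := r) (c := c) (x := x) z)
  have h2 : om z c x y r δ = r (z.a.eval₂ c x) * r y * δ x + 2 * r (z.b.eval₂ c x) * δ y := by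
    rw [om, map_mul, map_mul, map_ofNat]
  rw [h2]
  exact h1

theorem om_eq (rel : y ^ 2 = pol (fun i => c (f i)) x) (z : Bz f) {ω : R'}
    (h1 : r y * ω = δ x) (h2 : dpol (fun i => r (c (f i))) (r x) * ω = 2 * δ y) :
    ω = om z c x y r δ := by
  have h3 : om z c x y r δ = r (z.a.eval₂ c x) * r y * δ x + 2 * r (z.b.eval₂ c x) * δ y := by
    rw [om, map_mul, map_mul, map_ofNat]
  rw [h3]
  exact form_eq (om_rel (r := r) rel) (om_bz (r := r) (c := c) (x := x) z) h1 h2

end om

section

variable {B : Type} [CommRing B] {f : Fin 7 → B}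

/-- The factor of the forms. -/
noncomputable def fc (f : Fin 7 → B) : Bool → ∀ i, hR f i
  | true, .T => 1
  | false, .T => - x1 B f
  | true, .N => 1
  | false, .N => - (xu B f : A12 B f)
  | true, .Q => - x1 B (rev f)
  | false, .Q => 1

/-- The value of the form on the charts. -/
noncomputable def omc (o : HOk f) : ∀ i, ∀ {R' : Type} [CommRing R'], (hR f i →+* R') →
    (hR f i → R') → R'
  | .T => fun r δ => om o.z (algebraMap B (A1 B f)) (x1 B f) (y1 B f) r δ
  | .N => fun r δ => om o.z (algebraMap B (A12 B f)) (xu B f : A12 B f) (yv B f) r δ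
  | .Q => fun r δ => om o.z' (algebraMap B (A1 B (rev f))) (x1 B (rev f)) (y1 B (rev f)) r δ

theorem hsum (o : HOk f) (k : Bool) (i : Ct) {R' : Type} [CommRing R'] (r : hR f i →+* R')
    (δ : hR f i → R') :
    ∑ j, r (hp o k i j) * δ (hq f i j) = r (fc f k i) * omc o i r δ := by
  cases k <;> cases i <;>
    simp only [hp, hq, fc, omc, om, Fin.sum_univ_two, Matrix.cons_val_zero, Matrix.cons_val_one,
      map_mul, map_neg, map_one, map_ofNat] <;> ring

end


section

variable {B B' : Type} [CommRing B] [CommRing B'] {φ : B →+* B'} {f : Fin 7 → B}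
  {f' : Fin 7 → B'}

theorem DerA.pre {R R₁ R' : Type} [CommRing R] [CommRing R₁] [CommRing R'] {c' : B' →+* R}
    {r : R →+* R'} {δ : R → R'} (h : DerA c' r δ) (c : B →+* R₁) (g : R₁ →+* R)
    (hc : ∀ b, g (c b) = c' (φ b)) : DerA c (r.comp g) (fun v => δ (g v)) where
  add a b := by rw [map_add, h.add]
  mul a b := by rw [map_mul, h.mul]; rfl
  const b := by rw [hc, h.const]

/-- Ring maps of the charts over `φ`. -/
structure HH (φ : B →+* B') (f : Fin 7 → B) (f' : Fin 7 → B') where
  /-- charts -/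
  g : ∀ i, hR f i →+* hR f' i
  gc : ∀ i b, g i (hc f i b) = hc f' i (φ b)
  /-- the edge at infinity -/
  gE : A12 B (rev f) →+* A12 B' (rev f')
  e1 : ∀ v, g .N (g1 B f v) = g1 B' f' (g .T v)
  e2 : ∀ v, gE (g1 B (rev f) v) = g1 B' (rev f') (g .Q v)
  e3 : ∀ v, gE (inv12 (rev_h' f) v) = inv12 (rev_h' f') (g .N v)

/-- The edges. -/
noncomputable def HH.ge (h : HH φ f f') : ∀ e : Bool, hRE f e →+* hRE f' e
  | true => h.g .N
  | false => h.gE

/-- The pull backs of the forms. -/
def HH.Om (h : HH φ f f') (o : HOk f) (o' : HOk f') (c : Bool → Bool → B') : Prop :=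
  ∀ k i (R' : Type) [CommRing R'] (r : hR f' i →+* R') (δ : hR f' i → R'),
    DerA (hc f' i) r δ → r (fc f' k i) * omc o' i r δ =
      (r (hc f' i (c k true)) * r (h.g i (fc f true i)) +
        r (hc f' i (c k false)) * r (h.g i (fc f false i))) *
        omc o i (r.comp (h.g i)) (fun v => δ (h.g i v))

/-- The morphism of ring level form data. -/
noncomputable def HH.rmap (h : HH φ f f') (o : HOk f) (o' : HOk f') (c : Bool → Bool → B')
    (hom : h.Om o o' c) : RMap φ (hRF o') (hRF o) c where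
  κ := fun i => i
  lam := fun e => e
  hs _ := rfl
  ht _ := rfl
  g := h.g
  gE := h.ge
  form k' i R' _ r δ hδ := by
    have h1 := hom k' i R' r δ hδ
    have h2 := hsum o' k' i r δ
    have h3 := hsum o true i (r.comp (h.g i)) (fun v => δ (h.g i v))
    have h4 := hsum o false i (r.comp (h.g i)) (fun v => δ (h.g i v))
    have h5 : ∑ k : Bool, r (hc f' i (c k' k)) *
        ∑ j, (r.comp (h.g i)) (hp o k i j) * δ (h.g i (hq f i j)) =
        r (hc f' i (c k' true)) * (∑ j, (r.comp (h.g i)) (hp o true i j) * δ (h.g i (hq f i j))) +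
        r (hc f' i (c k' false)) *
          (∑ j, (r.comp (h.g i)) (hp o false i j) * δ (h.g i (hq f i j))) := Fintype.sum_bool _
    refine (h2.trans (h1.trans ?_)).trans h5.symm
    have key : ∀ a b c d w : R', (a * b + c * d) * w = a * (b * w) + c * (d * w) := by
      intro a b c d w
      ring
    exact (key _ _ _ _ _).trans (congrArg₂ (· + ·) (congrArg _ h3.symm) (congrArg _ h4.symm))

end


section ch

variable {B B' : Type} [CommRing B] [CommRing B'] {φ : B →+* B'} {f : Fin 7 → B}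
  {f' : Fin 7 → B'} {R R₁ R' : Type} [CommRing R] [CommRing R₁] [CommRing R'] {c : B →+* R}
  {c' : B' →+* R₁} {x y : R} {x' y' : R₁} {r : R₁ →+* R'} {δ : R₁ → R'}

theorem om_pull (rel : y ^ 2 = pol (fun i => c (f i)) x) (z : Bz f) (h : DerA c' r δ)
    (G : R →+* R₁) (hc : ∀ b, G (c b) = c' (φ b)) :
    r (G y) * om z c x y (r.comp G) (fun v => δ (G v)) = δ (G x) ∧
      dpol (fun i => r (c' (φ (f i)))) (r (G x)) * om z c x y (r.comp G) (fun v => δ (G v)) =
        2 * δ (G y) := by
  have h1 := om_spec rel z (h.pre c G hc)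
  simp only [RingHom.comp_apply, hc] at h1
  exact h1

/-- Base change. -/
theorem om_bc (rel : y ^ 2 = pol (fun i => c (f i)) x) (z : Bz f)
    (rel' : y' ^ 2 = pol (fun i => c' (f' i)) x') (z' : Bz f') (h : DerA c' r δ)
    (G : R →+* R₁) (hc : ∀ b, G (c b) = c' (φ b)) (hf : ∀ i, f' i = φ (f i)) (hx : G x = x')
    (hy : G y = y') :
    om z' c' x' y' r δ = om z c x y (r.comp G) (fun v => δ (G v)) := by
  obtain ⟨h1, h2⟩ := om_pull rel z h G hc
  refine (om_eq rel' z' ?_ ?_).symm
  · rw [← hy, ← hx]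
    exact h1
  · rw [← hy, ← hx]
    simp only [hf]
    exact h2

theorem dpol_sc {R : Type} [CommRing R] {lam nu : R} {f f' : Fin 7 → R}
    (h : ∀ i : Fin 7, nu ^ 2 * f' i = lam ^ (i : ℕ) * f i) (x : R) :
    nu ^ 2 * dpol f' x = lam * dpol f (lam * x) := by
  have h1 := h 1
  have h2 := h 2
  have h3 := h 3
  have h4 := h 4
  have h5 := h 5
  have h6 := h 6
  simp only [Fin.val_one, pow_one, show ((2 : Fin 7) : ℕ) = 2 from rfl,
    show ((3 : Fin 7) : ℕ) = 3 from rfl, show ((4 : Fin 7) : ℕ) = 4 from rfl,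
    show ((5 : Fin 7) : ℕ) = 5 from rfl, show ((6 : Fin 7) : ℕ) = 6 from rfl]
    at h1 h2 h3 h4 h5 h6
  simp only [dpol]
  linear_combination h1 + 2 * x * h2 + 3 * x ^ 2 * h3 + 4 * x ^ 3 * h4 + 5 * x ^ 4 * h5 +
    6 * x ^ 5 * h6

/-- Scaling. -/
theorem om_sc {f' : Fin 7 → B} {c' : B →+* R₁} (rel : y ^ 2 = pol (fun i => c (f i)) x) (z : Bz f)
    (rel' : y' ^ 2 = pol (fun i => c' (f' i)) x') (z' : Bz f') (h : DerA c' r δ)
    (G : R →+* R₁) (hc : ∀ b, G (c b) = c' b) {lam lami nu nui : B} (hl : lam * lami = 1)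
    (hn : nu * nui = 1) (hf : ∀ i : Fin 7, nu ^ 2 * f' i = lam ^ (i : ℕ) * f i)
    (hx : G x = c' lam * x') (hy : G y = c' nu * y') :
    om z' c' x' y' r δ = r (c' (nu * lami)) * om z c x y (r.comp G) (fun v => δ (G v)) := by
  obtain ⟨h1, h2⟩ := om_pull (φ := RingHom.id B) rel z h G hc
  set w := om z c x y (r.comp G) (fun v => δ (G v)) with hw
  have hl' : r (c' lam) * r (c' lami) = 1 := by rw [← map_mul, ← map_mul, hl, map_one, map_one]
  have hn' : r (c' nu) * r (c' nui) = 1 := by rw [← map_mul, ← map_mul, hn, map_one, map_one]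
  rw [hx, hy] at h1 h2
  rw [h.cmul, map_mul] at h1
  rw [h.cmul, map_mul] at h2
  simp only [RingHom.id_apply] at h2
  have h3 := dpol_sc (lam := r (c' lam)) (nu := r (c' nu)) (f := fun i => r (c' (f i)))
    (f' := fun i => r (c' (f' i))) (fun i => by
      rw [← map_pow, ← map_pow, ← map_pow, ← map_pow, ← map_mul, ← map_mul, ← map_mul, ← map_mul,
        hf i]) (r x')
  refine (om_eq rel' z' ?_ ?_).symm
  · rw [map_mul, map_mul]
    linear_combination (r (c' lami)) * h1 + δ x' * hl'
  · rw [map_mul, map_mul]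
    have e1 : r (c' nu) * dpol (fun i => r (c' (f' i))) (r x') =
        r (c' nui) * r (c' lam) * dpol (fun i => r (c' (f i))) (r (c' lam) * r x') := by
      linear_combination (r (c' nui)) * h3 - (r (c' nu) * dpol (fun i => r (c' (f' i))) (r x')) * hn'
    linear_combination (r (c' lami) * w) * e1 +
      (r (c' nui) * dpol (fun i => r (c' (f i))) (r (c' lam) * r x') * w) * hl' +
      (r (c' nui)) * h2 + (2 * δ y') * hn'

end ch


/-! ### Base change -/

section bc

variable {B B' : Type} [CommRing B] [CommRing B'] (φ : B →+* B') {f : Fin 7 → B}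
  {f' : Fin 7 → B'} (hf : ∀ i, f' i = φ (f i))

theorem bc12_inv (v : A12 B f) : bc12 φ (rev_bc φ hf) (inv12 (rev_h' f) v) =
    inv12 (rev_h' f') (bc12 φ hf v) := by
  have : (bc12 φ (rev_bc φ hf)).comp (inv12 (rev_h' f)) =
      (inv12 (rev_h' f')).comp (bc12 φ hf) := by
    refine hom12_ext ?_ ?_ ?_
    · intro c
      simp
    · simp
    · simp only [RingHom.comp_apply, inv12_y, map_mul, bc12_y, Units.val_pow_eq_pow_val, map_pow,
        bc12_xi]
  exact congrArg (fun g => g v) this

/-- Base change. -/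
noncomputable def hhBC : HH φ f f' where
  g := fun i => match i with
    | .T => bc1 φ hf
    | .N => bc12 φ hf
    | .Q => bc1 φ (rev_bc φ hf)
  gc := fun i => match i with
    | .T => bc1_b φ hf
    | .N => bc12_b φ hf
    | .Q => bc1_b φ (rev_bc φ hf)
  gE := bc12 φ (rev_bc φ hf)
  e1 := bc12_g1 φ hf
  e2 := bc12_g1 φ (rev_bc φ hf)
  e3 := bc12_inv φ hf

/-- The factors of the forms. -/
abbrev cbc (B : Type) [CommRing B] : Bool → Bool → B := fun k' k => if k = k' then 1 else 0

/-- Base change of the forms. -/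
theorem omBC (o : HOk f) (o' : HOk f') : (hhBC φ hf).Om o o' (cbc B') := by
    intro k i R' _ r δ hδ
    have hfc : ∀ k, (hhBC φ hf).g i (fc f k i) = fc f' k i := by
      intro k
      cases k <;> cases i
      · change bc1 φ hf (-x1 B f) = -x1 B' f'
        rw [map_neg, bc1_x]
      · change bc12 φ hf (-(xu B f : A12 B f)) = -(xu B' f' : A12 B' f')
        rw [map_neg, bc12_x]
      · exact map_one _
      · exact map_one _
      · exact map_one _
      · change bc1 φ (rev_bc φ hf) (-x1 B (rev f)) = -x1 B' (rev f')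
        rw [map_neg, bc1_x]
    have hom : omc o' i r δ =
        omc o i (r.comp ((hhBC φ hf).g i)) (fun v => δ ((hhBC φ hf).g i v)) := by
      cases i
      · exact om_bc (rel1 B f) o.z (rel1 B' f') o'.z hδ (bc1 φ hf) (bc1_b φ hf) hf (bc1_x φ hf)
          (bc1_y φ hf)
      · exact om_bc (rel12 B f) o.z (rel12 B' f') o'.z hδ (bc12 φ hf) (bc12_b φ hf) hf
          (bc12_x φ hf) (bc12_y φ hf)
      · exact om_bc (rel1 B (rev f)) o.z' (rel1 B' (rev f')) o'.z' hδ (bc1 φ (rev_bc φ hf))
          (bc1_b φ (rev_bc φ hf)) (rev_bc φ hf) (bc1_x φ (rev_bc φ hf)) (bc1_y φ (rev_bc φ hf))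
    rw [hom, hfc, hfc]
    have key : ∀ a b w : R', a * w = (r (hc f' i 1) * a + r (hc f' i 0) * b) * w := by
      intro a b w
      rw [map_one, map_one, map_zero, map_zero]
      ring
    have key' : ∀ a b w : R', b * w = (r (hc f' i 0) * a + r (hc f' i 1) * b) * w := by
      intro a b w
      rw [map_one, map_one, map_zero, map_zero]
      ring
    cases k
    · exact key' _ _ _
    · exact key _ _ _

end bc


/-! ### Scaling -/

section sc

variable {B : Type} [CommRing B] {lam nu : Bˣ} {f f' : Fin 7 → B}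
  (h : IsSc (lam : B) (nu : B) f f')

theorem sc12_inv (v : A12 B f) : sc12 h.rev (inv12 (rev_h' f) v) =
    inv12 (rev_h' f') (sc12 h v) := by
  have : (sc12 h.rev).comp (inv12 (rev_h' f)) = (inv12 (rev_h' f')).comp (sc12 h) := by
    refine hom12_ext ?_ ?_ ?_
    · intro c
      simp
    · simp only [RingHom.comp_apply, inv12_x, sc12_xi, sc12_x, map_mul, inv12_b, inv_inv]
    · simp only [RingHom.comp_apply, inv12_y, map_mul, sc12_y, Units.val_pow_eq_pow_val, map_pow,
        sc12_xi, inv12_b, inv_inv]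
      have h1 : (algebraMap B (A12 B (rev f')) ((lam⁻¹ : Bˣ) : B)) *
          algebraMap B (A12 B (rev f')) (lam : B) = 1 := by
        rw [← map_mul, Units.inv_mul, map_one]
      have h2 : (algebraMap B (A12 B (rev f')) ((lam⁻¹ : Bˣ) : B)) ^ 3 *
          (algebraMap B (A12 B (rev f')) (lam : B)) ^ 3 = 1 := by
        rw [← mul_pow, h1, one_pow]
      linear_combination (algebraMap B (A12 B (rev f')) (nu : B) * yv B (rev f') *
        (((xu B (rev f'))⁻¹ : (A12 B (rev f'))ˣ) : A12 B (rev f')) ^ 3) * h2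
  exact congrArg (fun g => g v) this

/-- Scaling. -/
noncomputable def hhSC : HH (RingHom.id B) f f' where
  g := fun i => match i with
    | .T => sc1 h
    | .N => sc12 h
    | .Q => sc1 h.rev
  gc := fun i => match i with
    | .T => sc1_b h
    | .N => sc12_b h
    | .Q => sc1_b h.rev
  gE := sc12 h.rev
  e1 := sc12_g1 h
  e2 := sc12_g1 h.rev
  e3 := sc12_inv h

/-- The factors of the forms. -/
noncomputable abbrev csc (lam nu : Bˣ) : Bool → Bool → B := fun k' k =>
  if k = k' then (if k then ((nu * lam⁻¹ : Bˣ) : B) else ((nu * lam⁻¹ ^ 2 : Bˣ) : B)) else 0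

/-- Scaling of the forms. -/
theorem omSC (o : HOk f) (o' : HOk f') : (hhSC h).Om o o' (csc lam nu) := by
    intro k i R' _ r δ hδ
    have e1 : (lam : B) * ((lam⁻¹ : Bˣ) : B) = 1 := Units.mul_inv _
    have e2 : (nu : B) * ((nu⁻¹ : Bˣ) : B) = 1 := Units.mul_inv _
    have e3 : ((lam⁻¹ : Bˣ) : B) * (lam : B) = 1 := Units.inv_mul _
    have hT : ∀ {R' : Type} [CommRing R'] (r : A1 B f' →+* R') (δ : A1 B f' → R'),
        DerA (algebraMap B (A1 B f')) r δ → om o'.z (algebraMap B (A1 B f')) (x1 B f') (y1 B f') r δ =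
          r (algebraMap B (A1 B f') ((nu : B) * ((lam⁻¹ : Bˣ) : B))) * om o.z (algebraMap B (A1 B f))
          (x1 B f) (y1 B f) (r.comp (sc1 h)) (fun v => δ (sc1 h v)) := fun r δ hδ =>
      om_sc (rel1 B f) o.z (rel1 B f') o'.z hδ (sc1 h) (sc1_b h) e1 e2 h (sc1_x h) (sc1_y h)
    have hN : ∀ {R' : Type} [CommRing R'] (r : A12 B f' →+* R') (δ : A12 B f' → R'),
        DerA (algebraMap B (A12 B f')) r δ → om o'.z (algebraMap B (A12 B f')) (xu B f' : A12 B f')
          (yv B f') r δ = r (algebraMap B (A12 B f') ((nu : B) * ((lam⁻¹ : Bˣ) : B))) *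
          om o.z (algebraMap B (A12 B f)) (xu B f : A12 B f) (yv B f) (r.comp (sc12 h))
            (fun v => δ (sc12 h v)) := fun r δ hδ =>
      om_sc (rel12 B f) o.z (rel12 B f') o'.z hδ (sc12 h) (sc12_b h) e1 e2 h (sc12_x h) (sc12_y h)
    have hQ : ∀ {R' : Type} [CommRing R'] (r : A1 B (rev f') →+* R') (δ : A1 B (rev f') → R'),
        DerA (algebraMap B (A1 B (rev f'))) r δ → om o'.z' (algebraMap B (A1 B (rev f')))
          (x1 B (rev f')) (y1 B (rev f')) r δ =
          r (algebraMap B (A1 B (rev f')) (((nu * lam⁻¹ ^ 3 : Bˣ) : B) * (lam : B))) *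
          om o.z' (algebraMap B (A1 B (rev f))) (x1 B (rev f)) (y1 B (rev f))
            (r.comp (sc1 h.rev)) (fun v => δ (sc1 h.rev v)) := fun r δ hδ =>
      om_sc (rel1 B (rev f)) o.z' (rel1 B (rev f')) o'.z' hδ (sc1 h.rev) (sc1_b h.rev) e3
        (Units.mul_inv (nu * lam⁻¹ ^ 3)) (by
          intro i
          have := h.rev i
          rw [← Units.val_mul] at this
          exact this) (sc1_x h.rev) ((sc1_y h.rev).trans (by rw [Units.val_mul]))
    have u1 : ((nu * lam⁻¹ ^ 2 : Bˣ) : B) * (lam : B) = (nu : B) * ((lam⁻¹ : Bˣ) : B) := by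
      push_cast
      linear_combination ((nu : B) * ((lam⁻¹ : Bˣ) : B)) * e3
    have u2 : ((nu * lam⁻¹ ^ 3 : Bˣ) : B) * (lam : B) = ((nu * lam⁻¹ ^ 2 : Bˣ) : B) := by
      push_cast
      linear_combination ((nu : B) * ((lam⁻¹ : Bˣ) : B) ^ 2) * e3
    have u3 : ((nu * lam⁻¹ : Bˣ) : B) * ((lam⁻¹ : Bˣ) : B) = ((nu * lam⁻¹ ^ 3 : Bˣ) : B) * (lam : B) := by
      rw [u2]
      push_cast
      ring
    cases k <;> cases i
    · -- false T
      change r (-x1 B f') * om o'.z (algebraMap B (A1 B f')) (x1 B f') (y1 B f') r δ =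
        (r (algebraMap B (A1 B f') 0) * r (sc1 h 1) +
          r (algebraMap B (A1 B f') ((nu * lam⁻¹ ^ 2 : Bˣ) : B)) * r (sc1 h (-x1 B f))) *
          om o.z (algebraMap B (A1 B f)) (x1 B f) (y1 B f) (r.comp (sc1 h))
            (fun v => δ (sc1 h v))
      rw [hT r δ hδ, ← u1]
      simp only [map_neg, sc1_x, map_mul, map_zero]
      ring
    · -- false N
      change r (-(xu B f' : A12 B f')) * om o'.z (algebraMap B (A12 B f')) (xu B f' : A12 B f')
          (yv B f') r δ =
        (r (algebraMap B (A12 B f') 0) * r (sc12 h 1) +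
          r (algebraMap B (A12 B f') ((nu * lam⁻¹ ^ 2 : Bˣ) : B)) *
            r (sc12 h (-(xu B f : A12 B f)))) *
          om o.z (algebraMap B (A12 B f)) (xu B f : A12 B f) (yv B f) (r.comp (sc12 h))
            (fun v => δ (sc12 h v))
      rw [hN r δ hδ, ← u1]
      simp only [map_neg, sc12_x, map_mul, map_zero]
      ring
    · -- false Q
      change r 1 * om o'.z' (algebraMap B (A1 B (rev f'))) (x1 B (rev f')) (y1 B (rev f')) r δ =
        (r (algebraMap B (A1 B (rev f')) 0) * r (sc1 h.rev (-x1 B (rev f))) +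
          r (algebraMap B (A1 B (rev f')) ((nu * lam⁻¹ ^ 2 : Bˣ) : B)) * r (sc1 h.rev 1)) *
          om o.z' (algebraMap B (A1 B (rev f))) (x1 B (rev f)) (y1 B (rev f))
            (r.comp (sc1 h.rev)) (fun v => δ (sc1 h.rev v))
      rw [hQ r δ hδ, u2]
      simp only [map_one, map_zero]
      ring
    · -- true T
      change r 1 * om o'.z (algebraMap B (A1 B f')) (x1 B f') (y1 B f') r δ =
        (r (algebraMap B (A1 B f') ((nu * lam⁻¹ : Bˣ) : B)) * r (sc1 h 1) +
          r (algebraMap B (A1 B f') 0) * r (sc1 h (-x1 B f))) *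
          om o.z (algebraMap B (A1 B f)) (x1 B f) (y1 B f) (r.comp (sc1 h))
            (fun v => δ (sc1 h v))
      rw [hT r δ hδ, Units.val_mul]
      simp only [map_zero, map_one]
      ring
    · -- true N
      change r 1 * om o'.z (algebraMap B (A12 B f')) (xu B f' : A12 B f')
          (yv B f') r δ =
        (r (algebraMap B (A12 B f') ((nu * lam⁻¹ : Bˣ) : B)) * r (sc12 h 1) +
          r (algebraMap B (A12 B f') 0) * r (sc12 h (-(xu B f : A12 B f)))) *
          om o.z (algebraMap B (A12 B f)) (xu B f : A12 B f) (yv B f) (r.comp (sc12 h))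
            (fun v => δ (sc12 h v))
      rw [hN r δ hδ, Units.val_mul]
      simp only [map_zero, map_one]
      ring
    · -- true Q
      change r (-x1 B (rev f')) * om o'.z' (algebraMap B (A1 B (rev f'))) (x1 B (rev f'))
          (y1 B (rev f')) r δ =
        (r (algebraMap B (A1 B (rev f')) ((nu * lam⁻¹ : Bˣ) : B)) *
            r (sc1 h.rev (-x1 B (rev f))) +
          r (algebraMap B (A1 B (rev f')) 0) * r (sc1 h.rev 1)) *
          om o.z' (algebraMap B (A1 B (rev f))) (x1 B (rev f)) (y1 B (rev f))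
            (r.comp (sc1 h.rev)) (fun v => δ (sc1 h.rev v))
      rw [hQ r δ hδ, ← u3]
      simp only [map_neg, sc1_x, map_mul, map_zero]
      ring

end sc

end Pool.Agent.MG.H2
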