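import Pool.Agent.MG.H2.HMap
import Pool.Agent.MG.H2.HTran

/-!
# Comparison of the forms: infinitesimal translation and swap
-/

open CategoryTheory CategoryTheory.Limits AlgebraicGeometry TensorProduct

namespace Pool.Agent.MG.H2

section ch

variable {B : Type} [CommRing B] {f f' : Fin 7 → B} {R R₁ R' : Type} [CommRing R] [CommRing R₁]
  [CommRing R'] {c : B →+* R} {c' : B →+* R₁} {x y : R} {x' y' : R₁} {r : R₁ →+* R'} {δ : R₁ → R'}
  {e : B}

/-- Translation. -/
theorem om_tr (rel : y ^ 2 = pol (fun i => c (f i)) x) (z : Bz f)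
    (rel' : y' ^ 2 = pol (fun i => c' (f' i)) x') (z' : Bz f') (h : DerA c' r δ)
    (G : R →+* R₁) (hc : ∀ b, G (c b) = c' b) (he : e * e = 0) (hf : IsTr e f f')
    (hx : G x = x' + c' e) (hy : G y = y') :
    om z' c' x' y' r δ = om z c x y (r.comp G) (fun v => δ (G v)) := by
  obtain ⟨h1, h2⟩ := om_pull (φ := RingHom.id B) rel z h G hc
  rw [hx, hy] at h1 h2
  rw [h.add, h.const, add_zero] at h1
  simp only [RingHom.id_apply] at h2
  refine (om_eq rel' z' h1 ?_).symm
  have h3 := dpol_tr (alg_sq (r.comp c') he) (hf.map (r.comp c')) (r x')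
  simp only [RingHom.comp_apply] at h3
  rw [h3, ← map_add]
  exact h2

/-- Translation in the coordinates at infinity. -/
theorem om_trq (rel : y ^ 2 = pol (fun i => c (rev f i)) x) (z : Bz (rev f))
    (rel' : y' ^ 2 = pol (fun i => c' (rev f' i)) x') (z' : Bz (rev f')) (h : DerA c' r δ)
    (G : R →+* R₁) (hc : ∀ b, G (c b) = c' b) (he : e * e = 0) (hf : IsTr e f f')
    (hx : G x = x' - c' e * x' ^ 2) (hy : G y = (1 - 3 * c' e * x') * y') :
    om z' c' x' y' r δ = r (1 - c' e * x') * om z c x y (r.comp G) (fun v => δ (G v)) := by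
  obtain ⟨h1, h2⟩ := om_pull (φ := RingHom.id B) rel z h G hc
  set w := om z c x y (r.comp G) (fun v => δ (G v)) with hw
  have hsq : r (c' e) * r (c' e) = 0 := alg_sq (r.comp c') he
  have d1 : δ (x' - c' e * x' ^ 2) = (1 - 2 * r (c' e) * r x') * δ x' := by
    have : δ (x' - c' e * x' ^ 2) = δ (x' + c' (-e) * x' ^ 2) := by
      rw [map_neg]
      congr 1
      ring
    rw [this, h.add, h.cmul, h.sq, map_neg, map_neg]
    ring
  have d2 : δ ((1 - 3 * c' e * x') * y') = (1 - 3 * r (c' e) * r x') * δ y' -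
      3 * r (c' e) * r y' * δ x' := by
    have : (1 - 3 * c' e * x') * y' = c' 1 * y' + c' (-3 * e) * (x' * y') := by
      rw [map_one, map_mul, map_neg, map_ofNat]
      ring
    rw [this, h.add, h.cmul, h.cmul, h.mul, map_one, map_one, map_mul, map_mul, map_neg, map_neg,
      map_ofNat, map_ofNat]
    ring
  rw [hx, hy, d1, map_mul, map_sub, map_one, map_mul, map_mul, map_ofNat] at h1
  rw [hx, hy, d2] at h2
  simp only [RingHom.id_apply, map_sub, map_mul, map_pow] at h2
  have h3 := dpol_trq (alg_sq (r.comp c') he) (hf.map (r.comp c')) (r x')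
  have h4 : ∀ g : Fin 7 → B, rev (fun i => (r.comp c') (g i)) = fun i => r (c' (rev g i)) :=
    fun g => rfl
  rw [h4, h4] at h3
  simp only [RingHom.comp_apply] at h3
  have h5 := om_rel (r := r) rel'
  have h6 := om_der rel' h
  have k1 : r y' * (r (1 - c' e * x') * w) = δ x' := by
    rw [map_sub, map_one, map_mul]
    linear_combination (1 + 2 * r (c' e) * r x') * h1 +
      (-4 * r x' ^ 2 * δ x' + 6 * r x' ^ 2 * r y' * w) * hsq
  refine (om_eq rel' z' k1 ?_).symm
  rw [map_sub, map_one, map_mul]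
  rw [map_sub, map_one, map_mul] at k1
  set E := r (c' e) with hE
  set X := r x' with hX
  set Y := r y' with hY
  set D := dpol (fun i => r (c' (rev f' i))) X with hD
  set D0 := dpol (fun i => r (c' (rev f i))) (X - E * X ^ 2) with hD0
  -- h3 : (1 - 6 E X) D - 6 E Y^2 = (1 - 2 E X) D0 ; h2 : D0 w = 2 ((1 - 3 E X) δy - 3 E Y δx)
  have h7 : (1 - 6 * E * X) * D - 6 * E * Y ^ 2 = (1 - 2 * E * X) * D0 := by
    rw [h5]
    exact h3
  linear_combination ((1 + 6 * E * X) * (1 - E * X) * w) * h7 + (1 + 3 * E * X) * h2 +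
    (6 * E * Y) * k1 + (36 * X ^ 2 * (1 - E * X) * w * D + 6 * (5 * X - 6 * E * X ^ 2) * Y ^ 2 * w +
      6 * X * Y ^ 2 * w - 18 * X ^ 2 * δ y' - 18 * X * Y * δ x' +
      (-16 * X ^ 2 + 12 * E * X ^ 3) * w * D0) * hsq

end ch

section tr

variable {B : Type} [CommRing B] {e : B} {f f' : Fin 7 → B} (he : e * e = 0) (h : IsTr e f f')

/-- Translation. -/
noncomputable def hhTR : HH (RingHom.id B) f f' where
  g := fun i => match i with
    | .T => tr1 he h
    | .N => tr12 he h
    | .Q => trq he h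
  gc := fun i => match i with
    | .T => tr1_b he h
    | .N => tr12_b he h
    | .Q => trq_b he h
  gE := trE he h
  e1 := tr12_g1 he h
  e2 := trE_g1 he h
  e3 := trE_inv he h

/-- The factors of the forms: `θ₁' = θ₁`, `θ₂' = θ₂ + e θ₁`. -/
abbrev ctr (e : B) : Bool → Bool → B := fun k' k =>
  if k = k' then 1 else if k then e else 0

/-- Translation of the forms. -/
theorem omTR (o : HOk f) (o' : HOk f') : (hhTR he h).Om o o' (ctr e) := by
    intro k i R' _ r δ hδ
    have hT : ∀ {R' : Type} [CommRing R'] (r : A1 B f' →+* R') (δ : A1 B f' → R'),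
        DerA (algebraMap B (A1 B f')) r δ → om o'.z (algebraMap B (A1 B f')) (x1 B f') (y1 B f') r δ =
          om o.z (algebraMap B (A1 B f))
          (x1 B f) (y1 B f) (r.comp (tr1 he h)) (fun v => δ (tr1 he h v)) := fun r δ hδ =>
      om_tr (rel1 B f) o.z (rel1 B f') o'.z hδ (tr1 he h) (tr1_b he h) he h (tr1_x he h)
        (tr1_y he h)
    have hN : ∀ {R' : Type} [CommRing R'] (r : A12 B f' →+* R') (δ : A12 B f' → R'),
        DerA (algebraMap B (A12 B f')) r δ → om o'.z (algebraMap B (A12 B f')) (xu B f' : A12 B f')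
          (yv B f') r δ =
          om o.z (algebraMap B (A12 B f)) (xu B f : A12 B f) (yv B f) (r.comp (tr12 he h))
            (fun v => δ (tr12 he h v)) := fun r δ hδ =>
      om_tr (rel12 B f) o.z (rel12 B f') o'.z hδ (tr12 he h) (tr12_b he h) he h (tr12_x he h)
        (tr12_y he h)
    have hQ : ∀ {R' : Type} [CommRing R'] (r : A1 B (rev f') →+* R') (δ : A1 B (rev f') → R'),
        DerA (algebraMap B (A1 B (rev f'))) r δ → om o'.z' (algebraMap B (A1 B (rev f')))
          (x1 B (rev f')) (y1 B (rev f')) r δ =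
          r (1 - algebraMap B (A1 B (rev f')) e * x1 B (rev f')) *
          om o.z' (algebraMap B (A1 B (rev f))) (x1 B (rev f)) (y1 B (rev f))
            (r.comp (trq he h)) (fun v => δ (trq he h v)) := fun r δ hδ =>
      om_trq (rel1 B (rev f)) o.z' (rel1 B (rev f')) o'.z' hδ (trq he h) (trq_b he h) he h
        (trq_x he h) (trq_y he h)
    cases k <;> cases i
    · -- false T
      change r (-x1 B f') * om o'.z (algebraMap B (A1 B f')) (x1 B f') (y1 B f') r δ =
        (r (algebraMap B (A1 B f') e) * r (tr1 he h 1) +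
          r (algebraMap B (A1 B f') 1) * r (tr1 he h (-x1 B f))) *
          om o.z (algebraMap B (A1 B f)) (x1 B f) (y1 B f) (r.comp (tr1 he h))
            (fun v => δ (tr1 he h v))
      rw [hT r δ hδ]
      simp only [map_neg, tr1_x, map_one, map_add]
      ring
    · -- false N
      change r (-(xu B f' : A12 B f')) * om o'.z (algebraMap B (A12 B f')) (xu B f' : A12 B f')
          (yv B f') r δ =
        (r (algebraMap B (A12 B f') e) * r (tr12 he h 1) +
          r (algebraMap B (A12 B f') 1) * r (tr12 he h (-(xu B f : A12 B f)))) *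
          om o.z (algebraMap B (A12 B f)) (xu B f : A12 B f) (yv B f) (r.comp (tr12 he h))
            (fun v => δ (tr12 he h v))
      rw [hN r δ hδ]
      simp only [map_neg, tr12_x, map_one, map_add]
      ring
    · -- false Q
      change r 1 * om o'.z' (algebraMap B (A1 B (rev f'))) (x1 B (rev f')) (y1 B (rev f')) r δ =
        (r (algebraMap B (A1 B (rev f')) e) * r (trq he h (-x1 B (rev f))) +
          r (algebraMap B (A1 B (rev f')) 1) * r (trq he h 1)) *
          om o.z' (algebraMap B (A1 B (rev f))) (x1 B (rev f)) (y1 B (rev f))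
            (r.comp (trq he h)) (fun v => δ (trq he h v))
      have hsq : r (algebraMap B (A1 B (rev f')) e) * r (algebraMap B (A1 B (rev f')) e) = 0 :=
        alg_sq (r.comp (algebraMap B (A1 B (rev f')))) he
      rw [hQ r δ hδ]
      simp only [map_neg, trq_x, map_one, map_mul, map_sub, map_pow]
      linear_combination (-(r (x1 B (rev f')) ^ 2) *
        om o.z' (algebraMap B (A1 B (rev f))) (x1 B (rev f)) (y1 B (rev f))
            (r.comp (trq he h)) (fun v => δ (trq he h v))) * hsq
    · -- true T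
      change r 1 * om o'.z (algebraMap B (A1 B f')) (x1 B f') (y1 B f') r δ =
        (r (algebraMap B (A1 B f') 1) * r (tr1 he h 1) +
          r (algebraMap B (A1 B f') 0) * r (tr1 he h (-x1 B f))) *
          om o.z (algebraMap B (A1 B f)) (x1 B f) (y1 B f) (r.comp (tr1 he h))
            (fun v => δ (tr1 he h v))
      rw [hT r δ hδ]
      simp only [map_zero, map_one]
      ring
    · -- true N
      change r 1 * om o'.z (algebraMap B (A12 B f')) (xu B f' : A12 B f')
          (yv B f') r δ =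
        (r (algebraMap B (A12 B f') 1) * r (tr12 he h 1) +
          r (algebraMap B (A12 B f') 0) * r (tr12 he h (-(xu B f : A12 B f)))) *
          om o.z (algebraMap B (A12 B f)) (xu B f : A12 B f) (yv B f) (r.comp (tr12 he h))
            (fun v => δ (tr12 he h v))
      rw [hN r δ hδ]
      simp only [map_zero, map_one]
      ring
    · -- true Q
      change r (-x1 B (rev f')) * om o'.z' (algebraMap B (A1 B (rev f'))) (x1 B (rev f'))
          (y1 B (rev f')) r δ =
        (r (algebraMap B (A1 B (rev f')) 1) * r (trq he h (-x1 B (rev f))) +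
          r (algebraMap B (A1 B (rev f')) 0) * r (trq he h 1)) *
          om o.z' (algebraMap B (A1 B (rev f))) (x1 B (rev f)) (y1 B (rev f))
            (r.comp (trq he h)) (fun v => δ (trq he h v))
      rw [hQ r δ hδ]
      simp only [map_neg, trq_x, map_mul, map_zero, map_one, map_sub, map_pow]
      ring

end tr

/-! ### Swap -/

section ch

variable {B : Type} [CommRing B] {f f' : Fin 7 → B} {R R₁ R' : Type} [CommRing R] [CommRing R₁]
  [CommRing R'] {c : B →+* R} {c' : B →+* R₁} {x y : R} {x' y' u' : R₁} {r : R₁ →+* R'}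
  {δ : R₁ → R'}

/-- `dx/y = - u du/v`. -/
theorem om_inv (rel : y ^ 2 = pol (fun i => c (f i)) x) (z : Bz f)
    (rel' : y' ^ 2 = pol (fun i => c' (f' i)) x') (z' : Bz f') (h : DerA c' r δ)
    (G : R →+* R₁) (hc : ∀ b, G (c b) = c' b) (hf : ∀ i, f' i = f (Fin.rev i))
    (hu : x' * u' = 1) (hx : G x = u') (hy : G y = y' * u' ^ 3) :
    om z' c' x' y' r δ = - r u' * om z c x y (r.comp G) (fun v => δ (G v)) := by
  obtain ⟨h1, h2⟩ := om_pull (φ := RingHom.id B) rel z h G hc
  have h0 := congrArg G rel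
  rw [map_pow, pol_map] at h0
  simp only [hc] at h0
  rw [hx, hy] at h0 h1 h2
  simp only [RingHom.id_apply] at h2
  set w := om z c x y (r.comp G) (fun v => δ (G v)) with hw
  have ru : r x' * r u' = 1 := by rw [← map_mul, hu, map_one]
  have d0 : r x' * δ u' + r u' * δ x' = 0 := by rw [← h.mul, hu, h.one]
  have d1 : δ x' = - r x' ^ 2 * δ u' := by linear_combination (r x') * d0 - (δ x') * ru
  have d2 : δ (y' * u' ^ 3) = r u' ^ 3 * δ y' + 3 * r y' * r u' ^ 2 * δ u' := by
    have := h.pow u' 2
    norm_num at this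
    rw [h.mul, this, map_pow]
    ring
  rw [d2] at h2
  rw [map_mul, map_pow] at h1
  have h3 := dpol_rev (fun i => r (c' (f' i))) (r x') (r u') ru
  have h4 : rev (fun i => r (c' (f' i))) = fun i => r (c' (f i)) := by
    funext i
    change r (c' (f' (Fin.rev i))) = _
    rw [hf, Fin.rev_rev]
  have h5 := congrArg r h0
  rw [pol_map, map_pow, map_mul, map_pow] at h5
  rw [h4, ← h5] at h3
  refine (om_eq rel' z' ?_ ?_).symm
  · rw [d1]
    linear_combination (-(r x') ^ 2) * h1 + (r y' * r u' * w * (r x' * r u' + 1)) * ru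
  · rw [h3]
    set X := r x'
    set U := r u'
    set Y := r y'
    set D := dpol (fun i => r (c' (f i))) U
    have x2 : X ^ 2 * U ^ 2 = 1 := by rw [← mul_pow, ru, one_pow]
    have x3 : X ^ 3 * U ^ 3 = 1 := by rw [← mul_pow, ru, one_pow]
    have x5 : X ^ 5 * U ^ 5 = 1 := by rw [← mul_pow, ru, one_pow]
    have x4 : X ^ 4 * U ^ 4 = 1 := by rw [← mul_pow, ru, one_pow]
    have e1 : (6 * X ^ 5 * (Y * U ^ 3) ^ 2 - X ^ 4 * D) * (-U * w) =
        -6 * Y * (X ^ 5 * U ^ 5) * (Y * U ^ 2 * w) + X ^ 3 * (X * U) * (D * w) := by ring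
    have e2 : Y * U ^ 2 * w = X * δ u' := by
      linear_combination X * h1 - (Y * U ^ 2 * w) * ru
    rw [e1, e2, x5, ru, h2]
    linear_combination (2 * δ y') * x3 + (6 * X * Y * δ u') * x2

end ch

section sw

variable {B : Type} [CommRing B] {f f' : Fin 7 → B} (h : ∀ i, f' i = f (Fin.rev i))

/-- The swap on the charts. -/
def swc : Ct → Ct
  | .T => .Q
  | .N => .N
  | .Q => .T

/-- The swap on rings. -/
noncomputable def swg : ∀ i, hR f (swc i) →+* hR f' i
  | .T => bc1 (RingHom.id B) (f := rev f) (f' := f') h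
  | .N => inv12 h
  | .Q => bc1 (RingHom.id B) (f := f) (f' := rev f') (fun i => by
      change f' (Fin.rev i) = f i
      rw [h, Fin.rev_rev])

include h in
theorem revh (i : Fin 7) : rev f' i = RingHom.id B (f i) := by
  change f' (Fin.rev i) = f i
  rw [h, Fin.rev_rev]

/-- The swap on the rings of the edges. -/
noncomputable def swgE : ∀ e : Bool, hRE f (!e) →+* hRE f' e
  | true => bc12 (RingHom.id B) (f := rev f) (f' := f') h
  | false => bc12 (RingHom.id B) (f := f) (f' := rev f') (revh h)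

theorem sw_form (o : HOk f) (o' : HOk f') (k' : Bool) (i : Ct) {R' : Type} [CommRing R']
    (r : hR f' i →+* R') (δ : hR f' i → R') (hδ : DerA (hc f' i) r δ) :
    ∑ j, r (hp o' k' i j) * δ (hq f' i j) =
      ∑ k : Bool, r (hc f' i (if k = !k' then 1 else 0)) *
        ∑ j, r (swg h i (hp o k (swc i) j)) * δ (swg h i (hq f (swc i) j)) := by
  have h2 := hsum o' k' i r δ
  have h3 := hsum o (!k') (swc i) (r.comp (swg h i)) (fun v => δ (swg h i v))
  have h5 : ∑ k : Bool, r (hc f' i (if k = !k' then 1 else 0)) *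
      ∑ j, (r.comp (swg h i)) (hp o k (swc i) j) * δ (swg h i (hq f (swc i) j)) =
      ∑ j, (r.comp (swg h i)) (hp o (!k') (swc i) j) * δ (swg h i (hq f (swc i) j)) := by
    rw [Finset.sum_eq_single (!k')]
    · rw [if_pos rfl, map_one, map_one, one_mul]
    · intro k _ hk
      rw [if_neg hk, map_zero, map_zero, zero_mul]
    · intro hh
      exact absurd (Finset.mem_univ _) hh
  refine h2.trans (Eq.trans ?_ (h3.symm.trans h5.symm))
  cases k' <;> cases i
  · change r (-x1 B f') * om o'.z (algebraMap B (A1 B f')) (x1 B f') (y1 B f') r δ =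
      r (bc1 (RingHom.id B) h (-x1 B (rev f))) *
        om o.z' (algebraMap B (A1 B (rev f))) (x1 B (rev f)) (y1 B (rev f))
        (r.comp (bc1 (RingHom.id B) h)) (fun v => δ (bc1 (RingHom.id B) h v))
    rw [om_bc (rel1 B (rev f)) o.z' (rel1 B f') o'.z hδ (bc1 (RingHom.id B) h)
      (bc1_b (RingHom.id B) h) h (bc1_x _ _) (bc1_y _ _)]
    exact congrArg₂ (· * ·) (congrArg r
      ((map_neg _ _).trans (congrArg _ (bc1_x (RingHom.id B) (f := rev f) h))).symm) rfl
  · change r (-(xu B f' : A12 B f')) * om o'.z (algebraMap B (A12 B f')) (xu B f' : A12 B f')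
        (yv B f') r δ = r (inv12 h 1) *
        om o.z (algebraMap B (A12 B f)) (xu B f : A12 B f) (yv B f) (r.comp (inv12 h))
          (fun v => δ (inv12 h v))
    have hxu : (xu B f' : A12 B f') * ((xu B f')⁻¹ : (A12 B f')ˣ).val = 1 := Units.mul_inv _
    have hr : r (xu B f' : A12 B f') * r ((xu B f')⁻¹ : (A12 B f')ˣ).val = 1 := by
      rw [← map_mul, hxu, map_one]
    rw [om_inv (rel12 B f) o.z (rel12 B f') o'.z hδ (inv12 h) (inv12_b h) h hxu (inv12_x h)
      ((inv12_y h).trans (by rw [Units.val_pow_eq_pow_val])), map_neg, map_one, map_one]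
    linear_combination (om o.z (algebraMap B (A12 B f)) (xu B f : A12 B f) (yv B f)
      (r.comp (inv12 h)) (fun v => δ (inv12 h v))) * hr
  · change r 1 * om o'.z' (algebraMap B (A1 B (rev f'))) (x1 B (rev f')) (y1 B (rev f')) r δ =
      r (bc1 (RingHom.id B) (revh h) 1) *
        om o.z (algebraMap B (A1 B f)) (x1 B f) (y1 B f)
        (r.comp (bc1 (RingHom.id B) (revh h))) (fun v => δ (bc1 (RingHom.id B) (revh h) v))
    rw [om_bc (rel1 B f) o.z (rel1 B (rev f')) o'.z' hδ (bc1 (RingHom.id B) (revh h))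
      (bc1_b (RingHom.id B) (revh h)) (revh h) (bc1_x _ _) (bc1_y _ _)]
    exact congrArg₂ (· * ·) (congrArg r (map_one _).symm) rfl
  · change r 1 * om o'.z (algebraMap B (A1 B f')) (x1 B f') (y1 B f') r δ =
      r (bc1 (RingHom.id B) h 1) *
        om o.z' (algebraMap B (A1 B (rev f))) (x1 B (rev f)) (y1 B (rev f))
        (r.comp (bc1 (RingHom.id B) h)) (fun v => δ (bc1 (RingHom.id B) h v))
    rw [om_bc (rel1 B (rev f)) o.z' (rel1 B f') o'.z hδ (bc1 (RingHom.id B) h)
      (bc1_b (RingHom.id B) h) h (bc1_x _ _) (bc1_y _ _)]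
    exact congrArg₂ (· * ·) (congrArg r (map_one _).symm) rfl
  · change r 1 * om o'.z (algebraMap B (A12 B f')) (xu B f' : A12 B f')
        (yv B f') r δ = r (inv12 h (-(xu B f : A12 B f))) *
        om o.z (algebraMap B (A12 B f)) (xu B f : A12 B f) (yv B f) (r.comp (inv12 h))
          (fun v => δ (inv12 h v))
    have hxu : (xu B f' : A12 B f') * ((xu B f')⁻¹ : (A12 B f')ˣ).val = 1 := Units.mul_inv _
    rw [om_inv (rel12 B f) o.z (rel12 B f') o'.z hδ (inv12 h) (inv12_b h) h hxu (inv12_x h)
      ((inv12_y h).trans (by rw [Units.val_pow_eq_pow_val])), map_neg, inv12_x, map_neg, map_one,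
      one_mul]
  · change r (-x1 B (rev f')) * om o'.z' (algebraMap B (A1 B (rev f'))) (x1 B (rev f'))
        (y1 B (rev f')) r δ =
      r (bc1 (RingHom.id B) (revh h) (-x1 B f)) *
        om o.z (algebraMap B (A1 B f)) (x1 B f) (y1 B f)
        (r.comp (bc1 (RingHom.id B) (revh h))) (fun v => δ (bc1 (RingHom.id B) (revh h) v))
    rw [om_bc (rel1 B f) o.z (rel1 B (rev f')) o'.z' hδ (bc1 (RingHom.id B) (revh h))
      (bc1_b (RingHom.id B) (revh h)) (revh h) (bc1_x _ _) (bc1_y _ _)]
    exact congrArg₂ (· * ·) (congrArg r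
      ((map_neg _ _).trans (congrArg _ (bc1_x (RingHom.id B) (revh h)))).symm) rfl

/-- The swap of the forms. -/
noncomputable def rmSW (o : HOk f) (o' : HOk f') :
    RMap (RingHom.id B) (hRF o') (hRF o) (fun k' k : Bool => if k = !k' then 1 else 0) where
  κ := swc
  lam := fun e : Bool => !e
  hs e := by cases e <;> rfl
  ht e := by cases e <;> rfl
  g := swg h
  gE := swgE h
  form k' i R' _ r δ hδ := sw_form h o o' k' i r δ hδ

end sw

end Pool.Agent.MG.H2
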