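import Pool.Agent.MG.H2.HMapT
import Pool.Agent.MG.H2.Cf2

/-!
# The covectors of quadratic polynomials on the curves `y² = f(x)`
-/

open CategoryTheory CategoryTheory.Limits AlgebraicGeometry TensorProduct

namespace Pool.Agent.MG.H2

section

variable {B : Type} [CommRing B] {f : Fin 7 → B}

/-- The functionals on `H¹(O)`. -/
noncomputable def mab (f : Fin 7 → B) (al be : B) : ∀ e : Bool, hRE f e → B
  | true => fun v => al * cf (f := f) (-1) v - be * cf (f := f) (-2) v
  | false => fun v => - al * cf (f := rev f) (-2) v + be * cf (f := rev f) (-1) v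

/-- The coefficients. -/
def cal (w : B) (c : Fin 3 → B) : Bool → B
  | true => c 0
  | false => w * c 1

/-- The coefficients. -/
def cbe (w : B) (c : Fin 3 → B) : Bool → B
  | true => w * c 1
  | false => c 2

theorem mab_add (al be : B) (e : Bool) (v v' : hRE f e) :
    mab f al be e (v + v') = mab f al be e v + mab f al be e v' := by
  cases e
  · change - al * cf (f := rev f) (-2) (v + v') + be * cf (f := rev f) (-1) (v + v') =
      (- al * cf (f := rev f) (-2) v + be * cf (f := rev f) (-1) v) +
      (- al * cf (f := rev f) (-2) v' + be * cf (f := rev f) (-1) v')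
    rw [map_add, map_add]
    ring
  · change al * cf (f := f) (-1) (v + v') - be * cf (f := f) (-2) (v + v') =
      (al * cf (f := f) (-1) v - be * cf (f := f) (-2) v) +
      (al * cf (f := f) (-1) v' - be * cf (f := f) (-2) v')
    rw [map_add, map_add]
    ring

theorem mab_smul (al be : B) (e : Bool) (b : B) (v : hRE f e) :
    mab f al be e (hcE f e b * v) = b * mab f al be e v := by
  cases e
  · change - al * cf (f := rev f) (-2) (algebraMap B _ b * v) +
      be * cf (f := rev f) (-1) (algebraMap B _ b * v) =
      b * (- al * cf (f := rev f) (-2) v + be * cf (f := rev f) (-1) v)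
    rw [cf_b, cf_b]
    ring
  · change al * cf (f := f) (-1) (algebraMap B _ b * v) -
      be * cf (f := f) (-2) (algebraMap B _ b * v) =
      b * (al * cf (f := f) (-1) v - be * cf (f := f) (-2) v)
    rw [cf_b, cf_b]
    ring

theorem mab_ker (al be : B) (a : ∀ i, hR f i) :
    mab f al be true (hjs f true (a .T) - hjt f true (a .N)) +
      mab f al be false (hjs f false (a .Q) - hjt f false (a .N)) = 0 := by
  change (al * cf (f := f) (-1) (g1 B f (a .T) - a .N) -
      be * cf (f := f) (-2) (g1 B f (a .T) - a .N)) +
    (- al * cf (f := rev f) (-2) (g1 B (rev f) (a .Q) - inv12 (rev_h' f) (a .N)) +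
      be * cf (f := rev f) (-1) (g1 B (rev f) (a .Q) - inv12 (rev_h' f) (a .N))) = 0
  rw [map_sub, map_sub, map_sub, map_sub, cf_g1 (by norm_num), cf_g1 (by norm_num),
    cf_g1 (by norm_num), cf_g1 (by norm_num), (cf_inv12 _ _ _).1, (cf_inv12 _ _ _).1]
  norm_num
  ring

/-- The functionals of the covector with coefficients `c`. -/
noncomputable def hRM (o : HOk f) (w : B) (c : Fin 3 → B) : RM (hRF o) where
  μ := fun k e v => mab f (cal w c k) (cbe w c k) e v
  add := fun _ e a b => mab_add _ _ e a b
  smul := fun _ e b a => mab_smul _ _ e b a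
  ker := fun _ a => (Fintype.sum_bool _).trans (mab_ker _ _ a)

/-- The covector with coefficients `c` on `y² = f(x)`: it belongs to the quadratic polynomial
`c₀ - c₁ x + c₂ x²` if `2 w = 1`. -/
noncomputable def hcov (o : HOk f) (w : B) (c : Fin 3 → B) (g : ℕ) : Cov g (Hyp f) :=
  (hRM o w c).cov (hCh o) g

end

/-! ### Compatibility -/

section

variable {B B' : Type} [CommRing B] [CommRing B'] (φ : B →+* B') {f : Fin 7 → B}
  {f' : Fin 7 → B'}

/-- Criterion. -/
theorem sum_crit (w : B) (c : Fin 3 → B) (w' : B') (c' : Fin 3 → B')
    {cc : Bool → Bool → B'} (lam : Bool → Bool) (gE : ∀ e, hRE f (lam e) →+* hRE f' e)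
    (h : ∀ (k : Bool) (v : ∀ e, hRE f e),
      (mab f' (cc true k * cal w' c' true + cc false k * cal w' c' false)
          (cc true k * cbe w' c' true + cc false k * cbe w' c' false) true (gE true (v (lam true))) +
        mab f' (cc true k * cal w' c' true + cc false k * cal w' c' false)
          (cc true k * cbe w' c' true + cc false k * cbe w' c' false) false
          (gE false (v (lam false)))) =
      φ (mab f (cal w c k) (cbe w c k) true (v true) +
        mab f (cal w c k) (cbe w c k) false (v false)))
    (v : Bool → ∀ e, hRE f e) :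
    ∑ k' : Bool, ∑ e' : Bool, mab f' (cal w' c' k') (cbe w' c' k') e'
      (∑ k : Bool, hcE f' e' (cc k' k) * gE e' (v k (lam e'))) =
        φ (∑ k : Bool, ∑ e : Bool, mab f (cal w c k) (cbe w c k) e (v k e)) := by
  have lin : ∀ (al be al' be' s t : B') (e : Bool) (u : hRE f' e),
      s * mab f' al be e u + t * mab f' al' be' e u =
        mab f' (s * al + t * al') (s * be + t * be') e u := by
    intro al be al' be' s t e u
    cases e
    · change s * (- al * cf (f := rev f') (-2) u + be * cf (f := rev f') (-1) u) +
        t * (- al' * cf (f := rev f') (-2) u + be' * cf (f := rev f') (-1) u) =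
        - (s * al + t * al') * cf (f := rev f') (-2) u +
          (s * be + t * be') * cf (f := rev f') (-1) u
      ring
    · change s * (al * cf (f := f') (-1) u - be * cf (f := f') (-2) u) +
        t * (al' * cf (f := f') (-1) u - be' * cf (f := f') (-2) u) =
        (s * al + t * al') * cf (f := f') (-1) u - (s * be + t * be') * cf (f := f') (-2) u
      ring
  have h1 := h true (v true)
  have h2 := h false (v false)
  rw [← lin, ← lin] at h1 h2
  simp only [Fintype.sum_bool, mab_add, mab_smul]
  rw [map_add, ← h1, ← h2]
  ring

end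

end Pool.Agent.MG.H2
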