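import Pool.Agent.MG.H2.Defs
import Pool.Agent.MG.TwoReg

/-!
# Smooth curves of genus two are curves `y² = f(x)`: statements
-/

open CategoryTheory CategoryTheory.Limits AlgebraicGeometry TensorProduct

namespace Pool.Agent.MG.H2

open Pool.Agent.MG.Two

/-! ## A function of degree two -/

/-- Ring data of a curve of genus two at a point `p`: `R1` = functions away from `p`, `R2` =
functions near `p`, `z` = a coordinate at `p`, `R12` = `R2[1/z]`. -/
structure PD (k R1 R2 R12 : Type) [Field k] [CommRing R1] [CommRing R2] [CommRing R12] where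
  c1 : k →+* R1
  c2 : k →+* R2
  c12 : k →+* R12
  j1 : R1 →+* R12
  j2 : R2 →+* R12
  jc1 : ∀ c, j1 (c1 c) = c12 c
  jc2 : ∀ c, j2 (c2 c) = c12 c
  inj1 : Function.Injective j1
  inj2 : Function.Injective j2
  z : R2
  zi : R12
  hz : j2 z * zi = 1
  ev : R2 →+* k
  evc : ∀ c, ev (c2 c) = c
  evz : ev z = 0
  evk : ∀ r, ev r = 0 → ∃ s, r = z * s
  loc : ∀ r : R12, ∃ (n : ℕ) (s : R2), j2 z ^ n * r = j2 s
  h0 : ∀ a b, j1 a = j2 b → ∃ c, a = c1 c
  L : R12 → (Fin 2 → k)
  Ladd : ∀ r s, L (r + s) = L r + L s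
  Lc : ∀ c r, L (c12 c * r) = c • L r
  L0 : ∀ r, L r = 0 ↔ ∃ a b, r = j1 a + j2 b
  Ls : Function.Surjective L

/-- The field `K` is a quadratic extension of `k(x)`, `x` transcendental, generated by `y` with
`y² = f(x)`, or it is equal to `k(x)`. -/
structure Quad {k K : Type} [Field k] [Field K] (c : k →+* K) (x y : K) (f : Polynomial k) :
    Prop where
  eq : y ^ 2 = f.eval₂ c x
  tr : Function.Injective (Polynomial.eval₂RingHom c x)
  gen : ∀ z : K, ∃ p q d : Polynomial k, d ≠ 0 ∧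
    d.eval₂ c x * z = p.eval₂ c x + q.eval₂ c x * y

/-- EPD: the field of fractions of point data of genus two is quadratic over some `k(x)`. -/
def Stmt_EPD : Prop :=
  ∀ {k R1 R2 R12 : Type} [Field k] [CharZero k] [CommRing R1] [IsDomain R1] [CommRing R2]
    [CommRing R12] (D : PD k R1 R2 R12) (K : Type) [Field K] [Algebra R1 K] [IsFractionRing R1 K],
    ∃ (x y : K) (f : Polynomial k), Quad ((algebraMap R1 K).comp D.c1) x y f

/-- EGD: point data of a curve. -/
def Stmt_EGD : Prop :=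
  ∀ {X : Scheme.{0}} {k : Type} [Field k] (π : X ⟶ Sp k) [IsIntegral X] [IsAlgClosed k]
    [CharZero k] [IsProper π] [SmoothOfRelativeDimension 1 π], HasGenus π 2 →
    ∃ (V U : X.Opens) (_ : Nonempty V) (_ : IsAffineOpen V)
      (D : PD k Γ(X, V) Γ(X, U) Γ(X, V ⊓ U)), D.c1 = coef π V

/-- EQD: the function field of a curve of genus two is quadratic over some `k(x)`. -/
def Stmt_EQD : Prop :=
  ∀ {X : Scheme.{0}} {k : Type} [Field k] (π : X ⟶ Sp k) [IsIntegral X] [IsAlgClosed k]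
    [CharZero k] [IsProper π] [SmoothOfRelativeDimension 1 π], HasGenus π 2 →
    ∃ (x y : X.functionField) (f : Polynomial k), Quad (kfun π) x y f

/-- ESQ: the polynomial `f` can be made squarefree: a product of an even number of linear forms
`a x + b`, pairwise not proportional. -/
def Stmt_ESQ : Prop :=
  ∀ {k K : Type} [Field k] [IsAlgClosed k] [CharZero k] [Field K] (c : k →+* K) (x y : K)
    (f : Polynomial k), Quad c x y f →
    ∃ (m : ℕ) (a b : Fin (2 * m) → k) (y' : K), (∀ i j, i ≠ j → a i * b j - a j * b i ≠ 0) ∧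
      Quad c x y' (∏ i, (Polynomial.C (a i) * Polynomial.X + Polynomial.C (b i)))

/-- EMB: a change of the coordinate `x ↦ 1/(x - c)` moves the roots away from infinity. -/
def Stmt_EMB : Prop :=
  ∀ {k K : Type} [Field k] [IsAlgClosed k] [CharZero k] [Field K] (c : k →+* K) (x y : K) (m : ℕ)
    (a b : Fin (2 * m) → k), (∀ i j, i ≠ j → a i * b j - a j * b i ≠ 0) →
    Quad c x y (∏ i, (Polynomial.C (a i) * Polynomial.X + Polynomial.C (b i))) →
    ∃ (x' y' : K) (r : Fin (2 * m) → k), Function.Injective r ∧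
      Quad c x' y' (∏ i, (Polynomial.X - Polynomial.C (r i)))

/-! ## The rings of the charts -/

/-- EIC: the integral closure of `k[x]`. -/
def Stmt_EIC : Prop :=
  ∀ {k K : Type} [Field k] [CharZero k] [Field K] (c : k →+* K) (x y : K)
    (f : Polynomial k), Quad c x y f → Squarefree f → ∀ z : K,
    (Polynomial.eval₂RingHom c x).IsIntegralElem z ↔
      ∃ p q : Polynomial k, z = p.eval₂ c x + q.eval₂ c x * y

/-- EIN: the chart at infinity of the field. -/
def Stmt_EIN : Prop :=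
  ∀ {k K : Type} [Field k] [Field K] (c : k →+* K) (x y : K) (m : ℕ) (a b : Fin (2 * m) → k),
    (∀ i j, i ≠ j → a i * b j - a j * b i ≠ 0) →
    Quad c x y (∏ i, (Polynomial.C (a i) * Polynomial.X + Polynomial.C (b i))) →
    Squarefree (∏ i, (Polynomial.C (a i) * Polynomial.X + Polynomial.C (b i))) ∧
    Squarefree (∏ i, (Polynomial.C (b i) * Polynomial.X + Polynomial.C (a i))) ∧
    Quad c x⁻¹ (y * x⁻¹ ^ m) (∏ i, (Polynomial.C (b i) * Polynomial.X + Polynomial.C (a i)))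

/-- EUN: uniqueness of the representation. -/
def Stmt_EUN : Prop :=
  ∀ {k K : Type} [Field k] [CharZero k] [Field K] (c : k →+* K) (x y : K) (m : ℕ)
    (a b : Fin (2 * m) → k), 1 ≤ m → (∀ i j, i ≠ j → a i * b j - a j * b i ≠ 0) →
    Quad c x y (∏ i, (Polynomial.C (a i) * Polynomial.X + Polynomial.C (b i))) →
    ∀ p q : Polynomial k, p.eval₂ c x + q.eval₂ c x * y = 0 → p = 0 ∧ q = 0

/-- EDM: the rational functions which are regular on the domain of `x` are the functions which are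
integral over `k[x]`. -/
def Stmt_EDM : Prop :=
  ∀ {X : Scheme.{0}} {k : Type} [Field k] (π : X ⟶ Sp k) [IsIntegral X] [IsAlgClosed k]
    [CharZero k] [IsProper π] [SmoothOfRelativeDimension 1 π] (x : X.functionField), Transc π x →
    IsAffineOpen (dom x) ∧ IsAffineOpen (dom x⁻¹) ∧ dom x ⊔ dom x⁻¹ = ⊤ ∧
    (∀ z : X.functionField, (Polynomial.eval₂RingHom (kfun π) x).IsIntegralElem z ↔
      ∃ s : Γ(X, dom x), X.germToFunctionField (dom x) s = z) ∧
    (∀ [Nonempty (dom x ⊓ dom x⁻¹ : X.Opens)] (s : Γ(X, dom x ⊓ dom x⁻¹)),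
      ∃ (N : ℕ) (t : Γ(X, dom x)),
      x ^ N * X.germToFunctionField (dom x ⊓ dom x⁻¹) s = X.germToFunctionField (dom x) t)

/-! ## The genus -/

/-- ECN: the number of the linear forms is six. -/
def Stmt_ECN : Prop :=
  ∀ {k K : Type} [Field k] [CharZero k] [Field K] (c : k →+* K) (x y : K) (m : ℕ),
    x ≠ 0 → (m = 0 → y ^ 2 = 1) →
    (1 ≤ m → ∀ p q : Polynomial k, p.eval₂ c x + q.eval₂ c x * y = 0 → p = 0 ∧ q = 0) →
    ∀ (L : K → (Fin 2 → k))
    (_ : ∀ z w, (∃ (N : ℕ) (p q : Polynomial k), x ^ N * z = p.eval₂ c x + q.eval₂ c x * y) →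
      (∃ (N : ℕ) (p q : Polynomial k), x ^ N * w = p.eval₂ c x + q.eval₂ c x * y) →
      L (z + w) = L z + L w)
    (_ : ∀ a z, (∃ (N : ℕ) (p q : Polynomial k), x ^ N * z = p.eval₂ c x + q.eval₂ c x * y) →
      L (c a * z) = a • L z)
    (_ : ∀ z, (∃ (N : ℕ) (p q : Polynomial k), x ^ N * z = p.eval₂ c x + q.eval₂ c x * y) →
      (L z = 0 ↔ ∃ p q p' q' : Polynomial k, z = (p.eval₂ c x + q.eval₂ c x * y) +
        (p'.eval₂ c x⁻¹ + q'.eval₂ c x⁻¹ * (y * x⁻¹ ^ m))))
    (_ : ∀ v, ∃ z, (∃ (N : ℕ) (p q : Polynomial k), x ^ N * z = p.eval₂ c x + q.eval₂ c x * y) ∧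
      L z = v), m = 3

/-- The coefficients of `∏ (a i x + b i)`. -/
noncomputable def prod6 {k : Type} [CommRing k] (a b : Fin 6 → k) : Fin 7 → k :=
  fun j => (∏ i, (Polynomial.C (a i) * Polynomial.X + Polynomial.C (b i))).coeff j

/-! ## The isomorphism -/

/-- EIS: the curve is glued from its charts. -/
def Stmt_EIS : Prop :=
  ∀ {k : Type} [Field k] (C : Fam 0 k) [IsIntegral C.X] [IsSeparated C.π]
    (x y : C.X.functionField) (f : Fin 7 → k), x ≠ 0 →
    IsAffineOpen (dom x) → IsAffineOpen (dom x⁻¹) → dom x ⊔ dom x⁻¹ = ⊤ →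
    y ^ 2 = pol (fun i => kfun C.π (f i)) x → Transc C.π x →
    (∀ p q : Polynomial k, p.eval₂ (kfun C.π) x + q.eval₂ (kfun C.π) x * y = 0 →
      p = 0 ∧ q = 0) →
    (∀ z : C.X.functionField, (∃ s : Γ(C.X, dom x), C.X.germToFunctionField (dom x) s = z) ↔
      ∃ p q : Polynomial k, z = p.eval₂ (kfun C.π) x + q.eval₂ (kfun C.π) x * y) →
    (∀ z : C.X.functionField,
      (∃ s : Γ(C.X, dom x⁻¹), C.X.germToFunctionField (dom x⁻¹) s = z) ↔
      ∃ p q : Polynomial k, z = p.eval₂ (kfun C.π) x⁻¹ +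
        q.eval₂ (kfun C.π) x⁻¹ * (y * x⁻¹ ^ 3)) →
    ∃ a : Arrow (RingHom.id k) C (Hyp f), IsIso a.f

/-- E: smooth curves of genus two are curves `y² = f(x)`. -/
def Stmt_E : Prop :=
  ∀ {k : Type} [Field k] [IsAlgClosed k] [CharZero k] (C : Fam 0 k), IsStable 2 C →
    SmoothOfRelativeDimension 1 C.π →
    ∃ a b : Fin 6 → k, (∀ i j, i ≠ j → a i * b j - a j * b i ≠ 0) ∧
      ∃ f : Arrow (RingHom.id k) C (Hyp (prod6 a b)), IsIso f.f

end Pool.Agent.MG.H2
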