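import Pool.Agent.MG.H2.CfDefs

/-!
# Functions, derivations and differentials of the curves `y² = f(x)`: statements
-/

open Polynomial

namespace Pool.Agent.MG.H2

section

variable {B : Type} [CommRing B] {f : Fin 7 → B}

/-- A Bezout identity for `f` and `f'`. -/
def Bez (f : Fin 7 → B) (A C : B[X]) : Prop := A * pp B f + C * derivative (pp B f) = 1

/-- The differential `dx/y = A y dx + 2 C dy` on `A₁`, evaluated on `δ`. -/
noncomputable def om1 {R' : Type} [CommRing R'] (A C : B[X]) (r : A1 B f →+* R')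
    (δ : A1 B f → R') : R' :=
  r (aeval (x1 B f) A) * r (y1 B f) * δ (x1 B f) + 2 * r (aeval (x1 B f) C) * δ (y1 B f)

end

/-- CFF: `A₁` is free and smooth over `B`. -/
def Stmt_CFF : Prop :=
  ∀ (B : Type) [CommRing B] (f : Fin 7 → B),
    Module.Free B (A1 B f) ∧ Module.Free B (A12 B f) ∧
    ∀ A C : B[X], Bez f A C → IsUnit (2 : B) →
      Algebra.FormallySmooth B (A1 B f) ∧ Algebra.FormallySmooth B (A12 B f)

/-- CFD: the differential `dx/y` and the dual derivation. -/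
def Stmt_CFD : Prop :=
  ∀ (B : Type) [CommRing B] (f : Fin 7 → B), ∃ D : Derivation B (A1 B f) (A1 B f),
    D (x1 B f) = 2 * y1 B f ∧ D (y1 B f) = aeval (x1 B f) (derivative (pp B f)) ∧
    ∀ A C : B[X], Bez f A C → ∀ (R' : Type) [CommRing R'] (r : A1 B f →+* R') (δ : A1 B f → R'),
      DerA (algebraMap B (A1 B f)) r δ →
        r (y1 B f) * om1 A C r δ = δ (x1 B f) ∧
        r (aeval (x1 B f) (derivative (pp B f))) * om1 A C r δ = 2 * δ (y1 B f) ∧
        ∀ v, 2 * δ v = om1 A C r δ * r (D v)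

section

variable {B : Type} [CommRing B] (f : Fin 7 → B)

/-- `x` -/
noncomputable abbrev xx : A12 B f := (xu B f : A12 B f)
/-- `1/x` -/
noncomputable abbrev xi : A12 B f := ((xu B f)⁻¹ : (A12 B f)ˣ).val

/-- The difference of the values of `dx/y` at the two charts. -/
noncomputable def omd {B' : Type} [CommRing B'] (f : Fin 7 → B) (f' : Fin 7 → B') (A C A' C' : B[X])
    (D : A12 B' f' → A12 B f) : A12 B f :=
  (aeval (xx f) A * yv B f * D (xx f') + 2 * aeval (xx f) C * D (yv B' f')) +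
    xi f * (aeval (xi f) A' * (yv B f * xi f ^ 3) * D (xi f') +
      2 * aeval (xi f) C' * D (yv B' f' * xi f' ^ 3))

end

/-- CFV: the class of the difference when the root `r` moves to `r + ε`. -/
def Stmt_CFV : Prop :=
  ∀ {B : Type} [CommRing B] (f : Fin 7 → B) (r : B) (G : B[X]), pp B f = (X - C r) * G →
    ∀ (f' : Fin 7 → Eps B) (_ : ∀ i, f' i = TrivSqZeroExt.inl (f i) - TrivSqZeroExt.inr (G.coeff i))
      (hf : ∀ i, f i = eps0 B (f' i)) (A C₁ A' C₁' : B[X]), Bez f A C₁ → Bez (rev f) A' C₁' →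
    IsUnit (2 : B) → ∀ D : A12 (Eps B) f' → A12 B f,
      DerA ((algebraMap (Eps B) (A12 (Eps B) f')).comp (TrivSqZeroExt.inlHom B B))
        (bc12 (eps0 B) hf) D →
      D (algebraMap (Eps B) _ (TrivSqZeroExt.inr 1)) = 1 →
      ∀ j : ℕ, j ≤ 3 → cf (-1 - (j : ℤ)) (omd f f' A C₁ A' C₁' D) = -(r ^ j * C₁.eval r)

/-- CFI: the difference vanishes on derivations with `D ε = 0`. -/
def Stmt_CFI : Prop :=
  ∀ {B : Type} [CommRing B] (f : Fin 7 → B) (A C₁ A' C₁' : B[X]), Bez f A C₁ →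
    Bez (rev f) A' C₁' → ∀ (B' : Type) [CommRing B'] (φ : B' →+* B) (f' : Fin 7 → B')
      (hf : ∀ i, f i = φ (f' i)) (D : A12 B' f' → A12 B f),
      DerA (algebraMap B' (A12 B' f')) (bc12 φ hf) D → omd f f' A C₁ A' C₁' D = 0

end Pool.Agent.MG.H2
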