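import Pool.Agent.MG.H2.HArr
import Pool.Agent.MG.H2.HHok
import Pool.Agent.MG.H2.YNB

/-!
# The forms on the family `YX B p t`
-/

open CategoryTheory CategoryTheory.Limits AlgebraicGeometry TensorProduct

namespace Pool.Agent.MG.H2

section alg

variable {R : Type} [CommRing R]

/-- `p_T(x) = x³ K`. -/
theorem pT_KK (p : Fin 7 → R) (t x xi : R) (hx : x * xi = 1) :
    pol (pT p t) x = x ^ 3 * KK p (t ^ 2 * x) xi := by
  have h2 : x ^ 2 * xi ^ 2 = 1 := by rw [← mul_pow, hx, one_pow]
  have h3 : x ^ 3 * xi ^ 3 = 1 := by rw [← mul_pow, hx, one_pow]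
  rw [pol_pT]
  simp only [KK]
  linear_combination (-(p 2 * x ^ 2)) * hx - (p 1 * x) * h2 - (p 0) * h3

/-- `p_T'(x) = x² (3 K - E)`. -/
theorem dpT_KK (p : Fin 7 → R) (t x xi : R) (hx : x * xi = 1) :
    dpol (pT p t) x = x ^ 2 * (3 * KK p (t ^ 2 * x) xi - EE p (t ^ 2 * x) xi) := by
  have h2 : x ^ 2 * xi ^ 2 = 1 := by rw [← mul_pow, hx, one_pow]
  have e : dpol (pT p t) x = p 1 + 2 * p 2 * x + 3 * p 3 * x ^ 2 + 4 * (t ^ 2 * p 4) * x ^ 3 +
    5 * (t ^ 4 * p 5) * x ^ 4 + 6 * (t ^ 6 * p 6) * x ^ 5 := rfl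
  rw [e]
  simp only [KK, EE]
  linear_combination (-(2 * p 2 * x)) * hx - (p 1) * h2

variable {K E U V θ : R}

/-- The form `θ₁` on `N`. -/
theorem nf1 (h : U * K + V * E = 1) {dα αdK : R} (h1 : 2 * dα = -(K + E) * θ)
    (h2 : αdK = -(E * K) * θ) :
    -(2 * (V + (U - V) * U * K)) * dα + (U - V) ^ 2 * αdK = θ := by
  linear_combination (-(V + (U - V) * U * K)) * h1 + (U - V) ^ 2 * h2 +
    (θ * (1 + U * K - V * K)) * h

/-- The form `θ₂` on `N`. -/
theorem nf2 (h : U * K + V * E = 1) {s dβ βdK : R} (h1 : 2 * dβ = s * (K - E) * θ)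
    (h2 : βdK = -(s * (E * K)) * θ) :
    2 * (V - (U + V) * U * K) * dβ + (U + V) ^ 2 * βdK = -(s * θ) := by
  linear_combination (V - (U + V) * U * K) * h1 + (U + V) ^ 2 * h2 +
    (-(s * θ) * (1 + U * K + V * K)) * h

end alg

section edge

variable {B R R' : Type} [CommRing B] [CommRing R] [CommRing R'] {c : B →+* R} {r : R →+* R'}
  {δ : R → R'}

/-- The differentials on the edge of the charts `T` and `N` in terms of `θ₁`. -/
theorem edge_d (hδ : DerA c r δ) (p : Fin 7 → B) (t : B) {x xi y : R} (hx : x * xi = 1)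
    (rel : y ^ 2 = pol (fun i => c (pT p t i)) x) {θ : R'} (h1 : r y * θ = δ x)
    (h2 : dpol (fun i => r (c (pT p t i))) (r x) * θ = 2 * δ y) {K E : R}
    (hK : K = KK (fun i => c (p i)) (c t ^ 2 * x) xi)
    (hE : E = EE (fun i => c (p i)) (c t ^ 2 * x) xi) :
    2 * δ (y * xi ^ 2) = -(r K + r E) * θ ∧ r (y * xi ^ 2) * δ K = -(r E * r K) * θ ∧
      2 * δ (c t * (y * xi)) = (r (c t) * r x) * (r K - r E) * θ ∧
      r (c t * (y * xi)) * δ K = -((r (c t) * r x) * (r E * r K)) * θ := by
  have hrx : r x * r xi = 1 := by rw [← map_mul, hx, map_one]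
  have dxi : δ xi = - r xi ^ 2 * δ x := by
    have := hδ.mul x xi
    rw [hx, hδ.one] at this
    linear_combination (-r xi) * this - (δ xi) * hrx
  have hpT : ∀ i, c (pT p t i) = pT (fun i => c (p i)) (c t) i := fun i => pT_map c p t i
  have hY : y ^ 2 = x ^ 3 * K := by
    rw [rel, hK]
    simp only [hpT]
    exact pT_KK _ _ _ _ hx
  have hYr : r y ^ 2 = r x ^ 3 * r K := by rw [← map_pow, hY, map_mul, map_pow]
  have hd : dpol (fun i => r (c (pT p t i))) (r x) = r x ^ 2 * (3 * r K - r E) := by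
    have e1 : ∀ i, r (c (pT p t i)) = pT (fun i => r (c (p i))) (r (c t)) i := fun i =>
      pT_map (r.comp c) p t i
    have e2 : r K = KK (fun i => r (c (p i))) (r (c t) ^ 2 * r x) (r xi) := by
      rw [hK, KK_map, map_mul, map_pow]
    have e3 : r E = EE (fun i => r (c (p i))) (r (c t) ^ 2 * r x) (r xi) := by
      rw [hE, EE_map, map_mul, map_pow]
    simp only [e1]
    rw [e2, e3]
    exact dpT_KK _ _ _ _ hrx
  have h2' : r x ^ 2 * (3 * r K - r E) * θ = 2 * δ y := by rw [← hd]; exact h2
  have hx3 := hδ.pow x 2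
  norm_num at hx3
  -- `x δK = - E δx`
  have hdK : r x * δ K = - r E * δ x := by
    have e1 : δ (y ^ 2) = δ (x ^ 3 * K) := by rw [hY]
    rw [hδ.sq, hδ.mul, hx3, map_pow] at e1
    have e2 : 2 * r y * δ y = r x ^ 2 * (3 * r K - r E) * δ x := by
      linear_combination (-r y) * h2' + (r x ^ 2 * (3 * r K - r E)) * h1
    have e3 : r x ^ 2 * (r x * δ K) = r x ^ 2 * (- r E * δ x) := by
      linear_combination e2 - e1
    linear_combination (r xi ^ 2) * e3 + (-(r x * r xi + 1) * (r x * δ K + r E * δ x)) * hrx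
  have hdy2 : δ (xi ^ 2) = - 2 * r xi ^ 3 * δ x := by
    rw [hδ.sq, dxi]
    ring
  have f1 : 2 * δ (y * xi ^ 2) = -(r K + r E) * θ := by
    rw [hδ.mul, map_pow, hdy2, ← h1]
    have : r x ^ 2 * r xi ^ 2 = 1 := by rw [← mul_pow, hrx, one_pow]
    have h3 : r x ^ 3 * r xi ^ 3 = 1 := by rw [← mul_pow, hrx, one_pow]
    linear_combination (-(r xi ^ 2)) * h2' + ((3 * r K - r E) * θ) * this -
      (4 * r xi ^ 3 * θ) * hYr - (4 * r K * θ) * h3
  have f2 : r (y * xi ^ 2) * δ K = -(r E * r K) * θ := by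
    have h3 : r x ^ 3 * r xi ^ 3 = 1 := by rw [← mul_pow, hrx, one_pow]
    rw [map_mul, map_pow]
    linear_combination (r y * r xi ^ 3) * hdK - (r y * r xi ^ 2 * δ K) * hrx +
      (r y * r xi ^ 3 * r E) * h1 - (r E * r xi ^ 3 * θ) * hYr - (r E * r K * θ) * h3
  have f3 : 2 * δ (c t * (y * xi)) = (r (c t) * r x) * (r K - r E) * θ := by
    rw [hδ.cmul, hδ.mul, dxi, ← h1]
    have : r x ^ 2 * r xi ^ 2 = 1 := by rw [← mul_pow, hrx, one_pow]
    linear_combination (-(r (c t) * r xi)) * h2' +
      (r (c t) * r x * (3 * r K - r E) * θ) * hrx - (2 * r (c t) * r xi ^ 2 * θ) * hYr -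
      (2 * r (c t) * r x * r K * θ) * this
  refine ⟨f1, f2, f3, ?_⟩
  have e4 : r (c t * (y * xi)) = (r (c t) * r x) * r (y * xi ^ 2) := by
    rw [← map_mul, ← map_mul]
    congr 1
    linear_combination (-(c t * y * xi)) * hx
  rw [e4]
  linear_combination (r (c t) * r x) * f2

end edge

/-- Bezout data on the family. -/
structure YBz {B : Type} [CommRing B] (p : Fin 7 → B) (t : B) where
  /-- on the chart `T` -/
  zT : Bz (pT p t)
  /-- on the chart `Q` -/
  zQ : Bz (pT (rev p) t)
  /-- coefficient of `K` -/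
  U : NN B p t
  /-- coefficient of `E` -/
  V : NN B p t
  h : U * KN B p t + V * EN B p t = 1
  sT : (algebraMap B (TN B p t)).FormallySmooth
  sQ : (algebraMap B (QN B p t)).FormallySmooth

section rings

variable {B : Type} [CommRing B] (p : Fin 7 → B) (t : B)

/-- The rings. -/
abbrev yR : Ct → Type
  | .T => TT B p t
  | .N => NN B p t
  | .Q => QQ B p t

/-- The rings of the edges. -/
abbrev yRE : Bool → Type
  | true => TN B p t
  | false => QN B p t

noncomputable instance yRc : ∀ i, CommRing (yR p t i)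
  | .T => inferInstanceAs (CommRing (TT B p t))
  | .N => inferInstanceAs (CommRing (NN B p t))
  | .Q => inferInstanceAs (CommRing (QQ B p t))

noncomputable instance yREc : ∀ e, CommRing (yRE p t e)
  | true => inferInstanceAs (CommRing (TN B p t))
  | false => inferInstanceAs (CommRing (QN B p t))

/-- structure maps -/
noncomputable abbrev yc : ∀ i, B →+* yR p t i
  | .T => algebraMap B (TT B p t)
  | .N => algebraMap B (NN B p t)
  | .Q => algebraMap B (QQ B p t)

/-- structure maps -/
noncomputable abbrev ycE : ∀ e, B →+* yRE p t e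
  | true => algebraMap B (TN B p t)
  | false => algebraMap B (QN B p t)

/-- restriction -/
noncomputable abbrev yjs : ∀ e, yR p t (hs e) →+* yRE p t e
  | true => tT B p t
  | false => qQ B p t

/-- restriction -/
noncomputable abbrev yjt : ∀ e, yR p t Ct.N →+* yRE p t e
  | true => nT B p t
  | false => nQ B p t

variable {p t}

/-- The coefficients of the forms `θ₁` (`true`) and `θ₂` (`false`). -/
noncomputable abbrev yp (o : YBz p t) : Bool → ∀ i, Fin 2 → yR p t i
  | true, .T => ![o.zT.a.eval₂ (algebraMap B _) (x1 B (pT p t)) * y1 B (pT p t),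
      2 * o.zT.b.eval₂ (algebraMap B _) (x1 B (pT p t))]
  | false, .T => ![-(algebraMap B (TT B p t) t * x1 B (pT p t)) *
        (o.zT.a.eval₂ (algebraMap B _) (x1 B (pT p t)) * y1 B (pT p t)),
      -(algebraMap B (TT B p t) t * x1 B (pT p t)) *
        (2 * o.zT.b.eval₂ (algebraMap B _) (x1 B (pT p t)))]
  | true, .N => ![-(2 * (o.V + (o.U - o.V) * o.U * KN B p t)), (o.U - o.V) ^ 2 * aN B p t]
  | false, .N => ![2 * (o.V - (o.U + o.V) * o.U * KN B p t), (o.U + o.V) ^ 2 * bN B p t]
  | true, .Q => ![-(algebraMap B (QQ B p t) t * x1 B (pT (rev p) t)) *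
        (o.zQ.a.eval₂ (algebraMap B _) (x1 B (pT (rev p) t)) * y1 B (pT (rev p) t)),
      -(algebraMap B (QQ B p t) t * x1 B (pT (rev p) t)) *
        (2 * o.zQ.b.eval₂ (algebraMap B _) (x1 B (pT (rev p) t)))]
  | false, .Q => ![o.zQ.a.eval₂ (algebraMap B _) (x1 B (pT (rev p) t)) * y1 B (pT (rev p) t),
      2 * o.zQ.b.eval₂ (algebraMap B _) (x1 B (pT (rev p) t))]

variable (p t) in
/-- The functions. -/
noncomputable abbrev yq : Bool → ∀ i, Fin 2 → yR p t i
  | _, .T => ![x1 B (pT p t), y1 B (pT p t)]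
  | true, .N => ![aN B p t, KN B p t]
  | false, .N => ![bN B p t, KN B p t]
  | _, .Q => ![x1 B (pT (rev p) t), y1 B (pT (rev p) t)]

variable (p t) in
/-- The factors on `T`. -/
noncomputable def tfac : Bool → TN B p t
  | true => 1
  | false => -(algebraMap B (TN B p t) t * (xu B (pT p t) : TN B p t))

variable (p t) in
/-- The factors on `Q`. -/
noncomputable def qfac : Bool → QN B p t
  | true => -(algebraMap B (QN B p t) t * (xu B (pT (rev p) t) : QN B p t))
  | false => 1

theorem tside (o : YBz p t) (k : Bool) {R' : Type} [CommRing R'] (r : TN B p t →+* R')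
    (δ : TN B p t → R') : ∑ a, r (tT B p t (yp o k .T a)) * δ (tT B p t (yq p t k .T a)) =
      r (tfac p t k) * om o.zT (algebraMap B (TN B p t)) (xu B (pT p t) : TN B p t)
        (yv B (pT p t)) r δ := by
  cases k <;>
    simp only [yp, yq, tfac, om, Fin.sum_univ_two, Matrix.cons_val_zero, Matrix.cons_val_one,
      map_mul, map_neg, map_one, map_ofNat, g1_ev2, g1_y, ← xu_val, g1_b] <;> ring

theorem qside (o : YBz p t) (k : Bool) {R' : Type} [CommRing R'] (r : QN B p t →+* R')
    (δ : QN B p t → R') : ∑ a, r (qQ B p t (yp o k .Q a)) * δ (qQ B p t (yq p t k .Q a)) =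
      r (qfac p t k) * om o.zQ (algebraMap B (QN B p t)) (xu B (pT (rev p) t) : QN B p t)
        (yv B (pT (rev p) t)) r δ := by
  cases k <;>
    simp only [yp, yq, qfac, om, Fin.sum_univ_two, Matrix.cons_val_zero, Matrix.cons_val_one,
      map_mul, map_neg, map_one, map_ofNat, g1_ev2, g1_y, ← xu_val, g1_b] <;> ring

theorem nT_KN : nT B p t (KN B p t) = KK (fun i => algebraMap B (TN B p t) (p i))
    (algebraMap B (TN B p t) t ^ 2 * (xu B (pT p t) : TN B p t))
    ((xu B (pT p t))⁻¹ : (TN B p t)ˣ).val := by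
  rw [KN, KK_map, nT_z, nT_x]
  simp only [nT_c]

theorem nT_EN : nT B p t (EN B p t) = EE (fun i => algebraMap B (TN B p t) (p i))
    (algebraMap B (TN B p t) t ^ 2 * (xu B (pT p t) : TN B p t))
    ((xu B (pT p t))⁻¹ : (TN B p t)ˣ).val := by
  rw [EN, EE_map, nT_z, nT_x]
  simp only [nT_c]

theorem nT_side (o : YBz p t) (k : Bool) {R' : Type} [CommRing R'] (r : TN B p t →+* R')
    (δ : TN B p t → R') (hδ : DerA (algebraMap B (TN B p t)) r δ) :
    ∑ a, r (nT B p t (yp o k .N a)) * δ (nT B p t (yq p t k .N a)) =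
      r (tfac p t k) * om o.zT (algebraMap B (TN B p t)) (xu B (pT p t) : TN B p t)
        (yv B (pT p t)) r δ := by
  obtain ⟨h1, h2⟩ := om_spec (rel12 B (pT p t)) o.zT hδ
  obtain ⟨d1, d2, d3, d4⟩ := edge_d hδ p t (Units.mul_inv (xu B (pT p t))) (rel12 B (pT p t)) h1 h2
    nT_KN nT_EN
  set θ := om o.zT (algebraMap B (TN B p t)) (xu B (pT p t) : TN B p t) (yv B (pT p t)) r δ
  have hb := congrArg (fun v => r (nT B p t v)) o.h
  simp only [map_add, map_mul, map_one] at hb
  cases k
  · have := nf2 hb d3 d4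
    simp only [yp, yq, tfac, Fin.sum_univ_two, Matrix.cons_val_zero, Matrix.cons_val_one]
    rw [nT_b]
    simp only [map_mul, map_sub, map_add, map_neg, map_ofNat, map_pow, nT_b] at this ⊢
    linear_combination this
  · have := nf1 hb d1 d2
    simp only [yp, yq, tfac, Fin.sum_univ_two, Matrix.cons_val_zero, Matrix.cons_val_one]
    rw [nT_a]
    simp only [map_mul, map_sub, map_add, map_neg, map_ofNat, map_pow, map_one, nT_a] at this ⊢
    linear_combination this

theorem nQ_KN : nQ B p t (KN B p t) = KK (fun i => algebraMap B (QN B p t) (rev p i))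
    (algebraMap B (QN B p t) t ^ 2 * (xu B (pT (rev p) t) : QN B p t))
    ((xu B (pT (rev p) t))⁻¹ : (QN B p t)ˣ).val := by
  rw [KN, KK_map, nQ_z, nQ_x, KK_swap (p := fun i => algebraMap B (QN B p t) (p i))
    (p' := fun i => algebraMap B (QN B p t) (rev p i)) (fun i => rfl)]
  simp only [nQ_c]

theorem nQ_EN : -nQ B p t (EN B p t) = EE (fun i => algebraMap B (QN B p t) (rev p i))
    (algebraMap B (QN B p t) t ^ 2 * (xu B (pT (rev p) t) : QN B p t))
    ((xu B (pT (rev p) t))⁻¹ : (QN B p t)ˣ).val := by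
  rw [EN, EE_map, nQ_z, nQ_x, EE_swap (p := fun i => algebraMap B (QN B p t) (p i))
    (p' := fun i => algebraMap B (QN B p t) (rev p i)) (fun i => rfl)]
  simp only [nQ_c]

theorem nQ_side (o : YBz p t) (k : Bool) {R' : Type} [CommRing R'] (r : QN B p t →+* R')
    (δ : QN B p t → R') (hδ : DerA (algebraMap B (QN B p t)) r δ) :
    ∑ a, r (nQ B p t (yp o k .N a)) * δ (nQ B p t (yq p t k .N a)) =
      r (qfac p t k) * om o.zQ (algebraMap B (QN B p t)) (xu B (pT (rev p) t) : QN B p t)
        (yv B (pT (rev p) t)) r δ := by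
  obtain ⟨h1, h2⟩ := om_spec (rel12 B (pT (rev p) t)) o.zQ hδ
  obtain ⟨d1, d2, d3, d4⟩ := edge_d hδ (rev p) t (Units.mul_inv (xu B (pT (rev p) t)))
    (rel12 B (pT (rev p) t)) h1 h2 nQ_KN nQ_EN
  set θ := om o.zQ (algebraMap B (QN B p t)) (xu B (pT (rev p) t) : QN B p t)
    (yv B (pT (rev p) t)) r δ
  have hb := congrArg (fun v => r (nQ B p t v)) o.h
  simp only [map_add, map_mul, map_one] at hb
  rw [map_neg] at d1 d2 d3 d4
  cases k
  · have := nf2 (s := -1) (θ := θ) hb (dβ := δ (yv B (pT (rev p) t) *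
      ((xu B (pT (rev p) t))⁻¹ : (QN B p t)ˣ).val ^ 2)) (by linear_combination d1)
      (βdK := r (yv B (pT (rev p) t) * ((xu B (pT (rev p) t))⁻¹ : (QN B p t)ˣ).val ^ 2) *
        δ (nQ B p t (KN B p t))) (by linear_combination d2)
    simp only [yp, yq, qfac, Fin.sum_univ_two, Matrix.cons_val_zero, Matrix.cons_val_one]
    rw [nQ_b]
    simp only [map_mul, map_sub, map_add, map_ofNat, map_pow, map_one, nQ_b] at this ⊢
    linear_combination this
  · have := nf1 (θ := -((r (algebraMap B (QN B p t) t) * r (xu B (pT (rev p) t) : QN B p t)) * θ))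
      hb (dα := δ (algebraMap B (QN B p t) t * (yv B (pT (rev p) t) *
      ((xu B (pT (rev p) t))⁻¹ : (QN B p t)ˣ).val))) (by linear_combination d3)
      (αdK := r (algebraMap B (QN B p t) t * (yv B (pT (rev p) t) *
        ((xu B (pT (rev p) t))⁻¹ : (QN B p t)ˣ).val)) * δ (nQ B p t (KN B p t)))
      (by linear_combination d4)
    simp only [yp, yq, qfac, Fin.sum_univ_two, Matrix.cons_val_zero, Matrix.cons_val_one]
    rw [nQ_a]
    simp only [map_mul, map_sub, map_add, map_neg, map_ofNat, map_pow, nQ_a] at this ⊢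
    linear_combination this

/-- Ring-level form data on the family. -/
noncomputable def yRF (o : YBz p t) : RF B where
  I := Ct
  E := Bool
  K := Bool
  s := hs
  t := fun _ => .N
  R := yR p t
  RE := yRE p t
  c := yc p t
  cc := ycE p t
  js := yjs p t
  jt := yjt p t
  jsc := fun e => match e with
    | true => rfl
    | false => rfl
  jtc := fun e => match e with
    | true => RingHom.ext fun b => nT_c B p t b
    | false => RingHom.ext fun b => nQ_c B p t b
  sm := fun e => match e with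
    | true => o.sT
    | false => o.sQ
  m := 2
  p := yp o
  q := yq p t
  eq := by
    intro k e R' _ r δ hδ
    cases e with
    | true => exact (tside o k r δ).trans (nT_side o k r δ hδ).symm
    | false => exact (qside o k r δ).trans (nQ_side o k r δ hδ).symm

/-- The charts of the family. -/
noncomputable def yCh (o : YBz p t) : (yRF o).Ch (Yam p t) where
  ι := fun i => match i with
    | .T => YX.inT B p t
    | .N => YX.inN B p t
    | .Q => YX.inQ B p t
  η := fun e => match e with
    | true => spMap (tT B p t) ≫ YX.inT B p t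
    | false => spMap (qQ B p t) ≫ YX.inQ B p t
  oi := fun i => match i with
    | .T => inferInstanceAs (IsOpenImmersion (YX.inT B p t))
    | .N => inferInstanceAs (IsOpenImmersion (YX.inN B p t))
    | .Q => inferInstanceAs (IsOpenImmersion (YX.inQ B p t))
  oe := fun e => match e with
    | true => inferInstanceAs (IsOpenImmersion (spMap (tT B p t) ≫ YX.inT B p t))
    | false => inferInstanceAs (IsOpenImmersion (spMap (qQ B p t) ≫ YX.inQ B p t))
  π := fun i => match i with
    | .T => YX.inT_pr B p t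
    | .N => YX.inN_pr B p t
    | .Q => YX.inQ_pr B p t
  hs := fun e => match e with
    | true => rfl
    | false => rfl
  ht := fun e => match e with
    | true => (YX.condT B p t).symm
    | false => (YX.condQ B p t).symm

/-- The functionals on `H¹(O)`. -/
noncomputable def yab (p : Fin 7 → B) (t al be : B) : ∀ e : Bool, yRE p t e → B
  | true => fun v => al * cf (f := pT p t) (-1) v - t * be * cf (f := pT p t) (-2) v
  | false => fun v => - (t * al) * cf (f := pT (rev p) t) (-2) v +
      be * cf (f := pT (rev p) t) (-1) v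

theorem yab_add (al be : B) (e : Bool) (v v' : yRE p t e) :
    yab p t al be e (v + v') = yab p t al be e v + yab p t al be e v' := by
  cases e
  · change - (t * al) * cf (f := pT (rev p) t) (-2) (v + v') +
      be * cf (f := pT (rev p) t) (-1) (v + v') =
      (- (t * al) * cf (f := pT (rev p) t) (-2) v + be * cf (f := pT (rev p) t) (-1) v) +
      (- (t * al) * cf (f := pT (rev p) t) (-2) v' + be * cf (f := pT (rev p) t) (-1) v')
    rw [map_add, map_add]
    ring
  · change al * cf (f := pT p t) (-1) (v + v') - t * be * cf (f := pT p t) (-2) (v + v') =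
      (al * cf (f := pT p t) (-1) v - t * be * cf (f := pT p t) (-2) v) +
      (al * cf (f := pT p t) (-1) v' - t * be * cf (f := pT p t) (-2) v')
    rw [map_add, map_add]
    ring

theorem yab_smul (al be : B) (e : Bool) (b : B) (v : yRE p t e) :
    yab p t al be e (ycE p t e b * v) = b * yab p t al be e v := by
  cases e
  · change - (t * al) * cf (f := pT (rev p) t) (-2) (algebraMap B _ b * v) +
      be * cf (f := pT (rev p) t) (-1) (algebraMap B _ b * v) =
      b * (- (t * al) * cf (f := pT (rev p) t) (-2) v + be * cf (f := pT (rev p) t) (-1) v)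
    rw [cf_b, cf_b]
    ring
  · change al * cf (f := pT p t) (-1) (algebraMap B _ b * v) -
      t * be * cf (f := pT p t) (-2) (algebraMap B _ b * v) =
      b * (al * cf (f := pT p t) (-1) v - t * be * cf (f := pT p t) (-2) v)
    rw [cf_b, cf_b]
    ring

theorem cf_tx_y1 {f : Fin 7 → B} (s t : B) (q : Polynomial B) :
    cf (-1) (Polynomial.aeval (algebraMap B (A12 B f) s * xx f) q * (algebraMap B (A12 B f) t *
      (yv B f * xi f))) = t * q.coeff 0 := by
  have e : Polynomial.aeval (algebraMap B (A12 B f) s * xx f) q * (algebraMap B (A12 B f) t *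
      (yv B f * xi f)) = algebraMap B (A12 B f) t * (xi f *
        (Polynomial.aeval (xx f) (q.comp (Polynomial.C s * Polynomial.X)) * yv B f)) := by
    rw [YNB.aeval_tx]
    ring
  rw [e, cf_b, cf_xi, cf_aeval_y, if_pos (by norm_num)]
  congr 1
  norm_num

/-- The coefficients of the functions of the chart `N`. -/
theorem cf_nT (v : NN B p t) : t * cf (f := pT (rev p) t) (-2) (nQ B p t v) =
      cf (f := pT p t) (-1) (nT B p t v) ∧
    t * cf (f := pT p t) (-2) (nT B p t v) = cf (f := pT (rev p) t) (-1) (nQ B p t v) := by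
  obtain ⟨c, d, e, f, rfl⟩ := (t_YNB B p t).1 v
  have hT : nT B p t (Polynomial.aeval (xN B p t) c + zN B p t * Polynomial.aeval (zN B p t) d +
      Polynomial.aeval (xN B p t) e * aN B p t + Polynomial.aeval (zN B p t) f * bN B p t) =
      Polynomial.aeval (xi (pT p t)) c + algebraMap B (TN B p t) (t ^ 2) * xx (pT p t) *
        Polynomial.aeval (algebraMap B (TN B p t) (t ^ 2) * xx (pT p t)) d +
      Polynomial.aeval (xi (pT p t)) e * (yv B (pT p t) * xi (pT p t) ^ 2) +
      Polynomial.aeval (algebraMap B (TN B p t) (t ^ 2) * xx (pT p t)) f *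
        (algebraMap B (TN B p t) t * (yv B (pT p t) * xi (pT p t))) := by
    rw [map_add, map_add, map_add, map_mul, map_mul, map_mul,
      YNB.hom_aeval (nT B p t) (nT_c B p t), YNB.hom_aeval (nT B p t) (nT_c B p t),
      YNB.hom_aeval (nT B p t) (nT_c B p t), YNB.hom_aeval (nT B p t) (nT_c B p t),
      nT_z, nT_x, nT_a, nT_b, ← map_pow]
  have hQ : nQ B p t (Polynomial.aeval (xN B p t) c + zN B p t * Polynomial.aeval (zN B p t) d +
      Polynomial.aeval (xN B p t) e * aN B p t + Polynomial.aeval (zN B p t) f * bN B p t) =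
      Polynomial.aeval (algebraMap B (QN B p t) (t ^ 2) * xx (pT (rev p) t)) c +
        xi (pT (rev p) t) * Polynomial.aeval (xi (pT (rev p) t)) d +
      Polynomial.aeval (algebraMap B (QN B p t) (t ^ 2) * xx (pT (rev p) t)) e *
        (algebraMap B (QN B p t) t * (yv B (pT (rev p) t) * xi (pT (rev p) t))) +
      Polynomial.aeval (xi (pT (rev p) t)) f *
        (yv B (pT (rev p) t) * xi (pT (rev p) t) ^ 2) := by
    rw [map_add, map_add, map_add, map_mul, map_mul, map_mul,
      YNB.hom_aeval (nQ B p t) (nQ_c B p t), YNB.hom_aeval (nQ B p t) (nQ_c B p t),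
      YNB.hom_aeval (nQ B p t) (nQ_c B p t), YNB.hom_aeval (nQ B p t) (nQ_c B p t),
      nQ_z, nQ_x, nQ_a, nQ_b, ← map_pow]
  rw [hT, hQ]
  simp only [map_add]
  rw [YNB.cf_tx, YNB.cf_tx_y _ _ _ _ (by norm_num), YNB.cf_xi_y, cf_xi, (YNB.cc_xi d _).1,
    (YNB.cc_xi c _).1, YNB.cf_tx_mul, YNB.cf_xi_y, cf_tx_y1, (YNB.cc_xi c _).1, YNB.cf_tx_mul,
    YNB.cf_xi_y, YNB.cf_tx_y _ _ _ _ (by norm_num), YNB.cf_tx, cf_xi, (YNB.cc_xi d _).1,
    cf_tx_y1, YNB.cf_xi_y]
  norm_num

theorem yab_ker (al be : B) (a : ∀ i, yR p t i) :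
    yab p t al be true (yjs p t true (a .T) - yjt p t true (a .N)) +
      yab p t al be false (yjs p t false (a .Q) - yjt p t false (a .N)) = 0 := by
  obtain ⟨h1, h2⟩ := cf_nT (p := p) (t := t) (a .N)
  change (al * cf (f := pT p t) (-1) (g1 B (pT p t) (a .T) - nT B p t (a .N)) -
      t * be * cf (f := pT p t) (-2) (g1 B (pT p t) (a .T) - nT B p t (a .N))) +
    (- (t * al) * cf (f := pT (rev p) t) (-2) (g1 B (pT (rev p) t) (a .Q) - nQ B p t (a .N)) +
      be * cf (f := pT (rev p) t) (-1) (g1 B (pT (rev p) t) (a .Q) - nQ B p t (a .N))) = 0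
  rw [map_sub, map_sub, map_sub, map_sub, cf_g1 (by norm_num), cf_g1 (by norm_num),
    cf_g1 (by norm_num), cf_g1 (by norm_num)]
  linear_combination al * h1 + be * h2

/-- The functionals of the covector with coefficients `c`. -/
noncomputable def yRM (o : YBz p t) (w : B) (c : Fin 3 → B) : RM (yRF o) where
  μ := fun k e v => yab p t (cal w c k) (cbe w c k) e v
  add := fun _ e a b => yab_add _ _ e a b
  smul := fun _ e b a => yab_smul _ _ e b a
  ker := fun _ a => (Fintype.sum_bool _).trans (yab_ker _ _ a)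

/-- The covector on the family with coefficients `c`. -/
noncomputable def ycov (o : YBz p t) (w : B) (c : Fin 3 → B) (g : ℕ) : Cov g (Yam p t) :=
  (yRM o w c).cov (yCh o) g

end rings

end Pool.Agent.MG.H2
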