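import Pool.Agent.MG.H2.StmtsY

/-!
# YDM: the ring of the curve `y² = f(x)` is a domain
-/

open CategoryTheory CategoryTheory.Limits AlgebraicGeometry TensorProduct

namespace Pool.Agent.MG.H2

namespace YDM

open Polynomial

variable (K : Type) [Field K] (f : Fin 7 → K)

/-- The equation over `K[x]`. -/
noncomputable def eqY : (Polynomial K)[X] := X ^ 2 - C (pp K f)

theorem eqY_monic : (eqY K f).Monic := monic_X_pow_sub_C _ two_ne_zero

theorem eqY_deg : (eqY K f).natDegree = 2 := natDegree_X_pow_sub_C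

theorem pp_coeff (j : Fin 7) : (pp K f).coeff j = f j := by
  unfold pp pol
  fin_cases j <;> simp [coeff_X, coeff_C_mul, coeff_X_pow, coeff_C]

/-- `K[x, y]/(y² - f(x))` as an extension of `K[x]`. -/
abbrev CR : Type := AdjoinRoot (eqY K f)

theorem crel : (AdjoinRoot.root (eqY K f)) ^ 2 =
    pol (fun i => ((AdjoinRoot.of (eqY K f)).comp C) (f i)) (AdjoinRoot.of (eqY K f) X) := by
  have h : eval₂ (AdjoinRoot.of (eqY K f)) (AdjoinRoot.root (eqY K f)) (eqY K f) = 0 :=
    AdjoinRoot.eval₂_root _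
  have h2 : eval₂ (AdjoinRoot.of (eqY K f)) (AdjoinRoot.root (eqY K f))
      (X ^ 2 - C (pp K f)) = 0 := h
  rw [eval₂_sub, eval₂_pow, eval₂_X, eval₂_C, sub_eq_zero] at h2
  rw [h2, pp, pol_map]
  rfl

/-- to the extension -/
noncomputable def toC : A1 K f →+* CR K f :=
  lift1 ((AdjoinRoot.of (eqY K f)).comp C) (AdjoinRoot.of (eqY K f) X)
    (AdjoinRoot.root (eqY K f)) (crel K f)

theorem back_rel : eval₂ (eval₂RingHom (algebraMap K (A1 K f)) (x1 K f)) (y1 K f) (eqY K f) = 0 := by
  unfold eqY pp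
  rw [eval₂_sub, eval₂_pow, eval₂_X, eval₂_C, pol_map, rel1, sub_eq_zero]
  congr 1
  · funext i
    exact (eval₂_C _ _).symm
  · exact (eval₂_X _ _).symm

/-- from the extension -/
noncomputable def back : CR K f →+* A1 K f :=
  AdjoinRoot.lift (eval₂RingHom (algebraMap K (A1 K f)) (x1 K f)) (y1 K f) (back_rel K f)

theorem back_to : (back K f).comp (toC K f) = RingHom.id _ := by
  refine hom1_ext ?_ ?_ ?_
  · intro c
    change back K f (toC K f (algebraMap K _ c)) = _
    rw [toC, lift1_b]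
    change back K f (AdjoinRoot.of _ (C c)) = _
    rw [back, AdjoinRoot.lift_of]
    simp
  · change back K f (toC K f (x1 K f)) = _
    rw [toC, lift1_x, back, AdjoinRoot.lift_of]
    simp
  · change back K f (toC K f (y1 K f)) = _
    rw [toC, lift1_y, back, AdjoinRoot.lift_root]
    simp

theorem to_inj : Function.Injective (toC K f) := by
  intro u v h
  have h1 := congrArg (back K f) h
  have h2 : ∀ w, back K f (toC K f w) = w := fun w => RingHom.congr_fun (back_to K f) w
  rwa [h2, h2] at h1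

variable {K f}

theorem not_sq (h1 : IsCoprime (pp K f) (derivative (pp K f))) (h2 : ∃ i, i ≠ 0 ∧ f i ≠ 0)
    (g : K[X]) : pp K f ≠ g ^ 2 := by
  intro hg
  obtain ⟨i, hi, hfi⟩ := h2
  have hu : IsUnit g := by
    refine h1.isUnit_of_dvd' ?_ ?_
    · exact ⟨g, by rw [hg, pow_two]⟩
    · rw [hg, derivative_sq]
      exact ⟨C 2 * derivative g, by ring⟩
  have hd : (pp K f).natDegree = 0 := by
    rw [hg, natDegree_pow, natDegree_eq_zero_of_isUnit hu, mul_zero]
  have hc := pp_coeff K f i
  have hi' : 0 < (i : ℕ) := by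
    rcases Nat.eq_zero_or_pos (i : ℕ) with h | h
    · exact absurd (Fin.ext h) hi
    · exact h
  rw [coeff_eq_zero_of_natDegree_lt (by omega)] at hc
  exact hfi hc.symm

theorem prime_eqY (h1 : IsCoprime (pp K f) (derivative (pp K f))) (h2 : ∃ i, i ≠ 0 ∧ f i ≠ 0) :
    Prime (eqY K f) := by
  rw [← irreducible_iff_prime, (eqY_monic K f).irreducible_iff_roots_eq_zero_of_degree_le_three
    (by rw [eqY_deg]) (by rw [eqY_deg]; norm_num)]
  refine Multiset.eq_zero_of_forall_notMem fun g hg => ?_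
  rw [mem_roots (eqY_monic K f).ne_zero, IsRoot, eqY, eval_sub, eval_pow, eval_X, eval_C,
    sub_eq_zero] at hg
  exact not_sq h1 h2 g hg.symm

end YDM

theorem t_YDM : Stmt_YDM := by
  intro K _ f h1 h2
  have h3 : IsDomain (YDM.CR K f) := AdjoinRoot.isDomain_of_prime (YDM.prime_eqY h1 h2)
  exact (YDM.to_inj K f).isDomain (YDM.toC K f)

end Pool.Agent.MG.H2
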