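import Pool.Agent.MG.H2.YRing
import Pool.Agent.MG.H2.CfDefs

/-!
# The family `YX B p t`: three charts `T`, `N`, `Q`

For `t` a unit it is the curve `y² = p_T(x)`; for `t = 0` it consists of two curves of genus one
which meet in a node.
-/

open CategoryTheory CategoryTheory.Limits AlgebraicGeometry TensorProduct

namespace Pool.Agent.MG.H2

section scheme

variable (B : Type) [CommRing B] (p : Fin 7 → B) (t : B)

/-- The ring of the chart `T`. -/
abbrev TT : Type := A1 B (pT p t)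

/-- The ring of the chart `Q`. -/
abbrev QQ : Type := A1 B (pT (rev p) t)

/-- The ring of `N ∩ T`. -/
abbrev TN : Type := A12 B (pT p t)

/-- The ring of `N ∩ Q`. -/
abbrev QN : Type := A12 B (pT (rev p) t)

/-- Restriction from `T` to `N ∩ T`. -/
noncomputable abbrev tT : TT B p t →+* TN B p t := g1 B (pT p t)

/-- Restriction from `Q` to `N ∩ Q`. -/
noncomputable abbrev qQ : QQ B p t →+* QN B p t := g1 B (pT (rev p) t)

/-- The union of the charts `N` and `T`. -/
noncomputable def YNT : Scheme.{0} := pushout (spMap (nT B p t)) (spMap (tT B p t))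

/-- The chart `N` of `N ∪ T`. -/
noncomputable def YNT.inN : Sp (NN B p t) ⟶ YNT B p t := pushout.inl _ _

/-- The chart `T` of `N ∪ T`. -/
noncomputable def YNT.inT : Sp (TT B p t) ⟶ YNT B p t := pushout.inr _ _

instance YNT.openN : IsOpenImmersion (YNT.inN B p t) :=
  inferInstanceAs (IsOpenImmersion (pushout.inl (spMap (nT B p t)) (spMap (tT B p t))))

instance YNT.openT : IsOpenImmersion (YNT.inT B p t) :=
  inferInstanceAs (IsOpenImmersion (pushout.inr (spMap (nT B p t)) (spMap (tT B p t))))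

/-- The curve. -/
noncomputable def YX : Scheme.{0} :=
  pushout (spMap (nQ B p t) ≫ YNT.inN B p t) (spMap (qQ B p t))

/-- The open piece `N ∪ T`. -/
noncomputable def YX.inNT : YNT B p t ⟶ YX B p t := pushout.inl _ _

/-- The chart `Q`. -/
noncomputable def YX.inQ : Sp (QQ B p t) ⟶ YX B p t := pushout.inr _ _

instance YX.openNT : IsOpenImmersion (YX.inNT B p t) :=
  inferInstanceAs (IsOpenImmersion
    (pushout.inl (spMap (nQ B p t) ≫ YNT.inN B p t) (spMap (qQ B p t))))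

instance YX.openQ : IsOpenImmersion (YX.inQ B p t) :=
  inferInstanceAs (IsOpenImmersion
    (pushout.inr (spMap (nQ B p t) ≫ YNT.inN B p t) (spMap (qQ B p t))))

/-- The chart `N`. -/
noncomputable def YX.inN : Sp (NN B p t) ⟶ YX B p t := YNT.inN B p t ≫ YX.inNT B p t

/-- The chart `T`. -/
noncomputable def YX.inT : Sp (TT B p t) ⟶ YX B p t := YNT.inT B p t ≫ YX.inNT B p t

instance YX.openN : IsOpenImmersion (YX.inN B p t) := by
  unfold YX.inN
  infer_instance

instance YX.openT : IsOpenImmersion (YX.inT B p t) := by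
  unfold YX.inT
  infer_instance

theorem YNT.condT : spMap (nT B p t) ≫ YNT.inN B p t = spMap (tT B p t) ≫ YNT.inT B p t :=
  pushout.condition

@[reassoc]
theorem YX.condT : spMap (nT B p t) ≫ YX.inN B p t = spMap (tT B p t) ≫ YX.inT B p t := by
  rw [YX.inN, YX.inT, ← Category.assoc, ← Category.assoc, YNT.condT]

@[reassoc]
theorem YX.condQ : spMap (nQ B p t) ≫ YX.inN B p t = spMap (qQ B p t) ≫ YX.inQ B p t := by
  rw [YX.inN, ← Category.assoc]
  exact pushout.condition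

variable {B p t}

theorem YNT.ext {Y : Scheme.{0}} {g g' : YNT B p t ⟶ Y}
    (hN : YNT.inN B p t ≫ g = YNT.inN B p t ≫ g') (hT : YNT.inT B p t ≫ g = YNT.inT B p t ≫ g') :
    g = g' :=
  pushout.hom_ext hN hT

theorem YX.ext {Y : Scheme.{0}} {g g' : YX B p t ⟶ Y}
    (hT : YX.inT B p t ≫ g = YX.inT B p t ≫ g') (hN : YX.inN B p t ≫ g = YX.inN B p t ≫ g')
    (hQ : YX.inQ B p t ≫ g = YX.inQ B p t ≫ g') : g = g' := by
  refine pushout.hom_ext (YNT.ext ?_ ?_) hQ
  · change YNT.inN B p t ≫ YX.inNT B p t ≫ g = YNT.inN B p t ≫ YX.inNT B p t ≫ g'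
    simpa [YX.inN] using hN
  · change YNT.inT B p t ≫ YX.inNT B p t ≫ g = YNT.inT B p t ≫ YX.inNT B p t ≫ g'
    simpa [YX.inT] using hT

/-- Morphisms from `N ∪ T`. -/
noncomputable def YNT.desc {Y : Scheme.{0}} (fN : Sp (NN B p t) ⟶ Y) (fT : Sp (TT B p t) ⟶ Y)
    (h : spMap (nT B p t) ≫ fN = spMap (tT B p t) ≫ fT) : YNT B p t ⟶ Y :=
  pushout.desc fN fT h

@[reassoc (attr := simp)]
theorem YNT.inN_desc {Y : Scheme.{0}} (fN : Sp (NN B p t) ⟶ Y) (fT : Sp (TT B p t) ⟶ Y)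
    (h : spMap (nT B p t) ≫ fN = spMap (tT B p t) ≫ fT) :
    YNT.inN B p t ≫ YNT.desc fN fT h = fN :=
  pushout.inl_desc _ _ _

@[reassoc (attr := simp)]
theorem YNT.inT_desc {Y : Scheme.{0}} (fN : Sp (NN B p t) ⟶ Y) (fT : Sp (TT B p t) ⟶ Y)
    (h : spMap (nT B p t) ≫ fN = spMap (tT B p t) ≫ fT) :
    YNT.inT B p t ≫ YNT.desc fN fT h = fT :=
  pushout.inr_desc _ _ _

/-- Morphisms from the curve. -/
noncomputable def YX.desc {Y : Scheme.{0}} (fT : Sp (TT B p t) ⟶ Y) (fN : Sp (NN B p t) ⟶ Y)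
    (fQ : Sp (QQ B p t) ⟶ Y) (hT : spMap (nT B p t) ≫ fN = spMap (tT B p t) ≫ fT)
    (hQ : spMap (nQ B p t) ≫ fN = spMap (qQ B p t) ≫ fQ) : YX B p t ⟶ Y :=
  pushout.desc (YNT.desc fN fT hT) fQ (by
    rw [Category.assoc, YNT.inN_desc, hQ])

section

variable {Y : Scheme.{0}} (fT : Sp (TT B p t) ⟶ Y) (fN : Sp (NN B p t) ⟶ Y)
    (fQ : Sp (QQ B p t) ⟶ Y) (hT : spMap (nT B p t) ≫ fN = spMap (tT B p t) ≫ fT)
    (hQ : spMap (nQ B p t) ≫ fN = spMap (qQ B p t) ≫ fQ)

theorem YX.inNT_desc : YX.inNT B p t ≫ YX.desc fT fN fQ hT hQ = YNT.desc fN fT hT :=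
  pushout.inl_desc _ _ _

@[reassoc (attr := simp)]
theorem YX.inQ_desc : YX.inQ B p t ≫ YX.desc fT fN fQ hT hQ = fQ :=
  pushout.inr_desc _ _ _

@[reassoc (attr := simp)]
theorem YX.inN_desc : YX.inN B p t ≫ YX.desc fT fN fQ hT hQ = fN := by
  rw [YX.inN, Category.assoc, YX.inNT_desc, YNT.inN_desc]

@[reassoc (attr := simp)]
theorem YX.inT_desc : YX.inT B p t ≫ YX.desc fT fN fQ hT hQ = fT := by
  rw [YX.inT, Category.assoc, YX.inNT_desc, YNT.inT_desc]

end

/-! ### Points -/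

theorem YNT.surj (x : YNT B p t) : x ∈ Set.range (YNT.inN B p t) ∨ x ∈ Set.range (YNT.inT B p t) :=
  glue2_surj (spMap (nT B p t)) (spMap (tT B p t)) x

theorem YX.surj (x : YX B p t) : x ∈ Set.range (YX.inNT B p t) ∨ x ∈ Set.range (YX.inQ B p t) :=
  glue2_surj (spMap (nQ B p t) ≫ YNT.inN B p t) (spMap (qQ B p t)) x

theorem YX.surj3 (x : YX B p t) : x ∈ Set.range (YX.inT B p t) ∨ x ∈ Set.range (YX.inN B p t) ∨
    x ∈ Set.range (YX.inQ B p t) := by
  rcases YX.surj x with ⟨y, rfl⟩ | h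
  · rcases YNT.surj y with ⟨z, rfl⟩ | ⟨z, rfl⟩
    · exact Or.inr (Or.inl ⟨z, by simp [YX.inN]⟩)
    · exact Or.inl ⟨z, by simp [YX.inT]⟩
  · exact Or.inr (Or.inr h)

theorem YNT.meet (x : Sp (NN B p t)) (y : Sp (TT B p t))
    (h : YNT.inN B p t x = YNT.inT B p t y) :
    ∃ w : Sp (TN B p t), spMap (nT B p t) w = x ∧ spMap (tT B p t) w = y :=
  glue2_eq (spMap (nT B p t)) (spMap (tT B p t)) x y h

theorem YX.meet (x : YNT B p t) (y : Sp (QQ B p t)) (h : YX.inNT B p t x = YX.inQ B p t y) :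
    ∃ w : Sp (QN B p t), (spMap (nQ B p t) ≫ YNT.inN B p t) w = x ∧ spMap (qQ B p t) w = y :=
  glue2_eq (spMap (nQ B p t) ≫ YNT.inN B p t) (spMap (qQ B p t)) x y h

/-- Points of `N ∩ T`. -/
theorem YX.meetNT (x : Sp (NN B p t)) (y : Sp (TT B p t)) (h : YX.inN B p t x = YX.inT B p t y) :
    ∃ w : Sp (TN B p t), spMap (nT B p t) w = x ∧ spMap (tT B p t) w = y := by
  refine YNT.meet x y ((YX.inNT B p t).isOpenEmbedding.injective ?_)
  simpa [YX.inN, YX.inT] using h

/-- Points of `N ∩ Q`. -/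
theorem YX.meetNQ (x : Sp (NN B p t)) (y : Sp (QQ B p t)) (h : YX.inN B p t x = YX.inQ B p t y) :
    ∃ w : Sp (QN B p t), spMap (nQ B p t) w = x ∧ spMap (qQ B p t) w = y := by
  obtain ⟨w, h1, h2⟩ := YX.meet (YNT.inN B p t x) y (by simpa [YX.inN] using h)
  refine ⟨w, (YNT.inN B p t).isOpenEmbedding.injective ?_, h2⟩
  simpa using h1

/-- Points of `T ∩ Q`. -/
theorem YX.meetTQ (x : Sp (TT B p t)) (y : Sp (QQ B p t)) (h : YX.inT B p t x = YX.inQ B p t y) :
    ∃ (w : Sp (TN B p t)) (w' : Sp (QN B p t)), spMap (tT B p t) w = x ∧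
      spMap (qQ B p t) w' = y ∧ spMap (nT B p t) w = spMap (nQ B p t) w' := by
  obtain ⟨w', h1, h2⟩ := YX.meet (YNT.inT B p t x) y (by simpa [YX.inT] using h)
  obtain ⟨w, h3, h4⟩ := YNT.meet (spMap (nQ B p t) w') x (by simpa using h1)
  exact ⟨w, w', h4, h2, h3⟩

variable (B p t)

/-- The projection. -/
noncomputable def YX.pr : YX B p t ⟶ Sp B :=
  YX.desc (spMap (algebraMap B _)) (spMap (algebraMap B _)) (spMap (algebraMap B _))
    (by
      rw [spMap_comp', spMap_comp']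
      exact congrArg (fun f => spMap f) (RingHom.ext fun c => nT_c B p t c))
    (by
      rw [spMap_comp', spMap_comp']
      exact congrArg (fun f => spMap f) (RingHom.ext fun c => nQ_c B p t c))

@[reassoc (attr := simp)]
theorem YX.inT_pr : YX.inT B p t ≫ YX.pr B p t = spMap (algebraMap B _) := YX.inT_desc _ _ _ _ _

@[reassoc (attr := simp)]
theorem YX.inN_pr : YX.inN B p t ≫ YX.pr B p t = spMap (algebraMap B _) := YX.inN_desc _ _ _ _ _

@[reassoc (attr := simp)]
theorem YX.inQ_pr : YX.inQ B p t ≫ YX.pr B p t = spMap (algebraMap B _) := YX.inQ_desc _ _ _ _ _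

end scheme

/-! ## Morphisms from ring data -/

section mor

variable {B B' : Type} [CommRing B] [CommRing B']

/-- Compatible homomorphisms of the rings of the charts over `φ`. -/
structure YHom (φ : B →+* B') (p : Fin 7 → B) (t : B) (p' : Fin 7 → B') (t' : B') where
  /-- on the chart `T` -/
  hT : TT B p t →+* TT B' p' t'
  /-- on the chart `N` -/
  hN : NN B p t →+* NN B' p' t'
  /-- on the chart `Q` -/
  hQ : QQ B p t →+* QQ B' p' t'
  /-- on `N ∩ T` -/
  hTN : TN B p t →+* TN B' p' t'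
  /-- on `N ∩ Q` -/
  hQN : QN B p t →+* QN B' p' t'
  bT : ∀ c, hT (algebraMap B _ c) = algebraMap B' _ (φ c)
  bN : ∀ c, hN (algebraMap B _ c) = algebraMap B' _ (φ c)
  bQ : ∀ c, hQ (algebraMap B _ c) = algebraMap B' _ (φ c)
  cT : ∀ v, hTN (tT B p t v) = tT B' p' t' (hT v)
  cTN : ∀ v, hTN (nT B p t v) = nT B' p' t' (hN v)
  cQ : ∀ v, hQN (qQ B p t v) = qQ B' p' t' (hQ v)
  cQN : ∀ v, hQN (nQ B p t v) = nQ B' p' t' (hN v)

namespace YHom

variable {φ : B →+* B'} {p : Fin 7 → B} {t : B} {p' : Fin 7 → B'} {t' : B'}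

/-- The morphism of compatible ring homomorphisms. -/
noncomputable def mor (h : YHom φ p t p' t') : YX B' p' t' ⟶ YX B p t :=
  YX.desc (spMap h.hT ≫ YX.inT B p t) (spMap h.hN ≫ YX.inN B p t) (spMap h.hQ ≫ YX.inQ B p t)
    (by
      have h1 : (nT B' p' t').comp h.hN = h.hTN.comp (nT B p t) :=
        RingHom.ext fun v => (h.cTN v).symm
      have h2 : (tT B' p' t').comp h.hT = h.hTN.comp (tT B p t) :=
        RingHom.ext fun v => (h.cT v).symm
      rw [← Category.assoc, ← Category.assoc, spMap_comp', spMap_comp', h1, h2, ← spMap_comp',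
        ← spMap_comp', Category.assoc, Category.assoc, YX.condT])
    (by
      have h1 : (nQ B' p' t').comp h.hN = h.hQN.comp (nQ B p t) :=
        RingHom.ext fun v => (h.cQN v).symm
      have h2 : (qQ B' p' t').comp h.hQ = h.hQN.comp (qQ B p t) :=
        RingHom.ext fun v => (h.cQ v).symm
      rw [← Category.assoc, ← Category.assoc, spMap_comp', spMap_comp', h1, h2, ← spMap_comp',
        ← spMap_comp', Category.assoc, Category.assoc, YX.condQ])

@[reassoc]
theorem inT_mor (h : YHom φ p t p' t') :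
    YX.inT B' p' t' ≫ h.mor = spMap h.hT ≫ YX.inT B p t := YX.inT_desc _ _ _ _ _

@[reassoc]
theorem inN_mor (h : YHom φ p t p' t') :
    YX.inN B' p' t' ≫ h.mor = spMap h.hN ≫ YX.inN B p t := YX.inN_desc _ _ _ _ _

@[reassoc]
theorem inQ_mor (h : YHom φ p t p' t') :
    YX.inQ B' p' t' ≫ h.mor = spMap h.hQ ≫ YX.inQ B p t := YX.inQ_desc _ _ _ _ _

@[reassoc]
theorem mor_pr (h : YHom φ p t p' t') : h.mor ≫ YX.pr B p t = YX.pr B' p' t' ≫ spMap φ := by
  refine YX.ext ?_ ?_ ?_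
  · rw [← Category.assoc, inT_mor, Category.assoc, YX.inT_pr, ← Category.assoc, YX.inT_pr,
      spMap_comp', spMap_comp']
    exact congrArg (fun f => spMap f) (RingHom.ext fun c => h.bT c)
  · rw [← Category.assoc, inN_mor, Category.assoc, YX.inN_pr, ← Category.assoc, YX.inN_pr,
      spMap_comp', spMap_comp']
    exact congrArg (fun f => spMap f) (RingHom.ext fun c => h.bN c)
  · rw [← Category.assoc, inQ_mor, Category.assoc, YX.inQ_pr, ← Category.assoc, YX.inQ_pr,
      spMap_comp', spMap_comp']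
    exact congrArg (fun f => spMap f) (RingHom.ext fun c => h.bQ c)

end YHom

/-! ### Base change -/

section bc

variable (φ : B →+* B') {p : Fin 7 → B} {t : B} {p' : Fin 7 → B'} {t' : B'}
  (hp : ∀ i, p' i = φ (p i)) (ht : t' = φ t)

include hp ht in
theorem pT_bc (i : Fin 7) : pT p' t' i = φ (pT p t i) := by
  rw [pT_map, ht]
  congr 1
  funext j
  exact hp j

/-- Base change of `N`. -/
noncomputable def bcN : NN B p t →+* NN B' p' t' :=
  liftN ((algebraMap B' (NN B' p' t')).comp φ) (zN B' p' t') (xN B' p' t') (aN B' p' t')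
    (bN B' p' t') (by
      have h := relN B' p' t'
      have h1 : (fun i => algebraMap B' (NN B' p' t') (p' i)) =
          fun i => ((algebraMap B' (NN B' p' t')).comp φ) (p i) := by
        funext i
        rw [hp]
        rfl
      have h2 : algebraMap B' (NN B' p' t') t' = ((algebraMap B' (NN B' p' t')).comp φ) t := by
        rw [ht]
        rfl
      rw [← h1, ← h2]
      exact h)

@[simp]
theorem bcN_z : bcN φ hp ht (zN B p t) = zN B' p' t' := liftN_z _ _ _ _ _ _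

@[simp]
theorem bcN_x : bcN φ hp ht (xN B p t) = xN B' p' t' := liftN_x _ _ _ _ _ _

@[simp]
theorem bcN_a : bcN φ hp ht (aN B p t) = aN B' p' t' := liftN_a _ _ _ _ _ _

@[simp]
theorem bcN_b : bcN φ hp ht (bN B p t) = bN B' p' t' := liftN_b _ _ _ _ _ _

@[simp]
theorem bcN_c (c : B) : bcN φ hp ht (algebraMap B _ c) = algebraMap B' _ (φ c) :=
  liftN_c _ _ _ _ _ _ _

theorem bcN_nT (v : NN B p t) :
    bc12 φ (pT_bc φ hp ht) (nT B p t v) = nT B' p' t' (bcN φ hp ht v) := by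
  have : (bc12 φ (pT_bc φ hp ht)).comp (nT B p t) = (nT B' p' t').comp (bcN φ hp ht) := by
    refine homN_ext ?_ ?_ ?_ ?_ ?_
    · intro c
      rw [RingHom.comp_apply, RingHom.comp_apply, nT_c, bc12_b, bcN_c, nT_c]
    · rw [RingHom.comp_apply, RingHom.comp_apply, nT_z, bcN_z, nT_z, map_mul, map_pow, bc12_b,
        bc12_x, ht]
    · rw [RingHom.comp_apply, RingHom.comp_apply, nT_x, bcN_x, nT_x, bc12_xi]
    · rw [RingHom.comp_apply, RingHom.comp_apply, nT_a, bcN_a, nT_a, map_mul, map_pow, bc12_y,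
        bc12_xi]
    · rw [RingHom.comp_apply, RingHom.comp_apply, nT_b, bcN_b, nT_b, map_mul, map_mul, bc12_b,
        bc12_y, bc12_xi, ht]
  exact congrArg (fun g => g v) this

theorem bcN_nQ (v : NN B p t) :
    bc12 φ (pT_bc φ (rev_bc φ hp) ht) (nQ B p t v) = nQ B' p' t' (bcN φ hp ht v) := by
  have : (bc12 φ (pT_bc φ (rev_bc φ hp) ht)).comp (nQ B p t) =
      (nQ B' p' t').comp (bcN φ hp ht) := by
    refine homN_ext ?_ ?_ ?_ ?_ ?_
    · intro c
      rw [RingHom.comp_apply, RingHom.comp_apply, nQ_c, bc12_b, bcN_c, nQ_c]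
    · rw [RingHom.comp_apply, RingHom.comp_apply, nQ_z, bcN_z, nQ_z, bc12_xi]
    · rw [RingHom.comp_apply, RingHom.comp_apply, nQ_x, bcN_x, nQ_x, map_mul, map_pow, bc12_b,
        bc12_x, ht]
    · rw [RingHom.comp_apply, RingHom.comp_apply, nQ_a, bcN_a, nQ_a, map_mul, map_mul, bc12_b,
        bc12_y, bc12_xi, ht]
    · rw [RingHom.comp_apply, RingHom.comp_apply, nQ_b, bcN_b, nQ_b, map_mul, map_pow, bc12_y,
        bc12_xi]
  exact congrArg (fun g => g v) this

/-- Base change. -/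
noncomputable def YHom.bc : YHom φ p t p' t' where
  hT := bc1 φ (pT_bc φ hp ht)
  hN := bcN φ hp ht
  hQ := bc1 φ (pT_bc φ (rev_bc φ hp) ht)
  hTN := bc12 φ (pT_bc φ hp ht)
  hQN := bc12 φ (pT_bc φ (rev_bc φ hp) ht)
  bT := bc1_b φ _
  bN := bcN_c φ hp ht
  bQ := bc1_b φ _
  cT := bc12_g1 φ _
  cTN := bcN_nT φ hp ht
  cQ := bc12_g1 φ _
  cQN := bcN_nQ φ hp ht

/-- The base change morphism. -/
noncomputable def YX.map : YX B' p' t' ⟶ YX B p t := (YHom.bc φ hp ht).mor

@[reassoc]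
theorem YX.inT_map : YX.inT B' p' t' ≫ YX.map φ hp ht =
    spMap (bc1 φ (pT_bc φ hp ht)) ≫ YX.inT B p t := YHom.inT_mor _

@[reassoc]
theorem YX.inN_map : YX.inN B' p' t' ≫ YX.map φ hp ht =
    spMap (bcN φ hp ht) ≫ YX.inN B p t := YHom.inN_mor _

@[reassoc]
theorem YX.inQ_map : YX.inQ B' p' t' ≫ YX.map φ hp ht =
    spMap (bc1 φ (pT_bc φ (rev_bc φ hp) ht)) ≫ YX.inQ B p t := YHom.inQ_mor _

@[reassoc]
theorem YX.map_pr : YX.map φ hp ht ≫ YX.pr B p t = YX.pr B' p' t' ≫ spMap φ :=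
  YHom.mor_pr _

end bc

end mor

/-- The curve as a family without sections. -/
noncomputable def Yam {B : Type} [CommRing B] (p : Fin 7 → B) (t : B) : Fam 0 B where
  X := YX B p t
  π := YX.pr B p t
  σ := fun i => i.elim0
  sec i := i.elim0

/-! ## The condition of stability -/

section ok

variable {R : Type} [CommRing R]

/-- `E = ξ K_ξ - z K_z` -/
def EE (p : Fin 7 → R) (z ξ : R) : R :=
  p 2 * ξ + 2 * p 1 * ξ ^ 2 + 3 * p 0 * ξ ^ 3 - p 4 * z - 2 * p 5 * z ^ 2 - 3 * p 6 * z ^ 3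

theorem EE_map {R' : Type} [CommRing R'] (φ : R →+* R') (p : Fin 7 → R) (z ξ : R) :
    φ (EE p z ξ) = EE (fun i => φ (p i)) (φ z) (φ ξ) := by
  have h2 : φ 2 = 2 := map_ofNat φ 2
  have h3 : φ 3 = 3 := map_ofNat φ 3
  simp only [EE, map_add, map_sub, map_mul, map_pow, h2, h3]

theorem EE_swap {p p' : Fin 7 → R} (h : ∀ i, p' i = p (Fin.rev i)) (z ξ : R) :
    EE p' ξ z = - EE p z ξ := by
  have e0 : p' 0 = p 6 := h 0
  have e1 : p' 1 = p 5 := h 1
  have e2 : p' 2 = p 4 := h 2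
  have e4 : p' 4 = p 2 := h 4
  have e5 : p' 5 = p 1 := h 5
  have e6 : p' 6 = p 0 := h 6
  simp only [EE, e0, e1, e2, e4, e5, e6]
  ring

/-- `K` in `N`. -/
noncomputable def KN (B : Type) [CommRing B] (p : Fin 7 → B) (t : B) : NN B p t :=
  KK (fun i => algebraMap B (NN B p t) (p i)) (zN B p t) (xN B p t)

/-- `E` in `N`. -/
noncomputable def EN (B : Type) [CommRing B] (p : Fin 7 → B) (t : B) : NN B p t :=
  EE (fun i => algebraMap B (NN B p t) (p i)) (zN B p t) (xN B p t)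

/-- The condition of stability. -/
structure YOk (B : Type) [CommRing B] (p : Fin 7 → B) (t : B) : Prop where
  two : IsUnit (2 : B)
  sT : IsCoprime (pp B (pT p t)) (Polynomial.derivative (pp B (pT p t)))
  sQ : IsCoprime (pp B (pT (rev p) t)) (Polynomial.derivative (pp B (pT (rev p) t)))
  sN : IsCoprime (KN B p t) (EN B p t)

end ok

end Pool.Agent.MG.H2
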