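import Pool.Agent.MG.H2.StmtsY
import Pool.Agent.MG.FIS

/-!
# The curves `y² = f(x)` are stable
-/

open CategoryTheory CategoryTheory.Limits AlgebraicGeometry TensorProduct

namespace Pool.Agent.MG.H2

namespace YHT

/-- Stability is invariant under isomorphisms. -/
theorem transport {B : Type} [CommRing B] {g n : ℕ} {x y : Fam n B}
    (a : Arrow (RingHom.id B) x y) (hy : IsStable g y) : IsStable g x := by
  have hid : IsIso (spMap (RingHom.id B)) := by
    rw [FIS.spMap_id]
    infer_instance
  have ha : IsIso a.f := MorphismProperty.of_isPullback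
    (P := MorphismProperty.isomorphisms Scheme) a.cart.flip hid
  have hw : x.π = a.f ≫ y.π := by
    rw [a.cart.w, FIS.spMap_id, Category.comp_id]
  have h1 := hy.proper
  have h2 := hy.flat
  have h3 := hy.fp
  refine ⟨?_, ?_, ?_, ?_⟩
  · rw [hw]
    infer_instance
  · rw [hw]
    infer_instance
  · rw [hw]
    infer_instance
  · rintro K _ _ s z ⟨b⟩
    refine hy.fib K s z ⟨⟨b.f ≫ a.f, ?_, ?_⟩⟩
    · have h := b.cart.paste_horiz a.cart
      rw [FIS.spMap_id, Category.comp_id] at h
      exact h
    · intro i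
      rw [← Category.assoc, b.sec, Category.assoc, a.sec, FIS.spMap_id, Category.id_comp]

end YHT

theorem t_YHT (hST : Stmt_YST) (hAR : Stmt_YAR) (hOU : Stmt_YOU) : Stmt_YHT := by
  intro B _ f h
  have h1 : YOk B f 1 := by
    refine (hOU f 1 isUnit_one h.two).1 ?_
    rw [pT_one]
    exact ⟨h.s1, h.s2⟩
  obtain ⟨g, a, -⟩ := hAR (RingHom.id B) f 1 1 (by simp) f (fun i => by
    rw [pT_one]
    rfl)
  exact YHT.transport a (hST f 1 h1)

end Pool.Agent.MG.H2
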