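import Pool.Agent.MG.H2.StmtsY

/-!
# YOG: the condition for good polynomials
-/

open Polynomial

namespace Pool.Agent.MG.H2

namespace YOG

variable {B : Type} [CommRing B]

theorem pp_of {g : B[X]} (hg : g.natDegree ≤ 6) : pp B (fun i : Fin 7 => g.coeff i) = g := by
  conv_rhs => rw [g.as_sum_range_C_mul_X_pow' (n := 7) (by omega)]
  simp only [Finset.sum_range_succ, Finset.sum_range_zero, pp, pol, zero_add, pow_zero, mul_one,
    pow_one]
  rfl

theorem rev_of (f : B[X]) : rev (fun i : Fin 7 => f.coeff i) =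
    fun i : Fin 7 => (f.reflect 6).coeff i := by
  funext i
  rw [rev, coeff_reflect, revAt_le (by omega), Fin.val_rev]
  congr 1
  omega

theorem deg_reflect {f : B[X]} (hf : f.natDegree ≤ 6) : (f.reflect 6).natDegree ≤ 6 := by
  rw [natDegree_le_iff_coeff_eq_zero]
  intro n hn
  rw [coeff_reflect, revAt_eq_self_of_lt hn]
  exact coeff_eq_zero_of_natDegree_lt (lt_of_le_of_lt hf hn)

end YOG

open YOG in
theorem t_YOG (hOU : Stmt_YOU) : Stmt_YOG := by
  intro B _ f h2 hf
  refine ⟨pp_of hf.deg, ?_⟩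
  rw [← hOU _ 1 isUnit_one h2, pT_one, pp_of hf.deg, rev_of, pp_of (deg_reflect hf.deg)]
  exact ⟨hf.cop, hf.cop'⟩

end Pool.Agent.MG.H2
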