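import Pool.Agent.MG.H2.YCov

/-!
# The covector on the family `YX B p t` and the covector on `y² = f(x)`
-/

open CategoryTheory CategoryTheory.Limits AlgebraicGeometry TensorProduct

namespace Pool.Agent.MG.H2

section

variable {B B' : Type} [CommRing B] [CommRing B'] (φ : B →+* B') {p : Fin 7 → B} {t : B}
  {w : B'} {f : Fin 7 → B'}

/-- The scaling at infinity. -/
theorem ySc (htw : φ t * w = 1) (hf : ∀ i, f i = φ (pT p t i)) {lam : B'ˣ}
    (hl : (lam : B') = w ^ 2) :
    IsSc (lam : B') (w ^ 3) (fun i => φ (pT (rev p) t i)) (rev f) := by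
  have h2 : φ t ^ 2 * w ^ 2 = 1 := by rw [← mul_pow, htw, one_pow]
  have h4 : φ t ^ 4 * w ^ 4 = 1 := by rw [← mul_pow, htw, one_pow]
  have h6 : φ t ^ 6 * w ^ 6 = 1 := by rw [← mul_pow, htw, one_pow]
  intro i
  change (w ^ 3) ^ 2 * f (Fin.rev i) = _
  rw [hf, hl]
  fin_cases i
  · change (w ^ 3) ^ 2 * φ (t ^ 6 * p 6) = (w ^ 2) ^ 0 * φ (p 6)
    rw [map_mul, map_pow]
    linear_combination φ (p 6) * h6
  · change (w ^ 3) ^ 2 * φ (t ^ 4 * p 5) = (w ^ 2) ^ 1 * φ (p 5)
    rw [map_mul, map_pow]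
    linear_combination w ^ 2 * φ (p 5) * h4
  · change (w ^ 3) ^ 2 * φ (t ^ 2 * p 4) = (w ^ 2) ^ 2 * φ (p 4)
    rw [map_mul, map_pow]
    linear_combination w ^ 4 * φ (p 4) * h2
  · change (w ^ 3) ^ 2 * φ (p 3) = (w ^ 2) ^ 3 * φ (p 3)
    ring
  · change (w ^ 3) ^ 2 * φ (p 2) = (w ^ 2) ^ 4 * φ (t ^ 2 * p 2)
    rw [map_mul, map_pow]
    linear_combination (-(w ^ 6 * φ (p 2))) * h2
  · change (w ^ 3) ^ 2 * φ (p 1) = (w ^ 2) ^ 5 * φ (t ^ 4 * p 1)
    rw [map_mul, map_pow]
    linear_combination (-(w ^ 6 * φ (p 1))) * h4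
  · change (w ^ 3) ^ 2 * φ (p 0) = (w ^ 2) ^ 6 * φ (t ^ 6 * p 0)
    rw [map_mul, map_pow]
    linear_combination (-(w ^ 6 * φ (p 0))) * h6

variable (htw : φ t * w = 1) (hf : ∀ i, f i = φ (pT p t i))

/-- `w²` as a unit. -/
def ylam (htw : φ t * w = 1) : B'ˣ where
  val := w ^ 2
  inv := φ t ^ 2
  val_inv := by rw [mul_comm, ← mul_pow, htw, one_pow]
  inv_val := by rw [← mul_pow, htw, one_pow]

/-- The map on the chart `Q`. -/
noncomputable def yQm : QQ B p t →+* A2 B' f :=
  (sc1 (ySc φ htw hf (lam := ylam φ htw) rfl)).comp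
    (bc1 φ (f := pT (rev p) t) (f' := fun i => φ (pT (rev p) t i)) (fun _ => rfl))

/-- The map on the edge at infinity. -/
noncomputable def yEm : QN B p t →+* A12 B' (rev f) :=
  (sc12 (ySc φ htw hf (lam := ylam φ htw) rfl)).comp
    (bc12 φ (f := pT (rev p) t) (f' := fun i => φ (pT (rev p) t i)) (fun _ => rfl))

theorem yQm_b (c : B) : yQm φ htw hf (algebraMap B _ c) = algebraMap B' _ (φ c) := by
  rw [yQm, RingHom.comp_apply, bc1_b, sc1_b]

theorem yQm_x : yQm φ htw hf (x1 B (pT (rev p) t)) =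
    algebraMap B' _ (w ^ 2) * x1 B' (rev f) := by
  rw [yQm, RingHom.comp_apply, bc1_x, sc1_x]
  rfl

theorem yQm_y : yQm φ htw hf (y1 B (pT (rev p) t)) =
    algebraMap B' _ (w ^ 3) * y1 B' (rev f) := by
  rw [yQm, RingHom.comp_apply, bc1_y, sc1_y]

theorem yEm_g1 (v : QQ B p t) : yEm φ htw hf (qQ B p t v) = g1 B' (rev f) (yQm φ htw hf v) := by
  rw [yEm, RingHom.comp_apply, yQm, RingHom.comp_apply, bc12_g1, sc12_g1]

theorem cf_yEm (v : QN B p t) : cf (-2) (yEm φ htw hf v) = φ t * φ (cf (-2) v) ∧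
    cf (-1) (yEm φ htw hf v) = w * φ (cf (-1) v) := by
  have e2 : (((ylam φ htw) ^ (-2 : ℤ) : B'ˣ) : B') * w ^ 3 = φ t := by
    have : (ylam φ htw) ^ (-2 : ℤ) = (ylam φ htw)⁻¹ ^ 2 := by
      rw [← zpow_natCast, inv_zpow', Nat.cast_ofNat]
    rw [this, Units.val_pow_eq_pow_val]
    change (φ t ^ 2) ^ 2 * w ^ 3 = φ t
    linear_combination (φ t * (φ t ^ 2 * w ^ 2 + φ t * w + 1)) * htw
  have e1 : (((ylam φ htw) ^ (-1 : ℤ) : B'ˣ) : B') * w ^ 3 = w := by
    rw [zpow_neg_one]
    change (φ t ^ 2) * w ^ 3 = w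
    linear_combination (w * (φ t * w + 1)) * htw
  rw [yEm, RingHom.comp_apply, (cf_sc12 _ _ _).1, (cf_sc12 _ _ _).1, (cf_bc12 φ _ _ _).1,
    (cf_bc12 φ _ _ _).1, e1, e2]
  exact ⟨rfl, rfl⟩

/-- The maps of the charts. -/
noncomputable def yg : ∀ i, yR p t i →+* hR f i
  | .T => bc1 φ hf
  | .N => (bc12 φ hf).comp (nT B p t)
  | .Q => yQm φ htw hf

/-- The maps of the edges. -/
noncomputable def ygE : ∀ e, yRE p t e →+* hRE f e
  | true => bc12 φ hf
  | false => yEm φ htw hf

/-- The factors of the forms. -/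
def cy (w : B') : Bool → Bool → B' := fun k' k => if k = k' then (if k then 1 else w) else 0

/-- Scaling and base change. -/
theorem om_sc' {f : Fin 7 → B} {f' : Fin 7 → B'} {R R₁ R' : Type} [CommRing R] [CommRing R₁]
    [CommRing R'] {c : B →+* R} {c' : B' →+* R₁} {x y : R} {x' y' : R₁} {r : R₁ →+* R'}
    {δ : R₁ → R'} (rel : y ^ 2 = pol (fun i => c (f i)) x) (z : Bz f)
    (rel' : y' ^ 2 = pol (fun i => c' (f' i)) x') (z' : Bz f') (h : DerA c' r δ)
    (G : R →+* R₁) (hc : ∀ b, G (c b) = c' (φ b)) {lam lami nu nui : B'} (hl : lam * lami = 1)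
    (hn : nu * nui = 1) (hf : ∀ i : Fin 7, nu ^ 2 * f' i = lam ^ (i : ℕ) * φ (f i))
    (hx : G x = c' lam * x') (hy : G y = c' nu * y') :
    om z' c' x' y' r δ = r (c' (nu * lami)) * om z c x y (r.comp G) (fun v => δ (G v)) := by
  obtain ⟨h1, h2⟩ := om_pull (φ := φ) rel z h G hc
  set w := om z c x y (r.comp G) (fun v => δ (G v)) with hw
  have hl' : r (c' lam) * r (c' lami) = 1 := by rw [← map_mul, ← map_mul, hl, map_one, map_one]
  have hn' : r (c' nu) * r (c' nui) = 1 := by rw [← map_mul, ← map_mul, hn, map_one, map_one]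
  rw [hx, hy] at h1 h2
  rw [h.cmul, map_mul] at h1
  rw [h.cmul, map_mul] at h2
  have h3 := dpol_sc (lam := r (c' lam)) (nu := r (c' nu)) (f := fun i => r (c' (φ (f i))))
    (f' := fun i => r (c' (f' i))) (fun i => by
      rw [← map_pow, ← map_pow, ← map_pow, ← map_pow, ← map_mul, ← map_mul, ← map_mul, ← map_mul,
        hf i]) (r x')
  refine (om_eq rel' z' ?_ ?_).symm
  · rw [map_mul, map_mul]
    linear_combination (r (c' lami)) * h1 + δ x' * hl'
  · rw [map_mul, map_mul]
    have e1 : r (c' nu) * dpol (fun i => r (c' (f' i))) (r x') =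
        r (c' nui) * r (c' lam) * dpol (fun i => r (c' (φ (f i)))) (r (c' lam) * r x') := by
      linear_combination (r (c' nui)) * h3 - (r (c' nu) * dpol (fun i => r (c' (f' i))) (r x')) * hn'
    linear_combination (r (c' lami) * w) * e1 +
      (r (c' nui) * dpol (fun i => r (c' (φ (f i)))) (r (c' lam) * r x') * w) * hl' +
      (r (c' nui)) * h2 + (2 * δ y') * hn'

/-- The factors on `T`. -/
noncomputable def tfac1 (p : Fin 7 → B) (t : B) : Bool → TT B p t
  | true => 1
  | false => -(algebraMap B (TT B p t) t * x1 B (pT p t))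

/-- The factors on `Q`. -/
noncomputable def qfac1 (p : Fin 7 → B) (t : B) : Bool → QQ B p t
  | true => -(algebraMap B (QQ B p t) t * x1 B (pT (rev p) t))
  | false => 1

theorem tside1 (o : YBz p t) (k : Bool) {R' : Type} [CommRing R'] (r : TT B p t →+* R')
    (δ : TT B p t → R') : ∑ a, r (yp o k .T a) * δ (yq p t k .T a) =
      r (tfac1 p t k) * om o.zT (algebraMap B (TT B p t)) (x1 B (pT p t))
        (y1 B (pT p t)) r δ := by
  cases k <;>
    simp only [yp, yq, tfac1, om, Fin.sum_univ_two, Matrix.cons_val_zero, Matrix.cons_val_one,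
      map_mul, map_neg, map_one, map_ofNat] <;> ring

theorem qside1 (o : YBz p t) (k : Bool) {R' : Type} [CommRing R'] (r : QQ B p t →+* R')
    (δ : QQ B p t → R') : ∑ a, r (yp o k .Q a) * δ (yq p t k .Q a) =
      r (qfac1 p t k) * om o.zQ (algebraMap B (QQ B p t)) (x1 B (pT (rev p) t))
        (y1 B (pT (rev p) t)) r δ := by
  cases k <;>
    simp only [yp, yq, qfac1, om, Fin.sum_univ_two, Matrix.cons_val_zero, Matrix.cons_val_one,
      map_mul, map_neg, map_one, map_ofNat] <;> ring

/-- The comparison for the form with the number `k'`. -/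
theorem y_form1 (o : YBz p t) (o' : HOk f) (k' : Bool) (i : Ct) {R' : Type} [CommRing R']
    (r : hR f i →+* R') (δ : hR f i → R') (hδ : DerA (hc f i) r δ) :
    r (fc f k' i) * omc o' i r δ = r (hc f i (if k' then 1 else w)) *
        ∑ j, r (yg φ htw hf i (yp o k' i j)) * δ (yg φ htw hf i (yq p t k' i j)) := by
  cases i
  · -- T
    have h1 := tside1 o k' (r.comp (bc1 φ hf)) (fun v => δ (bc1 φ hf v))
    have h2 := om_bc (rel1 B (pT p t)) o.zT (rel1 B' f) o'.z hδ (bc1 φ hf) (bc1_b φ hf) hf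
      (bc1_x φ hf) (bc1_y φ hf)
    have e : r (fc f k' .T) = r (algebraMap B' (A1 B' f) (if k' then 1 else w)) *
        r (bc1 φ hf (tfac1 p t k')) := by
      cases k'
      · change r (-x1 B' f) = r (algebraMap B' (A1 B' f) w) *
          r (bc1 φ hf (-(algebraMap B (TT B p t) t * x1 B (pT p t))))
        rw [← map_mul]
        congr 1
        rw [map_neg, map_mul, bc1_b, bc1_x]
        have : algebraMap B' (A1 B' f) (φ t) * algebraMap B' (A1 B' f) w = 1 := by
          rw [← map_mul, htw, map_one]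
        linear_combination (x1 B' f) * this
      · change r 1 = r (algebraMap B' (A1 B' f) 1) * r (bc1 φ hf 1)
        simp
    change r (fc f k' .T) * om o'.z (algebraMap B' (A1 B' f)) (x1 B' f) (y1 B' f) r δ = _
    rw [h2, e, mul_assoc]
    exact congrArg _ h1.symm
  · -- N
    have h1 := nT_side o k' (r.comp (bc12 φ hf)) (fun v => δ (bc12 φ hf v))
      (hδ.pre (φ := φ) (algebraMap B (TN B p t)) (bc12 φ hf) (bc12_b φ hf))
    have h2 := om_bc (rel12 B (pT p t)) o.zT (rel12 B' f) o'.z hδ (bc12 φ hf) (bc12_b φ hf) hf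
      (bc12_x φ hf) (bc12_y φ hf)
    have e : r (fc f k' .N) = r (algebraMap B' (A12 B' f) (if k' then 1 else w)) *
        r (bc12 φ hf (tfac p t k')) := by
      cases k'
      · change r (-(xu B' f : A12 B' f)) = r (algebraMap B' (A12 B' f) w) *
          r (bc12 φ hf (-(algebraMap B (TN B p t) t * (xu B (pT p t) : TN B p t))))
        rw [← map_mul]
        congr 1
        rw [map_neg, map_mul, bc12_b, bc12_x]
        have : algebraMap B' (A12 B' f) (φ t) * algebraMap B' (A12 B' f) w = 1 := by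
          rw [← map_mul, htw, map_one]
        linear_combination (xu B' f : A12 B' f) * this
      · change r 1 = r (algebraMap B' (A12 B' f) 1) * r (bc12 φ hf 1)
        simp
    change r (fc f k' .N) * om o'.z (algebraMap B' (A12 B' f)) (xu B' f : A12 B' f)
      (yv B' f) r δ = _
    rw [h2, e, mul_assoc]
    exact congrArg _ h1.symm
  · -- Q
    have h1 := qside1 o k' (r.comp (yQm φ htw hf)) (fun v => δ (yQm φ htw hf v))
    have h2 := om_sc' φ (rel1 B (pT (rev p) t)) o.zQ (rel1 B' (rev f)) o'.z' hδ (yQm φ htw hf)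
      (yQm_b φ htw hf) (lam := w ^ 2) (lami := φ t ^ 2) (nu := w ^ 3) (nui := φ t ^ 3)
      (by rw [mul_comm, ← mul_pow, htw, one_pow]) (by rw [mul_comm, ← mul_pow, htw, one_pow])
      (ySc φ htw hf (lam := ylam φ htw) rfl) (yQm_x φ htw hf) (yQm_y φ htw hf)
    have hw : w ^ 3 * φ t ^ 2 = w := by linear_combination (w * (φ t * w + 1)) * htw
    rw [hw] at h2
    have e : r (fc f k' .Q) * r (algebraMap B' (A1 B' (rev f)) w) =
        r (algebraMap B' (A1 B' (rev f)) (if k' then 1 else w)) *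
        r (yQm φ htw hf (qfac1 p t k')) := by
      cases k'
      · change r 1 * r (algebraMap B' (A1 B' (rev f)) w) =
          r (algebraMap B' (A1 B' (rev f)) w) * r (yQm φ htw hf 1)
        simp
      · change r (-x1 B' (rev f)) * r (algebraMap B' (A1 B' (rev f)) w) =
          r (algebraMap B' (A1 B' (rev f)) 1) *
          r (yQm φ htw hf (-(algebraMap B (QQ B p t) t * x1 B (pT (rev p) t))))
        rw [← map_mul, ← map_mul]
        congr 1
        rw [map_neg, map_mul, yQm_b, yQm_x, map_one, map_pow]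
        have : algebraMap B' (A1 B' (rev f)) (φ t) * algebraMap B' (A1 B' (rev f)) w = 1 := by
          rw [← map_mul, htw, map_one]
        linear_combination (algebraMap B' (A1 B' (rev f)) w * x1 B' (rev f)) * this
    change r (fc f k' .Q) * om o'.z' (algebraMap B' (A1 B' (rev f))) (x1 B' (rev f))
      (y1 B' (rev f)) r δ = _
    rw [h2, ← mul_assoc, e, mul_assoc]
    exact congrArg _ h1.symm

theorem y_form (o : YBz p t) (o' : HOk f) (k' : Bool) (i : Ct) {R' : Type} [CommRing R']
    (r : hR f i →+* R') (δ : hR f i → R') (hδ : DerA (hc f i) r δ) :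
    ∑ j, r (hp o' k' i j) * δ (hq f i j) =
      ∑ k : Bool, r (hc f i (cy w k' k)) *
        ∑ j, r (yg φ htw hf i (yp o k i j)) * δ (yg φ htw hf i (yq p t k i j)) := by
  rw [hsum, y_form1 φ htw hf o o' k' i r δ hδ, Fintype.sum_bool]
  cases k'
  · have e1 : cy w false true = 0 := rfl
    have e2 : cy w false false = w := rfl
    rw [e1, e2, map_zero, map_zero, zero_mul, zero_add]
    rfl
  · have e1 : cy w true true = 1 := rfl
    have e2 : cy w true false = 0 := rfl
    rw [e1, e2, map_zero, map_zero, zero_mul, add_zero]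
    rfl

/-- The comparison of the forms. -/
noncomputable def yRMap (o : YBz p t) (o' : HOk f) : RMap φ (hRF o') (yRF o) (cy w) where
  κ := fun i => i
  lam := fun e => e
  hs _ := rfl
  ht _ := rfl
  g := yg φ htw hf
  gE := ygE φ htw hf
  form k' i _ _ r δ hδ := y_form φ htw hf o o' k' i r δ hδ

theorem y_sum (h : B) (c : Fin 3 → B) (h' : B') (c' : Fin 3 → B') (hh : h' = φ h)
    (hc0 : c' 0 = φ (c 0)) (hc1 : c' 1 = φ (t * c 1)) (hc2 : c' 2 = φ (t ^ 2 * c 2))
    (v : Bool → ∀ e, yRE p t e) :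
    ∑ k' : Bool, ∑ e' : Bool, mab f (cal h' c' k') (cbe h' c' k') e'
      (∑ k : Bool, hcE f e' (cy w k' k) * ygE φ htw hf e' (v k e')) =
        φ (∑ k : Bool, ∑ e : Bool, yab p t (cal h c k) (cbe h c k) e (v k e)) := by
  have key : ∀ (k : Bool) (al be : B) (al' be' : B'),
      (if k then 1 else w) * al' = φ al → (if k then 1 else w) * be' = φ t * φ be →
      mab f al' be' true (hcE f true (if k then 1 else w) * ygE φ htw hf true (v k true)) +
        mab f al' be' false (hcE f false (if k then 1 else w) *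
          ygE φ htw hf false (v k false)) =
      φ (yab p t al be true (v k true) + yab p t al be false (v k false)) := by
    intro k al be al' be' h1 h2
    rw [mab_smul, mab_smul]
    obtain ⟨q2, q1⟩ := cf_yEm φ htw hf (v k false)
    have e1 : mab f al' be' true (ygE φ htw hf true (v k true)) =
        al' * φ (cf (f := pT p t) (-1) (v k true)) - be' * φ (cf (f := pT p t) (-2) (v k true)) := by
      change al' * cf (f := f) (-1) (bc12 φ hf (v k true)) -
        be' * cf (f := f) (-2) (bc12 φ hf (v k true)) = _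
      rw [(cf_bc12 φ hf _ _).1, (cf_bc12 φ hf _ _).1]
    have e2 : mab f al' be' false (ygE φ htw hf false (v k false)) =
        - al' * (φ t * φ (cf (f := pT (rev p) t) (-2) (v k false))) +
          be' * (w * φ (cf (f := pT (rev p) t) (-1) (v k false))) := by
      change - al' * cf (f := rev f) (-2) (yEm φ htw hf (v k false)) +
        be' * cf (f := rev f) (-1) (yEm φ htw hf (v k false)) = _
      rw [q1, q2]
    have e3 : yab p t al be true (v k true) + yab p t al be false (v k false) =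
        (al * cf (f := pT p t) (-1) (v k true) - t * be * cf (f := pT p t) (-2) (v k true)) +
        (- (t * al) * cf (f := pT (rev p) t) (-2) (v k false) +
          be * cf (f := pT (rev p) t) (-1) (v k false)) := rfl
    rw [e1, e2, e3]
    simp only [map_add, map_sub, map_mul, map_neg]
    set x1 := φ (cf (f := pT p t) (-1) (v k true))
    set x2 := φ (cf (f := pT p t) (-2) (v k true))
    set x3 := φ (cf (f := pT (rev p) t) (-2) (v k false))
    set x4 := φ (cf (f := pT (rev p) t) (-1) (v k false))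
    linear_combination (x1 - φ t * x3) * h1 + (w * x4 - x2) * h2 + (φ be * x4) * htw
  have hs : ∀ (k' : Bool) (e' : Bool), ∑ k : Bool, hcE f e' (cy w k' k) *
      ygE φ htw hf e' (v k e') = hcE f e' (if k' then 1 else w) * ygE φ htw hf e' (v k' e') := by
    intro k' e'
    rw [Fintype.sum_bool]
    cases k'
    · have a1 : cy w false true = 0 := rfl
      have a2 : cy w false false = w := rfl
      rw [a1, a2, map_zero, zero_mul, zero_add]
      rfl
    · have a1 : cy w true true = 1 := rfl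
      have a2 : cy w true false = 0 := rfl
      rw [a1, a2, map_zero, zero_mul, add_zero]
      rfl
  have K1 := key true (cal h c true) (cbe h c true) (cal h' c' true) (cbe h' c' true)
    (by simp only [cal, if_true, hc0, one_mul])
    (by
      simp only [cbe, if_true, hh, hc1, map_mul, one_mul]
      ring)
  have K0 := key false (cal h c false) (cbe h c false) (cal h' c' false) (cbe h' c' false)
    (by
      simp only [cal, Bool.false_eq_true, if_false, hh, hc1, map_mul]
      linear_combination (φ h * φ (c 1)) * htw)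
    (by
      simp only [cbe, Bool.false_eq_true, if_false, hc2, map_mul, map_pow]
      linear_combination (φ t * φ (c 2)) * htw)
  have e : ∀ k' : Bool, ∑ e' : Bool, mab f (cal h' c' k') (cbe h' c' k') e'
      (∑ k : Bool, hcE f e' (cy w k' k) * ygE φ htw hf e' (v k e')) =
      mab f (cal h' c' k') (cbe h' c' k') true (hcE f true (if k' then 1 else w) *
        ygE φ htw hf true (v k' true)) +
      mab f (cal h' c' k') (cbe h' c' k') false (hcE f false (if k' then 1 else w) *
        ygE φ htw hf false (v k' false)) := by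
    intro k'
    rw [Fintype.sum_bool, hs, hs]
  have e' : ∀ k : Bool, ∑ e : Bool, yab p t (cal h c k) (cbe h c k) e (v k e) =
      yab p t (cal h c k) (cbe h c k) true (v k true) +
        yab p t (cal h c k) (cbe h c k) false (v k false) := fun k => Fintype.sum_bool _
  rw [Fintype.sum_bool, e, e, Fintype.sum_bool, e', e', map_add, K1, K0]

include htw in
/-- The covectors are compatible along the arrow. -/
theorem y_compat (o : YBz p t) (o' : HOk f) (g : QQ B p t →+* A2 B' f)
    (hg : ∀ c, g (algebraMap B _ c) = algebraMap B' _ (φ c))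
    (hgx : g (x1 B (pT (rev p) t)) = algebraMap B' _ w ^ 2 * x1 B' (rev f))
    (hgy : g (y1 B (pT (rev p) t)) = algebraMap B' _ w ^ 3 * y1 B' (rev f))
    (a : Arrow φ (Hyp f) (Yam p t)) (a1 : HX.in1 B' f ≫ a.f = spMap (bc1 φ hf) ≫ YX.inT B p t)
    (a2 : HX.in2 B' f ≫ a.f = spMap g ≫ YX.inQ B p t)
    (h : B) (c : Fin 3 → B) (h' : B') (c' : Fin 3 → B') (hh : h' = φ h)
    (hc0 : c' 0 = φ (c 0)) (hc1 : c' 1 = φ (t * c 1)) (hc2 : c' 2 = φ (t ^ 2 * c 2)) (G : ℕ) :
    Compat a (hcov o' h' c' G) (ycov o h c G) := by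
  have eg : g = yQm φ htw hf := by
    refine hom1_ext (fun b => ?_) ?_ ?_
    · rw [hg, yQm_b]
    · rw [hgx, yQm_x, map_pow]
    · rw [hgy, yQm_y, map_pow]
  rw [eg] at a2
  have eT : spMap (g1 B' f) ≫ HX.in1 B' f ≫ a.f =
      spMap (bc12 φ hf) ≫ spMap (tT B p t) ≫ YX.inT B p t := by
    refine (congrArg (spMap (g1 B' f) ≫ ·) a1).trans ?_
    refine (spMap_comp_assoc' _ _ _).trans (Eq.trans ?_ (spMap_comp_assoc' _ _ _).symm)
    congr 2
    exact RingHom.ext fun v => (bc12_g1 φ hf v).symm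
  refine (yRMap φ htw hf o o').compat a (hCh o') (yCh o) ?_ ?_ (hRM o' h' c') (yRM o h c) ?_ G
  · intro i
    cases i
    · exact a1
    · change (spMap (g1 B' f) ≫ HX.in1 B' f) ≫ a.f =
        spMap ((bc12 φ hf).comp (nT B p t)) ≫ YX.inN B p t
      refine (Category.assoc _ _ _).trans (eT.trans ?_)
      refine (congrArg (spMap (bc12 φ hf) ≫ ·) (YX.condT B p t).symm).trans ?_
      exact spMap_comp_assoc' _ _ _
    · exact a2
  · intro e
    cases e
    · change (spMap (g1 B' (rev f)) ≫ HX.in2 B' f) ≫ a.f =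
        spMap (yEm φ htw hf) ≫ spMap (qQ B p t) ≫ YX.inQ B p t
      refine (Category.assoc _ _ _).trans
        ((congrArg (spMap (g1 B' (rev f)) ≫ ·) a2).trans ?_)
      refine (spMap_comp_assoc' _ _ _).trans (Eq.trans ?_ (spMap_comp_assoc' _ _ _).symm)
      congr 2
      exact RingHom.ext fun v => (yEm_g1 φ htw hf v).symm
    · change (spMap (g1 B' f) ≫ HX.in1 B' f) ≫ a.f =
        spMap (bc12 φ hf) ≫ spMap (tT B p t) ≫ YX.inT B p t
      exact (Category.assoc _ _ _).trans eT
  · intro v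
    exact y_sum φ htw hf h c h' c' hh hc0 hc1 hc2 v

end

end Pool.Agent.MG.H2
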