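import Pool.Agent.MG.H2.Defs

/-!
# The ring of the chart around the node

`N = B[z, ξ, α, β]` with `z ξ = t²`, `α² = ξ K`, `β² = z K`, `α β = t K`, `ξ β = t α`,
`z α = t β`, where `K = p₃ + p₂ ξ + p₁ ξ² + p₀ ξ³ + p₄ z + p₅ z² + p₆ z³`.

`T = B[X, Y]/(Y² - p_T(X))` with `p_T = (p₀, p₁, p₂, p₃, t² p₄, t⁴ p₅, t⁶ p₆)`, `Q` the same for the
reversed coefficients.  `T[1/X] = N[1/ξ]`: `ξ = 1/X`, `z = t² X`, `α = Y/X²`, `β = t Y/X`.
-/

open CategoryTheory CategoryTheory.Limits AlgebraicGeometry TensorProduct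

namespace Pool.Agent.MG.H2

section basic

variable {R R' : Type} [CommRing R] [CommRing R']

/-- The coefficients of the chart `T`. -/
def pT (p : Fin 7 → R) (t : R) : Fin 7 → R :=
  ![p 0, p 1, p 2, p 3, t ^ 2 * p 4, t ^ 4 * p 5, t ^ 6 * p 6]

theorem pT_map (φ : R →+* R') (p : Fin 7 → R) (t : R) (i : Fin 7) :
    φ (pT p t i) = pT (fun i => φ (p i)) (φ t) i := by
  fin_cases i <;> simp [pT]

theorem pT_one (p : Fin 7 → R) : pT p 1 = p := by
  funext i
  fin_cases i <;> simp [pT]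

theorem pol_pT (p : Fin 7 → R) (t x : R) : pol (pT p t) x =
    p 0 + p 1 * x + p 2 * x ^ 2 + p 3 * x ^ 3 + t ^ 2 * p 4 * x ^ 4 + t ^ 4 * p 5 * x ^ 5 +
      t ^ 6 * p 6 * x ^ 6 := rfl

/-- `K = p₃ + p₂ ξ + p₁ ξ² + p₀ ξ³ + p₄ z + p₅ z² + p₆ z³` -/
def KK (p : Fin 7 → R) (z ξ : R) : R :=
  p 3 + p 2 * ξ + p 1 * ξ ^ 2 + p 0 * ξ ^ 3 + p 4 * z + p 5 * z ^ 2 + p 6 * z ^ 3

theorem KK_map (φ : R →+* R') (p : Fin 7 → R) (z ξ : R) :
    φ (KK p z ξ) = KK (fun i => φ (p i)) (φ z) (φ ξ) := by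
  simp [KK]

theorem KK_swap {p p' : Fin 7 → R} (h : ∀ i, p' i = p (Fin.rev i)) (z ξ : R) :
    KK p' ξ z = KK p z ξ := by
  have e0 : p' 0 = p 6 := h 0
  have e1 : p' 1 = p 5 := h 1
  have e2 : p' 2 = p 4 := h 2
  have e3 : p' 3 = p 3 := h 3
  have e4 : p' 4 = p 2 := h 4
  have e5 : p' 5 = p 1 := h 5
  have e6 : p' 6 = p 0 := h 6
  simp only [KK, e0, e1, e2, e3, e4, e5, e6]
  ring

/-- The relations of the ring of the chart around the node. -/
structure NRel (p : Fin 7 → R) (t z ξ α β : R) : Prop where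
  zx : z * ξ = t ^ 2
  aa : α ^ 2 = ξ * KK p z ξ
  bb : β ^ 2 = z * KK p z ξ
  ab : α * β = t * KK p z ξ
  xb : ξ * β = t * α
  za : z * α = t * β

theorem NRel.map {p : Fin 7 → R} {t z ξ α β : R} (h : NRel p t z ξ α β) (φ : R →+* R') :
    NRel (fun i => φ (p i)) (φ t) (φ z) (φ ξ) (φ α) (φ β) where
  zx := by rw [← map_mul, h.zx, map_pow]
  aa := by rw [← map_pow, h.aa, map_mul, KK_map]
  bb := by rw [← map_pow, h.bb, map_mul, KK_map]
  ab := by rw [← map_mul, h.ab, map_mul, KK_map]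
  xb := by rw [← map_mul, h.xb, map_mul]
  za := by rw [← map_mul, h.za, map_mul]

theorem NRel.swap {p p' : Fin 7 → R} (hp : ∀ i, p' i = p (Fin.rev i)) {t z ξ α β : R}
    (h : NRel p t z ξ α β) : NRel p' t ξ z β α where
  zx := by rw [mul_comm, h.zx]
  aa := by rw [KK_swap hp, h.bb]
  bb := by rw [KK_swap hp, h.aa]
  ab := by rw [KK_swap hp, mul_comm, h.ab]
  xb := h.za
  za := h.xb

/-- From the chart `T` to the chart `N`. -/
theorem relT (p : Fin 7 → R) (t : R) {x xi y : R} (hx : x * xi = 1)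
    (h : y ^ 2 = pol (pT p t) x) : NRel p t (t ^ 2 * x) xi (y * xi ^ 2) (t * (y * xi)) := by
  rw [pol_pT] at h
  have h2 : x ^ 2 * xi ^ 2 = 1 := by rw [← mul_pow, hx, one_pow]
  have h3 : x ^ 3 * xi ^ 3 = 1 := by rw [← mul_pow, hx, one_pow]
  have hK : y ^ 2 * xi ^ 3 = KK p (t ^ 2 * x) xi := by
    rw [h]
    simp only [KK]
    linear_combination p 1 * xi ^ 2 * hx + p 2 * xi * h2 + p 3 * h3 +
      t ^ 2 * p 4 * x * h3 + t ^ 4 * p 5 * x ^ 2 * h3 + t ^ 6 * p 6 * x ^ 3 * h3
  refine ⟨?_, ?_, ?_, ?_, ?_, ?_⟩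
  · linear_combination t ^ 2 * hx
  · rw [← hK]
    ring
  · rw [← hK]
    linear_combination -(t ^ 2 * y ^ 2 * xi ^ 2) * hx
  · rw [← hK]
    ring
  · ring
  · linear_combination (t ^ 2 * y * xi) * hx

/-- From the chart `N` to the chart `T`. -/
theorem NRel.toT {p : Fin 7 → R} {t z ξ α β : R} (h : NRel p t z ξ α β) {x : R}
    (hx : x * ξ = 1) : (α * x ^ 2) ^ 2 = pol (pT p t) x := by
  have hz : z = t ^ 2 * x := by linear_combination x * h.zx - z * hx
  have h2 : x ^ 2 * ξ ^ 2 = 1 := by rw [← mul_pow, hx, one_pow]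
  have h3 : x ^ 3 * ξ ^ 3 = 1 := by rw [← mul_pow, hx, one_pow]
  have h1 : (α * x ^ 2) ^ 2 = x ^ 3 * KK p z ξ := by
    linear_combination x ^ 4 * h.aa + x ^ 3 * KK p z ξ * hx
  rw [h1, hz, pol_pT]
  simp only [KK]
  linear_combination p 2 * x ^ 2 * hx + p 1 * x * h2 + p 0 * h3

end basic

section ring

variable (B : Type) [CommRing B] (p : Fin 7 → B) (t : B)

/-- The ideal of the relations. -/
noncomputable def NI : Ideal (MvPolynomial (Fin 4) B) := Ideal.span
  {MvPolynomial.X 0 * MvPolynomial.X 1 - MvPolynomial.C t ^ 2,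
    MvPolynomial.X 2 ^ 2 - MvPolynomial.X 1 *
      KK (fun i => MvPolynomial.C (p i)) (MvPolynomial.X 0) (MvPolynomial.X 1),
    MvPolynomial.X 3 ^ 2 - MvPolynomial.X 0 *
      KK (fun i => MvPolynomial.C (p i)) (MvPolynomial.X 0) (MvPolynomial.X 1),
    MvPolynomial.X 2 * MvPolynomial.X 3 - MvPolynomial.C t *
      KK (fun i => MvPolynomial.C (p i)) (MvPolynomial.X 0) (MvPolynomial.X 1),
    MvPolynomial.X 1 * MvPolynomial.X 3 - MvPolynomial.C t * MvPolynomial.X 2,
    MvPolynomial.X 0 * MvPolynomial.X 2 - MvPolynomial.C t * MvPolynomial.X 3}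

/-- The ring of the chart around the node. -/
abbrev NN : Type := MvPolynomial (Fin 4) B ⧸ NI B p t

/-- `z` -/
noncomputable def zN : NN B p t := Ideal.Quotient.mk _ (MvPolynomial.X 0)
/-- `ξ` -/
noncomputable def xN : NN B p t := Ideal.Quotient.mk _ (MvPolynomial.X 1)
/-- `α` -/
noncomputable def aN : NN B p t := Ideal.Quotient.mk _ (MvPolynomial.X 2)
/-- `β` -/
noncomputable def bN : NN B p t := Ideal.Quotient.mk _ (MvPolynomial.X 3)

theorem relN : NRel (fun i => algebraMap B (NN B p t) (p i)) (algebraMap B (NN B p t) t)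
    (zN B p t) (xN B p t) (aN B p t) (bN B p t) := by
  have hK : Ideal.Quotient.mk (NI B p t)
      (KK (fun i => MvPolynomial.C (p i)) (MvPolynomial.X 0) (MvPolynomial.X 1)) =
      KK (fun i => algebraMap B (NN B p t) (p i)) (zN B p t) (xN B p t) := by
    rw [KK_map]
    rfl
  have key : ∀ q ∈ ({MvPolynomial.X 0 * MvPolynomial.X 1 - MvPolynomial.C t ^ 2,
    MvPolynomial.X 2 ^ 2 - MvPolynomial.X 1 *
      KK (fun i => MvPolynomial.C (p i)) (MvPolynomial.X 0) (MvPolynomial.X 1),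
    MvPolynomial.X 3 ^ 2 - MvPolynomial.X 0 *
      KK (fun i => MvPolynomial.C (p i)) (MvPolynomial.X 0) (MvPolynomial.X 1),
    MvPolynomial.X 2 * MvPolynomial.X 3 - MvPolynomial.C t *
      KK (fun i => MvPolynomial.C (p i)) (MvPolynomial.X 0) (MvPolynomial.X 1),
    MvPolynomial.X 1 * MvPolynomial.X 3 - MvPolynomial.C t * MvPolynomial.X 2,
    MvPolynomial.X 0 * MvPolynomial.X 2 - MvPolynomial.C t * MvPolynomial.X 3} :
      Set (MvPolynomial (Fin 4) B)), Ideal.Quotient.mk (NI B p t) q = 0 :=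
    fun q hq => Ideal.Quotient.eq_zero_iff_mem.2 (Ideal.subset_span hq)
  have hc : ∀ c : B, Ideal.Quotient.mk (NI B p t) (MvPolynomial.C c) = algebraMap B _ c :=
    fun c => rfl
  refine ⟨?_, ?_, ?_, ?_, ?_, ?_⟩
  · have h := key _ (by left; rfl)
    rw [map_sub, map_mul, map_pow, hc] at h
    exact sub_eq_zero.1 h
  · have h := key _ (by right; left; rfl)
    rw [map_sub, map_mul, map_pow, hK] at h
    exact sub_eq_zero.1 h
  · have h := key _ (by right; right; left; rfl)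
    rw [map_sub, map_mul, map_pow, hK] at h
    exact sub_eq_zero.1 h
  · have h := key _ (by right; right; right; left; rfl)
    rw [map_sub, map_mul, map_mul, hK, hc] at h
    exact sub_eq_zero.1 h
  · have h := key _ (by right; right; right; right; left; rfl)
    rw [map_sub, map_mul, map_mul, hc] at h
    exact sub_eq_zero.1 h
  · have h := key _ (by right; right; right; right; right; rfl)
    rw [map_sub, map_mul, map_mul, hc] at h
    exact sub_eq_zero.1 h

variable {B p t}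

theorem killN {R : Type} [CommRing R] (φ : B →+* R) (z ξ α β : R)
    (h : NRel (fun i => φ (p i)) (φ t) z ξ α β) (q : MvPolynomial (Fin 4) B)
    (hq : q ∈ NI B p t) : MvPolynomial.eval₂Hom φ ![z, ξ, α, β] q = 0 := by
  have hK : MvPolynomial.eval₂Hom φ ![z, ξ, α, β]
      (KK (fun i => MvPolynomial.C (p i)) (MvPolynomial.X 0) (MvPolynomial.X 1)) =
      KK (fun i => φ (p i)) z ξ := by
    rw [KK_map]
    simp
  have h0 : MvPolynomial.eval₂Hom φ ![z, ξ, α, β] (MvPolynomial.X 0) = z := by simp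
  have h1 : MvPolynomial.eval₂Hom φ ![z, ξ, α, β] (MvPolynomial.X 1) = ξ := by simp
  have h2 : MvPolynomial.eval₂Hom φ ![z, ξ, α, β] (MvPolynomial.X 2) = α := by simp
  have h3 : MvPolynomial.eval₂Hom φ ![z, ξ, α, β] (MvPolynomial.X 3) = β := by simp
  have hc : ∀ c : B, MvPolynomial.eval₂Hom φ ![z, ξ, α, β] (MvPolynomial.C c) = φ c :=
    fun c => by simp
  have : NI B p t ≤ RingHom.ker (MvPolynomial.eval₂Hom φ ![z, ξ, α, β]) := by
    rw [NI, Ideal.span_le]
    rintro q (rfl | rfl | rfl | rfl | rfl | rfl)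
    · change MvPolynomial.eval₂Hom φ ![z, ξ, α, β] _ = 0
      rw [map_sub, map_mul, map_pow, h0, h1, hc, h.zx, sub_self]
    · change MvPolynomial.eval₂Hom φ ![z, ξ, α, β] _ = 0
      rw [map_sub, map_mul, map_pow, hK, h1, h2, h.aa, sub_self]
    · change MvPolynomial.eval₂Hom φ ![z, ξ, α, β] _ = 0
      rw [map_sub, map_mul, map_pow, hK, h0, h3, h.bb, sub_self]
    · change MvPolynomial.eval₂Hom φ ![z, ξ, α, β] _ = 0
      rw [map_sub, map_mul, map_mul, hK, hc, h2, h3, h.ab, sub_self]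
    · change MvPolynomial.eval₂Hom φ ![z, ξ, α, β] _ = 0
      rw [map_sub, map_mul, map_mul, hc, h1, h2, h3, h.xb, sub_self]
    · change MvPolynomial.eval₂Hom φ ![z, ξ, α, β] _ = 0
      rw [map_sub, map_mul, map_mul, hc, h0, h2, h3, h.za, sub_self]
  exact this hq

/-- Homomorphisms from `N`. -/
noncomputable def liftN {R : Type} [CommRing R] (φ : B →+* R) (z ξ α β : R)
    (h : NRel (fun i => φ (p i)) (φ t) z ξ α β) : NN B p t →+* R :=
  Ideal.Quotient.lift _ (MvPolynomial.eval₂Hom φ ![z, ξ, α, β]) (killN φ z ξ α β h)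

section

variable {R : Type} [CommRing R] (φ : B →+* R)

@[simp]
theorem liftN_z (z ξ α β : R) (h : NRel (fun i => φ (p i)) (φ t) z ξ α β) :
    liftN φ z ξ α β h (zN B p t) = z :=
  (Ideal.Quotient.lift_mk _ _ _).trans (by simp)

@[simp]
theorem liftN_x (z ξ α β : R) (h : NRel (fun i => φ (p i)) (φ t) z ξ α β) :
    liftN φ z ξ α β h (xN B p t) = ξ :=
  (Ideal.Quotient.lift_mk _ _ _).trans (by simp)

@[simp]
theorem liftN_a (z ξ α β : R) (h : NRel (fun i => φ (p i)) (φ t) z ξ α β) :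
    liftN φ z ξ α β h (aN B p t) = α :=
  (Ideal.Quotient.lift_mk _ _ _).trans (by simp)

@[simp]
theorem liftN_b (z ξ α β : R) (h : NRel (fun i => φ (p i)) (φ t) z ξ α β) :
    liftN φ z ξ α β h (bN B p t) = β :=
  (Ideal.Quotient.lift_mk _ _ _).trans (by simp)

@[simp]
theorem liftN_c (z ξ α β : R) (h : NRel (fun i => φ (p i)) (φ t) z ξ α β) (c : B) :
    liftN φ z ξ α β h (algebraMap B _ c) = φ c :=
  (Ideal.Quotient.lift_mk (NI B p t) (MvPolynomial.eval₂Hom φ ![z, ξ, α, β])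
    (killN φ z ξ α β h) (a := MvPolynomial.C c)).trans (by simp)

theorem homN_ext {g g' : NN B p t →+* R} (h : ∀ c, g (algebraMap B _ c) = g' (algebraMap B _ c))
    (hz : g (zN B p t) = g' (zN B p t)) (hx : g (xN B p t) = g' (xN B p t))
    (ha : g (aN B p t) = g' (aN B p t)) (hb : g (bN B p t) = g' (bN B p t)) : g = g' := by
  refine Ideal.Quotient.ringHom_ext ?_
  refine MvPolynomial.ringHom_ext (fun c => h c) fun i => ?_
  fin_cases i
  · exact hz
  · exact hx
  · exact ha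
  · exact hb

end

/-! ### The symmetry -/

section swap

variable {p p' : Fin 7 → B} (h : ∀ i, p' i = p (Fin.rev i)) (h' : ∀ i, p i = p' (Fin.rev i))

include h' in
theorem relSw : NRel (fun i => algebraMap B (NN B p' t) (p i)) (algebraMap B (NN B p' t) t)
    (xN B p' t) (zN B p' t) (bN B p' t) (aN B p' t) :=
  (relN B p' t).swap fun i => by rw [h' i]

/-- The symmetry `z ↔ ξ`, `α ↔ β`. -/
noncomputable def swN (t : B) : NN B p t →+* NN B p' t :=
  liftN (algebraMap B (NN B p' t)) (xN B p' t) (zN B p' t) (bN B p' t) (aN B p' t) (relSw h')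

@[simp]
theorem swN_z : swN h' t (zN B p t) = xN B p' t := liftN_z _ _ _ _ _ _

@[simp]
theorem swN_x : swN h' t (xN B p t) = zN B p' t := liftN_x _ _ _ _ _ _

@[simp]
theorem swN_a : swN h' t (aN B p t) = bN B p' t := liftN_a _ _ _ _ _ _

@[simp]
theorem swN_b : swN h' t (bN B p t) = aN B p' t := liftN_b _ _ _ _ _ _

@[simp]
theorem swN_c (c : B) : swN h' t (algebraMap B _ c) = algebraMap B _ c := liftN_c _ _ _ _ _ _ _

theorem swN_swN : (swN h t).comp (swN h' t) = RingHom.id (NN B p t) := by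
  refine homN_ext ?_ ?_ ?_ ?_ ?_
  · intro c
    simp
  all_goals simp

/-- The symmetry as an isomorphism. -/
noncomputable def swEquiv (t : B) : NN B p t ≃+* NN B p' t :=
  RingEquiv.ofRingHom (swN h' t) (swN h t) (swN_swN h' h) (swN_swN h h')

end swap

/-! ### The intersections of the charts -/

variable (B p t)

theorem relnT : NRel (fun i => algebraMap B (A12 B (pT p t)) (p i))
    (algebraMap B (A12 B (pT p t)) t)
    (algebraMap B (A12 B (pT p t)) t ^ 2 * (xu B (pT p t) : A12 B (pT p t)))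
    ((xu B (pT p t))⁻¹ : (A12 B (pT p t))ˣ).val
    (yv B (pT p t) * ((xu B (pT p t))⁻¹ : (A12 B (pT p t))ˣ).val ^ 2)
    (algebraMap B (A12 B (pT p t)) t *
      (yv B (pT p t) * ((xu B (pT p t))⁻¹ : (A12 B (pT p t))ˣ).val)) := by
  refine relT _ _ (Units.mul_inv _) ?_
  rw [rel12]
  congr 1
  funext i
  exact pT_map _ _ _ _

/-- Restriction from `N` to `N ∩ T`. -/
noncomputable def nT : NN B p t →+* A12 B (pT p t) :=
  liftN (algebraMap B (A12 B (pT p t)))
    (algebraMap B (A12 B (pT p t)) t ^ 2 * (xu B (pT p t) : A12 B (pT p t)))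
    ((xu B (pT p t))⁻¹ : (A12 B (pT p t))ˣ).val
    (yv B (pT p t) * ((xu B (pT p t))⁻¹ : (A12 B (pT p t))ˣ).val ^ 2)
    (algebraMap B (A12 B (pT p t)) t *
      (yv B (pT p t) * ((xu B (pT p t))⁻¹ : (A12 B (pT p t))ˣ).val))
    (relnT B p t)

@[simp]
theorem nT_z : nT B p t (zN B p t) =
    algebraMap B (A12 B (pT p t)) t ^ 2 * (xu B (pT p t) : A12 B (pT p t)) :=
  liftN_z _ _ _ _ _ _

@[simp]
theorem nT_x : nT B p t (xN B p t) = ((xu B (pT p t))⁻¹ : (A12 B (pT p t))ˣ).val :=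
  liftN_x _ _ _ _ _ _

@[simp]
theorem nT_a : nT B p t (aN B p t) =
    yv B (pT p t) * ((xu B (pT p t))⁻¹ : (A12 B (pT p t))ˣ).val ^ 2 :=
  liftN_a _ _ _ _ _ _

@[simp]
theorem nT_b : nT B p t (bN B p t) = algebraMap B (A12 B (pT p t)) t *
    (yv B (pT p t) * ((xu B (pT p t))⁻¹ : (A12 B (pT p t))ˣ).val) :=
  liftN_b _ _ _ _ _ _

@[simp]
theorem nT_c (c : B) : nT B p t (algebraMap B _ c) = algebraMap B _ c := liftN_c _ _ _ _ _ _ _

/-- The localisation of `N` at `ξ`. -/
abbrev LN : Type := Localization.Away (xN B p t)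

/-- `1/ξ` -/
noncomputable def xiu : (LN B p t)ˣ :=
  (IsLocalization.Away.algebraMap_isUnit (S := LN B p t) (xN B p t)).unit⁻¹

theorem xiu_inv : (((xiu B p t)⁻¹ : (LN B p t)ˣ) : LN B p t) =
    algebraMap (NN B p t) (LN B p t) (xN B p t) := by
  rw [xiu, inv_inv]
  rfl

theorem relLN : (algebraMap (NN B p t) (LN B p t) (aN B p t) * (xiu B p t : LN B p t) ^ 2) ^ 2 =
    pol (fun i => algebraMap B (LN B p t) (pT p t i)) (xiu B p t : LN B p t) := by
  have h := ((relN B p t).map (algebraMap (NN B p t) (LN B p t))).toT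
    (x := (xiu B p t : LN B p t)) (by rw [← xiu_inv, Units.mul_inv])
  rw [h]
  congr 1
  funext i
  exact (pT_map (algebraMap B (LN B p t)) p t i).symm

/-- The inverse comparison. -/
noncomputable def nTi : A12 B (pT p t) →+* LN B p t :=
  lift12 (algebraMap B (LN B p t)) (xiu B p t)
    (algebraMap (NN B p t) (LN B p t) (aN B p t) * (xiu B p t : LN B p t) ^ 2) (relLN B p t)

@[simp]
theorem nTi_x : nTi B p t (xu B (pT p t) : A12 B (pT p t)) = xiu B p t := lift12_x _ _ _ _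

@[simp]
theorem nTi_xi : nTi B p t ((xu B (pT p t))⁻¹ : (A12 B (pT p t))ˣ).val =
    algebraMap (NN B p t) (LN B p t) (xN B p t) := by
  rw [nTi, lift12_xi, xiu_inv]

@[simp]
theorem nTi_y : nTi B p t (yv B (pT p t)) =
    algebraMap (NN B p t) (LN B p t) (aN B p t) * (xiu B p t : LN B p t) ^ 2 :=
  lift12_y _ _ _ _

@[simp]
theorem nTi_c (c : B) : nTi B p t (algebraMap B _ c) = algebraMap B _ c := lift12_b _ _ _ _ _

theorem nTi_nT : (nTi B p t).comp (nT B p t) = algebraMap (NN B p t) (LN B p t) := by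
  have hx : algebraMap (NN B p t) (LN B p t) (xN B p t) * (xiu B p t : LN B p t) = 1 := by
    rw [← xiu_inv, Units.inv_mul]
  have ht : algebraMap B (LN B p t) t = algebraMap (NN B p t) (LN B p t) (algebraMap B _ t) := rfl
  have hzx := congrArg (algebraMap (NN B p t) (LN B p t)) (relN B p t).zx
  have hxb := congrArg (algebraMap (NN B p t) (LN B p t)) (relN B p t).xb
  rw [map_mul, map_pow] at hzx
  rw [map_mul, map_mul] at hxb
  refine homN_ext ?_ ?_ ?_ ?_ ?_
  · intro c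
    rw [RingHom.comp_apply, nT_c, nTi_c]
    rfl
  · rw [RingHom.comp_apply, nT_z, map_mul, map_pow, nTi_c, nTi_x, ht, ← hzx, mul_assoc, hx,
      mul_one]
  · rw [RingHom.comp_apply, nT_x, nTi_xi]
  · rw [RingHom.comp_apply, nT_a, map_mul, map_pow, nTi_y, nTi_xi, mul_assoc, ← mul_pow,
      mul_comm (xiu B p t : LN B p t), hx, one_pow, mul_one]
  · rw [RingHom.comp_apply, nT_b, map_mul, map_mul, nTi_c, nTi_y, nTi_xi, ht]
    linear_combination -(xiu B p t : LN B p t) ^ 2 *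
      algebraMap (NN B p t) (LN B p t) (xN B p t) * hxb +
      algebraMap (NN B p t) (LN B p t) (bN B p t) *
        (algebraMap (NN B p t) (LN B p t) (xN B p t) * (xiu B p t : LN B p t) + 1) * hx

theorem nT_unit : IsUnit (nT B p t (xN B p t)) := by
  rw [nT_x]
  exact Units.isUnit _

/-- The comparison. -/
noncomputable def nTc : LN B p t →+* A12 B (pT p t) :=
  IsLocalization.Away.lift (xN B p t) (nT_unit B p t)

theorem nTc_alg (v : NN B p t) : nTc B p t (algebraMap (NN B p t) (LN B p t) v) = nT B p t v :=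
  IsLocalization.Away.lift_eq _ _ _

theorem nTc_xiu : nTc B p t (xiu B p t : LN B p t) = (xu B (pT p t) : A12 B (pT p t)) := by
  have h1 : nTc B p t (xiu B p t : LN B p t) *
      nTc B p t (algebraMap (NN B p t) (LN B p t) (xN B p t)) = 1 := by
    rw [← map_mul, ← xiu_inv, Units.mul_inv, map_one]
  rw [nTc_alg, nT_x] at h1
  have h2 : (xu B (pT p t) : A12 B (pT p t)) *
    ((xu B (pT p t))⁻¹ : (A12 B (pT p t))ˣ).val = 1 := Units.mul_inv _
  exact (Units.isUnit (xu B (pT p t))⁻¹).mul_left_injective (h1.trans h2.symm)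

theorem nTc_nTi : (nTc B p t).comp (nTi B p t) = RingHom.id _ := by
  refine hom12_ext ?_ ?_ ?_
  · intro c
    rw [RingHom.comp_apply, nTi_c, RingHom.id_apply]
    exact (nTc_alg B p t (algebraMap B _ c)).trans (nT_c B p t c)
  · rw [RingHom.comp_apply, nTi_x, nTc_xiu, RingHom.id_apply]
  · rw [RingHom.comp_apply, nTi_y, map_mul, map_pow, nTc_alg, nTc_xiu, nT_a, RingHom.id_apply,
      mul_assoc, ← mul_pow, Units.inv_mul, one_pow, mul_one]

theorem nTi_nTc : (nTi B p t).comp (nTc B p t) = RingHom.id _ := by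
  refine IsLocalization.ringHom_ext (Submonoid.powers (xN B p t)) ?_
  refine RingHom.ext fun v => ?_
  change nTi B p t (nTc B p t (algebraMap (NN B p t) (LN B p t) v)) = _
  rw [nTc_alg]
  exact congrArg (fun g => g v) (nTi_nT B p t)

/-- The comparison isomorphism. -/
noncomputable def nTe : LN B p t ≃+* A12 B (pT p t) :=
  RingEquiv.ofRingHom (nTc B p t) (nTi B p t) (nTc_nTi B p t) (nTi_nTc B p t)

/-- `N ∩ T` is the localisation of `N` at `ξ`. -/
theorem nT_loc : @IsLocalization.Away _ _ (xN B p t) (A12 B (pT p t)) _ (nT B p t).toAlgebra := by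
  letI := (nT B p t).toAlgebra
  refine IsLocalization.isLocalization_of_algEquiv (Submonoid.powers (xN B p t))
    (S := LN B p t) ⟨(nTe B p t).toEquiv, (nTe B p t).map_mul, (nTe B p t).map_add, ?_⟩
  intro v
  exact nTc_alg B p t v

instance openNT : IsOpenImmersion (spMap (nT B p t)) := by
  have h1 : nT B p t = (nTe B p t : LN B p t →+* A12 B (pT p t)).comp
      (algebraMap (NN B p t) (LN B p t)) :=
    RingHom.ext fun v => (nTc_alg B p t v).symm
  have h2 : spMap (nT B p t) = spMap (nTe B p t : LN B p t →+* A12 B (pT p t)) ≫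
      spMap (algebraMap (NN B p t) (LN B p t)) := by
    rw [h1]
    exact Spec.map_comp (CommRingCat.ofHom (algebraMap (NN B p t) (LN B p t)))
      (CommRingCat.ofHom (nTe B p t : LN B p t →+* A12 B (pT p t)))
  have h3 : IsIso (spMap (nTe B p t : LN B p t →+* A12 B (pT p t))) := by
    have : IsIso (CommRingCat.ofHom (nTe B p t : LN B p t →+* A12 B (pT p t))) :=
      (RingEquiv.toCommRingCatIso (nTe B p t)).isIso_hom
    infer_instance
  rw [h2]
  infer_instance

/-- The range of `N ∩ T` in `N`. -/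
theorem range_nT (x : Sp (NN B p t)) :
    x ∈ Set.range (spMap (nT B p t)) ↔ xN B p t ∉ x.asIdeal := by
  letI := (nT B p t).toAlgebra
  haveI := nT_loc B p t
  have h : Set.range (PrimeSpectrum.comap (algebraMap (NN B p t) (A12 B (pT p t)))) =
      (PrimeSpectrum.basicOpen (xN B p t) : Set _) :=
    PrimeSpectrum.localization_away_comap_range (A12 B (pT p t)) (xN B p t)
  change x ∈ Set.range (PrimeSpectrum.comap (algebraMap (NN B p t) (A12 B (pT p t)))) ↔ _
  rw [h]
  rfl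

/-- The range of `T[1/X]` in `T`. -/
theorem range_g1 {f : Fin 7 → B} (x : Sp (A1 B f)) :
    x ∈ Set.range (spMap (g1 B f)) ↔ x1 B f ∉ x.asIdeal := by
  have h : Set.range (PrimeSpectrum.comap (algebraMap (A1 B f) (A12 B f))) =
      (PrimeSpectrum.basicOpen (x1 B f) : Set _) :=
    PrimeSpectrum.localization_away_comap_range (A12 B f) (x1 B f)
  change x ∈ Set.range (PrimeSpectrum.comap (algebraMap (A1 B f) (A12 B f))) ↔ _
  rw [h]
  rfl

/-! ### The intersection of `N` and `Q` -/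

/-- Restriction from `N` to `N ∩ Q`. -/
noncomputable def nQ : NN B p t →+* A12 B (pT (rev p) t) :=
  (nT B (rev p) t).comp (swN (rev_h p) t)

@[simp]
theorem nQ_z : nQ B p t (zN B p t) =
    ((xu B (pT (rev p) t))⁻¹ : (A12 B (pT (rev p) t))ˣ).val := by
  rw [nQ, RingHom.comp_apply, swN_z, nT_x]

@[simp]
theorem nQ_x : nQ B p t (xN B p t) =
    algebraMap B (A12 B (pT (rev p) t)) t ^ 2 *
      (xu B (pT (rev p) t) : A12 B (pT (rev p) t)) := by
  rw [nQ, RingHom.comp_apply, swN_x, nT_z]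

@[simp]
theorem nQ_b : nQ B p t (bN B p t) =
    yv B (pT (rev p) t) * ((xu B (pT (rev p) t))⁻¹ : (A12 B (pT (rev p) t))ˣ).val ^ 2 := by
  rw [nQ, RingHom.comp_apply, swN_b, nT_a]

@[simp]
theorem nQ_a : nQ B p t (aN B p t) = algebraMap B (A12 B (pT (rev p) t)) t *
    (yv B (pT (rev p) t) * ((xu B (pT (rev p) t))⁻¹ : (A12 B (pT (rev p) t))ˣ).val) := by
  rw [nQ, RingHom.comp_apply, swN_a, nT_b]

@[simp]
theorem nQ_c (c : B) : nQ B p t (algebraMap B _ c) = algebraMap B _ c := by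
  rw [nQ, RingHom.comp_apply, swN_c, nT_c]

instance openNQ : IsOpenImmersion (spMap (nQ B p t)) := by
  have h2 : spMap (nQ B p t) = spMap (nT B (rev p) t) ≫
      spMap (swEquiv (rev_h' p) (rev_h p) t : NN B p t →+* NN B (rev p) t) :=
    Spec.map_comp (CommRingCat.ofHom (swEquiv (rev_h' p) (rev_h p) t :
      NN B p t →+* NN B (rev p) t)) (CommRingCat.ofHom (nT B (rev p) t))
  have h3 : IsIso (spMap (swEquiv (rev_h' p) (rev_h p) t : NN B p t →+* NN B (rev p) t)) := by
    have : IsIso (CommRingCat.ofHom (swEquiv (rev_h' p) (rev_h p) t :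
        NN B p t →+* NN B (rev p) t)) :=
      (RingEquiv.toCommRingCatIso (swEquiv (rev_h' p) (rev_h p) t)).isIso_hom
    infer_instance
  rw [h2]
  infer_instance

/-- `N ∩ Q` is the localisation of `N` at `z`. -/
theorem nQ_loc : @IsLocalization.Away _ _ (zN B p t) (A12 B (pT (rev p) t)) _
    (nQ B p t).toAlgebra := by
  letI := (nT B (rev p) t).toAlgebra
  haveI := nT_loc B (rev p) t
  have h := IsLocalization.isLocalization_of_base_ringEquiv
    (Submonoid.powers (xN B (rev p) t)) (A12 B (pT (rev p) t))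
    (swEquiv (rev_h' p) (rev_h p) t).symm
  rw [Submonoid.map_powers] at h
  have h1 : (swEquiv (rev_h' p) (rev_h p) t).symm (xN B (rev p) t) = zN B p t :=
    swN_x (rev_h' p)
  exact h1 ▸ h

/-- The range of `N ∩ Q` in `N`. -/
theorem range_nQ (x : Sp (NN B p t)) :
    x ∈ Set.range (spMap (nQ B p t)) ↔ zN B p t ∉ x.asIdeal := by
  letI := (nQ B p t).toAlgebra
  haveI := nQ_loc B p t
  have h : Set.range (PrimeSpectrum.comap (algebraMap (NN B p t) (A12 B (pT (rev p) t)))) =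
      (PrimeSpectrum.basicOpen (zN B p t) : Set _) :=
    PrimeSpectrum.localization_away_comap_range (A12 B (pT (rev p) t)) (zN B p t)
  change x ∈ Set.range (PrimeSpectrum.comap (algebraMap (NN B p t) (A12 B (pT (rev p) t)))) ↔ _
  rw [h]
  rfl

end ring

end Pool.Agent.MG.H2
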